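import Pool.Agent.H40.Voter.Ctmc

/-!
# Module AC: a limit in law in the Skorokhod space whose increments are asymptotically Gaussian is
continuous

Let `E exp (i θ (Y_t - Y_s)) → exp (- v θ² (t - s)/2 + i μ θ (t - s))` for all `s ≤ t`, `θ`, and suppose
that `Y → Z` in law (`ConvInLaw`).
1. For `h > 0` and bounded continuous `f g : ℝ → ℝ` the functional
   `x ↦ (∫_t^{t+h} f (x u) du) * (∫_s^{s+h} g (x u) du)` is bounded, measurable and `SkoContinuous`:
   if `SkoTendsto x y`, then `x n u → y u` at every continuity point `u` of `y` (write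
   `x n u = x n (λ_n (λ_n⁻¹ u))`), and a càdlàg function has at most countably many discontinuities;
   dominated convergence. (Alternatively approximate by Riemann sums.)
2. With `cos`, `sin` and Fubini (`(u, ω) ↦ (Y ε ω) u` is jointly measurable by right continuity),
   `E ∫∫ cos (θ (Z_u - Z_r)) = ∫∫ Re exp (..)` over `[t, t+h] × [s, s+h]`, `s + h ≤ t`; the same with `sin`;
   divide by `h²` and let `h → 0` (right continuity): `E exp (i θ (Z_t - Z_s))` is the Gaussian value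
   for all `s < t`.
3. So `Z_t - Z_s` has law `gaussianReal (μ (t-s)) (v (t-s))` (`Measure.ext_of_charFun`), and
   `P {|Z_t - Z_s| > δ} ≤ C (t-s)² / δ⁴` for `t - s ≤ 1` (fourth moment, or Gaussian tails).
4. If `Z ω` has a jump larger than `δ` at a time in `(0, T]`, then for all large `n` some increment
   over `[k/n, (k+1)/n]`, `k < n T + 1`, is larger than `δ`; the probability of the latter is
   at most `(n T + 1) C/(n² δ⁴) → 0`. So `Z` has no jumps almost surely.
-/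

open MeasureTheory ProbabilityTheory Filter Topology
open scoped ENNReal NNReal

namespace H40.VM

open H40.Voter (SkoD ConvInLaw SkoTendsto SkoContinuous Cadlag)

/-- a right continuous function with left limits has at most countably many discontinuities -/
lemma ac_countable {x : ℝ≥0 → ℝ} (hx : Cadlag x) : {t | ¬ ContinuousAt x t}.Countable := by
  set A : ℚ → ℚ → Set ℝ≥0 := fun q r => {t | (r : ℝ) < t ∧
    (∀ s : ℝ≥0, (r : ℝ) < s → s < t → x s < q) ∧ (q : ℝ) < x t} with hA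
  set B : ℚ → ℚ → Set ℝ≥0 := fun q r => {t | (r : ℝ) < t ∧
    (∀ s : ℝ≥0, (r : ℝ) < s → s < t → (q : ℝ) < x s) ∧ x t < q} with hB
  have hAs : ∀ q r, (A q r).Subsingleton := by
    intro q r t ht t' ht'
    by_contra hne
    rcases lt_or_gt_of_ne hne with h | h
    · have := ht'.2.1 t ht.1 h
      linarith [ht.2.2]
    · have := ht.2.1 t' ht'.1 h
      linarith [ht'.2.2]
  have hBs : ∀ q r, (B q r).Subsingleton := by
    intro q r t ht t' ht'
    by_contra hne
    rcases lt_or_gt_of_ne hne with h | h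
    · have := ht'.2.1 t ht.1 h
      linarith [ht.2.2]
    · have := ht.2.1 t' ht'.1 h
      linarith [ht'.2.2]
  have hsub : {t | ¬ ContinuousAt x t} ⊆ ⋃ (q : ℚ) (r : ℚ), (A q r ∪ B q r) := by
    intro t ht
    have ht' : ¬ ContinuousAt x t := ht
    obtain ⟨hr, l, hl⟩ := hx t
    rcases eq_or_ne t 0 with rfl | h0
    · exfalso
      apply ht'
      have h5 : (Set.Ici (0 : ℝ≥0)) = Set.univ := Set.eq_univ_of_forall fun x => Set.mem_Ici.2 zero_le
      rw [ContinuousWithinAt, h5, nhdsWithin_univ] at hr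
      exact hr
    · have hlt : l ≠ x t := by
        intro hlx
        apply ht'
        rw [continuousAt_iff_continuous_left'_right']
        constructor
        · rw [ContinuousWithinAt, ← hlx]
          exact hl
        · exact hr.mono Set.Ioi_subset_Ici_self
      have hpos : 0 < t := pos_iff_ne_zero.2 h0
      -- a neighbourhood from the left
      have key : ∀ U ∈ 𝓝 l, ∃ r : ℚ, (r : ℝ) < t ∧ ∀ s : ℝ≥0, (r : ℝ) < s → s < t → x s ∈ U := by
        intro U hU
        have h1 : ∀ᶠ s in 𝓝[<] t, x s ∈ U := hl hU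
        rw [(nhdsLT_basis_of_exists_lt ⟨0, hpos⟩).eventually_iff] at h1
        obtain ⟨c, hc, h2⟩ := h1
        have hc' : (c : ℝ) < t := hc
        obtain ⟨r, hr1, hr2⟩ := exists_rat_btwn hc'
        refine ⟨r, hr2, fun s hs1 hs2 => h2 ⟨?_, hs2⟩⟩
        have : (c : ℝ) < s := hr1.trans hs1
        exact_mod_cast this
      rcases lt_or_gt_of_ne hlt with h | h
      · obtain ⟨q, hq1, hq2⟩ := exists_rat_btwn h
        obtain ⟨r, hr1, hr2⟩ := key (Set.Iio (q : ℝ)) (Iio_mem_nhds hq1)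
        refine Set.mem_iUnion₂.2 ⟨q, r, Or.inl ⟨hr1, fun s h3 h4 => hr2 s h3 h4, hq2⟩⟩
      · obtain ⟨q, hq1, hq2⟩ := exists_rat_btwn h
        obtain ⟨r, hr1, hr2⟩ := key (Set.Ioi (q : ℝ)) (Ioi_mem_nhds hq2)
        refine Set.mem_iUnion₂.2 ⟨q, r, Or.inr ⟨hr1, fun s h3 h4 => hr2 s h3 h4, hq1⟩⟩
  refine Set.Countable.mono hsub ?_
  refine Set.countable_iUnion fun q => Set.countable_iUnion fun r => ?_
  exact (hAs q r).countable.union (hBs q r).countable

/-- Skorokhod convergence implies convergence at the continuity points of the limit -/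
lemma ac_tendsto {x : ℕ → SkoD} {y : SkoD} (h : SkoTendsto x y) {u : ℝ≥0}
    (hu : ContinuousAt y.1 u) : Tendsto (fun n => (x n).1 u) atTop (𝓝 (y.1 u)) := by
  obtain ⟨lam, h1, h2⟩ := h
  have hs : Tendsto (fun n => (lam n).symm u) atTop (𝓝 u) := by
    rw [Metric.tendsto_nhds]
    intro e he
    filter_upwards [Metric.tendstoUniformly_iff.1 h1 e he] with n hn
    have := hn ((lam n).symm u)
    rwa [OrderIso.apply_symm_apply] at this
  have hy : Tendsto (fun n => y.1 ((lam n).symm u)) atTop (𝓝 (y.1 u)) := hu.tendsto.comp hs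
  have hd : Tendsto (fun n => (x n).1 u - y.1 ((lam n).symm u)) atTop (𝓝 0) := by
    rw [Metric.tendsto_nhds]
    intro e he
    have h3 := Metric.tendstoUniformlyOn_iff.1 (h2 (u + 1)) e he
    have h4 : ∀ᶠ n in atTop, (lam n).symm u ≤ u + 1 :=
      hs.eventually (ge_mem_nhds (lt_add_one u))
    filter_upwards [h3, h4] with n hn1 hn2
    have := hn1 _ hn2
    rw [OrderIso.apply_symm_apply, dist_comm, Real.dist_eq] at this
    rw [Real.dist_eq, sub_zero]
    exact this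
  have := hd.add hy
  simpa using this

lemma ac_measurable_ev (t : ℝ≥0) : Measurable (fun x : SkoD => x.1 t) := by
  have : Measurable (fun x : {x : ℝ≥0 → ℝ // Cadlag x} => x.1 t) :=
    (measurable_pi_apply t).comp measurable_subtype_coe
  exact this

/-- joint measurability -/
lemma ac_measurable {Ω : Type*} [MeasurableSpace Ω] {Y : Ω → SkoD} (hY : Measurable Y) :
    Measurable fun p : Ω × ℝ≥0 => (Y p.1).1 p.2 := by
  have happ : ∀ n : ℕ, Measurable fun p : Ω × ℝ≥0 =>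
      (Y p.1).1 ((⌊p.2 * ((n : ℝ≥0) + 1)⌋₊ + 1 : ℝ≥0) / ((n : ℝ≥0) + 1)) := by
    intro n
    have h1 : Measurable fun p : Ω × ℕ => (Y p.1).1 ((p.2 + 1 : ℝ≥0) / ((n : ℝ≥0) + 1)) :=
      measurable_from_prod_countable_left fun k =>
        (ac_measurable_ev (((k : ℕ) + 1 : ℝ≥0) / ((n : ℝ≥0) + 1))).comp hY
    have h2 : Measurable fun p : Ω × ℝ≥0 => (p.1, ⌊p.2 * ((n : ℝ≥0) + 1)⌋₊) :=
      measurable_fst.prodMk (Nat.measurable_floor.comp (measurable_snd.mul_const _))
    exact h1.comp h2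
  refine measurable_of_tendsto_metrizable happ ?_
  rw [tendsto_pi_nhds]
  rintro ⟨ω, u⟩
  have hr : ContinuousWithinAt (Y ω).1 (Set.Ici u) u := ((Y ω).2 u).1
  refine hr.tendsto.comp (tendsto_nhdsWithin_iff.2 ⟨?_, Eventually.of_forall fun n => ?_⟩)
  · have hlow : ∀ n : ℕ, u ≤ (⌊u * ((n : ℝ≥0) + 1)⌋₊ + 1 : ℝ≥0) / ((n : ℝ≥0) + 1) := by
      intro n
      rw [le_div_iff₀ (by positivity)]
      exact (Nat.lt_floor_add_one _).le
    have hup : ∀ n : ℕ, (⌊u * ((n : ℝ≥0) + 1)⌋₊ + 1 : ℝ≥0) / ((n : ℝ≥0) + 1) ≤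
        u + 1 / ((n : ℝ≥0) + 1) := by
      intro n
      rw [add_div]
      gcongr
      rw [div_le_iff₀ (by positivity)]
      exact Nat.floor_le zero_le
    refine tendsto_of_tendsto_of_tendsto_of_le_of_le tendsto_const_nhds ?_ hlow hup
    have : Tendsto (fun n : ℕ => 1 / ((n : ℝ≥0) + 1)) atTop (𝓝 0) :=
      tendsto_one_div_add_atTop_nhds_zero_nat
    simpa using this.const_add u
  · change u ≤ _
    rw [le_div_iff₀ (by positivity)]
    exact (Nat.lt_floor_add_one _).le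

/-- the time `t + h p` -/
noncomputable def acT (t h : ℝ≥0) (p : unitInterval) : ℝ≥0 := t + h * ⟨(p : ℝ), p.2.1⟩

lemma acT_coe (t h : ℝ≥0) (p : unitInterval) : (acT t h p : ℝ) = t + h * p := by
  unfold acT
  push_cast
  rfl

lemma ac_continuous_T (t h : ℝ≥0) : Continuous (acT t h) := by
  unfold acT
  refine continuous_const.add (continuous_const.mul ?_)
  exact Continuous.subtype_mk continuous_subtype_val _

lemma acT_inj {t h : ℝ≥0} (hh : 0 < h) : Function.Injective (acT t h) := by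
  intro p q hpq
  have h1 := congrArg (fun z : ℝ≥0 => (z : ℝ)) hpq
  simp only [acT_coe] at h1
  have hh' : (0 : ℝ) < h := by exact_mod_cast hh
  apply Subtype.ext
  have : (h : ℝ) * p = h * q := by linarith
  exact mul_left_cancel₀ hh'.ne' this

lemma acT_ge (t h : ℝ≥0) (p : unitInterval) : t ≤ acT t h p := by
  unfold acT; exact le_self_add

lemma acT_le (t h : ℝ≥0) (p : unitInterval) : acT t h p ≤ t + h := by
  rw [← NNReal.coe_le_coe, acT_coe, NNReal.coe_add]
  have h1 : (h : ℝ) * p ≤ h * 1 := mul_le_mul_of_nonneg_left p.2.2 h.2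
  linarith

lemma ac_ae_cont {x : ℝ≥0 → ℝ} (hx : Cadlag x) (t : ℝ≥0) {h : ℝ≥0} (hh : 0 < h) :
    ∀ᵐ p : unitInterval, ContinuousAt x (acT t h p) := by
  have h1 : {p : unitInterval | ¬ ContinuousAt x (acT t h p)}.Countable :=
    (ac_countable hx).preimage (acT_inj hh)
  exact h1.measure_zero volume

/-- the averaged functional -/
noncomputable def acF (c : ℝ → ℝ) (t s h : ℝ≥0) (x : SkoD) : ℝ :=
  ∫ p : unitInterval × unitInterval, c (x.1 (acT t h p.1) - x.1 (acT s h p.2))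

lemma ac_meas_path (x : SkoD) : Measurable x.1 := by
  have h := ac_measurable (Ω := Unit) (Y := fun _ => x) measurable_const
  exact h.comp (measurable_const.prodMk measurable_id : Measurable fun u : ℝ≥0 => ((), u))

lemma ac_meas_integrand {c : ℝ → ℝ} (hc : Continuous c) (t s h : ℝ≥0) :
    Measurable fun q : SkoD × (unitInterval × unitInterval) =>
      c (q.1.1 (acT t h q.2.1) - q.1.1 (acT s h q.2.2)) := by
  have h1 := ac_measurable (Ω := SkoD) (Y := id) measurable_id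
  have h2 : Measurable fun q : SkoD × (unitInterval × unitInterval) => (q.1, acT t h q.2.1) :=
    measurable_fst.prodMk ((ac_continuous_T t h).measurable.comp (measurable_fst.comp measurable_snd))
  have h3 : Measurable fun q : SkoD × (unitInterval × unitInterval) => (q.1, acT s h q.2.2) :=
    measurable_fst.prodMk ((ac_continuous_T s h).measurable.comp (measurable_snd.comp measurable_snd))
  exact hc.measurable.comp ((h1.comp h2).sub (h1.comp h3))

lemma ac_F_meas {c : ℝ → ℝ} (hc : Continuous c) (t s h : ℝ≥0) : Measurable (acF c t s h) := by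
  unfold acF
  exact ((ac_meas_integrand hc t s h).stronglyMeasurable.integral_prod_right').measurable

lemma ac_F_bdd {c : ℝ → ℝ} {C : ℝ} (hC : ∀ z, |c z| ≤ C) (t s h : ℝ≥0) (x : SkoD) :
    |acF c t s h x| ≤ C := by
  unfold acF
  rw [← Real.norm_eq_abs]
  refine (norm_integral_le_of_norm_le_const (C := C)
    (Eventually.of_forall fun p => by rw [Real.norm_eq_abs]; exact hC _)).trans ?_
  simp

lemma ac_F_cont {c : ℝ → ℝ} (hc : Continuous c) {C : ℝ} (hC : ∀ z, |c z| ≤ C) (t s : ℝ≥0) {h : ℝ≥0}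
    (hh : 0 < h) : SkoContinuous (acF c t s h) := by
  intro x y hxy
  unfold acF
  refine tendsto_integral_of_dominated_convergence (fun _ => C) (fun n => ?_)
    (integrable_const C) (fun n => Eventually.of_forall fun p => by
      rw [Real.norm_eq_abs]; exact hC _) ?_
  · have h1 := ac_meas_integrand hc t s h
    exact (h1.comp (measurable_const.prodMk measurable_id :
      Measurable fun p : unitInterval × unitInterval => (x n, p))).aestronglyMeasurable
  · have h1 : ∀ᵐ p : unitInterval × unitInterval, ContinuousAt y.1 (acT t h p.1) := by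
      have := Measure.quasiMeasurePreserving_fst (μ := (volume : Measure unitInterval))
        (ν := (volume : Measure unitInterval))
      exact this.ae (ac_ae_cont y.2 t hh)
    have h2 : ∀ᵐ p : unitInterval × unitInterval, ContinuousAt y.1 (acT s h p.2) := by
      have := Measure.quasiMeasurePreserving_snd (μ := (volume : Measure unitInterval))
        (ν := (volume : Measure unitInterval))
      exact this.ae (ac_ae_cont y.2 s hh)
    filter_upwards [h1, h2] with p hp1 hp2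
    exact (hc.tendsto _).comp ((ac_tendsto hxy hp1).sub (ac_tendsto hxy hp2))

/-- Fubini -/
lemma ac_fubini {Ω : Type} [MeasurableSpace Ω] {P : Measure Ω} [IsProbabilityMeasure P]
    {Y : Ω → SkoD} (hY : Measurable Y) {c : ℝ → ℝ} (hc : Continuous c) {C : ℝ}
    (hC : ∀ z, |c z| ≤ C) (t s h : ℝ≥0) :
    ∫ ω, acF c t s h (Y ω) ∂P =
      ∫ p : unitInterval × unitInterval,
        ∫ ω, c ((Y ω).1 (acT t h p.1) - (Y ω).1 (acT s h p.2)) ∂P := by
  unfold acF
  refine integral_integral_swap ?_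
  refine Integrable.of_bound (C := C) ?_ (Eventually.of_forall fun q => by
    rw [Real.norm_eq_abs]; exact hC _)
  have h1 := ac_meas_integrand hc t s h
  exact (h1.comp ((hY.comp measurable_fst).prodMk measurable_snd :
    Measurable fun q : Ω × (unitInterval × unitInterval) => (Y q.1, q.2))).aestronglyMeasurable

/-- the mesh -/
noncomputable def acH (t s : ℝ≥0) (n : ℕ) : ℝ≥0 := (t - s) / ((n : ℝ≥0) + 1)

lemma acH_tendsto (t s : ℝ≥0) : Tendsto (acH t s) atTop (𝓝 0) := by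
  have h1 : Tendsto (fun n : ℕ => 1 / ((n : ℝ≥0) + 1)) atTop (𝓝 0) :=
    tendsto_one_div_add_atTop_nhds_zero_nat
  have h2 := h1.const_mul (t - s)
  rw [mul_zero] at h2
  refine h2.congr fun n => ?_
  unfold acH
  rw [mul_one_div]

lemma acH_le (t s : ℝ≥0) (n : ℕ) : acH t s n ≤ t - s := by
  unfold acH
  exact div_le_self zero_le (by simp)

lemma acH_pos {t s : ℝ≥0} (h : s < t) (n : ℕ) : 0 < acH t s n := by
  unfold acH
  exact div_pos (tsub_pos_of_lt h) (by positivity)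

lemma ac_T_tendsto (t : ℝ≥0) {h : ℕ → ℝ≥0} (hh : Tendsto h atTop (𝓝 0)) (p : unitInterval) :
    Tendsto (fun n => acT t (h n) p) atTop (𝓝[≥] t) := by
  refine tendsto_nhdsWithin_iff.2 ⟨?_, Eventually.of_forall fun n => acT_ge _ _ _⟩
  unfold acT
  obtain ⟨w, hw⟩ : ∃ w : ℝ≥0, w = ⟨(p : ℝ), p.2.1⟩ := ⟨_, rfl⟩
  rw [← hw]
  have := (hh.mul_const w).const_add t
  simpa using this

lemma ac_F_lim {c : ℝ → ℝ} (hc : Continuous c) {C : ℝ} (hC : ∀ z, |c z| ≤ C) (t s : ℝ≥0)
    {h : ℕ → ℝ≥0} (hh : Tendsto h atTop (𝓝 0)) (x : SkoD) :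
    Tendsto (fun n => acF c t s (h n) x) atTop (𝓝 (c (x.1 t - x.1 s))) := by
  have e : c (x.1 t - x.1 s) = ∫ _p : unitInterval × unitInterval, c (x.1 t - x.1 s) := by simp
  rw [e]
  unfold acF
  refine tendsto_integral_of_dominated_convergence (fun _ => C) (fun n => ?_)
    (integrable_const C) (fun n => Eventually.of_forall fun p => by
      rw [Real.norm_eq_abs]; exact hC _) (Eventually.of_forall fun p => ?_)
  · have h1 := ac_meas_integrand hc t s (h n)
    exact (h1.comp (measurable_const.prodMk measurable_id :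
      Measurable fun p : unitInterval × unitInterval => (x, p))).aestronglyMeasurable
  · have h1 := (x.2 t).1.tendsto.comp (ac_T_tendsto t hh p.1)
    have h2 := (x.2 s).1.tendsto.comp (ac_T_tendsto s hh p.2)
    exact (hc.tendsto _).comp (h1.sub h2)

/-- the law of an increment, tested against a bounded continuous function -/
lemma ac_incr {Ω : ℝ → Type} [∀ ε, MeasurableSpace (Ω ε)] {P : ∀ ε, Measure (Ω ε)}
    [∀ ε, IsProbabilityMeasure (P ε)] {Y : ∀ ε, Ω ε → SkoD} (hY : ∀ ε, Measurable (Y ε))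
    {Ω' : Type} [MeasurableSpace Ω'] {P' : Measure Ω'} [IsProbabilityMeasure P'] {Z : Ω' → SkoD}
    (hZ : Measurable Z) {c : ℝ → ℝ} (hc : Continuous c) {C : ℝ} (hC : ∀ z, |c z| ≤ C)
    {L : ℝ → ℝ} (hL : Continuous L) (hLC : ∀ r, 0 ≤ r → |L r| ≤ C)
    (h : ∀ (s t : ℝ≥0), s ≤ t →
      Tendsto (fun ε : ℝ => ∫ ω, c ((Y ε ω).1 t - (Y ε ω).1 s) ∂(P ε)) (𝓝[>] 0)
        (𝓝 (L (t - s))))
    (hconv : ConvInLaw P Y P' Z) {s t : ℝ≥0} (hst : s < t) :
    ∫ ω, c ((Z ω).1 t - (Z ω).1 s) ∂P' = L (t - s) := by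
  have key : ∀ n : ℕ, ∫ ω, acF c t s (acH t s n) (Z ω) ∂P' =
      ∫ p : unitInterval × unitInterval,
        L ((acT t (acH t s n) p.1 : ℝ) - acT s (acH t s n) p.2) := by
    intro n
    have hpos := acH_pos hst n
    have h1 := hconv (acF c t s (acH t s n)) (ac_F_meas hc _ _ _)
      ⟨C, fun x => ac_F_bdd hC _ _ _ x⟩ (ac_F_cont hc hC t s hpos)
    have h2 : Tendsto (fun ε : ℝ => ∫ ω, acF c t s (acH t s n) (Y ε ω) ∂(P ε)) (𝓝[>] 0)
        (𝓝 (∫ p : unitInterval × unitInterval,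
          L ((acT t (acH t s n) p.1 : ℝ) - acT s (acH t s n) p.2))) := by
      have e : ∀ ε : ℝ, ∫ ω, acF c t s (acH t s n) (Y ε ω) ∂(P ε) =
          ∫ p : unitInterval × unitInterval,
            ∫ ω, c ((Y ε ω).1 (acT t (acH t s n) p.1) - (Y ε ω).1 (acT s (acH t s n) p.2))
              ∂(P ε) := fun ε => ac_fubini (hY ε) hc hC _ _ _
      simp only [e]
      refine tendsto_integral_filter_of_dominated_convergence (fun _ => C) ?_ ?_
        (integrable_const C) (Eventually.of_forall fun p => ?_)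
      · refine Eventually.of_forall fun ε => ?_
        have h3 := ac_meas_integrand hc t s (acH t s n)
        have h4 : Measurable fun q : (unitInterval × unitInterval) × Ω ε =>
            c ((Y ε q.2).1 (acT t (acH t s n) q.1.1) - (Y ε q.2).1 (acT s (acH t s n) q.1.2)) :=
          h3.comp (((hY ε).comp measurable_snd).prodMk measurable_fst)
        exact (h4.stronglyMeasurable.integral_prod_right').aestronglyMeasurable
      · refine Eventually.of_forall fun ε => Eventually.of_forall fun p => ?_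
        refine (norm_integral_le_of_norm_le_const (C := C)
          (Eventually.of_forall fun ω => by rw [Real.norm_eq_abs]; exact hC _)).trans ?_
        simp
      · refine h _ _ ?_
        calc acT s (acH t s n) p.2 ≤ s + acH t s n := acT_le _ _ _
          _ ≤ s + (t - s) := by gcongr; exact acH_le _ _ _
          _ = t := add_tsub_cancel_of_le hst.le
          _ ≤ _ := acT_ge _ _ _
    exact tendsto_nhds_unique h1 h2
  have hleft : Tendsto (fun n : ℕ => ∫ ω, acF c t s (acH t s n) (Z ω) ∂P') atTop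
      (𝓝 (∫ ω, c ((Z ω).1 t - (Z ω).1 s) ∂P')) := by
    refine tendsto_integral_of_dominated_convergence (fun _ => C)
      (fun n => ((ac_F_meas hc _ _ _).comp hZ).aestronglyMeasurable) (integrable_const C)
      (fun n => Eventually.of_forall fun ω => by
        rw [Real.norm_eq_abs]; exact ac_F_bdd hC _ _ _ _)
      (Eventually.of_forall fun ω => ac_F_lim hc hC t s (acH_tendsto t s) (Z ω))
  have hright : Tendsto (fun n : ℕ => ∫ p : unitInterval × unitInterval,
        L ((acT t (acH t s n) p.1 : ℝ) - acT s (acH t s n) p.2)) atTop (𝓝 (L (t - s))) := by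
    have e : L (t - s) = ∫ _p : unitInterval × unitInterval, L (t - s) := by simp
    rw [e]
    refine tendsto_integral_of_dominated_convergence (fun _ => C) (fun n => ?_)
      (integrable_const C) (fun n => Eventually.of_forall fun p => ?_)
      (Eventually.of_forall fun p => ?_)
    · refine Continuous.aestronglyMeasurable ?_
      refine hL.comp (Continuous.sub ?_ ?_)
      · exact NNReal.continuous_coe.comp ((ac_continuous_T _ _).comp continuous_fst)
      · exact NNReal.continuous_coe.comp ((ac_continuous_T _ _).comp continuous_snd)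
    · rw [Real.norm_eq_abs]
      refine hLC _ ?_
      have : (acT s (acH t s n) p.2 : ℝ≥0) ≤ acT t (acH t s n) p.1 := by
        calc acT s (acH t s n) p.2 ≤ s + acH t s n := acT_le _ _ _
          _ ≤ s + (t - s) := by gcongr; exact acH_le _ _ _
          _ = t := add_tsub_cancel_of_le hst.le
          _ ≤ _ := acT_ge _ _ _
      have h2 : ((acT s (acH t s n) p.2 : ℝ≥0) : ℝ) ≤ acT t (acH t s n) p.1 := by
        exact_mod_cast this
      linarith
    · refine (hL.tendsto _).comp (Tendsto.sub ?_ ?_)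
      · exact (NNReal.continuous_coe.tendsto _).comp
          ((ac_T_tendsto t (acH_tendsto t s) p.1).mono_right nhdsWithin_le_nhds)
      · exact (NNReal.continuous_coe.tendsto _).comp
          ((ac_T_tendsto s (acH_tendsto t s) p.2).mono_right nhdsWithin_le_nhds)
  refine tendsto_nhds_unique hleft ?_
  simp only [key]
  exact hright

/-- tail bound for small increments -/
lemma ac_tail {Ω' : Type} [MeasurableSpace Ω'] {P' : Measure Ω'} [IsProbabilityMeasure P']
    {W : Ω' → ℝ} (hW : Measurable W) {v μ r : ℝ} (hv : 0 ≤ v) (hr : 0 < r) (hr1 : r ≤ 1)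
    (h : ∀ θ : ℝ, ∫ ω, Complex.exp ((θ * W ω : ℝ) * Complex.I) ∂P' =
      Complex.exp (-(v * θ ^ 2 * r / 2 : ℝ) + (μ * θ * r : ℝ) * Complex.I)) {δ : ℝ} (hδ : 0 < δ) :
    P' {ω | δ ≤ |W ω|} ≤ ENNReal.ofReal (48 * Real.exp (|μ| + v / 2) * r ^ 2 / δ ^ 4) := by
  obtain ⟨V, hV⟩ : ∃ V : ℝ≥0, (V : ℝ) = v * r := ⟨⟨v * r, by positivity⟩, rfl⟩
  have hVc : (V : ℂ) = (v * r : ℝ) := by rw [← hV]
  have hmap : P'.map W = gaussianReal (μ * r) V := by
    have : IsProbabilityMeasure (P'.map W) := Measure.isProbabilityMeasure_map hW.aemeasurable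
    refine Measure.ext_of_charFun (funext fun θ => ?_)
    rw [charFun_gaussianReal, charFun_apply_real, integral_map hW.aemeasurable
      (by fun_prop)]
    have h1 := h θ
    have e1 : ∀ ω, Complex.exp ((θ : ℂ) * (W ω : ℂ) * Complex.I) =
        Complex.exp ((θ * W ω : ℝ) * Complex.I) := fun ω => by push_cast; rfl
    simp only [e1, h1]
    congr 1
    rw [hVc]
    push_cast
    ring
  have hmgf : ∀ u : ℝ, mgf W P' u = Real.exp (μ * r * u + v * r * u ^ 2 / 2) := by
    intro u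
    rw [mgf_gaussianReal hmap, hV]
  have hint : ∀ u : ℝ, Integrable (fun ω => Real.exp (u * W ω)) P' := by
    intro u
    have h1 : Integrable (fun x : ℝ => Real.exp (u * x)) (P'.map W) := by
      rw [hmap]; exact integrable_exp_mul_gaussianReal u
    exact (integrable_map_measure (by fun_prop) hW.aemeasurable).1 h1
  set q : ℝ := 1 / √r with hq
  have hsr : 0 < √r := Real.sqrt_pos.2 hr
  have hsr1 : √r ≤ 1 := Real.sqrt_le_one.2 hr1
  have hrr : √r * √r = r := Real.mul_self_sqrt hr.le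
  have hqr : r * q ^ 2 = 1 := by
    rw [hq, one_div, inv_pow, sq, hrr, mul_inv_cancel₀ hr.ne']
  have hqr2 : r * q = √r := by
    rw [hq, mul_one_div, div_eq_iff hsr.ne', hrr]
  have hq0 : 0 < q := by positivity
  have hexp : Real.exp (-q * δ) ≤ 24 * r ^ 2 / δ ^ 4 := by
    have hy : 0 < q * δ := by positivity
    have h1 : (q * δ) ^ 4 / 24 ≤ Real.exp (q * δ) := by
      have := Real.pow_div_factorial_le_exp (q * δ) hy.le 4
      simpa [Nat.factorial] using this
    have h2 : Real.exp (-q * δ) = (Real.exp (q * δ))⁻¹ := by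
      rw [← Real.exp_neg]; congr 1; ring
    rw [h2]
    have h3 : (Real.exp (q * δ))⁻¹ ≤ ((q * δ) ^ 4 / 24)⁻¹ :=
      inv_anti₀ (by positivity) h1
    refine h3.trans (le_of_eq ?_)
    have h4 : q ^ 4 = (r ^ 2)⁻¹ := by
      have : q ^ 4 * r ^ 2 = 1 := by
        calc q ^ 4 * r ^ 2 = (r * q ^ 2) ^ 2 := by ring
          _ = 1 := by rw [hqr]; norm_num
      exact eq_inv_of_mul_eq_one_left this
    rw [mul_pow, h4]
    field_simp
  have hmu : ∀ u : ℝ, |u| = q → mgf W P' u ≤ Real.exp (|μ| + v / 2) := by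
    intro u hu
    rw [hmgf]
    refine Real.exp_le_exp.2 ?_
    have h1 : u ^ 2 = q ^ 2 := by rw [← hu, sq_abs]
    have h2 : μ * r * u ≤ |μ| := by
      calc μ * r * u ≤ |μ * r * u| := le_abs_self _
        _ = |μ| * (r * q) := by rw [abs_mul, abs_mul, abs_of_pos hr, hu]; ring
        _ = |μ| * √r := by rw [hqr2]
        _ ≤ |μ| * 1 := mul_le_mul_of_nonneg_left hsr1 (abs_nonneg _)
        _ = |μ| := mul_one _
    have h3 : v * r * u ^ 2 / 2 = v / 2 := by
      rw [h1, mul_assoc, hqr, mul_one]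
    linarith
  have hC : 0 < Real.exp (|μ| + v / 2) := Real.exp_pos _
  have h1 : P'.real {ω | δ ≤ W ω} ≤ 24 * r ^ 2 / δ ^ 4 * Real.exp (|μ| + v / 2) := by
    refine (measure_ge_le_exp_mul_mgf δ hq0.le (hint q)).trans ?_
    exact mul_le_mul hexp (hmu q (abs_of_pos hq0)) mgf_nonneg (by positivity)
  have h2 : P'.real {ω | W ω ≤ -δ} ≤ 24 * r ^ 2 / δ ^ 4 * Real.exp (|μ| + v / 2) := by
    refine (measure_le_le_exp_mul_mgf (-δ) (neg_nonpos.2 hq0.le) (hint (-q))).trans ?_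
    have e1 : Real.exp (-(-q) * -δ) = Real.exp (-q * δ) := by congr 1; ring
    rw [e1]
    exact mul_le_mul hexp (hmu (-q) (by rw [abs_neg, abs_of_pos hq0])) mgf_nonneg (by positivity)
  have h3 : {ω | δ ≤ |W ω|} = {ω | δ ≤ W ω} ∪ {ω | W ω ≤ -δ} := by
    ext ω
    simp only [Set.mem_ofPred_eq, Set.mem_union, le_abs]
    constructor
    · rintro (h | h)
      · exact Or.inl h
      · exact Or.inr (by linarith)
    · rintro (h | h)
      · exact Or.inl h
      · exact Or.inr (by linarith)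
  rw [h3]
  have h4 : P' ({ω | δ ≤ W ω} ∪ {ω | W ω ≤ -δ}) ≤ P' {ω | δ ≤ W ω} + P' {ω | W ω ≤ -δ} :=
    measure_union_le _ _
  refine h4.trans ?_
  rw [← ENNReal.ofReal_toReal (measure_ne_top P' {ω | δ ≤ W ω}),
    ← ENNReal.ofReal_toReal (measure_ne_top P' {ω | W ω ≤ -δ}),
    ← ENNReal.ofReal_add ENNReal.toReal_nonneg ENNReal.toReal_nonneg]
  refine ENNReal.ofReal_le_ofReal ?_
  have e : 48 * Real.exp (|μ| + v / 2) * r ^ 2 / δ ^ 4 =
      24 * r ^ 2 / δ ^ 4 * Real.exp (|μ| + v / 2) + 24 * r ^ 2 / δ ^ 4 * Real.exp (|μ| + v / 2) := by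
    ring
  rw [e]
  exact add_le_add h1 h2

lemma ac_re {Ω : Type} [MeasurableSpace Ω] {P : Measure Ω} [IsProbabilityMeasure P] {x : Ω → ℝ}
    (hx : Measurable x) :
    (∫ ω, Complex.exp ((x ω : ℝ) * Complex.I) ∂P).re = ∫ ω, Real.cos (x ω) ∂P ∧
      (∫ ω, Complex.exp ((x ω : ℝ) * Complex.I) ∂P).im = ∫ ω, Real.sin (x ω) ∂P := by
  have hint : Integrable (fun ω => Complex.exp ((x ω : ℝ) * Complex.I)) P := by
    refine Integrable.of_bound (C := 1) ?_ (Eventually.of_forall fun ω => ?_)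
    · exact (by fun_prop : Measurable fun ω => Complex.exp ((x ω : ℝ) * Complex.I)).aestronglyMeasurable
    · rw [Complex.norm_exp_ofReal_mul_I]
  constructor
  · have h1 := integral_re (𝕜 := ℂ) hint
    rw [RCLike.re_eq_complex_re] at h1
    rw [← h1]
    refine integral_congr_ae (Eventually.of_forall fun ω => ?_)
    simp only [Complex.exp_ofReal_mul_I_re]
  · have h1 := integral_im (𝕜 := ℂ) hint
    rw [RCLike.im_eq_complex_im] at h1
    rw [← h1]
    refine integral_congr_ae (Eventually.of_forall fun ω => ?_)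
    simp only [Complex.exp_ofReal_mul_I_im]

lemma ac_exp (x y : ℝ) : (Complex.exp (-(x : ℝ) + (y : ℝ) * Complex.I)).re =
    Real.exp (-x) * Real.cos y ∧ (Complex.exp (-(x : ℝ) + (y : ℝ) * Complex.I)).im =
    Real.exp (-x) * Real.sin y := by
  constructor
  · rw [Complex.exp_re]; simp
  · rw [Complex.exp_im]; simp

lemma ac_char {Ω : ℝ → Type} [∀ ε, MeasurableSpace (Ω ε)] {P : ∀ ε, Measure (Ω ε)}
    [∀ ε, IsProbabilityMeasure (P ε)] {Y : ∀ ε, Ω ε → SkoD} (hY : ∀ ε, Measurable (Y ε))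
    {Ω' : Type} [MeasurableSpace Ω'] {P' : Measure Ω'} [IsProbabilityMeasure P'] {Z : Ω' → SkoD}
    (hZ : Measurable Z) {v μ : ℝ} (hv : 0 ≤ v)
    (h : ∀ (s t : ℝ≥0) (θ : ℝ), s ≤ t →
      Tendsto (fun ε : ℝ => ∫ ω, Complex.exp ((θ * ((Y ε ω).1 t - (Y ε ω).1 s) : ℝ) * Complex.I)
        ∂(P ε)) (𝓝[>] 0)
        (𝓝 (Complex.exp (-(v * θ ^ 2 * (t - s) / 2 : ℝ) + (μ * θ * (t - s) : ℝ) * Complex.I))))
    (hconv : ConvInLaw P Y P' Z) {s t : ℝ≥0} (hst : s < t) (θ : ℝ) :
    ∫ ω, Complex.exp ((θ * ((Z ω).1 t - (Z ω).1 s) : ℝ) * Complex.I) ∂P' =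
      Complex.exp (-(v * θ ^ 2 * (t - s) / 2 : ℝ) + (μ * θ * (t - s) : ℝ) * Complex.I) := by
  have hYm : ∀ (ε : ℝ) (s t : ℝ≥0), Measurable fun ω => θ * ((Y ε ω).1 t - (Y ε ω).1 s) :=
    fun ε s t => (((ac_measurable_ev t).comp (hY ε)).sub
      ((ac_measurable_ev s).comp (hY ε))).const_mul θ
  have hZm : Measurable fun ω => θ * ((Z ω).1 t - (Z ω).1 s) :=
    (((ac_measurable_ev t).comp hZ).sub ((ac_measurable_ev s).comp hZ)).const_mul θ
  have hLb : ∀ r : ℝ, 0 ≤ r → Real.exp (-(v * θ ^ 2 * r / 2)) ≤ 1 := by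
    intro r hr
    rw [Real.exp_le_one_iff]
    have : 0 ≤ v * θ ^ 2 * r / 2 := by positivity
    linarith
  have hcos := ac_incr hY hZ (c := fun z => Real.cos (θ * z)) (by fun_prop) (C := 1)
    (fun z => Real.abs_cos_le_one _)
    (L := fun r => Real.exp (-(v * θ ^ 2 * r / 2)) * Real.cos (μ * θ * r)) (by fun_prop)
    (fun r hr => by
      rw [abs_mul, abs_of_pos (Real.exp_pos _)]
      exact mul_le_one₀ (hLb r hr) (abs_nonneg _) (Real.abs_cos_le_one _))
    (fun s t hst => by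
      have h1 := (Complex.continuous_re.tendsto _).comp (h s t θ hst)
      rw [(ac_exp _ _).1] at h1
      refine h1.congr fun ε => ?_
      simp only [Function.comp_apply]
      exact (ac_re (hYm ε s t)).1) hconv hst
  have hsin := ac_incr hY hZ (c := fun z => Real.sin (θ * z)) (by fun_prop) (C := 1)
    (fun z => Real.abs_sin_le_one _)
    (L := fun r => Real.exp (-(v * θ ^ 2 * r / 2)) * Real.sin (μ * θ * r)) (by fun_prop)
    (fun r hr => by
      rw [abs_mul, abs_of_pos (Real.exp_pos _)]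
      exact mul_le_one₀ (hLb r hr) (abs_nonneg _) (Real.abs_sin_le_one _))
    (fun s t hst => by
      have h1 := (Complex.continuous_im.tendsto _).comp (h s t θ hst)
      rw [(ac_exp _ _).2] at h1
      refine h1.congr fun ε => ?_
      simp only [Function.comp_apply]
      exact (ac_re (hYm ε s t)).2) hconv hst
  apply Complex.ext
  · rw [(ac_re hZm).1, (ac_exp _ _).1]
    exact hcos
  · rw [(ac_re hZm).2, (ac_exp _ _).2]
    exact hsin

/-- no large jumps -/
lemma ac_nojump {Ω' : Type} [MeasurableSpace Ω'] {P' : Measure Ω'} [IsProbabilityMeasure P']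
    {Z : Ω' → SkoD} {C : ℝ} (hC : 0 ≤ C)
    (h : ∀ (s t : ℝ≥0), s < t → (t : ℝ) - s ≤ 1 → ∀ δ : ℝ, 0 < δ →
      P' {ω | δ ≤ |(Z ω).1 t - (Z ω).1 s|} ≤ ENNReal.ofReal (C * ((t : ℝ) - s) ^ 2 / δ ^ 4))
    (T : ℕ) {δ : ℝ} (hδ : 0 < δ) :
    ∀ᵐ ω ∂P', ∀ (τ : ℝ≥0) (l : ℝ), 0 < τ → τ ≤ T → Tendsto (Z ω).1 (𝓝[<] τ) (𝓝 l) →
      |(Z ω).1 τ - l| ≤ δ := by
  set A : ℕ → Set Ω' := fun n => ⋃ k ∈ Finset.range ((n + 1) * T + 1),
    {ω | δ ≤ |(Z ω).1 (((k + 1 : ℕ) : ℝ≥0) / ((n : ℝ≥0) + 1)) -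
      (Z ω).1 ((k : ℝ≥0) / ((n : ℝ≥0) + 1))|} with hA
  have hAP : ∀ n : ℕ, P' (A n) ≤ ENNReal.ofReal ((T + 1) * C / δ ^ 4 * (1 / ((n : ℝ) + 1))) := by
    intro n
    have hn : (0 : ℝ) < (n : ℝ) + 1 := by positivity
    have h1 : ∀ k ∈ Finset.range ((n + 1) * T + 1),
        P' {ω | δ ≤ |(Z ω).1 (((k + 1 : ℕ) : ℝ≥0) / ((n : ℝ≥0) + 1)) -
          (Z ω).1 ((k : ℝ≥0) / ((n : ℝ≥0) + 1))|} ≤
          ENNReal.ofReal (C * (1 / ((n : ℝ) + 1)) ^ 2 / δ ^ 4) := by
      intro k _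
      have e1 : ((((k + 1 : ℕ) : ℝ≥0) / ((n : ℝ≥0) + 1) : ℝ≥0) : ℝ) -
          (((k : ℝ≥0) / ((n : ℝ≥0) + 1) : ℝ≥0) : ℝ) = 1 / ((n : ℝ) + 1) := by
        push_cast
        ring
      have hlt : (k : ℝ≥0) / ((n : ℝ≥0) + 1) < ((k + 1 : ℕ) : ℝ≥0) / ((n : ℝ≥0) + 1) := by
        rw [← NNReal.coe_lt_coe]
        have : 0 < 1 / ((n : ℝ) + 1) := by positivity
        linarith
      have := h _ _ hlt (by
        rw [e1, div_le_one hn]
        linarith [(Nat.cast_nonneg n : (0 : ℝ) ≤ n)]) δ hδ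
      rwa [e1] at this
    refine (measure_biUnion_finset_le _ _).trans ((Finset.sum_le_sum h1).trans ?_)
    rw [Finset.sum_const, Finset.card_range, nsmul_eq_mul]
    have e2 : (((n + 1) * T + 1 : ℕ) : ℝ≥0∞) = ENNReal.ofReal (((n + 1) * T + 1 : ℕ) : ℝ) := by
      rw [ENNReal.ofReal_natCast]
    rw [e2, ← ENNReal.ofReal_mul (Nat.cast_nonneg _)]
    refine ENNReal.ofReal_le_ofReal ?_
    have h3 : (((n + 1) * T + 1 : ℕ) : ℝ) ≤ ((n : ℝ) + 1) * (T + 1) := by
      push_cast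
      nlinarith [(Nat.cast_nonneg n : (0 : ℝ) ≤ n)]
    calc (((n + 1) * T + 1 : ℕ) : ℝ) * (C * (1 / ((n : ℝ) + 1)) ^ 2 / δ ^ 4)
        ≤ ((n : ℝ) + 1) * (T + 1) * (C * (1 / ((n : ℝ) + 1)) ^ 2 / δ ^ 4) :=
          mul_le_mul_of_nonneg_right h3 (by positivity)
      _ = (T + 1) * C / δ ^ 4 * (1 / ((n : ℝ) + 1)) := by
          field_simp
  have hlim : Tendsto (fun n : ℕ => ENNReal.ofReal ((T + 1) * C / δ ^ 4 * (1 / ((n : ℝ) + 1))))
      atTop (𝓝 0) := by
    have h1 : Tendsto (fun n : ℕ => (T + 1) * C / δ ^ 4 * (1 / ((n : ℝ) + 1))) atTop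
        (𝓝 ((T + 1) * C / δ ^ 4 * 0)) :=
      tendsto_one_div_add_atTop_nhds_zero_nat.const_mul _
    rw [mul_zero] at h1
    have := ENNReal.tendsto_ofReal h1
    rwa [ENNReal.ofReal_zero] at this
  have hN : ∀ N : ℕ, P' (⋂ n ≥ N, A n) = 0 := by
    intro N
    refine le_antisymm (ge_of_tendsto hlim ?_) zero_le
    filter_upwards [eventually_ge_atTop N] with n hn
    exact (measure_mono (Set.iInter₂_subset n hn)).trans (hAP n)
  have hU : P' (⋃ N, ⋂ n ≥ N, A n) = 0 := measure_iUnion_null hN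
  rw [ae_iff]
  refine measure_mono_null ?_ hU
  intro ω hω
  have hω' : ¬ ∀ (τ : ℝ≥0) (l : ℝ), 0 < τ → τ ≤ T → Tendsto (Z ω).1 (𝓝[<] τ) (𝓝 l) →
      |(Z ω).1 τ - l| ≤ δ := hω
  push Not at hω'
  obtain ⟨τ, l, hτ, hτT, hl, hlt⟩ := hω'
  -- the indices
  set k : ℕ → ℕ := fun n => ⌈τ * ((n : ℝ≥0) + 1)⌉₊ - 1 with hk
  have hpos : ∀ n : ℕ, 0 < ⌈τ * ((n : ℝ≥0) + 1)⌉₊ := fun n => Nat.ceil_pos.2 (by positivity)
  have hk1 : ∀ n : ℕ, ((k n + 1 : ℕ) : ℝ≥0) = ⌈τ * ((n : ℝ≥0) + 1)⌉₊ := by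
    intro n
    have : k n + 1 = ⌈τ * ((n : ℝ≥0) + 1)⌉₊ := by
      have := hpos n
      simp only [hk]
      omega
    rw [this]
  have hk2 : ∀ n : ℕ, τ ≤ ((k n + 1 : ℕ) : ℝ≥0) / ((n : ℝ≥0) + 1) := by
    intro n
    rw [le_div_iff₀ (by positivity), hk1]
    exact Nat.le_ceil _
  have hk3 : ∀ n : ℕ, (k n : ℝ≥0) / ((n : ℝ≥0) + 1) < τ := by
    intro n
    rw [div_lt_iff₀ (by positivity)]
    have : k n < ⌈τ * ((n : ℝ≥0) + 1)⌉₊ := by
      have := hpos n
      simp only [hk]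
      omega
    exact Nat.lt_ceil.1 this
  have h1n : Tendsto (fun n : ℕ => 1 / ((n : ℝ≥0) + 1)) atTop (𝓝 0) :=
    tendsto_one_div_add_atTop_nhds_zero_nat
  have hk4 : ∀ n : ℕ, ((k n + 1 : ℕ) : ℝ≥0) / ((n : ℝ≥0) + 1) =
      (k n : ℝ≥0) / ((n : ℝ≥0) + 1) + 1 / ((n : ℝ≥0) + 1) := by
    intro n
    push_cast
    rw [add_div]
  have hup : Tendsto (fun n => ((k n + 1 : ℕ) : ℝ≥0) / ((n : ℝ≥0) + 1)) atTop (𝓝[≥] τ) := by
    refine tendsto_nhdsWithin_iff.2 ⟨?_, Eventually.of_forall hk2⟩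
    refine tendsto_of_tendsto_of_tendsto_of_le_of_le (g := fun _ => τ)
      (h := fun n : ℕ => τ + 1 / ((n : ℝ≥0) + 1)) tendsto_const_nhds ?_ hk2 ?_
    · simpa using h1n.const_add τ
    · intro n
      change ((k n + 1 : ℕ) : ℝ≥0) / ((n : ℝ≥0) + 1) ≤ τ + 1 / ((n : ℝ≥0) + 1)
      rw [hk4]
      gcongr
      exact (hk3 n).le
  have hdown : Tendsto (fun n => (k n : ℝ≥0) / ((n : ℝ≥0) + 1)) atTop (𝓝[<] τ) := by
    refine tendsto_nhdsWithin_iff.2 ⟨?_, Eventually.of_forall hk3⟩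
    refine tendsto_of_tendsto_of_tendsto_of_le_of_le (g := fun n : ℕ => τ - 1 / ((n : ℝ≥0) + 1))
      (h := fun _ => τ) ?_ tendsto_const_nhds ?_ (fun n => (hk3 n).le)
    · have h2 : Tendsto (fun n : ℕ => τ - 1 / ((n : ℝ≥0) + 1)) atTop (𝓝 (τ - 0)) :=
        tendsto_const_nhds.sub h1n
      simpa using h2
    · intro n
      change τ - 1 / ((n : ℝ≥0) + 1) ≤ (k n : ℝ≥0) / ((n : ℝ≥0) + 1)
      rw [tsub_le_iff_right, ← hk4]
      exact hk2 n
  have hlim2 : Tendsto (fun n => |(Z ω).1 (((k n + 1 : ℕ) : ℝ≥0) / ((n : ℝ≥0) + 1)) -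
      (Z ω).1 ((k n : ℝ≥0) / ((n : ℝ≥0) + 1))|) atTop (𝓝 |(Z ω).1 τ - l|) :=
    (((((Z ω).2 τ).1.tendsto.comp hup).sub (hl.comp hdown))).abs
  obtain ⟨N, hN'⟩ := eventually_atTop.1 (hlim2.eventually (lt_mem_nhds hlt))
  refine Set.mem_iUnion.2 ⟨N, Set.mem_iInter₂.2 fun n hn => ?_⟩
  refine Set.mem_iUnion₂.2 ⟨k n, ?_, (hN' n hn).le⟩
  rw [Finset.mem_range]
  have h5 := hk3 n
  rw [div_lt_iff₀ (by positivity)] at h5
  have h6 : (k n : ℝ≥0) < (((n + 1) * T : ℕ) : ℝ≥0) := by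
    refine h5.trans_le ?_
    push_cast
    rw [mul_comm]
    gcongr
  have h7 : k n < (n + 1) * T := by exact_mod_cast h6
  omega

theorem cont_of_limit {Ω : ℝ → Type} [∀ ε, MeasurableSpace (Ω ε)] {P : ∀ ε, Measure (Ω ε)}
    [∀ ε, IsProbabilityMeasure (P ε)] {Y : ∀ ε, Ω ε → SkoD} (hY : ∀ ε, Measurable (Y ε))
    {Ω' : Type} [MeasurableSpace Ω'] {P' : Measure Ω'} [IsProbabilityMeasure P'] {Z : Ω' → SkoD}
    (hZ : Measurable Z) {v μ : ℝ} (hv : 0 ≤ v)
    (h : ∀ (s t : ℝ≥0) (θ : ℝ), s ≤ t →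
      Tendsto (fun ε : ℝ => ∫ ω, Complex.exp ((θ * ((Y ε ω).1 t - (Y ε ω).1 s) : ℝ) * Complex.I)
        ∂(P ε)) (𝓝[>] 0)
        (𝓝 (Complex.exp (-(v * θ ^ 2 * (t - s) / 2 : ℝ) + (μ * θ * (t - s) : ℝ) * Complex.I))))
    (hconv : ConvInLaw P Y P' Z) : ∀ᵐ ω ∂P', Continuous (Z ω).1 := by
  have htail : ∀ (s t : ℝ≥0), s < t → (t : ℝ) - s ≤ 1 → ∀ δ : ℝ, 0 < δ →
      P' {ω | δ ≤ |(Z ω).1 t - (Z ω).1 s|} ≤
        ENNReal.ofReal ((48 * Real.exp (|μ| + v / 2)) * ((t : ℝ) - s) ^ 2 / δ ^ 4) := by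
    intro s t hst h1 δ hδ
    have hr : (0 : ℝ) < (t : ℝ) - s := by
      have : (s : ℝ) < t := by exact_mod_cast hst
      linarith
    have hW : Measurable fun ω => (Z ω).1 t - (Z ω).1 s :=
      ((ac_measurable_ev t).comp hZ).sub ((ac_measurable_ev s).comp hZ)
    exact ac_tail hW hv hr h1 (fun θ => ac_char hY hZ hv h hconv hst θ) hδ
  have hall : ∀ᵐ ω ∂P', ∀ j : ℕ, ∀ (τ : ℝ≥0) (l : ℝ), 0 < τ → τ ≤ (j : ℝ≥0) →
      Tendsto (Z ω).1 (𝓝[<] τ) (𝓝 l) → |(Z ω).1 τ - l| ≤ 1 / ((j : ℝ) + 1) :=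
    ae_all_iff.2 fun j => ac_nojump (by positivity) htail j (by positivity)
  filter_upwards [hall] with ω hω
  rw [continuous_iff_continuousAt]
  intro τ
  rcases eq_or_ne τ 0 with rfl | h0
  · have hr := ((Z ω).2 0).1
    have h5 : (Set.Ici (0 : ℝ≥0)) = Set.univ := Set.eq_univ_of_forall fun x => Set.mem_Ici.2 zero_le
    rw [ContinuousWithinAt, h5, nhdsWithin_univ] at hr
    exact hr
  · have hpos : 0 < τ := pos_iff_ne_zero.2 h0
    obtain ⟨hr, l, hl⟩ := (Z ω).2 τ
    have hle : |(Z ω).1 τ - l| ≤ 0 := by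
      have h1 : Tendsto (fun j : ℕ => 1 / ((j : ℝ) + 1)) atTop (𝓝 0) :=
        tendsto_one_div_add_atTop_nhds_zero_nat
      refine ge_of_tendsto h1 ?_
      obtain ⟨j0, hj0⟩ := exists_nat_ge τ
      filter_upwards [eventually_ge_atTop j0] with j hj
      refine hω j τ l hpos (hj0.trans ?_) hl
      exact_mod_cast hj
    have heq : l = (Z ω).1 τ := by
      have := abs_nonpos_iff.1 hle
      linarith
    rw [continuousAt_iff_continuous_left'_right']
    constructor
    · rw [ContinuousWithinAt, ← heq]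
      exact hl
    · exact hr.mono Set.Ioi_subset_Ici_self

end H40.VM
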