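import Pool.Agent.H40.VM.CT3

/-!
# Module CT4: Dynkin inequality for functions of linear growth

`L` is a function with increments at most one per jump, `W t x n` (state `x`, `n` jumps so far,
remaining time `t`) has linear growth. If `∂ₜ W ≤ G W` then `W t x n ≤ E W 0 (X t) (n + N t)`.

Proof. For `k` steps define
`Z_k = ∑_{i<k} 1{T i ≤ t < T (i+1)} W 0 (Y i) (n+i) + 1{T k ≤ t} W (t - T k) (Y k) (n+k)`, a bounded
random variable (by `K * (1 + L x + n + 2 k)`). By induction on `k` (first step decomposition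
`integral_cons`), `W t x n ≤ E Z_k`: the one step inequality
`W t x n ≤ exp (-q t) W 0 x n + ∫_0^{q t} exp (-e) ∫ u, W (t - e / q) (Φ x u) (n+1) de`
follows by integrating the derivative of `e ↦ - exp (-e) * W (t - e / q) x n` over `[0, q t]`.
Then let `k → ∞`: `|1{T k ≤ t} W (t - T k) (Y k) (n+k)| ≤ K * (1 + L x + n + 2 k) 1{T k ≤ t}` and
`k * Pr {T k ≤ t} → 0` since the probabilities are antitone in `k` and summable;
`|W 0 (X t) (n + N t)| ≤ K * (1 + L x + n + 2 N t)` is integrable.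
-/

open MeasureTheory ProbabilityTheory Filter Topology
open scoped ENNReal NNReal unitInterval

namespace H40.VM

lemma integral_expL {f : ℝ≥0 → ℝ} (hf : Measurable f) :
    ∫ e, f e ∂expL = ∫ r in Set.Ioi (0 : ℝ), Real.exp (-r) * f r.toNNReal := by
  have h1 : expMeasure 1 = volume.withDensity (exponentialPDF 1) := rfl
  have hd : Measurable (exponentialPDF 1) := (measurable_exponentialPDFReal 1).ennreal_ofReal
  rw [expL, integral_map (by fun_prop) hf.aestronglyMeasurable, h1,
    integral_withDensity_eq_integral_toReal_smul hd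
      (Eventually.of_forall fun x => ENNReal.ofReal_lt_top)]
  rw [← integral_indicator measurableSet_Ioi]
  refine integral_congr_ae ?_
  have h0 : ∀ᵐ r : ℝ, r ≠ 0 := by
    simp [ae_iff, measure_singleton]
  filter_upwards [h0] with r hr
  by_cases h : 0 < r
  · rw [Set.indicator_of_mem (Set.mem_Ioi.2 h), exponentialPDF_of_nonneg h.le,
      ENNReal.toReal_ofReal (by positivity)]
    simp
  · have h' : r < 0 := lt_of_le_of_ne (not_lt.1 h) hr
    rw [Set.indicator_of_notMem (by simpa using h)]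
    simp [exponentialPDF_of_neg h']

/-- the calculus identity, signed version -/
lemma calc_int {q t : ℝ} (hq : 0 < q) (ht : 0 ≤ t) {w w' : ℝ → ℝ}
    (hd : ∀ s, HasDerivAt w (w' s) s) (hc : Continuous w') :
    ∫ e : ℝ≥0, (if t < (e : ℝ) / q then w 0 else
        w (t - (e : ℝ) / q) + w' (t - (e : ℝ) / q) / q) ∂expL = w t := by
  have hwc : Continuous w := continuous_iff_continuousAt.2 fun s => (hd s).continuousAt
  have hqt : 0 ≤ q * t := mul_nonneg hq.le ht
  let h : ℝ → ℝ := fun r => Real.exp (-r) * (w (t - r / q) + w' (t - r / q) / q)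
  have hcont : Continuous h := by
    have h1 : Continuous fun r : ℝ => t - r / q := by fun_prop
    exact (Real.continuous_exp.comp continuous_neg).mul
      ((hwc.comp h1).add ((hc.comp h1).div_const q))
  have hm : Measurable fun e : ℝ≥0 => (if t < (e : ℝ) / q then w 0 else
        w (t - (e : ℝ) / q) + w' (t - (e : ℝ) / q) / q) := by
    refine Measurable.ite (measurableSet_lt measurable_const (by fun_prop)) measurable_const ?_
    have h1 : Measurable fun e : ℝ≥0 => t - (e : ℝ) / q := by fun_prop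
    exact (hwc.measurable.comp h1).add ((hc.measurable.comp h1).div_const q)
  rw [integral_expL hm]
  let F : ℝ → ℝ := fun r => Real.exp (-r) * (if t < ((r.toNNReal : ℝ≥0) : ℝ) / q then w 0 else
    w (t - ((r.toNNReal : ℝ≥0) : ℝ) / q) + w' (t - ((r.toNNReal : ℝ≥0) : ℝ) / q) / q)
  change ∫ r in Set.Ioi (0 : ℝ), F r = w t
  have hF1 : ∀ r ∈ Set.Ioc (0 : ℝ) (q * t), F r = h r := by
    intro r hr
    have hcoe : ((r.toNNReal : ℝ≥0) : ℝ) = r := Real.coe_toNNReal r hr.1.le
    have h2 : ¬ t < r / q := by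
      rw [not_lt, div_le_iff₀ hq]
      linarith [hr.2]
    simp only [F, h, hcoe, h2, if_false]
  have hF2 : ∀ r ∈ Set.Ioi (q * t), F r = Real.exp (-r) * w 0 := by
    intro r hr
    have hr' : q * t < r := hr
    have hcoe : ((r.toNNReal : ℝ≥0) : ℝ) = r := Real.coe_toNNReal r (by linarith)
    have h2 : t < r / q := by
      rw [lt_div_iff₀ hq]
      linarith
    simp only [F, hcoe, h2, if_true]
  have hunion : Set.Ioi (0 : ℝ) = Set.Ioc 0 (q * t) ∪ Set.Ioi (q * t) :=
    (Set.Ioc_union_Ioi_eq_Ioi hqt).symm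
  have hint : IntegrableOn h (Set.Ioc 0 (q * t)) :=
    (hcont.continuousOn.integrableOn_compact isCompact_Icc).mono_set Set.Ioc_subset_Icc_self
  have hint1 : IntegrableOn F (Set.Ioc 0 (q * t)) :=
    hint.congr_fun (fun r hr => (hF1 r hr).symm) measurableSet_Ioc
  have hint2 : IntegrableOn F (Set.Ioi (q * t)) := by
    have h3 : IntegrableOn (fun r : ℝ => Real.exp (-r) * w 0) (Set.Ioi (q * t)) :=
      (integrableOn_exp_neg_Ioi (q * t)).mul_const (w 0)
    exact h3.congr_fun (fun r hr => (hF2 r hr).symm) measurableSet_Ioi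
  rw [hunion, setIntegral_union (Set.Ioc_disjoint_Ioi le_rfl) measurableSet_Ioi hint1 hint2,
    setIntegral_congr_fun measurableSet_Ioc hF1, setIntegral_congr_fun measurableSet_Ioi hF2,
    integral_mul_const, integral_exp_neg_Ioi]
  have h3 : ∫ r in Set.Ioc (0 : ℝ) (q * t), h r = w t - Real.exp (-(q * t)) * w 0 := by
    rw [← intervalIntegral.integral_of_le hqt]
    have hder : ∀ r ∈ Set.uIcc 0 (q * t),
        HasDerivAt (fun r => -(Real.exp (-r) * w (t - r / q))) (h r) r := by
      intro r _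
      have d1 : HasDerivAt (fun r : ℝ => Real.exp (-r)) (Real.exp (-r) * (-1)) r :=
        (hasDerivAt_neg r).exp
      have d2 : HasDerivAt (fun r : ℝ => t - r / q) (-(1 / q)) r :=
        ((hasDerivAt_id r).div_const q).const_sub t
      have d3 : HasDerivAt (fun r : ℝ => w (t - r / q)) (w' (t - r / q) * (-(1 / q))) r :=
        (hd (t - r / q)).comp r d2
      have d4 := (d1.mul d3).neg
      refine d4.congr_deriv ?_
      change _ = Real.exp (-r) * (w (t - r / q) + w' (t - r / q) / q)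
      ring
    rw [intervalIntegral.integral_eq_sub_of_hasDerivAt hder (hcont.intervalIntegrable _ _)]
    have e1 : t - q * t / q = 0 := by field_simp; ring
    rw [e1]
    simp
    ring
  rw [h3]
  ring

variable {E : Type} [MeasurableSpace E] [Countable E] [DiscreteMeasurableSpace E] (C : Chain E)

omit [Countable E] [DiscreteMeasurableSpace E] in
lemma Chain.L_le {L : E → ℝ} (hL1 : ∀ x u, L (C.Φ x u) ≤ L x + 1) (k : ℕ) (x : E) (ω : Om) :
    L (C.Y k x ω) ≤ L x + k := by
  induction k with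
  | zero => simp
  | succ k ih =>
    rw [C.Y_succ']
    refine (hL1 _ _).trans ?_
    push_cast
    linarith

omit [Countable E] [DiscreteMeasurableSpace E] in
lemma Chain.lt_N_iff {t : ℝ} {x : E} {ω : Om} (ht : 0 ≤ t) (h : ∃ k, t < C.T k x ω) (k : ℕ) :
    k < C.N t x ω ↔ C.T (k + 1) x ω ≤ t := by
  obtain ⟨h1, h2⟩ := (C.N_eq_iff (n := C.N t x ω) ht h).1 rfl
  constructor
  · intro hk
    exact (C.T_mono x ω (Nat.succ_le_of_lt hk)).trans h1
  · intro hk
    by_contra hcon
    have h3 : C.T (C.N t x ω + 1) x ω ≤ C.T (k + 1) x ω := C.T_mono x ω (by omega)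
    linarith

theorem Chain.lintegral_N (hC : C.NE) {t : ℝ} (ht : 0 ≤ t) (x : E) :
    ∫⁻ ω, (C.N t x ω : ℝ≥0∞) ∂Pr = ∑' k, Pr {ω | C.T (k + 1) x ω ≤ t} := by
  have hset : ∀ k, MeasurableSet {ω | C.T (k + 1) x ω ≤ t} := fun k =>
    measurableSet_le (C.measurable_Tx (k + 1) x) measurable_const
  have hm : ∀ k, Measurable fun ω => (if C.T (k + 1) x ω ≤ t then (1 : ℝ≥0∞) else 0) :=
    fun k => Measurable.ite (hset k) measurable_const measurable_const
  have h1 : ∀ k, Pr {ω | C.T (k + 1) x ω ≤ t} =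
      ∫⁻ ω, (if C.T (k + 1) x ω ≤ t then (1 : ℝ≥0∞) else 0) ∂Pr := fun k => pr_eq_lint (hset k)
  simp_rw [h1]
  rw [← lintegral_tsum fun k => (hm k).aemeasurable]
  refine lintegral_congr_ae ?_
  filter_upwards [C.ae_finite hC x] with ω hω
  have h2 : ∀ k, (if C.T (k + 1) x ω ≤ t then (1 : ℝ≥0∞) else 0) =
      if k ∈ Finset.range (C.N t x ω) then 1 else 0 := by
    intro k
    simp only [Finset.mem_range, C.lt_N_iff ht (hω t) k]
  simp_rw [h2]
  rw [tsum_eq_sum (s := Finset.range (C.N t x ω)) (fun k hk => if_neg hk),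
    Finset.sum_congr rfl fun k hk => if_pos hk]
  simp

/-- the number of jumps up to time `t` is integrable -/
theorem Chain.integrable_N (hC : C.NE) {t : ℝ} (ht : 0 ≤ t) (x : E)
    (hN : ∑' k, Pr {ω | C.T (k + 1) x ω ≤ t} ≠ ∞) :
    Integrable (fun ω => (C.N t x ω : ℝ)) Pr := by
  have hm : Measurable fun ω => (C.N t x ω : ℝ) :=
    (measurable_of_countable (fun n : ℕ => (n : ℝ))).comp (C.measurable_Nx t x)
  refine ⟨hm.aestronglyMeasurable, ?_⟩
  rw [hasFiniteIntegral_iff_enorm]
  have h1 : ∀ ω, ‖(C.N t x ω : ℝ)‖ₑ = (C.N t x ω : ℝ≥0∞) := by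
    intro ω
    rw [Real.enorm_of_nonneg (Nat.cast_nonneg _), ENNReal.ofReal_natCast]
  simp_rw [h1]
  rw [C.lintegral_N hC ht x]
  exact lt_top_iff_ne_top.2 hN

theorem Chain.integrable_of_growth (hC : C.NE) {L : E → ℝ} (hL : ∀ x, 0 ≤ L x)
    (hL1 : ∀ x u, L (C.Φ x u) ≤ L x + 1) {K : ℝ} {f : E → ℕ → ℝ}
    (hf : ∀ x n, |f x n| ≤ K * (1 + L x + n)) {t : ℝ} (ht : 0 ≤ t) (x : E)
    (hN : ∑' k, Pr {ω | C.T (k + 1) x ω ≤ t} ≠ ∞) (n : ℕ) :
    Integrable (fun ω => f (C.X t x ω) (n + C.N t x ω)) Pr := by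
  have hK : 0 ≤ K := by
    have h1 := (abs_nonneg _).trans (hf x 0)
    have h2 : 0 < 1 + L x + ((0 : ℕ) : ℝ) := by
      have := hL x
      push_cast
      linarith
    by_contra hcon
    have := mul_neg_of_neg_of_pos (not_le.1 hcon) h2
    linarith
  have hm : Measurable fun ω => f (C.X t x ω) (n + C.N t x ω) := by
    have h1 : Measurable fun p : E × ℕ => f p.1 (n + p.2) := measurable_of_countable _
    exact h1.comp ((C.measurable_Xx t x).prodMk (C.measurable_Nx t x))
  have hb : Integrable (fun ω => K * (1 + L x + n + 2 * (C.N t x ω : ℝ))) Pr :=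
    ((integrable_const _).add ((C.integrable_N hC ht x hN).const_mul 2)).const_mul K
  refine hb.mono' hm.aestronglyMeasurable (Eventually.of_forall fun ω => ?_)
  rw [Real.norm_eq_abs]
  refine (hf _ _).trans (mul_le_mul_of_nonneg_left ?_ hK)
  have h3 : L (C.X t x ω) ≤ L x + (C.N t x ω : ℝ) := C.L_le hL1 _ x ω
  push_cast
  linarith

/-- the functional truncated at `k` jumps -/
noncomputable def Chain.ZZ (W : ℝ → E → ℕ → ℝ) (k : ℕ) (t : ℝ) (x : E) (n : ℕ) (ω : Om) : ℝ :=
  if C.T k x ω ≤ t then W (t - C.T k x ω) (C.Y k x ω) (n + k) else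
    W 0 (C.X t x ω) (n + C.N t x ω)

lemma Chain.measurable_ZZ {W : ℝ → E → ℕ → ℝ} (hW : ∀ x n, Continuous fun t => W t x n)
    (k : ℕ) (t : ℝ) (x : E) (n : ℕ) : Measurable fun ω => C.ZZ W k t x n ω := by
  have h0 : Measurable fun p : ℝ × E => W p.1 p.2 (n + k) :=
    measurable_from_prod_countable_left fun y => (hW y (n + k)).measurable
  have h1 : Measurable fun ω => W (t - C.T k x ω) (C.Y k x ω) (n + k) :=
    h0.comp ((measurable_const.sub (C.measurable_Tx k x)).prodMk (C.measurable_Yx k x))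
  have h2 : Measurable fun ω => W 0 (C.X t x ω) (n + C.N t x ω) := by
    have h3 : Measurable fun p : E × ℕ => W 0 p.1 (n + p.2) := measurable_of_countable _
    exact h3.comp ((C.measurable_Xx t x).prodMk (C.measurable_Nx t x))
  exact Measurable.ite (measurableSet_le (C.measurable_Tx k x) measurable_const) h1 h2

omit [Countable E] [DiscreteMeasurableSpace E] in
lemma Chain.ZZ_bound {L : E → ℝ} (hL1 : ∀ x u, L (C.Φ x u) ≤ L x + 1) {K t₀ : ℝ} (hK : 0 ≤ K)
    {W : ℝ → E → ℕ → ℝ}
    (hW : ∀ t ∈ Set.Icc 0 t₀, ∀ x n, |W t x n| ≤ K * (1 + L x + n)) (k : ℕ) {t : ℝ}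
    (ht : t ∈ Set.Icc 0 t₀) (x : E) (n : ℕ) (ω : Om) :
    |C.ZZ W k t x n ω| ≤ K * (1 + L x + n + 2 * k) := by
  unfold Chain.ZZ
  split_ifs with h
  · have m : t - C.T k x ω ∈ Set.Icc 0 t₀ :=
      ⟨by linarith, by linarith [C.T_nonneg k x ω, ht.2]⟩
    refine (hW _ m _ _).trans (mul_le_mul_of_nonneg_left ?_ hK)
    have := C.L_le hL1 k x ω
    push_cast
    linarith
  · have m : (0 : ℝ) ∈ Set.Icc 0 t₀ := ⟨le_rfl, ht.1.trans ht.2⟩
    refine (hW _ m _ _).trans (mul_le_mul_of_nonneg_left ?_ hK)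
    have h1 : L (C.X t x ω) ≤ L x + (C.N t x ω : ℝ) := C.L_le hL1 _ x ω
    have h2 : C.N t x ω ≤ k := by
      refine C.N_le ?_
      have := C.T_mono x ω (Nat.le_succ k)
      push Not at h
      exact h.trans_le this
    have h3 : (C.N t x ω : ℝ) ≤ k := by exact_mod_cast h2
    push_cast
    linarith

omit [Countable E] [DiscreteMeasurableSpace E] in
lemma Chain.ZZ_cons_lt (W : ℝ → E → ℕ → ℝ) (k : ℕ) {t : ℝ} (x : E) (n : ℕ)
    (u : unitInterval) (e : ℝ≥0) (ω : Om) (h : t < (e : ℝ) / C.q x) :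
    C.ZZ W (k + 1) t x n (cons (u, e) ω) = W 0 x n := by
  have h1 : t < C.T (k + 1) x (cons (u, e) ω) := by
    rw [C.T_cons]
    linarith [C.T_nonneg k (C.Φ x u) ω]
  have h2 : C.N t x (cons (u, e) ω) = 0 := by
    have h3 : t < C.T (0 + 1) x (cons (u, e) ω) := by
      rw [C.T_cons, C.T_zero, add_zero]
      exact h
    exact Nat.le_zero.1 (C.N_le h3)
  unfold Chain.ZZ
  rw [if_neg (not_le.2 h1)]
  unfold Chain.X
  rw [h2, C.Y_zero, add_zero]

omit [Countable E] [DiscreteMeasurableSpace E] in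
lemma Chain.ZZ_cons_le (W : ℝ → E → ℕ → ℝ) (k : ℕ) {t : ℝ} (x : E) (n : ℕ)
    (u : unitInterval) (e : ℝ≥0) (ω : Om) (h : (e : ℝ) / C.q x ≤ t) :
    C.ZZ W (k + 1) t x n (cons (u, e) ω) =
      C.ZZ W k (t - (e : ℝ) / C.q x) (C.Φ x u) (n + 1) ω := by
  have he : 0 ≤ (e : ℝ) / C.q x := div_nonneg e.2 (C.qpos x).le
  unfold Chain.ZZ
  have hiff : C.T (k + 1) x (cons (u, e) ω) ≤ t ↔
      C.T k (C.Φ x u) ω ≤ t - (e : ℝ) / C.q x := by
    rw [C.T_cons]
    constructor <;> intro h <;> linarith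
  by_cases h1 : C.T k (C.Φ x u) ω ≤ t - (e : ℝ) / C.q x
  · rw [if_pos h1, if_pos (hiff.2 h1), C.T_cons, C.Y_cons]
    congr 1
    · ring
    · ring
  · rw [if_neg h1, if_neg (fun h2 => h1 (hiff.1 h2))]
    have hex : ∃ j, t - (e : ℝ) / C.q x < C.T j (C.Φ x u) ω := ⟨k, not_le.1 h1⟩
    have hex' : ∃ j, t < C.T j x (cons (u, e) ω) := by
      refine ⟨k + 1, ?_⟩
      rw [← not_le]
      exact fun h2 => h1 (hiff.1 h2)
    have hN : C.N t x (cons (u, e) ω) = C.N (t - (e : ℝ) / C.q x) (C.Φ x u) ω + 1 := by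
      rw [C.N_eq_iff (he.trans h) hex', C.T_cons, C.T_cons]
      obtain ⟨h2, h3⟩ := (C.N_eq_iff (n := C.N (t - (e : ℝ) / C.q x) (C.Φ x u) ω)
        (by linarith) hex).1 rfl
      constructor <;> linarith
    unfold Chain.X
    rw [hN, C.Y_cons]
    congr 1
    ring

lemma Chain.sub_trunc {L : E → ℝ}
    (hL1 : ∀ x u, L (C.Φ x u) ≤ L x + 1) {K t₀ : ℝ} (hK : 0 ≤ K) {W W' : ℝ → E → ℕ → ℝ}
    (hW : ∀ t ∈ Set.Icc 0 t₀, ∀ x n, |W t x n| ≤ K * (1 + L x + n))
    (hd : ∀ t x n, HasDerivAt (fun t => W t x n) (W' t x n) t)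
    (hc : ∀ x n, Continuous fun t => W' t x n)
    (hG : ∀ t ∈ Set.Icc 0 t₀, ∀ x n,
      W' t x n ≤ C.q x * (∫ u, W t (C.Φ x u) (n + 1) - W t x n))
    (k : ℕ) {t : ℝ} (ht : t ∈ Set.Icc 0 t₀) (x : E) (n : ℕ) :
    W t x n ≤ ∫ ω, C.ZZ W k t x n ω ∂Pr := by
  have hWc : ∀ x n, Continuous fun t => W t x n := fun x n =>
    continuous_iff_continuousAt.2 fun s => (hd s x n).continuousAt
  induction k generalizing t x n with
  | zero =>
    have h0 : ∀ ω, C.ZZ W 0 t x n ω = W t x n := by
      intro ω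
      unfold Chain.ZZ
      rw [C.T_zero, if_pos ht.1, C.Y_zero, sub_zero, add_zero]
    simp only [h0, integral_const, probReal_univ, one_smul, le_refl]
  | succ k ih =>
    have hq := C.qpos x
    have hb : ∀ ω, ‖C.ZZ W (k + 1) t x n ω‖ ≤ K * (1 + L x + n + 2 * ((k + 1 : ℕ) : ℝ)) :=
      fun ω => C.ZZ_bound hL1 hK hW (k + 1) ht x n ω
    have hint : Integrable (fun ω => C.ZZ W (k + 1) t x n ω) Pr :=
      Integrable.of_bound (C.measurable_ZZ hWc (k + 1) t x n).aestronglyMeasurable _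
        (Eventually.of_forall hb)
    have hint' : Integrable (fun p : Stp × Om => C.ZZ W (k + 1) t x n (cons p.1 p.2))
        (stp.prod Pr) := by
      have h1 : Measurable fun p : Stp × Om => C.ZZ W (k + 1) t x n (cons p.1 p.2) :=
        (C.measurable_ZZ hWc (k + 1) t x n).comp measurable_cons
      exact Integrable.of_bound h1.aestronglyMeasurable _ (Eventually.of_forall fun p => hb _)
    rw [integral_cons hint]
    let G : Stp → ℝ := fun s => if t < (s.2 : ℝ) / C.q x then W 0 x n else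
      W (t - (s.2 : ℝ) / C.q x) (C.Φ x s.1) (n + 1)
    have hmG : Measurable G := by
      refine Measurable.ite (measurableSet_lt measurable_const (by fun_prop)) measurable_const ?_
      have h0 : Measurable fun p : ℝ × E => W p.1 p.2 (n + 1) :=
        measurable_from_prod_countable_left fun y => (hWc y (n + 1)).measurable
      have h1 : Measurable fun s : Stp => t - (s.2 : ℝ) / C.q x := by fun_prop
      exact h0.comp (h1.prodMk ((C.meas x).comp measurable_fst))
    have hbG : ∀ s, ‖G s‖ ≤ K * (L x + n + 3) := by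
      intro s
      simp only [G, Real.norm_eq_abs]
      split_ifs with h
      · refine (hW 0 ⟨le_rfl, ht.1.trans ht.2⟩ x n).trans (mul_le_mul_of_nonneg_left ?_ hK)
        linarith
      · have m : t - (s.2 : ℝ) / C.q x ∈ Set.Icc 0 t₀ := by
          have h2 : 0 ≤ (s.2 : ℝ) / C.q x := div_nonneg s.2.2 hq.le
          exact ⟨by linarith, by linarith [ht.2]⟩
        refine (hW _ m _ _).trans (mul_le_mul_of_nonneg_left ?_ hK)
        have := hL1 x s.1
        push_cast
        linarith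
    have hiG : Integrable G stp :=
      Integrable.of_bound hmG.aestronglyMeasurable _ (Eventually.of_forall hbG)
    have hlow : ∀ s : Stp, G s ≤ ∫ ω, C.ZZ W (k + 1) t x n (cons s ω) ∂Pr := by
      rintro ⟨u, e⟩
      simp only [G]
      split_ifs with h
      · have h1 : ∀ ω, C.ZZ W (k + 1) t x n (cons (u, e) ω) = W 0 x n := fun ω =>
          C.ZZ_cons_lt W k x n u e ω h
        simp only [h1, integral_const, probReal_univ, one_smul, le_refl]
      · have h2 : (e : ℝ) / C.q x ≤ t := not_lt.1 h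
        have h1 : ∀ ω, C.ZZ W (k + 1) t x n (cons (u, e) ω) =
            C.ZZ W k (t - (e : ℝ) / C.q x) (C.Φ x u) (n + 1) ω := fun ω =>
          C.ZZ_cons_le W k x n u e ω h2
        simp only [h1]
        have h3 : 0 ≤ (e : ℝ) / C.q x := div_nonneg e.2 hq.le
        have m : t - (e : ℝ) / C.q x ∈ Set.Icc 0 t₀ := ⟨by linarith, by linarith [ht.2]⟩
        exact ih m (C.Φ x u) (n + 1)
    refine le_trans ?_ (integral_mono hiG hint'.integral_prod_left hlow)
    have hiG' : Integrable G ((volume : Measure unitInterval).prod expL) := hiG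
    have hprod : ∫ s, G s ∂stp = ∫ e, ∫ u : unitInterval, G (u, e) ∂volume ∂expL :=
      integral_prod_symm G hiG'
    rw [hprod]
    have hcalc := calc_int hq ht.1 (w := fun t => W t x n) (w' := fun t => W' t x n)
      (fun s => hd s x n) (hc x n)
    rw [← hcalc]
    refine integral_mono ?_ hiG'.integral_prod_right ?_
    · have hm : Measurable fun e : ℝ≥0 => (if t < (e : ℝ) / C.q x then W 0 x n else
          W (t - (e : ℝ) / C.q x) x n + W' (t - (e : ℝ) / C.q x) x n / C.q x) := by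
        refine Measurable.ite (measurableSet_lt measurable_const (by fun_prop))
          measurable_const ?_
        have h1 : Measurable fun e : ℝ≥0 => t - (e : ℝ) / C.q x := by fun_prop
        exact ((hWc x n).measurable.comp h1).add (((hc x n).measurable.comp h1).div_const _)
      obtain ⟨b, hb'⟩ := isCompact_Icc.exists_bound_of_continuousOn
        (s := Set.Icc (0 : ℝ) t) (f := fun s => W s x n + W' s x n / C.q x)
        (((hWc x n).add ((hc x n).div_const _)).continuousOn)
      refine Integrable.of_bound hm.aestronglyMeasurable (max |W 0 x n| b)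
        (Eventually.of_forall fun e => ?_)
      split_ifs with h
      · exact le_max_left _ _
      · refine le_trans (hb' _ ⟨?_, ?_⟩) (le_max_right _ _)
        · linarith
        · have h2 : 0 ≤ (e : ℝ) / C.q x := div_nonneg e.2 hq.le
          linarith
    · intro e
      simp only [G]
      by_cases h : t < (e : ℝ) / C.q x
      · simp only [h, if_true, integral_const, probReal_univ, one_smul, le_refl]
      · simp only [h, if_false]
        have h2 : 0 ≤ (e : ℝ) / C.q x := div_nonneg e.2 hq.le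
        have m : t - (e : ℝ) / C.q x ∈ Set.Icc 0 t₀ := ⟨by linarith, by linarith [ht.2]⟩
        have h3 := hG _ m x n
        have hi : Integrable (fun u : unitInterval =>
            W (t - (e : ℝ) / C.q x) (C.Φ x u) (n + 1)) volume := by
          refine Integrable.of_bound
            (C.measurable_comp_Φ (fun y => W (t - (e : ℝ) / C.q x) y (n + 1)) x
              ).aestronglyMeasurable (K * (L x + n + 3)) (Eventually.of_forall fun u => ?_)
          refine (hW _ m _ _).trans (mul_le_mul_of_nonneg_left ?_ hK)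
          have := hL1 x u
          push_cast
          linarith
        rw [integral_sub hi (integrable_const _), integral_const, probReal_univ,
          one_smul] at h3
        have h4 : W' (t - (e : ℝ) / C.q x) x n / C.q x ≤
            (∫ u, W (t - (e : ℝ) / C.q x) (C.Φ x u) (n + 1)) - W (t - (e : ℝ) / C.q x) x n := by
          rw [div_le_iff₀ hq]
          linarith
        linarith

theorem Chain.sub (hC : C.NE) {L : E → ℝ} (hL : ∀ x, 0 ≤ L x)
    (hL1 : ∀ x u, L (C.Φ x u) ≤ L x + 1) {K t₀ : ℝ} (ht₀ : 0 ≤ t₀) {W W' : ℝ → E → ℕ → ℝ}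
    (hW : ∀ t ∈ Set.Icc 0 t₀, ∀ x n, |W t x n| ≤ K * (1 + L x + n))
    (hd : ∀ t x n, HasDerivAt (fun t => W t x n) (W' t x n) t)
    (hc : ∀ x n, Continuous fun t => W' t x n)
    (hG : ∀ t ∈ Set.Icc 0 t₀, ∀ x n,
      W' t x n ≤ C.q x * (∫ u, W t (C.Φ x u) (n + 1) - W t x n))
    (x : E) (hN : ∑' k, Pr {ω | C.T (k + 1) x ω ≤ t₀} ≠ ∞) (n : ℕ) :
    W t₀ x n ≤ ∫ ω, W 0 (C.X t₀ x ω) (n + C.N t₀ x ω) ∂Pr := by
  have hK : 0 ≤ K := by
    have h1 := (abs_nonneg _).trans (hW 0 ⟨le_rfl, ht₀⟩ x 0)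
    have h2 : 0 < 1 + L x + ((0 : ℕ) : ℝ) := by
      have := hL x
      push_cast
      linarith
    by_contra hcon
    have := mul_neg_of_neg_of_pos (not_le.1 hcon) h2
    linarith
  have hWc : ∀ x n, Continuous fun t => W t x n := fun x n =>
    continuous_iff_continuousAt.2 fun s => (hd s x n).continuousAt
  have m0 : t₀ ∈ Set.Icc 0 t₀ := ⟨ht₀, le_rfl⟩
  have hlim : Tendsto (fun k => ∫ ω, C.ZZ W k t₀ x n ω ∂Pr) atTop
      (𝓝 (∫ ω, W 0 (C.X t₀ x ω) (n + C.N t₀ x ω) ∂Pr)) := by
    refine tendsto_integral_of_dominated_convergence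
      (fun ω => K * (1 + L x + n + 2 * (C.N t₀ x ω : ℝ)))
      (fun k => (C.measurable_ZZ hWc k t₀ x n).aestronglyMeasurable) ?_ ?_ ?_
    · exact ((integrable_const _).add ((C.integrable_N hC ht₀ x hN).const_mul 2)).const_mul K
    · intro k
      filter_upwards [C.ae_finite hC x] with ω hω
      rw [Real.norm_eq_abs]
      by_cases h : C.T k x ω ≤ t₀
      · refine (C.ZZ_bound hL1 hK hW k m0 x n ω).trans (mul_le_mul_of_nonneg_left ?_ hK)
        have h1 : k ≤ C.N t₀ x ω := by
          rcases Nat.eq_zero_or_pos k with h0 | h0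
          · omega
          · obtain ⟨j, rfl⟩ := Nat.exists_eq_succ_of_ne_zero h0.ne'
            exact (C.lt_N_iff ht₀ (hω t₀) j).2 h
        have h2 : (k : ℝ) ≤ C.N t₀ x ω := by exact_mod_cast h1
        linarith
      · unfold Chain.ZZ
        rw [if_neg h]
        refine (hW 0 ⟨le_rfl, ht₀⟩ _ _).trans (mul_le_mul_of_nonneg_left ?_ hK)
        have h1 : L (C.X t₀ x ω) ≤ L x + (C.N t₀ x ω : ℝ) := C.L_le hL1 _ x ω
        push_cast
        linarith
    · filter_upwards [C.ae_finite hC x] with ω hω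
      obtain ⟨j, hj⟩ := hω t₀
      refine tendsto_const_nhds.congr' ?_
      filter_upwards [eventually_ge_atTop j] with k hk
      unfold Chain.ZZ
      rw [if_neg]
      rw [not_le]
      exact hj.trans_le (C.T_mono x ω hk)
  exact ge_of_tendsto' hlim fun k => C.sub_trunc hL1 hK hW hd hc hG k m0 x n

end H40.VM
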