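import Pool.Agent.H40.VM.VB2a

/-!
# Module VB2: the number of inversions

`hh m = Q - c (c - 1) / 2` with `Q = lin true (fun i => - i)`, `c = cc m`.
`gn Q = (sg - mn) / 2 + mn * c` and `gn (c (c-1)/2) = mn * c + (tot - mn) / 2`
(`c` jumps by `±1`), so `gn hh = (sg - tot) / 2`.
Lower bound: fix an integer `z`, `p = #ones ≤ z`, `r = #zeros > z`; `c = z + 1 - p + r`
(`balance`) and `Q ≥ (z+1) z / 2 + ∑_{i<p} (-z + i) + ∑_{i<r} (z + 1 + i)`, hence
`hh ≥ p r` (the `p` ones are at distinct sites `≤ z`, the `r` zeros at distinct sites `> z`).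
The last items: use `balance` at `z = c - 1`, at `z = ⌊r⌋`, at `z = c`, at `z = ⌊c - d⌋`.
-/

open MeasureTheory ProbabilityTheory Filter Topology
open scoped ENNReal NNReal unitInterval symmDiff

namespace H40.VM

open H40.Voter (IsKernel)

variable {a : ℤ → ℝ}

/-! ### inversions -/

lemma no_finite (b : Bool) (m : St) (r : ℝ) : {i : ℤ | (i : ℝ) ≤ r ∧ cf b m i = true}.Finite := by
  refine ((m.finite_toSet).union (Set.finite_Icc 0 ⌊r⌋)).subset ?_
  rintro i ⟨h1, h2⟩
  by_cases hm : i ∈ m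
  · exact Or.inl hm
  · right
    have h3 : 0 ≤ i := by
      by_contra h
      simp [cf, bs, hm, h] at h2
    exact ⟨h3, Int.le_floor.2 h1⟩

lemma nz_finite (m : St) (r : ℝ) : {i : ℤ | r < (i : ℝ) ∧ cf true m i = false}.Finite := by
  refine ((m.finite_toSet).union (Set.finite_Ioo ⌊r⌋ 0)).subset ?_
  rintro i ⟨h1, h2⟩
  by_cases hm : i ∈ m
  · exact Or.inl hm
  · right
    have h3 : i < 0 := by
      by_contra h
      push Not at h
      simp [cf, bs, hm, h] at h2
    exact ⟨Int.floor_lt.2 h1, h3⟩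

lemma low_iff_no (b : Bool) (m : St) (r : ℝ) : low b m r ↔ 0 < no b m r := by
  unfold no
  rw [Set.ncard_pos (no_finite b m r)]
  rfl

/-- the decomposition of a linear functional with respect to a cut at `r` -/
lemma lin_cut (ρ : ℤ → ℝ) (m : St) (r : ℝ) :
    lin true ρ m = (∑ i ∈ (no_finite true m r).toFinset, ρ i - ∑ i ∈ (nz_finite m r).toFinset, ρ i)
      - (∑ i ∈ (no_finite true ∅ r).toFinset, ρ i - ∑ i ∈ (nz_finite ∅ r).toFinset, ρ i) := by
  classical
  have key : ∀ (S W : Finset ℤ) (f : ℤ → ℝ), S ⊆ W →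
      ∑ i ∈ S, f i = ∑ i ∈ W, if i ∈ S then f i else 0 := by
    intro S W f hSW
    rw [Finset.sum_ite_mem, Finset.inter_eq_right.2 hSW]
  set W : Finset ℤ := (no_finite true m r).toFinset ∪ (nz_finite m r).toFinset ∪
    (no_finite true ∅ r).toFinset ∪ (nz_finite ∅ r).toFinset ∪ m with hW
  have s1 : (no_finite true m r).toFinset ⊆ W := by
    intro i hi; simp only [hW, Finset.mem_union]; tauto
  have s2 : (nz_finite m r).toFinset ⊆ W := by
    intro i hi; simp only [hW, Finset.mem_union]; tauto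
  have s3 : (no_finite true ∅ r).toFinset ⊆ W := by
    intro i hi; simp only [hW, Finset.mem_union]; tauto
  have s4 : (nz_finite ∅ r).toFinset ⊆ W := by
    intro i hi; simp only [hW, Finset.mem_union]; tauto
  have s5 : m ⊆ W := by
    intro i hi; simp only [hW, Finset.mem_union]; tauto
  unfold lin
  rw [key _ W _ s1, key _ W _ s2, key _ W _ s3, key _ W _ s4, key m W _ s5,
    ← Finset.sum_sub_distrib, ← Finset.sum_sub_distrib, ← Finset.sum_sub_distrib]
  refine Finset.sum_congr rfl fun i _ => ?_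
  simp only [Set.Finite.mem_toFinset, Set.mem_ofPred_eq]
  by_cases h1 : i ∈ m <;> by_cases h2 : 0 ≤ i <;> by_cases h3 : (i : ℝ) ≤ r <;>
    simp [cf, bs, ys, h1, h2, h3, not_lt.2, not_le.1]

lemma sum_base_aux (k : ℤ) :
    ∑ i ∈ Finset.Ico 0 k, (i : ℝ) - ∑ i ∈ Finset.Ico k 0, (i : ℝ) = (k : ℝ) * (k - 1) / 2 := by
  have step : ∀ k : ℤ, ∑ i ∈ Finset.Ico 0 (k + 1), (i : ℝ) - ∑ i ∈ Finset.Ico (k + 1) 0, (i : ℝ)
      = (∑ i ∈ Finset.Ico 0 k, (i : ℝ) - ∑ i ∈ Finset.Ico k 0, (i : ℝ)) + k := by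
    intro k
    by_cases hk : 0 ≤ k
    · have e1 : Finset.Ico 0 (k + 1) = insert k (Finset.Ico 0 k) := by
        ext i; simp only [Finset.mem_Ico, Finset.mem_insert]; omega
      have e2 : Finset.Ico (k + 1) 0 = ∅ := Finset.Ico_eq_empty (by omega)
      have e3 : Finset.Ico k 0 = ∅ := Finset.Ico_eq_empty (by omega)
      rw [e1, e2, e3, Finset.sum_insert (by simp)]
      simp only [Finset.sum_empty]
      ring
    · have e1 : Finset.Ico k 0 = insert k (Finset.Ico (k + 1) 0) := by
        ext i; simp only [Finset.mem_Ico, Finset.mem_insert]; omega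
      have e2 : Finset.Ico 0 k = ∅ := Finset.Ico_eq_empty (by omega)
      have e3 : Finset.Ico 0 (k + 1) = ∅ := Finset.Ico_eq_empty (by omega)
      rw [e1, e2, e3, Finset.sum_insert (by simp)]
      simp only [Finset.sum_empty]
      ring
  induction k using Int.induction_on with
  | zero => simp
  | succ n ih =>
    rw [step, ih]
    push_cast
    ring
  | pred n ih =>
    have h := step (-(n : ℤ) - 1)
    rw [sub_add_cancel, ih] at h
    push_cast at h ⊢
    linarith

lemma no_empty_toFinset (z : ℤ) : (no_finite true ∅ (z : ℝ)).toFinset = Finset.Ico 0 (z + 1) := by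
  ext i
  simp only [Set.Finite.mem_toFinset, Set.mem_ofPred_eq, Finset.mem_Ico, cf, bs, Int.cast_le]
  by_cases h : 0 ≤ i
  · simp [h]
  · simp [h]

lemma nz_empty_toFinset (z : ℤ) : (nz_finite ∅ (z : ℝ)).toFinset = Finset.Ico (z + 1) 0 := by
  ext i
  simp only [Set.Finite.mem_toFinset, Set.mem_ofPred_eq, Finset.mem_Ico, cf, bs, Int.cast_lt]
  by_cases h : 0 ≤ i
  · simp [h]
  · simp [h]
    omega

lemma no_eq_card (m : St) (r : ℝ) : no true m r = (no_finite true m r).toFinset.card :=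
  Set.ncard_eq_toFinset_card _ _

lemma nz_eq_card (m : St) (r : ℝ) : nz m r = (nz_finite m r).toFinset.card :=
  Set.ncard_eq_toFinset_card _ _

lemma cc_eq_lin (m : St) : (cc m : ℝ) = - lin true (fun _ => 1) m := by
  unfold cc lin
  rw [← Finset.sum_neg_distrib]
  push_cast
  refine Finset.sum_congr rfl fun i _ => ?_
  by_cases h : 0 ≤ i <;> simp [ys, bs, h]

lemma balance (m : St) (z : ℤ) : (nz m z : ℤ) - no true m z = cc m - z - 1 := by
  have h1 := lin_cut (fun _ => 1) m (z : ℝ)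
  rw [no_empty_toFinset, nz_empty_toFinset] at h1
  simp only [Finset.sum_const, nsmul_eq_mul, mul_one, Int.card_Ico] at h1
  rw [← no_eq_card, ← nz_eq_card] at h1
  have h2 := cc_eq_lin m
  rw [h1] at h2
  have h3 : (((z + 1 - 0).toNat : ℤ) : ℝ) - (((0 - (z + 1)).toNat : ℤ) : ℝ) = (z : ℝ) + 1 := by
    have : ((z + 1 - 0).toNat : ℤ) - ((0 - (z + 1)).toNat : ℤ) = z + 1 := by omega
    exact_mod_cast this
  have h4 : ((nz m z : ℤ) : ℝ) - ((no true m z : ℤ) : ℝ) = (cc m : ℝ) - z - 1 := by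
    push_cast at h3 h2 ⊢
    linarith
  exact_mod_cast h4

lemma hh_fl (m : St) (j : ℤ) : hh (fl m j) = hh m + (if cf true m j then (j : ℝ) else -j)
    - (if cf true m j then (cc m : ℝ) else 1 - cc m) := by
  unfold hh
  rw [lin_fl, cc_fl]
  by_cases h : cf true m j
  · simp only [h, if_true]
    push_cast
    ring
  · simp only [h, if_false, Bool.false_eq_true]
    push_cast
    ring

theorem summable_rt_hh (hk : IsKernel a) (m : St) :
    Summable fun j : ℤ => rt a true m j * |hh (fl m j)| := by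
  refine Summable.of_nonneg_of_le (fun j => mul_nonneg (rt_nonneg hk true m j) (abs_nonneg _))
    (f := fun j : ℤ => rt a true m j * |(j : ℝ)| + rt a true m j * (|hh m| + |(cc m : ℝ)| + 1)) ?_
    ((summable_rt_abs hk true m).add ((summable_rt hk true m).mul_right _))
  intro j
  rw [← mul_add]
  refine mul_le_mul_of_nonneg_left ?_ (rt_nonneg hk true m j)
  rw [hh_fl]
  have h1 : |(if cf true m j then (j : ℝ) else -j)| = |(j : ℝ)| := by
    split_ifs
    · rfl
    · exact abs_neg _
  have h2 : |(if cf true m j then (cc m : ℝ) else 1 - cc m)| ≤ |(cc m : ℝ)| + 1 := by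
    split_ifs
    · linarith [abs_nonneg (cc m : ℝ)]
    · have := abs_sub (1 : ℝ) (cc m)
      rw [abs_one] at this
      linarith
  have h3 := abs_sub (hh m + (if cf true m j then (j : ℝ) else -j))
    (if cf true m j then (cc m : ℝ) else 1 - cc m)
  have h4 := abs_add_le (hh m) (if cf true m j then (j : ℝ) else -j)
  linarith

lemma summable_mn (hk : IsKernel a) : Summable fun k : ℤ => a k * (k : ℝ) := by
  refine Summable.of_norm_bounded hk.second_moment fun k => ?_
  rw [Real.norm_eq_abs, abs_mul, abs_of_nonneg (hk.nonneg k)]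
  refine mul_le_mul_of_nonneg_left ?_ (hk.nonneg k)
  rcases eq_or_ne k 0 with rfl | h
  · simp
  · have h1 : (1 : ℝ) ≤ |(k : ℝ)| := by
      have : (1 : ℤ) ≤ |k| := Int.one_le_abs h
      exact_mod_cast this
    rw [← sq_abs]
    nlinarith

lemma bd_id (k : ℤ) : bd true (fun i => -(i : ℝ)) k = (k : ℝ) * (k - 1) / 2 := by
  rw [← sum_base_aux]
  unfold bd
  by_cases h : 0 ≤ k
  · have e3 : Finset.Ico k 0 = ∅ := Finset.Ico_eq_empty (by omega)
    simp [h, e3]
  · have e3 : Finset.Ico 0 k = ∅ := Finset.Ico_eq_empty (by omega)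
    simp [h, e3]

lemma gn_Q (hk : IsKernel a) (m : St) :
    gn a true (lin true (fun i => -(i : ℝ))) m = (sg a - mn a) / 2 + mn a * cc m := by
  rw [gn_lin hk true _ m (by simpa using summable_rt_abs hk true m)]
  have e : ∀ k : ℤ, a k * (bd true (fun i => -(i : ℝ)) k + ∑ i ∈ m, ys true i *
      ((fun i : ℤ => -(i : ℝ)) (i + k) - (fun i : ℤ => -(i : ℝ)) i))
      = (1 / 2) * (a k * (k : ℝ) ^ 2) + (cc m - 1 / 2) * (a k * k) := by
    intro k
    have h1 : ∑ i ∈ m, ys true i * ((fun i : ℤ => -(i : ℝ)) (i + k) - (fun i : ℤ => -(i : ℝ)) i)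
        = k * cc m := by
      rw [cc_eq_lin, lin, ← Finset.sum_neg_distrib, Finset.mul_sum]
      refine Finset.sum_congr rfl fun i _ => ?_
      push_cast
      ring
    rw [h1, bd_id]
    ring
  rw [tsum_congr e, (hk.second_moment.mul_left _).tsum_add ((summable_mn hk).mul_left _),
    tsum_mul_left, tsum_mul_left]
  unfold sg mn
  ring

theorem gn_hh (hk : IsKernel a) (m : St) : gn a true hh m = (sg a - tot a true m) / 2 := by
  have hs1 : Summable fun j : ℤ => rt a true m j *
      (lin true (fun i => -(i : ℝ)) (fl m j) - lin true (fun i => -(i : ℝ)) m) := by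
    refine Summable.of_norm_bounded (summable_rt_abs hk true m) fun j => ?_
    rw [Real.norm_eq_abs, abs_mul, abs_of_nonneg (rt_nonneg hk true m j), lin_fl]
    refine mul_le_mul_of_nonneg_left ?_ (rt_nonneg hk true m j)
    rw [add_sub_cancel_left]
    split_ifs <;> simp
  have hsU : Summable fun j : ℤ => if cf true m j then rt a true m j else 0 := by
    refine Summable.of_nonneg_of_le (fun j => ?_) (fun j => ?_) (summable_rt hk true m)
    · split_ifs
      · exact rt_nonneg hk true m j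
      · exact le_rfl
    · split_ifs
      · exact le_rfl
      · exact rt_nonneg hk true m j
  have e : ∀ j : ℤ, rt a true m j * (hh (fl m j) - hh m) = rt a true m j *
      (lin true (fun i => -(i : ℝ)) (fl m j) - lin true (fun i => -(i : ℝ)) m)
      - ((2 * (cc m : ℝ) - 1) * (if cf true m j then rt a true m j else 0)
        + (1 - cc m) * rt a true m j) := by
    intro j
    rw [hh_fl, lin_fl]
    by_cases h : cf true m j
    · simp only [h, if_true]; ring
    · simp only [h, if_false, Bool.false_eq_true]; ring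
  have h2 := gn_Q hk m
  unfold gn at h2 ⊢
  rw [tsum_congr e, hs1.tsum_sub ((hsU.mul_left _).add ((summable_rt hk true m).mul_left _)), h2,
    (hsU.mul_left _).tsum_add ((summable_rt hk true m).mul_left _), tsum_mul_left, tsum_mul_left,
    rate_up hk m]
  have h3 : ∑' j : ℤ, rt a true m j = tot a true m := rfl
  rw [h3]
  ring

lemma sum_ge_aux (z : ℤ) (S : Finset ℤ) : (∀ i ∈ S, z < i) →
    (S.card : ℝ) * (z + 1) + (S.card : ℝ) * (S.card - 1) / 2 ≤ ∑ i ∈ S, (i : ℝ) := by
  induction S using Finset.induction_on_max with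
  | empty => intro _; simp
  | insert b s hs ih =>
    intro h
    have hb : b ∉ s := fun hb => lt_irrefl b (hs b hb)
    rw [Finset.card_insert_of_notMem hb, Finset.sum_insert hb]
    have h1 := ih fun i hi => h i (Finset.mem_insert_of_mem hi)
    have h2 : s ⊆ Finset.Ioo z b := fun i hi =>
      Finset.mem_Ioo.2 ⟨h i (Finset.mem_insert_of_mem hi), hs i hi⟩
    have h3 := Finset.card_le_card h2
    rw [Int.card_Ioo] at h3
    have h4 : z < b := h b (Finset.mem_insert_self b s)
    have h5 : z + 1 + (s.card : ℤ) ≤ b := by omega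
    have h6 : (z : ℝ) + 1 + (s.card : ℝ) ≤ b := by exact_mod_cast h5
    push_cast
    nlinarith

lemma sum_le_aux (z : ℤ) (S : Finset ℤ) : (∀ i ∈ S, i ≤ z) →
    ∑ i ∈ S, (i : ℝ) ≤ (S.card : ℝ) * z - (S.card : ℝ) * (S.card - 1) / 2 := by
  induction S using Finset.induction_on_min with
  | empty => intro _; simp
  | insert b s hs ih =>
    intro h
    have hb : b ∉ s := fun hb => lt_irrefl b (hs b hb)
    rw [Finset.card_insert_of_notMem hb, Finset.sum_insert hb]
    have h1 := ih fun i hi => h i (Finset.mem_insert_of_mem hi)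
    have h2 : s ⊆ Finset.Ioc b z := fun i hi =>
      Finset.mem_Ioc.2 ⟨hs i hi, h i (Finset.mem_insert_of_mem hi)⟩
    have h3 := Finset.card_le_card h2
    rw [Int.card_Ioc] at h3
    have h4 : b ≤ z := h b (Finset.mem_insert_self b s)
    have h5 : b ≤ z - (s.card : ℤ) := by omega
    have h6 : (b : ℝ) ≤ z - (s.card : ℝ) := by exact_mod_cast h5
    push_cast
    nlinarith

lemma no_floor (m : St) (r : ℝ) : no true m r = no true m (⌊r⌋ : ℤ) := by
  unfold no
  congr 1
  ext i
  simp only [Set.mem_ofPred_eq, Int.cast_le, Int.le_floor]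

lemma nz_floor (m : St) (r : ℝ) : nz m r = nz m (⌊r⌋ : ℤ) := by
  unfold nz
  congr 1
  ext i
  simp only [Set.mem_ofPred_eq, Int.cast_lt, Int.floor_lt]

theorem hh_ge (m : St) (r : ℝ) : (no true m r : ℝ) * nz m r ≤ hh m := by
  rw [no_floor, nz_floor]
  generalize ⌊r⌋ = z
  have h1 := lin_cut (fun i => -(i : ℝ)) m (z : ℝ)
  rw [no_empty_toFinset, nz_empty_toFinset] at h1
  simp only [Finset.sum_neg_distrib] at h1
  have h2 := sum_base_aux (z + 1)
  have h3 := sum_ge_aux z (nz_finite m (z : ℝ)).toFinset (by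
    intro i hi
    rw [Set.Finite.mem_toFinset] at hi
    exact_mod_cast hi.1)
  have h4 := sum_le_aux z (no_finite true m (z : ℝ)).toFinset (by
    intro i hi
    rw [Set.Finite.mem_toFinset] at hi
    exact_mod_cast hi.1)
  rw [← nz_eq_card] at h3
  rw [← no_eq_card] at h4
  have h5 : (cc m : ℝ) = (nz m z : ℝ) - no true m z + z + 1 := by
    have := balance m z
    have h : (cc m : ℤ) = (nz m z : ℤ) - no true m z + z + 1 := by linarith
    exact_mod_cast h
  unfold hh
  rw [h1, h5]
  push_cast at h2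
  nlinarith

theorem hh_nonneg (m : St) : 0 ≤ hh m := by
  refine le_trans ?_ (hh_ge m 0)
  positivity

@[simp] theorem hh_empty : hh ∅ = 0 := by
  simp [hh, lin, cc]

/-- the number of ones to the left of the centre -/
theorem sq_no_le (m : St) : ((no true m ((cc m : ℝ) - 1) : ℝ)) ^ 2 ≤ hh m := by
  have h1 := hh_ge m ((cc m - 1 : ℤ) : ℝ)
  have h2 := balance m (cc m - 1)
  have h3 : (nz m ((cc m - 1 : ℤ) : ℝ) : ℝ) = no true m ((cc m - 1 : ℤ) : ℝ) := by
    have : (nz m ((cc m - 1 : ℤ) : ℝ) : ℤ) = no true m ((cc m - 1 : ℤ) : ℝ) := by linarith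
    exact_mod_cast this
  rw [h3] at h1
  push_cast at h1
  rw [sq]
  exact h1

/-- the leftmost one is at least `cc m - hh m` -/
theorem sub_le_of_low {m : St} {r : ℝ} (h : low true m r) : (cc m : ℝ) - r ≤ hh m := by
  rw [low_iff_no] at h
  have h1 := hh_ge m r
  rw [no_floor] at h h1
  rw [nz_floor] at h1
  have h2 := balance m ⌊r⌋
  have h3 : (⌊r⌋ : ℝ) ≤ r := Int.floor_le r
  have h4 : (nz m (⌊r⌋ : ℤ) : ℝ) - no true m (⌊r⌋ : ℤ) = (cc m : ℝ) - ⌊r⌋ - 1 := by
    exact_mod_cast h2
  have h5 : (1 : ℝ) ≤ no true m (⌊r⌋ : ℤ) := by exact_mod_cast h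
  have h6 : (0 : ℝ) ≤ nz m (⌊r⌋ : ℤ) := Nat.cast_nonneg _
  have h7 := hh_nonneg m
  by_cases h8 : (cc m : ℝ) - ⌊r⌋ - 1 < 0
  · have h9 : cc m - ⌊r⌋ - 1 < 0 := by exact_mod_cast h8
    have h10 : (cc m : ℝ) ≤ ⌊r⌋ := by
      have : cc m ≤ ⌊r⌋ := by omega
      exact_mod_cast this
    linarith
  · push Not at h8
    nlinarith

/-- the leftmost one is at most the centre -/
theorem low_cc (m : St) : low true m (cc m) := by
  rw [low_iff_no]
  have := balance m (cc m)
  omega

/-- many ones far to the left of the centre cost inversions -/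
theorem no_mul_le (m : St) {d : ℝ} (hd : 0 ≤ d) :
    (no true m ((cc m : ℝ) - d) : ℝ) * (d - 1) ≤ hh m := by
  have h1 := hh_ge m ((cc m : ℝ) - d)
  refine le_trans ?_ h1
  refine mul_le_mul_of_nonneg_left ?_ (Nat.cast_nonneg _)
  rw [nz_floor]
  have h2 := balance m ⌊(cc m : ℝ) - d⌋
  have h3 := Int.floor_le ((cc m : ℝ) - d)
  have h4 : (nz m (⌊(cc m : ℝ) - d⌋ : ℤ) : ℝ) - no true m (⌊(cc m : ℝ) - d⌋ : ℤ)
      = (cc m : ℝ) - ⌊(cc m : ℝ) - d⌋ - 1 := by
    exact_mod_cast h2
  have h5 : (0 : ℝ) ≤ no true m (⌊(cc m : ℝ) - d⌋ : ℤ) := Nat.cast_nonneg _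
  linarith

end H40.VM
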