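import Pool.Agent.H40.VM.VB1

/-!
# Module VB3: pair functionals and the tent function

`gn_nI`: flipping `j` (at rate `∑_k a(k) 1{x(j-k) ≠ x(j)}`) changes `nI d` by
`(1 - 2·1{x(j) ≠ x(j+d)}) + (1 - 2·1{x(j) ≠ x(j-d)})`, and
`1{u ≠ v} (1 - 2·1{v ≠ w}) = 1{u ≠ w} - 1{v ≠ w}` for bits; summing over `j`,
`gn (nI d) = ∑_k a(k) (nI (d+k) + nI (d-k) - 2 nI d)` for `d ≠ 0`.

Tent function: `W = ∑_{0 < |d| < R} (1 - |d|/R) nI d = 2 ∑_{d=1}^{R-1} (1 - d/R) nI d`. With
`w(d) = max (1 - |d|/R) 0 = (|d-R| + |d+R| - 2|d|)/(2R)` and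
`τ_k(y) = |y+k| + |y-k| - 2|y| = 2 max(|k|-|y|,0)` (`∑_y τ_k(y) = 2 k²`),
`gn W = ∑_k a(k) (∑_d nI d (w(d+k) + w(d-k) - 2 w(d)) - 2 nI k)`
`     = ∑_k a(k) (1/(2R)) ∑_{|y|<|k|} τ_k(y) (nI(y+R) + nI(y-R) - 2 nI y) - 2 tot`.
Lower bounds for the bracket: `≥ 2R - 2 nI y ≥ 2R - 2|y| nI 1` (used when `|k| ≤ R'`) and
`≥ - 2 nI R ≥ -2 R nI 1` (subadditivity; used when `|k| > R'`). So
`gn W ≥ 2 sg - 2 ς - (2 sg R'/R + 2 ς) nI 1 - 2 tot` with `ς = ∑_{|k|>R'} a(k) k²`, and
`nI 1 ≤ C tot` (`nI_one_le`). Choose `R'` then `R` large.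
-/

open MeasureTheory ProbabilityTheory Filter Topology
open scoped ENNReal NNReal unitInterval symmDiff

namespace H40.VM

open H40.Voter (IsKernel)

variable {a : ℤ → ℝ}

lemma hasSum_nI (b : Bool) (d : ℤ) (m : St) :
    HasSum (fun i : ℤ => if cf b m i ≠ cf b m (i + d) then (1 : ℝ) else 0) (nI b d m) := by
  classical
  have hf := nI_finite b d m
  have h1 : ((nI b d m : ℕ) : ℝ) =
      ∑ i ∈ hf.toFinset, (if cf b m i ≠ cf b m (i + d) then (1 : ℝ) else 0) := by
    have h2 : ∑ i ∈ hf.toFinset, (if cf b m i ≠ cf b m (i + d) then (1 : ℝ) else 0) =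
        ∑ i ∈ hf.toFinset, (1 : ℝ) := Finset.sum_congr rfl fun i hi =>
      if_pos ((Set.Finite.mem_toFinset hf).1 hi)
    rw [h2, Finset.sum_const, nsmul_eq_mul, mul_one]
    unfold nI
    rw [Set.ncard_eq_toFinset_card _ hf]
  rw [h1]
  refine hasSum_sum_of_ne_finset_zero fun i hi => if_neg fun h => hi ?_
  exact (Set.Finite.mem_toFinset hf).2 h

lemma hasSum_nI_shift (b : Bool) (s t : ℤ) (m : St) :
    HasSum (fun j : ℤ => if cf b m (j + s) ≠ cf b m (j + t) then (1 : ℝ) else 0)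
      (nI b (t - s) m) := by
  have h := (Equiv.hasSum_iff (Equiv.addRight s)).2 (hasSum_nI b (t - s) m)
  refine h.congr_fun ?_
  intro j
  have e : j + s + (t - s) = j + t := by ring
  simp only [Function.comp, Equiv.coe_addRight, e]

/-- the effect of a flip on the number of discrepancies -/
lemma nI_fl_eq (b : Bool) {d : ℤ} (hd : d ≠ 0) (m : St) (j : ℤ) :
    (nI b d (fl m j) : ℝ) - nI b d m =
      (1 - 2 * (if cf b m j ≠ cf b m (j + d) then (1 : ℝ) else 0)) +
      (1 - 2 * (if cf b m j ≠ cf b m (j + -d) then (1 : ℝ) else 0)) := by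
  classical
  have h1 := (hasSum_nI b d (fl m j)).sub (hasSum_nI b d m)
  have hne : j ≠ j - d := by omega
  have h2 : HasSum (fun i : ℤ => (if cf b (fl m j) i ≠ cf b (fl m j) (i + d) then (1 : ℝ) else 0) -
      (if cf b m i ≠ cf b m (i + d) then (1 : ℝ) else 0))
      (∑ i ∈ ({j, j - d} : Finset ℤ),
        ((if cf b (fl m j) i ≠ cf b (fl m j) (i + d) then (1 : ℝ) else 0) -
      (if cf b m i ≠ cf b m (i + d) then (1 : ℝ) else 0))) := by
    refine hasSum_sum_of_ne_finset_zero fun i hi => ?_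
    rw [Finset.mem_insert, Finset.mem_singleton, not_or] at hi
    have h3 : i + d ≠ j := fun h => hi.2 (by omega)
    rw [cf_fl, cf_fl, if_neg hi.1, if_neg h3, sub_self]
  rw [h1.unique h2, Finset.sum_pair hne]
  have e1 : j + d ≠ j := by omega
  have e2 : j - d + d = j := by ring
  have e3 : j - d ≠ j := by omega
  have e4 : j + -d = j - d := by ring
  rw [cf_fl, cf_fl, if_pos rfl, if_neg e1, cf_fl, cf_fl, if_neg e3, e2, if_pos rfl, e4]
  congr 1
  · cases cf b m j <;> cases cf b m (j + d) <;> norm_num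
  · cases cf b m j <;> cases cf b m (j - d) <;> norm_num

theorem gn_nI_aux (hk : IsKernel a) (m : St) {d : ℤ} (hd : d ≠ 0) :
    (Summable fun k : ℤ => a k * ((nI true (d + k) m : ℝ) + nI true (d - k) m
      - 2 * nI true d m)) ∧
    HasSum (fun j : ℤ => rt a true m j * ((nI true d (fl m j) : ℝ) - nI true d m))
      (∑' k : ℤ, a k * ((nI true (d + k) m : ℝ) + nI true (d - k) m - 2 * nI true d m)) := by
  set D : ℤ → ℝ := fun j => (nI true d (fl m j) : ℝ) - nI true d m with hD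
  have hD2 : ∀ j, |D j| ≤ 2 := fun j => nI_fl true d m j
  have hrt := summable_rt hk true m
  have hrt0 := rt_nonneg hk true m
  have hS1 : Summable fun j : ℤ => rt a true m j * |D j| := by
    refine Summable.of_nonneg_of_le (fun j => mul_nonneg (hrt0 j) (abs_nonneg _))
      (fun j => mul_le_mul_of_nonneg_left (hD2 j) (hrt0 j)) (hrt.mul_right 2)
  have hS2 : Summable fun j : ℤ => rt a true m j * D j := by
    refine Summable.of_norm_bounded hS1 fun j => ?_
    rw [Real.norm_eq_abs, abs_mul, abs_of_nonneg (hrt0 j)]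
  have hinner : ∀ k : ℤ, ∑' j : ℤ, (if cf true m (j - k) ≠ cf true m j then D j else 0) =
      (nI true (d + k) m : ℝ) + nI true (d - k) m - 2 * nI true d m := by
    intro k
    have h1 := hasSum_nI_shift true (-k) d m
    have h2 := hasSum_nI_shift true 0 d m
    have h3 := hasSum_nI_shift true (-k) (-d) m
    have h4 := hasSum_nI_shift true 0 (-d) m
    have h5 := (h1.sub h2).add (h3.sub h4)
    have e1 : d - -k = d + k := by ring
    have e2 : d - 0 = d := by ring
    have e3 : -d - -k = -(d - k) := by ring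
    have e4 : -d - 0 = -d := by ring
    rw [e1, e2, e3, e4, nI_neg, nI_neg] at h5
    have h6 : HasSum (fun j : ℤ => if cf true m (j - k) ≠ cf true m j then D j else 0)
        (((nI true (d + k) m : ℝ) - nI true d m) + ((nI true (d - k) m : ℝ) - nI true d m)) := by
      refine h5.congr_fun fun j => ?_
      simp only [hD, nI_fl_eq true hd m j, add_zero, ← sub_eq_add_neg]
      cases cf true m j <;> cases cf true m (j + d) <;> cases cf true m (j - d) <;>
        cases cf true m (j - k) <;> norm_num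
    rw [h6.tsum_eq]
    ring
  obtain ⟨_, h2⟩ := tsum_rt_mul hk true m D hS1
  constructor
  · have hn := summable_mul_nI hk true m
    have h1 : Summable fun k : ℤ => a k * (nI true (d + k) m : ℝ) := by
      refine Summable.of_nonneg_of_le (fun k => mul_nonneg (hk.nonneg k) (Nat.cast_nonneg _))
        (fun k => ?_) ((hk.summable.mul_right (nI true d m : ℝ)).add hn)
      rw [← mul_add]
      exact mul_le_mul_of_nonneg_left (by exact_mod_cast nI_add_le true d k m) (hk.nonneg k)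
    have h3 : Summable fun k : ℤ => a k * (nI true (d - k) m : ℝ) := by
      refine Summable.of_nonneg_of_le (fun k => mul_nonneg (hk.nonneg k) (Nat.cast_nonneg _))
        (fun k => ?_) ((hk.summable.mul_right (nI true d m : ℝ)).add hn)
      rw [← mul_add]
      refine mul_le_mul_of_nonneg_left ?_ (hk.nonneg k)
      have := nI_add_le true d (-k) m
      rw [nI_neg, ← sub_eq_add_neg] at this
      exact_mod_cast this
    refine ((h1.add h3).sub (hk.summable.mul_right (2 * (nI true d m : ℝ)))).congr fun k => ?_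
    ring
  · have h3 : ∑' j : ℤ, rt a true m j * D j =
        ∑' k : ℤ, a k * ((nI true (d + k) m : ℝ) + nI true (d - k) m - 2 * nI true d m) := by
      rw [h2]
      exact tsum_congr fun k => by rw [hinner k]
    rw [← h3]
    exact hS2.hasSum

theorem gn_nI (hk : IsKernel a) (m : St) {d : ℤ} (hd : d ≠ 0) :
    (Summable fun k : ℤ => a k * ((nI true (d + k) m : ℝ) + nI true (d - k) m
      - 2 * nI true d m)) ∧
    gn a true (fun m => (nI true d m : ℝ)) m =
      ∑' k : ℤ, a k * ((nI true (d + k) m : ℝ) + nI true (d - k) m - 2 * nI true d m) :=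
  ⟨(gn_nI_aux hk m hd).1, (gn_nI_aux hk m hd).2.tsum_eq⟩

/-! ### second differences -/

lemma second_diff (n : ℤ → ℝ) (K : ℕ) (d : ℤ) :
    n (d + K) + n (d - K) - 2 * n d = ∑ i ∈ Finset.range K, ∑ j ∈ Finset.range K,
      (n (d + i - j + 1) + n (d + i - j - 1) - 2 * n (d + i - j)) := by
  have h1 : ∀ j : ℕ, ∑ i ∈ Finset.range K,
      (n (d + i - j + 1) + n (d + i - j - 1) - 2 * n (d + i - j)) =
      (n (d + K - j) - n (d - j)) - (n (d + K - j - 1) - n (d - j - 1)) := by
    intro j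
    have h2 : ∀ L : ℕ, ∑ i ∈ Finset.range L,
        (n (d + i - j + 1) + n (d + i - j - 1) - 2 * n (d + i - j)) =
        (n (d + L - j) - n (d - j)) - (n (d + L - j - 1) - n (d - j - 1)) := by
      intro L
      induction L with
      | zero => simp
      | succ L ih =>
        rw [Finset.sum_range_succ, ih]
        have e1 : d + ((L + 1 : ℕ) : ℤ) - j = d + L - j + 1 := by push_cast; ring
        have e2 : d + (L : ℤ) - j + 1 - 1 = d + L - j := by ring
        rw [e1, e2]
        ring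
    exact h2 K
  rw [Finset.sum_comm, Finset.sum_congr rfl (fun j _ => h1 j)]
  have h3 : ∀ L : ℕ, ∑ j ∈ Finset.range L,
      ((n (d + K - j) - n (d - j)) - (n (d + K - j - 1) - n (d - j - 1))) =
      (n (d + K) - n (d + K - L)) - (n d - n (d - L)) := by
    intro L
    induction L with
    | zero => simp
    | succ L ih =>
      rw [Finset.sum_range_succ, ih]
      have e1 : d + (K : ℤ) - ((L + 1 : ℕ) : ℤ) = d + K - L - 1 := by push_cast; ring
      have e2 : d - ((L + 1 : ℕ) : ℤ) = d - L - 1 := by push_cast; ring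
      rw [e1, e2]
      ring
  rw [h3 K]
  have e1 : d + (K : ℤ) - K = d := by ring
  rw [e1]
  ring

lemma second_diff_swap (n : ℤ → ℝ) (K R : ℕ) :
    ∑ i ∈ Finset.range R, ∑ j ∈ Finset.range R,
      (n ((i : ℤ) - j + K) + n ((i : ℤ) - j - K) - 2 * n ((i : ℤ) - j)) =
    ∑ i ∈ Finset.range K, ∑ j ∈ Finset.range K,
      (n ((i : ℤ) - j + R) + n ((i : ℤ) - j - R) - 2 * n ((i : ℤ) - j)) := by
  have h1 : ∀ (K R : ℕ), ∑ i ∈ Finset.range R, ∑ j ∈ Finset.range R,
      (n ((i : ℤ) - j + K) + n ((i : ℤ) - j - K) - 2 * n ((i : ℤ) - j)) =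
      ∑ p ∈ Finset.range R ×ˢ Finset.range R, ∑ q ∈ Finset.range K ×ˢ Finset.range K,
        (n ((p.1 : ℤ) - p.2 + q.1 - q.2 + 1) + n ((p.1 : ℤ) - p.2 + q.1 - q.2 - 1) -
          2 * n ((p.1 : ℤ) - p.2 + q.1 - q.2)) := by
    intro K R
    rw [Finset.sum_product]
    refine Finset.sum_congr rfl fun i _ => Finset.sum_congr rfl fun j _ => ?_
    rw [Finset.sum_product]
    exact second_diff n K ((i : ℤ) - j)
  rw [h1, h1, Finset.sum_comm]
  refine Finset.sum_congr rfl fun q _ => Finset.sum_congr rfl fun p _ => ?_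
  have e1 : (p.1 : ℤ) - p.2 + q.1 - q.2 = q.1 - q.2 + p.1 - p.2 := by ring
  rw [e1]

/-- the tent function -/
noncomputable def tentW (R : ℕ) (m : St) : ℝ :=
  (R : ℝ)⁻¹ * ∑ i ∈ Finset.range R, ∑ j ∈ Finset.range R, (nI true ((i : ℤ) - j) m : ℝ)

lemma tentW_nonneg (R : ℕ) (m : St) : 0 ≤ tentW R m := by
  unfold tentW
  positivity

lemma tentW_le (R : ℕ) (m : St) : tentW R m ≤ ((R : ℝ) ^ 2 + 1) * nI true 1 m := by
  unfold tentW
  rcases Nat.eq_zero_or_pos R with rfl | hR
  · simp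
  have hR' : (0 : ℝ) < R := by exact_mod_cast hR
  have h1 : ∑ i ∈ Finset.range R, ∑ j ∈ Finset.range R, (nI true ((i : ℤ) - j) m : ℝ) ≤
      ∑ i ∈ Finset.range R, ∑ j ∈ Finset.range R, (R : ℝ) * nI true 1 m := by
    refine Finset.sum_le_sum fun i hi => Finset.sum_le_sum fun j hj => ?_
    have h2 := nI_le_mul true ((i : ℤ) - j) m
    have h3 : ((i : ℤ) - j).natAbs ≤ R := by
      rw [Finset.mem_range] at hi hj
      omega
    calc (nI true ((i : ℤ) - j) m : ℝ) ≤ (((i : ℤ) - j).natAbs : ℝ) * nI true 1 m := by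
          exact_mod_cast h2
      _ ≤ (R : ℝ) * nI true 1 m :=
          mul_le_mul_of_nonneg_right (by exact_mod_cast h3) (Nat.cast_nonneg _)
  simp only [Finset.sum_const, Finset.card_range, nsmul_eq_mul] at h1
  calc (R : ℝ)⁻¹ * ∑ i ∈ Finset.range R, ∑ j ∈ Finset.range R, (nI true ((i : ℤ) - j) m : ℝ)
      ≤ (R : ℝ)⁻¹ * (R * (R * (R * nI true 1 m))) :=
        mul_le_mul_of_nonneg_left h1 (by positivity)
    _ = (R : ℝ) ^ 2 * nI true 1 m := by field_simp
    _ ≤ _ := mul_le_mul_of_nonneg_right (by linarith) (Nat.cast_nonneg _)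

/-- the generator of the tent function -/
lemma hasSum_gn_tentW (hk : IsKernel a) {R : ℕ} (hR : 0 < R) (m : St) :
    HasSum (fun k : ℤ => a k * ((R : ℝ)⁻¹ * (∑ i ∈ Finset.range k.natAbs,
      ∑ j ∈ Finset.range k.natAbs, ((nI true ((i : ℤ) - j + R) m : ℝ) +
        nI true ((i : ℤ) - j - R) m - 2 * nI true ((i : ℤ) - j) m)) - 2 * nI true k m))
      (gn a true (tentW R) m) := by
  classical
  have hR' : (R : ℝ) ≠ 0 := by exact_mod_cast hR.ne'
  set n : ℤ → ℝ := fun y => (nI true y m : ℝ) with hn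
  -- the generator of each term
  set g : ℤ → ℝ := fun d => if d = 0 then 0 else
    ∑' k : ℤ, a k * ((nI true (d + k) m : ℝ) + nI true (d - k) m - 2 * nI true d m) with hg
  have hg1 : ∀ d : ℤ, HasSum (fun j : ℤ => rt a true m j *
      ((nI true d (fl m j) : ℝ) - nI true d m)) (g d) := by
    intro d
    by_cases hd : d = 0
    · subst hd
      simp only [hg, if_pos, nI_zero, Nat.cast_zero, sub_self, mul_zero]
      exact hasSum_zero
    · simp only [hg, if_neg hd]
      exact (gn_nI_aux hk m hd).2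
  have hg2 : ∀ d : ℤ, HasSum (fun k : ℤ => a k * (if d = 0 then 0 else
      (n (d + k) + n (d - k) - 2 * n d))) (g d) := by
    intro d
    by_cases hd : d = 0
    · subst hd
      simp only [hg, if_pos, mul_zero]
      exact hasSum_zero
    · simp only [hg, if_neg hd]
      exact (gn_nI_aux hk m hd).1.hasSum
  have h1 : HasSum (fun j : ℤ => rt a true m j * (tentW R (fl m j) - tentW R m))
      ((R : ℝ)⁻¹ * ∑ i ∈ Finset.range R, ∑ j ∈ Finset.range R, g ((i : ℤ) - j)) := by
    have h2 : HasSum (fun j : ℤ => (R : ℝ)⁻¹ * ∑ i ∈ Finset.range R, ∑ i' ∈ Finset.range R,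
        rt a true m j * ((nI true ((i : ℤ) - i') (fl m j) : ℝ) - nI true ((i : ℤ) - i') m))
        ((R : ℝ)⁻¹ * ∑ i ∈ Finset.range R, ∑ i' ∈ Finset.range R, g ((i : ℤ) - i')) :=
      HasSum.mul_left _ (hasSum_sum fun i _ => hasSum_sum fun i' _ => hg1 _)
    refine h2.congr_fun fun j => ?_
    unfold tentW
    rw [← mul_sub, ← Finset.sum_sub_distrib]
    simp only [← Finset.sum_sub_distrib, ← Finset.mul_sum]
    ring
  have h3 : gn a true (tentW R) m =
      (R : ℝ)⁻¹ * ∑ i ∈ Finset.range R, ∑ j ∈ Finset.range R, g ((i : ℤ) - j) := h1.tsum_eq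
  rw [h3]
  have h4 : HasSum (fun k : ℤ => (R : ℝ)⁻¹ * ∑ i ∈ Finset.range R, ∑ i' ∈ Finset.range R,
      a k * (if (i : ℤ) - i' = 0 then 0 else
        (n ((i : ℤ) - i' + k) + n ((i : ℤ) - i' - k) - 2 * n ((i : ℤ) - i'))))
      ((R : ℝ)⁻¹ * ∑ i ∈ Finset.range R, ∑ i' ∈ Finset.range R, g ((i : ℤ) - i')) :=
    HasSum.mul_left _ (hasSum_sum fun i _ => hasSum_sum fun i' _ => hg2 _)
  refine h4.congr_fun fun k => ?_
  have hn0 : n 0 = 0 := by simp [hn]
  have hneg : ∀ y, n (-y) = n y := fun y => by simp only [hn, nI_neg]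
  have h5 : ∑ i ∈ Finset.range R, ∑ i' ∈ Finset.range R,
      (if (i : ℤ) - i' = 0 then 0 else
        (n ((i : ℤ) - i' + k) + n ((i : ℤ) - i' - k) - 2 * n ((i : ℤ) - i'))) =
      ∑ i ∈ Finset.range R, ∑ i' ∈ Finset.range R,
        (n ((i : ℤ) - i' + k) + n ((i : ℤ) - i' - k) - 2 * n ((i : ℤ) - i')) -
        R * (2 * n k) := by
    have h6 : ∀ i ∈ Finset.range R, ∑ i' ∈ Finset.range R,
        (if (i : ℤ) - i' = 0 then 0 else
          (n ((i : ℤ) - i' + k) + n ((i : ℤ) - i' - k) - 2 * n ((i : ℤ) - i'))) =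
        ∑ i' ∈ Finset.range R,
          (n ((i : ℤ) - i' + k) + n ((i : ℤ) - i' - k) - 2 * n ((i : ℤ) - i')) - 2 * n k := by
      intro i hi
      have h7 : ∀ i' ∈ Finset.range R, (if (i : ℤ) - i' = 0 then 0 else
          (n ((i : ℤ) - i' + k) + n ((i : ℤ) - i' - k) - 2 * n ((i : ℤ) - i'))) =
          (n ((i : ℤ) - i' + k) + n ((i : ℤ) - i' - k) - 2 * n ((i : ℤ) - i')) -
            (if i = i' then 2 * n k else 0) := by
        intro i' _
        by_cases h : i = i'
        · subst h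
          rw [if_pos (by ring), if_pos rfl, sub_self, zero_add, zero_sub, hneg, hn0]
          ring
        · rw [if_neg (by omega), if_neg h, sub_zero]
      rw [Finset.sum_congr rfl h7, Finset.sum_sub_distrib, Finset.sum_ite_eq, if_pos hi]
    rw [Finset.sum_congr rfl h6, Finset.sum_sub_distrib, Finset.sum_const, Finset.card_range,
      nsmul_eq_mul]
  have h8 : ∑ i ∈ Finset.range R, ∑ i' ∈ Finset.range R,
      (n ((i : ℤ) - i' + k) + n ((i : ℤ) - i' - k) - 2 * n ((i : ℤ) - i')) =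
      ∑ i ∈ Finset.range k.natAbs, ∑ j ∈ Finset.range k.natAbs,
        (n ((i : ℤ) - j + R) + n ((i : ℤ) - j - R) - 2 * n ((i : ℤ) - j)) := by
    rw [← second_diff_swap]
    refine Finset.sum_congr rfl fun i _ => Finset.sum_congr rfl fun j _ => ?_
    rcases le_total 0 k with h | h
    · have : ((k.natAbs : ℕ) : ℤ) = k := by omega
      rw [this]
    · have : ((k.natAbs : ℕ) : ℤ) = -k := by omega
      rw [this, sub_neg_eq_add, ← sub_eq_add_neg]
      ring
  simp only [← Finset.mul_sum]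
  rw [h5, h8]
  simp only [hn]
  field_simp

lemma diff_lower (m : St) (R : ℕ) (y : ℤ) :
    2 * (R : ℝ) - 2 * y.natAbs * nI true 1 m ≤
      (nI true (y + R) m : ℝ) + nI true (y - R) m - 2 * nI true y m := by
  have h1 : (((y + R).natAbs : ℕ) : ℝ) ≤ nI true (y + R) m := by
    exact_mod_cast nI_ge (y + R) m
  have h2 : (((y - R).natAbs : ℕ) : ℝ) ≤ nI true (y - R) m := by
    exact_mod_cast nI_ge (y - R) m
  have h3 : (nI true y m : ℝ) ≤ (y.natAbs : ℝ) * nI true 1 m := by
    exact_mod_cast nI_le_mul true y m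
  have h4 : 2 * R ≤ (y + R).natAbs + (y - R).natAbs := by omega
  have h5 : 2 * (R : ℝ) ≤ (((y + R).natAbs : ℕ) : ℝ) + (((y - R).natAbs : ℕ) : ℝ) := by
    exact_mod_cast h4
  linarith

lemma diff_lower' (m : St) (R : ℕ) (y : ℤ) :
    -(2 * (R : ℝ) * nI true 1 m) ≤
      (nI true (y + R) m : ℝ) + nI true (y - R) m - 2 * nI true y m := by
  have h1 : (nI true y m : ℝ) ≤ nI true (y + R) m + nI true R m := by
    have := nI_add_le true (y + R) (-R) m
    rw [nI_neg, ← sub_eq_add_neg, add_sub_cancel_right] at this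
    exact_mod_cast this
  have h2 : (nI true y m : ℝ) ≤ nI true (y - R) m + nI true R m := by
    have := nI_add_le true (y - R) R m
    rw [sub_add_cancel] at this
    exact_mod_cast this
  have h3 : (nI true R m : ℝ) ≤ (R : ℝ) * nI true 1 m := by
    have := nI_le_mul true R m
    rw [Int.natAbs_natCast] at this
    exact_mod_cast this
  linarith

lemma tent_inner {R : ℕ} (hR : 0 < R) (m : St) (k : ℤ) (R' : ℕ) :
    2 * (k : ℝ) ^ 2 - 2 * (k : ℝ) ^ 2 * ((R' : ℝ) / R) * nI true 1 m -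
      (if k.natAbs ≤ R' then 0 else 2 * (k : ℝ) ^ 2 * (1 + nI true 1 m)) ≤
    (R : ℝ)⁻¹ * (∑ i ∈ Finset.range k.natAbs,
      ∑ j ∈ Finset.range k.natAbs, ((nI true ((i : ℤ) - j + R) m : ℝ) +
        nI true ((i : ℤ) - j - R) m - 2 * nI true ((i : ℤ) - j) m)) := by
  have hR' : (0 : ℝ) < R := by exact_mod_cast hR
  have hkk : ((k.natAbs : ℕ) : ℝ) * ((k.natAbs : ℕ) : ℝ) = (k : ℝ) ^ 2 := by
    rw [← sq]
    have : ((k.natAbs : ℕ) : ℝ) = |(k : ℝ)| := by
      rw [← Int.cast_abs, Nat.cast_natAbs]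
    rw [this, sq_abs]
  have hn : (0 : ℝ) ≤ nI true 1 m := Nat.cast_nonneg _
  have hsum : ∀ c : ℝ, (∀ y : ℤ, y.natAbs < k.natAbs → c ≤
      (nI true (y + R) m : ℝ) + nI true (y - R) m - 2 * nI true y m) →
      (R : ℝ)⁻¹ * ((k : ℝ) ^ 2 * c) ≤ (R : ℝ)⁻¹ * (∑ i ∈ Finset.range k.natAbs,
      ∑ j ∈ Finset.range k.natAbs, ((nI true ((i : ℤ) - j + R) m : ℝ) +
        nI true ((i : ℤ) - j - R) m - 2 * nI true ((i : ℤ) - j) m)) := by
    intro c hc
    refine mul_le_mul_of_nonneg_left ?_ (by positivity)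
    have h1 : ∑ i ∈ Finset.range k.natAbs, ∑ j ∈ Finset.range k.natAbs, c = (k : ℝ) ^ 2 * c := by
      rw [← hkk]
      simp only [Finset.sum_const, Finset.card_range, nsmul_eq_mul]
      ring
    rw [← h1]
    refine Finset.sum_le_sum fun i hi => Finset.sum_le_sum fun j hj => hc _ ?_
    rw [Finset.mem_range] at hi hj
    omega
  by_cases h : k.natAbs ≤ R'
  · rw [if_pos h, sub_zero]
    refine le_trans (le_of_eq ?_) (hsum (2 * R - 2 * R' * nI true 1 m) fun y hy => ?_)
    · field_simp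
    · refine le_trans ?_ (diff_lower m R y)
      have h1 : (y.natAbs : ℝ) ≤ R' := by exact_mod_cast (hy.le.trans h)
      have := mul_le_mul_of_nonneg_right h1 hn
      linarith
  · rw [if_neg h]
    refine le_trans ?_ (hsum (-(2 * (R : ℝ) * nI true 1 m)) fun y _ => diff_lower' m R y)
    have e1 : (R : ℝ)⁻¹ * ((k : ℝ) ^ 2 * -(2 * (R : ℝ) * nI true 1 m)) =
        - (2 * (k : ℝ) ^ 2 * nI true 1 m) := by
      field_simp
    rw [e1]
    have : 0 ≤ 2 * (k : ℝ) ^ 2 * ((R' : ℝ) / R) * nI true 1 m := by positivity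
    linarith

/-- for every `δ > 0` there is a nonnegative function `W ≤ K nI 1` whose generator is at least
`2 sg - δ - (2 + δ) tot` -/
theorem tent (hk : IsKernel a) {δ : ℝ} (hδ : 0 < δ) :
    ∃ (W : St → ℝ) (K : ℝ), 0 < K ∧ (∀ m, 0 ≤ W m) ∧ (∀ m, W m ≤ K * nI true 1 m) ∧
      ∀ m, 2 * sg a - δ - (2 + δ) * tot a true m ≤ gn a true W m := by
  obtain ⟨C, hC, hnI⟩ := nI_one_le hk
  -- the tail of the second moment
  have hs2 := hk.second_moment
  have htail : ∃ R' : ℕ, ∑' k : ℤ, (if k.natAbs ≤ R' then 0 else a k * (k : ℝ) ^ 2) ≤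
      δ / (4 * (1 + C)) := by
    have h1 : Tendsto (fun R' : ℕ => ∑' k : ℤ,
        (if k.natAbs ≤ R' then 0 else a k * (k : ℝ) ^ 2)) atTop (𝓝 (∑' k : ℤ, (0 : ℝ))) := by
      refine tendsto_tsum_of_dominated_convergence hs2 (fun k => ?_) ?_
      · refine tendsto_const_nhds.congr' ?_
        filter_upwards [eventually_ge_atTop k.natAbs] with R' hR'
        rw [if_pos hR']
      · refine Eventually.of_forall fun R' k => ?_
        split_ifs
        · simp only [norm_zero]
          exact mul_nonneg (hk.nonneg k) (sq_nonneg _)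
        · rw [Real.norm_eq_abs, abs_of_nonneg (mul_nonneg (hk.nonneg k) (sq_nonneg _))]
    rw [tsum_zero] at h1
    have h2 : (0 : ℝ) < δ / (4 * (1 + C)) := by positivity
    exact ((h1.eventually_le_const h2).exists)
  obtain ⟨R', hR'⟩ := htail
  set ς : ℝ := ∑' k : ℤ, (if k.natAbs ≤ R' then 0 else a k * (k : ℝ) ^ 2) with hς
  have hς0 : 0 ≤ ς := tsum_nonneg fun k => by
    split_ifs
    · exact le_rfl
    · exact mul_nonneg (hk.nonneg k) (sq_nonneg _)
  have hsg0 : 0 ≤ sg a := tsum_nonneg fun k => mul_nonneg (hk.nonneg k) (sq_nonneg _)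
  have hςs : Summable fun k : ℤ => (if k.natAbs ≤ R' then 0 else a k * (k : ℝ) ^ 2) := by
    refine Summable.of_nonneg_of_le (fun k => ?_) (fun k => ?_) hs2
    · split_ifs
      · exact le_rfl
      · exact mul_nonneg (hk.nonneg k) (sq_nonneg _)
    · split_ifs
      · exact mul_nonneg (hk.nonneg k) (sq_nonneg _)
      · exact le_rfl
  obtain ⟨R, hR⟩ := exists_nat_gt (max 0 (4 * sg a * R' * C / δ))
  have hR0 : (0 : ℝ) < R := (le_max_left _ _).trans_lt hR
  have hR0' : 0 < R := by exact_mod_cast hR0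
  have hR1 : 4 * sg a * R' * C / δ < R := (le_max_right _ _).trans_lt hR
  refine ⟨tentW R, (R : ℝ) ^ 2 + 1, by positivity, tentW_nonneg R, tentW_le R, fun m => ?_⟩
  set n1 : ℝ := ((nI true 1 m : ℕ) : ℝ) with hn1
  have hn10 : 0 ≤ n1 := Nat.cast_nonneg _
  have htot0 := tot_nonneg hk true m
  have hlow : HasSum (fun k : ℤ => a k * (2 * (k : ℝ) ^ 2 - 2 * (k : ℝ) ^ 2 * ((R' : ℝ) / R) * n1 -
      (if k.natAbs ≤ R' then 0 else 2 * (k : ℝ) ^ 2 * (1 + n1)) - 2 * nI true k m))
      (2 * sg a - 2 * sg a * ((R' : ℝ) / R) * n1 - ς * (2 * (1 + n1)) - 2 * tot a true m) := by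
    have h1 : HasSum (fun k : ℤ => a k * (k : ℝ) ^ 2) (sg a) := hs2.hasSum
    have h2 : HasSum (fun k : ℤ => a k * (nI true k m : ℝ)) (tot a true m) := by
      rw [tot_eq hk]
      exact (summable_mul_nI hk true m).hasSum
    have h3 := (((h1.mul_left 2).sub (h1.mul_left (2 * ((R' : ℝ) / R) * n1))).sub
      (hςs.hasSum.mul_right (2 * (1 + n1)))).sub (h2.mul_left 2)
    have e : 2 * sg a - 2 * sg a * ((R' : ℝ) / R) * n1 - ς * (2 * (1 + n1)) - 2 * tot a true m =
      2 * sg a - 2 * ((R' : ℝ) / R) * n1 * sg a - ς * (2 * (1 + n1)) - 2 * tot a true m := by ring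
    rw [e]
    refine h3.congr_fun fun k => ?_
    split_ifs <;> ring
  have hle := hasSum_le (fun k => ?_) hlow (hasSum_gn_tentW hk hR0' m)
  · refine le_trans ?_ hle
    have hn1C : n1 ≤ C * tot a true m := hnI m
    have h1 : 2 * ς ≤ δ / 2 := by
      have : δ / (4 * (1 + C)) ≤ δ / 4 := by
        apply div_le_div_of_nonneg_left hδ.le (by norm_num)
        linarith
      linarith
    have h2 : 2 * ς * C ≤ δ / 2 := by
      have h3 : ς * (1 + C) ≤ δ / (4 * (1 + C)) * (1 + C) :=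
        mul_le_mul_of_nonneg_right hR' (by positivity)
      have h4 : δ / (4 * (1 + C)) * (1 + C) = δ / 4 := by field_simp
      have h5 : ς * C ≤ ς * (1 + C) := mul_le_mul_of_nonneg_left (by linarith) hς0
      linarith
    have h3 : 2 * sg a * ((R' : ℝ) / R) * C ≤ δ / 2 := by
      rw [div_lt_iff₀ hδ] at hR1
      have : 2 * sg a * ((R' : ℝ) / R) * C = (2 * sg a * R' * C) / R := by ring
      rw [this, div_le_iff₀ hR0]
      linarith
    have h4 : 2 * sg a * ((R' : ℝ) / R) * n1 ≤ δ / 2 * tot a true m := by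
      calc 2 * sg a * ((R' : ℝ) / R) * n1 ≤ 2 * sg a * ((R' : ℝ) / R) * (C * tot a true m) :=
            mul_le_mul_of_nonneg_left hn1C (by positivity)
        _ = (2 * sg a * ((R' : ℝ) / R) * C) * tot a true m := by ring
        _ ≤ _ := mul_le_mul_of_nonneg_right h3 htot0
    have h5 : 2 * ς * n1 ≤ δ / 2 * tot a true m := by
      calc 2 * ς * n1 ≤ 2 * ς * (C * tot a true m) :=
            mul_le_mul_of_nonneg_left hn1C (by positivity)
        _ = (2 * ς * C) * tot a true m := by ring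
        _ ≤ _ := mul_le_mul_of_nonneg_right h2 htot0
    nlinarith
  · refine mul_le_mul_of_nonneg_left ?_ (hk.nonneg k)
    exact sub_le_sub_right (tent_inner hR0' m k R') _

end H40.VM
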