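import Pool.Agent.H40.VM.CT3
import Pool.Agent.H40.VM.CT4
import Pool.Agent.H40.VM.VB2
import Pool.Agent.H40.VM.VB3

/-!
# Module CB: first moment bounds

* `ne_true`, `tsum_count_le`: `Chain.ne_of_super`, `Chain.super_count` with `A = 2 hh`, `B = sg`
  (`gn_hh`, `lintegral_ofReal_Φ`, `q_true`: `∫ 2 hh (Φ m u) + 1 = 2 hh m + sg / tot`).
* `ne_false`: `A = 0`, `B m = 2 Lam |m| + 1` (`tot_false_le`, `rate_up_false` shows that the mean of
  the cardinality after a jump is the cardinality).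
* `hh_add_count`: `Chain.super` with `A m n = 2 hh m + n`, `B = sg`, `g = 0`;
  `tot_integral_le`: `A m n = 2 hh m`, `B = sg`, `g = tot`.
* `tendsto_EN`: upper bound `count_le` (`hh ∅ = 0`); lower bound: `tent` with small `δ`, and
  `Chain.sub` with `W t m n = W m + (2+δ) n + (2 sg - δ) t`, `L m = 2 * card`
  (`W m ≤ K nI 1 m ≤ K (1 + 2 card)`), which gives
  `(2 sg - δ) s ≤ E W (X s) + (2+δ) E N s ≤ K C E tot (X s) + (2+δ) E N s`
  (`nI_one_le`). By `tot_integral_le` there is `s ∈ [(1-κ) t, t]` with `E tot (X s) ≤ sg / κ`, and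
  `E N t ≥ E N s`. (`L` may be rescaled: `Chain.sub` needs `L (Φ x u) ≤ L x + 1`; use `L = card`.)
* `tendsto_Ehh` from `hh_add_count`; `tendsto_ED` from `sq_no_le` and Jensen.
-/

open MeasureTheory ProbabilityTheory Filter Topology
open scoped ENNReal NNReal unitInterval symmDiff

namespace H40.VM

open H40.Voter (IsKernel)

variable {a : ℤ → ℝ}

/-! ### auxiliary lemmas -/

lemma cb_sg_nonneg (hk : IsKernel a) : 0 ≤ sg a :=
  tsum_nonneg fun k => mul_nonneg (hk.nonneg k) (sq_nonneg _)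

lemma cb_nonneg (hk : IsKernel a) {b : Bool} {m : St} (h : 0 < tot a b m) {f : St → ℝ}
    (hf0 : ∀ x, 0 ≤ f x) (hf : Summable fun j : ℤ => rt a b m j * |f (fl m j)|) :
    0 ≤ f m + gn a b f m / tot a b m := by
  have h1 := tot_mul_integral hk h hf
  have h2 : 0 ≤ ∫ u, f ((vc a b).Φ m u) := integral_nonneg fun u => hf0 _
  have h3 : f m + gn a b f m / tot a b m = ∫ u, f ((vc a b).Φ m u) := by
    rw [← h1]
    field_simp
    ring
  rw [h3]
  exact h2

lemma cb_summable (hk : IsKernel a) (m : St) (c : ℝ) :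
    Summable fun j : ℤ => rt a true m j * (2 * hh (fl m j) + c) := by
  have h1 := summable_rt_hh hk m
  have h2 := summable_rt hk true m
  refine ((h1.mul_left 2).add (h2.mul_left c)).congr fun j => ?_
  rw [abs_of_nonneg (hh_nonneg _)]
  ring

lemma cb_gn (hk : IsKernel a) (m : St) (c : ℝ) :
    gn a true (fun m => 2 * hh m + c) m = sg a - tot a true m := by
  have h := gn_hh hk m
  unfold gn at h ⊢
  have h2 : ∀ j : ℤ, rt a true m j * (2 * hh (fl m j) + c - (2 * hh m + c)) =
      2 * (rt a true m j * (hh (fl m j) - hh m)) := fun j => by ring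
  simp only [h2]
  rw [tsum_mul_left, h]
  ring

lemma cb_step (hk : IsKernel a) (m : St) {c : ℝ} (hc : 0 ≤ c) :
    ∫⁻ u, ENNReal.ofReal (2 * hh ((vc a true).Φ m u) + c) =
      ENNReal.ofReal (2 * hh m + c + (sg a - tot a true m) / tot a true m) := by
  have h := lintegral_ofReal_Φ hk (tot_true_pos hk m) (f := fun m => 2 * hh m + c)
    (fun x => by have := hh_nonneg x; positivity) (cb_summable hk m c)
  rw [cb_gn hk m c] at h
  exact h

lemma cb_step_nonneg (hk : IsKernel a) (m : St) {c : ℝ} (hc : 0 ≤ c) :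
    0 ≤ 2 * hh m + c + (sg a - tot a true m) / tot a true m := by
  have h := cb_nonneg hk (tot_true_pos hk m) (f := fun m => 2 * hh m + c)
    (fun x => by have := hh_nonneg x; positivity)
    ((cb_summable hk m c).congr fun j => by
      rw [abs_of_nonneg]
      have := hh_nonneg (fl m j); positivity)
  rw [cb_gn hk m c] at h
  exact h

lemma cb_h1 (hk : IsKernel a) (m : St) :
    (∫⁻ u, ENNReal.ofReal (2 * hh ((vc a true).Φ m u))) + 1 ≤
      ENNReal.ofReal (2 * hh m + sg a / (vc a true).q m) := by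
  have h := cb_step hk m le_rfl
  simp only [add_zero] at h
  have h0 := cb_step_nonneg hk m le_rfl
  rw [add_zero] at h0
  have ht := tot_true_pos hk m
  rw [h, ← ENNReal.ofReal_one, ← ENNReal.ofReal_add h0 zero_le_one, q_true hk]
  refine ENNReal.ofReal_le_ofReal (le_of_eq ?_)
  field_simp
  ring

lemma cb_h2 (a : ℤ → ℝ) :
    ∫⁻ _u : unitInterval, ENNReal.ofReal (sg a) ≤ ENNReal.ofReal (sg a) := by
  rw [lintegral_const, measure_univ, mul_one]

theorem ne_true (hk : IsKernel a) : (vc a true).NE :=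
  Chain.ne_of_super (vc a true) (A := fun m => 2 * hh m) (B := fun _ => sg a)
    (fun x => by have := hh_nonneg x; positivity) (fun _ => cb_sg_nonneg hk)
    (fun m => cb_h1 hk m) (fun m => cb_h2 a)

lemma cb_card (m : St) : lin false (fun _ => 1) m = m.card := by
  simp [lin, ys, bs]

lemma cb_gn_card (hk : IsKernel a) (m : St) :
    gn a false (fun m => 2 * Lam a * m.card + 1) m = 0 := by
  have h := vb2_gn_one hk false m
  simp only [vb2_bd_false, mul_zero, tsum_zero] at h
  unfold gn at h ⊢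
  have h2 : ∀ j : ℤ, rt a false m j * (2 * Lam a * ((fl m j).card : ℝ) + 1 -
      (2 * Lam a * (m.card : ℝ) + 1)) =
      2 * Lam a * (rt a false m j * (lin false (fun _ => 1) (fl m j) -
        lin false (fun _ => 1) m)) := fun j => by
    rw [cb_card, cb_card]; ring
  simp only [h2]
  rw [tsum_mul_left, h, mul_zero]

lemma cb_f1 (hk : IsKernel a) (m : St) :
    (∫⁻ _u : unitInterval, ENNReal.ofReal 0) + 1 ≤
      ENNReal.ofReal (0 + (2 * Lam a * m.card + 1) / (vc a false).q m) := by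
  have hL := Lam_nonneg hk
  rw [ENNReal.ofReal_zero, lintegral_zero, zero_add, zero_add, ← ENNReal.ofReal_one]
  refine ENNReal.ofReal_le_ofReal ?_
  rw [le_div_iff₀ ((vc a false).qpos m), one_mul]
  rcases eq_or_ne m ∅ with rfl | hm
  · rw [q_empty]
    simp
  · rw [q_false hk hm]
    have := tot_false_le hk m
    linarith

lemma cb_f2 (hk : IsKernel a) (m : St) :
    ∫⁻ u, ENNReal.ofReal (2 * Lam a * (((vc a false).Φ m u).card : ℝ) + 1) ≤
      ENNReal.ofReal (2 * Lam a * (m.card : ℝ) + 1) := by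
  have hL := Lam_nonneg hk
  rcases eq_or_ne m ∅ with rfl | hm
  · simp only [Φ_empty]
    rw [lintegral_const, measure_univ, mul_one]
  · obtain ⟨c, hc, hc2⟩ := tot_false_ge hk
    have ht : 0 < tot a false m := hc.trans_le (hc2 m hm)
    have hsum := summable_rt_of_growth hk false m (f := fun m => 2 * Lam a * (m.card : ℝ) + 1)
      (K := 2 * Lam a + 1) (fun x => by
        rw [abs_of_nonneg (by positivity)]
        have : (0 : ℝ) ≤ x.card := Nat.cast_nonneg _
        nlinarith)
    have h := lintegral_ofReal_Φ hk ht (f := fun m => 2 * Lam a * (m.card : ℝ) + 1)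
      (fun x => by positivity) (hsum.congr fun j => by rw [abs_of_nonneg (by positivity)])
    rw [cb_gn_card hk m, zero_div, add_zero] at h
    exact h.le

theorem ne_false (hk : IsKernel a) : (vc a false).NE := by
  have hL := Lam_nonneg hk
  exact Chain.ne_of_super (vc a false) (A := fun _ => 0) (B := fun m => 2 * Lam a * m.card + 1)
    (fun _ => le_rfl) (fun _ => by positivity) (fun m => cb_f1 hk m) (fun m => cb_f2 hk m)

theorem tsum_count_le (hk : IsKernel a) (m : St) {t : ℝ} (ht : 0 ≤ t) :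
    ∑' k, Pr {ω | (vc a true).T (k + 1) m ω ≤ t} ≤ ENNReal.ofReal (2 * hh m + t * sg a) :=
  ENNReal.tsum_le_of_sum_range_le fun k =>
    Chain.super_count (vc a true) (A := fun m => 2 * hh m) (B := fun _ => sg a)
      (fun x => by have := hh_nonneg x; positivity) (fun _ => cb_sg_nonneg hk)
      (fun m => cb_h1 hk m) (fun m => cb_h2 a) ht m k

theorem tsum_count_false_lt (hk : IsKernel a) (m : St) {t : ℝ} (ht : 0 ≤ t) :
    ∑' k, Pr {ω | (vc a false).T (k + 1) m ω ≤ t} ≠ ∞ := by
  have hL := Lam_nonneg hk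
  refine ne_top_of_le_ne_top ENNReal.ofReal_ne_top (ENNReal.tsum_le_of_sum_range_le fun k =>
    Chain.super_count (vc a false) (A := fun _ => 0) (B := fun m => 2 * Lam a * m.card + 1)
      (fun _ => le_rfl) (fun _ => by positivity) (fun m => cb_f1 hk m) (fun m => cb_f2 hk m)
      ht m k)

lemma cb_ne_top (hk : IsKernel a) (m : St) {t : ℝ} (ht : 0 ≤ t) :
    ∑' k, Pr {ω | (vc a true).T (k + 1) m ω ≤ t} ≠ ∞ :=
  ne_top_of_le_ne_top ENNReal.ofReal_ne_top (tsum_count_le hk m ht)

theorem integrable_count (hk : IsKernel a) (m : St) {t : ℝ} (ht : 0 ≤ t) :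
    Integrable (fun ω => ((vc a true).N t m ω : ℝ)) Pr :=
  Chain.integrable_N (vc a true) (ne_true hk) ht m (cb_ne_top hk m ht)

theorem count_le (hk : IsKernel a) (m : St) {t : ℝ} (ht : 0 ≤ t) :
    ∫ ω, ((vc a true).N t m ω : ℝ) ∂Pr ≤ 2 * hh m + t * sg a := by
  have h0 : 0 ≤ 2 * hh m + t * sg a := by
    have := hh_nonneg m
    have := cb_sg_nonneg hk
    positivity
  rw [integral_eq_lintegral_of_nonneg_ae (Eventually.of_forall fun ω => Nat.cast_nonneg _)
    (integrable_count hk m ht).aestronglyMeasurable]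
  refine ENNReal.toReal_le_of_le_ofReal h0 ?_
  simp only [ENNReal.ofReal_natCast]
  rw [Chain.lintegral_N (vc a true) (ne_true hk) ht m]
  exact tsum_count_le hk m ht

/-- supersolution bound for `2 hh + N` -/
lemma cb_super (hk : IsKernel a) (m : St) {t : ℝ} (ht : 0 ≤ t) :
    ∫⁻ ω, ENNReal.ofReal (2 * hh ((vc a true).X t m ω) + ((vc a true).N t m ω : ℝ)) ∂Pr ≤
      ENNReal.ofReal (2 * hh m + t * sg a) := by
  have h := Chain.super (vc a true) (ne_true hk) (A := fun m n => 2 * hh m + (n : ℝ))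
    (B := fun _ => sg a) (g := fun _ => 0) (D := 0)
    (fun x n => by have := hh_nonneg x; positivity) (fun _ => cb_sg_nonneg hk) le_rfl
    (fun _ => le_rfl) (fun x n => ?_) (fun x => ?_) ht m 0
  · refine (le_self_add.trans h).trans' ?_ |>.trans ?_
    · refine lintegral_mono fun ω => ENNReal.ofReal_le_ofReal ?_
      push_cast
      linarith
    · refine ENNReal.ofReal_le_ofReal (le_of_eq ?_)
      push_cast
      ring
  · have hn : (0 : ℝ) ≤ ((n + 1 : ℕ) : ℝ) := Nat.cast_nonneg _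
    have h1 := cb_step hk x hn
    rw [h1, zero_div, ENNReal.ofReal_zero, add_zero, q_true hk]
    refine ENNReal.ofReal_le_ofReal (le_of_eq ?_)
    have htx := tot_true_pos hk x
    push_cast
    field_simp
    ring
  · rw [mul_zero, zero_div, add_zero]
    exact cb_h2 a

lemma cb_integrable (hk : IsKernel a) (m : St) {t : ℝ} (ht : 0 ≤ t) :
    Integrable (fun ω => 2 * hh ((vc a true).X t m ω) + ((vc a true).N t m ω : ℝ)) Pr := by
  have hm : Measurable fun ω => 2 * hh ((vc a true).X t m ω) + ((vc a true).N t m ω : ℝ) := by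
    have h1 : Measurable fun p : St × ℕ => 2 * hh p.1 + (p.2 : ℝ) := measurable_of_countable _
    exact h1.comp (((vc a true).measurable_Xx t m).prodMk ((vc a true).measurable_Nx t m))
  refine ⟨hm.aestronglyMeasurable, ?_⟩
  rw [hasFiniteIntegral_iff_enorm]
  have h1 : ∀ ω, ‖2 * hh ((vc a true).X t m ω) + ((vc a true).N t m ω : ℝ)‖ₑ =
      ENNReal.ofReal (2 * hh ((vc a true).X t m ω) + ((vc a true).N t m ω : ℝ)) := by
    intro ω
    have := hh_nonneg ((vc a true).X t m ω)
    rw [Real.enorm_of_nonneg (by positivity)]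
  simp_rw [h1]
  exact (cb_super hk m ht).trans_lt ENNReal.ofReal_lt_top

theorem integrable_hh (hk : IsKernel a) (m : St) {t : ℝ} (ht : 0 ≤ t) :
    Integrable (fun ω => hh ((vc a true).X t m ω)) Pr := by
  have h := ((cb_integrable hk m ht).sub (integrable_count hk m ht)).const_mul (1 / 2)
  refine h.congr (Eventually.of_forall fun ω => ?_)
  simp only [Pi.sub_apply]
  ring

theorem hh_add_count (hk : IsKernel a) (m : St) {t : ℝ} (ht : 0 ≤ t) :
    (∫ ω, hh ((vc a true).X t m ω) ∂Pr) + (∫ ω, ((vc a true).N t m ω : ℝ) ∂Pr) / 2 ≤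
      hh m + t * sg a / 2 := by
  have h0 : 0 ≤ 2 * hh m + t * sg a := by
    have := hh_nonneg m
    have := cb_sg_nonneg hk
    positivity
  have h1 : ∫ ω, (2 * hh ((vc a true).X t m ω) + ((vc a true).N t m ω : ℝ)) ∂Pr ≤
      2 * hh m + t * sg a := by
    rw [integral_eq_lintegral_of_nonneg_ae (Eventually.of_forall fun ω => ?_)
      (cb_integrable hk m ht).aestronglyMeasurable]
    · exact ENNReal.toReal_le_of_le_ofReal h0 (cb_super hk m ht)
    · have := hh_nonneg ((vc a true).X t m ω)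
      show (0 : ℝ) ≤ 2 * hh ((vc a true).X t m ω) + ((vc a true).N t m ω : ℝ)
      positivity
  rw [integral_add ((integrable_hh hk m ht).const_mul 2) (integrable_count hk m ht),
    integral_const_mul] at h1
  linarith

theorem tot_integral_le (hk : IsKernel a) (m : St) {t : ℝ} (ht : 0 ≤ t) :
    ∫⁻ s in Set.Ioc 0 t, ∫⁻ ω, ENNReal.ofReal (tot a true ((vc a true).X s m ω)) ∂Pr ≤
      ENNReal.ofReal (2 * hh m + t * sg a) := by
  have h := Chain.super (vc a true) (ne_true hk) (A := fun m _ => 2 * hh m)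
    (B := fun _ => sg a) (g := fun m => tot a true m) (D := 0)
    (fun x n => by have := hh_nonneg x; positivity) (fun _ => cb_sg_nonneg hk) le_rfl
    (fun m => (tot_true_pos hk m).le) (fun x n => ?_) (fun x => ?_) ht m 0
  · refine le_add_self.trans (h.trans ?_)
    refine ENNReal.ofReal_le_ofReal (le_of_eq ?_)
    ring
  · have h1 := cb_h1 hk x
    rw [q_true hk] at h1 ⊢
    rw [div_self (tot_true_pos hk x).ne', ENNReal.ofReal_one]
    exact h1
  · rw [mul_zero, zero_div, add_zero]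
    exact cb_h2 a

lemma cb_N_mono {m : St} (hk : IsKernel a) {s t : ℝ} (hs : 0 ≤ s) (hst : s ≤ t) :
    ∀ᵐ ω ∂Pr, ((vc a true).N s m ω : ℝ) ≤ ((vc a true).N t m ω : ℝ) := by
  filter_upwards [(vc a true).ae_finite (ne_true hk) m] with ω hω
  obtain ⟨h1, h2⟩ := ((vc a true).N_eq_iff (n := (vc a true).N t m ω) (hs.trans hst) (hω t)).1 rfl
  have := (vc a true).N_le (lt_of_le_of_lt hst h2)
  exact_mod_cast this

/-- a good time in `((1 - κ) t, t]` -/
lemma cb_good (hk : IsKernel a) {κ : ℝ} (hκ : 0 < κ) (hκ1 : κ ≤ 1) {t : ℝ} (ht : 0 < t) :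
    ∃ s, (1 - κ) * t ≤ s ∧ s ≤ t ∧
      ∫⁻ ω, ENNReal.ofReal (tot a true ((vc a true).X s ∅ ω)) ∂Pr ≤
        ENNReal.ofReal (sg a / κ) := by
  by_contra hcon
  push Not at hcon
  have hsg := cb_sg_nonneg hk
  have h1 := tot_integral_le hk ∅ ht.le
  rw [hh_empty, mul_zero, zero_add] at h1
  have hκt : 0 < κ * t := mul_pos hκ ht
  have h0 : 0 ≤ (1 - κ) * t := mul_nonneg (by linarith) ht.le
  -- strict version
  have h2 : ∫⁻ s in Set.Ioc ((1 - κ) * t) t, ENNReal.ofReal (sg a / κ) <
      ∫⁻ s in Set.Ioc ((1 - κ) * t) t,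
        ∫⁻ ω, ENNReal.ofReal (tot a true ((vc a true).X s ∅ ω)) ∂Pr := by
    refine setLIntegral_strict_mono measurableSet_Ioc ?_ ?_ ?_ ?_
    · rw [Real.volume_Ioc]
      simp only [ne_eq, ENNReal.ofReal_eq_zero, not_le]
      nlinarith
    · have hmg : Measurable fun p : ℝ × Om =>
          ENNReal.ofReal (tot a true ((vc a true).X p.1 ∅ p.2)) := by
        have h3 : Measurable fun m : St => tot a true m := measurable_of_countable _
        have h4 : Measurable fun p : ℝ × Om => (vc a true).X p.1 ∅ p.2 :=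
          (vc a true).measurable_X.comp
            (measurable_fst.prodMk (measurable_const.prodMk measurable_snd))
        exact (h3.comp h4).ennreal_ofReal
      exact hmg.lintegral_prod_right'
    · rw [setLIntegral_const, Real.volume_Ioc, ← ENNReal.ofReal_mul (by positivity)]
      exact ENNReal.ofReal_ne_top
    · exact Eventually.of_forall fun s hs => hcon s hs.1.le hs.2
  have h3 : ∫⁻ s in Set.Ioc ((1 - κ) * t) t,
        ∫⁻ ω, ENNReal.ofReal (tot a true ((vc a true).X s ∅ ω)) ∂Pr ≤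
      ∫⁻ s in Set.Ioc 0 t, ∫⁻ ω, ENNReal.ofReal (tot a true ((vc a true).X s ∅ ω)) ∂Pr :=
    lintegral_mono_set (Set.Ioc_subset_Ioc_left h0)
  have h4 := (h2.trans_le h3).trans_le h1
  rw [setLIntegral_const, Real.volume_Ioc, ← ENNReal.ofReal_mul (by positivity)] at h4
  have h5 : sg a / κ * (t - (1 - κ) * t) = t * sg a := by
    field_simp
    ring
  rw [h5] at h4
  exact lt_irrefl _ h4

lemma cb_lower (hk : IsKernel a) {δ κ : ℝ} (hδ : 0 < δ) (hδ2 : δ ≤ 2 * sg a) (hκ : 0 < κ)
    (hκ1 : κ ≤ 1) :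
    ∃ K : ℝ, ∀ t : ℝ, 0 < t →
      (2 * sg a - δ) * (1 - κ) * t ≤ K + (2 + δ) * ∫ ω, ((vc a true).N t ∅ ω : ℝ) ∂Pr := by
  obtain ⟨W, K, hK, hW0, hWK, hWg⟩ := tent hk hδ
  obtain ⟨C, hC, hnI⟩ := nI_one_le hk
  have hsg := cb_sg_nonneg hk
  refine ⟨K * (C * (sg a / κ)), fun t ht => ?_⟩
  obtain ⟨s, hs1, hs2, hs3⟩ := cb_good hk hκ hκ1 ht
  have hs0 : 0 ≤ s := (mul_nonneg (by linarith) ht.le).trans hs1
  have hWc : ∀ m : St, |W m| ≤ 2 * K * (1 + m.card) := by
    intro m
    rw [abs_of_nonneg (hW0 m)]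
    refine (hWK m).trans ?_
    have h1 : (nI true 1 m : ℝ) ≤ 1 + 2 * m.card := by
      have := nI_le_true 1 m
      have h2 : (nI true 1 m : ℝ) ≤ ((1 : ℤ).natAbs + 2 * m.card : ℕ) := by exact_mod_cast this
      push_cast at h2
      simpa using h2
    have h3 : K * (nI true 1 m : ℝ) ≤ K * (1 + 2 * m.card) := mul_le_mul_of_nonneg_left h1 hK.le
    nlinarith
  have htot : ∀ m, 0 < tot a true m := tot_true_pos hk
  -- Dynkin
  have hdyn := Chain.sub (vc a true) (ne_true hk) (L := fun m => (m.card : ℝ))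
    (fun _ => Nat.cast_nonneg _)
    (fun x u => by exact_mod_cast card_Φ_le (a := a) true x u) (t₀ := s)
    (K := 2 * K + (2 + δ) + (2 * sg a - δ) * s) hs0
    (W := fun t m n => W m + (2 + δ) * n + (2 * sg a - δ) * t)
    (W' := fun _ _ _ => 2 * sg a - δ) ?_ ?_ ?_ ?_ ∅ (cb_ne_top hk ∅ hs0) 0
  · simp only [Nat.cast_zero, mul_zero, add_zero] at hdyn
    have hintW : Integrable (fun ω => W ((vc a true).X s ∅ ω)) Pr := by
      have := Chain.integrable_of_growth (vc a true) (ne_true hk) (L := fun m => (m.card : ℝ))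
        (fun _ => Nat.cast_nonneg _)
        (fun x u => by exact_mod_cast card_Φ_le (a := a) true x u) (K := 2 * K)
        (f := fun m _ => W m) (fun x n => (hWc x).trans (by
          have : (0 : ℝ) ≤ n := Nat.cast_nonneg _
          nlinarith)) hs0 ∅ (cb_ne_top hk ∅ hs0) 0
      exact this
    have hWX : ∫ ω, W ((vc a true).X s ∅ ω) ∂Pr ≤ K * (C * (sg a / κ)) := by
      rw [integral_eq_lintegral_of_nonneg_ae (Eventually.of_forall fun ω => hW0 _)
        hintW.aestronglyMeasurable]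
      refine ENNReal.toReal_le_of_le_ofReal (by positivity) ?_
      calc ∫⁻ ω, ENNReal.ofReal (W ((vc a true).X s ∅ ω)) ∂Pr
          ≤ ∫⁻ ω, ENNReal.ofReal (K * C) *
              ENNReal.ofReal (tot a true ((vc a true).X s ∅ ω)) ∂Pr := by
            refine lintegral_mono fun ω => ?_
            rw [← ENNReal.ofReal_mul (by positivity)]
            refine ENNReal.ofReal_le_ofReal ((hWK _).trans ?_)
            rw [mul_assoc]
            exact mul_le_mul_of_nonneg_left (hnI _) hK.le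
        _ = ENNReal.ofReal (K * C) *
            ∫⁻ ω, ENNReal.ofReal (tot a true ((vc a true).X s ∅ ω)) ∂Pr := by
            refine lintegral_const_mul _ ?_
            have h3 : Measurable fun m : St => ENNReal.ofReal (tot a true m) :=
              measurable_of_countable _
            exact h3.comp ((vc a true).measurable_Xx s ∅)
        _ ≤ ENNReal.ofReal (K * C) * ENNReal.ofReal (sg a / κ) := by gcongr
        _ = ENNReal.ofReal (K * (C * (sg a / κ))) := by
            rw [← ENNReal.ofReal_mul (by positivity)]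
            congr 1
            ring
    have hNs := integral_mono_ae (integrable_count hk ∅ hs0) (integrable_count hk ∅ ht.le)
      (cb_N_mono (m := ∅) hk hs0 hs2)
    have hsplit : ∫ ω, (W ((vc a true).X s ∅ ω) +
        (2 + δ) * (((0 + (vc a true).N s ∅ ω : ℕ)) : ℝ)) ∂Pr =
        (∫ ω, W ((vc a true).X s ∅ ω) ∂Pr) + (2 + δ) * ∫ ω, ((vc a true).N s ∅ ω : ℝ) ∂Pr := by
      simp only [zero_add]
      rw [integral_add hintW ((integrable_count hk ∅ hs0).const_mul _), integral_const_mul]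
    rw [hsplit] at hdyn
    have h1 : (2 * sg a - δ) * ((1 - κ) * t) ≤ (2 * sg a - δ) * s :=
      mul_le_mul_of_nonneg_left hs1 (by linarith)
    have h2 := hW0 ∅
    have h3 : (2 + δ) * ∫ ω, ((vc a true).N s ∅ ω : ℝ) ∂Pr ≤
        (2 + δ) * ∫ ω, ((vc a true).N t ∅ ω : ℝ) ∂Pr :=
      mul_le_mul_of_nonneg_left hNs (by positivity)
    rw [mul_assoc]
    linarith
  · intro r hr x n
    have h1 := hWc x
    have h2 := hW0 x
    rw [abs_of_nonneg h2] at h1
    have hn : (0 : ℝ) ≤ n := Nat.cast_nonneg _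
    have hx : (0 : ℝ) ≤ x.card := Nat.cast_nonneg _
    have h4 : (2 * sg a - δ) * r ≤ (2 * sg a - δ) * s :=
      mul_le_mul_of_nonneg_left hr.2 (by linarith)
    have h5 : 0 ≤ (2 * sg a - δ) * r := mul_nonneg (by linarith) hr.1
    have h6 : 0 ≤ (2 * sg a - δ) * s := h5.trans h4
    rw [abs_of_nonneg (by positivity)]
    have h7 : 0 ≤ (2 * sg a - δ) * s * (x.card + n) := mul_nonneg h6 (by positivity)
    nlinarith [mul_nonneg hK.le hn, mul_nonneg hδ.le hx]
  · intro r x n
    have h1 : HasDerivAt (fun r : ℝ => (2 * sg a - δ) * r) (2 * sg a - δ) r := by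
      simpa using (hasDerivAt_id r).const_mul (2 * sg a - δ)
    exact h1.const_add (W x + (2 + δ) * n)
  · intro x n
    exact continuous_const
  · intro r hr x n
    rw [q_true hk]
    have hsW : Summable fun j : ℤ => rt a true x j * |W (fl x j)| :=
      summable_rt_of_growth hk true x hWc
    obtain ⟨hi, -⟩ := integral_Φ hk (htot x) hsW
    have h1 := tot_mul_integral hk (htot x) hsW
    have h2 := hWg x
    have h3 : ∫ u, (W ((vc a true).Φ x u) + (2 + δ) * ((n + 1 : ℕ) : ℝ) + (2 * sg a - δ) * r -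
        (W x + (2 + δ) * n + (2 * sg a - δ) * r)) =
        (∫ u, W ((vc a true).Φ x u)) + ((2 + δ) - W x) := by
      have h4 : ∀ u, W ((vc a true).Φ x u) + (2 + δ) * ((n + 1 : ℕ) : ℝ) + (2 * sg a - δ) * r -
        (W x + (2 + δ) * n + (2 * sg a - δ) * r) =
        W ((vc a true).Φ x u) + ((2 + δ) - W x) := by
        intro u
        push_cast
        ring
      simp only [h4]
      rw [integral_add hi (integrable_const _), integral_const]
      simp
    rw [h3]
    have h4 : tot a true x * ((∫ u, W ((vc a true).Φ x u)) + ((2 + δ) - W x)) =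
        tot a true x * ((∫ u, W ((vc a true).Φ x u)) - W x) + (2 + δ) * tot a true x := by ring
    rw [h4, h1]
    linarith

theorem tendsto_EN (hk : IsKernel a) :
    Tendsto (fun t : ℝ => (∫ ω, ((vc a true).N t ∅ ω : ℝ) ∂Pr) / t) atTop (𝓝 (sg a)) := by
  have hsg := cb_sg_nonneg hk
  rw [tendsto_order]
  constructor
  · intro b hb
    -- choose `δ` and `κ`
    rcases lt_or_ge b 0 with hb0 | hb0
    · filter_upwards [eventually_gt_atTop 0] with t ht
      exact hb0.trans_le (div_nonneg (integral_nonneg fun ω => Nat.cast_nonneg _) ht.le)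
    have hs0 : 0 < sg a := lt_of_le_of_lt hb0 hb
    have hlim : Tendsto (fun x : ℝ => (2 * sg a - x) * (1 - x) / (2 + x)) (𝓝[>] 0)
        (𝓝 ((2 * sg a - 0) * (1 - 0) / (2 + 0))) := by
      refine tendsto_nhdsWithin_of_tendsto_nhds ?_
      refine ContinuousAt.tendsto (f := fun x : ℝ => (2 * sg a - x) * (1 - x) / (2 + x)) ?_
      refine ContinuousAt.div (by fun_prop) (by fun_prop) (by norm_num)
    have hval : (2 * sg a - 0) * (1 - 0) / (2 + 0) = sg a := by
      ring
    rw [hval] at hlim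
    have hev := (hlim.eventually (lt_mem_nhds hb)).and
      ((eventually_mem_nhdsWithin (a := (0 : ℝ)) (s := Set.Ioi 0)).and
        (tendsto_nhdsWithin_of_tendsto_nhds (s := Set.Ioi (0 : ℝ)) tendsto_id |>.eventually
          ((gt_mem_nhds (show (0 : ℝ) < 2 * sg a by positivity)).and
            (gt_mem_nhds (show (0 : ℝ) < 1 by norm_num)))))
    obtain ⟨δ, hδb, hδ, hδ2, hδ1⟩ := hev.exists
    have hδ : 0 < δ := hδ
    have hδ2 : δ < 2 * sg a := hδ2
    have hδ1 : δ < 1 := hδ1
    obtain ⟨K, hK⟩ := cb_lower hk hδ hδ2.le hδ hδ1.le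
    have hlim2 : Tendsto (fun t : ℝ => (2 * sg a - δ) * (1 - δ) / (2 + δ) - K / (2 + δ) / t) atTop
        (𝓝 ((2 * sg a - δ) * (1 - δ) / (2 + δ) - 0)) :=
      tendsto_const_nhds.sub (tendsto_const_nhds.div_atTop tendsto_id)
    rw [sub_zero] at hlim2
    filter_upwards [hlim2.eventually (lt_mem_nhds hδb), eventually_gt_atTop 0] with t h1 ht
    refine h1.trans_le ?_
    rw [le_div_iff₀ ht]
    have h2 := hK t ht
    have h3 : ((2 * sg a - δ) * (1 - δ) / (2 + δ) - K / (2 + δ) / t) * t =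
        ((2 * sg a - δ) * (1 - δ) * t - K) / (2 + δ) := by
      field_simp
    rw [h3, div_le_iff₀ (by positivity)]
    linarith
  · intro b hb
    filter_upwards [eventually_gt_atTop 0] with t ht
    refine lt_of_le_of_lt ?_ hb
    rw [div_le_iff₀ ht]
    have := count_le hk ∅ ht.le
    rw [hh_empty, mul_zero, zero_add] at this
    linarith

theorem tendsto_Ehh (hk : IsKernel a) :
    Tendsto (fun t : ℝ => (∫ ω, hh ((vc a true).X t ∅ ω) ∂Pr) / t) atTop (𝓝 0) := by
  have h1 := tendsto_EN hk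
  have h2 : Tendsto (fun t : ℝ => sg a / 2 -
      ((∫ ω, ((vc a true).N t ∅ ω : ℝ) ∂Pr) / t) / 2) atTop (𝓝 (sg a / 2 - sg a / 2)) :=
    tendsto_const_nhds.sub (h1.div_const 2)
  rw [sub_self] at h2
  refine tendsto_of_tendsto_of_tendsto_of_le_of_le' tendsto_const_nhds h2 ?_ ?_
  · filter_upwards [eventually_gt_atTop 0] with t ht
    exact div_nonneg (integral_nonneg fun ω => hh_nonneg _) ht.le
  · filter_upwards [eventually_gt_atTop 0] with t ht
    have h3 := hh_add_count hk ∅ ht.le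
    rw [hh_empty] at h3
    rw [div_le_iff₀ ht]
    have h4 : (sg a / 2 - (∫ ω, ((vc a true).N t ∅ ω : ℝ) ∂Pr) / t / 2) * t =
        t * sg a / 2 - (∫ ω, ((vc a true).N t ∅ ω : ℝ) ∂Pr) / 2 := by
      field_simp
    rw [h4]
    linarith

theorem tendsto_ED (hk : IsKernel a) :
    Tendsto (fun t : ℝ => (∫ ω, (no true ((vc a true).X t ∅ ω)
      ((cc ((vc a true).X t ∅ ω) : ℝ) - 1) : ℝ) ∂Pr) / √t) atTop (𝓝 0) := by
  have h1 := (tendsto_Ehh hk).sqrt
  rw [Real.sqrt_zero] at h1
  refine tendsto_of_tendsto_of_tendsto_of_le_of_le' tendsto_const_nhds h1 ?_ ?_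
  · filter_upwards [eventually_gt_atTop 0] with t ht
    exact div_nonneg (integral_nonneg fun ω => Nat.cast_nonneg _) (Real.sqrt_nonneg _)
  · filter_upwards [eventually_gt_atTop 0] with t ht
    set D : Om → ℝ := fun ω => (no true ((vc a true).X t ∅ ω)
      ((cc ((vc a true).X t ∅ ω) : ℝ) - 1) : ℝ) with hD
    have hDm : Measurable D := by
      have h3 : Measurable fun m : St => (no true m ((cc m : ℝ) - 1) : ℝ) :=
        measurable_of_countable _
      exact h3.comp ((vc a true).measurable_Xx t ∅)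
    have hD0 : ∀ ω, 0 ≤ D ω := fun ω => Nat.cast_nonneg _
    have hD2 : ∀ ω, D ω ^ 2 ≤ hh ((vc a true).X t ∅ ω) := fun ω => sq_no_le _
    have hi := integrable_hh hk ∅ ht.le
    have hiD2 : Integrable (fun ω => D ω ^ 2) Pr :=
      hi.mono' (hDm.pow_const 2).aestronglyMeasurable (Eventually.of_forall fun ω => by
        rw [Real.norm_eq_abs, abs_of_nonneg (sq_nonneg _)]
        exact hD2 ω)
    have hiD : Integrable D Pr := by
      refine ((integrable_const (1 : ℝ)).add hiD2).mono' hDm.aestronglyMeasurable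
        (Eventually.of_forall fun ω => ?_)
      rw [Real.norm_eq_abs, abs_of_nonneg (hD0 ω)]
      simp only [Pi.add_apply]
      nlinarith [sq_nonneg (D ω - 1)]
    have h4 : (∫ ω, D ω ∂Pr) ^ 2 ≤ ∫ ω, D ω ^ 2 ∂Pr := by
      set μ := ∫ ω, D ω ∂Pr with hμ
      have h5 : 0 ≤ ∫ ω, (D ω - μ) ^ 2 ∂Pr := integral_nonneg fun ω => sq_nonneg _
      have h6 : ∀ ω, (D ω - μ) ^ 2 = D ω ^ 2 - (2 * μ * D ω - μ ^ 2) := fun ω => by ring
      simp only [h6] at h5
      have h7 : Integrable (fun ω => 2 * μ * D ω) Pr := hiD.const_mul _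
      have h8 : Integrable (fun ω => 2 * μ * D ω - μ ^ 2) Pr := h7.sub (integrable_const _)
      rw [integral_sub hiD2 h8, integral_sub h7 (integrable_const _),
        integral_const_mul, integral_const] at h5
      simp only [probReal_univ, smul_eq_mul, one_mul] at h5
      rw [← hμ] at h5
      nlinarith
    have h5 : ∫ ω, D ω ^ 2 ∂Pr ≤ ∫ ω, hh ((vc a true).X t ∅ ω) ∂Pr :=
      integral_mono hiD2 hi hD2
    have h6 : ∫ ω, D ω ∂Pr ≤ √(∫ ω, hh ((vc a true).X t ∅ ω) ∂Pr) :=
      Real.le_sqrt_of_sq_le (h4.trans h5)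
    rw [Real.sqrt_div' _ ht.le]
    exact div_le_div_of_nonneg_right h6 (Real.sqrt_nonneg _)

end H40.VM
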