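import Pool.Agent.H40.VM.VC0

/-!
# Module TL: the tail condition

`tm a d = ∑_{n ≥ d} n a(-n)`, `al a d = ∑_n a(-n) max(n - d, 0)`.
* `c3_of_tail`: `c3 a z = ∑_n a(-n) n min(n,z)³ ≤ ∑_{1 ≤ m ≤ z+1} 3 m² tm a m` and Cesàro.
* `tail_of_third`: `d² tm a d ≤ ∑_{n ≥ d} n³ a(-n)`.
* `al_of_not_tail`: `tm a d ≤ 2 al a ⌊d/2⌋` (for `n ≥ d`, `n ≤ 2 (n - d/2)`).
-/

open MeasureTheory ProbabilityTheory Filter Topology
open scoped ENNReal NNReal unitInterval symmDiff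

namespace H40.VM

open H40.Voter (IsKernel)

variable {a : ℤ → ℝ}

noncomputable def tm (a : ℤ → ℝ) (d : ℕ) : ℝ := ∑' n : ℕ, if d ≤ n then (n : ℝ) * a (-(n : ℤ)) else 0

noncomputable def al (a : ℤ → ℝ) (d : ℝ) : ℝ := ∑' n : ℕ, a (-(n : ℤ)) * max ((n : ℝ) - d) 0

lemma TL_inj : Function.Injective (fun n : ℕ => -(n : ℤ)) := by
  intro m n h
  have : (m : ℤ) = n := neg_injective h
  exact_mod_cast this

lemma TL_s0 (hk : IsKernel a) : Summable fun n : ℕ => a (-(n : ℤ)) :=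
  hk.summable.comp_injective TL_inj

lemma TL_s2 (hk : IsKernel a) : Summable fun n : ℕ => (n : ℝ) ^ 2 * a (-(n : ℤ)) := by
  have h := hk.second_moment.comp_injective TL_inj
  refine h.congr fun n => ?_
  simp only [Function.comp_apply, Int.cast_neg, Int.cast_natCast]
  ring

lemma TL_s1 (hk : IsKernel a) : Summable fun n : ℕ => (n : ℝ) * a (-(n : ℤ)) := by
  refine Summable.of_nonneg_of_le (fun n => mul_nonneg n.cast_nonneg (hk.nonneg _)) (fun n => ?_)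
    (TL_s2 hk)
  apply mul_le_mul_of_nonneg_right _ (hk.nonneg _)
  have : n ≤ n ^ 2 := Nat.le_self_pow (by norm_num) n
  exact_mod_cast this

lemma TL_st (hk : IsKernel a) (d : ℕ) :
    Summable fun n : ℕ => if d ≤ n then (n : ℝ) * a (-(n : ℤ)) else 0 := by
  refine Summable.of_nonneg_of_le (fun n => ?_) (fun n => ?_) (TL_s1 hk)
  · split_ifs
    · exact mul_nonneg n.cast_nonneg (hk.nonneg _)
    · exact le_rfl
  · split_ifs
    · exact le_rfl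
    · exact mul_nonneg n.cast_nonneg (hk.nonneg _)

lemma TL_tm_nonneg (hk : IsKernel a) (d : ℕ) : 0 ≤ tm a d := by
  refine tsum_nonneg fun n => ?_
  split_ifs
  · exact mul_nonneg n.cast_nonneg (hk.nonneg _)
  · exact le_rfl

lemma TL_cube (K : ℕ) : (K : ℝ) ^ 3 ≤ ∑ m ∈ Finset.range (K + 1), 3 * (m : ℝ) ^ 2 := by
  induction K with
  | zero => simp
  | succ K ih =>
    rw [Finset.sum_range_succ]
    push_cast
    have : (0 : ℝ) ≤ K := K.cast_nonneg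
    nlinarith

lemma TL_min (n : ℕ) {z : ℝ} (hz : 0 ≤ z) : (min (n : ℝ) z) ^ 3 ≤
    ∑ m ∈ Finset.range (⌈z⌉₊ + 1), if m ≤ n then 3 * (m : ℝ) ^ 2 else 0 := by
  have h1 : min (n : ℝ) z ≤ ((min n ⌈z⌉₊ : ℕ) : ℝ) := by
    rw [Nat.cast_min]
    exact min_le_min le_rfl (Nat.le_ceil z)
  have h0 : 0 ≤ min (n : ℝ) z := le_min n.cast_nonneg hz
  calc (min (n : ℝ) z) ^ 3 ≤ ((min n ⌈z⌉₊ : ℕ) : ℝ) ^ 3 := pow_le_pow_left₀ h0 h1 3
    _ ≤ ∑ m ∈ Finset.range (min n ⌈z⌉₊ + 1), 3 * (m : ℝ) ^ 2 := TL_cube _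
    _ = ∑ m ∈ Finset.range (min n ⌈z⌉₊ + 1), if m ≤ n then 3 * (m : ℝ) ^ 2 else 0 := by
      apply Finset.sum_congr rfl
      intro m hm
      rw [Finset.mem_range] at hm
      rw [if_pos (by omega)]
    _ ≤ ∑ m ∈ Finset.range (⌈z⌉₊ + 1), if m ≤ n then 3 * (m : ℝ) ^ 2 else 0 := by
      apply Finset.sum_le_sum_of_subset_of_nonneg
      · intro m hm
        rw [Finset.mem_range] at hm ⊢
        omega
      · intro m _ _
        split_ifs
        · positivity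
        · exact le_rfl

lemma TL_c3_le (hk : IsKernel a) {z : ℝ} (hz : 0 ≤ z) :
    c3 a z ≤ ∑ m ∈ Finset.range (⌈z⌉₊ + 1), 3 * ((m : ℝ) ^ 2 * tm a m) := by
  have hsum : ∀ m ∈ Finset.range (⌈z⌉₊ + 1), Summable fun n : ℕ =>
      3 * ((m : ℝ) ^ 2 * (if m ≤ n then (n : ℝ) * a (-(n : ℤ)) else 0)) :=
    fun m _ => ((TL_st hk m).mul_left _).mul_left _
  have hterm : ∀ n : ℕ, a (-(n : ℤ)) * n * (min (n : ℝ) z) ^ 3 ≤
      ∑ m ∈ Finset.range (⌈z⌉₊ + 1),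
        3 * ((m : ℝ) ^ 2 * (if m ≤ n then (n : ℝ) * a (-(n : ℤ)) else 0)) := by
    intro n
    have h1 := mul_le_mul_of_nonneg_left (TL_min n hz)
      (mul_nonneg (hk.nonneg (-(n : ℤ))) n.cast_nonneg)
    refine h1.trans (le_of_eq ?_)
    rw [Finset.mul_sum]
    apply Finset.sum_congr rfl
    intro m _
    split_ifs
    · ring
    · ring
  have hs : Summable fun n : ℕ => ∑ m ∈ Finset.range (⌈z⌉₊ + 1),
      3 * ((m : ℝ) ^ 2 * (if m ≤ n then (n : ℝ) * a (-(n : ℤ)) else 0)) :=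
    summable_sum hsum
  have hs' : Summable fun n : ℕ => a (-(n : ℤ)) * n * (min (n : ℝ) z) ^ 3 := by
    refine Summable.of_nonneg_of_le (fun n => ?_) hterm hs
    have h0 : 0 ≤ min (n : ℝ) z := le_min n.cast_nonneg hz
    exact mul_nonneg (mul_nonneg (hk.nonneg _) n.cast_nonneg) (pow_nonneg h0 3)
  calc c3 a z ≤ ∑' n : ℕ, ∑ m ∈ Finset.range (⌈z⌉₊ + 1),
      3 * ((m : ℝ) ^ 2 * (if m ≤ n then (n : ℝ) * a (-(n : ℤ)) else 0)) :=
        hs'.tsum_le_tsum hterm hs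
    _ = ∑ m ∈ Finset.range (⌈z⌉₊ + 1), ∑' n : ℕ,
      3 * ((m : ℝ) ^ 2 * (if m ≤ n then (n : ℝ) * a (-(n : ℤ)) else 0)) :=
        Summable.tsum_finsetSum hsum
    _ = _ := by
      apply Finset.sum_congr rfl
      intro m _
      rw [tsum_mul_left, tsum_mul_left]
      rfl

lemma TL_c3_nonneg (hk : IsKernel a) {z : ℝ} (hz : 0 ≤ z) : 0 ≤ c3 a z := by
  refine tsum_nonneg fun n => ?_
  have h0 : 0 ≤ min (n : ℝ) z := le_min n.cast_nonneg hz
  exact mul_nonneg (mul_nonneg (hk.nonneg _) n.cast_nonneg) (pow_nonneg h0 3)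

theorem c3_of_tail (hk : IsKernel a) (h : Tendsto (fun d : ℕ => (d : ℝ) ^ 2 * tm a d) atTop (𝓝 0)) :
    Tendsto (fun z : ℝ => c3 a z / z) atTop (𝓝 0) := by
  have h3 : Tendsto (fun m : ℕ => 3 * ((m : ℝ) ^ 2 * tm a m)) atTop (𝓝 0) := by
    simpa using h.const_mul 3
  have hC := h3.cesaro
  have hZ : Tendsto (fun z : ℝ => ⌈z⌉₊ + 1) atTop atTop :=
    tendsto_atTop_mono (fun z => Nat.le_succ _) tendsto_nat_ceil_atTop
  have hC' := (hC.comp hZ).const_mul 3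
  rw [mul_zero] at hC'
  refine squeeze_zero' ?_ ?_ hC'
  · filter_upwards [eventually_ge_atTop (1 : ℝ)] with z hz
    exact div_nonneg (TL_c3_nonneg hk (by linarith)) (by linarith)
  · filter_upwards [eventually_ge_atTop (1 : ℝ)] with z hz
    have h0 : 0 ≤ z := by linarith
    have hle := TL_c3_le hk h0
    simp only [Function.comp_apply]
    set Z : ℕ := ⌈z⌉₊ + 1 with hZdef
    set Sm := ∑ m ∈ Finset.range Z, 3 * ((m : ℝ) ^ 2 * tm a m) with hS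
    have hS0 : 0 ≤ Sm := Finset.sum_nonneg fun m _ =>
      mul_nonneg (by norm_num) (mul_nonneg (by positivity) (TL_tm_nonneg hk m))
    have hZ3 : (Z : ℝ) ≤ 3 * z := by
      rw [hZdef]
      push_cast
      have := (Nat.ceil_lt_add_one h0).le
      linarith
    have hZpos : (0 : ℝ) < Z := by
      rw [hZdef]
      push_cast
      positivity
    have hinv : z⁻¹ ≤ 3 * (Z : ℝ)⁻¹ := by
      rw [inv_le_iff_one_le_mul₀ (by linarith : (0 : ℝ) < z)]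
      rw [mul_comm, ← mul_assoc, ← div_eq_mul_inv, le_div_iff₀ hZpos]
      linarith
    calc c3 a z / z = z⁻¹ * c3 a z := by rw [div_eq_inv_mul]
      _ ≤ z⁻¹ * Sm := mul_le_mul_of_nonneg_left hle (by positivity)
      _ ≤ 3 * (Z : ℝ)⁻¹ * Sm := mul_le_mul_of_nonneg_right hinv hS0
      _ = 3 * ((Z : ℝ)⁻¹ * Sm) := by ring

theorem tail_of_third (hk : IsKernel a)
    (h : Summable fun n : ℕ => (n : ℝ) ^ 3 * a (-(n : ℤ))) :
    Tendsto (fun d : ℕ => (d : ℝ) ^ 2 * tm a d) atTop (𝓝 0) := by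
  refine squeeze_zero (fun d => mul_nonneg (by positivity) (TL_tm_nonneg hk d)) (fun d => ?_)
    (tendsto_sum_nat_add fun n : ℕ => (n : ℝ) ^ 3 * a (-(n : ℤ)))
  have h1 : Summable fun n : ℕ => if d ≤ n then (n : ℝ) ^ 3 * a (-(n : ℤ)) else 0 := by
    refine Summable.of_nonneg_of_le (fun n => ?_) (fun n => ?_) h
    · split_ifs
      · exact mul_nonneg (by positivity) (hk.nonneg _)
      · exact le_rfl
    · split_ifs
      · exact le_rfl
      · exact mul_nonneg (by positivity) (hk.nonneg _)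
  have h2 := h1.sum_add_tsum_nat_add d
  have h3 : ∑ i ∈ Finset.range d, (if d ≤ i then (i : ℝ) ^ 3 * a (-(i : ℤ)) else 0) = 0 := by
    apply Finset.sum_eq_zero
    intro i hi
    rw [Finset.mem_range] at hi
    rw [if_neg (by omega)]
  rw [h3, zero_add] at h2
  have h4 : (fun i : ℕ => (if d ≤ i + d then ((i + d : ℕ) : ℝ) ^ 3 * a (-((i + d : ℕ) : ℤ)) else 0))
      = fun i : ℕ => ((i + d : ℕ) : ℝ) ^ 3 * a (-((i + d : ℕ) : ℤ)) := by
    funext i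
    rw [if_pos (by omega)]
  rw [h4] at h2
  rw [h2]
  unfold tm
  rw [← tsum_mul_left]
  refine Summable.tsum_le_tsum (fun n => ?_) ((TL_st hk d).mul_left _) h1
  split_ifs with hdn
  · have h5 : (d : ℝ) ^ 2 ≤ (n : ℝ) ^ 2 := by
      have : (d : ℝ) ≤ n := by exact_mod_cast hdn
      exact pow_le_pow_left₀ d.cast_nonneg this 2
    calc (d : ℝ) ^ 2 * ((n : ℝ) * a (-(n : ℤ))) ≤ (n : ℝ) ^ 2 * ((n : ℝ) * a (-(n : ℤ))) :=
          mul_le_mul_of_nonneg_right h5 (mul_nonneg n.cast_nonneg (hk.nonneg _))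
      _ = (n : ℝ) ^ 3 * a (-(n : ℤ)) := by ring
  · rw [mul_zero]

lemma TL_sal (hk : IsKernel a) (d : ℝ) :
    Summable fun n : ℕ => a (-(n : ℤ)) * max ((n : ℝ) - d) 0 := by
  refine Summable.of_nonneg_of_le (fun n => mul_nonneg (hk.nonneg _) (le_max_right _ _))
    (fun n => ?_) ((TL_s1 hk).add ((TL_s0 hk).mul_left |d|))
  have h1 : max ((n : ℝ) - d) 0 ≤ n + |d| := by
    apply max_le
    · have := neg_abs_le d
      linarith
    · positivity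
  calc a (-(n : ℤ)) * max ((n : ℝ) - d) 0 ≤ a (-(n : ℤ)) * (n + |d|) :=
        mul_le_mul_of_nonneg_left h1 (hk.nonneg _)
    _ = (n : ℝ) * a (-(n : ℤ)) + |d| * a (-(n : ℤ)) := by ring

lemma TL_tm_le_al (hk : IsKernel a) (d : ℕ) : tm a d ≤ 2 * al a ((d / 2 : ℕ) : ℝ) := by
  unfold tm al
  rw [← tsum_mul_left]
  refine Summable.tsum_le_tsum (fun n => ?_) (TL_st hk d) ((TL_sal hk _).mul_left _)
  split_ifs with hdn
  · have h1 : ((d / 2 : ℕ) : ℝ) ≤ (n : ℝ) / 2 := by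
      have h2 : 2 * (d / 2) ≤ n := by omega
      have h3 : (2 : ℝ) * ((d / 2 : ℕ) : ℝ) ≤ n := by exact_mod_cast h2
      linarith
    have h2 : (n : ℝ) ≤ 2 * max ((n : ℝ) - ((d / 2 : ℕ) : ℝ)) 0 := by
      have := le_max_left ((n : ℝ) - ((d / 2 : ℕ) : ℝ)) 0
      linarith
    calc (n : ℝ) * a (-(n : ℤ)) ≤ 2 * max ((n : ℝ) - ((d / 2 : ℕ) : ℝ)) 0 * a (-(n : ℤ)) :=
          mul_le_mul_of_nonneg_right h2 (hk.nonneg _)
      _ = _ := by ring
  · exact mul_nonneg (by norm_num) (mul_nonneg (hk.nonneg _) (le_max_right _ _))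

lemma TL_al_nonneg (hk : IsKernel a) (d : ℝ) : 0 ≤ al a d :=
  tsum_nonneg fun _ => mul_nonneg (hk.nonneg _) (le_max_right _ _)

theorem al_of_not_tail (hk : IsKernel a)
    (h : ¬ Tendsto (fun d : ℕ => (d : ℝ) ^ 2 * tm a d) atTop (𝓝 0)) :
    ∃ ℓ : ℝ, 0 < ℓ ∧ ∃ᶠ d : ℕ in atTop, ℓ ≤ (d : ℝ) ^ 2 * al a d := by
  by_contra hcon
  apply h
  have hn : ∀ ℓ : ℝ, 0 < ℓ → ∀ᶠ d : ℕ in atTop, (d : ℝ) ^ 2 * al a d < ℓ := by
    intro ℓ hℓ
    by_contra hc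
    apply hcon
    refine ⟨ℓ, hℓ, ?_⟩
    intro h'
    apply hc
    filter_upwards [h'] with d hd
    exact not_le.1 hd
  refine tendsto_order.2 ⟨fun c hc => Eventually.of_forall fun d =>
    lt_of_lt_of_le hc (mul_nonneg (by positivity) (TL_tm_nonneg hk d)), fun c hc => ?_⟩
  have h1 := hn (c / 18) (by positivity)
  have h2 : Tendsto (fun d : ℕ => d / 2) atTop atTop :=
    tendsto_atTop_atTop.2 fun b => ⟨2 * b, fun d hd => by omega⟩
  filter_upwards [h2.eventually h1, eventually_ge_atTop 2] with d hd hd2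
  have h3 := TL_tm_le_al hk d
  have h4 : (d : ℝ) ≤ 3 * ((d / 2 : ℕ) : ℝ) := by
    have : d ≤ 3 * (d / 2) := by omega
    exact_mod_cast this
  have h5 : (d : ℝ) ^ 2 ≤ 9 * ((d / 2 : ℕ) : ℝ) ^ 2 := by
    have h0 : (0 : ℝ) ≤ d := d.cast_nonneg
    nlinarith
  have h6 := TL_al_nonneg hk ((d / 2 : ℕ) : ℝ)
  calc (d : ℝ) ^ 2 * tm a d ≤ (d : ℝ) ^ 2 * (2 * al a ((d / 2 : ℕ) : ℝ)) :=
        mul_le_mul_of_nonneg_left h3 (by positivity)
    _ ≤ 9 * ((d / 2 : ℕ) : ℝ) ^ 2 * (2 * al a ((d / 2 : ℕ) : ℝ)) :=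
        mul_le_mul_of_nonneg_right h5 (by positivity)
    _ = 18 * (((d / 2 : ℕ) : ℝ) ^ 2 * al a ((d / 2 : ℕ) : ℝ)) := by ring
    _ < 18 * (c / 18) := by linarith
    _ = c := by ring

lemma al_antitone (hk : IsKernel a) : Antitone (al a) := by
  intro d e hde
  refine Summable.tsum_le_tsum (fun n => ?_) (TL_sal hk e) (TL_sal hk d)
  exact mul_le_mul_of_nonneg_left (max_le_max (by linarith) le_rfl) (hk.nonneg _)

lemma al_nonneg (hk : IsKernel a) (d : ℝ) : 0 ≤ al a d := TL_al_nonneg hk d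

end H40.VM
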