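import Pool.Agent.H40.VM.CT5
import Pool.Agent.H40.VM.CB
import Pool.Agent.H40.VM.TL

/-!
# Module BJ: long jumps of the leftmost one (unbiased chain)

`lf m` is the leftmost one of the state `m`. A flip at `j ≤ lf m - d` (`d > 0`) moves the leftmost
one by at least `d` to the left. The total rate of such flips is
`β(m) = ∑_{i one} ∑_{j ≤ lf m - d} a(j - i)`. If `i_0 = lf m < i_1 < ...` are the ones then
`lf m + l ≤ i_l ≤ lf m + l + Z`, `Z = cc m - lf m` = number of zeros to the right of `lf m`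
(`balance` at `z = lf m`), so `al a (d + Z) ≤ β(m) ≤ ∑_n a(-n) (n+1)`.
Extended chain on `St × Bool`: `Φ' (m, b) u = (Φ m u, b || decide (lf (Φ m u) ≤ lf m - d))`,
`q' (m, b) = q m`. It projects to `vc a true` (same jump times, states), is non explosive, and its
flag at time `t` is `true` iff a long jump happened up to time `t`. `Chain.forward` for
`F (m, b) = 1{b}` with generator `β(m) 1{¬ b}` gives
`Pr {long jump up to t} = ∫_0^t E β(X_s) 1{no long jump up to s} ds`, and
`β(X_s) ≥ al a (d + δ)` unless `low (X_s) (cc (X_s) - δ)`.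
-/

open MeasureTheory ProbabilityTheory Filter Topology
open scoped ENNReal NNReal unitInterval symmDiff

namespace H40.VM

open H40.Voter (IsKernel)

variable {a : ℤ → ℝ}

/-- the leftmost one -/
noncomputable def lf (m : St) : ℤ := sInf {i : ℤ | cf true m i = true}

lemma lf_isLeast (m : St) : IsLeast {i : ℤ | cf true m i = true} (lf m) := by
  have hne : {i : ℤ | cf true m i = true}.Nonempty := by
    have hfin : (m : Set ℤ).Finite := m.finite_toSet
    obtain ⟨b, hb⟩ := hfin.bddAbove
    refine ⟨max b 0 + 1, ?_⟩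
    have h1 : max b 0 + 1 ∉ m := fun h => by
      have := hb h
      have := le_max_left b 0
      omega
    have h2 : 0 ≤ max b 0 + 1 := by
      have := le_max_right b 0
      omega
    simp [cf, bs, h1, h2]
  have hbdd : BddBelow {i : ℤ | cf true m i = true} := by
    obtain ⟨b, hb⟩ := (m.finite_toSet : (m : Set ℤ).Finite).bddBelow
    refine ⟨min b 0, ?_⟩
    intro i hi
    by_contra hcon
    push Not at hcon
    have h1 : i ∉ m := fun h => by
      have := hb h
      have := min_le_left b 0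
      omega
    have h2 : ¬ 0 ≤ i := by
      have := min_le_right b 0
      omega
    simp [cf, bs, h1, h2] at hi
  exact ⟨Int.csInf_mem hne hbdd, fun i hi => csInf_le hbdd hi⟩

lemma low_iff_lf (m : St) (r : ℝ) : low true m r ↔ (lf m : ℝ) ≤ r := by
  constructor
  · rintro ⟨i, hi, h⟩
    have : lf m ≤ i := (lf_isLeast m).2 h
    have : (lf m : ℝ) ≤ i := by exact_mod_cast this
    linarith
  · intro h
    exact ⟨lf m, h, (lf_isLeast m).1⟩

lemma bj_lf_fl {d : ℝ} (hd : 0 < d) (m : St) (j : ℤ) :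
    (lf (fl m j) : ℝ) ≤ lf m - d ↔ (j : ℝ) ≤ lf m - d := by
  constructor
  · intro h
    have h1 : cf true (fl m j) (lf (fl m j)) = true := (lf_isLeast _).1
    rw [cf_fl] at h1
    by_cases hj : lf (fl m j) = j
    · rw [← hj]
      exact h
    · rw [if_neg hj] at h1
      have h2 : lf m ≤ lf (fl m j) := (lf_isLeast m).2 h1
      have h3 : (lf m : ℝ) ≤ lf (fl m j) := by exact_mod_cast h2
      linarith
  · intro h
    have h1 : cf true m j = false := by
      by_contra hcon
      have h2 : lf m ≤ j := (lf_isLeast m).2 (by simpa using hcon)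
      have h3 : (lf m : ℝ) ≤ j := by exact_mod_cast h2
      linarith
    have h4 : cf true (fl m j) j = true := by
      rw [cf_fl, if_pos rfl, h1]
      rfl
    have h5 : lf (fl m j) ≤ j := (lf_isLeast _).2 h4
    have h6 : (lf (fl m j) : ℝ) ≤ j := by exact_mod_cast h5
    linarith

open Classical in
/-- rate of the long jumps -/
noncomputable def bjβ (a : ℤ → ℝ) (d : ℝ) (m : St) : ℝ≥0∞ :=
  ∑' j : ℤ, if (j : ℝ) ≤ lf m - d then ENNReal.ofReal (rt a true m j) else 0

open Classical in
/-- number of sites which can be hit from distance `k` -/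
noncomputable def bjcnt (d : ℝ) (m : St) (k : ℤ) : ℝ≥0∞ :=
  ∑' j : ℤ, if (j : ℝ) ≤ lf m - d ∧ cf true m (j - k) = true then 1 else 0

open Classical in
lemma bj_beta_eq (hk : IsKernel a) {d : ℝ} (hd : 0 < d) (m : St) :
    bjβ a d m = ∑' k : ℤ, ENNReal.ofReal (a k) * bjcnt d m k := by
  have h1 : ∀ j : ℤ, (if (j : ℝ) ≤ lf m - d then ENNReal.ofReal (rt a true m j) else 0) =
      ∑' k : ℤ, ENNReal.ofReal (a k) *
        (if (j : ℝ) ≤ lf m - d ∧ cf true m (j - k) = true then 1 else 0) := by
    intro j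
    by_cases hj : (j : ℝ) ≤ lf m - d
    · rw [if_pos hj]
      have hcf : cf true m j = false := by
        by_contra hcon
        have h2 : lf m ≤ j := (lf_isLeast m).2 (by simpa using hcon)
        have h3 : (lf m : ℝ) ≤ j := by exact_mod_cast h2
        linarith
      unfold rt
      rw [ENNReal.ofReal_tsum_of_nonneg (fun k => by
        split_ifs <;> [exact hk.nonneg k; exact le_rfl]) (summable_rt_inner hk true m j)]
      refine tsum_congr fun k => ?_
      rw [hcf]
      by_cases hc : cf true m (j - k) = true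
      · rw [if_pos (by rw [hc]; simp), if_pos ⟨hj, hc⟩, mul_one]
      · have hc' : cf true m (j - k) = false := by simpa using hc
        rw [if_neg (by rw [hc']; simp), if_neg (fun h => hc h.2), mul_zero, ENNReal.ofReal_zero]
    · rw [if_neg hj]
      symm
      rw [ENNReal.tsum_eq_zero]
      intro k
      rw [if_neg (fun h => hj h.1), mul_zero]
  unfold bjβ
  rw [tsum_congr h1, ENNReal.tsum_comm]
  refine tsum_congr fun k => ?_
  rw [ENNReal.tsum_mul_left]
  rfl

open Classical in
lemma bj_cnt_le {d : ℝ} (hd : 0 < d) (m : St) (k : ℤ) :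
    bjcnt d m k ≤ ENNReal.ofReal |(k : ℝ)| := by
  have h1 : bjcnt d m k ≤ ∑' j : ℤ, if j ∈ Finset.Ico (lf m + k) (lf m) then (1 : ℝ≥0∞) else 0 := by
    refine ENNReal.tsum_le_tsum fun j => ?_
    by_cases h : (j : ℝ) ≤ lf m - d ∧ cf true m (j - k) = true
    · rw [if_pos h, if_pos]
      rw [Finset.mem_Ico]
      have h2 : lf m ≤ j - k := (lf_isLeast m).2 h.2
      have h3 : (j : ℝ) < lf m := by linarith [h.1]
      have h4 : j < lf m := by exact_mod_cast h3
      exact ⟨by omega, h4⟩
    · rw [if_neg h]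
      exact bot_le
  refine h1.trans ?_
  rw [tsum_eq_sum (s := Finset.Ico (lf m + k) (lf m)) (fun j hj => if_neg hj),
    Finset.sum_ite_mem, Finset.inter_self, Finset.sum_const, Int.card_Ico, nsmul_eq_mul, mul_one,
    ← ENNReal.ofReal_natCast]
  refine ENNReal.ofReal_le_ofReal ?_
  have h5 : ((lf m - (lf m + k)).toNat : ℤ) ≤ |k| := by
    have h6 := abs_nonneg k
    have h7 := neg_abs_le k
    omega
  exact_mod_cast h5

open Classical in
lemma bj_cnt_ge {d : ℝ} (m : St) (n : ℕ) :
    ENNReal.ofReal (max ((n : ℝ) - (d + nz m (lf m))) 0) ≤ bjcnt d m (-(n : ℤ)) := by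
  set R : Finset ℤ := Finset.Icc (lf m) ⌊(lf m : ℝ) + n - d⌋ with hR
  set A : Finset ℤ := R.filter fun i => cf true m i = true with hA
  have h1 : ((A.image fun i => i - (n : ℤ)).card : ℝ≥0∞) ≤ bjcnt d m (-(n : ℤ)) := by
    unfold bjcnt
    refine le_trans (le_of_eq ?_) (ENNReal.sum_le_tsum (A.image fun i => i - (n : ℤ)))
    rw [Finset.sum_congr rfl (g := fun _ => (1 : ℝ≥0∞))]
    · rw [Finset.sum_const, nsmul_eq_mul, mul_one]
    · intro j hj
      obtain ⟨i, hi, rfl⟩ := Finset.mem_image.1 hj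
      rw [hA, Finset.mem_filter, hR, Finset.mem_Icc] at hi
      rw [if_pos]
      refine ⟨?_, ?_⟩
      · have := Int.le_floor.1 hi.1.2
        push_cast
        linarith
      · rw [sub_neg_eq_add, sub_add_cancel]
        exact hi.2
  refine le_trans ?_ h1
  rw [Finset.card_image_of_injective _ (sub_left_injective), ← ENNReal.ofReal_natCast]
  refine ENNReal.ofReal_le_ofReal (max_le ?_ (Nat.cast_nonneg _))
  have h2 : A.card + (R.filter fun i => ¬ cf true m i = true).card = R.card :=
    Finset.card_filter_add_card_filter_not _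
  have h3 : (R.filter fun i => ¬ cf true m i = true).card ≤ nz m (lf m) := by
    rw [nz_eq_card]
    refine Finset.card_le_card fun i hi => ?_
    rw [Finset.mem_filter, hR, Finset.mem_Icc] at hi
    rw [Set.Finite.mem_toFinset]
    refine ⟨?_, by simpa using hi.2⟩
    have h4 : lf m ≠ i := by
      rintro rfl
      exact hi.2 (lf_isLeast m).1
    have h5 : lf m < i := lt_of_le_of_ne hi.1.1 h4
    exact_mod_cast h5
  have h4 : (n : ℝ) - d ≤ R.card := by
    rw [hR, Int.card_Icc]
    have h5 := Int.lt_floor_add_one ((lf m : ℝ) + n - d)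
    have h6 : (⌊(lf m : ℝ) + n - d⌋ + 1 - lf m : ℤ) ≤ ((⌊(lf m : ℝ) + n - d⌋ + 1 - lf m).toNat : ℤ) :=
      Int.self_le_toNat _
    have h7 : ((⌊(lf m : ℝ) + n - d⌋ + 1 - lf m : ℤ) : ℝ) ≤
        (((⌊(lf m : ℝ) + n - d⌋ + 1 - lf m).toNat : ℤ) : ℝ) := by exact_mod_cast h6
    push_cast at h7
    linarith
  have h2' : (A.card : ℝ) + (R.filter fun i => ¬ cf true m i = true).card = R.card := by
    exact_mod_cast h2
  have h3' : ((R.filter fun i => ¬ cf true m i = true).card : ℝ) ≤ nz m (lf m) := by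
    exact_mod_cast h3
  linarith

lemma bj_beta_le (hk : IsKernel a) {d : ℝ} (hd : 0 < d) (m : St) :
    bjβ a d m ≤ ENNReal.ofReal (∑' k : ℤ, a k * |(k : ℝ)|) := by
  rw [bj_beta_eq hk hd, ENNReal.ofReal_tsum_of_nonneg
    (fun k => mul_nonneg (hk.nonneg k) (abs_nonneg _)) (summable_mul_abs hk)]
  refine ENNReal.tsum_le_tsum fun k => ?_
  rw [ENNReal.ofReal_mul (hk.nonneg k)]
  gcongr
  exact bj_cnt_le hd m k

lemma bj_beta_ne_top (hk : IsKernel a) {d : ℝ} (hd : 0 < d) (m : St) : bjβ a d m ≠ ∞ :=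
  ((bj_beta_le hk hd m).trans_lt ENNReal.ofReal_lt_top).ne

lemma bj_beta_ge (hk : IsKernel a) {d δ : ℝ} (hd : 0 < d) {m : St}
    (hm : ¬ low true m ((cc m : ℝ) - δ)) : al a (d + δ) ≤ (bjβ a d m).toReal := by
  rw [← ENNReal.ofReal_le_iff_le_toReal (bj_beta_ne_top hk hd m), bj_beta_eq hk hd]
  have hZ : (nz m (lf m) : ℝ) ≤ δ := by
    rw [low_iff_lf, not_le] at hm
    have h1 := balance m (lf m)
    have h2 : no true m (lf m : ℤ) ≤ 1 := by
      rw [no_eq_card, Finset.card_le_one]
      have h3 : ∀ x ∈ (no_finite true m (lf m : ℤ)).toFinset, x = lf m := by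
        intro x hx
        rw [Set.Finite.mem_toFinset] at hx
        have h4 : x ≤ lf m := by exact_mod_cast hx.1
        exact le_antisymm h4 ((lf_isLeast m).2 hx.2)
      intro x hx y hy
      rw [h3 x hx, h3 y hy]
    have h5 : (nz m (lf m : ℤ) : ℤ) ≤ cc m - lf m := by omega
    have h6 : (nz m (lf m : ℤ) : ℝ) ≤ cc m - lf m := by exact_mod_cast h5
    linarith
  unfold al
  rw [ENNReal.ofReal_tsum_of_nonneg
    (fun n => mul_nonneg (hk.nonneg _) (le_max_right _ _)) (TL_sal hk _)]
  refine le_trans ?_ (ENNReal.tsum_comp_le_tsum_of_injective TL_inj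
    (fun k : ℤ => ENNReal.ofReal (a k) * bjcnt d m k))
  refine ENNReal.tsum_le_tsum fun n => ?_
  rw [ENNReal.ofReal_mul (hk.nonneg _)]
  gcongr
  refine le_trans (ENNReal.ofReal_le_ofReal ?_) (bj_cnt_ge m n)
  exact max_le_max (by linarith) le_rfl

/-! ### the extended chain -/

open Classical in
/-- the chain with a flag which remembers the long jumps -/
noncomputable def bjC (a : ℤ → ℝ) (d : ℝ) : Chain (St × Bool) where
  Φ p u := ((vc a true).Φ p.1 u,
    p.2 || decide ((lf ((vc a true).Φ p.1 u) : ℝ) ≤ lf p.1 - d))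
  q p := (vc a true).q p.1
  meas p := by
    have h : Measurable fun x : St => (x, p.2 || decide ((lf x : ℝ) ≤ lf p.1 - d)) :=
      measurable_of_countable _
    exact h.comp ((vc a true).meas p.1)
  qpos p := (vc a true).qpos p.1

/-- long jump at step `i` -/
def bjL (a : ℤ → ℝ) (d : ℝ) (x : St) (ω : Om) (i : ℕ) : Prop :=
  (lf ((vc a true).Y (i + 1) x ω) : ℝ) ≤ lf ((vc a true).Y i x ω) - d

open Classical in
lemma bjC_Y (d : ℝ) (k : ℕ) (p : St × Bool) (ω : Om) :
    (bjC a d).Y k p ω = ((vc a true).Y k p.1 ω, p.2 || decide (∃ i < k, bjL a d p.1 ω i)) := by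
  induction k with
  | zero => simp
  | succ k ih =>
    rw [Chain.Y_succ', ih]
    have h1 : (bjC a d).Φ ((vc a true).Y k p.1 ω, p.2 || decide (∃ i < k, bjL a d p.1 ω i))
        (ω k).1 = ((vc a true).Φ ((vc a true).Y k p.1 ω) (ω k).1,
        (p.2 || decide (∃ i < k, bjL a d p.1 ω i)) ||
          decide ((lf ((vc a true).Φ ((vc a true).Y k p.1 ω) (ω k).1) : ℝ) ≤
            lf ((vc a true).Y k p.1 ω) - d)) := rfl
    rw [h1, ← Chain.Y_succ']
    congr 1
    rw [Bool.or_assoc]
    congr 1
    rw [← Bool.decide_or]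
    congr 1
    rw [eq_iff_iff]
    constructor
    · rintro (⟨i, hi, h⟩ | h)
      · exact ⟨i, by omega, h⟩
      · exact ⟨k, by omega, h⟩
    · rintro ⟨i, hi, h⟩
      rcases Nat.lt_succ_iff_lt_or_eq.1 hi with h2 | h2
      · exact Or.inl ⟨i, h2, h⟩
      · right
        rw [h2] at h
        exact h

lemma bjC_T (d : ℝ) (k : ℕ) (p : St × Bool) (ω : Om) :
    (bjC a d).T k p ω = (vc a true).T k p.1 ω := by
  unfold Chain.T
  refine Finset.sum_congr rfl fun i _ => ?_
  rw [bjC_Y]
  rfl

lemma bjC_N (d t : ℝ) (p : St × Bool) (ω : Om) :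
    (bjC a d).N t p ω = (vc a true).N t p.1 ω := by
  unfold Chain.N
  simp only [bjC_T]

open Classical in
lemma bjC_X (d t : ℝ) (p : St × Bool) (ω : Om) :
    (bjC a d).X t p ω = ((vc a true).X t p.1 ω,
      p.2 || decide (∃ i < (vc a true).N t p.1 ω, bjL a d p.1 ω i)) := by
  unfold Chain.X
  rw [bjC_N, bjC_Y]

lemma bjC_NE (hk : IsKernel a) (d : ℝ) : (bjC a d).NE := by
  intro p t
  simp only [bjC_T]
  exact ne_true hk p.1 t

/-- the flag -/
noncomputable def bjF (p : St × Bool) : ℝ := if p.2 then 1 else 0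

/-- the generator applied to the flag -/
noncomputable def bjG (a : ℤ → ℝ) (d : ℝ) (p : St × Bool) : ℝ :=
  if p.2 then 0 else (bjβ a d p.1).toReal

lemma bjF_abs (p : St × Bool) : |bjF p| ≤ 1 := by
  unfold bjF
  split_ifs <;> simp

lemma bj_K_nonneg (hk : IsKernel a) : 0 ≤ ∑' k : ℤ, a k * |(k : ℝ)| :=
  tsum_nonneg fun k => mul_nonneg (hk.nonneg k) (abs_nonneg _)

lemma bjG_nonneg (d : ℝ) (p : St × Bool) : 0 ≤ bjG a d p := by
  unfold bjG
  split_ifs
  · exact le_rfl
  · exact ENNReal.toReal_nonneg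

lemma bjG_abs (hk : IsKernel a) {d : ℝ} (hd : 0 < d) (p : St × Bool) :
    |bjG a d p| ≤ ∑' k : ℤ, a k * |(k : ℝ)| := by
  rw [abs_of_nonneg (bjG_nonneg d p)]
  unfold bjG
  split_ifs
  · exact bj_K_nonneg hk
  · exact ENNReal.toReal_le_of_le_ofReal (bj_K_nonneg hk) (bj_beta_le hk hd p.1)

open Classical in
lemma bj_gen (hk : IsKernel a) {d : ℝ} (hd : 0 < d) (p : St × Bool) :
    bjG a d p = (bjC a d).q p * (∫ u, bjF ((bjC a d).Φ p u) - bjF p) := by
  obtain ⟨m, b⟩ := p
  cases b with
  | true =>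
    have h1 : ∀ u, bjF ((bjC a d).Φ (m, true) u) = 1 := by
      intro u
      simp [bjF, bjC]
    have h2 : bjF (m, true) = 1 := by simp [bjF]
    have h3 : bjG a d (m, true) = 0 := by simp [bjG]
    simp only [h1, h2, h3]
    simp
  | false =>
    have ht := tot_true_pos hk m
    have h2 : bjF (m, false) = 0 := by simp [bjF]
    have h3 : bjG a d (m, false) = (bjβ a d m).toReal := by simp [bjG]
    have hq : (bjC a d).q (m, false) = tot a true m := q_true hk m
    have h1 : ∀ u, bjF ((bjC a d).Φ (m, false) u) =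
        (if (lf ((vc a true).Φ m u) : ℝ) ≤ lf m - d then (1 : ℝ≥0∞) else 0).toReal := by
      intro u
      by_cases h : (lf ((vc a true).Φ m u) : ℝ) ≤ lf m - d
      · simp [bjF, bjC, h]
      · simp [bjF, bjC, h]
    have hm : Measurable fun u =>
        (if (lf ((vc a true).Φ m u) : ℝ) ≤ lf m - d then (1 : ℝ≥0∞) else 0) := by
      have h : Measurable fun x : St => (if (lf x : ℝ) ≤ lf m - d then (1 : ℝ≥0∞) else 0) :=
        measurable_of_countable _
      exact h.comp ((vc a true).meas m)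
    have h4 : ∫⁻ u, (if (lf ((vc a true).Φ m u) : ℝ) ≤ lf m - d then (1 : ℝ≥0∞) else 0) =
        (ENNReal.ofReal (tot a true m))⁻¹ * bjβ a d m := by
      rw [lintegral_Φ hk ht (fun x => if (lf x : ℝ) ≤ lf m - d then (1 : ℝ≥0∞) else 0)]
      unfold bjβ
      rw [← ENNReal.tsum_mul_left]
      refine tsum_congr fun j => ?_
      have h5 := bj_lf_fl hd m j
      by_cases h : (j : ℝ) ≤ lf m - d
      · rw [if_pos (h5.2 h), if_pos h, mul_one, ENNReal.ofReal_div_of_pos ht, mul_comm,
          ENNReal.div_eq_inv_mul, mul_comm]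
      · rw [if_neg (fun h' => h (h5.1 h')), if_neg h, mul_zero, mul_zero]
    rw [h3, hq, h2]
    simp only [h1, sub_zero]
    rw [integral_toReal hm.aemeasurable (Eventually.of_forall fun u => by
      split_ifs <;> simp), h4, ENNReal.toReal_mul, ENNReal.toReal_inv,
      ENNReal.toReal_ofReal ht.le, ← mul_assoc, mul_inv_cancel₀ ht.ne', one_mul]

theorem big_jump_ge (hk : IsKernel a) {d δ t : ℝ} (hd : 0 < d) (hδ : 0 ≤ δ) (ht : 0 ≤ t) :
    al a (d + δ) * (t * (1 - (Pr {ω | ∃ k, (vc a true).T (k + 1) ∅ ω ≤ t ∧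
        (lf ((vc a true).Y (k + 1) ∅ ω) : ℝ) ≤ lf ((vc a true).Y k ∅ ω) - d}).toReal) -
      ∫ s in (0 : ℝ)..t, (Pr {ω | low true ((vc a true).X s ∅ ω)
        ((cc ((vc a true).X s ∅ ω) : ℝ) - δ)}).toReal) ≤
    (Pr {ω | ∃ k, (vc a true).T (k + 1) ∅ ω ≤ t ∧
        (lf ((vc a true).Y (k + 1) ∅ ω) : ℝ) ≤ lf ((vc a true).Y k ∅ ω) - d}).toReal := by
  classical
  set K : ℝ := 1 + ∑' k : ℤ, a k * |(k : ℝ)| with hK
  have hK0 := bj_K_nonneg hk
  have hfw := (bjC a d).forward (bjC_NE hk d) (F := bjF) (G := bjG a d) (K := K)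
    (fun p => (bjF_abs p).trans (by linarith)) (fun p => (bjG_abs hk hd p).trans (by linarith))
    (bj_gen hk hd) ht (∅, false)
  have hF0 : bjF ((∅ : St), false) = 0 := by simp [bjF]
  rw [hF0, zero_add] at hfw
  set E : Set Om := {ω | ∃ k, (vc a true).T (k + 1) ∅ ω ≤ t ∧
        (lf ((vc a true).Y (k + 1) ∅ ω) : ℝ) ≤ lf ((vc a true).Y k ∅ ω) - d} with hE
  have hEm : MeasurableSet E := by
    have : E = ⋃ k, ({ω | (vc a true).T (k + 1) ∅ ω ≤ t} ∩
        {ω | (lf ((vc a true).Y (k + 1) ∅ ω) : ℝ) ≤ lf ((vc a true).Y k ∅ ω) - d}) := by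
      ext ω
      simp [hE]
    rw [this]
    refine MeasurableSet.iUnion fun k => ?_
    refine (measurableSet_le ((vc a true).measurable_Tx (k + 1) ∅) measurable_const).inter ?_
    exact measurableSet_le
      ((measurable_of_countable (fun x : St => (lf x : ℝ))).comp
        ((vc a true).measurable_Yx (k + 1) ∅))
      (((measurable_of_countable (fun x : St => (lf x : ℝ))).comp
        ((vc a true).measurable_Yx k ∅)).sub_const d)
  have hfin := (vc a true).ae_finite (ne_true hk) ∅
  -- the left side of the forward equation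
  have hL : ∫ ω, bjF ((bjC a d).X t (∅, false) ω) ∂Pr = (Pr E).toReal := by
    have h1 : ∫ ω, bjF ((bjC a d).X t (∅, false) ω) ∂Pr = ∫ ω, E.indicator 1 ω ∂Pr := by
      refine integral_congr_ae ?_
      filter_upwards [hfin] with ω hω
      have h2 : (∃ i < (vc a true).N t ∅ ω, bjL a d ∅ ω i) ↔ ω ∈ E := by
        constructor
        · rintro ⟨i, hi, h⟩
          exact ⟨i, ((vc a true).lt_N_iff ht (hω t) i).1 hi, h⟩
        · rintro ⟨i, hi, h⟩
          exact ⟨i, ((vc a true).lt_N_iff ht (hω t) i).2 hi, h⟩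
      rw [bjC_X]
      by_cases h : ω ∈ E
      · rw [Set.indicator_of_mem h]
        simp [bjF, h2.2 h]
      · rw [Set.indicator_of_notMem h]
        have h3 : ¬ ∃ i < (vc a true).N t ∅ ω, bjL a d ∅ ω i := fun h' => h (h2.1 h')
        simp only [bjF, Bool.false_or, decide_eq_true_eq]
        rw [if_neg h3]
    rw [h1, integral_indicator_one hEm]
    rfl
  rw [hL] at hfw
  -- lower bound of the integrand
  have hal := al_nonneg hk (d + δ)
  have hlow : ∀ s, MeasurableSet {ω | low true ((vc a true).X s ∅ ω)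
      ((cc ((vc a true).X s ∅ ω) : ℝ) - δ)} := fun s =>
    ((vc a true).measurable_Xx s ∅) (MeasurableSet.of_discrete
      (s := {y : St | low true y ((cc y : ℝ) - δ)}))
  have hpt : ∀ s ∈ Set.Icc 0 t, al a (d + δ) * (1 - (Pr E).toReal -
      (Pr {ω | low true ((vc a true).X s ∅ ω) ((cc ((vc a true).X s ∅ ω) : ℝ) - δ)}).toReal) ≤
      ∫ ω, bjG a d ((bjC a d).X s (∅, false) ω) ∂Pr := by
    intro s hs
    set L : Set Om := {ω | low true ((vc a true).X s ∅ ω)
      ((cc ((vc a true).X s ∅ ω) : ℝ) - δ)} with hLdef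
    have h1 : al a (d + δ) * (1 - (Pr E).toReal - (Pr L).toReal) =
        ∫ ω, al a (d + δ) * (1 - E.indicator 1 ω - L.indicator 1 ω) ∂Pr := by
      have i1 : Integrable (E.indicator (1 : Om → ℝ)) Pr :=
        (integrable_const (1 : ℝ)).indicator hEm
      have i2 : Integrable (L.indicator (1 : Om → ℝ)) Pr :=
        (integrable_const (1 : ℝ)).indicator (hlow s)
      have j1 : Integrable (fun ω => (1 : ℝ) - E.indicator (1 : Om → ℝ) ω) Pr :=
        (integrable_const (1 : ℝ)).sub i1
      rw [integral_const_mul, integral_sub j1 i2,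
        integral_sub (integrable_const (1 : ℝ)) i1, integral_indicator_one hEm,
        integral_indicator_one (hlow s), integral_const, probReal_univ, smul_eq_mul, mul_one]
      rfl
    rw [h1]
    refine integral_mono_ae ?_ ((bjC a d).integrable_X (K := K)
      (fun p => (bjG_abs hk hd p).trans (by linarith)) s (∅, false)) ?_
    · refine Integrable.const_mul ?_ _
      exact ((integrable_const (1 : ℝ)).sub ((integrable_const (1 : ℝ)).indicator hEm)).sub
        ((integrable_const (1 : ℝ)).indicator (hlow s))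
    · filter_upwards [hfin] with ω hω
      by_cases h2 : ω ∈ E
      · have h3 : (1 : ℝ) - E.indicator 1 ω - L.indicator 1 ω ≤ 0 := by
          rw [Set.indicator_of_mem h2]
          have : (0 : ℝ) ≤ L.indicator 1 ω := Set.indicator_nonneg (fun _ _ => zero_le_one) _
          simp only [Pi.one_apply]
          linarith
        exact (mul_nonpos_of_nonneg_of_nonpos hal h3).trans (bjG_nonneg _ _)
      · by_cases h4 : ω ∈ L
        · have h3 : (1 : ℝ) - E.indicator 1 ω - L.indicator 1 ω ≤ 0 := by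
            rw [Set.indicator_of_mem h4, Set.indicator_of_notMem h2]
            simp
          exact (mul_nonpos_of_nonneg_of_nonpos hal h3).trans (bjG_nonneg _ _)
        · rw [Set.indicator_of_notMem h2, Set.indicator_of_notMem h4, sub_zero, sub_zero, mul_one,
            bjC_X]
          have h5 : ¬ ∃ i < (vc a true).N s ∅ ω, bjL a d ∅ ω i := by
            rintro ⟨i, hi, h⟩
            exact h2 ⟨i, (((vc a true).lt_N_iff hs.1 (hω s) i).1 hi).trans hs.2, h⟩
          have h6 : bjG a d ((vc a true).X s ∅ ω,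
              false || decide (∃ i < (vc a true).N s ∅ ω, bjL a d ∅ ω i)) =
              (bjβ a d ((vc a true).X s ∅ ω)).toReal := by
            simp only [bjG, Bool.false_or, decide_eq_true_eq]
            rw [if_neg h5]
          rw [h6]
          exact bj_beta_ge hk hd h4
  have hmlow : StronglyMeasurable fun s : ℝ => (Pr {ω | low true ((vc a true).X s ∅ ω)
      ((cc ((vc a true).X s ∅ ω) : ℝ) - δ)}).toReal := by
    have h1 := (vc a true).measurable_mean
      (fun y : St => if low true y ((cc y : ℝ) - δ) then (1 : ℝ) else 0) ∅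
    refine (congrArg StronglyMeasurable (funext fun s => ?_)).mp h1
    have h2 : ∀ ω, (if low true ((vc a true).X s ∅ ω) ((cc ((vc a true).X s ∅ ω) : ℝ) - δ) then
        (1 : ℝ) else 0) = {ω | low true ((vc a true).X s ∅ ω)
        ((cc ((vc a true).X s ∅ ω) : ℝ) - δ)}.indicator 1 ω := by
      intro ω
      rw [Set.indicator_apply]
      rfl
    simp only [h2]
    rw [integral_indicator_one (hlow s)]
    rfl
  have hble : ∀ s : ℝ, ‖(Pr {ω | low true ((vc a true).X s ∅ ω)
      ((cc ((vc a true).X s ∅ ω) : ℝ) - δ)}).toReal‖ ≤ 1 := by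
    intro s
    rw [Real.norm_of_nonneg ENNReal.toReal_nonneg]
    exact ENNReal.toReal_le_of_le_ofReal zero_le_one (by simpa using prob_le_one)
  have hi1 : IntervalIntegrable (fun s : ℝ => (Pr {ω | low true ((vc a true).X s ∅ ω)
      ((cc ((vc a true).X s ∅ ω) : ℝ) - δ)}).toReal) volume 0 t := by
    rw [intervalIntegrable_iff_integrableOn_Ioc_of_le ht]
    exact Integrable.of_bound hmlow.aestronglyMeasurable 1 (Eventually.of_forall hble)
  have hi2 : IntervalIntegrable (fun s : ℝ => ∫ ω, bjG a d ((bjC a d).X s (∅, false) ω) ∂Pr)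
      volume 0 t := by
    rw [intervalIntegrable_iff_integrableOn_Ioc_of_le ht]
    refine Integrable.of_bound ((bjC a d).measurable_mean (bjG a d) (∅, false)).aestronglyMeasurable
      K (Eventually.of_forall fun s => ?_)
    exact (bjC a d).abs_mean_le (fun p => (bjG_abs hk hd p).trans (by linarith)) s _
  have hfinal := intervalIntegral.integral_mono_on ht (((intervalIntegrable_const
    (c := 1 - (Pr E).toReal)).sub hi1).const_mul (al a (d + δ))) hi2 hpt
  rw [← hfw, intervalIntegral.integral_const_mul, intervalIntegral.integral_sub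
    intervalIntegrable_const hi1, intervalIntegral.integral_const] at hfinal
  simpa [sub_zero, smul_eq_mul] using hfinal

end H40.VM
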