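import Pool.Agent.H40.VM.CLb

/-!
# Module CF: characteristic functions of the rescaled centre under bias `ε`

Centred kernels: under `P` the steps `S (k+1) - S k` are i.i.d., equal to `-1` with probability
`1/(2-ε)` and to `+1` with probability `(1-ε)/(2-ε)`: by `transfer` (`LRn` is the product of
`2/(2-ε)` over down steps and `2(1-ε)/(2-ε)` over up steps) and `steps_law`,
`E exp (i ∑_{k<n} u k (S (k+1) - S k)) = ∏_{k<n} φ (u k)`,
`φ u = (exp (-iu) + (1-ε) exp (iu))/(2-ε)`.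
`char_S`: `∑_i θ_i ε S n_i = ε ∑_k (∑_{i : k < n_i} θ_i) (S (k+1) - S k)`, `n_i = ⌊sg t_i/ε²⌋`
(`S 0 = 0`), `|φ (ε u) - exp (-ε² u²/2 - i ε² u/2)| ≤ C(u) ε³`, `|∏ a_k - ∏ b_k| ≤ ∑ |a_k - b_k|`, and
`∑_k (∑_{i : k<n_i} θ_i)² = ∑_{i,j} θ_i θ_j min (n_i) (n_j)`.
`char_Y`: `close_fix` and `|e^{ix} - e^{iy}| ≤ |x - y|`.
-/

open MeasureTheory ProbabilityTheory Filter Topology
open scoped ENNReal NNReal unitInterval symmDiff

namespace H40.VM

open H40.Voter (IsKernel IsVoterChain IsVoterProcess VoterFam SkoD jumpTime Config)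

variable {a : ℤ → ℝ}

/-- characteristic function of one step -/
noncomputable def cfph (ε u : ℝ) : ℂ :=
  (Complex.exp (-(u) * Complex.I) + (1 - ε) * Complex.exp (u * Complex.I)) / (2 - ε)

/-- Gaussian approximation -/
noncomputable def cfz (ε u : ℝ) : ℂ :=
  ((-(ε ^ 2 * u ^ 2 / 2) : ℝ) : ℂ) + ((-(ε ^ 2 * u / 2) : ℝ) : ℂ) * Complex.I

lemma cf_ph_eq {ε : ℝ} (h1 : ε < 1) (u : ℝ) :
    cfph ε u = ((Real.cos u : ℝ) : ℂ) + ((-(ε / (2 - ε) * Real.sin u) : ℝ) : ℂ) * Complex.I := by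
  have h2 : (2 - ε : ℂ) ≠ 0 := by
    have : (2 - ε : ℝ) ≠ 0 := by linarith
    exact_mod_cast this
  unfold cfph
  rw [show (-(u : ℂ)) * Complex.I = ((-u : ℝ) : ℂ) * Complex.I by push_cast; ring,
    Complex.exp_mul_I, Complex.exp_mul_I, ← Complex.ofReal_cos, ← Complex.ofReal_sin,
    ← Complex.ofReal_cos, ← Complex.ofReal_sin, Real.cos_neg, Real.sin_neg]
  push_cast
  field_simp
  ring

lemma cf_ph_norm {ε : ℝ} (h0 : 0 < ε) (h1 : ε < 1) (u : ℝ) : ‖cfph ε u‖ ≤ 1 := by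
  have h2 : (0 : ℝ) < 2 - ε := by linarith
  unfold cfph
  rw [norm_div]
  have h3 : ‖(2 - ε : ℂ)‖ = 2 - ε := by
    have : (2 - ε : ℂ) = ((2 - ε : ℝ) : ℂ) := by push_cast; ring
    rw [this, Complex.norm_real, Real.norm_of_nonneg h2.le]
  rw [h3, div_le_one h2]
  refine (norm_add_le _ _).trans ?_
  rw [norm_mul, show (-(u : ℂ)) * Complex.I = ((-u : ℝ) : ℂ) * Complex.I by push_cast; ring,
    Complex.norm_exp_ofReal_mul_I, Complex.norm_exp_ofReal_mul_I]
  have h4 : ‖(1 - ε : ℂ)‖ = 1 - ε := by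
    have : (1 - ε : ℂ) = ((1 - ε : ℝ) : ℂ) := by push_cast; ring
    rw [this, Complex.norm_real, Real.norm_of_nonneg (by linarith)]
  rw [h4]
  linarith

lemma cf_z_norm (ε u : ℝ) : ‖Complex.exp (cfz ε u)‖ ≤ 1 := by
  rw [Complex.norm_exp]
  have : (cfz ε u).re = -(ε ^ 2 * u ^ 2 / 2) := by
    unfold cfz
    rw [Complex.add_re, Complex.ofReal_re, Complex.re_ofReal_mul, Complex.I_re, mul_zero, add_zero]
  rw [this]
  exact Real.exp_le_one_iff.2 (by nlinarith [mul_nonneg (sq_nonneg ε) (sq_nonneg u)])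

lemma cf_diff {ε u U : ℝ} (h0 : 0 < ε) (h1 : ε < 1) (hu : |u| ≤ U) (hU : ε * (U + 1) ^ 2 ≤ 1) :
    ‖cfph ε (ε * u) - Complex.exp (cfz ε u)‖ ≤ 4 * (U + 1) ^ 4 * ε ^ 3 := by
  have hU0 : 0 ≤ U := (abs_nonneg u).trans hu
  set V := U + 1 with hV
  have hV1 : 1 ≤ V := by linarith
  have huV : |u| ≤ V := by linarith
  have hεV : ε * V ≤ 1 := by nlinarith
  set x := ε * u with hx
  have hxabs : |x| ≤ ε * V := by
    rw [hx, abs_mul, abs_of_pos h0]
    exact mul_le_mul_of_nonneg_left huV h0.le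
  have hx1 : |x| ≤ 1 := hxabs.trans hεV
  have h2 : (0 : ℝ) < 2 - ε := by linarith
  have e : cfph ε x - Complex.exp (cfz ε u) =
      ((Real.cos x - (1 - x ^ 2 / 2) : ℝ) : ℂ) +
      ((-(ε / (2 - ε) * Real.sin x) + ε ^ 2 * u / 2 : ℝ) : ℂ) * Complex.I -
      (Complex.exp (cfz ε u) - 1 - cfz ε u) := by
    rw [cf_ph_eq h1]
    unfold cfz
    rw [hx]
    push_cast
    ring
  have hε3 : 0 < ε ^ 3 := by positivity
  have hV4 : 1 ≤ V ^ 4 := one_le_pow₀ hV1
  have b1 : |Real.cos x - (1 - x ^ 2 / 2)| ≤ V ^ 4 * ε ^ 3 := by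
    have := Real.cos_bound hx1
    refine this.trans ?_
    have h4 : |x| ^ 4 ≤ (ε * V) ^ 4 := pow_le_pow_left₀ (abs_nonneg _) hxabs 4
    have h5 : (ε * V) ^ 4 ≤ V ^ 4 * ε ^ 3 := by
      have : ε ^ 4 ≤ ε ^ 3 := pow_le_pow_of_le_one h0.le h1.le (by norm_num)
      calc (ε * V) ^ 4 = ε ^ 4 * V ^ 4 := by ring
        _ ≤ ε ^ 3 * V ^ 4 := by gcongr
        _ = V ^ 4 * ε ^ 3 := by ring
    have h6 : 0 ≤ |x| ^ 4 := by positivity
    linarith
  have b2 : |(-(ε / (2 - ε) * Real.sin x) + ε ^ 2 * u / 2)| ≤ 2 * V ^ 4 * ε ^ 3 := by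
    have e2 : -(ε / (2 - ε) * Real.sin x) + ε ^ 2 * u / 2 =
        ε / (2 - ε) * ((x - x ^ 3 / 6 - Real.sin x) + (x ^ 3 / 6 - ε * x / 2)) := by
      rw [hx]
      field_simp
      ring
    rw [e2, abs_mul]
    have h3 : |ε / (2 - ε)| ≤ ε := by
      rw [abs_of_pos (by positivity), div_le_iff₀ h2]
      nlinarith
    have h4 := Real.sin_bound hx1
    have h4' : |x - x ^ 3 / 6 - Real.sin x| ≤ |x| ^ 2 * (5 / 96) := by
      rw [abs_sub_comm]
      refine h4.trans ?_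
      have : |x| ^ 5 ≤ |x| ^ 2 := pow_le_pow_of_le_one (abs_nonneg x) hx1 (by norm_num)
      have := sq_nonneg |x|
      linarith
    have h5 : |x ^ 3 / 6 - ε * x / 2| ≤ |x| ^ 3 / 6 + ε * |x| / 2 := by
      refine (abs_sub _ _).trans ?_
      have e3 : |x ^ 3 / 6| = |x| ^ 3 / 6 := by
        rw [abs_div, abs_pow]
        norm_num
      have e4 : |ε * x / 2| = ε * |x| / 2 := by
        rw [abs_div, abs_mul ε x, abs_of_pos h0]
        norm_num
      rw [e3, e4]
    have h6 : |x| ^ 3 ≤ |x| := by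
      have := pow_le_pow_of_le_one (abs_nonneg x) hx1 (show 1 ≤ 3 by norm_num)
      simpa using this
    have h7 : |x| ^ 2 ≤ (ε * V) ^ 2 := pow_le_pow_left₀ (abs_nonneg _) hxabs 2
    have h9 : |x| ^ 3 ≤ |x| ^ 2 := pow_le_pow_of_le_one (abs_nonneg x) hx1 (by norm_num)
    have h10 : ε * |x| ≤ ε * (ε * V) := mul_le_mul_of_nonneg_left hxabs h0.le
    have h11 : ε ^ 2 * V ≤ ε ^ 2 * V ^ 2 := by
      have : V ≤ V ^ 2 := by nlinarith
      gcongr
    have h12 : |(x - x ^ 3 / 6 - Real.sin x) + (x ^ 3 / 6 - ε * x / 2)| ≤ 2 * (ε ^ 2 * V ^ 2) := by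
      refine (abs_add_le _ _).trans ?_
      have : (ε * V) ^ 2 = ε ^ 2 * V ^ 2 := by ring
      nlinarith [abs_nonneg x]
    calc |ε / (2 - ε)| * |(x - x ^ 3 / 6 - Real.sin x) + (x ^ 3 / 6 - ε * x / 2)|
        ≤ ε * (2 * (ε ^ 2 * V ^ 2)) := mul_le_mul h3 h12 (abs_nonneg _) h0.le
      _ = 2 * V ^ 2 * ε ^ 3 := by ring
      _ ≤ 2 * V ^ 4 * ε ^ 3 := by
        have : V ^ 2 ≤ V ^ 4 := pow_le_pow_right₀ hV1 (by norm_num)
        gcongr
  have b3 : ‖Complex.exp (cfz ε u) - 1 - cfz ε u‖ ≤ V ^ 4 * ε ^ 3 := by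
    have hz : ‖cfz ε u‖ ≤ ε ^ 2 * V ^ 2 := by
      unfold cfz
      refine (norm_add_le _ _).trans ?_
      rw [norm_mul, Complex.norm_I, mul_one, Complex.norm_real, Complex.norm_real,
        Real.norm_eq_abs, Real.norm_eq_abs, abs_neg, abs_neg, abs_of_nonneg (by positivity),
        abs_div, abs_mul, abs_of_nonneg (sq_nonneg ε)]
      have : u ^ 2 = |u| ^ 2 := (sq_abs u).symm
      rw [this]
      have hsq : |u| ^ 2 ≤ V ^ 2 := pow_le_pow_left₀ (abs_nonneg _) huV 2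
      have hl : |u| ≤ V ^ 2 := huV.trans (by nlinarith)
      have e2 : |(2 : ℝ)| = 2 := by norm_num
      rw [e2]
      have hε2 : 0 ≤ ε ^ 2 := sq_nonneg ε
      nlinarith [mul_le_mul_of_nonneg_left hsq hε2, mul_le_mul_of_nonneg_left hl hε2]
    have hz1 : ‖cfz ε u‖ ≤ 1 := by
      refine hz.trans ?_
      have : ε * V ^ 2 ≤ 1 := hU
      calc ε ^ 2 * V ^ 2 = ε * (ε * V ^ 2) := by ring
        _ ≤ 1 * 1 := mul_le_mul h1.le this (by positivity) (by norm_num)
        _ = 1 := by ring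
    refine (Complex.norm_exp_sub_one_sub_id_le hz1).trans ?_
    calc ‖cfz ε u‖ ^ 2 ≤ (ε ^ 2 * V ^ 2) ^ 2 := pow_le_pow_left₀ (norm_nonneg _) hz 2
      _ = ε ^ 4 * V ^ 4 := by ring
      _ ≤ ε ^ 3 * V ^ 4 := by
        have : ε ^ 4 ≤ ε ^ 3 := pow_le_pow_of_le_one h0.le h1.le (by norm_num)
        gcongr
      _ = V ^ 4 * ε ^ 3 := by ring
  rw [e]
  refine (norm_sub_le _ _).trans ?_
  have b4 : ‖((Real.cos x - (1 - x ^ 2 / 2) : ℝ) : ℂ) +
      ((-(ε / (2 - ε) * Real.sin x) + ε ^ 2 * u / 2 : ℝ) : ℂ) * Complex.I‖ ≤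
      V ^ 4 * ε ^ 3 + 2 * V ^ 4 * ε ^ 3 := by
    refine (norm_add_le _ _).trans ?_
    rw [norm_mul, Complex.norm_I, mul_one, Complex.norm_real, Complex.norm_real,
      Real.norm_eq_abs, Real.norm_eq_abs]
    exact add_le_add b1 b2
  linarith

lemma cf_prod_diff (n : ℕ) (f g : ℕ → ℂ) (hf : ∀ k, ‖f k‖ ≤ 1) (hg : ∀ k, ‖g k‖ ≤ 1)
    {c : ℝ} (h : ∀ k, ‖f k - g k‖ ≤ c) :
    ‖∏ k ∈ Finset.range n, f k - ∏ k ∈ Finset.range n, g k‖ ≤ n * c := by
  induction n with
  | zero => simp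
  | succ n ih =>
    rw [Finset.prod_range_succ, Finset.prod_range_succ]
    have e : (∏ k ∈ Finset.range n, f k) * f n - (∏ k ∈ Finset.range n, g k) * g n =
      (∏ k ∈ Finset.range n, f k) * (f n - g n) +
        (∏ k ∈ Finset.range n, f k - ∏ k ∈ Finset.range n, g k) * g n := by ring
    rw [e]
    refine (norm_add_le _ _).trans ?_
    rw [norm_mul, norm_mul]
    have h1 : ‖∏ k ∈ Finset.range n, f k‖ ≤ 1 := by
      rw [norm_prod]
      exact Finset.prod_le_one (fun _ _ => norm_nonneg _) fun k _ => hf k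
    have h2 := mul_le_mul h1 (h n) (norm_nonneg _) zero_le_one
    have h3 := mul_le_mul ih (hg n) (norm_nonneg _) ((norm_nonneg _).trans ih)
    push_cast
    linarith

lemma cf_floor {c : ℝ} (hc : 0 ≤ c) :
    Tendsto (fun ε : ℝ => ε ^ 2 * (⌊c / ε ^ 2⌋₊ : ℝ)) (𝓝[>] 0) (𝓝 c) := by
  have h1 : Tendsto (fun ε : ℝ => c - ε ^ 2) (𝓝[>] 0) (𝓝 c) := by
    have : Tendsto (fun ε : ℝ => c - ε ^ 2) (𝓝 0) (𝓝 (c - 0 ^ 2)) :=
      (continuous_const.sub (continuous_id.pow 2)).tendsto 0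
    rw [zero_pow two_ne_zero, sub_zero] at this
    exact this.mono_left nhdsWithin_le_nhds
  refine tendsto_of_tendsto_of_tendsto_of_le_of_le' h1 tendsto_const_nhds ?_ ?_
  · filter_upwards [self_mem_nhdsWithin] with ε hε
    have h0 : (0 : ℝ) < ε := hε
    have h2 : 0 < ε ^ 2 := by positivity
    have := Nat.lt_floor_add_one (c / ε ^ 2)
    rw [div_lt_iff₀ h2] at this
    nlinarith
  · filter_upwards [self_mem_nhdsWithin] with ε hε
    have h0 : (0 : ℝ) < ε := hε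
    have h2 : 0 < ε ^ 2 := by positivity
    have := Nat.floor_le (show 0 ≤ c / ε ^ 2 by positivity)
    rw [le_div_iff₀ h2] at this
    linarith


/-! ### characteristic functions of the steps -/

lemma cf_integral_rad (f : ℤ → ℂ) : ∫ k, f k ∂rad = (f 1 + f (-1)) / 2 := by
  unfold rad
  have hi : ∀ z : ℤ, Integrable f ((2 : ℝ≥0∞)⁻¹ • Measure.dirac z) := by
    intro z
    refine Integrable.smul_measure ?_ (by simp)
    exact integrable_dirac (by simp)
  rw [integral_add_measure (hi 1) (hi (-1)), integral_smul_measure, integral_smul_measure,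
    integral_dirac, integral_dirac]
  simp
  ring

lemma cf_measurable_steps (a : ℤ → ℝ) (m : St) : Measurable fun ω (k : ℕ) =>
    cc ((vc a true).Y (k + 1) m ω) - cc ((vc a true).Y k m ω) := by
  refine measurable_pi_iff.2 fun k => ?_
  exact ((measurable_of_countable cc).comp ((vc a true).measurable_Yx (k + 1) m)).sub
        ((measurable_of_countable cc).comp ((vc a true).measurable_Yx k m))

lemma cf_prod (hk : IsKernel a) (hc : mn a = 0) (n : ℕ) (f : ℕ → ℤ → ℂ) :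
    ∫ ω, ∏ k ∈ Finset.range n,
      f k (cc ((vc a true).Y (k + 1) ∅ ω) - cc ((vc a true).Y k ∅ ω)) ∂Pr =
      ∏ k ∈ Finset.range n, (f k 1 + f k (-1)) / 2 := by
  have hF : Measurable fun y : ℕ → ℤ => ∏ k ∈ Finset.range n, f k (y k) :=
    Finset.measurable_prod _ fun k _ => (measurable_of_countable (f k)).comp (measurable_pi_apply k)
  have h1 := integral_map (μ := Pr) (cf_measurable_steps a ∅).aemeasurable
    (f := fun y : ℕ → ℤ => ∏ k ∈ Finset.range n, f k (y k)) hF.aestronglyMeasurable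
  rw [← h1, steps_law hk hc ∅]
  have hG : Measurable fun y : (Finset.range n) → ℤ => ∏ k : Finset.range n, f (k : ℕ) (y k) :=
    Finset.measurable_prod _ fun k _ =>
      (measurable_of_countable (f (k : ℕ))).comp (measurable_pi_apply k)
  have h2 := integral_restrict_infinitePi (μ := fun _ : ℕ => rad) (s := Finset.range n)
    (f := fun y => ∏ k : Finset.range n, f (k : ℕ) (y k)) hG.aestronglyMeasurable
  have h3 : ∀ y : ℕ → ℤ, ∏ k ∈ Finset.range n, f k (y k) =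
      ∏ k : (Finset.range n), f (k : ℕ) ((Finset.range n).restrict y k) := by
    intro y
    rw [← Finset.prod_coe_sort]
    rfl
  simp only [h3]
  rw [h2, integral_fintype_prod_eq_prod]
  simp only [cf_integral_rad]
  rw [← Finset.prod_coe_sort (Finset.range n)]

lemma cf_lr (hk : IsKernel a) (hc : mn a = 0) {ε : ℝ} (h1 : ε < 1) (m m' : St) :
    lr a ε m m' = (if cc m' - cc m < 0 then 1 else 1 - ε) / (1 - ε / 2) := by
  have ht := tot_true_pos hk m
  have h2 : (0 : ℝ) < 1 - ε / 2 := by linarith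
  unfold lr qe
  rw [hc, show tot a true m - ε * ((tot a true m + 0) / 2) = (1 - ε / 2) * tot a true m by ring,
    mul_div_mul_right _ _ ht.ne']
  simp only [sub_neg]

lemma cf_LRn (hk : IsKernel a) (hc : mn a = 0) {ε : ℝ} (h1 : ε < 1) (n : ℕ) (ω : Om) :
    LRn a ε n ω = ∏ k ∈ Finset.range n,
      (if cc ((vc a true).Y (k + 1) ∅ ω) - cc ((vc a true).Y k ∅ ω) < 0 then 1 else 1 - ε) /
        (1 - ε / 2) := by
  unfold LRn
  exact Finset.prod_congr rfl fun k _ => cf_lr hk hc h1 _ _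

lemma cf_measurable_LRn (ε : ℝ) (n : ℕ) : Measurable (LRn a ε n) := by
  have h0 : ∀ k : ℕ, Measurable fun ω : Om =>
      lr a ε ((vc a true).Y k ∅ ω) ((vc a true).Y (k + 1) ∅ ω) := by
    intro k
    have h1 : Measurable fun ω : Om => ((vc a true).Y k ∅ ω, (vc a true).Y (k + 1) ∅ ω) :=
      ((vc a true).measurable_Yx k ∅).prodMk ((vc a true).measurable_Yx (k + 1) ∅)
    have h2 : Measurable fun p : St × St => lr a ε p.1 p.2 := measurable_of_countable _
    have h4 := h2.comp h1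
    simp only [Function.comp_def] at h4
    exact h4
  have h3 : Measurable fun ω : Om => ∏ k ∈ Finset.range n,
      lr a ε ((vc a true).Y k ∅ ω) ((vc a true).Y (k + 1) ∅ ω) :=
    Finset.measurable_prod _ fun k _ => h0 k
  have h5 : LRn a ε n = fun ω : Om => ∏ k ∈ Finset.range n,
      lr a ε ((vc a true).Y k ∅ ω) ((vc a true).Y (k + 1) ∅ ω) := by
    funext ω
    rw [LRn]
  rw [h5]
  exact h3

lemma cf_LRn_nonneg (hk : IsKernel a) (hc : mn a = 0) {ε : ℝ} (h1 : ε < 1) (n : ℕ) (ω : Om) :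
    0 ≤ LRn a ε n ω := by
  rw [cf_LRn hk hc h1]
  refine Finset.prod_nonneg fun k _ => ?_
  refine div_nonneg ?_ (by linarith)
  split_ifs <;> linarith

/-- transfer as an identity of laws -/
lemma cf_law (hk : IsKernel a) {V : VoterFam a} (c : Chains V) {ε : ℝ}
    (h0 : 0 < ε) (h1 : ε < 1) (n : ℕ) :
    (V.P ε).map (abs' (c.Z ε) (c.ξ ε) n) =
      (Pr.withDensity fun ω => ENNReal.ofReal (LRn a ε n ω)).map (can a n) := by
  have hZ := c.chain ε h0 h1
  refine Measure.ext_of_lintegral _ fun F hF => ?_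
  have h2 := lintegral_withDensity_eq_lintegral_mul Pr (cf_measurable_LRn (a := a) ε n).ennreal_ofReal
      (hF.comp (measurable_can (a := a) n))
  rw [lintegral_map hF (measurable_abs' hZ n), lintegral_map hF (measurable_can n),
    transfer hk h0.le h1 hZ n hF]
  exact h2.symm

theorem char_steps (hk : IsKernel a) (hc : mn a = 0) {V : VoterFam a} (c : Chains V) {ε : ℝ}
    (h0 : 0 < ε) (h1 : ε < 1) (n : ℕ) (u : ℕ → ℝ) :
    ∫ ω, Complex.exp ((∑ k ∈ Finset.range n, u k * ((c.S ε (k + 1) ω : ℝ) - c.S ε k ω) : ℝ) *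
      Complex.I) ∂(V.P ε) =
      ∏ k ∈ Finset.range n, (Complex.exp (-(u k) * Complex.I) +
        (1 - ε) * Complex.exp (u k * Complex.I)) / (2 - ε) := by
  have hZ := c.chain ε h0 h1
  set G : (ℕ → St) × (ℕ → ℝ) → ℂ := fun p => ∏ k ∈ Finset.range n,
    Complex.exp ((u k : ℂ) * ((cc (p.1 (k + 1)) - cc (p.1 k) : ℤ) : ℂ) * Complex.I) with hG
  have hGm : Measurable G := by
    refine Finset.measurable_prod _ fun k _ => ?_
    have h1 : Measurable fun p : (ℕ → St) × (ℕ → ℝ) => cc (p.1 (k + 1)) - cc (p.1 k) :=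
      ((measurable_of_countable cc).comp ((measurable_pi_apply (k + 1)).comp measurable_fst)).sub
        ((measurable_of_countable cc).comp ((measurable_pi_apply k).comp measurable_fst))
    exact (measurable_of_countable (fun d : ℤ =>
      Complex.exp ((u k : ℂ) * (d : ℂ) * Complex.I))).comp h1
  have e1 : ∀ ω, Complex.exp ((∑ k ∈ Finset.range n, u k * ((c.S ε (k + 1) ω : ℝ) -
      c.S ε k ω) : ℝ) * Complex.I) = G (abs' (c.Z ε) (c.ξ ε) n ω) := by
    intro ω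
    rw [hG]
    simp only
    rw [← Complex.exp_sum]
    congr 1
    push_cast
    rw [Finset.sum_mul]
    refine Finset.sum_congr rfl fun k hkn => ?_
    rw [Finset.mem_range] at hkn
    have i1 : (abs' (c.Z ε) (c.ξ ε) n ω).1 (k + 1) = mis (c.Z ε (k + 1) ω) := by
      simp only [abs', trS]
      rw [min_eq_left (by omega)]
    have i2 : (abs' (c.Z ε) (c.ξ ε) n ω).1 k = mis (c.Z ε k ω) := by
      simp only [abs', trS]
      rw [min_eq_left (by omega)]
    rw [i1, i2]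
    simp only [Chains.S]
  simp only [e1]
  rw [← integral_map (measurable_abs' hZ n).aemeasurable hGm.aestronglyMeasurable,
    cf_law hk c h0 h1 n,
    integral_map (measurable_can n).aemeasurable hGm.aestronglyMeasurable,
    integral_withDensity_eq_integral_toReal_smul (cf_measurable_LRn ε n).ennreal_ofReal
      (Eventually.of_forall fun ω => ENNReal.ofReal_lt_top)]
  obtain ⟨fs, hfs⟩ : ∃ fs : ℕ → ℤ → ℂ, fs = fun (k : ℕ) (d : ℤ) =>
        (((if d < 0 then 1 else 1 - ε) / (1 - ε / 2) : ℝ) : ℂ) *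
          Complex.exp ((u k : ℂ) * (d : ℂ) * Complex.I) := ⟨_, rfl⟩
  have e2 : ∀ ω : Om, (ENNReal.ofReal (LRn a ε n ω)).toReal • G (can a n ω) =
      ∏ k ∈ Finset.range n, fs k
        (cc ((vc a true).Y (k + 1) ∅ ω) - cc ((vc a true).Y k ∅ ω)) := by
    intro ω
    rw [hfs]
    rw [ENNReal.toReal_ofReal (cf_LRn_nonneg hk hc h1 n ω), cf_LRn hk hc h1, Complex.real_smul,
      Complex.ofReal_prod, Finset.prod_mul_distrib]
    congr 1
    rw [hG]
    refine Finset.prod_congr rfl fun k hkn => ?_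
    rw [Finset.mem_range] at hkn
    have i1 : (can a n ω).1 (k + 1) = (vc a true).Y (k + 1) ∅ ω := by
      simp only [can, trS]
      rw [min_eq_left (by omega)]
    have i2 : (can a n ω).1 k = (vc a true).Y k ∅ ω := by
      simp only [can, trS]
      rw [min_eq_left (by omega)]
    rw [i1, i2]
  simp only [e2]
  rw [cf_prod hk hc, hfs]
  refine Finset.prod_congr rfl fun k _ => ?_
  have h2 : (2 - ε : ℂ) ≠ 0 := by
    have : (2 - ε : ℝ) ≠ 0 := by linarith
    exact_mod_cast this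
  have h3 : (1 - ε / 2 : ℂ) ≠ 0 := by
    intro h
    apply h2
    linear_combination 2 * h
  norm_num
  field_simp
  ring


lemma cf_S_zero (hk : IsKernel a) {V : VoterFam a} (c : Chains V) {ε : ℝ}
    (h0 : 0 < ε) (h1 : ε < 1) : ∀ᵐ ω ∂(V.P ε), c.S ε 0 ω = 0 := by
  filter_upwards [ae_zero hk h0.le h1 (c.chain ε h0 h1)] with ω hω
  unfold Chains.S
  rw [hω]
  simp [cc]

/-- summation by parts -/
lemma cf_sum (s : Finset ℝ≥0) (θ : ℝ≥0 → ℝ) (n : ℝ≥0 → ℕ) (N : ℕ) (hN : ∀ t ∈ s, n t ≤ N)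
    (d : ℕ → ℝ) :
    ∑ k ∈ Finset.range N, (∑ t ∈ s, if k < n t then θ t else 0) * d k =
      ∑ t ∈ s, θ t * ∑ k ∈ Finset.range (n t), d k := by
  simp only [Finset.sum_mul]
  rw [Finset.sum_comm]
  refine Finset.sum_congr rfl fun t ht => ?_
  rw [Finset.mul_sum, ← Finset.sum_subset (Finset.range_subset_range.2 (hN t ht))]
  · refine Finset.sum_congr rfl fun k hkn => ?_
    rw [if_pos (Finset.mem_range.1 hkn)]
  · intro k _ hkn
    rw [Finset.mem_range] at hkn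
    rw [if_neg hkn, zero_mul]

lemma cf_sum_sq (s : Finset ℝ≥0) (θ : ℝ≥0 → ℝ) (n : ℝ≥0 → ℕ) (N : ℕ) (hN : ∀ t ∈ s, n t ≤ N) :
    ∑ k ∈ Finset.range N, (∑ t ∈ s, if k < n t then θ t else 0) ^ 2 =
      ∑ t ∈ s, ∑ r ∈ s, θ t * θ r * (min (n t) (n r) : ℕ) := by
  simp only [sq]
  rw [cf_sum s θ n N hN fun k => ∑ t ∈ s, if k < n t then θ t else 0]
  refine Finset.sum_congr rfl fun t _ => ?_
  rw [Finset.sum_comm, Finset.mul_sum]
  refine Finset.sum_congr rfl fun r _ => ?_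
  rw [mul_assoc]
  congr 1
  rw [← Finset.sum_filter, Finset.sum_const, nsmul_eq_mul, mul_comm]
  congr 2
  have : (Finset.range (n t)).filter (fun k => k < n r) = Finset.range (min (n t) (n r)) := by
    ext k
    simp
  rw [this, Finset.card_range]

theorem char_S (hk : IsKernel a) (hc : mn a = 0) {V : VoterFam a} (c : Chains V)
    (s : Finset ℝ≥0) (θ : ℝ≥0 → ℝ) :
    Tendsto (fun ε : ℝ => ∫ ω, Complex.exp ((∑ t ∈ s, θ t * (ε * c.S ε ⌊sg a * t / ε ^ 2⌋₊ ω) : ℝ) *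
      Complex.I) ∂(V.P ε)) (𝓝[>] 0)
      (𝓝 (Complex.exp (-(sg a / 2 * ∑ t ∈ s, ∑ r ∈ s, θ t * θ r * min (t : ℝ) r : ℝ) -
        (sg a / 2 * ∑ t ∈ s, θ t * t : ℝ) * Complex.I))) := by
  have hsg : 0 ≤ sg a := sb_sg_nonneg hk
  set nn : ℝ → ℝ≥0 → ℕ := fun ε t => ⌊sg a * t / ε ^ 2⌋₊ with hnn
  set N : ℝ → ℕ := fun ε => s.sup (nn ε) with hNdef
  have hN : ∀ ε, ∀ t ∈ s, nn ε t ≤ N ε := fun ε t ht => Finset.le_sup (f := nn ε) ht
  set u : ℝ → ℕ → ℝ := fun ε k => ∑ t ∈ s, if k < nn ε t then θ t else 0 with hu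
  set U : ℝ := ∑ t ∈ s, |θ t| with hU
  have huU : ∀ ε k, |u ε k| ≤ U := by
    intro ε k
    refine (Finset.abs_sum_le_sum_abs _ _).trans (Finset.sum_le_sum fun t _ => ?_)
    split_ifs
    · exact le_rfl
    · rw [abs_zero]
      exact abs_nonneg _
  have hU0 : 0 ≤ U := Finset.sum_nonneg fun t _ => abs_nonneg _
  -- the integral is a product
  have step1 : ∀ ε : ℝ, 0 < ε → ε < 1 →
      ∫ ω, Complex.exp ((∑ t ∈ s, θ t * (ε * c.S ε ⌊sg a * t / ε ^ 2⌋₊ ω) : ℝ) *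
        Complex.I) ∂(V.P ε) = ∏ k ∈ Finset.range (N ε), cfph ε (ε * u ε k) := by
    intro ε h0 h1
    have h2 := char_steps hk hc c h0 h1 (N ε) fun k => ε * u ε k
    have h3 : ∏ k ∈ Finset.range (N ε), cfph ε (ε * u ε k) =
        ∏ k ∈ Finset.range (N ε), (Complex.exp (-((ε * u ε k : ℝ) : ℂ) * Complex.I) +
          (1 - ε) * Complex.exp (((ε * u ε k : ℝ) : ℂ) * Complex.I)) / (2 - ε) := rfl
    rw [h3, ← h2]
    refine integral_congr_ae ?_
    filter_upwards [cf_S_zero hk c h0 h1] with ω hω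
    congr 3
    have h4 := cf_sum s θ (nn ε) (N ε) (hN ε) fun k =>
      ε * ((c.S ε (k + 1) ω : ℝ) - c.S ε k ω)
    have h5 : ∀ n : ℕ, ∑ k ∈ Finset.range n, ε * ((c.S ε (k + 1) ω : ℝ) - c.S ε k ω) =
        ε * c.S ε n ω := by
      intro n
      rw [← Finset.mul_sum, Finset.sum_range_sub (fun k => (c.S ε k ω : ℝ)), hω]
      simp
    simp only [h5] at h4
    rw [← h4]
    refine Finset.sum_congr rfl fun k _ => ?_
    simp only [hu]
    ring
  -- the Gaussian product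
  have step2 : ∀ ε : ℝ, ∏ k ∈ Finset.range (N ε), Complex.exp (cfz ε (u ε k)) =
      Complex.exp (-(1 / 2 * ∑ t ∈ s, ∑ r ∈ s, θ t * θ r *
          min (ε ^ 2 * (nn ε t : ℝ)) (ε ^ 2 * (nn ε r : ℝ)) : ℝ) -
        (1 / 2 * ∑ t ∈ s, θ t * (ε ^ 2 * (nn ε t : ℝ)) : ℝ) * Complex.I) := by
    intro ε
    rw [← Complex.exp_sum]
    congr 1
    unfold cfz
    rw [Finset.sum_add_distrib, ← Finset.sum_mul, ← Complex.ofReal_sum, ← Complex.ofReal_sum]
    have e1 : ∑ k ∈ Finset.range (N ε), -(ε ^ 2 * u ε k ^ 2 / 2) =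
        -(1 / 2 * ∑ t ∈ s, ∑ r ∈ s, θ t * θ r *
          min (ε ^ 2 * (nn ε t : ℝ)) (ε ^ 2 * (nn ε r : ℝ))) := by
      have h1 : ∀ k, -(ε ^ 2 * u ε k ^ 2 / 2) = -(1 / 2 * ε ^ 2) * u ε k ^ 2 := fun k => by ring
      simp only [h1]
      rw [← Finset.mul_sum, cf_sum_sq s θ (nn ε) (N ε) (hN ε), Finset.mul_sum, Finset.mul_sum,
        ← Finset.sum_neg_distrib]
      refine Finset.sum_congr rfl fun t _ => ?_
      rw [Finset.mul_sum, Finset.mul_sum, ← Finset.sum_neg_distrib]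
      refine Finset.sum_congr rfl fun r _ => ?_
      rw [← mul_min_of_nonneg _ _ (sq_nonneg ε), ← Nat.cast_min]
      ring
    have e2 : ∑ k ∈ Finset.range (N ε), -(ε ^ 2 * u ε k / 2) =
        -(1 / 2 * ∑ t ∈ s, θ t * (ε ^ 2 * (nn ε t : ℝ))) := by
      have h1 : ∀ k, -(ε ^ 2 * u ε k / 2) = u ε k * (-(1 / 2 * ε ^ 2)) := fun k => by ring
      simp only [h1]
      rw [cf_sum s θ (nn ε) (N ε) (hN ε), Finset.mul_sum, ← Finset.sum_neg_distrib]
      refine Finset.sum_congr rfl fun t _ => ?_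
      rw [Finset.sum_const, Finset.card_range, nsmul_eq_mul]
      ring
    rw [e1, e2]
    push_cast
    ring
  have hlim : ∀ t : ℝ≥0, Tendsto (fun ε : ℝ => ε ^ 2 * (nn ε t : ℝ)) (𝓝[>] 0) (𝓝 (sg a * t)) :=
    fun t => cf_floor (mul_nonneg hsg t.2)
  have step3 : Tendsto (fun ε : ℝ => ∏ k ∈ Finset.range (N ε), Complex.exp (cfz ε (u ε k)))
      (𝓝[>] 0) (𝓝 (Complex.exp (-(sg a / 2 * ∑ t ∈ s, ∑ r ∈ s, θ t * θ r * min (t : ℝ) r : ℝ) -
        (sg a / 2 * ∑ t ∈ s, θ t * t : ℝ) * Complex.I))) := by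
    simp only [step2]
    refine (Complex.continuous_exp.tendsto _).comp ?_
    refine Tendsto.sub (Tendsto.neg ((Complex.continuous_ofReal.tendsto _).comp ?_))
      (Tendsto.mul_const _ ((Complex.continuous_ofReal.tendsto _).comp ?_))
    · have e : sg a / 2 * ∑ t ∈ s, ∑ r ∈ s, θ t * θ r * min (t : ℝ) r =
          1 / 2 * ∑ t ∈ s, ∑ r ∈ s, θ t * θ r * min (sg a * t) (sg a * r) := by
        rw [Finset.mul_sum, Finset.mul_sum]
        refine Finset.sum_congr rfl fun t _ => ?_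
        rw [Finset.mul_sum, Finset.mul_sum]
        refine Finset.sum_congr rfl fun r _ => ?_
        rw [← mul_min_of_nonneg _ _ hsg]
        ring
      rw [e]
      refine Tendsto.const_mul _ (tendsto_finsetSum _ fun t _ => tendsto_finsetSum _ fun r _ => ?_)
      exact ((hlim t).min (hlim r)).const_mul _
    · have e : sg a / 2 * ∑ t ∈ s, θ t * (t : ℝ) = 1 / 2 * ∑ t ∈ s, θ t * (sg a * t) := by
        rw [Finset.mul_sum, Finset.mul_sum]
        refine Finset.sum_congr rfl fun t _ => ?_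
        ring
      rw [e]
      exact Tendsto.const_mul _ (tendsto_finsetSum _ fun t _ => (hlim t).const_mul _)
  -- the difference
  obtain ⟨T, hT0, hT⟩ : ∃ T : ℝ, 0 ≤ T ∧ ∀ t ∈ s, (t : ℝ) ≤ T :=
    ⟨∑ t ∈ s, (t : ℝ), Finset.sum_nonneg fun t _ => t.2,
      fun t ht => Finset.single_le_sum (f := fun t : ℝ≥0 => (t : ℝ)) (fun t _ => t.2) ht⟩
  have hNle : ∀ ε : ℝ, 0 < ε → (N ε : ℝ) * ε ^ 2 ≤ sg a * T := by
    intro ε h0
    have h2 : 0 < ε ^ 2 := by positivity
    rcases s.eq_empty_or_nonempty with hs | hs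
    · have : N ε = 0 := by rw [hNdef]; simp [hs]
      rw [this]
      simp
      positivity
    · obtain ⟨t, ht, hte⟩ := Finset.exists_mem_eq_sup s hs (nn ε)
      have : N ε = nn ε t := hte
      rw [this]
      have h3 := Nat.floor_le (show 0 ≤ sg a * t / ε ^ 2 from
        div_nonneg (mul_nonneg hsg t.2) h2.le)
      rw [le_div_iff₀ h2] at h3
      exact h3.trans (mul_le_mul_of_nonneg_left (hT t ht) hsg)
  have step4 : Tendsto (fun ε : ℝ => ∏ k ∈ Finset.range (N ε), cfph ε (ε * u ε k) -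
      ∏ k ∈ Finset.range (N ε), Complex.exp (cfz ε (u ε k))) (𝓝[>] 0) (𝓝 0) := by
    rw [tendsto_zero_iff_norm_tendsto_zero]
    have hb : Tendsto (fun ε : ℝ => sg a * T * (4 * (U + 1) ^ 4) * ε) (𝓝[>] 0) (𝓝 0) := by
      have : Tendsto (fun ε : ℝ => sg a * T * (4 * (U + 1) ^ 4) * ε) (𝓝 0)
          (𝓝 (sg a * T * (4 * (U + 1) ^ 4) * 0)) := (continuous_const.mul continuous_id).tendsto 0
      rw [mul_zero] at this
      exact this.mono_left nhdsWithin_le_nhds
    refine squeeze_zero' (Eventually.of_forall fun _ => norm_nonneg _) ?_ hb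
    have hev : ∀ᶠ ε : ℝ in 𝓝[>] 0, ε < min 1 (1 / (U + 1) ^ 2) := by
      have : 0 < min (1 : ℝ) (1 / (U + 1) ^ 2) := lt_min one_pos (by positivity)
      exact nhdsWithin_le_nhds (Iio_mem_nhds this)
    filter_upwards [self_mem_nhdsWithin, hev] with ε hε hε2
    have h0 : (0 : ℝ) < ε := hε
    have h1 : ε < 1 := lt_of_lt_of_le hε2 (min_le_left _ _)
    have h2 : ε * (U + 1) ^ 2 ≤ 1 := by
      have h3 := (lt_of_lt_of_le hε2 (min_le_right _ _)).le
      rwa [le_div_iff₀ (by positivity)] at h3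
    have h4 := cf_prod_diff (N ε) (fun k => cfph ε (ε * u ε k))
      (fun k => Complex.exp (cfz ε (u ε k))) (fun k => cf_ph_norm h0 h1 _)
      (fun k => cf_z_norm _ _) (c := 4 * (U + 1) ^ 4 * ε ^ 3) fun k => cf_diff h0 h1 (huU ε k) h2
    refine h4.trans ?_
    calc (N ε : ℝ) * (4 * (U + 1) ^ 4 * ε ^ 3) = ((N ε : ℝ) * ε ^ 2) * (4 * (U + 1) ^ 4) * ε := by
          ring
      _ ≤ sg a * T * (4 * (U + 1) ^ 4) * ε := by
          have := hNle ε h0
          gcongr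
  have step5 : Tendsto (fun ε : ℝ => ∏ k ∈ Finset.range (N ε), cfph ε (ε * u ε k))
      (𝓝[>] 0) (𝓝 (Complex.exp (-(sg a / 2 * ∑ t ∈ s, ∑ r ∈ s, θ t * θ r * min (t : ℝ) r : ℝ) -
        (sg a / 2 * ∑ t ∈ s, θ t * t : ℝ) * Complex.I))) := by
    have := step4.add step3
    simpa using this
  refine step5.congr' ?_
  have hev : ∀ᶠ ε : ℝ in 𝓝[>] 0, ε < 1 := nhdsWithin_le_nhds (Iio_mem_nhds one_pos)
  filter_upwards [self_mem_nhdsWithin, hev] with ε hε h1
  exact (step1 ε hε h1).symm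

lemma cf_exp_sub_le (x y : ℝ) :
    ‖Complex.exp ((x : ℂ) * Complex.I) - Complex.exp ((y : ℂ) * Complex.I)‖ ≤ |x - y| := by
  have h1 : Complex.exp ((x : ℂ) * Complex.I) - Complex.exp ((y : ℂ) * Complex.I) =
      Complex.exp ((y : ℂ) * Complex.I) * (Complex.exp (Complex.I * ((x - y : ℝ) : ℂ)) - 1) := by
    rw [mul_sub, ← Complex.exp_add, mul_one]
    congr 2
    push_cast
    ring
  rw [h1, norm_mul, Complex.norm_exp_ofReal_mul_I, one_mul]
  have := Real.norm_exp_I_mul_ofReal_sub_one_le (x := x - y)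
  rwa [Real.norm_eq_abs] at this

theorem char_Y (hk : IsKernel a) (hc : mn a = 0) (V : VoterFam a) (s : Finset ℝ≥0)
    (θ : ℝ≥0 → ℝ) :
    Tendsto (fun ε : ℝ => ∫ ω, Complex.exp ((∑ t ∈ s, θ t * (V.Y ε ω).1 t : ℝ) *
      Complex.I) ∂(V.P ε)) (𝓝[>] 0)
      (𝓝 (Complex.exp (-(sg a / 2 * ∑ t ∈ s, ∑ r ∈ s, θ t * θ r * min (t : ℝ) r : ℝ) -
        (sg a / 2 * ∑ t ∈ s, θ t * t : ℝ) * Complex.I))) := by
  obtain ⟨c⟩ := exists_chains V
  have hS := char_S hk hc c s θ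
  set A : (ε : ℝ) → V.Ω ε → ℝ := fun ε ω => ∑ t ∈ s, θ t * (V.Y ε ω).1 t with hA
  set B : (ε : ℝ) → V.Ω ε → ℝ := fun ε ω =>
    ∑ t ∈ s, θ t * (ε * c.S ε ⌊sg a * t / ε ^ 2⌋₊ ω) with hB
  set U : ℝ := ∑ t ∈ s, |θ t| with hU
  have hU0 : 0 ≤ U := Finset.sum_nonneg fun t _ => abs_nonneg _
  have hAm : ∀ ε, Measurable (A ε) := by
    intro ε
    refine Finset.measurable_sum _ fun t _ => Measurable.const_mul ?_ _
    exact (measurable_pi_apply t).comp (measurable_subtype_coe.comp (V.meas ε))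
  have hSm : ∀ ε, 0 < ε → ε < 1 → ∀ k, Measurable (c.S ε k) := by
    intro ε h0 h1 k
    exact (measurable_of_countable cc).comp (measurable_mis.comp ((c.chain ε h0 h1).measurable_Z k))
  have hBm : ∀ ε, 0 < ε → ε < 1 → Measurable (B ε) := by
    intro ε h0 h1
    refine Finset.measurable_sum _ fun t _ => Measurable.const_mul (Measurable.const_mul ?_ _) _
    exact (measurable_of_countable (fun z : ℤ => (z : ℝ))).comp (hSm ε h0 h1 _)
  have hint : ∀ ε, ∀ f : V.Ω ε → ℝ, Measurable f →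
      Integrable (fun ω => Complex.exp ((f ω : ℂ) * Complex.I)) (V.P ε) := by
    intro ε f hf
    refine Integrable.of_bound (C := 1) ?_ (Eventually.of_forall fun ω => ?_)
    · exact (Complex.measurable_exp.comp
        ((Complex.measurable_ofReal.comp hf).mul_const _)).aestronglyMeasurable
    · rw [Complex.norm_exp_ofReal_mul_I]
  have hdiff : Tendsto (fun ε : ℝ => ∫ ω, Complex.exp ((A ε ω : ℂ) * Complex.I) ∂(V.P ε) -
      ∫ ω, Complex.exp ((B ε ω : ℂ) * Complex.I) ∂(V.P ε)) (𝓝[>] 0) (𝓝 0) := by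
    rw [Metric.tendsto_nhds]
    intro δ hδ
    set κ : ℝ := δ / (2 * (U + 1)) with hκdef
    have hκ : 0 < κ := by positivity
    -- bad events
    have hbad : Tendsto (fun ε : ℝ => ∑ t ∈ s,
        V.P ε {ω | κ < |(V.Y ε ω).1 t - ε * c.S ε ⌊sg a * t / ε ^ 2⌋₊ ω|}) (𝓝[>] 0) (𝓝 0) := by
      have := tendsto_finsetSum s fun t (_ : t ∈ s) => close_fix hk hc c t hκ
      simpa using this
    have hbad2 : ∀ᶠ ε : ℝ in 𝓝[>] 0, ∑ t ∈ s,
        V.P ε {ω | κ < |(V.Y ε ω).1 t - ε * c.S ε ⌊sg a * t / ε ^ 2⌋₊ ω|} <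
          ENNReal.ofReal (δ / 5) := hbad.eventually_lt_const (by
            rw [ENNReal.ofReal_pos]; positivity)
    have hev : ∀ᶠ ε : ℝ in 𝓝[>] 0, ε < 1 := nhdsWithin_le_nhds (Iio_mem_nhds one_pos)
    filter_upwards [self_mem_nhdsWithin, hev, hbad2] with ε hε h1 hb
    have h0 : (0 : ℝ) < ε := hε
    rw [dist_zero_right, ← integral_sub (hint ε _ (hAm ε)) (hint ε _ (hBm ε h0 h1))]
    set E : Set (V.Ω ε) := ⋃ t ∈ s,
      {ω | κ < |(V.Y ε ω).1 t - ε * c.S ε ⌊sg a * t / ε ^ 2⌋₊ ω|} with hE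
    have hEm : MeasurableSet E := by
      refine Finset.measurableSet_biUnion _ fun t _ => ?_
      refine measurableSet_lt measurable_const ?_
      have m1 : Measurable fun ω => (V.Y ε ω).1 t :=
        (measurable_pi_apply t).comp (measurable_subtype_coe.comp (V.meas ε))
      have m2 : Measurable fun ω => ε * (c.S ε ⌊sg a * t / ε ^ 2⌋₊ ω : ℝ) :=
        ((measurable_of_countable (fun z : ℤ => (z : ℝ))).comp (hSm ε h0 h1 _)).const_mul _
      exact (m1.sub m2).abs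
    have hPE : (V.P ε).real E ≤ δ / 5 := by
      have h2 : V.P ε E ≤ ENNReal.ofReal (δ / 5) :=
        (measure_biUnion_finset_le s _).trans hb.le
      rw [measureReal_def]
      exact ENNReal.toReal_le_of_le_ofReal (by positivity) h2
    have hpt : ∀ ω, ‖Complex.exp ((A ε ω : ℂ) * Complex.I) -
        Complex.exp ((B ε ω : ℂ) * Complex.I)‖ ≤ U * κ + E.indicator (fun _ => (2 : ℝ)) ω := by
      intro ω
      by_cases hω : ω ∈ E
      · rw [Set.indicator_of_mem hω]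
        refine (norm_sub_le _ _).trans ?_
        rw [Complex.norm_exp_ofReal_mul_I, Complex.norm_exp_ofReal_mul_I]
        have : 0 ≤ U * κ := by positivity
        linarith
      · rw [Set.indicator_of_notMem hω, add_zero]
        refine (cf_exp_sub_le _ _).trans ?_
        have e : A ε ω - B ε ω = ∑ t ∈ s, θ t *
            ((V.Y ε ω).1 t - ε * c.S ε ⌊sg a * t / ε ^ 2⌋₊ ω) := by
          rw [hA, hB]
          simp only
          rw [← Finset.sum_sub_distrib]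
          exact Finset.sum_congr rfl fun t _ => by ring
        rw [e, hU, Finset.sum_mul]
        refine (Finset.abs_sum_le_sum_abs _ _).trans (Finset.sum_le_sum fun t ht => ?_)
        rw [abs_mul]
        refine mul_le_mul_of_nonneg_left ?_ (abs_nonneg _)
        by_contra hcon
        push Not at hcon
        exact hω (Set.mem_biUnion ht hcon)
    have hI : Integrable (fun ω => U * κ + E.indicator (fun _ => (2 : ℝ)) ω) (V.P ε) :=
      (integrable_const _).add ((integrable_const _).indicator hEm)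
    refine (norm_integral_le_of_norm_le hI (Eventually.of_forall hpt)).trans_lt ?_
    rw [integral_add (integrable_const _) ((integrable_const _).indicator hEm),
      integral_indicator_const _ hEm, integral_const, probReal_univ, one_smul, smul_eq_mul]
    have h3 : U * κ ≤ δ / 2 := by
      rw [hκdef, mul_div_assoc', div_le_iff₀ (by positivity)]
      nlinarith
    linarith
  have := hdiff.add hS
  simp only [zero_add] at this
  refine this.congr fun ε => ?_
  simp only [hA, hB]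
  ring

end H40.VM
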