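import Pool.Agent.H40.VM.RW

/-!
# Module MO: modulus of continuity of the centre along the jump chain

Only the law of the steps matters (`steps_law`: i.i.d. signs). Exponential maximal inequality by
induction with the first step decomposition of the product measure, and a union bound over blocks
of length `⌈η n⌉`.
-/

open MeasureTheory ProbabilityTheory Filter Topology
open scoped ENNReal NNReal unitInterval symmDiff

namespace H40.VM

open H40.Voter (IsKernel)

variable {a : ℤ → ℝ}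

namespace MO

/-- prepend a value -/
def cons (z : ℤ) (x : ℕ → ℤ) : ℕ → ℤ := fun k => Nat.casesOn k z x

@[simp] theorem cons_zero (z : ℤ) (x : ℕ → ℤ) : cons z x 0 = z := rfl

@[simp] theorem cons_succ (z : ℤ) (x : ℕ → ℤ) (k : ℕ) : cons z x (k + 1) = x k := rfl

theorem measurable_cons : Measurable (fun p : ℤ × (ℕ → ℤ) => cons p.1 p.2) := by
  refine measurable_pi_iff.2 fun k => ?_
  cases k with
  | zero => exact measurable_fst
  | succ k => exact (measurable_pi_apply k).comp measurable_snd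

theorem measurable_cons' (z : ℤ) : Measurable (cons z) := by
  refine measurable_pi_iff.2 fun k => ?_
  cases k with
  | zero => exact measurable_const
  | succ k => exact (measurable_pi_apply k)

/-- the law of the signs -/
noncomputable abbrev mu : Measure (ℕ → ℤ) := Measure.infinitePi fun _ : ℕ => rad

theorem map_cons : (rad.prod mu).map (fun p : ℤ × (ℕ → ℤ) => cons p.1 p.2) = mu := by
  refine Measure.eq_infinitePi (μ := fun _ : ℕ => rad) ?_
  intro s t ht
  rw [Measure.map_apply measurable_cons (MeasurableSet.pi s.countable_toSet fun i _ => ht i)]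
  classical
  obtain ⟨s', hs'⟩ : ∃ s' : Finset ℕ, ∀ k, k ∈ s' ↔ k + 1 ∈ s :=
    ⟨s.preimage Nat.succ Nat.succ_injective.injOn, fun k => Finset.mem_preimage⟩
  have h1 : (fun p : ℤ × (ℕ → ℤ) => cons p.1 p.2) ⁻¹' (Set.pi (s : Set ℕ) t) =
      (if 0 ∈ s then t 0 else Set.univ) ×ˢ
        Set.pi (s' : Set ℕ) (fun k => t (k + 1)) := by
    ext p
    simp only [Set.mem_preimage, Set.mem_pi, Finset.mem_coe, Set.mem_prod, hs']
    constructor
    · intro h
      refine ⟨?_, fun k hk => h (k + 1) hk⟩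
      split_ifs with h0
      · exact h 0 h0
      · trivial
    · rintro ⟨h0, h1⟩ k hk
      cases k with
      | zero => simpa [hk] using h0
      | succ k => exact h1 k hk
  rw [h1, Measure.prod_prod, Measure.infinitePi_pi _ (fun i _ => ht _)]
  have h2 : ∏ i ∈ s', rad (t (i + 1)) = ∏ i ∈ s.erase 0, rad (t i) := by
    refine Finset.prod_bij (fun i _ => i + 1) ?_ ?_ ?_ ?_
    · intro i hi
      simp [(hs' i).1 hi]
    · intro i _ j _ h
      simpa using h
    · intro b hb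
      rw [Finset.mem_erase] at hb
      obtain ⟨c, rfl⟩ := Nat.exists_eq_succ_of_ne_zero hb.1
      exact ⟨c, (hs' c).2 hb.2, rfl⟩
    · intro i _
      rfl
  rw [h2]
  split_ifs with h0
  · rw [Finset.mul_prod_erase s (fun i => rad (t i)) h0]
  · rw [measure_univ, one_mul, Finset.erase_eq_of_notMem h0]

theorem first_step {B : Set (ℕ → ℤ)} (hB : MeasurableSet B) :
    mu B = 2⁻¹ * mu {x | cons 1 x ∈ B} + 2⁻¹ * mu {x | cons (-1) x ∈ B} := by
  conv_lhs => rw [← map_cons]
  rw [Measure.map_apply measurable_cons hB,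
    Measure.prod_apply (measurable_cons hB)]
  rw [rad, lintegral_add_measure, lintegral_smul_measure, lintegral_smul_measure,
    lintegral_dirac, lintegral_dirac]
  rfl

theorem map_shift_one : mu.map (fun x (k : ℕ) => x (k + 1)) = mu := by
  have hm : Measurable (fun (x : ℕ → ℤ) (k : ℕ) => x (k + 1)) :=
    measurable_pi_iff.2 fun k => measurable_pi_apply _
  conv_lhs => rw [← map_cons]
  rw [Measure.map_map hm measurable_cons]
  have : ((fun (x : ℕ → ℤ) (k : ℕ) => x (k + 1)) ∘ fun p : ℤ × (ℕ → ℤ) => cons p.1 p.2) =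
      Prod.snd := by
    ext p k
    rfl
  rw [this, Measure.map_snd_prod, measure_univ, one_smul]

theorem map_shift (s : ℕ) : mu.map (fun x (k : ℕ) => x (s + k)) = mu := by
  induction s with
  | zero => simp
  | succ s ih =>
    have hm : Measurable (fun (x : ℕ → ℤ) (k : ℕ) => x (k + 1)) :=
      measurable_pi_iff.2 fun k => measurable_pi_apply _
    have hm2 : Measurable (fun (x : ℕ → ℤ) (k : ℕ) => x (s + k)) :=
      measurable_pi_iff.2 fun k => measurable_pi_apply _
    have h : (fun (x : ℕ → ℤ) (k : ℕ) => x (s + 1 + k)) =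
        (fun (x : ℕ → ℤ) (k : ℕ) => x (k + 1)) ∘ (fun (x : ℕ → ℤ) (k : ℕ) => x (s + k)) := by
      ext x k
      simp only [Function.comp]
      congr 1
      ring
    rw [h, ← Measure.map_map hm hm2, ih, map_shift_one]

theorem measurableSet_max (L : ℕ) (y b l : ℝ) :
    MeasurableSet {x : ℕ → ℤ | ∃ i ≤ L, b ≤ y + l * ((∑ k ∈ Finset.range i, x k : ℤ) : ℝ)} := by
  have : {x : ℕ → ℤ | ∃ i ≤ L, b ≤ y + l * ((∑ k ∈ Finset.range i, x k : ℤ) : ℝ)} =
      ⋃ i ∈ Finset.range (L + 1),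
        {x : ℕ → ℤ | b ≤ y + l * ((∑ k ∈ Finset.range i, x k : ℤ) : ℝ)} := by
    ext x
    simp only [Set.mem_ofPred_eq, Set.mem_iUnion, Finset.mem_range, exists_prop, Nat.lt_succ_iff]
  rw [this]
  refine Finset.measurableSet_biUnion _ fun i _ => ?_
  have h1 : Measurable fun x : ℕ → ℤ => ∑ k ∈ Finset.range i, x k :=
    Finset.measurable_sum _ fun k _ => measurable_pi_apply k
  have h2 : Measurable fun z : ℤ => y + l * (z : ℝ) := measurable_of_countable _
  exact measurableSet_le measurable_const (h2.comp h1)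

/-- exponential maximal inequality -/
theorem maximal (l b : ℝ) (L : ℕ) : ∀ y : ℝ,
    mu {x : ℕ → ℤ | ∃ i ≤ L, b ≤ y + l * ((∑ k ∈ Finset.range i, x k : ℤ) : ℝ)} ≤
      ENNReal.ofReal (Real.exp (y - b) * Real.cosh l ^ L) := by
  induction L with
  | zero =>
    intro y
    by_cases hy : b ≤ y
    · refine prob_le_one.trans ?_
      rw [← ENNReal.ofReal_one]
      refine ENNReal.ofReal_le_ofReal ?_
      simpa using hy
    · have : {x : ℕ → ℤ | ∃ i ≤ 0, b ≤ y + l * ((∑ k ∈ Finset.range i, x k : ℤ) : ℝ)} = ∅ := by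
        ext x
        simpa using hy
      rw [this]
      simp
  | succ L ih =>
    intro y
    by_cases hy : b ≤ y
    · refine prob_le_one.trans ?_
      rw [← ENNReal.ofReal_one]
      refine ENNReal.ofReal_le_ofReal ?_
      have h1 : 1 ≤ Real.exp (y - b) := Real.one_le_exp (by linarith)
      have h2 : 1 ≤ Real.cosh l ^ (L + 1) := one_le_pow₀ (Real.one_le_cosh l)
      nlinarith
    · rw [first_step (measurableSet_max _ _ _ _)]
      have key : ∀ z : ℤ, {x : ℕ → ℤ | cons z x ∈ {x : ℕ → ℤ | ∃ i ≤ L + 1,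
          b ≤ y + l * ((∑ k ∈ Finset.range i, x k : ℤ) : ℝ)}} ⊆
          {x : ℕ → ℤ | ∃ i ≤ L,
          b ≤ (y + l * z) + l * ((∑ k ∈ Finset.range i, x k : ℤ) : ℝ)} := by
        rintro z x ⟨i, hi, h⟩
        cases i with
        | zero => exact absurd (by simpa using h) hy
        | succ i =>
          refine ⟨i, by omega, ?_⟩
          rw [Finset.sum_range_succ'] at h
          simp only [cons_succ, cons_zero] at h
          push_cast at h ⊢
          linarith
      refine (add_le_add (mul_le_mul_right ((measure_mono (key 1)).trans (ih _)) _)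
        (mul_le_mul_right ((measure_mono (key (-1))).trans (ih _)) _)).trans ?_
      have h2 : (2 : ℝ≥0∞)⁻¹ = ENNReal.ofReal (2⁻¹) := by
        rw [ENNReal.ofReal_inv_of_pos (by norm_num)]
        simp
      rw [h2, ← ENNReal.ofReal_mul (by norm_num), ← ENNReal.ofReal_mul (by norm_num),
        ← ENNReal.ofReal_add (by positivity) (by positivity)]
      refine ENNReal.ofReal_le_ofReal (le_of_eq ?_)
      have e1 : Real.exp (y + l * ((1 : ℤ) : ℝ) - b) = Real.exp (y - b) * Real.exp l := by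
        rw [← Real.exp_add]; push_cast; ring_nf
      have e2 : Real.exp (y + l * ((-1 : ℤ) : ℝ) - b) = Real.exp (y - b) * Real.exp (-l) := by
        rw [← Real.exp_add]; push_cast; ring_nf
      rw [e1, e2, pow_succ, Real.cosh_eq l]
      ring

theorem maximal_abs (L : ℕ) (hL : 0 < L) {b : ℝ} (hb : 0 < b) :
    mu {x : ℕ → ℤ | ∃ i ≤ L, b ≤ |((∑ k ∈ Finset.range i, x k : ℤ) : ℝ)|} ≤
      ENNReal.ofReal (2 * Real.exp (-(b ^ 2 / (2 * L)))) := by
  have hL' : (0 : ℝ) < L := by exact_mod_cast hL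
  set l : ℝ := b / L with hl
  have hlpos : 0 < l := by positivity
  have hsub : {x : ℕ → ℤ | ∃ i ≤ L, b ≤ |((∑ k ∈ Finset.range i, x k : ℤ) : ℝ)|} ⊆
      {x : ℕ → ℤ | ∃ i ≤ L, l * b ≤ 0 + l * ((∑ k ∈ Finset.range i, x k : ℤ) : ℝ)} ∪
      {x : ℕ → ℤ | ∃ i ≤ L, l * b ≤ 0 + (-l) * ((∑ k ∈ Finset.range i, x k : ℤ) : ℝ)} := by
    rintro x ⟨i, hi, h⟩
    rcases le_abs.1 h with h | h
    · left
      refine ⟨i, hi, ?_⟩
      rw [zero_add]
      exact mul_le_mul_of_nonneg_left h hlpos.le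
    · right
      refine ⟨i, hi, ?_⟩
      rw [zero_add, neg_mul, ← mul_neg]
      exact mul_le_mul_of_nonneg_left h hlpos.le
  refine (measure_mono hsub).trans ((measure_union_le _ _).trans ?_)
  refine (add_le_add (maximal _ _ _ _) (maximal _ _ _ _)).trans ?_
  rw [← ENNReal.ofReal_add (by positivity) (by positivity)]
  refine ENNReal.ofReal_le_ofReal ?_
  rw [Real.cosh_neg]
  have h1 : Real.cosh l ^ L ≤ Real.exp (l ^ 2 / 2 * L) := by
    calc Real.cosh l ^ L ≤ Real.exp (l ^ 2 / 2) ^ L :=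
          pow_le_pow_left₀ (Real.cosh_pos l).le (Real.cosh_le_exp_half_sq l) L
      _ = Real.exp (l ^ 2 / 2 * L) := by rw [← Real.exp_nat_mul]; ring_nf
  have h2 : Real.exp (0 - l * b) * Real.exp (l ^ 2 / 2 * L) = Real.exp (-(b ^ 2 / (2 * L))) := by
    rw [← Real.exp_add]
    congr 1
    rw [hl]
    field_simp
    ring
  have h3 : Real.exp (0 - l * b) * Real.cosh l ^ L ≤ Real.exp (-(b ^ 2 / (2 * L))) := by
    rw [← h2]
    exact mul_le_mul_of_nonneg_left h1 (Real.exp_pos _).le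
  linarith

/-- the event in terms of the steps -/
def bad (κ K η n : ℝ) : Set (ℕ → ℤ) :=
  {x | ∃ i j : ℕ, (i : ℝ) ≤ K * n ∧ (j : ℝ) ≤ K * n ∧ |(i : ℝ) - j| ≤ η * n ∧
    κ * √n < |((∑ k ∈ Finset.range i, x k : ℤ) : ℝ) - ((∑ k ∈ Finset.range j, x k : ℤ) : ℝ)|}

theorem measurableSet_bad (κ K η n : ℝ) : MeasurableSet (bad κ K η n) := by
  have : bad κ K η n = ⋃ i : ℕ, ⋃ j : ℕ, {x : ℕ → ℤ | (i : ℝ) ≤ K * n ∧ (j : ℝ) ≤ K * n ∧
      |(i : ℝ) - j| ≤ η * n ∧ κ * √n <
        |((∑ k ∈ Finset.range i, x k : ℤ) : ℝ) - ((∑ k ∈ Finset.range j, x k : ℤ) : ℝ)|} := by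
    ext x
    simp only [bad, Set.mem_ofPred_eq, Set.mem_iUnion]
  rw [this]
  refine MeasurableSet.iUnion fun i => MeasurableSet.iUnion fun j => ?_
  have h1 : ∀ i : ℕ, Measurable fun x : ℕ → ℤ => ∑ k ∈ Finset.range i, x k := fun i =>
    Finset.measurable_sum _ fun k _ => measurable_pi_apply k
  have h2 : Measurable fun z : ℤ × ℤ => |(z.1 : ℝ) - (z.2 : ℝ)| := measurable_of_countable _
  have h3 : Measurable fun x : ℕ → ℤ =>
      |((∑ k ∈ Finset.range i, x k : ℤ) : ℝ) - ((∑ k ∈ Finset.range j, x k : ℤ) : ℝ)| :=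
    h2.comp ((h1 i).prodMk (h1 j))
  exact (MeasurableSet.const _).inter ((MeasurableSet.const _).inter
    ((MeasurableSet.const _).inter (measurableSet_lt measurable_const h3)))

theorem bad_subset {κ K η n : ℝ} (L : ℕ) (hL : 0 < L) (hLn : η * n ≤ L) :
    bad κ K η n ⊆ ⋃ q ∈ Finset.range (⌊K * n⌋₊ / L + 1),
      {x : ℕ → ℤ | ∃ r ≤ 2 * L, κ * √n / 2 ≤
        |((∑ k ∈ Finset.range r, x (q * L + k) : ℤ) : ℝ)|} := by
  -- it suffices to treat `i ≤ j`
  have main : ∀ (x : ℕ → ℤ) (i j : ℕ), i ≤ j → (i : ℝ) ≤ K * n → |(i : ℝ) - j| ≤ η * n →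
      κ * √n < |((∑ k ∈ Finset.range i, x k : ℤ) : ℝ) - ((∑ k ∈ Finset.range j, x k : ℤ) : ℝ)| →
      ∃ q < ⌊K * n⌋₊ / L + 1, ∃ r ≤ 2 * L, κ * √n / 2 ≤
        |((∑ k ∈ Finset.range r, x (q * L + k) : ℤ) : ℝ)| := by
    intro x i j hij hi hd h
    have hiK : i ≤ ⌊K * n⌋₊ := Nat.le_floor hi
    have hjL : j ≤ i + L := by
      have : (j : ℝ) ≤ i + L := by
        have := (abs_le.1 (hd.trans hLn)).1
        linarith
      exact_mod_cast this
    have hq1 : i / L * L ≤ i := Nat.div_mul_le_self i L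
    have hq2 : i < i / L * L + L := Nat.lt_div_mul_add hL
    have hqd : i / L ≤ ⌊K * n⌋₊ / L := Nat.div_le_div_right hiK
    set q := i / L with hq
    refine ⟨q, by omega, ?_⟩
    obtain ⟨r1, hr1⟩ := Nat.exists_eq_add_of_le hq1
    obtain ⟨r2, hr2⟩ := Nat.exists_eq_add_of_le (hq1.trans hij)
    have hs : ∀ r, ∑ k ∈ Finset.range (q * L + r), x k =
        ∑ k ∈ Finset.range (q * L), x k + ∑ k ∈ Finset.range r, x (q * L + k) := fun r =>
      Finset.sum_range_add _ _ _
    rw [hr1, hr2, hs, hs] at h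
    by_contra hcon
    push Not at hcon
    have c1 := hcon r1 (by omega)
    have c2 := hcon r2 (by omega)
    push_cast at h c1 c2
    rw [add_sub_add_left_eq_sub] at h
    have := abs_sub (∑ k ∈ Finset.range r1, (x (q * L + k) : ℝ))
      (∑ k ∈ Finset.range r2, (x (q * L + k) : ℝ))
    linarith
  rintro x ⟨i, j, hi, hj, hd, h⟩
  simp only [Set.mem_iUnion, Finset.mem_range, Set.mem_ofPred_eq, exists_prop]
  rcases le_total i j with hij | hij
  · exact main x i j hij hi hd h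
  · exact main x j i hij hj (by rwa [abs_sub_comm]) (by rwa [abs_sub_comm])

theorem mu_bad_le {κ K η n : ℝ} (hκ : 0 < κ) (hK : 0 < K) (hη : 0 < η) (hn : 0 < n)
    (hn1 : 1 ≤ η * n) :
    mu (bad κ K η n) ≤ ENNReal.ofReal ((K / η + 1) * (2 * Real.exp (-(κ ^ 2 / (32 * η))))) := by
  set L : ℕ := ⌈η * n⌉₊ with hLdef
  have hL1 : η * n ≤ L := Nat.le_ceil _
  have hL2 : (L : ℝ) ≤ 2 * (η * n) := by
    have := Nat.ceil_lt_add_one (show (0 : ℝ) ≤ η * n by linarith)
    rw [← hLdef] at this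
    linarith
  have hLpos : 0 < L := by
    have : (0 : ℝ) < L := by linarith
    exact_mod_cast this
  have hLpos' : (0 : ℝ) < L := by exact_mod_cast hLpos
  refine (measure_mono (bad_subset L hLpos hL1)).trans ?_
  refine (measure_biUnion_finset_le _ _).trans ?_
  have hb : 0 < κ * √n / 2 := by positivity
  have hone : ∀ q ∈ Finset.range (⌊K * n⌋₊ / L + 1),
      mu {x : ℕ → ℤ | ∃ r ≤ 2 * L, κ * √n / 2 ≤
        |((∑ k ∈ Finset.range r, x (q * L + k) : ℤ) : ℝ)|} ≤
      ENNReal.ofReal (2 * Real.exp (-(κ ^ 2 / (32 * η)))) := by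
    intro q _
    have hm2 : Measurable (fun (x : ℕ → ℤ) (k : ℕ) => x (q * L + k)) :=
      measurable_pi_iff.2 fun k => measurable_pi_apply _
    have hms : MeasurableSet {x : ℕ → ℤ | ∃ i ≤ 2 * L, κ * √n / 2 ≤
        |((∑ k ∈ Finset.range i, x k : ℤ) : ℝ)|} := by
      have : {x : ℕ → ℤ | ∃ i ≤ 2 * L, κ * √n / 2 ≤
          |((∑ k ∈ Finset.range i, x k : ℤ) : ℝ)|} =
          ⋃ i ∈ Finset.range (2 * L + 1), {x : ℕ → ℤ | κ * √n / 2 ≤
            |((∑ k ∈ Finset.range i, x k : ℤ) : ℝ)|} := by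
        ext x
        simp only [Set.mem_ofPred_eq, Set.mem_iUnion, Finset.mem_range, exists_prop,
          Nat.lt_succ_iff]
      rw [this]
      refine Finset.measurableSet_biUnion _ fun i _ => ?_
      have h1 : Measurable fun x : ℕ → ℤ => ∑ k ∈ Finset.range i, x k :=
        Finset.measurable_sum _ fun k _ => measurable_pi_apply k
      have h2 : Measurable fun z : ℤ => |(z : ℝ)| := measurable_of_countable _
      exact measurableSet_le measurable_const (h2.comp h1)
    have e : mu {x : ℕ → ℤ | ∃ r ≤ 2 * L, κ * √n / 2 ≤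
        |((∑ k ∈ Finset.range r, x (q * L + k) : ℤ) : ℝ)|} =
        mu {x : ℕ → ℤ | ∃ r ≤ 2 * L, κ * √n / 2 ≤
        |((∑ k ∈ Finset.range r, x k : ℤ) : ℝ)|} := by
      conv_rhs => rw [← map_shift (q * L)]
      rw [Measure.map_apply hm2 hms]
      rfl
    rw [e]
    refine (maximal_abs (2 * L) (by omega) hb).trans ?_
    refine ENNReal.ofReal_le_ofReal ?_
    have hexp : κ ^ 2 / (32 * η) ≤ (κ * √n / 2) ^ 2 / (2 * ((2 * L : ℕ) : ℝ)) := by
      push_cast
      rw [div_pow, mul_pow, Real.sq_sqrt hn.le, div_le_div_iff₀ (by positivity) (by positivity)]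
      have : κ ^ 2 * (4 * (L : ℝ)) ≤ κ ^ 2 * (4 * (2 * (η * n))) := by
        have := sq_nonneg κ
        nlinarith
      nlinarith
    have := Real.exp_le_exp.2 (neg_le_neg hexp)
    linarith
  refine (Finset.sum_le_sum hone).trans ?_
  rw [Finset.sum_const, Finset.card_range, nsmul_eq_mul,
    ENNReal.ofReal_mul (p := K / η + 1) (by positivity)]
  have h0 : ((⌊K * n⌋₊ / L + 1 : ℕ) : ℝ≥0∞) ≤ ENNReal.ofReal (K / η + 1) := by
    rw [← ENNReal.ofReal_natCast]
    refine ENNReal.ofReal_le_ofReal ?_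
    push_cast
    have h1 : ((⌊K * n⌋₊ / L : ℕ) : ℝ) ≤ (⌊K * n⌋₊ : ℝ) / L := Nat.cast_div_le
    have h2 : (⌊K * n⌋₊ : ℝ) ≤ K * n := Nat.floor_le (by positivity)
    have h3 : (⌊K * n⌋₊ : ℝ) / L ≤ K / η := by
      rw [div_le_div_iff₀ hLpos' hη]
      nlinarith
    linarith
  exact mul_le_mul_left h0 _

theorem exists_eta {κ K δ : ℝ} (hκ : 0 < κ) (hδ : 0 < δ) :
    ∃ η : ℝ, 0 < η ∧ (K / η + 1) * (2 * Real.exp (-(κ ^ 2 / (32 * η)))) ≤ δ := by
  have h1 : Tendsto (fun t : ℝ => (K * t + 1) * (2 * Real.exp (-(κ ^ 2 / 32) * t))) atTop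
      (𝓝 0) := by
    have c : 0 < κ ^ 2 / 32 := by positivity
    have e1 : Tendsto (fun t : ℝ => t ^ 1 * Real.exp (-(κ ^ 2 / 32) * t)) atTop (𝓝 0) := by
      have := Real.tendsto_pow_mul_exp_neg_atTop_nhds_zero 1
      have h2 : Tendsto (fun t : ℝ => (κ ^ 2 / 32) * t) atTop atTop :=
        tendsto_id.const_mul_atTop c
      have h3 := (this.comp h2).const_mul ((κ ^ 2 / 32)⁻¹)
      rw [mul_zero] at h3
      refine h3.congr fun t => ?_
      simp only [Function.comp, pow_one]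
      field_simp
    have e0 : Tendsto (fun t : ℝ => Real.exp (-(κ ^ 2 / 32) * t)) atTop (𝓝 0) := by
      refine Real.tendsto_exp_atBot.comp ?_
      exact tendsto_id.const_mul_atTop_of_neg (by linarith)
    have := ((e1.const_mul (2 * K)).add (e0.const_mul 2))
    rw [mul_zero, mul_zero, add_zero] at this
    refine this.congr fun t => ?_
    ring
  obtain ⟨t, ht, ht0⟩ := ((h1.eventually_le_const hδ).and (eventually_gt_atTop 0)).exists
  refine ⟨t⁻¹, inv_pos.2 ht0, ?_⟩
  have e1 : K / t⁻¹ = K * t := by rw [div_inv_eq_mul]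
  have e2 : -(κ ^ 2 / (32 * t⁻¹)) = -(κ ^ 2 / 32) * t := by field_simp
  rw [e1, e2]
  exact ht

end MO

/-- modulus of continuity of the centre along the jump chain -/
theorem modulus (hk : IsKernel a) (hc : mn a = 0) (m : St) {κ K δ : ℝ} (hκ : 0 < κ) (hK : 0 < K)
    (hδ : 0 < δ) :
    ∃ η : ℝ, 0 < η ∧ ∀ᶠ n : ℝ in atTop,
      Pr {ω | ∃ i j : ℕ, (i : ℝ) ≤ K * n ∧ (j : ℝ) ≤ K * n ∧ |(i : ℝ) - j| ≤ η * n ∧
        κ * √n < |(cc ((vc a true).Y i m ω) : ℝ) - cc ((vc a true).Y j m ω)|} ≤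
      ENNReal.ofReal δ := by
  obtain ⟨η, hη, hle⟩ := MO.exists_eta (K := K) hκ hδ
  refine ⟨η, hη, ?_⟩
  filter_upwards [eventually_gt_atTop 0, eventually_ge_atTop (1 / η)] with n hn hn1
  have hn1' : 1 ≤ η * n := by
    rw [div_le_iff₀ hη] at hn1
    linarith
  have hmap := steps_law hk hc m
  have hae : AEMeasurable (fun ω (k : ℕ) => cc ((vc a true).Y (k + 1) m ω) -
      cc ((vc a true).Y k m ω)) Pr := by
    refine AEMeasurable.of_map_ne_zero ?_
    rw [hmap]
    exact NeZero.ne _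
  have hset : {ω | ∃ i j : ℕ, (i : ℝ) ≤ K * n ∧ (j : ℝ) ≤ K * n ∧ |(i : ℝ) - j| ≤ η * n ∧
        κ * √n < |(cc ((vc a true).Y i m ω) : ℝ) - cc ((vc a true).Y j m ω)|} =
      (fun ω (k : ℕ) => cc ((vc a true).Y (k + 1) m ω) - cc ((vc a true).Y k m ω)) ⁻¹'
        MO.bad κ K η n := by
    ext ω
    simp only [MO.bad, Set.mem_ofPred_eq, Set.mem_preimage]
    have hs : ∀ i : ℕ, ∑ k ∈ Finset.range i,
        (cc ((vc a true).Y (k + 1) m ω) - cc ((vc a true).Y k m ω)) =
        cc ((vc a true).Y i m ω) - cc ((vc a true).Y 0 m ω) := fun i =>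
      Finset.sum_range_sub (fun k => cc ((vc a true).Y k m ω)) i
    simp only [hs, Int.cast_sub, sub_sub_sub_cancel_right]
  rw [hset, ← Measure.map_apply_of_aemeasurable hae (MO.measurableSet_bad _ _ _ _), hmap]
  exact (MO.mu_bad_le hκ hK hη hn hn1').trans (ENNReal.ofReal_le_ofReal hle)

end H40.VM
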