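import Pool.Agent.H40.VM.TRb
import Pool.Agent.H40.VM.MO

/-!
# Module CLa: from the rescaled interface to the jump chain (infrastructure)

Let `Z, ξ` be the jump chain and the clocks of the biased voter model (`IsVoterProcess`) and
`S k ω = cc (mis (Z k ω))`. Centred kernels: `totalRate = (1 - ε/2) tot` on the class of states
(`totalRate_cf`, `ae_class`), so `jumpTime = T0/(1 - ε/2)`.
`Y_close`: by `hold`, `interface` and `low_cc` (the leftmost one is at most the centre).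
`tendsto_P_of_Pr`: `P_le` with `(1+ε²)^n ≤ exp (K + 1)` for `n ≤ K/ε² + 1`, `ε ≤ 1/2`.
`modulus_P`: `modulus` (at `n = 1/ε²`, `K = sg T₀ + 1`) and `P_le`
(note `ε ^ 2 ⌊sg t/ε²⌋ ≈ sg t`), choosing `δ` in `modulus` so small that `√(exp (K+1)) √δ' ≤ δ`.
-/

open MeasureTheory ProbabilityTheory Filter Topology
open scoped ENNReal NNReal unitInterval symmDiff

namespace H40.VM

open H40.Voter (IsKernel IsVoterChain IsVoterProcess VoterFam SkoD jumpTime Config)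

variable {a : ℤ → ℝ}

/-- a choice of jump chains and clocks for a family of voter models -/
structure Chains (V : VoterFam a) where
  Z : ∀ ε, ℕ → V.Ω ε → Config
  ξ : ∀ ε, ℕ → V.Ω ε → ℝ
  chain : ∀ ε, 0 < ε → ε < 1 → IsVoterChain (V.P ε) a ε (Z ε) (ξ ε)
  hold : ∀ ε, 0 < ε → ε < 1 → ∀ᵐ ω ∂(V.P ε), ∀ (n : ℕ) (t : ℝ≥0),
      jumpTime a ε (Z ε) (ξ ε) n ω ≤ t → t < jumpTime a ε (Z ε) (ξ ε) (n + 1) ω →
        V.X ε t ω = Z ε n ω

theorem exists_chains (V : VoterFam a) : Nonempty (Chains V) := by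
  have h : ∀ ε : ℝ, ∃ (Z : ℕ → V.Ω ε → Config) (ξ : ℕ → V.Ω ε → ℝ),
      (0 < ε → ε < 1 → IsVoterChain (V.P ε) a ε Z ξ) ∧
      (0 < ε → ε < 1 → ∀ᵐ ω ∂(V.P ε), ∀ (n : ℕ) (t : ℝ≥0),
        jumpTime a ε Z ξ n ω ≤ t → t < jumpTime a ε Z ξ (n + 1) ω → V.X ε t ω = Z n ω) := by
    intro ε
    by_cases hε : 0 < ε ∧ ε < 1
    · obtain ⟨Z, ξ, h1, h2⟩ := V.voter ε hε.1 hε.2
      exact ⟨Z, ξ, fun _ _ => h1, fun _ _ => h2⟩
    · exact ⟨fun _ _ _ => false, fun _ _ => 0, fun h0 h1 => absurd ⟨h0, h1⟩ hε,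
        fun h0 h1 => absurd ⟨h0, h1⟩ hε⟩
  choose Z ξ h1 h2 using h
  exact ⟨⟨Z, ξ, h1, h2⟩⟩

/-- the centre after `k` jumps -/
noncomputable def Chains.S {V : VoterFam a} (c : Chains V) (ε : ℝ) (k : ℕ) (ω : V.Ω ε) : ℤ :=
  cc (mis (c.Z ε k ω))

/-- the (unbiased) jump times computed from the abstract chain -/
noncomputable def Chains.T0 {V : VoterFam a} (c : Chains V) (ε : ℝ) (k : ℕ) (ω : V.Ω ε) : ℝ :=
  ∑ i ∈ Finset.range k, c.ξ ε i ω / tot a true (mis (c.Z ε i ω))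

theorem jumpTime_eq (hk : IsKernel a) (hc : mn a = 0) {V : VoterFam a} (c : Chains V) {ε : ℝ}
    (h0 : 0 < ε) (h1 : ε < 1) :
    ∀ᵐ ω ∂(V.P ε), ∀ k, jumpTime a ε (c.Z ε) (c.ξ ε) k ω = c.T0 ε k ω / (1 - ε / 2) := by
  filter_upwards [ae_class hk h0.le h1 (c.chain ε h0 h1)] with ω hω k
  unfold jumpTime Chains.T0
  rw [Finset.sum_div]
  refine Finset.sum_congr rfl fun i _ => ?_
  have h2 : H40.Voter.totalRate a ε (c.Z ε i ω) =
      tot a true (mis (c.Z ε i ω)) * (1 - ε / 2) := by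
    conv_lhs => rw [(hω i).1]
    rw [totalRate_cf hk]
    unfold qe
    rw [hc]
    ring
  rw [h2, div_div]

/-- the value of the rescaled interface while the chain is in its `k`-th state -/
theorem Y_close (hk : IsKernel a) (hc : mn a = 0) {V : VoterFam a} (c : Chains V) {ε : ℝ}
    (h0 : 0 < ε) (h1 : ε < 1) :
    ∀ᵐ ω ∂(V.P ε), ∀ (k : ℕ) (t : ℝ≥0) (d : ℝ), c.T0 ε k ω ≤ (1 - ε / 2) * (t / ε ^ 2) →
      (1 - ε / 2) * (t / ε ^ 2) < c.T0 ε (k + 1) ω →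
      ¬ low true (mis (c.Z ε k ω)) ((c.S ε k ω : ℝ) - d) →
      |(V.Y ε ω).1 t - ε * c.S ε k ω| ≤ ε * d := by
  filter_upwards [ae_class hk h0.le h1 (c.chain ε h0 h1), jumpTime_eq hk hc c h0 h1,
    c.hold ε h0 h1, V.interface ε h0 h1] with ω h2 h3 h4 h5 k t d h6 h7 h8
  have hpos : 0 < 1 - ε / 2 := by linarith
  have ht : ((t / (ε ^ 2).toNNReal : ℝ≥0) : ℝ) = t / ε ^ 2 := by
    rw [NNReal.coe_div, Real.coe_toNNReal _ (sq_nonneg ε)]
  have h9 : V.X ε (t / (ε ^ 2).toNNReal) ω = c.Z ε k ω := by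
    refine h4 k (t / (ε ^ 2).toNNReal) ?_ ?_
    · rw [h3, ht, div_le_iff₀ hpos]
      linarith
    · rw [h3, ht, lt_div_iff₀ hpos]
      linarith
  obtain ⟨i, hi, hY⟩ := h5 t
  rw [h9] at hi
  set m : St := mis (c.Z ε k ω) with hm
  have hZ : c.Z ε k ω = cf true m := (h2 k).1
  rw [hZ] at hi
  have hi1 : cf true m i = true := hi.1
  have hS : c.S ε k ω = cc m := rfl
  have h10 : ((cc m : ℤ) : ℝ) - d < i := by
    by_contra hcon
    exact h8 ⟨i, by rw [hS]; exact not_lt.1 hcon, hi1⟩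
  have h11 : (i : ℝ) ≤ cc m := by
    obtain ⟨j, hj1, hj2⟩ := low_cc m
    have : i ≤ j := hi.2 hj2
    have : (i : ℝ) ≤ j := by exact_mod_cast this
    linarith
  rw [hY, hS, ← mul_sub, abs_mul, abs_of_pos h0]
  refine mul_le_mul_of_nonneg_left ?_ h0.le
  rw [abs_le]
  constructor <;> linarith

/-- the factor in `P_le` -/
lemma cla_factor {K ε : ℝ} {n : ℕ} (h0 : 0 < ε) (h1 : ε ≤ 1 / 2)
    (hn : (n : ℝ) ≤ K / ε ^ 2 + 1) : (1 + ε ^ 2) ^ n ≤ Real.exp (K + 1) := by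
  have h2 : 1 + ε ^ 2 ≤ Real.exp (ε ^ 2) := by
    have := Real.add_one_le_exp (ε ^ 2)
    linarith
  calc (1 + ε ^ 2) ^ n ≤ (Real.exp (ε ^ 2)) ^ n := pow_le_pow_left₀ (by positivity) h2 n
    _ = Real.exp (n * ε ^ 2) := by rw [← Real.exp_nat_mul]
    _ ≤ Real.exp (K + 1) := by
      apply Real.exp_le_exp.2
      have hε : 0 < ε ^ 2 := by positivity
      have h3 : (n : ℝ) * ε ^ 2 ≤ (K / ε ^ 2 + 1) * ε ^ 2 := mul_le_mul_of_nonneg_right hn hε.le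
      have h4 : (K / ε ^ 2 + 1) * ε ^ 2 = K + ε ^ 2 := by field_simp
      nlinarith

lemma cla_P_le (hk : IsKernel a) {V : VoterFam a} (c : Chains V) {K ε : ℝ} {n : ℕ} (h0 : 0 < ε)
    (h1 : ε ≤ 1 / 2) (hn : (n : ℝ) ≤ K / ε ^ 2 + 1) {S : Set ((ℕ → St) × (ℕ → ℝ))}
    (hS : MeasurableSet S) :
    V.P ε (abs' (c.Z ε) (c.ξ ε) n ⁻¹' S) ≤
      ENNReal.ofReal (√(Real.exp (K + 1))) * (Pr (can a n ⁻¹' S)) ^ (1 / 2 : ℝ) := by
  refine (P_le hk h0.le h1 (c.chain ε h0 (by linarith)) n hS).trans ?_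
  exact mul_le_mul_left (ENNReal.ofReal_le_ofReal (Real.sqrt_le_sqrt (cla_factor h0 h1 hn))) _

lemma cla_ev_small {b : ℝ} (hb : 0 < b) : ∀ᶠ ε : ℝ in 𝓝[>] 0, 0 < ε ∧ ε ≤ b := by
  filter_upwards [self_mem_nhdsWithin, nhdsWithin_le_nhds (Iic_mem_nhds hb)] with ε h1 h2
  exact ⟨h1, h2⟩

/-- events of small probability for the first `n ≤ K/ε² + 1` jumps of the unbiased chain have
small probability under the biased laws -/
theorem tendsto_P_of_Pr (hk : IsKernel a) {V : VoterFam a} (c : Chains V) {K : ℝ} (hK : 0 ≤ K)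
    {n : ℝ → ℕ} (hn : ∀ᶠ ε : ℝ in 𝓝[>] 0, (n ε : ℝ) ≤ K / ε ^ 2 + 1)
    {S : ℝ → Set ((ℕ → St) × (ℕ → ℝ))} (hS : ∀ ε, MeasurableSet (S ε))
    (h : Tendsto (fun ε => Pr (can a (n ε) ⁻¹' S ε)) (𝓝[>] 0) (𝓝 0)) :
    Tendsto (fun ε => V.P ε (abs' (c.Z ε) (c.ξ ε) (n ε) ⁻¹' S ε)) (𝓝[>] 0) (𝓝 0) := by
  have h1 : Tendsto (fun ε => ENNReal.ofReal (√(Real.exp (K + 1))) *
      (Pr (can a (n ε) ⁻¹' S ε)) ^ (1 / 2 : ℝ)) (𝓝[>] 0) (𝓝 0) := by
    have h2 : Tendsto (fun ε => (Pr (can a (n ε) ⁻¹' S ε)) ^ (1 / 2 : ℝ)) (𝓝[>] 0)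
        (𝓝 ((0 : ℝ≥0∞) ^ (1 / 2 : ℝ))) :=
      (ENNReal.continuous_rpow_const.tendsto _).comp h
    rw [ENNReal.zero_rpow_of_pos (by norm_num)] at h2
    have h3 := ENNReal.Tendsto.const_mul (a := ENNReal.ofReal (√(Real.exp (K + 1)))) h2
      (Or.inr ENNReal.ofReal_ne_top)
    rwa [mul_zero] at h3
  refine tendsto_of_tendsto_of_tendsto_of_le_of_le' tendsto_const_nhds h1
    (Eventually.of_forall fun _ => zero_le) ?_
  filter_upwards [hn, cla_ev_small (b := 1 / 2) (by norm_num)] with ε h2 h3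
  exact cla_P_le hk c h3.1 h3.2 h2 (hS ε)

/-! ### the jump times as functions of the first jumps -/

/-- the jump times as functions of states and clocks -/
noncomputable def claT (a : ℤ → ℝ) (k : ℕ) (p : (ℕ → St) × (ℕ → ℝ)) : ℝ :=
  ∑ i ∈ Finset.range k, p.2 i / tot a true (p.1 i)

lemma measurable_claT (k : ℕ) : Measurable (claT a k) := by
  unfold claT
  refine Finset.measurable_sum _ fun i _ => Measurable.div ?_ ?_
  · exact (measurable_pi_apply i).comp measurable_snd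
  · exact (measurable_of_countable (tot a true)).comp ((measurable_pi_apply i).comp measurable_fst)

lemma claT_can (hk : IsKernel a) {n k : ℕ} (hkn : k ≤ n) (ω : Om) :
    claT a k (can a n ω) = (vc a true).T k ∅ ω := by
  unfold claT can trS trE Chain.T
  refine Finset.sum_congr rfl fun i hi => ?_
  rw [Finset.mem_range] at hi
  have h1 : min i n = i := by omega
  simp only [h1]
  rw [if_pos (by omega), q_true hk]

lemma claT_abs {V : VoterFam a} (c : Chains V) {ε : ℝ} {n k : ℕ} (hkn : k ≤ n) (ω : V.Ω ε) :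
    claT a k (abs' (c.Z ε) (c.ξ ε) n ω) = c.T0 ε k ω := by
  unfold claT abs' trS trE Chains.T0
  refine Finset.sum_congr rfl fun i hi => ?_
  rw [Finset.mem_range] at hi
  have h1 : min i n = i := by omega
  simp only [h1]
  rw [if_pos (by omega)]

lemma can_fst {n i : ℕ} (hi : i ≤ n) (ω : Om) : (can a n ω).1 i = (vc a true).Y i ∅ ω := by
  unfold can trS
  have h1 : min i n = i := by omega
  simp only [h1]

lemma abs_fst {V : VoterFam a} (c : Chains V) {ε : ℝ} {n i : ℕ} (hi : i ≤ n) (ω : V.Ω ε) :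
    (abs' (c.Z ε) (c.ξ ε) n ω).1 i = mis (c.Z ε i ω) := by
  unfold abs' trS
  have h1 : min i n = i := by omega
  simp only [h1]

lemma measurable_fst_apply (i : ℕ) : Measurable fun p : (ℕ → St) × (ℕ → ℝ) => p.1 i :=
  (measurable_pi_apply i).comp measurable_fst

lemma cla_tendsto_inv_sq : Tendsto (fun ε : ℝ => 1 / ε ^ 2) (𝓝[>] 0) atTop := by
  have h1 : Tendsto (fun ε : ℝ => ε ^ 2) (𝓝[>] 0) (𝓝[>] 0) := by
    refine tendsto_nhdsWithin_iff.2 ⟨?_, ?_⟩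
    · have : Tendsto (fun ε : ℝ => ε ^ 2) (𝓝 0) (𝓝 (0 ^ 2)) := (continuous_pow 2).tendsto 0
      rw [zero_pow (by norm_num)] at this
      exact this.mono_left nhdsWithin_le_nhds
    · filter_upwards [self_mem_nhdsWithin] with ε hε
      have : (0 : ℝ) < ε := hε
      exact (show (0 : ℝ) < ε ^ 2 by positivity)
  simp only [one_div]
  exact tendsto_inv_nhdsGT_zero.comp h1

/-- modulus of continuity of the rescaled centre under bias `ε` (`modulus` and `P_le`) -/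
theorem modulus_P (hk : IsKernel a) (hc : mn a = 0) {V : VoterFam a} (c : Chains V) (T₀ : ℝ≥0)
    {κ δ : ℝ} (hκ : 0 < κ) (hδ : 0 < δ) :
    ∃ η : ℝ, 0 < η ∧ ∀ᶠ ε : ℝ in 𝓝[>] 0,
      V.P ε {ω | ∃ s t : ℝ≥0, s ≤ T₀ ∧ t ≤ T₀ ∧ |(s : ℝ) - t| ≤ η ∧
        κ < ε * |(c.S ε ⌊sg a * s / ε ^ 2⌋₊ ω : ℝ) - c.S ε ⌊sg a * t / ε ^ 2⌋₊ ω|} ≤
      ENNReal.ofReal δ := by
  have hsg : 0 ≤ sg a := tsum_nonneg fun k => mul_nonneg (hk.nonneg k) (sq_nonneg _)
  set K : ℝ := sg a * T₀ + 1 with hK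
  have hK0 : 0 < K := by positivity
  set E : ℝ := Real.exp (K + 1) with hE
  have hE0 : 0 < E := Real.exp_pos _
  obtain ⟨η', hη', hmod⟩ := modulus hk hc ∅ hκ hK0 (δ := δ ^ 2 / E) (by positivity)
  refine ⟨η' / (2 * (sg a + 1)), by positivity, ?_⟩
  have hsmall : ∀ᶠ ε : ℝ in 𝓝[>] 0, 0 < ε ∧ ε ≤ min (1 / 2) (√(η' / 2)) :=
    cla_ev_small (lt_min (by norm_num) (Real.sqrt_pos.2 (by positivity)))
  filter_upwards [cla_tendsto_inv_sq.eventually hmod, hsmall] with ε h1 h2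
  obtain ⟨h0, h3⟩ := h2
  have hhalf : ε ≤ 1 / 2 := h3.trans (min_le_left _ _)
  have hε2 : ε ^ 2 ≤ η' / 2 := by
    have h4 : ε ≤ √(η' / 2) := h3.trans (min_le_right _ _)
    calc ε ^ 2 ≤ (√(η' / 2)) ^ 2 := pow_le_pow_left₀ h0.le h4 2
      _ = η' / 2 := Real.sq_sqrt (by positivity)
  have hεp : 0 < ε ^ 2 := by positivity
  set n : ℕ := ⌈K / ε ^ 2⌉₊ with hn
  have hn1 : (n : ℝ) ≤ K / ε ^ 2 + 1 := (Nat.ceil_lt_add_one (by positivity)).le
  have hn2 : K / ε ^ 2 ≤ n := Nat.le_ceil _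
  set Sε : Set ((ℕ → St) × (ℕ → ℝ)) := {p | ∃ i j : ℕ, (i : ℝ) ≤ K * (1 / ε ^ 2) ∧
    (j : ℝ) ≤ K * (1 / ε ^ 2) ∧ |(i : ℝ) - j| ≤ η' * (1 / ε ^ 2) ∧
    κ * √(1 / ε ^ 2) < |(cc (p.1 i) : ℝ) - cc (p.1 j)|} with hSε
  have hSm : MeasurableSet Sε := by
    have h4 : Sε = ⋃ i : ℕ, ⋃ j : ℕ, {p : (ℕ → St) × (ℕ → ℝ) | (i : ℝ) ≤ K * (1 / ε ^ 2) ∧
        (j : ℝ) ≤ K * (1 / ε ^ 2) ∧ |(i : ℝ) - j| ≤ η' * (1 / ε ^ 2) ∧
        κ * √(1 / ε ^ 2) < |(cc (p.1 i) : ℝ) - cc (p.1 j)|} := by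
      ext p
      simp [hSε]
    rw [h4]
    refine MeasurableSet.iUnion fun i => MeasurableSet.iUnion fun j => ?_
    have h5 : Measurable fun p : (ℕ → St) × (ℕ → ℝ) => |(cc (p.1 i) : ℝ) - cc (p.1 j)| := by
      have h6 : Measurable fun m : St => (cc m : ℝ) := measurable_of_countable _
      have h7 : Measurable fun p : (ℕ → St) × (ℕ → ℝ) => (cc (p.1 i) : ℝ) - cc (p.1 j) :=
        (h6.comp (measurable_fst_apply i)).sub (h6.comp (measurable_fst_apply j))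
      exact h7.abs
    have h8 : MeasurableSet {p : (ℕ → St) × (ℕ → ℝ) |
        κ * √(1 / ε ^ 2) < |(cc (p.1 i) : ℝ) - cc (p.1 j)|} :=
      measurableSet_lt measurable_const h5
    exact (MeasurableSet.const _).inter ((MeasurableSet.const _).inter
      ((MeasurableSet.const _).inter h8))
  have hij : ∀ i : ℕ, (i : ℝ) ≤ K * (1 / ε ^ 2) → i ≤ n := by
    intro i hi
    have : (i : ℝ) ≤ n := by
      refine hi.trans (le_trans (le_of_eq ?_) hn2)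
      ring
    exact_mod_cast this
  have hcan : Pr (can a n ⁻¹' Sε) ≤ ENNReal.ofReal (δ ^ 2 / E) := by
    refine (measure_mono ?_).trans h1
    rintro ω ⟨i, j, h4, h5, h6, h7⟩
    rw [can_fst (hij i h4), can_fst (hij j h5)] at h7
    exact ⟨i, j, h4, h5, h6, h7⟩
  have hincl : {ω | ∃ s t : ℝ≥0, s ≤ T₀ ∧ t ≤ T₀ ∧ |(s : ℝ) - t| ≤ η' / (2 * (sg a + 1)) ∧
        κ < ε * |(c.S ε ⌊sg a * s / ε ^ 2⌋₊ ω : ℝ) - c.S ε ⌊sg a * t / ε ^ 2⌋₊ ω|} ⊆
      abs' (c.Z ε) (c.ξ ε) n ⁻¹' Sε := by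
    rintro ω ⟨s, t, hs, ht, hst, hlt⟩
    have hfl : ∀ u : ℝ≥0, u ≤ T₀ → ((⌊sg a * u / ε ^ 2⌋₊ : ℕ) : ℝ) ≤ K * (1 / ε ^ 2) := by
      intro u hu
      have hu' : (u : ℝ) ≤ T₀ := by exact_mod_cast hu
      refine (Nat.floor_le (by positivity)).trans ?_
      rw [mul_one_div]
      refine div_le_div_of_nonneg_right ?_ hεp.le
      have := mul_le_mul_of_nonneg_left hu' hsg
      linarith
    have h4 := hfl s hs
    have h5 := hfl t ht
    refine ⟨⌊sg a * s / ε ^ 2⌋₊, ⌊sg a * t / ε ^ 2⌋₊, h4, h5, ?_, ?_⟩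
    · have hs1 := Nat.floor_le (a := sg a * s / ε ^ 2) (by positivity)
      have hs2 := Nat.lt_floor_add_one (sg a * s / ε ^ 2)
      have ht1 := Nat.floor_le (a := sg a * t / ε ^ 2) (by positivity)
      have ht2 := Nat.lt_floor_add_one (sg a * t / ε ^ 2)
      have h6 : |sg a * s / ε ^ 2 - sg a * t / ε ^ 2| ≤ (η' / 2) * (1 / ε ^ 2) := by
        rw [← sub_div, ← mul_sub, abs_div, abs_mul, abs_of_nonneg hsg, abs_of_pos hεp,
          mul_one_div]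
        refine div_le_div_of_nonneg_right ?_ hεp.le
        calc sg a * |(s : ℝ) - t| ≤ sg a * (η' / (2 * (sg a + 1))) :=
              mul_le_mul_of_nonneg_left hst hsg
          _ ≤ (sg a + 1) * (η' / (2 * (sg a + 1))) :=
              mul_le_mul_of_nonneg_right (by linarith) (by positivity)
          _ = η' / 2 := by field_simp
      have h7 : 1 ≤ (η' / 2) * (1 / ε ^ 2) := by
        rw [mul_one_div, le_div_iff₀ hεp]
        linarith
      rw [abs_le] at h6 ⊢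
      constructor
      · linarith [h6.1]
      · linarith [h6.2]
    · rw [abs_fst c (hij _ h4), abs_fst c (hij _ h5)]
      have h6 : √(1 / ε ^ 2) = 1 / ε := by
        rw [Real.sqrt_div zero_le_one, Real.sqrt_one, Real.sqrt_sq h0.le]
      rw [h6, mul_one_div, div_lt_iff₀ h0, mul_comm |_| ε]
      exact hlt
  refine (measure_mono hincl).trans ((cla_P_le hk c h0 hhalf hn1 hSm).trans ?_)
  calc ENNReal.ofReal (√E) * (Pr (can a n ⁻¹' Sε)) ^ (1 / 2 : ℝ)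
      ≤ ENNReal.ofReal (√E) * (ENNReal.ofReal (δ ^ 2 / E)) ^ (1 / 2 : ℝ) :=
        mul_le_mul_right (ENNReal.rpow_le_rpow hcan (by norm_num)) _
    _ = ENNReal.ofReal (√E) * ENNReal.ofReal (√(δ ^ 2 / E)) := by
        rw [ENNReal.ofReal_rpow_of_nonneg (by positivity) (by norm_num), ← Real.sqrt_eq_rpow]
    _ = ENNReal.ofReal δ := by
        rw [← ENNReal.ofReal_mul (Real.sqrt_nonneg _), ← Real.sqrt_mul hE0.le]
        congr 1
        rw [mul_div_cancel₀ _ hE0.ne', Real.sqrt_sq hδ.le]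

end H40.VM
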