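import Pool.Agent.H40.VM.LL

/-!
# Module LLU: uniform law of large numbers for the jump times

From `lln_T` at the indices `⌊j η n⌋`, `j ≤ K/η`, and monotonicity of `T k` in `k`.
-/

open MeasureTheory ProbabilityTheory Filter Topology
open scoped ENNReal NNReal unitInterval symmDiff

namespace H40.VM

open H40.Voter (IsKernel)

variable {a : ℤ → ℝ}

/-- the deterministic part: uniform closeness from closeness on a grid -/
lemma llu_det {T : ℕ → ℝ} (hT : Monotone T) (hT0 : T 0 = 0) {g η δ K n δ' : ℝ} (hg : 0 < g)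
    (hη : 0 < η) (hη1 : η ≤ 1) (hηg : η / g ≤ δ / 4) (hK : 0 < K) (hn : 1 ≤ n)
    (hn2 : 1 / g ≤ δ / 4 * n) (hδ' : 0 < δ') (hδ'2 : δ' * (K + 2) ≤ δ / 4)
    (h : ∀ i < ⌊K / η⌋₊ + 1, |T ⌈((i : ℝ) + 1) * η * n⌉₊ / (⌈((i : ℝ) + 1) * η * n⌉₊ : ℕ) - 1 / g|
      < δ') (k : ℕ) (hk : (k : ℝ) ≤ K * n) : |T k - k / g| ≤ δ * n := by
  have hn0 : 0 < n := by linarith
  have hs : 0 < η * n := mul_pos hη hn0
  set M := ⌊K / η⌋₊ with hM
  have hMle : (M : ℝ) ≤ K / η := Nat.floor_le (by positivity)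
  have hMη : (M : ℝ) * η ≤ K := by
    rwa [le_div_iff₀ hη] at hMle
  -- grid estimate
  have hgrid : ∀ j : ℕ, j ≤ M + 1 → |T ⌈(j : ℝ) * η * n⌉₊ - (⌈(j : ℝ) * η * n⌉₊ : ℕ) / g| ≤
      δ / 4 * n := by
    intro j hj
    rcases Nat.eq_zero_or_pos j with rfl | hj0
    · simp only [Nat.cast_zero, zero_mul, Nat.ceil_zero, hT0, zero_div, sub_zero, abs_zero]
      have : 0 < 1 / g := by positivity
      linarith
    · obtain ⟨i, rfl⟩ : ∃ i, j = i + 1 := ⟨j - 1, by omega⟩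
      have h1 := h i (by omega)
      have e1 : ((i : ℝ) + 1) = ((i + 1 : ℕ) : ℝ) := by push_cast; ring
      rw [e1] at h1
      set m : ℕ := ⌈((i + 1 : ℕ) : ℝ) * η * n⌉₊ with hm
      have hmpos : (0 : ℝ) < m := by
        have h2 : ((i + 1 : ℕ) : ℝ) * η * n ≤ m := Nat.le_ceil _
        have h3 : 0 < ((i + 1 : ℕ) : ℝ) * η * n := by positivity
        linarith
      have hmle : (m : ℝ) ≤ (K + 2) * n := by
        have h2 : (m : ℝ) < ((i + 1 : ℕ) : ℝ) * η * n + 1 := Nat.ceil_lt_add_one (by positivity)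
        have h3 : ((i + 1 : ℕ) : ℝ) ≤ M + 1 := by exact_mod_cast hj
        have h4 : ((i + 1 : ℕ) : ℝ) * η * n ≤ (M + 1) * η * n := by
          apply mul_le_mul_of_nonneg_right _ hn0.le
          exact mul_le_mul_of_nonneg_right h3 hη.le
        have h5 : ((M : ℝ) + 1) * η * n ≤ (K + 1) * n := by
          apply mul_le_mul_of_nonneg_right _ hn0.le
          nlinarith
        nlinarith
      have e2 : T m - m / g = (T m / m - 1 / g) * m := by
        field_simp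
      rw [e2, abs_mul, abs_of_pos hmpos]
      calc |T m / m - 1 / g| * m ≤ δ' * ((K + 2) * n) :=
            mul_le_mul h1.le hmle hmpos.le hδ'.le
        _ = (δ' * (K + 2)) * n := by ring
        _ ≤ δ / 4 * n := mul_le_mul_of_nonneg_right hδ'2 hn0.le
  set j : ℕ := ⌊(k : ℝ) / (η * n)⌋₊ with hj
  have hj1 : (j : ℝ) ≤ k / (η * n) := Nat.floor_le (by positivity)
  have hj2 : (k : ℝ) / (η * n) < j + 1 := Nat.lt_floor_add_one _
  rw [le_div_iff₀ hs] at hj1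
  rw [div_lt_iff₀ hs] at hj2
  have hjM : j ≤ M := by
    apply Nat.floor_le_floor
    rw [div_le_div_iff₀ hs hη]
    nlinarith
  have hA := hgrid j (by omega)
  have hB := hgrid (j + 1) (by omega)
  have hka : ⌈(j : ℝ) * η * n⌉₊ ≤ k := by
    apply Nat.ceil_le.2
    linarith
  have hkb : k ≤ ⌈((j + 1 : ℕ) : ℝ) * η * n⌉₊ := by
    have h2 : ((j + 1 : ℕ) : ℝ) * η * n ≤ ⌈((j + 1 : ℕ) : ℝ) * η * n⌉₊ := Nat.le_ceil _
    have h3 : (k : ℝ) < ⌈((j + 1 : ℕ) : ℝ) * η * n⌉₊ := by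
      push_cast at h2 ⊢
      nlinarith
    have : k < ⌈((j + 1 : ℕ) : ℝ) * η * n⌉₊ := by exact_mod_cast h3
    exact this.le
  have hTa : T ⌈(j : ℝ) * η * n⌉₊ ≤ T k := hT hka
  have hTb : T k ≤ T ⌈((j + 1 : ℕ) : ℝ) * η * n⌉₊ := hT hkb
  have hca : (j : ℝ) * η * n ≤ ⌈(j : ℝ) * η * n⌉₊ := Nat.le_ceil _
  have hcb : (⌈((j + 1 : ℕ) : ℝ) * η * n⌉₊ : ℝ) < ((j + 1 : ℕ) : ℝ) * η * n + 1 :=
    Nat.ceil_lt_add_one (by positivity)
  push_cast at hB hTb hcb
  set p : ℝ := (⌈(j : ℝ) * η * n⌉₊ : ℝ) with hp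
  set q : ℝ := (⌈((j : ℝ) + 1) * η * n⌉₊ : ℝ) with hq
  have hηn : η / g * n ≤ δ / 4 * n := mul_le_mul_of_nonneg_right hηg hn0.le
  rw [abs_le] at hA hB ⊢
  constructor
  · have h1 : (k : ℝ) / g - p / g ≤ η / g * n := by
      rw [← sub_div, div_mul_eq_mul_div, div_le_div_iff_of_pos_right hg]
      linarith
    have h2 : 0 ≤ δ / 4 * n := by
      have : 0 < 1 / g := by positivity
      linarith
    linarith [hA.1]
  · have h1 : q / g - (k : ℝ) / g ≤ η / g * n + 1 / g := by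
      rw [← sub_div, div_mul_eq_mul_div, ← add_div, div_le_div_iff_of_pos_right hg]
      linarith
    have h2 : 0 ≤ δ / 4 * n := by
      have : 0 < 1 / g := by positivity
      linarith
    linarith [hB.2]

theorem lln_unif (hk : IsKernel a) (hc : mn a = 0) {K δ : ℝ} (hK : 0 < K) (hδ : 0 < δ) :
    Tendsto (fun n : ℝ => Pr {ω | ∃ k : ℕ, (k : ℝ) ≤ K * n ∧
      δ * n < |(vc a true).T k ∅ ω - k / sg a|}) atTop (𝓝 0) := by
  have hg : 0 < sg a := sg_pos hk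
  set C := vc a true with hC
  set η : ℝ := min 1 (δ * sg a / 4) with hη
  have hη0 : 0 < η := lt_min one_pos (by positivity)
  have hη1 : η ≤ 1 := min_le_left _ _
  have hη2 : η / sg a ≤ δ / 4 := by
    rw [div_le_iff₀ hg]
    calc η ≤ δ * sg a / 4 := min_le_right _ _
      _ = _ := by ring
  set δ' : ℝ := δ / (4 * (K + 2)) with hδ'
  have hδ'0 : 0 < δ' := by positivity
  have hδ'2 : δ' * (K + 2) ≤ δ / 4 := by
    rw [hδ']
    apply le_of_eq
    field_simp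
  have hsum : Tendsto (fun n : ℝ => ∑ i ∈ Finset.range (⌊K / η⌋₊ + 1),
      Pr {ω | δ' ≤ |C.T ⌈((i : ℝ) + 1) * η * n⌉₊ ∅ ω / (⌈((i : ℝ) + 1) * η * n⌉₊ : ℕ) -
        1 / sg a|}) atTop (𝓝 (∑ i ∈ Finset.range (⌊K / η⌋₊ + 1), (0 : ℝ≥0∞))) := by
    refine tendsto_finsetSum _ fun i _ => ?_
    have h1 : Tendsto (fun n : ℝ => ⌈((i : ℝ) + 1) * η * n⌉₊) atTop atTop := by
      apply tendsto_nat_ceil_atTop.comp
      exact Tendsto.const_mul_atTop (by positivity) tendsto_id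
    exact (lln_T hk hc hδ'0).comp h1
  rw [Finset.sum_const_zero] at hsum
  refine tendsto_of_tendsto_of_tendsto_of_le_of_le' tendsto_const_nhds hsum
    (Eventually.of_forall fun _ => zero_le) ?_
  filter_upwards [eventually_ge_atTop 1, eventually_ge_atTop (4 / (δ * sg a))] with n hn hn2
  have hn3 : 1 / sg a ≤ δ / 4 * n := by
    rw [div_le_iff₀ (by positivity)] at hn2
    rw [div_le_iff₀ hg]
    linarith
  refine (measure_mono ?_).trans (measure_biUnion_finset_le _ _)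
  rintro ω ⟨k, hk1, hk2⟩
  by_contra hno
  simp only [Set.mem_iUnion, Finset.mem_range, exists_prop, not_exists, not_and, Set.mem_ofPred_eq,
    not_le] at hno
  have h := llu_det (T := fun k => C.T k ∅ ω) (C.T_mono ∅ ω) (C.T_zero ∅ ω) hg hη0 hη1 hη2 hK hn
    hn3 hδ'0 hδ'2 hno k hk1
  linarith

end H40.VM
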