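import Pool.Agent.H40.VM.CT5
import Pool.Agent.H40.VM.CB

/-!
# Module DU: subadditivity in the initial state (coalescing duality)

For a finite set `A` of sites let `F_A^b(m) = 1` if `cf b m i = true` for some `i ∈ A`, and `0`
otherwise. Copying gives (for both bases; also for the null state of `b = false`)
`q * (∫ F_A (Φ m u) - F_A m) = ∑_{i ∈ A} ∑'_k a(k) (F_{(A \ {i}) ∪ {i-k}}(m) - F_A(m))`,
bounded by `Lam * |A|`. By `Chain.forward`, `w_A(t) = E F_A(X_t)` satisfies
`w_A(t) = w_A(0) + ∫_0^t ∑_{i∈A} ∑'_k a(k) (w_{A'}(s) - w_A(s)) ds`, `A' = (A \ {i}) ∪ {i-k}`,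
`|A'| ≤ |A|`. A bounded family `z_A(t)` solving this linear system with `z_A(0) ≥ 0` for all `A` is
`≥ 0`: each `z_A` is continuous, hence `C¹`, `(e^{Λ|A|t} z_A)' = e^{Λ|A|t} ∑∑ a(k) z_{A'}`; by
induction on `k`, `z_A(t) ≥ - K (Λ n t)^k / k!` for all `|A| ≤ n`. Apply this to
`z_A = w_A^{false, m₁} + w_A^{true, m₂} - w_A^{true, m}`, then let `A` increase to
`{i | i ≤ r}` (continuity of the measure).
-/

open MeasureTheory ProbabilityTheory Filter Topology
open scoped ENNReal NNReal unitInterval symmDiff

namespace H40.VM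

open H40.Voter (IsKernel)

variable {a : ℤ → ℝ}

/-- the indicator of a one in `A` -/
def Fo (b : Bool) (A : Finset ℤ) (m : St) : ℝ := if ∃ i ∈ A, cf b m i = true then 1 else 0

/-- the set `A` after the site `i` has been moved to `i - k` -/
def mv (A : Finset ℤ) (i k : ℤ) : Finset ℤ := insert (i - k) (A.erase i)

lemma card_mv {A : Finset ℤ} {i : ℤ} (hi : i ∈ A) (k : ℤ) : (mv A i k).card ≤ A.card := by
  unfold mv
  refine (Finset.card_insert_le _ _).trans ?_
  rw [Finset.card_erase_of_mem hi]
  have := Finset.card_pos.2 ⟨i, hi⟩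
  omega

lemma Fo_nonneg (b : Bool) (A : Finset ℤ) (m : St) : 0 ≤ Fo b A m := by
  unfold Fo; split_ifs <;> norm_num

lemma Fo_le (b : Bool) (A : Finset ℤ) (m : St) : Fo b A m ≤ 1 := by
  unfold Fo; split_ifs <;> norm_num

lemma Fo_abs (b : Bool) (A : Finset ℤ) (m : St) : |Fo b A m| ≤ 1 := by
  rw [abs_of_nonneg (Fo_nonneg b A m)]
  exact Fo_le b A m

lemma Fo_notMem (b : Bool) {A : Finset ℤ} {j : ℤ} (hj : j ∉ A) (m : St) :
    Fo b A (fl m j) = Fo b A m := by
  unfold Fo
  have : (∃ i ∈ A, cf b (fl m j) i = true) ↔ ∃ i ∈ A, cf b m i = true := by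
    refine exists_congr fun i => and_congr_right fun hi => ?_
    rw [cf_fl, if_neg]
    rintro rfl
    exact hj hi
  simp only [this]

lemma Fo_mv (b : Bool) {A : Finset ℤ} {i : ℤ} (hi : i ∈ A) (k : ℤ) (m : St) :
    (if cf b m (i - k) ≠ cf b m i then a k else 0) * (Fo b A (fl m i) - Fo b A m) =
      a k * (Fo b (mv A i k) m - Fo b A m) := by
  by_cases h : cf b m (i - k) ≠ cf b m i
  · rw [if_pos h]
    congr 2
    unfold Fo
    have : (∃ j ∈ A, cf b (fl m i) j = true) ↔ ∃ j ∈ mv A i k, cf b m j = true := by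
      unfold mv
      constructor
      · rintro ⟨j, hj, hj2⟩
        rw [cf_fl] at hj2
        by_cases hji : j = i
        · subst hji
          rw [if_pos rfl] at hj2
          refine ⟨j - k, Finset.mem_insert_self _ _, ?_⟩
          generalize cf b m (j - k) = x at h ⊢
          generalize cf b m j = y at h hj2
          cases x <;> cases y <;> simp_all
        · rw [if_neg hji] at hj2
          exact ⟨j, Finset.mem_insert_of_mem (Finset.mem_erase.2 ⟨hji, hj⟩), hj2⟩
      · rintro ⟨j, hj, hj2⟩
        rw [Finset.mem_insert] at hj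
        rcases hj with hj | hj
        · subst hj
          refine ⟨i, hi, ?_⟩
          rw [cf_fl, if_pos rfl]
          generalize cf b m (i - k) = x at h hj2
          generalize cf b m i = y at h ⊢
          cases x <;> cases y <;> simp_all
        · obtain ⟨h1, h2⟩ := Finset.mem_erase.1 hj
          refine ⟨j, h2, ?_⟩
          rw [cf_fl, if_neg h1]
          exact hj2
    simp only [this]
  · rw [if_neg h, zero_mul]
    push Not at h
    have h1 : Fo b (mv A i k) m = Fo b A m := by
      unfold Fo
      have : (∃ j ∈ mv A i k, cf b m j = true) ↔ ∃ j ∈ A, cf b m j = true := by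
        unfold mv
        constructor
        · rintro ⟨j, hj, hj2⟩
          rw [Finset.mem_insert] at hj
          rcases hj with hj | hj
          · subst hj
            rw [h] at hj2
            exact ⟨i, hi, hj2⟩
          · exact ⟨j, (Finset.mem_erase.1 hj).2, hj2⟩
        · rintro ⟨j, hj, hj2⟩
          by_cases hji : j = i
          · subst hji
            rw [← h] at hj2
            exact ⟨j - k, Finset.mem_insert_self _ _, hj2⟩
          · exact ⟨j, Finset.mem_insert_of_mem (Finset.mem_erase.2 ⟨hji, hj⟩), hj2⟩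
      simp only [this]
    rw [h1, sub_self, mul_zero]

/-- the generator applied to `Fo` -/
noncomputable def GG (a : ℤ → ℝ) (b : Bool) (A : Finset ℤ) (m : St) : ℝ :=
  ∑ i ∈ A, ∑' k : ℤ, a k * (Fo b (mv A i k) m - Fo b A m)

lemma gn_Fo (b : Bool) (A : Finset ℤ) (m : St) : gn a b (Fo b A) m = GG a b A m := by
  unfold gn GG
  rw [tsum_eq_sum (s := A) (fun j hj => by rw [Fo_notMem b hj, sub_self, mul_zero])]
  refine Finset.sum_congr rfl fun i hi => ?_
  unfold rt
  rw [← tsum_mul_right]
  exact tsum_congr fun k => Fo_mv b hi k m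

lemma GG_gen (hk : IsKernel a) (b : Bool) (A : Finset ℤ) (m : St) :
    GG a b A m = (vc a b).q m * (∫ u, Fo b A ((vc a b).Φ m u) - Fo b A m) := by
  have main : 0 < tot a b m → (vc a b).q m = tot a b m →
      GG a b A m = (vc a b).q m * (∫ u, Fo b A ((vc a b).Φ m u) - Fo b A m) := by
    intro h hq
    have hs : Summable fun j : ℤ => rt a b m j * |Fo b A (fl m j)| :=
      summable_rt_of_growth hk b m (K := 1) (fun x => (Fo_abs b A x).trans (by
        have : (0 : ℝ) ≤ x.card := Nat.cast_nonneg _
        linarith))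
    have h1 := tot_mul_integral hk h hs
    have h2 := (integral_Φ hk h hs).1
    rw [integral_sub h2 (integrable_const _), hq]
    simp only [integral_const, probReal_univ, one_smul]
    rw [h1, gn_Fo]
  cases b with
  | true => exact main (tot_true_pos hk m) (q_true hk m)
  | false =>
    by_cases hm : m = ∅
    · subst hm
      have h0 : ∀ B : Finset ℤ, Fo false B ∅ = 0 := by
        intro B
        unfold Fo
        rw [if_neg]
        rintro ⟨i, -, hi⟩
        simp [cf_false] at hi
      unfold GG
      simp only [h0, Φ_empty]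
      simp
    · obtain ⟨c, hc, h⟩ := tot_false_ge hk
      exact main (hc.trans_le (h m hm)) (q_false hk hm)

lemma summable_du (hk : IsKernel a) {f : ℤ → ℝ} {K : ℝ} (hf : ∀ k, |f k| ≤ K) :
    Summable fun k : ℤ => a k * f k := by
  refine Summable.of_norm_bounded (hk.summable.mul_right K) fun k => ?_
  rw [Real.norm_eq_abs, abs_mul, abs_of_nonneg (hk.nonneg k)]
  exact mul_le_mul_of_nonneg_left (hf k) (hk.nonneg k)

lemma abs_tsum_du (hk : IsKernel a) {f : ℤ → ℝ} {K : ℝ} (hf : ∀ k, |f k| ≤ K) :
    |∑' k : ℤ, a k * f k| ≤ Lam a * K := by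
  have h1 : HasSum (fun k => a k * K) (Lam a * K) := hk.summable.hasSum.mul_right K
  have h2 := tsum_of_norm_bounded (f := fun k => a k * f k) h1 (fun k => by
    rw [Real.norm_eq_abs, abs_mul, abs_of_nonneg (hk.nonneg k)]
    exact mul_le_mul_of_nonneg_left (hf k) (hk.nonneg k))
  rwa [Real.norm_eq_abs] at h2

lemma Fo_sub_abs (b : Bool) (A B : Finset ℤ) (m : St) : |Fo b A m - Fo b B m| ≤ 1 := by
  have h1 := Fo_nonneg b A m
  have h2 := Fo_nonneg b B m
  have h3 := Fo_le b A m
  have h4 := Fo_le b B m
  rw [abs_le]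
  constructor <;> linarith

lemma GG_abs (hk : IsKernel a) (b : Bool) (A : Finset ℤ) (m : St) :
    |GG a b A m| ≤ 1 + Lam a * A.card := by
  unfold GG
  refine (Finset.abs_sum_le_sum_abs _ _).trans ?_
  refine (Finset.sum_le_sum (g := fun _ => Lam a * 1) fun i _ =>
    abs_tsum_du hk fun k => Fo_sub_abs b _ _ m).trans ?_
  rw [Finset.sum_const, nsmul_eq_mul]
  linarith

/-- the mean of `Fo` at time `t` -/
noncomputable def WW (a : ℤ → ℝ) (b : Bool) (m : St) (A : Finset ℤ) (t : ℝ) : ℝ :=
  ∫ ω, Fo b A ((vc a b).X t m ω) ∂Pr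

lemma du_ne (hk : IsKernel a) (b : Bool) : (vc a b).NE := by
  cases b with
  | true => exact ne_true hk
  | false => exact ne_false hk

lemma WW_abs (b : Bool) (m : St) (A : Finset ℤ) (t : ℝ) : |WW a b m A t| ≤ 1 :=
  (vc a b).abs_mean_le (fun x => Fo_abs b A x) t m

lemma WW_nonneg (b : Bool) (m : St) (A : Finset ℤ) (t : ℝ) : 0 ≤ WW a b m A t :=
  integral_nonneg fun _ => Fo_nonneg b A _

lemma mean_GG (hk : IsKernel a) (b : Bool) (m : St) (A : Finset ℤ) (t : ℝ) :
    ∫ ω, GG a b A ((vc a b).X t m ω) ∂Pr =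
      ∑ i ∈ A, ∑' k : ℤ, a k * (WW a b m (mv A i k) t - WW a b m A t) := by
  unfold GG
  have hint : ∀ B : Finset ℤ, Integrable (fun ω => Fo b B ((vc a b).X t m ω)) Pr := fun B =>
    (vc a b).integrable_X (fun x => Fo_abs b B x) t m
  have hint2 : ∀ (i k : ℤ), Integrable (fun ω => a k * (Fo b (mv A i k) ((vc a b).X t m ω) -
      Fo b A ((vc a b).X t m ω))) Pr := fun i k => ((hint _).sub (hint _)).const_mul _
  have hsum : ∀ i : ℤ, Summable fun k : ℤ => ∫ ω, ‖a k * (Fo b (mv A i k) ((vc a b).X t m ω) -
      Fo b A ((vc a b).X t m ω))‖ ∂Pr := by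
    intro i
    refine Summable.of_nonneg_of_le (fun k => integral_nonneg fun _ => norm_nonneg _)
      (fun k => ?_) hk.summable
    have h1 : ∫ ω, ‖a k * (Fo b (mv A i k) ((vc a b).X t m ω) -
        Fo b A ((vc a b).X t m ω))‖ ∂Pr ≤ ∫ _, a k ∂Pr := by
      refine integral_mono (hint2 i k).norm (integrable_const _) fun ω => ?_
      simp only
      rw [Real.norm_eq_abs, abs_mul, abs_of_nonneg (hk.nonneg k)]
      have := mul_le_mul_of_nonneg_left (Fo_sub_abs b (mv A i k) A ((vc a b).X t m ω))
        (hk.nonneg k)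
      linarith
    simpa using h1
  have hcalc : ∀ i : ℤ, ∑' k : ℤ, a k * (WW a b m (mv A i k) t - WW a b m A t) =
      ∫ ω, ∑' k : ℤ, a k * (Fo b (mv A i k) ((vc a b).X t m ω) -
        Fo b A ((vc a b).X t m ω)) ∂Pr := by
    intro i
    rw [← integral_tsum_of_summable_integral_norm (hint2 i) (hsum i)]
    refine tsum_congr fun k => ?_
    rw [integral_const_mul, integral_sub (hint _) (hint _)]
    rfl
  rw [integral_finsetSum]
  · exact Finset.sum_congr rfl fun i _ => (hcalc i).symm
  · intro i _
    have hm : Measurable fun x : St => ∑' k : ℤ, a k * (Fo b (mv A i k) x - Fo b A x) :=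
      measurable_of_countable _
    refine Integrable.of_bound
      (hm.comp ((vc a b).measurable_Xx t m)).aestronglyMeasurable (Lam a * 1) ?_
    exact Eventually.of_forall fun ω => abs_tsum_du hk fun k => Fo_sub_abs b _ _ _

lemma WW_zero (b : Bool) (m : St) (A : Finset ℤ) (hk : IsKernel a) :
    WW a b m A 0 = Fo b A m := by
  have h := (vc a b).forward (du_ne hk b) (F := Fo b A) (G := GG a b A) (K := 1 + Lam a * A.card)
    (fun x => (Fo_abs b A x).trans (by
      have := mul_nonneg (Lam_nonneg hk) (Nat.cast_nonneg (α := ℝ) A.card)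
      linarith))
    (GG_abs hk b A) (GG_gen hk b A) le_rfl m
  rw [intervalIntegral.integral_same, add_zero] at h
  exact h

lemma WW_forward (hk : IsKernel a) (b : Bool) (m : St) (A : Finset ℤ) {t : ℝ} (ht : 0 ≤ t) :
    WW a b m A t = WW a b m A 0 + ∫ s in (0 : ℝ)..t,
      ∑ i ∈ A, ∑' k : ℤ, a k * (WW a b m (mv A i k) s - WW a b m A s) := by
  have h := (vc a b).forward (du_ne hk b) (F := Fo b A) (G := GG a b A) (K := 1 + Lam a * A.card)
    (fun x => (Fo_abs b A x).trans (by
      have := mul_nonneg (Lam_nonneg hk) (Nat.cast_nonneg (α := ℝ) A.card)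
      linarith))
    (GG_abs hk b A) (GG_gen hk b A) ht m
  rw [WW_zero b m A hk]
  simp only [mean_GG hk] at h
  exact h

lemma WW_continuous (hk : IsKernel a) (b : Bool) (m : St) (A : Finset ℤ) :
    Continuous fun t : ℝ => WW a b m A (max t 0) := by
  have h : (fun t : ℝ => WW a b m A (max t 0)) = fun t : ℝ => WW a b m A 0 +
      ∫ s in (0 : ℝ)..(max t 0), ∫ ω, GG a b A ((vc a b).X s m ω) ∂Pr := by
    funext t
    simp only [mean_GG hk]
    exact WW_forward hk b m A (le_max_right _ _)
  rw [h]
  refine continuous_const.add ?_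
  have hi : ∀ x y : ℝ, IntervalIntegrable
      (fun s : ℝ => ∫ ω, GG a b A ((vc a b).X s m ω) ∂Pr) volume x y := by
    intro x y
    rw [intervalIntegrable_iff, Set.uIoc]
    refine Integrable.of_bound ((vc a b).measurable_mean (GG a b A) m).aestronglyMeasurable
      (1 + Lam a * A.card) ?_
    exact Eventually.of_forall fun s => (vc a b).abs_mean_le (GG_abs hk b A) s m
  exact (intervalIntegral.continuous_primitive hi 0).comp (continuous_id.max continuous_const)

/-! ### the linear system -/

lemma duhamel {z H : ℝ → ℝ} {c : ℝ} (hz : Continuous z) (hH : Continuous H)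
    (h : ∀ t, 0 ≤ t → z t = z 0 + ∫ s in (0 : ℝ)..t, (H s - c * z s)) {t : ℝ} (ht : 0 ≤ t) :
    Real.exp (c * t) * z t = z 0 + ∫ s in (0 : ℝ)..t, Real.exp (c * s) * H s := by
  set g : ℝ → ℝ := fun s => H s - c * z s with hg
  have hgc : Continuous g := hH.sub (continuous_const.mul hz)
  set y : ℝ → ℝ := fun t => z 0 + ∫ s in (0 : ℝ)..t, g s with hy
  have hyd : ∀ t, HasDerivAt y (g t) t := by
    intro t
    have := intervalIntegral.integral_hasDerivAt_right (hgc.intervalIntegrable 0 t)
      (hgc.stronglyMeasurableAtFilter _ _) hgc.continuousAt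
    exact this.const_add _
  have hed : ∀ t, HasDerivAt (fun t => Real.exp (c * t)) (Real.exp (c * t) * c) t := by
    intro t
    have h1 : HasDerivAt (fun t => c * t) c t := by
      simpa using (hasDerivAt_id t).const_mul c
    exact h1.exp
  have hyc : Continuous y := continuous_iff_continuousAt.2 fun t => (hyd t).continuousAt
  have hprod : ∀ t, HasDerivAt (fun t => Real.exp (c * t) * y t)
      (Real.exp (c * t) * c * y t + Real.exp (c * t) * g t) t := fun t => (hed t).mul (hyd t)
  have hint := intervalIntegral.integral_eq_sub_of_hasDerivAt (a := 0) (b := t)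
    (fun x _ => hprod x) (by
      refine Continuous.intervalIntegrable ?_ 0 t
      exact (((by fun_prop : Continuous fun t => Real.exp (c * t) * c)).mul hyc).add
        ((by fun_prop : Continuous fun t => Real.exp (c * t)).mul hgc))
  have hyz : ∀ s, 0 ≤ s → y s = z s := fun s hs => (h s hs).symm
  have hcongr : ∫ s in (0 : ℝ)..t, (Real.exp (c * s) * c * y s + Real.exp (c * s) * g s) =
      ∫ s in (0 : ℝ)..t, Real.exp (c * s) * H s := by
    refine intervalIntegral.integral_congr fun s hs => ?_
    rw [Set.uIcc_of_le ht] at hs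
    simp only [hg]
    rw [hyz s hs.1]
    ring
  rw [hcongr, hyz t ht, hyz 0 le_rfl] at hint
  simp only [mul_zero, Real.exp_zero, one_mul] at hint
  linarith

lemma integral_pow_aux (c t : ℝ) (k : ℕ) :
    ∫ s in (0 : ℝ)..t, c * ((c * s) ^ k / (k.factorial : ℝ)) =
      (c * t) ^ (k + 1) / ((k + 1).factorial : ℝ) := by
  have e : ∀ s : ℝ, c * ((c * s) ^ k / (k.factorial : ℝ)) =
      (c ^ (k + 1) / (k.factorial : ℝ)) * s ^ k := by
    intro s
    rw [mul_pow, pow_succ]
    ring
  simp_rw [e]
  rw [intervalIntegral.integral_const_mul, integral_pow]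
  rw [Nat.factorial_succ]
  push_cast
  have h1 : (k.factorial : ℝ) ≠ 0 := by exact_mod_cast Nat.factorial_ne_zero k
  have h2 : (k : ℝ) + 1 ≠ 0 := by positivity
  field_simp
  ring

lemma du_pos (hk : IsKernel a) {z : Finset ℤ → ℝ → ℝ} {K : ℝ} (hK : ∀ A t, |z A t| ≤ K)
    (hc : ∀ A, Continuous (z A))
    (h : ∀ A t, 0 ≤ t → z A t = z A 0 + ∫ s in (0 : ℝ)..t,
      ∑ i ∈ A, ∑' k : ℤ, a k * (z (mv A i k) s - z A s))
    (h0 : ∀ A, 0 ≤ z A 0) (A : Finset ℤ) {t : ℝ} (ht : 0 ≤ t) : 0 ≤ z A t := by
  have hK0 : 0 ≤ K := (abs_nonneg _).trans (hK ∅ 0)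
  have hL := Lam_nonneg hk
  -- the inhomogeneous term
  set H : Finset ℤ → ℝ → ℝ := fun A s => ∑ i ∈ A, ∑' k : ℤ, a k * z (mv A i k) s with hH
  have hHc : ∀ A, Continuous (H A) := by
    intro A
    refine continuous_finsetSum _ fun i _ => ?_
    refine continuous_tsum (u := fun k => a k * K) (fun k => continuous_const.mul (hc _))
      (hk.summable.mul_right K) fun k s => ?_
    rw [Real.norm_eq_abs, abs_mul, abs_of_nonneg (hk.nonneg k)]
    exact mul_le_mul_of_nonneg_left (hK _ _) (hk.nonneg k)
  have hHeq : ∀ A s, ∑ i ∈ A, ∑' k : ℤ, a k * (z (mv A i k) s - z A s) =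
      H A s - (Lam a * A.card) * z A s := by
    intro A s
    have e : ∀ i, ∑' k : ℤ, a k * (z (mv A i k) s - z A s) =
        (∑' k : ℤ, a k * z (mv A i k) s) - Lam a * z A s := by
      intro i
      unfold Lam
      rw [← tsum_mul_right, ← (summable_du hk (fun k => hK _ s)).tsum_sub
        (hk.summable.mul_right _)]
      exact tsum_congr fun k => by ring
    simp_rw [e]
    rw [Finset.sum_sub_distrib, Finset.sum_const, nsmul_eq_mul]
    simp only [hH]
    ring
  have hduh : ∀ A t, 0 ≤ t → Real.exp (Lam a * A.card * t) * z A t =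
      z A 0 + ∫ s in (0 : ℝ)..t, Real.exp (Lam a * A.card * s) * H A s := by
    intro A t ht
    refine duhamel (hc A) (hHc A) (fun t ht => ?_) ht
    rw [h A t ht]
    congr 1
    refine intervalIntegral.integral_congr fun s _ => ?_
    exact hHeq A s
  set n := A.card with hn
  have key : ∀ k : ℕ, ∀ B : Finset ℤ, B.card ≤ n → ∀ s, 0 ≤ s →
      -(K * ((Lam a * n * s) ^ k / (k.factorial : ℝ))) ≤ z B s := by
    intro k
    induction k with
    | zero =>
      intro B _ s _
      simp only [pow_zero, Nat.factorial_zero, Nat.cast_one, div_one, mul_one]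
      exact (abs_le.1 (hK B s)).1
    | succ k ih =>
      intro B hB s hs
      have hBn : (B.card : ℝ) ≤ n := by exact_mod_cast hB
      have hB0 : (0 : ℝ) ≤ B.card := Nat.cast_nonneg _
      -- lower bound for `H`
      have hHlow : ∀ r, 0 ≤ r → -(K * (Lam a * n * ((Lam a * n * r) ^ k / (k.factorial : ℝ)))) ≤
          H B r := by
        intro r hr
        set E : ℝ := K * ((Lam a * n * r) ^ k / (k.factorial : ℝ)) with hE
        have hE0 : 0 ≤ E := by positivity
        have h1 : ∀ i ∈ B, -(Lam a * E) ≤ ∑' k : ℤ, a k * z (mv B i k) r := by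
          intro i hi
          have h2 : HasSum (fun k => a k * (-E)) (Lam a * (-E)) := hk.summable.hasSum.mul_right _
          have h3 := (summable_du hk (fun k => hK (mv B i k) r)).hasSum
          have := hasSum_le (fun k => mul_le_mul_of_nonneg_left
            (ih (mv B i k) ((card_mv hi k).trans hB) r hr) (hk.nonneg k)) h2 h3
          linarith
        have h4 : ∑ i ∈ B, -(Lam a * E) ≤ H B r := Finset.sum_le_sum h1
        rw [Finset.sum_const, nsmul_eq_mul] at h4
        refine le_trans ?_ h4
        have h5 : K * (Lam a * n * ((Lam a * n * r) ^ k / (k.factorial : ℝ))) =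
            (n : ℝ) * (Lam a * E) := by rw [hE]; ring
        rw [h5]
        have h6 : (B.card : ℝ) * (Lam a * E) ≤ n * (Lam a * E) := by
          gcongr
        linarith
      have hd := hduh B s hs
      have hexp : ∀ r, 0 < Real.exp (Lam a * B.card * r) := fun r => Real.exp_pos _
      have hint : -(Real.exp (Lam a * B.card * s) *
          (K * ((Lam a * n * s) ^ (k + 1) / ((k + 1).factorial : ℝ)))) ≤
          ∫ r in (0 : ℝ)..s, Real.exp (Lam a * B.card * r) * H B r := by
        have h7 : ∫ r in (0 : ℝ)..s, -(Real.exp (Lam a * B.card * s) * (K *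
            (Lam a * n * ((Lam a * n * r) ^ k / (k.factorial : ℝ))))) =
            -(Real.exp (Lam a * B.card * s) *
          (K * ((Lam a * n * s) ^ (k + 1) / ((k + 1).factorial : ℝ)))) := by
          rw [intervalIntegral.integral_neg, intervalIntegral.integral_const_mul,
            intervalIntegral.integral_const_mul, integral_pow_aux]
        rw [← h7]
        refine intervalIntegral.integral_mono_on hs ?_ ?_ fun r hr => ?_
        · exact Continuous.intervalIntegrable (by fun_prop) _ _
        · refine Continuous.intervalIntegrable ?_ _ _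
          exact (by fun_prop : Continuous fun r => Real.exp (Lam a * B.card * r)).mul (hHc B)
        · have h8 := hHlow r hr.1
          set E : ℝ := K * (Lam a * n * ((Lam a * n * r) ^ k / (k.factorial : ℝ))) with hE
          have hr0 := hr.1
          have hE0 : 0 ≤ E := by positivity
          have h9 : Real.exp (Lam a * B.card * r) ≤ Real.exp (Lam a * B.card * s) := by
            apply Real.exp_le_exp.2
            exact mul_le_mul_of_nonneg_left hr.2 (mul_nonneg hL hB0)
          have h10 : Real.exp (Lam a * B.card * r) * E ≤ Real.exp (Lam a * B.card * s) * E :=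
            mul_le_mul_of_nonneg_right h9 hE0
          have h11 := mul_le_mul_of_nonneg_left h8 (hexp r).le
          linarith
      have h12 := h0 B
      have h13 : Real.exp (Lam a * B.card * s) *
          -(K * ((Lam a * n * s) ^ (k + 1) / ((k + 1).factorial : ℝ))) ≤
          Real.exp (Lam a * B.card * s) * z B s := by
        rw [hd]
        linarith
      exact le_of_mul_le_mul_left h13 (hexp s)
  have hlim : Tendsto (fun k : ℕ => -(K * ((Lam a * n * t) ^ k / (k.factorial : ℝ)))) atTop
      (𝓝 (-(K * 0))) :=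
    ((FloorSemiring.tendsto_pow_div_factorial_atTop (Lam a * n * t)).const_mul K).neg
  have := ge_of_tendsto' (b := z A t) (x := atTop) (f := fun _ : ℕ => z A t)
    tendsto_const_nhds (fun _ => le_refl (z A t))
  have h14 := le_of_tendsto' hlim fun k => key k A le_rfl t ht
  simpa using h14

/-- a solution restricted to nonnegative times -/
lemma WW_system (hk : IsKernel a) (b : Bool) (m : St) (A : Finset ℤ) {t : ℝ} (ht : 0 ≤ t) :
    WW a b m A (max t 0) = WW a b m A (max 0 0) + ∫ s in (0 : ℝ)..t,
      ∑ i ∈ A, ∑' k : ℤ, a k * (WW a b m (mv A i k) (max s 0) - WW a b m A (max s 0)) := by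
  rw [max_eq_left ht, max_self, WW_forward hk b m A ht]
  congr 1
  refine intervalIntegral.integral_congr fun s hs => ?_
  rw [Set.uIcc_of_le ht] at hs
  simp only [max_eq_left hs.1]

lemma WW_rhs_continuous (hk : IsKernel a) (b : Bool) (m : St) (A : Finset ℤ) :
    Continuous fun s : ℝ =>
      ∑ i ∈ A, ∑' k : ℤ, a k * (WW a b m (mv A i k) (max s 0) - WW a b m A (max s 0)) := by
  refine continuous_finsetSum _ fun i _ => ?_
  refine continuous_tsum (u := fun k => a k * 2)
    (fun k => continuous_const.mul ((WW_continuous hk b m _).sub (WW_continuous hk b m _)))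
    (hk.summable.mul_right 2) fun k s => ?_
  rw [Real.norm_eq_abs, abs_mul, abs_of_nonneg (hk.nonneg k)]
  refine mul_le_mul_of_nonneg_left ?_ (hk.nonneg k)
  have h1 := abs_le.1 (WW_abs (a := a) b m (mv A i k) (max s 0))
  have h2 := abs_le.1 (WW_abs (a := a) b m A (max s 0))
  rw [abs_le]
  constructor <;> linarith [h1.1, h1.2, h2.1, h2.2]

/-- subadditivity for finite sets of sites -/
lemma WW_sub_add (hk : IsKernel a) {m m₁ m₂ : St}
    (h : ∀ i, cf true m i = true → cf false m₁ i = true ∨ cf true m₂ i = true)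
    (A : Finset ℤ) {t : ℝ} (ht : 0 ≤ t) :
    WW a true m A t ≤ WW a false m₁ A t + WW a true m₂ A t := by
  have hpos := du_pos hk (z := fun A t => WW a false m₁ A (max t 0) + WW a true m₂ A (max t 0) -
    WW a true m A (max t 0)) (K := 3)
    (fun A t => by
      have h1 := abs_le.1 (WW_abs (a := a) false m₁ A (max t 0))
      have h2 := abs_le.1 (WW_abs (a := a) true m₂ A (max t 0))
      have h3 := abs_le.1 (WW_abs (a := a) true m A (max t 0))
      rw [abs_le]
      constructor <;> linarith [h1.1, h1.2, h2.1, h2.2, h3.1, h3.2])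
    (fun A => ((WW_continuous hk false m₁ A).add (WW_continuous hk true m₂ A)).sub
      (WW_continuous hk true m A))
    (fun A t ht => by
      rw [WW_system hk false m₁ A ht, WW_system hk true m₂ A ht, WW_system hk true m A ht]
      have i1 := (WW_rhs_continuous hk false m₁ A).intervalIntegrable (μ := volume) 0 t
      have i2 := (WW_rhs_continuous hk true m₂ A).intervalIntegrable (μ := volume) 0 t
      have i3 := (WW_rhs_continuous hk true m A).intervalIntegrable (μ := volume) 0 t
      have e : ∀ s : ℝ, ∑ i ∈ A, ∑' k : ℤ, a k * (WW a false m₁ (mv A i k) (max s 0) +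
          WW a true m₂ (mv A i k) (max s 0) - WW a true m (mv A i k) (max s 0) -
          (WW a false m₁ A (max s 0) + WW a true m₂ A (max s 0) - WW a true m A (max s 0))) =
          (∑ i ∈ A, ∑' k : ℤ, a k * (WW a false m₁ (mv A i k) (max s 0) -
            WW a false m₁ A (max s 0))) +
          (∑ i ∈ A, ∑' k : ℤ, a k * (WW a true m₂ (mv A i k) (max s 0) -
            WW a true m₂ A (max s 0))) -
          (∑ i ∈ A, ∑' k : ℤ, a k * (WW a true m (mv A i k) (max s 0) -
            WW a true m A (max s 0))) := by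
        intro s
        have hb : ∀ (b : Bool) (m : St) (i k : ℤ),
            |WW a b m (mv A i k) (max s 0) - WW a b m A (max s 0)| ≤ 2 := by
          intro b m i k
          have h1 := abs_le.1 (WW_abs (a := a) b m (mv A i k) (max s 0))
          have h2 := abs_le.1 (WW_abs (a := a) b m A (max s 0))
          rw [abs_le]
          constructor <;> linarith [h1.1, h1.2, h2.1, h2.2]
        rw [← Finset.sum_add_distrib, ← Finset.sum_sub_distrib]
        refine Finset.sum_congr rfl fun i _ => ?_
        have s1 := summable_du hk (hb false m₁ i)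
        have s2 := summable_du hk (hb true m₂ i)
        have s3 := summable_du hk (hb true m i)
        rw [← s1.tsum_add s2, ← (s1.add s2).tsum_sub s3]
        exact tsum_congr fun k => by ring
      simp_rw [e]
      rw [intervalIntegral.integral_sub (i1.add i2) i3, intervalIntegral.integral_add i1 i2]
      ring)
    (fun A => by
      simp only [max_self]
      rw [WW_zero _ _ _ hk, WW_zero _ _ _ hk, WW_zero _ _ _ hk]
      unfold Fo
      by_cases h1 : ∃ i ∈ A, cf true m i = true
      · obtain ⟨i, hi, hi2⟩ := h1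
        rcases h i hi2 with h2 | h2
        · rw [if_pos (⟨i, hi, h2⟩ : ∃ i ∈ A, cf false m₁ i = true),
            if_pos (⟨i, hi, hi2⟩ : ∃ i ∈ A, cf true m i = true)]
          split_ifs <;> norm_num
        · rw [if_pos (⟨i, hi, h2⟩ : ∃ i ∈ A, cf true m₂ i = true),
            if_pos (⟨i, hi, hi2⟩ : ∃ i ∈ A, cf true m i = true)]
          split_ifs <;> norm_num
      · rw [if_neg h1]
        split_ifs <;> norm_num)
    A ht
  simp only [max_eq_left ht] at hpos
  linarith

lemma WW_eq_measure (b : Bool) (m : St) (A : Finset ℤ) (t : ℝ) :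
    ENNReal.ofReal (WW a b m A t) = Pr {ω | ∃ i ∈ A, cf b ((vc a b).X t m ω) i = true} := by
  have hmeas : MeasurableSet {ω | ∃ i ∈ A, cf b ((vc a b).X t m ω) i = true} :=
    (vc a b).measurable_Xx t m (MeasurableSet.of_discrete
      (s := {x : St | ∃ i ∈ A, cf b x i = true}))
  have h : WW a b m A t = ∫ ω, ({ω | ∃ i ∈ A, cf b ((vc a b).X t m ω) i = true}.indicator
      (fun _ => (1 : ℝ))) ω ∂Pr := by
    unfold WW
    refine integral_congr_ae (Eventually.of_forall fun ω => ?_)
    simp only [Fo, Set.indicator, Set.mem_ofPred_eq]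
  rw [h, integral_indicator_const _ hmeas, smul_eq_mul, mul_one, ofReal_measureReal]

theorem sub_add (hk : IsKernel a) {m m₁ m₂ : St}
    (h : ∀ i, cf true m i = true → cf false m₁ i = true ∨ cf true m₂ i = true) {t : ℝ}
    (ht : 0 ≤ t) (r : ℝ) :
    Pr {ω | low true ((vc a true).X t m ω) r} ≤
      Pr {ω | (vc a false).X t m₁ ω ≠ ∅} + Pr {ω | low true ((vc a true).X t m₂ ω) r} := by
  set E : ℕ → Set Om := fun n =>
    {ω | ∃ i ∈ Finset.Icc (-(n : ℤ)) ⌊r⌋, cf true ((vc a true).X t m ω) i = true} with hE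
  have hmono : Monotone E := by
    intro n n' hn ω
    rintro ⟨i, hi, hi2⟩
    refine ⟨i, ?_, hi2⟩
    rw [Finset.mem_Icc] at hi ⊢
    have : (n : ℤ) ≤ n' := by exact_mod_cast hn
    exact ⟨by linarith [hi.1], hi.2⟩
  have hU : {ω | low true ((vc a true).X t m ω) r} = ⋃ n, E n := by
    ext ω
    simp only [Set.mem_ofPred_eq, Set.mem_iUnion, hE, low]
    constructor
    · rintro ⟨i, h1, h2⟩
      refine ⟨i.natAbs, i, ?_, h2⟩
      rw [Finset.mem_Icc]
      refine ⟨?_, Int.le_floor.2 h1⟩
      have := neg_abs_le i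
      rw [Int.natCast_natAbs]
      exact this
    · rintro ⟨n, i, hi, h2⟩
      rw [Finset.mem_Icc] at hi
      exact ⟨i, Int.le_floor.1 hi.2, h2⟩
  rw [hU, hmono.measure_iUnion]
  refine iSup_le fun n => ?_
  have h1 := WW_sub_add hk h (Finset.Icc (-(n : ℤ)) ⌊r⌋) ht
  have h2 := ENNReal.ofReal_le_ofReal h1
  rw [ENNReal.ofReal_add (WW_nonneg _ _ _ _) (WW_nonneg _ _ _ _), WW_eq_measure, WW_eq_measure,
    WW_eq_measure] at h2
  refine h2.trans (add_le_add (measure_mono ?_) (measure_mono ?_))
  · rintro ω ⟨i, -, hi⟩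
    simp only [Set.mem_ofPred_eq]
    intro h0
    rw [h0] at hi
    simp [cf_false] at hi
  · rintro ω ⟨i, hi, hi2⟩
    rw [Finset.mem_Icc] at hi
    exact ⟨i, Int.le_floor.1 hi.2, hi2⟩

/-- a site keeps its value during `[0, t]` with probability at least `exp (- Lam t)`:
`Chain.sub` with `W t m n = exp (- Lam t) 1{x(i) = 1}` -/
theorem keep (hk : IsKernel a) {m : St} {i : ℤ} (hi : cf true m i = true) {t : ℝ} (ht : 0 ≤ t) :
    ENNReal.ofReal (Real.exp (-(Lam a * t))) ≤
      Pr {ω | cf true ((vc a true).X t m ω) i = true} := by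
  have hset : {ω | cf true ((vc a true).X t m ω) i = true} =
      {ω | ∃ j ∈ ({i} : Finset ℤ), cf true ((vc a true).X t m ω) j = true} := by
    ext ω
    simp
  rw [hset, ← WW_eq_measure]
  refine ENNReal.ofReal_le_ofReal ?_
  set z : ℝ → ℝ := fun t => WW a true m {i} (max t 0) with hz
  set H : ℝ → ℝ := fun s => ∑' k : ℤ, a k * WW a true m (mv {i} i k) (max s 0) with hH
  have hHc : Continuous H := by
    refine continuous_tsum (u := fun k => a k * 1)
      (fun k => continuous_const.mul (WW_continuous hk true m _))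
      (hk.summable.mul_right 1) fun k s => ?_
    rw [Real.norm_eq_abs, abs_mul, abs_of_nonneg (hk.nonneg k)]
    exact mul_le_mul_of_nonneg_left (WW_abs _ _ _ _) (hk.nonneg k)
  have hduh := duhamel (z := z) (H := H) (c := Lam a) (WW_continuous hk true m {i}) hHc
    (fun t ht => by
      have h1 := WW_system hk true m {i} ht
      simp only [hz]
      rw [h1]
      congr 1
      refine intervalIntegral.integral_congr fun s _ => ?_
      simp only [hH, Finset.sum_singleton]
      unfold Lam
      rw [← tsum_mul_right, ← (summable_du hk (fun k => WW_abs _ _ _ _)).tsum_sub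
        (hk.summable.mul_right _)]
      exact tsum_congr fun k => by ring) ht
  have h0 : z 0 = 1 := by
    simp only [hz, max_self]
    rw [WW_zero _ _ _ hk]
    unfold Fo
    rw [if_pos ⟨i, Finset.mem_singleton_self i, hi⟩]
  have hint : 0 ≤ ∫ s in (0 : ℝ)..t, Real.exp (Lam a * s) * H s := by
    refine intervalIntegral.integral_nonneg ht fun s _ => ?_
    refine mul_nonneg (Real.exp_pos _).le (tsum_nonneg fun k => ?_)
    exact mul_nonneg (hk.nonneg k) (WW_nonneg _ _ _ _)
  have hzt : z t = WW a true m {i} t := by simp only [hz, max_eq_left ht]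
  rw [hzt, h0] at hduh
  rw [Real.exp_neg]
  have hpos := Real.exp_pos (Lam a * t)
  rw [inv_le_iff_one_le_mul₀ hpos]
  linarith

end H40.VM
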