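import Pool.Agent.H40.VM.VB2

/-!
# Module VB5: weighted numbers of ones to the left of a site

`Vf p a₀ z m = ∑_j x(j) ρ(j)`, `ρ(j) = (min (max (a₀ - j) 0) z)^p` (finitely many nonzero terms).
It differs from `lin true ρ` by a constant, `gn (Vf) m = ∑_k a(k) ∑_j x(j) (ρ(j+k) - ρ(j))`
(for each `k` the inner sum has finitely many nonzero terms). Since `∑_k a(k) k = 0`, one may
subtract `k s_j` in the inner sum for any slopes `s_j` which vanish outside `(a₀ - z, a₀)`.

`p = 1`: `s_j = -1` for `a₀ - z ≤ j < a₀` and `0` otherwise. The excess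
`e_k(j) = ρ(j+k) - ρ(j) - k s_j` is `≤ max (k - (a₀ - j)) 0` for `j < a₀`,
`≤ max (|k| - (j - a₀)) 0 · 1{k < 0}` for `j ≥ a₀`; so `∑_j x(j) e_k(j) ≤ |k| (|k|+1)/2 ≤ k²`.

`p = 3`: `s_j = -3 i²`, `i = a₀ - j`, for `0 < i < z`, and `0` otherwise. For `0 < i < z`:
`k > 0`: excess `≤ 3 i k²`; `k = -n < 0`: excess `≤ 4 i n²` if `n ≤ i`, and
`≤ 3 i n² + (min n z)³` if `n > i`. For `i ≥ z` the excess is `≤ 0`; for `i ≤ 0` (`j ≥ a₀`) it is
`≤ (min n z)³ 1{n > j - a₀}`, `k = -n`. Sum over `j`: `≤ 4 k² Vf 1 + 2 n (min n z)³ 1{k=-n<0}`.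
-/

open MeasureTheory ProbabilityTheory Filter Topology
open scoped ENNReal NNReal unitInterval symmDiff

namespace H40.VM

open H40.Voter (IsKernel)

variable {a : ℤ → ℝ}

noncomputable def rhoV (p : ℕ) (a₀ : ℤ) (z : ℝ) (j : ℤ) : ℝ := (min (max ((a₀ : ℝ) - j) 0) z) ^ p

noncomputable def Vf (p : ℕ) (a₀ : ℤ) (z : ℝ) (m : St) : ℝ :=
  ∑' j : ℤ, if cf true m j then rhoV p a₀ z j else 0

lemma rhoV_nonneg (p : ℕ) (a₀ : ℤ) {z : ℝ} (hz : 0 < z) (j : ℤ) : 0 ≤ rhoV p a₀ z j :=
  pow_nonneg (le_min (le_max_right _ _) hz.le) p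

lemma rhoV_le (p : ℕ) (a₀ : ℤ) {z : ℝ} (hz : 0 < z) (j : ℤ) : rhoV p a₀ z j ≤ z ^ p :=
  pow_le_pow_left₀ (le_min (le_max_right _ _) hz.le) (min_le_right _ _) p

lemma rhoV_zero {p : ℕ} (hp : 0 < p) {a₀ : ℤ} {z : ℝ} (hz : 0 < z) {j : ℤ} (hj : a₀ ≤ j) :
    rhoV p a₀ z j = 0 := by
  unfold rhoV
  have h1 : (a₀ : ℝ) - j ≤ 0 := by
    have : (a₀ : ℝ) ≤ j := by exact_mod_cast hj
    linarith
  rw [max_eq_right h1, min_eq_left hz.le, zero_pow hp.ne']

lemma Vf_nonneg (p : ℕ) (a₀ : ℤ) {z : ℝ} (hz : 0 < z) (m : St) : 0 ≤ Vf p a₀ z m := by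
  refine tsum_nonneg fun j => ?_
  split_ifs
  · exact rhoV_nonneg p a₀ hz j
  · exact le_rfl

lemma Vf_eq_zero {p : ℕ} (hp : 0 < p) (a₀ : ℤ) {z : ℝ} (hz : 0 < z) {m : St}
    (hm : ∀ i < a₀, cf true m i = false) : Vf p a₀ z m = 0 := by
  have h : ∀ j : ℤ, (if cf true m j then rhoV p a₀ z j else 0) = 0 := by
    intro j
    rcases lt_or_ge j a₀ with h | h
    · rw [if_neg (by rw [hm j h]; simp)]
    · rw [rhoV_zero hp hz h, ite_self]
  unfold Vf
  simp only [h, tsum_zero]

lemma ones_finite (m : St) (M : ℤ) : {j : ℤ | j < M ∧ cf true m j = true}.Finite := by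
  refine (no_finite true m (M : ℝ)).subset ?_
  rintro j ⟨h1, h2⟩
  exact ⟨by exact_mod_cast h1.le, h2⟩

lemma summable_Vf {p : ℕ} (hp : 0 < p) (a₀ : ℤ) {z : ℝ} (hz : 0 < z) (m : St) :
    Summable fun j : ℤ => if cf true m j then rhoV p a₀ z j else 0 := by
  refine summable_of_ne_finset_zero (s := (ones_finite m a₀).toFinset) fun j hj => ?_
  rw [Set.Finite.mem_toFinset] at hj
  by_cases h : cf true m j = true
  · rw [if_pos h]
    refine rhoV_zero hp hz ?_
    by_contra hc
    exact hj ⟨not_le.1 hc, h⟩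
  · rw [if_neg h]

lemma pow_mul_no_le {p : ℕ} (hp : 0 < p) (a₀ : ℤ) {z : ℝ} (hz : 0 < z) (m : St) :
    z ^ p * no true m (a₀ - z) ≤ Vf p a₀ z m := by
  classical
  have hfin := no_finite true m ((a₀ : ℝ) - z)
  have h1 : z ^ p * no true m (a₀ - z) = ∑ j ∈ hfin.toFinset, z ^ p := by
    rw [Finset.sum_const, nsmul_eq_mul, mul_comm]
    unfold no
    rw [Set.ncard_eq_toFinset_card _ hfin]
  rw [h1]
  refine le_trans (Finset.sum_le_sum (g := fun j => if cf true m j then rhoV p a₀ z j else 0)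
    fun j hj => ?_) ((summable_Vf hp a₀ hz m).sum_le_tsum _ fun j _ => ?_)
  · rw [Set.Finite.mem_toFinset] at hj
    obtain ⟨h2, h3⟩ := hj
    rw [if_pos h3]
    unfold rhoV
    have h4 : z ≤ (a₀ : ℝ) - j := by linarith
    rw [max_eq_left (hz.le.trans h4), min_eq_right h4]
  · split_ifs
    · exact rhoV_nonneg p a₀ hz j
    · exact le_rfl

lemma Vf_fl {p : ℕ} (hp : 0 < p) (a₀ : ℤ) {z : ℝ} (hz : 0 < z) (m : St) (j : ℤ) :
    Vf p a₀ z (fl m j) = Vf p a₀ z m + (if cf true m j then -rhoV p a₀ z j else rhoV p a₀ z j) := by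
  classical
  have h1 := (summable_Vf hp a₀ hz (fl m j)).hasSum.sub (summable_Vf hp a₀ hz m).hasSum
  have h2 : HasSum (fun i : ℤ => (if cf true (fl m j) i then rhoV p a₀ z i else 0) -
      (if cf true m i then rhoV p a₀ z i else 0))
      (∑ i ∈ ({j} : Finset ℤ), ((if cf true (fl m j) i then rhoV p a₀ z i else 0) -
      (if cf true m i then rhoV p a₀ z i else 0))) := by
    refine hasSum_sum_of_ne_finset_zero fun i hi => ?_
    rw [Finset.mem_singleton] at hi
    rw [cf_fl, if_neg hi, sub_self]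
  have h3 := h1.unique h2
  rw [Finset.sum_singleton, cf_fl, if_pos rfl] at h3
  have h4 : Vf p a₀ z (fl m j) - Vf p a₀ z m = (if (!cf true m j) then rhoV p a₀ z j else 0) -
      (if cf true m j then rhoV p a₀ z j else 0) := h3
  have h5 : Vf p a₀ z (fl m j) = Vf p a₀ z m + ((if (!cf true m j) then rhoV p a₀ z j else 0) -
      (if cf true m j then rhoV p a₀ z j else 0)) := by rw [← h4]; ring
  rw [h5]
  cases cf true m j <;> simp

lemma summable_rt_Vf (hk : IsKernel a) {p : ℕ} (hp : 0 < p) (a₀ : ℤ) {z : ℝ} (hz : 0 < z)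
    (m : St) : Summable fun j : ℤ => rt a true m j * Vf p a₀ z (fl m j) := by
  refine Summable.of_nonneg_of_le (fun j => mul_nonneg (rt_nonneg hk true m j)
    (Vf_nonneg p a₀ hz _)) (fun j => mul_le_mul_of_nonneg_left ?_ (rt_nonneg hk true m j))
    ((summable_rt hk true m).mul_right (Vf p a₀ z m + z ^ p))
  rw [Vf_fl hp a₀ hz]
  have h1 := rhoV_nonneg p a₀ hz j
  have h2 := rhoV_le p a₀ hz j
  split_ifs <;> linarith

lemma xv_nonneg (m : St) (j : ℤ) : 0 ≤ xv true m j := by
  unfold xv; split_ifs <;> norm_num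

lemma xv_mul (m : St) (j : ℤ) (r : ℝ) : xv true m j * r = if cf true m j then r else 0 := by
  unfold xv; split_ifs <;> simp

lemma summable_a_mul (hk : IsKernel a) : Summable fun k : ℤ => a k * (k : ℝ) := by
  refine Summable.of_norm_bounded (hk.summable.add hk.second_moment) fun k => ?_
  rw [Real.norm_eq_abs, abs_mul, abs_of_nonneg (hk.nonneg k)]
  have h1 : |(k : ℝ)| ≤ 1 + (k : ℝ) ^ 2 := by
    have := sq_nonneg (|(k : ℝ)| - 1)
    have h2 := sq_abs (k : ℝ)
    have h3 := abs_nonneg (k : ℝ)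
    nlinarith
  have h2 := mul_le_mul_of_nonneg_left h1 (hk.nonneg k)
  linarith

/-- upper bound for the generator of `Vf`, after centering with the slopes `s` -/
lemma gn_Vf_le (hk : IsKernel a) (hc : mn a = 0) {p : ℕ} (hp : 0 < p) (a₀ : ℤ) {z : ℝ}
    (hz : 0 < z) (m : St) (s : ℤ → ℝ) (T : Finset ℤ) (hs : ∀ j ∉ T, s j = 0) (Bd : ℤ → ℝ)
    (hBd : Summable fun k : ℤ => a k * Bd k)
    (hle : ∀ (k : ℤ) (v : ℝ), HasSum (fun j : ℤ => xv true m j *
      (rhoV p a₀ z (j + k) - rhoV p a₀ z j - k * s j)) v → v ≤ Bd k) :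
    gn a true (Vf p a₀ z) m ≤ ∑' k : ℤ, a k * Bd k := by
  have hlin : gn a true (Vf p a₀ z) m = gn a true (lin true (rhoV p a₀ z)) m := by
    unfold gn
    refine tsum_congr fun j => ?_
    rw [Vf_fl hp a₀ hz, lin_fl]
    ring
  have hρ : Summable fun j : ℤ => rt a true m j * |rhoV p a₀ z j| := by
    refine Summable.of_nonneg_of_le (fun j => mul_nonneg (rt_nonneg hk true m j) (abs_nonneg _))
      (fun j => mul_le_mul_of_nonneg_left ?_ (rt_nonneg hk true m j))
      ((summable_rt hk true m).mul_right (z ^ p))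
    rw [abs_of_nonneg (rhoV_nonneg p a₀ hz j)]
    exact rhoV_le p a₀ hz j
  obtain ⟨h1, h2⟩ := gn_lin' hk true (rhoV p a₀ z) m hρ
  have hA : ∀ k : ℤ, Summable fun j : ℤ => xv true m j * rhoV p a₀ z (j + k) := by
    intro k
    refine summable_of_ne_finset_zero (s := (ones_finite m (a₀ - k)).toFinset) fun j hj => ?_
    rw [Set.Finite.mem_toFinset] at hj
    by_cases h : cf true m j = true
    · rw [rhoV_zero hp hz, mul_zero]
      by_contra hc'
      exact hj ⟨by omega, h⟩
    · unfold xv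
      rw [if_neg h, zero_mul]
  set A : ℤ → ℝ := fun k => ∑' j : ℤ, xv true m j * rhoV p a₀ z (j + k) with hAdef
  have hAs : ∀ k, HasSum (fun j : ℤ => xv true m j * rhoV p a₀ z (j + k)) (A k) :=
    fun k => (hA k).hasSum
  have hA0 : HasSum (fun j : ℤ => xv true m j * rhoV p a₀ z j) (A 0) := by
    have := hAs 0
    simpa using this
  have hinner : ∀ k : ℤ, ∑' j : ℤ, rhoV p a₀ z j * (xv true m (j - k) - xv true m j) =
      A k - A 0 := by
    intro k
    have h3 : HasSum (fun j : ℤ => xv true m (j - k) * rhoV p a₀ z j) (A k) := by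
      have := (Equiv.hasSum_iff (Equiv.addRight (-k))).2 (hAs k)
      refine this.congr_fun fun j => ?_
      simp only [Function.comp, Equiv.coe_addRight, ← sub_eq_add_neg, sub_add_cancel]
    have h4 := h3.sub hA0
    have h5 : HasSum (fun j : ℤ => rhoV p a₀ z j * (xv true m (j - k) - xv true m j))
        (A k - A 0) := h4.congr_fun fun j => by ring
    exact h5.tsum_eq
  simp only [hinner] at h1 h2
  set Sm : ℝ := ∑ j ∈ T, xv true m j * s j with hSm
  have hSs : HasSum (fun j : ℤ => xv true m j * s j) Sm :=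
    hasSum_sum_of_ne_finset_zero fun j hj => by rw [hs j hj, mul_zero]
  have hv : ∀ k : ℤ, A k - A 0 - k * Sm ≤ Bd k := by
    intro k
    refine hle k _ ?_
    have := ((hAs k).sub hA0).sub (hSs.mul_left (k : ℝ))
    exact this.congr_fun fun j => by ring
  have h6 : HasSum (fun k : ℤ => a k * (k : ℝ) * Sm) (mn a * Sm) :=
    (summable_a_mul hk).hasSum.mul_right Sm
  rw [hc, zero_mul] at h6
  have h7 := h1.hasSum.sub h6
  rw [sub_zero] at h7
  rw [hlin, h2]
  refine hasSum_le (fun k => ?_) h7 hBd.hasSum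
  have := mul_le_mul_of_nonneg_left (hv k) (hk.nonneg k)
  linarith

/-- the truncation -/
noncomputable def trc (z u : ℝ) : ℝ := min (max u 0) z

lemma trc_nonneg {z : ℝ} (hz : 0 < z) (u : ℝ) : 0 ≤ trc z u := le_min (le_max_right _ _) hz.le

lemma trc_le (z u : ℝ) : trc z u ≤ z := min_le_right _ _

lemma trc_of_nonpos {z : ℝ} (hz : 0 < z) {u : ℝ} (hu : u ≤ 0) : trc z u = 0 := by
  unfold trc
  rw [max_eq_right hu, min_eq_left hz.le]

lemma trc_of_le {z : ℝ} {u : ℝ} (hu : 0 ≤ u) (hz : u ≤ z) : trc z u = u := by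
  unfold trc
  rw [max_eq_left hu, min_eq_left hz]

lemma trc_of_ge {z : ℝ} (hz : 0 < z) {u : ℝ} (hu : z ≤ u) : trc z u = z := by
  unfold trc
  rw [max_eq_left (hz.le.trans hu), min_eq_right hu]

lemma trc_le_self {z : ℝ} {u : ℝ} (hu : 0 ≤ u) : trc z u ≤ u := by
  unfold trc
  rw [max_eq_left hu]
  exact min_le_left _ _

lemma rhoV_eq (p : ℕ) (a₀ : ℤ) (z : ℝ) (j : ℤ) :
    rhoV p a₀ z j = trc z ((a₀ : ℝ) - j) ^ p := rfl

theorem gn_V1 (hk : IsKernel a) (hc : mn a = 0) (a₀ : ℤ) {z : ℝ} (hz : 0 < z) (m : St) :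
    gn a true (Vf 1 a₀ z) m ≤ sg a := by
  classical
  refine gn_Vf_le hk hc one_pos a₀ hz m
    (fun j => if 0 < (a₀ : ℝ) - j ∧ (a₀ : ℝ) - j ≤ z then -1 else 0)
    (Finset.Ico (a₀ - ⌈z⌉) a₀) (fun j hj => ?_) (fun k => (k : ℝ) ^ 2) hk.second_moment
    fun k v hv => ?_
  · rw [if_neg]
    rintro ⟨h1, h2⟩
    apply hj
    rw [Finset.mem_Ico]
    constructor
    · have h3 : (a₀ : ℝ) - ⌈z⌉ ≤ j := by
        have := Int.le_ceil z
        linarith
      exact_mod_cast h3
    · have h3 : (j : ℝ) < a₀ := by linarith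
      exact_mod_cast h3
  · set J : Finset ℤ := Finset.Ioo (a₀ - k) a₀ ∪ Finset.Ico a₀ (a₀ - k) with hJ
    have hcard : (J.card : ℝ) ≤ |(k : ℝ)| := by
      have h1 : J.card ≤ k.natAbs := by
        refine (Finset.card_union_le _ _).trans ?_
        rw [Int.card_Ioo, Int.card_Ico]
        omega
      have h2 : ((k.natAbs : ℕ) : ℝ) = |(k : ℝ)| := by
        rw [← Int.cast_abs, Nat.cast_natAbs]
      rw [← h2]
      exact_mod_cast h1
    have hsum : HasSum (fun j : ℤ => if j ∈ J then |(k : ℝ)| else 0) (∑ j ∈ J, |(k : ℝ)|) := by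
      have := hasSum_sum_of_ne_finset_zero (f := fun j : ℤ => if j ∈ J then |(k : ℝ)| else 0)
        (s := J) (L := SummationFilter.unconditional ℤ) fun j hj => if_neg hj
      have e : ∑ j ∈ J, (if j ∈ J then |(k : ℝ)| else 0) = ∑ j ∈ J, |(k : ℝ)| :=
        Finset.sum_congr rfl fun j hj => if_pos hj
      rwa [e] at this
    refine (hasSum_le (fun j => ?_) hv hsum).trans ?_
    · -- pointwise
      have hkey : rhoV 1 a₀ z (j + k) - rhoV 1 a₀ z j -
          k * (if 0 < (a₀ : ℝ) - j ∧ (a₀ : ℝ) - j ≤ z then -1 else 0) ≤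
          if j ∈ J then |(k : ℝ)| else 0 := by
        rw [rhoV_eq, rhoV_eq, pow_one, pow_one]
        push_cast
        rw [← sub_sub]
        have hJ' : j ∈ J ↔ ((a₀ - k < j ∧ j < a₀) ∨ (a₀ ≤ j ∧ j < a₀ - k)) := by
          rw [hJ, Finset.mem_union, Finset.mem_Ioo, Finset.mem_Ico]
        rcases lt_or_ge j a₀ with h1 | h1
        · have h1' : (0 : ℝ) < (a₀ : ℝ) - j := by
            have : (j : ℝ) < a₀ := by exact_mod_cast h1
            linarith
          rcases le_or_gt ((a₀ : ℝ) - j) z with h2 | h2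
          · rw [if_pos ⟨h1', h2⟩, trc_of_le h1'.le h2]
            rcases le_or_gt ((a₀ : ℝ) - j) k with h3 | h3
            · rw [trc_of_nonpos hz (by linarith)]
              by_cases h4 : j ∈ J
              · rw [if_pos h4]
                have := le_abs_self (k : ℝ)
                linarith
              · rw [if_neg h4]
                have h5 : ¬ (a₀ - k < j) := fun h => h4 (hJ'.2 (Or.inl ⟨h, h1⟩))
                have h6 : (j : ℝ) ≤ a₀ - k := by exact_mod_cast (not_lt.1 h5)
                linarith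
            · have h4 := trc_le_self (z := z) (u := (a₀ : ℝ) - j - k) (by linarith)
              have h5 : (0 : ℝ) ≤ if j ∈ J then |(k : ℝ)| else 0 := by
                split_ifs
                · exact abs_nonneg _
                · exact le_rfl
              linarith
          · rw [if_neg (fun h => absurd h.2 (not_le.2 h2)), trc_of_ge hz h2.le]
            have h4 := trc_le z ((a₀ : ℝ) - j - k)
            have h5 : (0 : ℝ) ≤ if j ∈ J then |(k : ℝ)| else 0 := by
              split_ifs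
              · exact abs_nonneg _
              · exact le_rfl
            linarith
        · have h1' : (a₀ : ℝ) - j ≤ 0 := by
            have : (a₀ : ℝ) ≤ j := by exact_mod_cast h1
            linarith
          rw [if_neg (fun h => absurd h.1 (not_lt.2 h1')), trc_of_nonpos hz h1']
          rcases lt_or_ge j (a₀ - k) with h2 | h2
          · rw [if_pos (hJ'.2 (Or.inr ⟨h1, h2⟩))]
            have h3 : (j : ℝ) < a₀ - k := by exact_mod_cast h2
            have h4 := trc_le_self (z := z) (u := (a₀ : ℝ) - j - k) (by linarith)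
            have h5 := neg_abs_le (k : ℝ)
            linarith
          · have h3 : (a₀ : ℝ) - k ≤ j := by exact_mod_cast h2
            rw [trc_of_nonpos hz (by linarith)]
            have h5 : (0 : ℝ) ≤ if j ∈ J then |(k : ℝ)| else 0 := by
              split_ifs
              · exact abs_nonneg _
              · exact le_rfl
            linarith
      rw [xv_mul]
      split_ifs at hkey ⊢ <;> first | exact hkey | exact abs_nonneg _ | exact le_rfl
    · rw [Finset.sum_const, nsmul_eq_mul]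
      calc (J.card : ℝ) * |(k : ℝ)| ≤ |(k : ℝ)| * |(k : ℝ)| :=
            mul_le_mul_of_nonneg_right hcard (abs_nonneg _)
        _ = (k : ℝ) ^ 2 := by rw [← sq, sq_abs]

/-- the pointwise inequality for the cubes -/
lemma cube_le {z : ℝ} (hz : 0 < z) (u k : ℝ) :
    trc z (u - k) ^ 3 - trc z u ^ 3 - k * (if 0 < u ∧ u < z then -(3 * u ^ 2) else 0) ≤
      4 * k ^ 2 * trc z u + (if k < 0 ∧ |u| < -k then (min (-k) z) ^ 3 else 0) := by
  have hmin : k < 0 → 0 ≤ min (-k) z := fun h => le_min (by linarith) hz.le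
  have hlast : 0 ≤ (if k < 0 ∧ |u| < -k then (min (-k) z) ^ 3 else 0) := by
    split_ifs with h
    · exact pow_nonneg (hmin h.1) 3
    · exact le_rfl
  rcases le_or_gt u 0 with h1 | h1
  · rw [if_neg (fun h => absurd h.1 (not_lt.2 h1)), trc_of_nonpos hz h1]
    rcases le_or_gt u k with h2 | h2
    · rw [trc_of_nonpos hz (by linarith)]
      linarith
    · have hk0 : k < 0 := lt_of_lt_of_le h2 h1
      rw [if_pos ⟨hk0, by rw [abs_of_nonpos h1]; linarith⟩]
      have h3 : trc z (u - k) ≤ min (-k) z := by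
        refine le_min ?_ (trc_le _ _)
        exact (trc_le_self (by linarith)).trans (by linarith)
      have h4 := pow_le_pow_left₀ (trc_nonneg hz (u - k)) h3 3
      linarith
  · rcases le_or_gt z u with h2 | h2
    · rw [if_neg (fun h => absurd h.2 (not_lt.2 h2)), trc_of_ge hz h2]
      have h4 := pow_le_pow_left₀ (trc_nonneg hz (u - k)) (trc_le z (u - k)) 3
      have : 0 ≤ 4 * k ^ 2 * z := by positivity
      linarith
    · rw [if_pos ⟨h1, h2⟩, trc_of_le h1.le h2.le]
      rcases le_or_gt 0 k with h3 | h3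
      · have h5 : 0 ≤ k ^ 3 := pow_nonneg h3 3
        have h6 : 0 ≤ k ^ 2 * u := by positivity
        rcases le_or_gt k u with h4 | h4
        · rw [trc_of_le (by linarith) (by linarith)]
          have e : (u - k) ^ 3 - u ^ 3 - k * -(3 * u ^ 2) = 3 * (k ^ 2 * u) - k ^ 3 := by ring
          rw [e]
          linarith
        · rw [trc_of_nonpos hz (by linarith)]
          have h7 : 0 ≤ k * u * (k - u) := by
            have : 0 ≤ k - u := by linarith
            positivity
          have h8 : 0 ≤ u ^ 3 := by positivity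
          nlinarith
      · set n : ℝ := -k with hn
        have hn0 : 0 < n := by rw [hn]; linarith
        have hkn : k = -n := by rw [hn]; ring
        rw [hkn]
        have e0 : u - -n = u + n := by ring
        rw [e0]
        have h4 : trc z (u + n) ^ 3 ≤ (u + n) ^ 3 :=
          pow_le_pow_left₀ (trc_nonneg hz _) (trc_le_self (by linarith)) 3
        have h5 : trc z (u + n) ^ 3 ≤ z ^ 3 :=
          pow_le_pow_left₀ (trc_nonneg hz _) (trc_le _ _) 3
        have h6 : 0 ≤ n ^ 2 * u := by positivity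
        have h7 : 0 ≤ u ^ 2 * n := by positivity
        have h8 : 0 ≤ u ^ 3 := by positivity
        have e1 : (u + n) ^ 3 = u ^ 3 + 3 * (u ^ 2 * n) + 3 * (n ^ 2 * u) + n ^ 3 := by ring
        have e2 : -n * -(3 * u ^ 2) = 3 * (u ^ 2 * n) := by ring
        have e3 : (-n) ^ 2 = n ^ 2 := by ring
        rw [e2, e3, neg_neg]
        by_cases h9 : u < n
        · rw [if_pos ⟨by linarith, by rw [abs_of_pos h1]; exact h9⟩]
          rcases le_total n z with h10 | h10
          · rw [min_eq_left h10]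
            linarith
          · rw [min_eq_right h10]
            linarith
        · have h10 : n ^ 3 ≤ n ^ 2 * u := by
            have : n ^ 3 = n ^ 2 * n := by ring
            rw [this]
            exact mul_le_mul_of_nonneg_left (not_lt.1 h9) (sq_nonneg n)
          rw [if_neg (fun h => h9 (by rw [abs_of_pos h1] at h; exact h.2))]
          linarith

theorem gn_V3 (hk : IsKernel a) (hc : mn a = 0) (a₀ : ℤ) {z : ℝ} (hz : 0 < z) (m : St) :
    gn a true (Vf 3 a₀ z) m ≤ 4 * sg a * Vf 1 a₀ z m + 2 * c3 a z := by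
  classical
  set cb : ℤ → ℝ := fun k => if k < 0 then 2 * (-(k : ℝ)) * (min (-(k : ℝ)) z) ^ 3 else 0 with hcb
  have hcb0 : ∀ k, 0 ≤ cb k := by
    intro k
    simp only [hcb]
    split_ifs with h
    · have h1 : (k : ℝ) < 0 := by exact_mod_cast h
      have h2 : 0 ≤ min (-(k : ℝ)) z := le_min (by linarith) hz.le
      have h3 : 0 ≤ -(k : ℝ) := by linarith
      positivity
    · exact le_rfl
  have hcbs : Summable fun k : ℤ => a k * cb k := by
    refine Summable.of_nonneg_of_le (fun k => mul_nonneg (hk.nonneg k) (hcb0 k)) (fun k => ?_)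
      (hk.second_moment.mul_right (2 * z ^ 3))
    rw [mul_assoc]
    refine mul_le_mul_of_nonneg_left ?_ (hk.nonneg k)
    simp only [hcb]
    split_ifs with h
    · have h1 : (k : ℝ) ≤ -1 := by exact_mod_cast (by omega : k ≤ -1)
      have h2 : 0 ≤ min (-(k : ℝ)) z := le_min (by linarith) hz.le
      have h3 : (min (-(k : ℝ)) z) ^ 3 ≤ z ^ 3 := pow_le_pow_left₀ h2 (min_le_right _ _) 3
      have h4 : -(k : ℝ) ≤ (k : ℝ) ^ 2 := by nlinarith
      have h5 : 0 ≤ -(k : ℝ) := by linarith
      calc 2 * -(k : ℝ) * (min (-(k : ℝ)) z) ^ 3 ≤ 2 * -(k : ℝ) * z ^ 3 :=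
            mul_le_mul_of_nonneg_left h3 (by linarith)
        _ ≤ 2 * (k : ℝ) ^ 2 * z ^ 3 :=
            mul_le_mul_of_nonneg_right (by linarith) (by positivity)
        _ = (k : ℝ) ^ 2 * (2 * z ^ 3) := by ring
    · positivity
  have hBd : Summable fun k : ℤ => a k * (4 * (k : ℝ) ^ 2 * Vf 1 a₀ z m + cb k) := by
    refine ((hk.second_moment.mul_right (4 * Vf 1 a₀ z m)).add hcbs).congr fun k => ?_
    ring
  have htot : ∑' k : ℤ, a k * (4 * (k : ℝ) ^ 2 * Vf 1 a₀ z m + cb k) =
      4 * sg a * Vf 1 a₀ z m + 2 * c3 a z := by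
    have h1 : HasSum (fun k : ℤ => a k * (k : ℝ) ^ 2) (sg a) := hk.second_moment.hasSum
    have h2 := (h1.mul_right (4 * Vf 1 a₀ z m)).add hcbs.hasSum
    have h3 : HasSum (fun k : ℤ => a k * (4 * (k : ℝ) ^ 2 * Vf 1 a₀ z m + cb k))
        (sg a * (4 * Vf 1 a₀ z m) + ∑' k : ℤ, a k * cb k) := h2.congr_fun fun k => by ring
    rw [h3.tsum_eq]
    have h4 : ∑' k : ℤ, a k * cb k = 2 * c3 a z := by
      have hinj : Function.Injective (fun n : ℕ => -(n : ℤ)) := by
        intro x y hxy
        simpa using hxy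
      rw [← hinj.tsum_eq (f := fun k : ℤ => a k * cb k)]
      · unfold c3
        rw [← tsum_mul_left]
        refine tsum_congr fun n => ?_
        simp only [hcb]
        rcases Nat.eq_zero_or_pos n with rfl | hn
        · simp
        · rw [if_pos (by omega)]
          push_cast
          rw [neg_neg]
          ring
      · intro k hk'
        rw [Function.mem_support] at hk'
        by_cases h : k < 0
        · exact ⟨k.natAbs, by simp only; omega⟩
        · exfalso
          apply hk'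
          simp only [hcb, if_neg h, mul_zero]
    rw [h4]
    ring
  rw [← htot]
  refine gn_Vf_le hk hc (by norm_num) a₀ hz m
    (fun j => if 0 < (a₀ : ℝ) - j ∧ (a₀ : ℝ) - j < z then -(3 * ((a₀ : ℝ) - j) ^ 2) else 0)
    (Finset.Ico (a₀ - ⌈z⌉) a₀) (fun j hj => ?_) _ hBd fun k v hv => ?_
  · rw [if_neg]
    rintro ⟨h1, h2⟩
    apply hj
    rw [Finset.mem_Ico]
    constructor
    · have h3 : (a₀ : ℝ) - ⌈z⌉ ≤ j := by
        have := Int.le_ceil z
        linarith
      exact_mod_cast h3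
    · have h3 : (j : ℝ) < a₀ := by linarith
      exact_mod_cast h3
  · set J : Finset ℤ := Finset.Ioo (a₀ + k) (a₀ - k) with hJ
    have h1 : HasSum (fun j : ℤ => 4 * (k : ℝ) ^ 2 * (if cf true m j then rhoV 1 a₀ z j else 0))
        (4 * (k : ℝ) ^ 2 * Vf 1 a₀ z m) := (summable_Vf one_pos a₀ hz m).hasSum.mul_left _
    have h2 : HasSum (fun j : ℤ => if k < 0 ∧ j ∈ J then (min (-(k : ℝ)) z) ^ 3 else 0)
        (∑ j ∈ J, if k < 0 ∧ j ∈ J then (min (-(k : ℝ)) z) ^ 3 else 0) :=
      hasSum_sum_of_ne_finset_zero fun j hj => if_neg fun h => hj h.2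
    refine (hasSum_le (fun j => ?_) hv (h1.add h2)).trans ?_
    · have hkey := cube_le hz ((a₀ : ℝ) - j) k
      have hmem : (k < 0 ∧ j ∈ J) ↔ ((k : ℝ) < 0 ∧ |(a₀ : ℝ) - j| < -(k : ℝ)) := by
        rw [hJ, Finset.mem_Ioo, abs_lt]
        constructor
        · rintro ⟨h3, h4, h5⟩
          have h3' : (k : ℝ) < 0 := by exact_mod_cast h3
          have h4' : (a₀ : ℝ) + k < j := by exact_mod_cast h4
          have h5' : (j : ℝ) < a₀ - k := by exact_mod_cast h5
          exact ⟨h3', by linarith, by linarith⟩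
        · rintro ⟨h3, h4, h5⟩
          refine ⟨by exact_mod_cast h3, ?_, ?_⟩
          · have : (a₀ : ℝ) + k < j := by linarith
            exact_mod_cast this
          · have : (j : ℝ) < a₀ - k := by linarith
            exact_mod_cast this
      rw [rhoV_eq, rhoV_eq, rhoV_eq, pow_one]
      push_cast
      rw [← sub_sub, xv_mul]
      have hlast : (if k < 0 ∧ j ∈ J then (min (-(k : ℝ)) z) ^ 3 else 0) =
          if (k : ℝ) < 0 ∧ |(a₀ : ℝ) - j| < -(k : ℝ) then (min (-(k : ℝ)) z) ^ 3 else 0 := by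
        by_cases h : k < 0 ∧ j ∈ J
        · rw [if_pos h, if_pos (hmem.1 h)]
        · rw [if_neg h, if_neg (fun h' => h (hmem.2 h'))]
      rw [hlast]
      by_cases hx : cf true m j = true
      · rw [if_pos hx, if_pos hx]
        exact hkey
      · rw [if_neg hx, if_neg hx, mul_zero, zero_add]
        split_ifs with h
        · exact pow_nonneg (le_min (by linarith [h.1]) hz.le) 3
        · exact le_rfl
    · refine add_le_add le_rfl ?_
      simp only [hcb]
      by_cases h : k < 0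
      · rw [if_pos h]
        have h' : (k : ℝ) < 0 := by exact_mod_cast h
        have h3 : 0 ≤ min (-(k : ℝ)) z := le_min (by linarith) hz.le
        have h4 : ∑ j ∈ J, (if k < 0 ∧ j ∈ J then (min (-(k : ℝ)) z) ^ 3 else 0) =
            (J.card : ℝ) * (min (-(k : ℝ)) z) ^ 3 := by
          rw [Finset.sum_congr rfl (fun j hj => if_pos ⟨h, hj⟩), Finset.sum_const, nsmul_eq_mul]
        rw [h4]
        refine mul_le_mul_of_nonneg_right ?_ (pow_nonneg h3 3)
        have h5 : (J.card : ℤ) ≤ 2 * (-k) := by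
          rw [hJ, Int.card_Ioo]
          omega
        have h6 : (J.card : ℝ) ≤ 2 * (-(k : ℝ)) := by exact_mod_cast h5
        exact h6
      · rw [if_neg h]
        refine le_of_eq (Finset.sum_eq_zero fun j _ => if_neg fun h' => h h'.1)

end H40.VM
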