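import Pool.Agent.H40.VM.CB
import Pool.Agent.H40.VM.VB5

/-!
# Module SB: expected number of ones far to the left

`Chain.super` with `A m n = Vf 1 a₀ z m`, `B = sg`, `D = 0` (`gn_V1`) and with
`A m n = Vf 3 a₀ z m`, `B m = 4 sg Vf 1 a₀ z m + 2 c3 a z`, `D = 2 sg ^ 2` (`gn_V3`, `gn_V1`),
using `lintegral_ofReal_Φ`, `q_true`; then `pow_mul_no_le`, `Vf_eq_zero`.
-/

open MeasureTheory ProbabilityTheory Filter Topology
open scoped ENNReal NNReal unitInterval symmDiff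

namespace H40.VM

open H40.Voter (IsKernel)

variable {a : ℤ → ℝ}

lemma c3_nonneg (hk : IsKernel a) {z : ℝ} (hz : 0 ≤ z) : 0 ≤ c3 a z := by
  refine tsum_nonneg fun n => ?_
  have h1 : 0 ≤ min (n : ℝ) z := le_min (Nat.cast_nonneg n) hz
  exact mul_nonneg (mul_nonneg (hk.nonneg _) (Nat.cast_nonneg n)) (pow_nonneg h1 3)

lemma sb_summable_c3 (hk : IsKernel a) {z : ℝ} (hz : 0 ≤ z) :
    Summable fun n : ℕ => a (-(n : ℤ)) * n * (min (n : ℝ) z) ^ 3 := by
  have hinj : Function.Injective (fun n : ℕ => -(n : ℤ)) := by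
    intro x y hxy
    simpa using hxy
  have h0 := (hk.second_moment.comp_injective hinj).mul_right (z ^ 3)
  refine Summable.of_nonneg_of_le (fun n => ?_) (fun n => ?_) h0
  · have h1 : 0 ≤ min (n : ℝ) z := le_min (Nat.cast_nonneg n) hz
    exact mul_nonneg (mul_nonneg (hk.nonneg _) (Nat.cast_nonneg n)) (pow_nonneg h1 3)
  · have h1 : 0 ≤ min (n : ℝ) z := le_min (Nat.cast_nonneg n) hz
    have h2 : (min (n : ℝ) z) ^ 3 ≤ z ^ 3 := pow_le_pow_left₀ h1 (min_le_right _ _) 3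
    have h3 : (n : ℝ) ≤ (n : ℝ) ^ 2 := by
      rcases Nat.eq_zero_or_pos n with h | h
      · rw [h]; norm_num
      · have h4 : (1 : ℝ) ≤ n := by exact_mod_cast h
        nlinarith
    simp only [Function.comp]
    have e : (((-(n : ℤ) : ℤ)) : ℝ) ^ 2 = (n : ℝ) ^ 2 := by push_cast; ring
    rw [e]
    have ha := hk.nonneg (-(n : ℤ))
    exact mul_le_mul (mul_le_mul_of_nonneg_left h3 ha) h2 (pow_nonneg h1 3)
      (mul_nonneg ha (sq_nonneg _))

lemma c3_mono (hk : IsKernel a) {z z' : ℝ} (hz : 0 ≤ z) (h : z ≤ z') : c3 a z ≤ c3 a z' := by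
  refine (sb_summable_c3 hk hz).tsum_le_tsum (fun n => ?_) (sb_summable_c3 hk (hz.trans h))
  have h1 : 0 ≤ min (n : ℝ) z := le_min (Nat.cast_nonneg n) hz
  exact mul_le_mul_of_nonneg_left (pow_le_pow_left₀ h1 (min_le_min_left _ h) 3)
    (mul_nonneg (hk.nonneg _) (Nat.cast_nonneg n))

lemma sb_sg_nonneg (hk : IsKernel a) : 0 ≤ sg a :=
  tsum_nonneg fun k => mul_nonneg (hk.nonneg k) (sq_nonneg _)

/-- from a bound for `Vf` to a bound for the number of ones -/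
lemma sb_no_le {p : ℕ} (hp : 0 < p) (a₀ : ℤ) {z : ℝ} (hz : 0 < z) (m : St) (t : ℝ) {c : ℝ}
    (h : ∫⁻ ω, ENNReal.ofReal (Vf p a₀ z ((vc a true).X t m ω)) ∂Pr ≤ ENNReal.ofReal c) :
    ∫⁻ ω, (no true ((vc a true).X t m ω) (a₀ - z) : ℝ≥0∞) ∂Pr ≤ ENNReal.ofReal (c / z ^ p) := by
  have hzp : 0 < z ^ p := pow_pos hz p
  have h1 : ∀ x : St, (no true x (a₀ - z) : ℝ≥0∞) ≤
      ENNReal.ofReal ((z ^ p)⁻¹) * ENNReal.ofReal (Vf p a₀ z x) := by
    intro x
    have h2 := pow_mul_no_le hp a₀ hz x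
    rw [← ENNReal.ofReal_mul (by positivity)]
    have h3 : (no true x (a₀ - z) : ℝ) ≤ (z ^ p)⁻¹ * Vf p a₀ z x := by
      rw [inv_mul_eq_div, le_div_iff₀ hzp, mul_comm]
      exact h2
    rw [← ENNReal.ofReal_natCast]
    exact ENNReal.ofReal_le_ofReal h3
  calc ∫⁻ ω, (no true ((vc a true).X t m ω) (a₀ - z) : ℝ≥0∞) ∂Pr
      ≤ ∫⁻ ω, ENNReal.ofReal ((z ^ p)⁻¹) *
        ENNReal.ofReal (Vf p a₀ z ((vc a true).X t m ω)) ∂Pr := lintegral_mono fun ω => h1 _
    _ = ENNReal.ofReal ((z ^ p)⁻¹) *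
        ∫⁻ ω, ENNReal.ofReal (Vf p a₀ z ((vc a true).X t m ω)) ∂Pr :=
        lintegral_const_mul' _ _ ENNReal.ofReal_ne_top
    _ ≤ ENNReal.ofReal ((z ^ p)⁻¹) * ENNReal.ofReal c := mul_le_mul_right h _
    _ = ENNReal.ofReal (c / z ^ p) := by
        rw [← ENNReal.ofReal_mul (by positivity), inv_mul_eq_div]

theorem no_le1 (hk : IsKernel a) (hc : mn a = 0) (a₀ : ℤ) {z : ℝ} (hz : 0 < z) {m : St}
    (hm : ∀ i < a₀, cf true m i = false) {t : ℝ} (ht : 0 ≤ t) :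
    ∫⁻ ω, (no true ((vc a true).X t m ω) (a₀ - z) : ℝ≥0∞) ∂Pr ≤ ENNReal.ofReal (sg a * t / z) := by
  have hsup := (vc a true).super (ne_true hk) (A := fun x _ => Vf 1 a₀ z x)
    (B := fun _ => sg a) (g := fun _ => 0) (D := 0)
    (fun x _ => Vf_nonneg 1 a₀ hz x) (fun _ => sb_sg_nonneg hk) le_rfl (fun _ => le_rfl)
    (fun x _ => by
      simp only [zero_div, ENNReal.ofReal_zero, add_zero]
      rw [lintegral_ofReal_Φ hk (tot_true_pos hk x) (fun y => Vf_nonneg 1 a₀ hz y)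
        (summable_rt_Vf hk one_pos a₀ hz x), q_true hk]
      refine ENNReal.ofReal_le_ofReal ?_
      have := div_le_div_of_nonneg_right (gn_V1 hk hc a₀ hz x) (tot_true_pos hk x).le
      linarith)
    (fun x => by simp) ht m 0
  have h1 : ∫⁻ ω, ENNReal.ofReal (Vf 1 a₀ z ((vc a true).X t m ω)) ∂Pr ≤
      ENNReal.ofReal (sg a * t) := by
    refine (le_self_add.trans hsup).trans (le_of_eq ?_)
    rw [Vf_eq_zero one_pos a₀ hz hm]
    congr 1
    ring
  have h2 := sb_no_le one_pos a₀ hz m t h1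
  rwa [pow_one] at h2

theorem no_le3 (hk : IsKernel a) (hc : mn a = 0) (a₀ : ℤ) {z : ℝ} (hz : 0 < z) {m : St}
    (hm : ∀ i < a₀, cf true m i = false) {t : ℝ} (ht : 0 ≤ t) :
    ∫⁻ ω, (no true ((vc a true).X t m ω) (a₀ - z) : ℝ≥0∞) ∂Pr ≤
      ENNReal.ofReal ((2 * sg a ^ 2 * t ^ 2 + 2 * c3 a z * t) / z ^ 3) := by
  have hsg := sb_sg_nonneg hk
  have hc3 := c3_nonneg hk hz.le
  have hB : ∀ x, 0 ≤ 4 * sg a * Vf 1 a₀ z x + 2 * c3 a z := fun x => by
    have := Vf_nonneg 1 a₀ hz x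
    positivity
  have hsup := (vc a true).super (ne_true hk) (A := fun x _ => Vf 3 a₀ z x)
    (B := fun x => 4 * sg a * Vf 1 a₀ z x + 2 * c3 a z) (g := fun _ => 0) (D := 2 * sg a ^ 2)
    (fun x _ => Vf_nonneg 3 a₀ hz x) hB (by positivity) (fun _ => le_rfl)
    (fun x _ => by
      simp only [zero_div, ENNReal.ofReal_zero, add_zero]
      rw [lintegral_ofReal_Φ hk (tot_true_pos hk x) (fun y => Vf_nonneg 3 a₀ hz y)
        (summable_rt_Vf hk (by norm_num) a₀ hz x), q_true hk]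
      refine ENNReal.ofReal_le_ofReal ?_
      have := div_le_div_of_nonneg_right (gn_V3 hk hc a₀ hz x) (tot_true_pos hk x).le
      linarith)
    (fun x => by
      have htot := tot_true_pos hk x
      have hs : Summable fun j : ℤ => rt a true x j *
          (4 * sg a * Vf 1 a₀ z (fl x j) + 2 * c3 a z) := by
        refine (((summable_rt_Vf hk one_pos a₀ hz x).mul_left (4 * sg a)).add
          ((summable_rt hk true x).mul_right (2 * c3 a z))).congr fun j => ?_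
        ring
      rw [lintegral_ofReal_Φ (f := fun y => 4 * sg a * Vf 1 a₀ z y + 2 * c3 a z) hk htot hB hs,
        q_true hk]
      refine ENNReal.ofReal_le_ofReal ?_
      have e : gn a true (fun y => 4 * sg a * Vf 1 a₀ z y + 2 * c3 a z) x =
          4 * sg a * gn a true (Vf 1 a₀ z) x := by
        unfold gn
        rw [← tsum_mul_left]
        refine tsum_congr fun j => ?_
        ring
      rw [e]
      have h1 := mul_le_mul_of_nonneg_left (gn_V1 hk hc a₀ hz x)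
        (by positivity : (0 : ℝ) ≤ 4 * sg a)
      have h2 := div_le_div_of_nonneg_right h1 htot.le
      have e2 : 2 * (2 * sg a ^ 2) = 4 * sg a * sg a := by ring
      rw [e2]
      linarith) ht m 0
  have h1 : ∫⁻ ω, ENNReal.ofReal (Vf 3 a₀ z ((vc a true).X t m ω)) ∂Pr ≤
      ENNReal.ofReal (2 * sg a ^ 2 * t ^ 2 + 2 * c3 a z * t) := by
    refine (le_self_add.trans hsup).trans (le_of_eq ?_)
    rw [Vf_eq_zero (by norm_num) a₀ hz hm, Vf_eq_zero one_pos a₀ hz hm]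
    congr 1
    ring
  exact sb_no_le (by norm_num) a₀ hz m t h1

end H40.VM
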