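import Pool.Agent.H40.VM.CB

/-!
# Module SV: finite clusters die out

`Pr {X_t ≠ ∅} ≤ C |m| / √t` for the voter model started from a finite set `m` of ones.
Let `c` be as in `tot_false_ge`, `b ≥ 1` a natural number, `F(n) = n (2b - n)/2` for `n ≤ b`,
`F(n) = b²/2` for `n ≥ b` (concave, second difference `-1` for `1 ≤ n < b`, `≤ 0` elsewhere).
`rate_up_false`: the cardinality goes up and down at the same rate `tot/2`. So `Chain.super`
applies with `A m n = 2 F(|m|) / c`, `B m = min (|m| / b) 1`, `g m = 1` if `m ≠ ∅` and `0` else,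
`D = 0` (for `m = ∅` everything vanishes): `∫_0^t Pr {X_s ≠ ∅} ds ≤ 2 b |m| / c + t |m| / b`.
`{X_t ≠ ∅}` decreases with `t` (`Φ_empty`). Take `b = ⌈√t⌉`; `t < 1` is trivial.
-/

open MeasureTheory ProbabilityTheory Filter Topology
open scoped ENNReal NNReal unitInterval symmDiff

namespace H40.VM

open H40.Voter (IsKernel)

variable {a : ℤ → ℝ}

lemma sv_card_mem {m : St} {j : ℤ} (h : j ∈ m) : (fl m j).card = m.card - 1 := by
  have e : fl m j = m.erase j := by
    ext i
    simp only [fl, Finset.mem_symmDiff, Finset.mem_singleton, Finset.mem_erase]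
    constructor
    · rintro (⟨h1, h2⟩ | ⟨h1, h2⟩)
      · exact ⟨h2, h1⟩
      · subst h1; exact absurd h h2
    · rintro ⟨h1, h2⟩
      exact Or.inl ⟨h2, h1⟩
  rw [e, Finset.card_erase_of_mem h]

lemma sv_card_notMem {m : St} {j : ℤ} (h : j ∉ m) : (fl m j).card = m.card + 1 := by
  have e : fl m j = insert j m := by
    ext i
    simp only [fl, Finset.mem_symmDiff, Finset.mem_singleton, Finset.mem_insert]
    constructor
    · rintro (⟨h1, h2⟩ | ⟨h1, h2⟩)
      · exact Or.inr h1
      · exact Or.inl h1
    · rintro (h1 | h1)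
      · subst h1; exact Or.inr ⟨rfl, h⟩
      · refine Or.inl ⟨h1, ?_⟩
        rintro rfl
        exact h h1
  rw [e, Finset.card_insert_of_notMem h]

lemma sv_term (φ : ℕ → ℝ) (m : St) (j : ℤ) :
    φ (fl m j).card = φ (m.card + 1) +
      (if cf false m j then 1 else 0) * (φ (m.card - 1) - φ (m.card + 1)) := by
  rw [cf_false]
  by_cases h : j ∈ m
  · rw [sv_card_mem h]
    simp [h]
  · rw [sv_card_notMem h]
    simp [h]

lemma sv_summable_up (hk : IsKernel a) (m : St) :
    Summable fun j : ℤ => if cf false m j then rt a false m j else 0 := by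
  refine Summable.of_nonneg_of_le (fun j => ?_) (fun j => ?_) (summable_rt hk false m)
  · split_ifs
    · exact rt_nonneg hk false m j
    · exact le_rfl
  · split_ifs
    · exact le_rfl
    · exact rt_nonneg hk false m j

lemma sv_summable (hk : IsKernel a) (φ : ℕ → ℝ) (m : St) :
    Summable fun j : ℤ => rt a false m j * φ (fl m j).card := by
  have h := ((summable_rt hk false m).mul_right (φ (m.card + 1))).add
    ((sv_summable_up hk m).mul_right (φ (m.card - 1) - φ (m.card + 1)))
  refine h.congr fun j => ?_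
  rw [sv_term φ m j]
  split_ifs <;> ring

lemma sv_gn (hk : IsKernel a) (φ : ℕ → ℝ) (m : St) :
    gn a false (fun m => φ m.card) m =
      tot a false m / 2 * (φ (m.card + 1) + φ (m.card - 1) - 2 * φ m.card) := by
  unfold gn
  have h : ∀ j : ℤ, rt a false m j * (φ (fl m j).card - φ m.card) =
      rt a false m j * (φ (m.card + 1) - φ m.card) +
      (if cf false m j then rt a false m j else 0) * (φ (m.card - 1) - φ (m.card + 1)) := by
    intro j
    rw [sv_term φ m j]
    split_ifs <;> ring
  simp_rw [h]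
  rw [((summable_rt hk false m).mul_right _).tsum_add ((sv_summable_up hk m).mul_right _),
    tsum_mul_right, tsum_mul_right, rate_up_false hk m]
  unfold tot
  ring

/-- the value of a function of the cardinality after a jump -/
lemma sv_lint (hk : IsKernel a) {φ : ℕ → ℝ} (hφ : ∀ n, 0 ≤ φ n) {m : St} (hm : m ≠ ∅) :
    ∫⁻ u, ENNReal.ofReal (φ ((vc a false).Φ m u).card) =
      ENNReal.ofReal (φ m.card +
        (φ (m.card + 1) + φ (m.card - 1) - 2 * φ m.card) / 2) := by
  obtain ⟨c, hc, h⟩ := tot_false_ge hk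
  have hpos : 0 < tot a false m := hc.trans_le (h m hm)
  have h1 := lintegral_ofReal_Φ (f := fun m => φ m.card) hk hpos (fun x => hφ _)
    (sv_summable hk φ m)
  rw [h1, sv_gn hk φ m]
  congr 1
  field_simp

noncomputable def svF (b n : ℕ) : ℝ := ((b : ℝ) ^ 2 - (max ((b : ℝ) - n) 0) ^ 2) / 2

lemma svF_nonneg (b n : ℕ) : 0 ≤ svF b n := by
  unfold svF
  have h1 : max ((b : ℝ) - n) 0 ≤ b := max_le (by
    have : (0 : ℝ) ≤ n := Nat.cast_nonneg n
    linarith) (Nat.cast_nonneg b)
  have h2 : 0 ≤ max ((b : ℝ) - n) 0 := le_max_right _ _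
  have h3 : (max ((b : ℝ) - n) 0) ^ 2 ≤ (b : ℝ) ^ 2 := pow_le_pow_left₀ h2 h1 2
  linarith

lemma svF_le (b n : ℕ) : svF b n ≤ b * n := by
  unfold svF
  have h0 : (0 : ℝ) ≤ n := Nat.cast_nonneg n
  have h2 : 0 ≤ max ((b : ℝ) - n) 0 := le_max_right _ _
  have h3 : (b : ℝ) - n ≤ max ((b : ℝ) - n) 0 := le_max_left _ _
  rcases le_or_gt (n : ℝ) b with h | h
  · rw [max_eq_left (by linarith)]
    nlinarith
  · rw [max_eq_right (by linarith)]
    have : (0 : ℝ) ≤ b := Nat.cast_nonneg b
    nlinarith

lemma svF_lt {b n : ℕ} (h : n < b) :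
    svF b (n + 1 + 1) + svF b n - 2 * svF b (n + 1) ≤
      (if n + 1 < b then -1 else 0) := by
  unfold svF
  have h1 : (n : ℝ) + 1 ≤ b := by exact_mod_cast h
  push_cast
  split_ifs with h2
  · have h3 : (n : ℝ) + 1 + 1 ≤ b := by exact_mod_cast h2
    rw [max_eq_left (by linarith : (0 : ℝ) ≤ (b : ℝ) - (n + 1 + 1)),
      max_eq_left (by linarith : (0 : ℝ) ≤ (b : ℝ) - n),
      max_eq_left (by linarith : (0 : ℝ) ≤ (b : ℝ) - (n + 1))]
    nlinarith
  · have h3 : (b : ℝ) ≤ n + 1 := by
      have : b ≤ n + 1 := by omega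
      exact_mod_cast this
    have h4 : (b : ℝ) = n + 1 := le_antisymm h3 h1
    rw [h4, max_eq_right (by linarith), max_eq_left (by linarith), max_eq_left (by linarith)]
    nlinarith

lemma svF_ge {b n : ℕ} (h : b ≤ n) :
    svF b (n + 1 + 1) + svF b n - 2 * svF b (n + 1) ≤ 0 := by
  unfold svF
  have h1 : (b : ℝ) ≤ n := by exact_mod_cast h
  push_cast
  rw [max_eq_right (by linarith : (b : ℝ) - (n + 1 + 1) ≤ 0),
      max_eq_right (by linarith : (b : ℝ) - n ≤ 0),
      max_eq_right (by linarith : (b : ℝ) - (n + 1) ≤ 0)]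
  linarith

noncomputable def svB (b n : ℕ) : ℝ := min ((n : ℝ) / b) 1

lemma svB_nonneg (b n : ℕ) : 0 ≤ svB b n := le_min (by positivity) zero_le_one

lemma svB_concave (b n : ℕ) : svB b (n + 1 + 1) + svB b n - 2 * svB b (n + 1) ≤ 0 := by
  unfold svB
  rcases le_or_gt (((n + 1 : ℕ) : ℝ) / b) 1 with h | h
  · rw [min_eq_left h]
    have h1 := min_le_left (((n + 1 + 1 : ℕ) : ℝ) / b) 1
    have h2 := min_le_left (((n : ℕ) : ℝ) / b) 1
    have h3 : (((n + 1 + 1 : ℕ) : ℝ) / b) + (((n : ℕ) : ℝ) / b) = 2 * (((n + 1 : ℕ) : ℝ) / b) := by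
      push_cast
      ring
    linarith
  · rw [min_eq_right h.le]
    have h1 := min_le_right (((n + 1 + 1 : ℕ) : ℝ) / b) 1
    have h2 := min_le_right (((n : ℕ) : ℝ) / b) 1
    linarith

/-- the integrated survival probability -/
lemma sv_integral (hk : IsKernel a) : ∃ c : ℝ, 0 < c ∧ ∀ (b : ℕ), 0 < b → ∀ (m : St) (t : ℝ),
    0 ≤ t → ∫⁻ s in Set.Ioc 0 t, Pr {ω | (vc a false).X s m ω ≠ ∅} ≤
      ENNReal.ofReal (2 * b * m.card / c + t * m.card / b) := by
  obtain ⟨c, hc, htot⟩ := tot_false_ge hk
  refine ⟨c, hc, fun b hb m t ht => ?_⟩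
  have hbR : (0 : ℝ) < b := by exact_mod_cast hb
  classical
  set g : St → ℝ := fun m => if m = ∅ then 0 else 1 with hg
  have hsup := (vc a false).super (ne_false hk)
    (A := fun m _ => 2 * svF b m.card / c) (B := fun m => svB b m.card) (g := g) (D := 0)
    (fun x n => div_nonneg (mul_nonneg zero_le_two (svF_nonneg b _)) hc.le)
    (fun x => svB_nonneg b _) le_rfl
    (fun x => by rw [hg]; simp only; split_ifs <;> norm_num)
    (fun x n => by
      by_cases hx : x = ∅
      · subst hx
        simp only [hg, Φ_empty]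
        simp [svF, svB]
      · have hpos : 0 < tot a false x := hc.trans_le (htot x hx)
        have hxc : 0 < x.card := Finset.card_pos.2 (Finset.nonempty_iff_ne_empty.2 hx)
        obtain ⟨k, hkx⟩ : ∃ k, x.card = k + 1 := ⟨x.card - 1, by omega⟩
        have hl := sv_lint hk (φ := fun n => 2 * svF b n / c)
          (fun n => div_nonneg (mul_nonneg zero_le_two (svF_nonneg b _)) hc.le) hx
        rw [hl, q_false hk hx]
        have hgx : g x = 1 := by simp [hg, hx]
        rw [hgx, ← ENNReal.ofReal_add]
        · refine ENNReal.ofReal_le_ofReal ?_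
          rw [hkx]
          simp only [Nat.add_sub_cancel]
          have htc : c ≤ tot a false x := htot x hx
          have hinv : 1 / tot a false x ≤ 1 / c := one_div_le_one_div_of_le hc htc
          have e : (2 * svF b (k + 1 + 1) / c + 2 * svF b k / c - 2 * (2 * svF b (k + 1) / c)) / 2
              = (svF b (k + 1 + 1) + svF b k - 2 * svF b (k + 1)) / c := by ring
          rw [e]
          have key : (svF b (k + 1 + 1) + svF b k - 2 * svF b (k + 1)) / c + 1 / tot a false x
              ≤ svB b (k + 1) / tot a false x := by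
            by_cases hkb : k + 1 < b
            · have h1 := svF_lt (b := b) (n := k) (by omega)
              rw [if_pos hkb] at h1
              have h2 : (svF b (k + 1 + 1) + svF b k - 2 * svF b (k + 1)) / c ≤ -1 / c := by
                gcongr
              have h3 : 0 ≤ svB b (k + 1) / tot a false x := div_nonneg (svB_nonneg _ _) hpos.le
              have h4 : (-1 : ℝ) / c = -(1 / c) := by ring
              linarith
            · have h1 : svF b (k + 1 + 1) + svF b k - 2 * svF b (k + 1) ≤ 0 := by
                by_cases hkb2 : k < b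
                · have := svF_lt (b := b) (n := k) hkb2
                  rwa [if_neg hkb] at this
                · exact svF_ge (by omega)
              have h2 : (svF b (k + 1 + 1) + svF b k - 2 * svF b (k + 1)) / c ≤ 0 :=
                div_nonpos_of_nonpos_of_nonneg h1 hc.le
              have h3 : svB b (k + 1) = 1 := by
                unfold svB
                refine min_eq_right ?_
                rw [le_div_iff₀ hbR, one_mul]
                have : b ≤ k + 1 := by omega
                exact_mod_cast this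
              rw [h3]
              linarith
          linarith
        · have h1 := svF_nonneg b (x.card + 1)
          have h2 := svF_nonneg b (x.card - 1)
          have e : 2 * svF b x.card / c + (2 * svF b (x.card + 1) / c + 2 * svF b (x.card - 1) / c
              - 2 * (2 * svF b x.card / c)) / 2 = (svF b (x.card + 1) + svF b (x.card - 1)) / c := by
            ring
          rw [e]
          positivity
        · positivity)
    (fun x => by
      by_cases hx : x = ∅
      · subst hx
        simp only [Φ_empty]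
        simp [svB]
      · have hxc : 0 < x.card := Finset.card_pos.2 (Finset.nonempty_iff_ne_empty.2 hx)
        obtain ⟨k, hkx⟩ : ∃ k, x.card = k + 1 := ⟨x.card - 1, by omega⟩
        rw [sv_lint hk (φ := svB b) (fun n => svB_nonneg b n) hx]
        refine ENNReal.ofReal_le_ofReal ?_
        rw [hkx]
        simp only [Nat.add_sub_cancel, mul_zero, zero_div, add_zero]
        have := svB_concave b k
        linarith)
    ht m 0
  have h1 : ∫⁻ s in Set.Ioc 0 t, Pr {ω | (vc a false).X s m ω ≠ ∅} =
      ∫⁻ s in Set.Ioc 0 t, ∫⁻ ω, ENNReal.ofReal (g ((vc a false).X s m ω)) ∂Pr := by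
    refine lintegral_congr fun s => ?_
    have hmeas : MeasurableSet {ω | (vc a false).X s m ω ≠ ∅} := by
      have := (vc a false).measurable_Xx s m (measurableSet_singleton (∅ : St)).compl
      exact this
    rw [← lintegral_indicator_one hmeas]
    refine lintegral_congr fun ω => ?_
    simp only [hg]
    by_cases h : (vc a false).X s m ω = ∅
    · rw [Set.indicator_of_notMem (by simpa using h), if_pos h, ENNReal.ofReal_zero]
    · rw [Set.indicator_of_mem (by simpa using h), if_neg h, ENNReal.ofReal_one]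
      rfl
  rw [h1]
  refine (le_add_left le_rfl).trans (hsup.trans ?_)
  refine ENNReal.ofReal_le_ofReal ?_
  have h2 := svF_le b m.card
  have h3 : svB b m.card ≤ m.card / b := min_le_left _ _
  have h4 : 2 * svF b m.card / c ≤ 2 * b * m.card / c := by
    rw [div_le_div_iff_of_pos_right hc]
    linarith
  have h5 : t * svB b m.card ≤ t * m.card / b := by
    rw [mul_div_assoc]
    gcongr
  simp only [mul_zero, add_zero]
  linarith

/-- the empty state is absorbing -/
lemma sv_Y_empty (n : ℕ) (ω : Om) : (vc a false).Y n ∅ ω = ∅ := by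
  induction n with
  | zero => rfl
  | succ n ih => rw [Chain.Y_succ', ih, Φ_empty]

lemma sv_absorb {s t : ℝ} (hs : 0 ≤ s) (hst : s ≤ t) (m : St) {ω : Om}
    (hω : ∃ k, t < (vc a false).T k m ω) (h : (vc a false).X t m ω ≠ ∅) :
    (vc a false).X s m ω ≠ ∅ := by
  intro h0
  apply h
  have hωs : ∃ k, s < (vc a false).T k m ω := by
    obtain ⟨k, hk⟩ := hω
    exact ⟨k, hst.trans_lt hk⟩
  have h1 := ((vc a false).N_eq_iff (hs.trans hst) hω).1 rfl
  have h2 : (vc a false).N s m ω ≤ (vc a false).N t m ω :=
    (vc a false).N_le (hst.trans_lt h1.2)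
  obtain ⟨k, hk⟩ := Nat.exists_eq_add_of_le h2
  unfold Chain.X at h0 ⊢
  rw [hk, Chain.Y_add, h0]
  exact sv_Y_empty k _

lemma sv_mono (hk : IsKernel a) {s t : ℝ} (hs : 0 ≤ s) (hst : s ≤ t) (m : St) :
    Pr {ω | (vc a false).X t m ω ≠ ∅} ≤ Pr {ω | (vc a false).X s m ω ≠ ∅} := by
  refine measure_mono_ae ?_
  filter_upwards [(vc a false).ae_finite (ne_false hk) m] with ω hω h
  exact sv_absorb hs hst m (hω t) h

lemma sv_empty (t : ℝ) : Pr {ω | (vc a false).X t ∅ ω ≠ ∅} = 0 := by
  have : {ω | (vc a false).X t ∅ ω ≠ ∅} = ∅ := by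
    ext ω
    simp only [Set.mem_ofPred_eq, Set.mem_empty_iff_false, iff_false, not_not]
    exact sv_Y_empty _ ω
  rw [this, measure_empty]

theorem survive (hk : IsKernel a) : ∃ C : ℝ, 0 < C ∧ ∀ (m : St) (t : ℝ), 0 < t →
    Pr {ω | (vc a false).X t m ω ≠ ∅} ≤ ENNReal.ofReal (C * m.card / √t) := by
  obtain ⟨c, hc, hint⟩ := sv_integral hk
  refine ⟨4 / c + 1, by positivity, fun m t ht => ?_⟩
  by_cases hm : m = ∅
  · subst hm
    rw [sv_empty]
    exact zero_le
  have hn : (1 : ℝ) ≤ m.card := by
    exact_mod_cast Finset.card_pos.2 (Finset.nonempty_iff_ne_empty.2 hm)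
  have hst : 0 < √t := Real.sqrt_pos.2 ht
  rcases lt_or_ge t 1 with h1 | h1
  · refine prob_le_one.trans ?_
    rw [← ENNReal.ofReal_one]
    refine ENNReal.ofReal_le_ofReal ?_
    rw [le_div_iff₀ hst, one_mul]
    have h2 : √t ≤ 1 := by
      rw [← Real.sqrt_one]
      exact Real.sqrt_le_sqrt h1.le
    have h3 : 0 < 4 / c := by positivity
    nlinarith
  · set b : ℕ := ⌈√t⌉₊ with hb
    have hb0 : 0 < b := Nat.ceil_pos.2 hst
    have hb1 : √t ≤ b := Nat.le_ceil _
    have hs1 : 1 ≤ √t := by
      rw [← Real.sqrt_one]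
      exact Real.sqrt_le_sqrt h1
    have hb2 : (b : ℝ) ≤ 2 * √t := by
      have := Nat.ceil_lt_add_one hst.le
      rw [← hb] at this
      linarith
    have h2 := hint b hb0 m t ht.le
    have h3 : ENNReal.ofReal t * Pr {ω | (vc a false).X t m ω ≠ ∅} ≤
        ENNReal.ofReal (2 * b * m.card / c + t * m.card / b) := by
      refine le_trans ?_ h2
      have : ∫⁻ s in Set.Ioc 0 t, Pr {ω | (vc a false).X t m ω ≠ ∅} =
          ENNReal.ofReal t * Pr {ω | (vc a false).X t m ω ≠ ∅} := by
        rw [setLIntegral_const, Real.volume_Ioc, sub_zero, mul_comm]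
      rw [← this]
      refine setLIntegral_mono' measurableSet_Ioc fun s hs => ?_
      exact sv_mono hk hs.1.le hs.2 m
    have h4 : Pr {ω | (vc a false).X t m ω ≠ ∅} ≤
        ENNReal.ofReal ((2 * b * m.card / c + t * m.card / b) / t) := by
      rw [ENNReal.ofReal_div_of_pos ht, ENNReal.le_div_iff_mul_le, mul_comm]
      · exact h3
      · left
        simpa using ht
      · left
        exact ENNReal.ofReal_ne_top
    refine h4.trans (ENNReal.ofReal_le_ofReal ?_)
    have hbR : (0 : ℝ) < b := by exact_mod_cast hb0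
    have htt : √t * √t = t := Real.mul_self_sqrt ht.le
    have e1 : (2 * b * m.card / c) / t ≤ 4 / c * m.card / √t := by
      rw [div_div, div_le_div_iff₀ (by positivity) hst]
      have e : 4 / c * (m.card : ℝ) * (c * t) = 4 * m.card * t := by
        field_simp
      rw [e]
      have : 2 * (b : ℝ) * m.card * √t ≤ 2 * (2 * √t) * m.card * √t := by gcongr
      have e2 : 2 * (2 * √t) * m.card * √t = 4 * m.card * (√t * √t) := by ring
      rw [e2, htt] at this
      exact this
    have e2 : (t * m.card / b) / t ≤ 1 * m.card / √t := by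
      have e : (t * (m.card : ℝ) / b) / t = 1 * m.card / b := by
        field_simp
      rw [e]
      gcongr
    have e3 : (4 / c + 1) * (m.card : ℝ) / √t = 4 / c * m.card / √t + 1 * m.card / √t := by ring
    rw [e3, add_div]
    linarith

end H40.VM
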