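import Pool.Agent.H40.VM.CT2
import Pool.Agent.H40.VM.SB
import Pool.Agent.H40.VM.SV
import Pool.Agent.H40.VM.DU

/-!
# Module GB: probability of a one far to the left at time `t`

`gf a t z` is the supremum over all sites `a₀` and all initial states without ones to the left of
`a₀` of the probability of a one at a site `≤ a₀ - z` at time `t`.

Recursion: for `0 < θ < 1`,
`gf (2 t) z ≤ gf t (θ z) + (C / √t) * sup E no (X_t) (a₀ - (1-θ) z)`: by the Markov property at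
time `t` (`Chain.markov`) and `sub_add` with `m₁ = ` the ones of `X_t` at sites
`≤ a₀ - (1-θ) z` and `m₂ = ` the state `cut (X_t) (a₀ - (1-θ) z)` whose ones are the other ones; its
ones are at sites `≥ a₀' := ⌊a₀ - (1-θ) z⌋ + 1`, and `a₀' - (a₀ - z) ≥ θ z`. `survive` bounds the
first term by `C no / √t`.
With `no_le1` and `θ = 9/10`: `gf t z ≤ K √t / z` by induction on `n` for `t ≤ 2^n`
(for `t ≤ 1`: `gf t z ≤ sup E no ≤ sg t / z ≤ sg √t / z`), because `1 / (√2 θ) < 1`.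
With `no_le3` and `θ = 19/20`: `gf t z ≤ K (t^{3/2} + √t c3 z) / z³`, because
`1 / (√2 θ³) < 1` and `c3 (θ z) ≤ c3 z`.
-/

open MeasureTheory ProbabilityTheory Filter Topology
open scoped ENNReal NNReal unitInterval symmDiff

namespace H40.VM

open H40.Voter (IsKernel)

variable {a : ℤ → ℝ}

/-- the state whose ones are the ones of `m` at sites `> r` -/
noncomputable def cut (m : St) (r : ℝ) : St :=
  (m.filter fun i => r < (i : ℝ)) ∪ Finset.Icc 0 ⌊r⌋

lemma cf_cut (m : St) (r : ℝ) (i : ℤ) :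
    cf true (cut m r) i = (cf true m i && decide (r < (i : ℝ))) := by
  have h : i ∈ cut m r ↔ (i ∈ m ∧ r < (i : ℝ)) ∨ (0 ≤ i ∧ ¬ r < (i : ℝ)) := by
    unfold cut
    rw [Finset.mem_union, Finset.mem_filter, Finset.mem_Icc, Int.le_floor, not_lt]
  unfold cf bs
  by_cases h1 : r < (i : ℝ)
  · have h2 : i ∈ cut m r ↔ i ∈ m := by rw [h]; tauto
    simp [h1, h2]
  · have h2 : i ∈ cut m r ↔ 0 ≤ i := by rw [h]; tauto
    simp [h1, h2]

/-- see the module docstring -/
noncomputable def gf (a : ℤ → ℝ) (t z : ℝ) : ℝ≥0∞ :=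
  ⨆ (p : ℤ × St) (_ : ∀ i < p.1, cf true p.2 i = false),
    Pr {ω | low true ((vc a true).X t p.2 ω) ((p.1 : ℝ) - z)}

lemma gf_le_iff {t z : ℝ} {c : ℝ≥0∞} : gf a t z ≤ c ↔
    ∀ (a₀ : ℤ) (m : St), (∀ i < a₀, cf true m i = false) →
      Pr {ω | low true ((vc a true).X t m ω) ((a₀ : ℝ) - z)} ≤ c := by
  unfold gf
  rw [iSup₂_le_iff]
  constructor
  · intro h a₀ m hm
    exact h (a₀, m) hm
  · rintro h ⟨a₀, m⟩ hm
    exact h a₀ m hm

lemma le_gf (a : ℤ → ℝ) (t z : ℝ) {a₀ : ℤ} {m : St} (hm : ∀ i < a₀, cf true m i = false) :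
    Pr {ω | low true ((vc a true).X t m ω) ((a₀ : ℝ) - z)} ≤ gf a t z :=
  gf_le_iff.1 le_rfl a₀ m hm

lemma GB_low_mono {b : Bool} {m : St} {r r' : ℝ} (h : r ≤ r') (hl : low b m r) : low b m r' := by
  obtain ⟨i, hi, hi2⟩ := hl
  exact ⟨i, hi.trans h, hi2⟩

lemma GB_measurable_no (a : ℤ → ℝ) (t : ℝ) (m : St) (r : ℝ) :
    Measurable fun ω => (no true ((vc a true).X t m ω) r : ℝ≥0∞) :=
  (measurable_of_countable fun x : St => (no true x r : ℝ≥0∞)).comp ((vc a true).measurable_Xx t m)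

lemma GB_measurableSet_low (a : ℤ → ℝ) (t : ℝ) (m : St) (r : ℝ) :
    MeasurableSet {ω | low true ((vc a true).X t m ω) r} := by
  have h : MeasurableSet {x : St | low true x r} := MeasurableSet.of_discrete
  exact (vc a true).measurable_Xx t m h

/-- a single state -/
lemma GB_split (hk : IsKernel a) {C0 : ℝ}
    (hs : ∀ (m : St) (t : ℝ), 0 < t →
      Pr {ω | (vc a false).X t m ω ≠ ∅} ≤ ENNReal.ofReal (C0 * m.card / √t))
    (hC0 : 0 < C0) {θ t z : ℝ} (ht : 0 < t) (a₀ : ℤ) (x : St) :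
    Pr {ω | low true ((vc a true).X t x ω) ((a₀ : ℝ) - z)} ≤
      ENNReal.ofReal (C0 / √t) * (no true x ((a₀ : ℝ) - (1 - θ) * z) : ℝ≥0∞) +
        gf a t (θ * z) := by
  classical
  set r : ℝ := (a₀ : ℝ) - (1 - θ) * z with hr
  have hfin := no_finite true x r
  let m₁ : St := hfin.toFinset
  have hm₁ : ∀ i, i ∈ m₁ ↔ ((i : ℝ) ≤ r ∧ cf true x i = true) := fun i => by
    change i ∈ hfin.toFinset ↔ _
    rw [Set.Finite.mem_toFinset]; rfl
  have hcard : m₁.card = no true x r := by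
    unfold no
    rw [Set.ncard_eq_toFinset_card _ hfin]
  have h1 : ∀ i, cf true x i = true → cf false m₁ i = true ∨ cf true (cut x r) i = true := by
    intro i hi
    by_cases h : r < (i : ℝ)
    · right
      rw [cf_cut]
      simp [hi, h]
    · left
      have h2 : i ∈ m₁ := (hm₁ i).2 ⟨not_lt.1 h, hi⟩
      simp [cf, bs, h2]
  refine (sub_add hk h1 ht.le _).trans (add_le_add ?_ ?_)
  · refine (hs m₁ t ht).trans (le_of_eq ?_)
    rw [hcard, mul_div_right_comm, ENNReal.ofReal_mul (by positivity), ENNReal.ofReal_natCast]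
  · have h2 : ∀ i < ⌊r⌋ + 1, cf true (cut x r) i = false := by
      intro i hi
      rw [cf_cut]
      have : ¬ r < (i : ℝ) := by
        rw [not_lt]
        exact Int.le_floor.1 (by omega)
      simp [this]
    refine le_trans (measure_mono ?_) (le_gf a t (θ * z) h2)
    intro ω hω
    refine GB_low_mono ?_ hω
    have h3 : r < ((⌊r⌋ + 1 : ℤ) : ℝ) := by
      push_cast
      exact Int.lt_floor_add_one r
    rw [hr] at h3
    linarith

/-- the recursion -/
lemma GB_rec (hk : IsKernel a) {C0 : ℝ}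
    (hs : ∀ (m : St) (t : ℝ), 0 < t →
      Pr {ω | (vc a false).X t m ω ≠ ∅} ≤ ENNReal.ofReal (C0 * m.card / √t))
    (hC0 : 0 < C0) {θ t z B : ℝ} (ht : 0 < t)
    (hB : ∀ (a₀ : ℤ) (m : St), (∀ i < a₀, cf true m i = false) →
      ∫⁻ ω, (no true ((vc a true).X t m ω) ((a₀ : ℝ) - (1 - θ) * z) : ℝ≥0∞) ∂Pr ≤
        ENNReal.ofReal B) :
    gf a (2 * t) z ≤ gf a t (θ * z) + ENNReal.ofReal (C0 / √t * B) := by
  classical
  rw [gf_le_iff]
  intro a₀ m hm
  have e2 : 2 * t = t + t := by ring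
  rw [e2]
  have hmeas := GB_measurableSet_low a (t + t) m ((a₀ : ℝ) - z)
  have e1 : Pr {ω | low true ((vc a true).X (t + t) m ω) ((a₀ : ℝ) - z)} =
      ∫⁻ ω, (fun (_ y : St) => if low true y ((a₀ : ℝ) - z) then (1 : ℝ≥0∞) else 0)
        ((vc a true).X t m ω) ((vc a true).X (t + t) m ω) ∂Pr := by
    rw [← lintegral_indicator_one hmeas]
    refine lintegral_congr fun ω => ?_
    by_cases h : low true ((vc a true).X (t + t) m ω) ((a₀ : ℝ) - z)
    · simp [Set.indicator, h]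
    · simp [Set.indicator, h]
  have mk := (vc a true).markov (ne_true hk) m ht.le ht.le
    (fun (_ y : St) => if low true y ((a₀ : ℝ) - z) then (1 : ℝ≥0∞) else 0)
  rw [e1, mk]
  have e3 : ∀ ω, ∫⁻ ω', (fun (_ y : St) => if low true y ((a₀ : ℝ) - z) then (1 : ℝ≥0∞) else 0)
      ((vc a true).X t m ω) ((vc a true).X t ((vc a true).X t m ω) ω') ∂Pr ≤
      ENNReal.ofReal (C0 / √t) *
        (no true ((vc a true).X t m ω) ((a₀ : ℝ) - (1 - θ) * z) : ℝ≥0∞) + gf a t (θ * z) := by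
    intro ω
    have hmeas' := GB_measurableSet_low a t ((vc a true).X t m ω) ((a₀ : ℝ) - z)
    refine le_trans (le_of_eq ?_) (GB_split hk hs hC0 ht a₀ ((vc a true).X t m ω))
    rw [← lintegral_indicator_one hmeas']
    refine lintegral_congr fun ω' => ?_
    by_cases h : low true ((vc a true).X t ((vc a true).X t m ω) ω') ((a₀ : ℝ) - z)
    · simp [Set.indicator, h]
    · simp [Set.indicator, h]
  refine (lintegral_mono e3).trans ?_
  rw [lintegral_add_right _ measurable_const, lintegral_const, measure_univ, mul_one,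
    lintegral_const_mul _ (GB_measurable_no a t m _), add_comm]
  refine add_le_add le_rfl ?_
  rw [ENNReal.ofReal_mul (by positivity)]
  exact mul_le_mul' le_rfl (hB a₀ m hm)

/-- first moment -/
lemma GB_first {t z B : ℝ}
    (hB : ∀ (a₀ : ℤ) (m : St), (∀ i < a₀, cf true m i = false) →
      ∫⁻ ω, (no true ((vc a true).X t m ω) ((a₀ : ℝ) - z) : ℝ≥0∞) ∂Pr ≤ ENNReal.ofReal B) :
    gf a t z ≤ ENNReal.ofReal B := by
  rw [gf_le_iff]
  intro a₀ m hm
  refine le_trans ?_ (hB a₀ m hm)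
  have h1 := mul_meas_ge_le_lintegral (μ := Pr) (GB_measurable_no a t m ((a₀ : ℝ) - z)) 1
  rw [one_mul] at h1
  refine le_trans (measure_mono ?_) h1
  intro ω hω
  have h2 := (low_iff_no _ _ _).1 hω
  change (1 : ℝ≥0∞) ≤ (no true ((vc a true).X t m ω) ((a₀ : ℝ) - z) : ℝ≥0∞)
  exact_mod_cast h2

lemma GB_dyadic {P : ℝ → Prop} (h1 : ∀ t, 0 < t → t ≤ 1 → P t) (h2 : ∀ s, 0 < s → P s → P (2 * s))
    (t : ℝ) (ht : 0 < t) : P t := by
  have key : ∀ n : ℕ, ∀ t, 0 < t → t ≤ 2 ^ n → P t := by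
    intro n
    induction n with
    | zero => intro t ht h; exact h1 t ht (by simpa using h)
    | succ n ih =>
      intro t ht h
      have := h2 (t / 2) (by positivity) (ih (t / 2) (by positivity) (by
        rw [pow_succ] at h; linarith))
      rwa [mul_div_cancel₀ t (by norm_num : (2 : ℝ) ≠ 0)] at this
  obtain ⟨n, hn⟩ := pow_unbounded_of_one_lt t (by norm_num : (1 : ℝ) < 2)
  exact key n t ht hn.le

lemma GB_sqrt2 : (1.414 : ℝ) ≤ √2 := by
  apply Real.le_sqrt_of_sq_le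
  norm_num

lemma GB_sg_nonneg (hk : IsKernel a) : 0 ≤ sg a :=
  tsum_nonneg fun k => mul_nonneg (hk.nonneg k) (sq_nonneg _)

theorem gf_le1 (hk : IsKernel a) (hc : mn a = 0) :
    ∃ C : ℝ, 0 < C ∧ ∀ t z : ℝ, 0 < t → 0 < z → gf a t z ≤ ENNReal.ofReal (C * √t / z) := by
  obtain ⟨C0, hC0, hs⟩ := survive hk
  have hsg := GB_sg_nonneg hk
  obtain ⟨K, hK⟩ : ∃ K : ℝ, K = 40 * C0 * sg a + sg a + 1 := ⟨_, rfl⟩
  have hCs : 0 ≤ C0 * sg a := mul_nonneg hC0.le hsg
  have hKpos : 0 < K := by rw [hK]; nlinarith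
  refine ⟨K, hKpos, fun t z ht hz => ?_⟩
  revert z
  refine GB_dyadic (P := fun t => ∀ z, 0 < z → gf a t z ≤ ENNReal.ofReal (K * √t / z)) ?_ ?_ t ht
  · intro t ht ht1 z hz
    refine GB_first fun a₀ m hm => (no_le1 hk hc a₀ hz hm ht.le).trans
      (ENNReal.ofReal_le_ofReal ?_)
    apply div_le_div_of_nonneg_right _ hz.le
    have h1 : t ≤ √t := by
      apply Real.le_sqrt_of_sq_le
      nlinarith
    have h2 : 0 ≤ √t := Real.sqrt_nonneg t
    have h3 : sg a ≤ K := by rw [hK]; nlinarith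
    calc sg a * t ≤ sg a * √t := mul_le_mul_of_nonneg_left h1 hsg
      _ ≤ K * √t := mul_le_mul_of_nonneg_right h3 h2
  · intro s hs0 ih z hz
    have hz' : 0 < (1 - 9 / 10 : ℝ) * z := by positivity
    refine (GB_rec hk hs hC0 (θ := 9 / 10) (B := sg a * s / ((1 - 9 / 10) * z)) hs0
      (fun a₀ m hm => no_le1 hk hc a₀ hz' hm hs0.le)).trans ?_
    refine (add_le_add (ih (9 / 10 * z) (by positivity)) le_rfl).trans ?_
    rw [← ENNReal.ofReal_add (by positivity) (by positivity)]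
    apply ENNReal.ofReal_le_ofReal
    obtain ⟨x, hx⟩ : ∃ x, x = √s := ⟨_, rfl⟩
    have hx0 : 0 < x := by rw [hx]; exact Real.sqrt_pos.2 hs0
    have hxs : s = x ^ 2 := by rw [hx, Real.sq_sqrt hs0.le]
    rw [Real.sqrt_mul (by norm_num : (0 : ℝ) ≤ 2), ← hx, hxs]
    have e1 : K * x / (9 / 10 * z) + C0 / x * (sg a * x ^ 2 / ((1 - 9 / 10) * z)) =
        (K * (10 / 9) + 10 * (C0 * sg a)) * (x / z) := by
      field_simp
      ring
    have e2 : K * (√2 * x) / z = (K * √2) * (x / z) := by ring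
    rw [e1, e2]
    apply mul_le_mul_of_nonneg_right _ (by positivity)
    have h1 := GB_sqrt2
    have h2 : 40 * (C0 * sg a) ≤ K := by rw [hK]; nlinarith
    nlinarith [mul_le_mul_of_nonneg_left h1 hKpos.le]

theorem gf_le3 (hk : IsKernel a) (hc : mn a = 0) :
    ∃ C : ℝ, 0 < C ∧ ∀ t z : ℝ, 0 < t → 0 < z →
      gf a t z ≤ ENNReal.ofReal (C * (t * √t + √t * c3 a z) / z ^ 3) := by
  obtain ⟨C0, hC0, hs⟩ := survive hk
  have hsg := GB_sg_nonneg hk
  obtain ⟨M, hM⟩ : ∃ M : ℝ, M = sg a ^ 2 + 1 := ⟨_, rfl⟩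
  have hM1 : 1 ≤ M := by rw [hM]; nlinarith [sq_nonneg (sg a)]
  have hM2 : sg a ^ 2 ≤ M := by rw [hM]; linarith
  obtain ⟨K, hK⟩ : ∃ K : ℝ, K = 70000 * C0 * M + 2 * M := ⟨_, rfl⟩
  have hCM : 0 ≤ C0 * M := by positivity
  have hKpos : 0 < K := by rw [hK]; nlinarith
  refine ⟨K, hKpos, fun t z ht hz => ?_⟩
  revert z
  refine GB_dyadic (P := fun t => ∀ z, 0 < z →
    gf a t z ≤ ENNReal.ofReal (K * (t * √t + √t * c3 a z) / z ^ 3)) ?_ ?_ t ht
  · intro t ht ht1 z hz
    refine GB_first fun a₀ m hm => (no_le3 hk hc a₀ hz hm ht.le).trans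
      (ENNReal.ofReal_le_ofReal ?_)
    apply div_le_div_of_nonneg_right _ (by positivity)
    have h1 : t ≤ √t := by
      apply Real.le_sqrt_of_sq_le
      nlinarith
    have hcz := c3_nonneg hk hz.le
    have h2 : 0 ≤ √t := Real.sqrt_nonneg t
    have h3 : 2 * M ≤ K := by rw [hK]; nlinarith
    have h4 : 2 * sg a ^ 2 * t ^ 2 ≤ K * (t * √t) := by
      have q1 : t ^ 2 ≤ t * √t := by rw [sq]; exact mul_le_mul_of_nonneg_left h1 ht.le
      have q2 : 0 ≤ t ^ 2 := by positivity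
      calc 2 * sg a ^ 2 * t ^ 2 ≤ K * t ^ 2 :=
            mul_le_mul_of_nonneg_right (by linarith) q2
        _ ≤ K * (t * √t) := mul_le_mul_of_nonneg_left q1 hKpos.le
    have h5 : 2 * c3 a z * t ≤ K * (√t * c3 a z) := by
      have q1 : c3 a z * t ≤ √t * c3 a z := by
        rw [mul_comm]; exact mul_le_mul_of_nonneg_right h1 hcz
      have q2 : 0 ≤ √t * c3 a z := mul_nonneg h2 hcz
      have q3 : 2 ≤ K := by linarith
      nlinarith [mul_le_mul_of_nonneg_right q3 q2]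
    linarith
  · intro s hs0 ih z hz
    have hz' : 0 < (1 - 19 / 20 : ℝ) * z := by positivity
    have hcz := c3_nonneg hk hz.le
    have hcz' := c3_nonneg hk hz'.le
    have hcz'' := c3_nonneg hk (z := 19 / 20 * z) (by positivity)
    have hmono1 : c3 a ((1 - 19 / 20) * z) ≤ c3 a z := c3_mono hk hz'.le (by linarith)
    have hmono2 : c3 a (19 / 20 * z) ≤ c3 a z := c3_mono hk (by positivity) (by linarith)
    refine (GB_rec hk hs hC0 (θ := 19 / 20)
      (B := (2 * sg a ^ 2 * s ^ 2 + 2 * c3 a ((1 - 19 / 20) * z) * s) / ((1 - 19 / 20) * z) ^ 3) hs0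
      (fun a₀ m hm => no_le3 hk hc a₀ hz' hm hs0.le)).trans ?_
    refine (add_le_add (ih (19 / 20 * z) (by positivity)) le_rfl).trans ?_
    rw [← ENNReal.ofReal_add (by positivity) (by positivity)]
    apply ENNReal.ofReal_le_ofReal
    obtain ⟨x, hx⟩ : ∃ x, x = √s := ⟨_, rfl⟩
    have hx0 : 0 < x := by rw [hx]; exact Real.sqrt_pos.2 hs0
    have hxs : s = x ^ 2 := by rw [hx, Real.sq_sqrt hs0.le]
    rw [Real.sqrt_mul (by norm_num : (0 : ℝ) ≤ 2), ← hx, hxs]
    obtain ⟨c, hcc⟩ : ∃ c, c = c3 a z := ⟨_, rfl⟩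
    rw [← hcc] at hmono1 hmono2 hcz ⊢
    have e1 : K * (x ^ 2 * x + x * c3 a (19 / 20 * z)) / (19 / 20 * z) ^ 3 ≤
        (K * (8000 / 6859) * (x ^ 3 + x * c)) * (1 / z ^ 3) := by
      have q : K * (x ^ 2 * x + x * c3 a (19 / 20 * z)) / (19 / 20 * z) ^ 3 =
          (K * (8000 / 6859) * (x ^ 3 + x * c3 a (19 / 20 * z))) * (1 / z ^ 3) := by
        field_simp
        ring
      rw [q]
      apply mul_le_mul_of_nonneg_right _ (by positivity)
      apply mul_le_mul_of_nonneg_left _ (by positivity)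
      have := mul_le_mul_of_nonneg_left hmono2 hx0.le
      linarith
    have e2 : C0 / x * ((2 * sg a ^ 2 * (x ^ 2) ^ 2 + 2 * c3 a ((1 - 19 / 20) * z) * x ^ 2) /
        ((1 - 19 / 20) * z) ^ 3) ≤ (16000 * C0 * M * (x ^ 3 + x * c)) * (1 / z ^ 3) := by
      have q : C0 / x * ((2 * sg a ^ 2 * (x ^ 2) ^ 2 + 2 * c3 a ((1 - 19 / 20) * z) * x ^ 2) /
          ((1 - 19 / 20) * z) ^ 3) =
          (16000 * C0 * (sg a ^ 2 * x ^ 3 + x * c3 a ((1 - 19 / 20) * z))) * (1 / z ^ 3) := by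
        field_simp
        ring
      rw [q]
      apply mul_le_mul_of_nonneg_right _ (by positivity)
      have q1 : sg a ^ 2 * x ^ 3 ≤ M * x ^ 3 := mul_le_mul_of_nonneg_right hM2 (by positivity)
      have q2 : x * c3 a ((1 - 19 / 20) * z) ≤ M * (x * c) := by
        have := mul_le_mul_of_nonneg_left hmono1 hx0.le
        have q3 : 0 ≤ x * c := mul_nonneg hx0.le hcz
        nlinarith [mul_le_mul_of_nonneg_right hM1 q3]
      have := mul_le_mul_of_nonneg_left (add_le_add q1 q2) (by positivity : 0 ≤ 16000 * C0)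
      linarith
    have e3 : K * (2 * x ^ 2 * (√2 * x) + √2 * x * c) / z ^ 3 =
        (K * √2 * (2 * x ^ 3 + x * c)) * (1 / z ^ 3) := by ring
    rw [e3]
    refine (add_le_add e1 e2).trans ?_
    rw [← add_mul]
    apply mul_le_mul_of_nonneg_right _ (by positivity)
    have h1 := GB_sqrt2
    have h2 : 70000 * (C0 * M) ≤ K := by rw [hK]; nlinarith
    have h3 : 0 ≤ x ^ 3 := by positivity
    have h4 : 0 ≤ x * c := mul_nonneg hx0.le hcz
    have h5 : K * (8000 / 6859) + 16000 * C0 * M ≤ K * √2 := by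
      nlinarith [mul_le_mul_of_nonneg_left h1 hKpos.le]
    have h6 : 0 ≤ K * √2 := by positivity
    calc K * (8000 / 6859) * (x ^ 3 + x * c) + 16000 * C0 * M * (x ^ 3 + x * c)
        = (K * (8000 / 6859) + 16000 * C0 * M) * (x ^ 3 + x * c) := by ring
      _ ≤ K * √2 * (x ^ 3 + x * c) := mul_le_mul_of_nonneg_right h5 (by positivity)
      _ ≤ K * √2 * (2 * x ^ 3 + x * c) := by
          apply mul_le_mul_of_nonneg_left _ h6
          linarith

end H40.VM
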