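import Pool.Agent.H40.VM.RW
import Pool.Agent.H40.VM.GB

/-!
# Module SH: the interface is sharp on the diffusive scale at fixed times

Claim: `Pr {low (X_t) (cc (X_t) - δ √t)} → 0`. Let `0 < η < 1`, `s = (1-η) t`, `u = η t`,
`c = cc (X_s)`. Markov property at time `s` and `sub_add` with `m₁ =` the ones of `X_s` at sites
`≤ c - δ√t/4` and `m₂ = cut (X_s) (c - δ√t/4)` (see `GB`): on
`{cc (X_t) ≤ c + δ√t/4}`, `low (X_t) (cc (X_t) - δ√t)` implies `low (X_t) (c - 3δ√t/4)`, whose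
conditional probability is at most `C no (X_s) (c - δ√t/4) / √u + gf u (δ√t/2)`
(the ones of `m₂` are at sites `≥ a₀ := ⌊c - δ√t/4⌋ + 1`, and `a₀ - (c - 3δ√t/4) ≥ δ√t/2`). Here
`no (X_s) (c - δ√t/4) ≤ hh (X_s) / (δ√t/4 - 1)` (`no_mul_le`), `E hh (X_s) = o(t)`
(`tendsto_Ehh`), `gf u (δ√t/2) ≤ 2 C √η / δ` (`gf_le1`), and
`Pr {cc (X_t) > c + δ√t/4} ≤ 16 (E N_t - E N_s)/(δ² t) → 16 sg η / δ²` (`centre_incr_sq_le`,
`tendsto_EN`). Let `t → ∞`, then `η → 0`.
-/

open MeasureTheory ProbabilityTheory Filter Topology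
open scoped ENNReal NNReal unitInterval symmDiff

namespace H40.VM

open H40.Voter (IsKernel)

variable {a : ℤ → ℝ}

/-- conditional estimate at the intermediate time -/
lemma sh_cond (hk : IsKernel a) {C C' : ℝ} (hC : 0 < C) (hC' : 0 < C')
    (hsurv : ∀ (m : St) (t : ℝ), 0 < t →
      Pr {ω | (vc a false).X t m ω ≠ ∅} ≤ ENNReal.ofReal (C * m.card / √t))
    (hgf : ∀ t z : ℝ, 0 < t → 0 < z → gf a t z ≤ ENNReal.ofReal (C' * √t / z))
    (m : St) {u d : ℝ} (hu : 0 < u) (hd : 1 < d) :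
    Pr {ω | low true ((vc a true).X u m ω) ((cc m : ℝ) - 3 * d)} ≤
      ENNReal.ofReal (C / ((d - 1) * √u) * hh m) + ENNReal.ofReal (C' * √u / (2 * d)) := by
  have hsu : 0 < √u := Real.sqrt_pos.2 hu
  set r : ℝ := (cc m : ℝ) - d with hr
  set m₁ : St := (no_finite true m r).toFinset with hm₁
  have h12 : ∀ i, cf true m i = true → cf false m₁ i = true ∨ cf true (cut m r) i = true := by
    intro i hi
    rcases le_or_gt (i : ℝ) r with h | h
    · left
      have : i ∈ m₁ := by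
        rw [hm₁, Set.Finite.mem_toFinset]
        exact ⟨h, hi⟩
      simp [cf, bs, this]
    · right
      rw [cf_cut, hi]
      simp [h]
  refine (sub_add hk h12 hu.le _).trans (add_le_add ?_ ?_)
  · refine (hsurv m₁ u hu).trans (ENNReal.ofReal_le_ofReal ?_)
    have hcard : (m₁.card : ℝ) = no true m r := by rw [no_eq_card]
    have h1 := no_mul_le m (zero_le_one.trans hd.le)
    rw [← hr] at h1
    have h2 : (no true m r : ℝ) ≤ hh m / (d - 1) := by
      rw [le_div_iff₀ (by linarith)]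
      exact h1
    rw [hcard]
    calc C * (no true m r : ℝ) / √u ≤ C * (hh m / (d - 1)) / √u := by gcongr
      _ = C / ((d - 1) * √u) * hh m := by
        have : d - 1 ≠ 0 := by linarith
        field_simp
  · have hz : ((⌊r⌋ + 1 : ℤ) : ℝ) - (((⌊r⌋ + 1 : ℤ) : ℝ) - ((cc m : ℝ) - 3 * d)) =
        (cc m : ℝ) - 3 * d := by ring
    have hlt : r < ((⌊r⌋ + 1 : ℤ) : ℝ) := by
      push_cast
      exact Int.lt_floor_add_one r
    have hz2 : 2 * d ≤ ((⌊r⌋ + 1 : ℤ) : ℝ) - ((cc m : ℝ) - 3 * d) := by linarith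
    have h1 := le_gf a u (((⌊r⌋ + 1 : ℤ) : ℝ) - ((cc m : ℝ) - 3 * d)) (a₀ := ⌊r⌋ + 1)
      (m := cut m r) (by
        intro i hi
        rw [cf_cut]
        have : ¬ (r < (i : ℝ)) := by
          rw [not_lt]
          exact Int.le_floor.1 (by omega)
        simp [this])
    rw [hz] at h1
    refine h1.trans ((hgf u _ hu (by linarith)).trans (ENNReal.ofReal_le_ofReal ?_))
    exact div_le_div_of_nonneg_left (by positivity) (by linarith) hz2

lemma sh_markov (hk : IsKernel a) {C C' : ℝ} (hC : 0 < C) (hC' : 0 < C')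
    (hsurv : ∀ (m : St) (t : ℝ), 0 < t →
      Pr {ω | (vc a false).X t m ω ≠ ∅} ≤ ENNReal.ofReal (C * m.card / √t))
    (hgf : ∀ t z : ℝ, 0 < t → 0 < z → gf a t z ≤ ENNReal.ofReal (C' * √t / z))
    {s u d : ℝ} (hs : 0 ≤ s) (hu : 0 < u) (hd : 1 < d) :
    Pr {ω | low true ((vc a true).X (s + u) ∅ ω) ((cc ((vc a true).X s ∅ ω) : ℝ) - 3 * d)} ≤
      ENNReal.ofReal (C / ((d - 1) * √u) * ∫ ω, hh ((vc a true).X s ∅ ω) ∂Pr) +
        ENNReal.ofReal (C' * √u / (2 * d)) := by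
  classical
  let f : St → St → ℝ≥0∞ := fun x y => if low true y ((cc x : ℝ) - 3 * d) then 1 else 0
  have hmS : ∀ x : St, MeasurableSet {y : St | low true y ((cc x : ℝ) - 3 * d)} :=
    fun x => MeasurableSet.of_discrete
  have hm1 : MeasurableSet {ω | low true ((vc a true).X (s + u) ∅ ω)
      ((cc ((vc a true).X s ∅ ω) : ℝ) - 3 * d)} := by
    have h1 : Measurable fun ω => ((vc a true).X s ∅ ω, (vc a true).X (s + u) ∅ ω) :=
      ((vc a true).measurable_Xx s ∅).prodMk ((vc a true).measurable_Xx (s + u) ∅)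
    have h2 : MeasurableSet {q : St × St | low true q.2 ((cc q.1 : ℝ) - 3 * d)} :=
      MeasurableSet.of_discrete
    exact h1 h2
  have e1 : Pr {ω | low true ((vc a true).X (s + u) ∅ ω)
      ((cc ((vc a true).X s ∅ ω) : ℝ) - 3 * d)} =
      ∫⁻ ω, f ((vc a true).X s ∅ ω) ((vc a true).X (s + u) ∅ ω) ∂Pr := by
    rw [← lintegral_indicator_one hm1]
    refine lintegral_congr fun ω => ?_
    simp only [Set.indicator, Set.mem_ofPred_eq, Pi.one_apply, f]
  rw [e1, (vc a true).markov (ne_true hk) ∅ hs hu.le f]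
  have e2 : ∀ m : St, ∫⁻ ω', f m ((vc a true).X u m ω') ∂Pr =
      Pr {ω' | low true ((vc a true).X u m ω') ((cc m : ℝ) - 3 * d)} := by
    intro m
    have hm2 : MeasurableSet {ω' | low true ((vc a true).X u m ω') ((cc m : ℝ) - 3 * d)} :=
      ((vc a true).measurable_Xx u m) (hmS m)
    rw [← lintegral_indicator_one hm2]
    refine lintegral_congr fun ω => ?_
    simp only [Set.indicator, Set.mem_ofPred_eq, Pi.one_apply, f]
  simp only [e2]
  calc ∫⁻ ω, Pr {ω' | low true ((vc a true).X u ((vc a true).X s ∅ ω) ω')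
        ((cc ((vc a true).X s ∅ ω) : ℝ) - 3 * d)} ∂Pr
      ≤ ∫⁻ ω, (ENNReal.ofReal (C / ((d - 1) * √u) * hh ((vc a true).X s ∅ ω)) +
        ENNReal.ofReal (C' * √u / (2 * d))) ∂Pr :=
        lintegral_mono fun ω => sh_cond hk hC hC' hsurv hgf _ hu hd
    _ = _ := by
      rw [lintegral_add_right _ measurable_const, lintegral_const, measure_univ, mul_one]
      congr 1
      have hnn : 0 ≤ C / ((d - 1) * √u) := by
        have : 0 ≤ d - 1 := by linarith
        positivity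
      rw [← ofReal_integral_eq_lintegral_ofReal ((integrable_hh hk ∅ hs).const_mul _)
        (Eventually.of_forall fun ω => mul_nonneg hnn (hh_nonneg _)), integral_const_mul]

lemma sh_cheb (hk : IsKernel a) (hc : mn a = 0) {s t d : ℝ} (hs : 0 ≤ s) (hst : s ≤ t)
    (hd : 0 < d) :
    Pr {ω | d ≤ (cc ((vc a true).X t ∅ ω) : ℝ) - cc ((vc a true).X s ∅ ω)} ≤
      ENNReal.ofReal ((∫ ω, ((vc a true).N t ∅ ω : ℝ) ∂Pr -
        ∫ ω, ((vc a true).N s ∅ ω : ℝ) ∂Pr) / d ^ 2) := by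
  have hX : ∀ r : ℝ, Measurable fun ω => (cc ((vc a true).X r ∅ ω) : ℝ) := fun r =>
    (measurable_of_countable (fun m : St => (cc m : ℝ))).comp ((vc a true).measurable_Xx r ∅)
  have hint : Integrable (fun ω =>
      ((cc ((vc a true).X t ∅ ω) : ℝ) - cc ((vc a true).X s ∅ ω)) ^ 2) Pr := by
    have h1 := integrable_centre_sq hk hc ∅ (hs.trans hst)
    have h2 := integrable_centre_sq hk hc ∅ hs
    refine ((h1.const_mul 2).add (h2.const_mul 2)).mono'
      (((hX t).sub (hX s)).pow_const 2).aestronglyMeasurable (Eventually.of_forall fun ω => ?_)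
    rw [Real.norm_eq_abs, abs_of_nonneg (sq_nonneg _)]
    simp only [Pi.add_apply]
    nlinarith [sq_nonneg (((cc ((vc a true).X t ∅ ω) : ℝ) - cc ∅) +
      ((cc ((vc a true).X s ∅ ω) : ℝ) - cc ∅))]
  have hsub : {ω | d ≤ (cc ((vc a true).X t ∅ ω) : ℝ) - cc ((vc a true).X s ∅ ω)} ⊆
      {ω | d ^ 2 ≤ ((cc ((vc a true).X t ∅ ω) : ℝ) - cc ((vc a true).X s ∅ ω)) ^ 2} := by
    intro ω hω
    exact pow_le_pow_left₀ hd.le hω 2
  refine (measure_mono hsub).trans ?_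
  have h3 := mul_meas_ge_le_integral_of_nonneg
    (Eventually.of_forall fun ω => sq_nonneg ((cc ((vc a true).X t ∅ ω) : ℝ) -
      cc ((vc a true).X s ∅ ω))) hint (d ^ 2)
  have h4 := centre_incr_sq_le hk hc ∅ hs hst
  have h5 : Pr.real {ω | d ^ 2 ≤ ((cc ((vc a true).X t ∅ ω) : ℝ) -
      cc ((vc a true).X s ∅ ω)) ^ 2} ≤ (∫ ω, ((vc a true).N t ∅ ω : ℝ) ∂Pr -
        ∫ ω, ((vc a true).N s ∅ ω : ℝ) ∂Pr) / d ^ 2 := by
    rw [le_div_iff₀ (by positivity), mul_comm]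
    exact h3.trans h4
  rw [← ENNReal.ofReal_toReal (measure_ne_top Pr _)]
  exact ENNReal.ofReal_le_ofReal h5

lemma sh_bound (hk : IsKernel a) (hc : mn a = 0) {C C' : ℝ} (hC : 0 < C) (hC' : 0 < C')
    (hsurv : ∀ (m : St) (t : ℝ), 0 < t →
      Pr {ω | (vc a false).X t m ω ≠ ∅} ≤ ENNReal.ofReal (C * m.card / √t))
    (hgf : ∀ t z : ℝ, 0 < t → 0 < z → gf a t z ≤ ENNReal.ofReal (C' * √t / z))
    {s u d : ℝ} (hs : 0 ≤ s) (hu : 0 < u) (hd : 1 < d) :
    Pr {ω | low true ((vc a true).X (s + u) ∅ ω)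
        ((cc ((vc a true).X (s + u) ∅ ω) : ℝ) - 4 * d)} ≤
      ENNReal.ofReal ((∫ ω, ((vc a true).N (s + u) ∅ ω : ℝ) ∂Pr -
        ∫ ω, ((vc a true).N s ∅ ω : ℝ) ∂Pr) / d ^ 2 +
        C / ((d - 1) * √u) * (∫ ω, hh ((vc a true).X s ∅ ω) ∂Pr) + C' * √u / (2 * d)) := by
  have h1 := sh_cheb hk hc hs (le_add_of_nonneg_right hu.le : s ≤ s + u) (zero_lt_one.trans hd)
  have h2 := sh_markov hk hC hC' hsurv hgf hs hu hd
  have hsub : {ω | low true ((vc a true).X (s + u) ∅ ω)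
        ((cc ((vc a true).X (s + u) ∅ ω) : ℝ) - 4 * d)} ⊆
      {ω | d ≤ (cc ((vc a true).X (s + u) ∅ ω) : ℝ) - cc ((vc a true).X s ∅ ω)} ∪
      {ω | low true ((vc a true).X (s + u) ∅ ω)
        ((cc ((vc a true).X s ∅ ω) : ℝ) - 3 * d)} := by
    intro ω hω
    rcases le_or_gt d ((cc ((vc a true).X (s + u) ∅ ω) : ℝ) - cc ((vc a true).X s ∅ ω)) with h | h
    · exact Or.inl h
    · right
      obtain ⟨i, hi1, hi2⟩ := hω
      exact ⟨i, by linarith, hi2⟩
  refine (measure_mono hsub).trans ((measure_union_le _ _).trans ?_)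
  refine (add_le_add h1 h2).trans (le_of_eq ?_)
  have n1 : 0 ≤ (∫ ω, ((vc a true).N (s + u) ∅ ω : ℝ) ∂Pr -
        ∫ ω, ((vc a true).N s ∅ ω : ℝ) ∂Pr) / d ^ 2 := by
    refine div_nonneg ?_ (sq_nonneg _)
    exact le_trans (integral_nonneg fun ω => sq_nonneg _)
      (centre_incr_sq_le hk hc ∅ hs (le_add_of_nonneg_right hu.le : s ≤ s + u))
  have n2 : 0 ≤ C / ((d - 1) * √u) * (∫ ω, hh ((vc a true).X s ∅ ω) ∂Pr) := by
    have : 0 ≤ d - 1 := by linarith
    exact mul_nonneg (by positivity) (integral_nonneg fun ω => hh_nonneg _)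
  have n3 : 0 ≤ C' * √u / (2 * d) := by
    have : 0 < d := zero_lt_one.trans hd
    positivity
  rw [ENNReal.ofReal_add (add_nonneg n1 n2) n3, ENNReal.ofReal_add n1 n2, add_assoc]

theorem sharp (hk : IsKernel a) (hc : mn a = 0) {δ : ℝ} (hδ : 0 < δ) :
    Tendsto (fun t : ℝ => Pr {ω | low true ((vc a true).X t ∅ ω)
      ((cc ((vc a true).X t ∅ ω) : ℝ) - δ * √t)}) atTop (𝓝 0) := by
  obtain ⟨C, hC, hsurv⟩ := survive hk
  obtain ⟨C', hC', hgf⟩ := gf_le1 hk hc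
  rw [ENNReal.tendsto_nhds_zero]
  intro ε hε
  obtain ⟨e, he0, hee⟩ : ∃ e : ℝ, 0 < e ∧ ENNReal.ofReal e ≤ ε := by
    rcases eq_or_ne ε ∞ with h | h
    · exact ⟨1, one_pos, h ▸ le_top⟩
    · exact ⟨ε.toReal, ENNReal.toReal_pos hε.ne' h, (ENNReal.ofReal_toReal h).le⟩
  -- choice of `η`
  have hcont : Tendsto (fun η : ℝ => 16 * (η * sg a) / δ ^ 2 + 2 * C' * √η / δ) (𝓝[>] 0)
      (𝓝 0) := by
    have : ContinuousAt (fun η : ℝ => 16 * (η * sg a) / δ ^ 2 + 2 * C' * √η / δ) 0 := by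
      fun_prop
    have h2 := this.tendsto
    simp only [zero_mul, mul_zero, zero_div, Real.sqrt_zero, add_zero] at h2
    exact h2.mono_left nhdsWithin_le_nhds
  obtain ⟨η, hη, hη0, hη1⟩ : ∃ η : ℝ, 16 * (η * sg a) / δ ^ 2 + 2 * C' * √η / δ < e ∧
      0 < η ∧ η < 1 := by
    have h1 : ∀ᶠ η : ℝ in 𝓝[>] 0, 16 * (η * sg a) / δ ^ 2 + 2 * C' * √η / δ < e :=
      hcont.eventually (gt_mem_nhds he0)
    have h2 : ∀ᶠ η : ℝ in 𝓝[>] 0, η ∈ Set.Ioo (0 : ℝ) 1 :=
      Ioo_mem_nhdsGT one_pos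
    obtain ⟨η, h3, h4⟩ := (h1.and h2).exists
    exact ⟨η, h3, h4.1, h4.2⟩
  have hη1' : 0 < 1 - η := sub_pos.2 hη1
  -- limits
  have hscale : Tendsto (fun t : ℝ => (1 - η) * t) atTop atTop :=
    tendsto_id.const_mul_atTop hη1'
  have l1 : Tendsto (fun t : ℝ => ((∫ ω, ((vc a true).N t ∅ ω : ℝ) ∂Pr -
      ∫ ω, ((vc a true).N ((1 - η) * t) ∅ ω : ℝ) ∂Pr) / (δ * √t / 4) ^ 2)) atTop
      (𝓝 (16 * (η * sg a) / δ ^ 2)) := by
    have h1 := tendsto_EN hk
    have h2 := (tendsto_EN hk).comp hscale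
    have h3 := ((h1.sub (h2.const_mul (1 - η))).const_mul (16 / δ ^ 2))
    have e : 16 / δ ^ 2 * (sg a - (1 - η) * sg a) = 16 * (η * sg a) / δ ^ 2 := by ring
    rw [e] at h3
    refine h3.congr' ?_
    filter_upwards [eventually_gt_atTop 0] with t ht
    have hst : √t ^ 2 = t := Real.sq_sqrt ht.le
    simp only [Function.comp_apply]
    rw [div_pow, mul_pow, hst]
    field_simp
    ring
  have l2 : Tendsto (fun t : ℝ => C / ((δ * √t / 4 - 1) * √(η * t)) *
      (∫ ω, hh ((vc a true).X ((1 - η) * t) ∅ ω) ∂Pr)) atTop (𝓝 0) := by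
    have h2 := (tendsto_Ehh hk).comp hscale
    have h4 : Tendsto (fun t : ℝ => C * (1 - η) / ((δ / 4 - (√t)⁻¹) * √η)) atTop
        (𝓝 (C * (1 - η) / ((δ / 4 - 0) * √η))) := by
      have h5 : Tendsto (fun t : ℝ => (√t)⁻¹) atTop (𝓝 0) :=
        tendsto_inv_atTop_zero.comp Real.tendsto_sqrt_atTop
      refine Tendsto.div tendsto_const_nhds ((tendsto_const_nhds.sub h5).mul_const _) ?_
      have : 0 < √η := Real.sqrt_pos.2 hη0
      simp only [sub_zero]
      positivity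
    have h6 := h4.mul h2
    rw [mul_zero] at h6
    refine h6.congr' ?_
    filter_upwards [eventually_gt_atTop (16 / δ ^ 2 + 1)] with t ht
    have ht0 : 0 < t := lt_trans (by positivity) ht
    have hsq : 0 < √t := Real.sqrt_pos.2 ht0
    have hsη : 0 < √η := Real.sqrt_pos.2 hη0
    have hbig : 4 / δ < √t := by
      rw [Real.lt_sqrt (by positivity)]
      have : (4 / δ) ^ 2 = 16 / δ ^ 2 := by ring
      rw [this]; linarith
    have hpos : 0 < δ * √t / 4 - 1 := by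
      rw [div_lt_iff₀ hδ] at hbig
      nlinarith
    have hst : √t * √t = t := Real.mul_self_sqrt ht0.le
    simp only [Function.comp_apply]
    rw [Real.sqrt_mul hη0.le]
    have hne : δ / 4 - (√t)⁻¹ ≠ 0 := by
      have : δ / 4 - (√t)⁻¹ = (δ * √t / 4 - 1) / √t := by field_simp
      rw [this]; positivity
    have hx : (δ * √t / 4 - 1) = (δ / 4 - (√t)⁻¹) * √t := by field_simp
    rw [hx]
    set J₀ := ∫ ω, hh ((vc a true).X ((1 - η) * t) ∅ ω) ∂Pr
    set w := δ / 4 - (√t)⁻¹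
    have : w * √t * (√η * √t) = w * √η * t := by
      linear_combination w * √η * hst
    rw [this]
    field_simp
  have l3 : ∀ᶠ t : ℝ in atTop, C' * √(η * t) / (2 * (δ * √t / 4)) = 2 * C' * √η / δ := by
    filter_upwards [eventually_gt_atTop 0] with t ht
    have hsq : 0 < √t := Real.sqrt_pos.2 ht
    rw [Real.sqrt_mul hη0.le]
    field_simp
    ring
  have l4 := (l1.add l2).add (tendsto_const_nhds (x := 2 * C' * √η / δ))
  rw [add_zero] at l4
  have l5 := l4.eventually (gt_mem_nhds hη)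
  filter_upwards [l5, l3, eventually_gt_atTop (16 / δ ^ 2 + 1)] with t h5 h3 ht
  have ht0 : 0 < t := lt_trans (by positivity) ht
  have hbig : 4 / δ < √t := by
    rw [Real.lt_sqrt (by positivity)]
    have : (4 / δ) ^ 2 = 16 / δ ^ 2 := by ring
    rw [this]; linarith
  have hd : 1 < δ * √t / 4 := by
    rw [div_lt_iff₀ hδ] at hbig
    nlinarith
  have hb := sh_bound hk hc hC hC' hsurv hgf (s := (1 - η) * t) (u := η * t)
    (d := δ * √t / 4) (by positivity) (by positivity) hd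
  have e1 : (1 - η) * t + η * t = t := by ring
  have e2 : 4 * (δ * √t / 4) = δ * √t := by ring
  rw [e1, e2] at hb
  refine hb.trans (le_trans (ENNReal.ofReal_le_ofReal ?_) hee)
  rw [h3]
  exact h5.le

end H40.VM
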