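import Pool.Agent.H40.VM.CLa
import Pool.Agent.H40.VM.LLU
import Pool.Agent.H40.VM.SH

/-!
# Module CLb: closeness of the rescaled interface and the rescaled centre at a fixed time

Take `n = ⌈K/ε²⌉` jumps with `K = 2 sg t + 2`. Outside of the bad events
(1) `∃ k ≤ n`, `|T0 k - k/sg| > η/ε²` (`lln_unif`),
(2) `∃ i j ≤ n` with `|i - j| ≤ η'/ε²` and `|S i - S j| > κ/(3ε)` (`modulus_P` or `modulus`),
(3) `low (mis (Z k)) (S k - κ/(3ε))` for the `k < n` with `T0 k ≤ (1-ε/2) t/ε² < T0 (k+1)`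
(`sharp` at the deterministic time `(1-ε/2) t/ε²`; `Chain.N_eq_iff`),
`Y_close` shows `|Y t - ε S ⌊sg t/ε²⌋| ≤ κ`. The probabilities of (1), (3) under `Pr` (for `can a n`)
tend to zero, hence also under `P` (`tendsto_P_of_Pr`, `P_le`). For `t = 0` everything is trivial.
-/

open MeasureTheory ProbabilityTheory Filter Topology
open scoped ENNReal NNReal unitInterval symmDiff

namespace H40.VM

open H40.Voter (IsKernel IsVoterChain IsVoterProcess VoterFam SkoD jumpTime Config)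

variable {a : ℤ → ℝ}

lemma clb_cc_empty : cc ∅ = 0 := by simp [cc]

lemma clb_low_mono {b : Bool} {m : St} {r r' : ℝ} (h : low b m r) (hr : r ≤ r') :
    low b m r' := by
  obtain ⟨i, h1, h2⟩ := h
  exact ⟨i, h1.trans hr, h2⟩

/-- initial time -/
lemma close_zero (hk : IsKernel a) (hc : mn a = 0) {V : VoterFam a} (c : Chains V)
    {κ : ℝ} (hκ : 0 < κ) :
    Tendsto (fun ε : ℝ => V.P ε {ω | κ < |(V.Y ε ω).1 0 -
      ε * c.S ε ⌊sg a * (0 : ℝ≥0) / ε ^ 2⌋₊ ω|}) (𝓝[>] 0) (𝓝 0) := by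
  refine tendsto_const_nhds.congr' ?_
  have hsmall := cla_ev_small (b := min (1 / 2) (κ / 2)) (lt_min (by norm_num) (by positivity))
  filter_upwards [hsmall] with ε h2
  obtain ⟨h0, h3⟩ := h2
  have hhalf : ε ≤ 1 / 2 := h3.trans (min_le_left _ _)
  have hεκ : ε ≤ κ / 2 := h3.trans (min_le_right _ _)
  have h1 : ε < 1 := by linarith
  have hae : ∀ᵐ ω ∂(V.P ε), |(V.Y ε ω).1 0 - ε * c.S ε ⌊sg a * (0 : ℝ≥0) / ε ^ 2⌋₊ ω| ≤ κ := by
    filter_upwards [Y_close hk hc c h0 h1, ae_class hk h0.le h1 (c.chain ε h0 h1),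
      ae_zero hk h0.le h1 (c.chain ε h0 h1)] with ω h4 h5 h6
    have hS0 : c.S ε 0 ω = 0 := by
      unfold Chains.S
      rw [h6, clb_cc_empty]
    have e1 : ⌊sg a * (0 : ℝ≥0) / ε ^ 2⌋₊ = 0 := by simp
    rw [e1]
    refine (h4 0 0 1 ?_ ?_ ?_).trans (by linarith)
    · simp [Chains.T0]
    · have h7 : c.T0 ε 1 ω = c.ξ ε 0 ω / tot a true (mis (c.Z ε 0 ω)) := by
        simp [Chains.T0]
      simp only [NNReal.coe_zero, zero_div, mul_zero, zero_add]
      rw [h7]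
      exact div_pos (h5 0).2 (tot_true_pos hk _)
    · rw [h6, hS0]
      rintro ⟨i, hi, hcf⟩
      have h8 : (i : ℝ) ≤ -1 := by simpa using hi
      have h9 : i ≤ -1 := by exact_mod_cast h8
      unfold cf bs at hcf
      simp at hcf
      omega
  have := ae_iff.1 hae
  simp only [not_le] at this
  exact this.symm

/-- a jump index for a time -/
lemma clb_index {T : ℕ → ℝ} {τ : ℝ} {n : ℕ} (h0 : T 0 ≤ τ) (hn : τ < T n) :
    ∃ k < n, T k ≤ τ ∧ τ < T (k + 1) := by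
  by_contra hno
  push Not at hno
  have : ∀ k ≤ n, T k ≤ τ := by
    intro k
    induction k with
    | zero => intro _; exact h0
    | succ k ih =>
      intro hk
      exact hno k (by omega) (ih (by omega))
  exact absurd (this n le_rfl) (not_le.2 hn)

/-- deviations of the jump times -/
lemma clb_S1 (hk : IsKernel a) (hc : mn a = 0) {V : VoterFam a} (c : Chains V) {K η : ℝ}
    (hK : 0 < K) (hη : 0 < η) :
    Tendsto (fun ε : ℝ => V.P ε (abs' (c.Z ε) (c.ξ ε) ⌈K / ε ^ 2⌉₊ ⁻¹'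
      {p | ∃ k ≤ ⌈K / ε ^ 2⌉₊, η * (1 / ε ^ 2) < |claT a k p - k / sg a|})) (𝓝[>] 0) (𝓝 0) := by
  refine tendsto_P_of_Pr hk c hK.le ?_ ?_ ?_
  · filter_upwards [cla_ev_small one_pos] with ε h
    have h0 := h.1
    exact (Nat.ceil_lt_add_one (by positivity)).le
  · intro ε
    have : {p : (ℕ → St) × (ℕ → ℝ) | ∃ k ≤ ⌈K / ε ^ 2⌉₊,
        η * (1 / ε ^ 2) < |claT a k p - k / sg a|} =
        ⋃ k : ℕ, {p | k ≤ ⌈K / ε ^ 2⌉₊ ∧ η * (1 / ε ^ 2) < |claT a k p - k / sg a|} := by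
      ext p
      simp
    rw [this]
    refine MeasurableSet.iUnion fun k => (MeasurableSet.const _).inter ?_
    exact measurableSet_lt measurable_const (((measurable_claT k).sub measurable_const).abs)
  · have h1 := (lln_unif hk hc (K := K + 1) (δ := η) (by positivity) hη).comp cla_tendsto_inv_sq
    refine tendsto_of_tendsto_of_tendsto_of_le_of_le' tendsto_const_nhds h1
      (Eventually.of_forall fun _ => zero_le) ?_
    filter_upwards [cla_ev_small one_pos] with ε h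
    obtain ⟨h0, hle⟩ := h
    refine measure_mono ?_
    rintro ω ⟨k, hkn, hlt⟩
    rw [claT_can hk hkn] at hlt
    refine ⟨k, ?_, hlt⟩
    have h2 : ((⌈K / ε ^ 2⌉₊ : ℕ) : ℝ) < K / ε ^ 2 + 1 := Nat.ceil_lt_add_one (by positivity)
    have h3 : (k : ℝ) ≤ ((⌈K / ε ^ 2⌉₊ : ℕ) : ℝ) := by exact_mod_cast hkn
    have h4 : (1 : ℝ) ≤ 1 / ε ^ 2 := by
      rw [le_div_iff₀ (by positivity)]
      nlinarith
    have h5 : (K + 1) * (1 / ε ^ 2) = K / ε ^ 2 + 1 / ε ^ 2 := by ring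
    simp only
    linarith

/-- the leftmost one at a deterministic time -/
lemma clb_S3 (hk : IsKernel a) (hc : mn a = 0) {V : VoterFam a} (c : Chains V) {t : ℝ≥0}
    (ht : 0 < t) {K κ : ℝ} (hK : 0 < K) (hκ : 0 < κ) :
    Tendsto (fun ε : ℝ => V.P ε (abs' (c.Z ε) (c.ξ ε) ⌈K / ε ^ 2⌉₊ ⁻¹'
      {p | ∃ k < ⌈K / ε ^ 2⌉₊, claT a k p ≤ (1 - ε / 2) * (t / ε ^ 2) ∧
        (1 - ε / 2) * (t / ε ^ 2) < claT a (k + 1) p ∧
        low true (p.1 k) ((cc (p.1 k) : ℝ) - κ / (3 * ε))})) (𝓝[>] 0) (𝓝 0) := by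
  have ht' : (0 : ℝ) < t := by exact_mod_cast ht
  have hst : 0 < √(t : ℝ) := Real.sqrt_pos.2 ht'
  refine tendsto_P_of_Pr hk c hK.le ?_ ?_ ?_
  · filter_upwards [cla_ev_small one_pos] with ε h
    have h0 := h.1
    exact (Nat.ceil_lt_add_one (by positivity)).le
  · intro ε
    have : {p : (ℕ → St) × (ℕ → ℝ) | ∃ k < ⌈K / ε ^ 2⌉₊,
        claT a k p ≤ (1 - ε / 2) * (t / ε ^ 2) ∧
        (1 - ε / 2) * (t / ε ^ 2) < claT a (k + 1) p ∧
        low true (p.1 k) ((cc (p.1 k) : ℝ) - κ / (3 * ε))} =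
        ⋃ k : ℕ, {p | k < ⌈K / ε ^ 2⌉₊ ∧ claT a k p ≤ (1 - ε / 2) * (t / ε ^ 2) ∧
        (1 - ε / 2) * (t / ε ^ 2) < claT a (k + 1) p ∧
        low true (p.1 k) ((cc (p.1 k) : ℝ) - κ / (3 * ε))} := by
      ext p
      simp
    rw [this]
    refine MeasurableSet.iUnion fun k => (MeasurableSet.const _).inter ?_
    refine (measurableSet_le (measurable_claT k) measurable_const).inter
      ((measurableSet_lt measurable_const (measurable_claT (k + 1))).inter ?_)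
    exact measurable_fst_apply k (MeasurableSet.of_discrete
      (s := {m : St | low true m ((cc m : ℝ) - κ / (3 * ε))}))
  · have htime : Tendsto (fun ε : ℝ => (1 - ε / 2) * (t / ε ^ 2)) (𝓝[>] 0) atTop := by
      have h1 : Tendsto (fun ε : ℝ => (t / 2 : ℝ) * (1 / ε ^ 2)) (𝓝[>] 0) atTop :=
        Tendsto.const_mul_atTop (by positivity) cla_tendsto_inv_sq
      refine tendsto_atTop_mono' _ ?_ h1
      filter_upwards [cla_ev_small one_pos] with ε h
      obtain ⟨h0, hle⟩ := h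
      have h2 : (t / 2 : ℝ) * (1 / ε ^ 2) = (1 / 2) * (t / ε ^ 2) := by ring
      rw [h2]
      refine mul_le_mul_of_nonneg_right (by linarith) (by positivity)
    have h1 := (sharp hk hc (δ := κ / (3 * √(t : ℝ))) (by positivity)).comp htime
    refine tendsto_of_tendsto_of_tendsto_of_le_of_le' tendsto_const_nhds h1
      (Eventually.of_forall fun _ => zero_le) ?_
    filter_upwards [cla_ev_small one_pos] with ε h
    obtain ⟨h0, hle⟩ := h
    refine measure_mono ?_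
    rintro ω ⟨k, hkn, h2, h3, h4⟩
    rw [claT_can hk hkn.le] at h2
    rw [claT_can hk (by omega)] at h3
    rw [can_fst hkn.le] at h4
    set τ : ℝ := (1 - ε / 2) * (t / ε ^ 2) with hτ
    have hτ0 : 0 ≤ τ := mul_nonneg (by linarith) (by positivity)
    have hN : (vc a true).N τ ∅ ω = k := ((vc a true).N_eq_iff hτ0 ⟨k + 1, h3⟩).2 ⟨h2, h3⟩
    have hX : (vc a true).X τ ∅ ω = (vc a true).Y k ∅ ω := by
      unfold Chain.X
      rw [hN]
    change low true ((vc a true).X τ ∅ ω) ((cc ((vc a true).X τ ∅ ω) : ℝ) -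
      κ / (3 * √(t : ℝ)) * √τ)
    rw [hX]
    refine clb_low_mono h4 ?_
    have h5 : √τ ≤ √(t : ℝ) / ε := by
      have h6 : τ ≤ t / ε ^ 2 := by
        rw [hτ]
        refine mul_le_of_le_one_left (by positivity) (by linarith)
      calc √τ ≤ √(t / ε ^ 2) := Real.sqrt_le_sqrt h6
        _ = √(t : ℝ) / ε := by rw [Real.sqrt_div ht'.le, Real.sqrt_sq h0.le]
    have h7 : κ / (3 * √(t : ℝ)) * √τ ≤ κ / (3 * ε) := by
      calc κ / (3 * √(t : ℝ)) * √τ ≤ κ / (3 * √(t : ℝ)) * (√(t : ℝ) / ε) :=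
            mul_le_mul_of_nonneg_left h5 (by positivity)
        _ = κ / (3 * ε) := by field_simp
    linarith

lemma clb_num1 {ε t η g k : ℝ} (h0 : 0 < ε) (ht : 0 < t) (_hg : 0 < g)
    (h : k / g ≤ (1 - ε / 2) * (t / ε ^ 2) + η * (1 / ε ^ 2)) : k * ε ^ 2 / g ≤ t + η := by
  have hεp : 0 < ε ^ 2 := by positivity
  have h8 := mul_le_mul_of_nonneg_right h hεp.le
  have h9 : k / g * ε ^ 2 = k * ε ^ 2 / g := by ring
  have h10 : ((1 - ε / 2) * (t / ε ^ 2) + η * (1 / ε ^ 2)) * ε ^ 2 =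
      t + η - ε / 2 * t := by
    field_simp
    ring
  rw [h9, h10] at h8
  have h11 : 0 ≤ ε / 2 * t := by positivity
  linarith

lemma clb_num2 {ε t η g k : ℝ} (h0 : 0 < ε) (hhalf : ε ≤ 1 / 2) (hg : 0 < g)
    (h : (1 - ε / 2) * (t / ε ^ 2) < (k + 1) / g + η * (1 / ε ^ 2)) (h1 : ε * (t + 1) ≤ η)
    (h2 : ε ≤ η * g / 2) : t - k * ε ^ 2 / g ≤ 2 * η := by
  have hεp : 0 < ε ^ 2 := by positivity
  have h9 := mul_lt_mul_of_pos_right h hεp
  have h10 : ((k + 1) / g + η * (1 / ε ^ 2)) * ε ^ 2 = k * ε ^ 2 / g + ε ^ 2 / g + η := by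
    field_simp
  have h11 : (1 - ε / 2) * (t / ε ^ 2) * ε ^ 2 = t - ε / 2 * t := by
    field_simp
  rw [h10, h11] at h9
  have h12 : ε ^ 2 / g ≤ η / 2 := by
    rw [div_le_iff₀ hg]
    have h13 : ε ^ 2 ≤ ε * 1 := by
      rw [sq]
      exact mul_le_mul_of_nonneg_left (by linarith) h0.le
    linarith
  have h13 : ε / 2 * t ≤ η / 2 := by
    have : ε * (t + 1) = ε * t + ε := by ring
    have : ε / 2 * t = (ε * t) / 2 := by ring
    linarith
  linarith

theorem close_fix (hk : IsKernel a) (hc : mn a = 0) {V : VoterFam a} (c : Chains V) (t : ℝ≥0)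
    {κ : ℝ} (hκ : 0 < κ) :
    Tendsto (fun ε : ℝ => V.P ε {ω | κ < |(V.Y ε ω).1 t - ε * c.S ε ⌊sg a * t / ε ^ 2⌋₊ ω|})
      (𝓝[>] 0) (𝓝 0) := by
  rcases eq_or_lt_of_le (zero_le (a := t)) with ht0 | ht
  · rw [← ht0]
    exact close_zero hk hc c hκ
  have ht' : (0 : ℝ) < t := by exact_mod_cast ht
  have hsg : 0 < sg a := sg_pos hk
  refine ENNReal.tendsto_nhds_zero.2 fun ε₀ hε₀ => ?_
  obtain ⟨e, he0, he⟩ : ∃ e : ℝ, 0 < e ∧ ENNReal.ofReal e ≤ ε₀ := by
    by_cases h : ε₀ = ⊤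
    · exact ⟨1, one_pos, by rw [h]; exact le_top⟩
    · exact ⟨ε₀.toReal, ENNReal.toReal_pos hε₀.ne' h, (ENNReal.ofReal_toReal h).le⟩
  obtain ⟨ηm, hηm, hmod⟩ := modulus_P hk hc c (t + 1) (κ := κ / 3) (δ := e / 2)
    (by positivity) (by positivity)
  set η : ℝ := min (ηm / 2) (min (1 / 2) (1 / sg a)) with hη
  have hη0 : 0 < η := lt_min (by positivity) (lt_min (by norm_num) (by positivity))
  have hη1 : η ≤ ηm / 2 := min_le_left _ _
  have hη2 : η ≤ 1 / 2 := (min_le_right _ _).trans (min_le_left _ _)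
  have hη3 : η ≤ 1 / sg a := (min_le_right _ _).trans (min_le_right _ _)
  set K : ℝ := 2 * sg a * t + 2 with hK
  have hK0 : 0 < K := by positivity
  have he4 : (0 : ℝ≥0∞) < ENNReal.ofReal (e / 4) := ENNReal.ofReal_pos.2 (by positivity)
  have hev1 := (ENNReal.tendsto_nhds_zero.1 (clb_S1 hk hc c hK0 hη0)) _ he4
  have hev3 := (ENNReal.tendsto_nhds_zero.1 (clb_S3 hk hc c ht hK0 hκ)) _ he4
  have hsmall := cla_ev_small (b := min (1 / 2) (min (η / (t + 1)) (η * sg a / 2)))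
    (lt_min (by norm_num) (lt_min (by positivity) (by positivity)))
  filter_upwards [hmod, hev1, hev3, hsmall] with ε g1 g2 g3 h2
  obtain ⟨h0, h3⟩ := h2
  have hhalf : ε ≤ 1 / 2 := h3.trans (min_le_left _ _)
  have hε1 : ε ≤ η / (t + 1) := h3.trans ((min_le_right _ _).trans (min_le_left _ _))
  have hε2 : ε ≤ η * sg a / 2 := h3.trans ((min_le_right _ _).trans (min_le_right _ _))
  have h1 : ε < 1 := by linarith
  have hεp : 0 < ε ^ 2 := by positivity
  rw [le_div_iff₀ (by positivity)] at hε1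
  set n : ℕ := ⌈K / ε ^ 2⌉₊ with hn
  set τ : ℝ := (1 - ε / 2) * (t / ε ^ 2) with hτ
  have hτ0 : 0 ≤ τ := mul_nonneg (by linarith) (by positivity)
  set S1 : Set ((ℕ → St) × (ℕ → ℝ)) :=
    {p | ∃ k ≤ n, η * (1 / ε ^ 2) < |claT a k p - k / sg a|} with hS1
  set S3 : Set ((ℕ → St) × (ℕ → ℝ)) := {p | ∃ k < n, claT a k p ≤ τ ∧
        τ < claT a (k + 1) p ∧ low true (p.1 k) ((cc (p.1 k) : ℝ) - κ / (3 * ε))} with hS3
  set Em : Set (V.Ω ε) := {ω | ∃ s u : ℝ≥0, s ≤ t + 1 ∧ u ≤ t + 1 ∧ |(s : ℝ) - u| ≤ ηm ∧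
        κ / 3 < ε * |(c.S ε ⌊sg a * s / ε ^ 2⌋₊ ω : ℝ) - c.S ε ⌊sg a * u / ε ^ 2⌋₊ ω|} with hEm
  have hincl : ∀ᵐ ω ∂(V.P ε), ω ∈ {ω | κ < |(V.Y ε ω).1 t - ε * c.S ε ⌊sg a * t / ε ^ 2⌋₊ ω|} →
      ω ∈ Em ∪ (abs' (c.Z ε) (c.ξ ε) n ⁻¹' S1 ∪ abs' (c.Z ε) (c.ξ ε) n ⁻¹' S3) := by
    filter_upwards [Y_close hk hc c h0 h1] with ω hY hω
    by_contra hno
    simp only [Set.mem_union, Set.mem_preimage, not_or] at hno
    obtain ⟨n1, n2, n3⟩ := hno
    have hω' : κ < |(V.Y ε ω).1 t - ε * c.S ε ⌊sg a * t / ε ^ 2⌋₊ ω| := hω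
    have hT : ∀ k ≤ n, |c.T0 ε k ω - k / sg a| ≤ η * (1 / ε ^ 2) := by
      intro k hkn
      by_contra hcon
      exact n2 ⟨k, hkn, by rw [claT_abs c hkn]; exact not_le.1 hcon⟩
    have hTn : τ < c.T0 ε n ω := by
      have h4 := (abs_le.1 (hT n le_rfl)).1
      have h5 : K / ε ^ 2 ≤ n := Nat.le_ceil _
      have h6 : (K / ε ^ 2) / sg a ≤ n / sg a := div_le_div_of_nonneg_right h5 hsg.le
      have h7 : (K / ε ^ 2) / sg a = (2 * t + 2 / sg a) * (1 / ε ^ 2) := by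
        rw [hK]
        field_simp
      have h8 : τ ≤ t * (1 / ε ^ 2) := by
        rw [hτ, mul_one_div]
        exact mul_le_of_le_one_left (by positivity) (by linarith)
      have h9 : t * (1 / ε ^ 2) < (2 * t + 2 / sg a - η) * (1 / ε ^ 2) := by
        refine mul_lt_mul_of_pos_right ?_ (by positivity)
        have h10 : 2 / sg a = 1 / sg a + 1 / sg a := by ring
        have h11 : 0 < 1 / sg a := by positivity
        linarith
      have h10 : (2 * t + 2 / sg a - η) * (1 / ε ^ 2) =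
          (2 * t + 2 / sg a) * (1 / ε ^ 2) - η * (1 / ε ^ 2) := by ring
      linarith
    obtain ⟨k, hkn, hk1, hk2⟩ := clb_index (T := fun k => c.T0 ε k ω) (τ := τ) (n := n)
      (by simpa [Chains.T0] using hτ0) hTn
    have hlow : ¬ low true (mis (c.Z ε k ω)) ((c.S ε k ω : ℝ) - κ / (3 * ε)) := by
      intro hl
      refine n3 ⟨k, hkn, ?_, ?_, ?_⟩
      · rw [claT_abs c hkn.le]; exact hk1
      · rw [claT_abs c (by omega)]; exact hk2
      · rw [abs_fst c hkn.le]; exact hl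
    have hY1 := hY k t (κ / (3 * ε)) hk1 hk2 hlow
    have e1 : ε * (κ / (3 * ε)) = κ / 3 := by field_simp
    rw [e1] at hY1
    -- the index as a time
    set s : ℝ≥0 := ⟨k * ε ^ 2 / sg a, by positivity⟩ with hs
    have hsv : (s : ℝ) = k * ε ^ 2 / sg a := rfl
    have hsf : ⌊sg a * s / ε ^ 2⌋₊ = k := by
      have : sg a * s / ε ^ 2 = (k : ℝ) := by
        rw [hsv]
        field_simp
      rw [this, Nat.floor_natCast]
    have h4 := (abs_le.1 (hT k hkn.le)).1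
    have h5 := (abs_le.1 (hT (k + 1) (by omega))).2
    have hk1' : c.T0 ε k ω ≤ τ := hk1
    have hk2' : τ < c.T0 ε (k + 1) ω := hk2
    have h6 : (s : ℝ) ≤ t + η := by
      rw [hsv]
      refine clb_num1 h0 ht' hsg ?_
      linarith
    have h7 : (t : ℝ) - s ≤ ηm := by
      rw [hsv]
      refine (clb_num2 h0 hhalf hsg (η := η) ?_ hε1 hε2).trans (by linarith)
      push_cast at h5
      linarith
    have hst : |(s : ℝ) - t| ≤ ηm := by
      rw [abs_le]
      constructor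
      · linarith
      · linarith
    have hm : ε * |(c.S ε k ω : ℝ) - c.S ε ⌊sg a * t / ε ^ 2⌋₊ ω| ≤ κ / 3 := by
      by_contra hcon
      refine n1 ⟨s, t, ?_, ?_, hst, ?_⟩
      · have : (s : ℝ) ≤ ((t + 1 : ℝ≥0) : ℝ) := by
          push_cast
          linarith
        exact_mod_cast this
      · exact le_self_add
      · rw [hsf]
        exact not_le.1 hcon
    have h8 : |(V.Y ε ω).1 t - ε * c.S ε ⌊sg a * t / ε ^ 2⌋₊ ω| ≤ κ / 3 + κ / 3 := by
      have e2 : (V.Y ε ω).1 t - ε * c.S ε ⌊sg a * t / ε ^ 2⌋₊ ω =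
          ((V.Y ε ω).1 t - ε * c.S ε k ω) +
          ε * ((c.S ε k ω : ℝ) - c.S ε ⌊sg a * t / ε ^ 2⌋₊ ω) := by ring
      rw [e2]
      refine (abs_add_le _ _).trans (add_le_add hY1 ?_)
      rw [abs_mul, abs_of_pos h0]
      exact hm
    linarith
  refine (measure_mono_ae hincl).trans ?_
  refine (measure_union_le _ _).trans ?_
  refine (add_le_add g1 ((measure_union_le _ _).trans (add_le_add g2 g3))).trans ?_
  refine le_trans (le_of_eq ?_) he
  rw [← ENNReal.ofReal_add (by positivity) (by positivity),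
    ← ENNReal.ofReal_add (by positivity) (by positivity)]
  congr 1
  ring

end H40.VM
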