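import Pool.Agent.H40.VM.GB

/-!
# Module FB: probability of a one far to the left during a time interval

`ff a t z` is the supremum over all sites `a₀` and all initial states without ones to the left of
`a₀` of the probability that at some time in `[0, t]` there is a one at a site `≤ a₀ - z`.

* `ff 1 z ≤ exp Lam * gf 1 z`: by induction on the number of jumps (first jump decomposition,
  `lintegral_cons'`), `exp (- Lam t) Pr {∃ k < n, T k ≤ t ∧ low (Y k) r} ≤ Pr {low (X t) r}` (use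
  `keep` when `low m r` holds at time zero).
* `ff (s + t) z ≤ ff s z + gf s z' + ff t (z - z')` for `0 < z' < z` (restart at time `s`,
  `Chain.restart`/`lintegral_restart`, `Y_restart`, `T_restart`: if there is no one at a site
  `≤ a₀ - z'` at time `s` then the ones are at sites `≥ a₀' = ⌊a₀ - z'⌋ + 1` and
  `a₀' - (a₀ - z) ≥ z - z'`).
* Hence, for `z_0, …, z_{M-1} > 0` with sum `< z`, by induction on `M`,
  `ff (2^M) z ≤ ∑_{m<M} 2^{M-1-m} gf (2^m) z_m + 2^M ff 1 (z - ∑ z_m)` (`gf`, `ff` are antitone in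
  `z`, so `ff (2^m) z ≤ ff (2^m) (z - z')`).
* With `ρ = 19/20`, `κ = (1-ρ)/4`, `z_m = κ z (ρ^m + ρ^{M-1-m})`: `∑ z_m ≤ z/2`, and `gf_le3` with
  `1/z_m³ ≤ min (ρ^{-3m}, ρ^{-3(M-1-m)}) / (κ z)³` gives
  `ff (2^M) z ≤ C (2^{3M/2} + 2^M c3 z) / z³` (geometric sums with ratio `1/(√2 ρ³) < 1`).
* `ff` is monotone in `t`; for `t ≥ 1` take `M` with `2^{M-1} ≤ t ≤ 2^M`.
-/

open MeasureTheory ProbabilityTheory Filter Topology
open scoped ENNReal NNReal unitInterval symmDiff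

namespace H40.VM

open H40.Voter (IsKernel)

section chain

variable {E : Type} [MeasurableSpace E] [Countable E] [DiscreteMeasurableSpace E] (C : Chain E)

omit [Countable E] [DiscreteMeasurableSpace E] in
lemma Chain.fb_X_cons {t : ℝ} (x : E) (u : unitInterval) (e : ℝ≥0) (ω : Om)
    (h : (e : ℝ) / C.q x ≤ t) (hω : ∃ k, t - (e : ℝ) / C.q x < C.T k (C.Φ x u) ω) :
    C.X t x (cons (u, e) ω) = C.X (t - (e : ℝ) / C.q x) (C.Φ x u) ω := by
  have he : 0 ≤ (e : ℝ) / C.q x := div_nonneg e.2 (C.qpos x).le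
  obtain ⟨k, hk⟩ := hω
  have hex' : ∃ j, t < C.T j x (cons (u, e) ω) := by
    refine ⟨k + 1, ?_⟩
    rw [C.T_cons]
    linarith
  have hN : C.N t x (cons (u, e) ω) = C.N (t - (e : ℝ) / C.q x) (C.Φ x u) ω + 1 := by
    rw [C.N_eq_iff (he.trans h) hex', C.T_cons, C.T_cons]
    obtain ⟨h2, h3⟩ := (C.N_eq_iff (n := C.N (t - (e : ℝ) / C.q x) (C.Φ x u) ω)
      (by linarith) ⟨k, hk⟩).1 rfl
    constructor <;> linarith
  unfold Chain.X
  rw [hN, C.Y_cons]

lemma Chain.fb_hit_trunc (hC : C.NE) {S : Set E} {c : ℝ≥0∞} {t₀ : ℝ}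
    (hS : ∀ x ∈ S, ∀ t ∈ Set.Icc 0 t₀, c ≤ Pr {ω | C.X t x ω ∈ S})
    (k : ℕ) {t : ℝ} (ht : t ∈ Set.Icc 0 t₀) (x : E) :
    c * Pr {ω | ∃ i < k, C.T i x ω ≤ t ∧ C.Y i x ω ∈ S} ≤ Pr {ω | C.X t x ω ∈ S} := by
  classical
  induction k generalizing t x with
  | zero =>
    have : {ω : Om | ∃ i < 0, C.T i x ω ≤ t ∧ C.Y i x ω ∈ S} = ∅ := by
      ext ω
      simp
    rw [this, measure_empty, mul_zero]
    exact bot_le
  | succ k ih =>
    have hq := C.qpos x
    by_cases hx : x ∈ S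
    · calc c * Pr {ω | ∃ i < k + 1, C.T i x ω ≤ t ∧ C.Y i x ω ∈ S} ≤ c * 1 := by
            gcongr
            exact prob_le_one
        _ = c := mul_one c
        _ ≤ _ := hS x hx t ht
    · have hXm : ∀ (s : ℝ) (y : E), MeasurableSet {ω | C.X s y ω ∈ S} := fun s y =>
        (C.measurable_Xx s y) (MeasurableSet.of_discrete)
      rw [pr_eq_lint (C.measurableSet_hit S (k + 1) t x), lintegral_cons'
        (Measurable.ite (C.measurableSet_hit S (k + 1) t x) measurable_const measurable_const),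
        pr_eq_lint (hXm t x), lintegral_cons'
        (Measurable.ite (hXm t x) measurable_const measurable_const)]
      refine (lintegral_const_mul_le _ _).trans (lintegral_mono fun e => ?_)
      refine (lintegral_const_mul_le _ _).trans (lintegral_mono fun u => ?_)
      have hiff : ∀ ω : Om, (∃ i < k + 1,
          C.T i x (cons (u, e) ω) ≤ t ∧ C.Y i x (cons (u, e) ω) ∈ S) →
          ∃ i < k, C.T i (C.Φ x u) ω ≤ t - (e : ℝ) / C.q x ∧ C.Y i (C.Φ x u) ω ∈ S := by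
        rintro ω ⟨i, hi, hT, hY⟩
        cases i with
        | zero => exact absurd hY hx
        | succ i =>
          rw [C.T_cons] at hT
          rw [C.Y_cons] at hY
          exact ⟨i, by omega, by linarith, hY⟩
      by_cases he : (e : ℝ) / C.q x ≤ t
      · have he0 : 0 ≤ (e : ℝ) / C.q x := div_nonneg e.2 hq.le
        have hs : t - (e : ℝ) / C.q x ∈ Set.Icc 0 t₀ := ⟨by linarith, by linarith [ht.2]⟩
        have h1 : ∫⁻ ω, (if ∃ i < k + 1, C.T i x (cons (u, e) ω) ≤ t ∧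
            C.Y i x (cons (u, e) ω) ∈ S then (1 : ℝ≥0∞) else 0) ∂Pr ≤
            Pr {ω | ∃ i < k, C.T i (C.Φ x u) ω ≤ t - (e : ℝ) / C.q x ∧
              C.Y i (C.Φ x u) ω ∈ S} := by
          rw [pr_eq_lint (C.measurableSet_hit S k (t - (e : ℝ) / C.q x) (C.Φ x u))]
          refine lintegral_mono fun ω => ?_
          by_cases h3 : ∃ i < k + 1, C.T i x (cons (u, e) ω) ≤ t ∧ C.Y i x (cons (u, e) ω) ∈ S
          · rw [if_pos h3, if_pos (hiff ω h3)]
          · rw [if_neg h3]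
            exact bot_le
        have h2 : Pr {ω | C.X (t - (e : ℝ) / C.q x) (C.Φ x u) ω ∈ S} =
            ∫⁻ ω, (if C.X t x (cons (u, e) ω) ∈ S then (1 : ℝ≥0∞) else 0) ∂Pr := by
          rw [pr_eq_lint (hXm _ _)]
          refine lintegral_congr_ae ?_
          filter_upwards [C.ae_finite hC (C.Φ x u)] with ω hω
          rw [C.fb_X_cons x u e ω he (hω _)]
        rw [← h2]
        exact (mul_le_mul_right h1 c).trans (ih hs (C.Φ x u))
      · have hz : ∀ ω : Om, (if ∃ i < k + 1,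
            C.T i x (cons (u, e) ω) ≤ t ∧ C.Y i x (cons (u, e) ω) ∈ S then (1 : ℝ≥0∞) else 0)
            = 0 := by
          intro ω
          rw [if_neg]
          intro h3
          obtain ⟨i, -, hT, -⟩ := hiff ω h3
          have := C.T_nonneg i (C.Φ x u) ω
          push Not at he
          linarith
        simp only [hz, lintegral_zero, mul_zero]
        exact bot_le

omit [Countable E] [DiscreteMeasurableSpace E] in
lemma Chain.fb_hit_union (S : Set E) (t : ℝ) (x : E) :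
    {ω : Om | ∃ i, C.T i x ω ≤ t ∧ C.Y i x ω ∈ S} =
      ⋃ k, {ω | ∃ i < k, C.T i x ω ≤ t ∧ C.Y i x ω ∈ S} := by
  ext ω
  simp only [Set.mem_ofPred_eq, Set.mem_iUnion]
  constructor
  · rintro ⟨i, hi⟩
    exact ⟨i + 1, i, Nat.lt_succ_self i, hi⟩
  · rintro ⟨k, i, -, hi⟩
    exact ⟨i, hi⟩

lemma Chain.fb_hit (hC : C.NE) {S : Set E} {c : ℝ≥0∞} {t₀ : ℝ}
    (hS : ∀ x ∈ S, ∀ t ∈ Set.Icc 0 t₀, c ≤ Pr {ω | C.X t x ω ∈ S})
    {t : ℝ} (ht : t ∈ Set.Icc 0 t₀) (x : E) :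
    c * Pr {ω | ∃ i, C.T i x ω ≤ t ∧ C.Y i x ω ∈ S} ≤ Pr {ω | C.X t x ω ∈ S} := by
  have hmono : Monotone fun k => {ω : Om | ∃ i < k, C.T i x ω ≤ t ∧ C.Y i x ω ∈ S} := by
    rintro k l hkl ω ⟨i, hi, h⟩
    exact ⟨i, hi.trans_le hkl, h⟩
  rw [C.fb_hit_union, hmono.measure_iUnion, ENNReal.mul_iSup]
  exact iSup_le fun k => C.fb_hit_trunc hC hS k ht x

lemma Chain.fb_measurable_hit (S : Set E) (t : ℝ) (x : E) :
    MeasurableSet {ω | ∃ i, C.T i x ω ≤ t ∧ C.Y i x ω ∈ S} := by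
  rw [C.fb_hit_union]
  exact MeasurableSet.iUnion fun k => C.measurableSet_hit S k t x

open Classical in
lemma Chain.fb_restart (hC : C.NE) (S : Set E) {s t : ℝ} (hs : 0 ≤ s) (x : E) :
    Pr {ω | ∃ i, C.T i x ω ≤ s + t ∧ C.Y i x ω ∈ S} ≤
      Pr {ω | ∃ i, C.T i x ω ≤ s ∧ C.Y i x ω ∈ S} +
        ∫⁻ ω, Pr {ω' | ∃ i, C.T i (C.X s x ω) ω' ≤ t ∧ C.Y i (C.X s x ω) ω' ∈ S} ∂Pr := by
  have hH : Measurable fun p : E × Om =>
      if ∃ i, C.T i p.1 p.2 ≤ t ∧ C.Y i p.1 p.2 ∈ S then (1 : ℝ≥0∞) else 0 := by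
    refine measurable_from_prod_countable_right fun y => ?_
    exact Measurable.ite (C.fb_measurable_hit S t y) measurable_const measurable_const
  have h1 : ∫⁻ ω, Pr {ω' | ∃ i, C.T i (C.X s x ω) ω' ≤ t ∧ C.Y i (C.X s x ω) ω' ∈ S} ∂Pr =
      Pr {ω | ∃ i, C.T i (C.X s x ω) (C.θ s x ω) ≤ t ∧
        C.Y i (C.X s x ω) (C.θ s x ω) ∈ S} := by
    have h2 := C.lintegral_restart hC x hs (C.measurable_Xx s x) (C.past_X s x) hH
    have hms : MeasurableSet {ω | ∃ i, C.T i (C.X s x ω) (C.θ s x ω) ≤ t ∧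
        C.Y i (C.X s x ω) (C.θ s x ω) ∈ S} := by
      have h3 : MeasurableSet {p : E × Om | ∃ i, C.T i p.1 p.2 ≤ t ∧ C.Y i p.1 p.2 ∈ S} := by
        have : {p : E × Om | ∃ i, C.T i p.1 p.2 ≤ t ∧ C.Y i p.1 p.2 ∈ S} =
            ⋃ i, ({p : E × Om | C.T i p.1 p.2 ≤ t} ∩ {p : E × Om | C.Y i p.1 p.2 ∈ S}) := by
          ext p
          simp
        rw [this]
        refine MeasurableSet.iUnion fun i => ?_
        exact (measurableSet_le (C.measurable_T i) measurable_const).inter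
          ((C.measurable_Y i) (MeasurableSet.of_discrete))
      exact ((C.measurable_Xx s x).prodMk (C.measurable_θ s x)) h3
    rw [pr_eq_lint hms, h2]
    refine lintegral_congr fun ω => ?_
    rw [pr_eq_lint (C.fb_measurable_hit S t _)]
  rw [h1]
  refine le_trans (measure_mono_ae ?_) (measure_union_le _ _)
  filter_upwards [C.ae_finite hC x] with ω hω
  rintro ⟨k, hT, hY⟩
  have hN := (C.N_eq_iff hs (hω s)).1 rfl
  rcases Nat.lt_or_ge (C.N s x ω) k with h | h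
  · right
    obtain ⟨j, rfl⟩ := Nat.exists_eq_add_of_lt h
    refine ⟨j + 1, ?_, ?_⟩
    · have h4 := C.T_restart hs x ω (hω s) j
      rw [show C.N s x ω + (j + 1) = C.N s x ω + j + 1 by ring] at h4
      rw [h4] at hT
      linarith
    · have h4 := C.Y_restart s x ω (j + 1)
      rw [← h4]
      exact hY
  · left
    exact ⟨k, (C.T_mono x ω h).trans hN.1, hY⟩

end chain

variable {a : ℤ → ℝ}

/-- see the module docstring -/
noncomputable def ff (a : ℤ → ℝ) (t z : ℝ) : ℝ≥0∞ :=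
  ⨆ (p : ℤ × St) (_ : ∀ i < p.1, cf true p.2 i = false),
    Pr {ω | ∃ k, (vc a true).T k p.2 ω ≤ t ∧ low true ((vc a true).Y k p.2 ω) ((p.1 : ℝ) - z)}

lemma le_ff (a : ℤ → ℝ) (t z : ℝ) {a₀ : ℤ} {m : St} (hm : ∀ i < a₀, cf true m i = false) :
    Pr {ω | ∃ k, (vc a true).T k m ω ≤ t ∧ low true ((vc a true).Y k m ω) ((a₀ : ℝ) - z)} ≤
      ff a t z := by
  exact le_iSup₂ (f := fun (p : ℤ × St) (_ : ∀ i < p.1, cf true p.2 i = false) =>
    Pr {ω | ∃ k, (vc a true).T k p.2 ω ≤ t ∧ low true ((vc a true).Y k p.2 ω) ((p.1 : ℝ) - z)})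
    (a₀, m) hm

lemma fb_ff_le_iff {t z : ℝ} {c : ℝ≥0∞} : ff a t z ≤ c ↔
    ∀ (a₀ : ℤ) (m : St), (∀ i < a₀, cf true m i = false) →
      Pr {ω | ∃ k, (vc a true).T k m ω ≤ t ∧
        low true ((vc a true).Y k m ω) ((a₀ : ℝ) - z)} ≤ c := by
  unfold ff
  rw [iSup₂_le_iff]
  exact ⟨fun h a₀ m hm => h (a₀, m) hm, fun h p hp => h p.1 p.2 hp⟩

lemma fb_low_mono {b : Bool} {m : St} {r r' : ℝ} (h : r ≤ r') (hl : low b m r) : low b m r' := by
  obtain ⟨i, hi, h1⟩ := hl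
  exact ⟨i, hi.trans h, h1⟩

lemma fb_ff_anti {t z z' : ℝ} (h : z ≤ z') : ff a t z' ≤ ff a t z := by
  rw [fb_ff_le_iff]
  intro a₀ m hm
  refine le_trans (measure_mono ?_) (le_ff a t z hm)
  rintro ω ⟨k, h1, h2⟩
  exact ⟨k, h1, fb_low_mono (by linarith) h2⟩

lemma fb_ff_mono {t t' z : ℝ} (h : t ≤ t') : ff a t z ≤ ff a t' z := by
  rw [fb_ff_le_iff]
  intro a₀ m hm
  refine le_trans (measure_mono ?_) (le_ff a t' z hm)
  rintro ω ⟨k, h1, h2⟩
  exact ⟨k, h1.trans h, h2⟩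

lemma fb_ff_one (hk : IsKernel a) (z : ℝ) :
    ff a 1 z ≤ ENNReal.ofReal (Real.exp (Lam a)) * gf a 1 z := by
  rw [fb_ff_le_iff]
  intro a₀ m hm
  have hL := Lam_nonneg hk
  have h1 := (vc a true).fb_hit (ne_true hk) (S := {m | low true m ((a₀ : ℝ) - z)})
    (c := ENNReal.ofReal (Real.exp (-(Lam a)))) (t₀ := 1) ?_ (t := 1) ⟨zero_le_one, le_rfl⟩ m
  · have h2 : Pr {ω | (vc a true).X 1 m ω ∈ {m | low true m ((a₀ : ℝ) - z)}} ≤ gf a 1 z :=
      le_gf a 1 z hm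
    have h3 : ENNReal.ofReal (Real.exp (Lam a)) * ENNReal.ofReal (Real.exp (-(Lam a))) = 1 := by
      rw [← ENNReal.ofReal_mul (Real.exp_pos _).le, ← Real.exp_add, add_neg_cancel, Real.exp_zero,
        ENNReal.ofReal_one]
    calc Pr {ω | ∃ k, (vc a true).T k m ω ≤ 1 ∧
          low true ((vc a true).Y k m ω) ((a₀ : ℝ) - z)}
        = ENNReal.ofReal (Real.exp (Lam a)) * (ENNReal.ofReal (Real.exp (-(Lam a))) *
          Pr {ω | ∃ k, (vc a true).T k m ω ≤ 1 ∧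
            low true ((vc a true).Y k m ω) ((a₀ : ℝ) - z)}) := by
          rw [← mul_assoc, h3, one_mul]
      _ ≤ _ := mul_le_mul_right (h1.trans h2) _
  · rintro y ⟨i, hi, hy⟩ t ht
    have h4 := keep hk hy ht.1
    refine le_trans (ENNReal.ofReal_le_ofReal (Real.exp_le_exp.2 ?_)) (h4.trans
      (measure_mono fun ω hω => ⟨i, hi, hω⟩))
    have : Lam a * t ≤ Lam a * 1 := mul_le_mul_of_nonneg_left ht.2 hL
    linarith

lemma fb_ff_add (hk : IsKernel a) {s t : ℝ} (hs : 0 ≤ s) (z z' : ℝ) :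
    ff a (s + t) z ≤ ff a s z + gf a s z' + ff a t (z - z') := by
  classical
  rw [fb_ff_le_iff]
  intro a₀ m hm
  have h1 := (vc a true).fb_restart (ne_true hk) {m | low true m ((a₀ : ℝ) - z)} hs (t := t) m
  have h2 : Pr {ω | ∃ i, (vc a true).T i m ω ≤ s ∧
      (vc a true).Y i m ω ∈ {m | low true m ((a₀ : ℝ) - z)}} ≤ ff a s z := le_ff a s z hm
  have h3 : ∫⁻ ω, Pr {ω' | ∃ i, (vc a true).T i ((vc a true).X s m ω) ω' ≤ t ∧
      (vc a true).Y i ((vc a true).X s m ω) ω' ∈ {m | low true m ((a₀ : ℝ) - z)}} ∂Pr ≤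
      gf a s z' + ff a t (z - z') := by
    have hms : MeasurableSet {ω | low true ((vc a true).X s m ω) ((a₀ : ℝ) - z')} :=
      ((vc a true).measurable_Xx s m) (MeasurableSet.of_discrete
        (s := {y : St | low true y ((a₀ : ℝ) - z')}))
    calc _ ≤ ∫⁻ ω, ((if low true ((vc a true).X s m ω) ((a₀ : ℝ) - z') then (1 : ℝ≥0∞) else 0) +
          ff a t (z - z')) ∂Pr := by
          refine lintegral_mono fun ω => ?_
          by_cases hl : low true ((vc a true).X s m ω) ((a₀ : ℝ) - z')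
          · rw [if_pos hl]
            exact prob_le_one.trans le_self_add
          · rw [if_neg hl, zero_add]
            have hm' : ∀ i < (⌊(a₀ : ℝ) - z'⌋ + 1), cf true ((vc a true).X s m ω) i = false := by
              intro i hi
              by_contra hcon
              refine hl ⟨i, ?_, by simpa using hcon⟩
              exact Int.le_floor.1 (Int.lt_add_one_iff.1 hi)
            refine le_trans (measure_mono ?_) (le_ff a t (z - z') hm')
            rintro ω' ⟨k, h4, h5⟩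
            refine ⟨k, h4, fb_low_mono ?_ h5⟩
            push_cast
            have := Int.lt_floor_add_one ((a₀ : ℝ) - z')
            linarith
      _ = Pr {ω | low true ((vc a true).X s m ω) ((a₀ : ℝ) - z')} + ff a t (z - z') := by
          rw [lintegral_add_right _ measurable_const, ← pr_eq_lint hms, lintegral_const,
            measure_univ, mul_one]
      _ ≤ _ := by
          gcongr
          exact le_gf a s z' hm
  calc _ ≤ _ := h1
    _ ≤ ff a s z + (gf a s z' + ff a t (z - z')) := add_le_add h2 h3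
    _ = _ := by rw [add_assoc]

lemma fb_ff_double (hk : IsKernel a) (w : ℕ → ℝ) (hw : ∀ m, 0 ≤ w m) (M : ℕ) (z : ℝ) :
    ff a (2 ^ M) z ≤ (∑ m ∈ Finset.range M, 2 ^ (M - 1 - m) * gf a (2 ^ m) (w m)) +
      2 ^ M * ff a 1 (z - ∑ m ∈ Finset.range M, w m) := by
  induction M generalizing z with
  | zero => simp
  | succ M ih =>
    have h1 : ff a (2 ^ (M + 1)) z ≤
        ff a (2 ^ M) z + gf a (2 ^ M) (w M) + ff a (2 ^ M) (z - w M) := by
      have := fb_ff_add hk (s := 2 ^ M) (t := 2 ^ M) (by positivity) z (w M)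
      rwa [show (2 : ℝ) ^ M + 2 ^ M = 2 ^ (M + 1) by ring] at this
    have h2 : ff a (2 ^ M) z ≤ ff a (2 ^ M) (z - w M) := fb_ff_anti (by linarith [hw M])
    have h3 := ih (z - w M)
    calc ff a (2 ^ (M + 1)) z
        ≤ ff a (2 ^ M) (z - w M) + gf a (2 ^ M) (w M) + ff a (2 ^ M) (z - w M) :=
          h1.trans (by gcongr)
      _ = gf a (2 ^ M) (w M) + 2 * ff a (2 ^ M) (z - w M) := by ring
      _ ≤ gf a (2 ^ M) (w M) + 2 * ((∑ m ∈ Finset.range M, 2 ^ (M - 1 - m) * gf a (2 ^ m) (w m)) +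
          2 ^ M * ff a 1 (z - w M - ∑ m ∈ Finset.range M, w m)) := by gcongr
      _ = _ := by
          rw [Finset.sum_range_succ, Finset.sum_range_succ, Nat.add_sub_cancel, Nat.sub_self,
            pow_zero, one_mul, mul_add, Finset.mul_sum, ← mul_assoc, ← pow_succ',
            show z - w M - ∑ m ∈ Finset.range M, w m = z - (∑ m ∈ Finset.range M, w m + w M) by
              ring]
          have : ∀ m ∈ Finset.range M, (2 : ℝ≥0∞) * (2 ^ (M - 1 - m) * gf a (2 ^ m) (w m)) =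
              2 ^ (M - m) * gf a (2 ^ m) (w m) := by
            intro m hm
            rw [Finset.mem_range] at hm
            rw [← mul_assoc, ← pow_succ', show M - 1 - m + 1 = M - m by omega]
          rw [Finset.sum_congr rfl this]
          ring

lemma fb_geom {q : ℝ} (h0 : 0 ≤ q) (h1 : q < 1) (n : ℕ) :
    ∑ m ∈ Finset.range n, q ^ m ≤ 1 / (1 - q) := by
  have := (summable_geometric_of_lt_one h0 h1).sum_le_tsum (Finset.range n)
    (fun i _ => pow_nonneg h0 i)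
  rw [tsum_geometric_of_lt_one h0 h1] at this
  rwa [one_div]

lemma fb_term1 {r ρ κ z : ℝ} (hr : 0 < r) (hρ : 0 < ρ) (hκ : 0 < κ) (hz : 0 < z) (m d : ℕ) :
    2 ^ (m + d) * r ^ m / (κ * z * ρ ^ d) ^ 3 =
      2 ^ (m + d) * r ^ (m + d) * ((r * ρ ^ 3)⁻¹) ^ d / (κ * z) ^ 3 := by
  have h1 : r ^ (m + d) * ((r * ρ ^ 3)⁻¹) ^ d = r ^ m / (ρ ^ d) ^ 3 := by
    rw [inv_pow, mul_pow, pow_add, ← pow_mul, ← pow_mul, mul_comm 3 d]
    field_simp
  rw [mul_assoc (2 ^ (m + d)), h1, mul_pow (κ * z)]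
  field_simp

lemma fb_term2 {r ρ κ z c : ℝ} (hr : 0 < r) (hr2 : r * r = 2) (hρ : 0 < ρ) (hκ : 0 < κ)
    (hz : 0 < z) (m d : ℕ) :
    2 ^ d * (r ^ m * c) / (κ * z * ρ ^ m) ^ 3 =
      2 ^ (m + d) * c * ((r * ρ ^ 3)⁻¹) ^ m / (κ * z) ^ 3 := by
  have h1 : 2 ^ m * ((r * ρ ^ 3)⁻¹) ^ m = r ^ m / (ρ ^ m) ^ 3 := by
    rw [inv_pow, mul_pow, ← hr2, mul_pow, ← pow_mul, ← pow_mul, mul_comm 3 m]
    field_simp
  have h2 : (2 : ℝ) ^ (m + d) * c * ((r * ρ ^ 3)⁻¹) ^ m =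
      2 ^ d * c * (2 ^ m * ((r * ρ ^ 3)⁻¹) ^ m) := by
    rw [pow_add]
    ring
  rw [h2, h1, mul_pow (κ * z)]
  field_simp

lemma fb_sqrt_pow (m : ℕ) : √((2 : ℝ) ^ m) = √2 ^ m := by
  rw [Real.sqrt_eq_iff_mul_self_eq_of_pos (by positivity), ← mul_pow,
    Real.mul_self_sqrt (by norm_num)]

lemma fb_dyadic (hk : IsKernel a) (hc : mn a = 0) :
    ∃ C : ℝ, 0 < C ∧ ∀ (n : ℕ) (z : ℝ), 0 < z →
      ff a (2 ^ (n + 1)) z ≤
        ENNReal.ofReal (C * (2 ^ n * √2 ^ n + 2 ^ n * c3 a z) / z ^ 3) := by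
  obtain ⟨C, hC, hgf⟩ := gf_le3 hk hc
  have hr : 0 < √(2 : ℝ) := by positivity
  have hr2 : √(2 : ℝ) * √2 = 2 := Real.mul_self_sqrt (by norm_num)
  have hr1 : 1 ≤ √(2 : ℝ) := by
    rw [Real.one_le_sqrt]
    norm_num
  set q : ℝ := (√2 * (19 / 20 : ℝ) ^ 3)⁻¹ with hq
  have hq0 : 0 ≤ q := by positivity
  have hq1 : q < 1 := by
    rw [hq, inv_lt_one₀ (by positivity)]
    nlinarith
  refine ⟨C * 80 ^ 3 / (1 - q) + 16 * Real.exp (Lam a) * C, ?_, fun n z hz => ?_⟩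
  · have : 0 < 1 - q := by linarith
    positivity
  have h1q : 0 < 1 - q := by linarith
  have hc0 : 0 ≤ c3 a z := c3_nonneg hk hz.le
  let w : ℕ → ℝ := fun m => 1 / 80 * z * ((19 / 20 : ℝ) ^ m + (19 / 20 : ℝ) ^ (n - m))
  have hw : ∀ m, w m = 1 / 80 * z * ((19 / 20 : ℝ) ^ m + (19 / 20 : ℝ) ^ (n - m)) := fun m => rfl
  have hw0 : ∀ m, 0 < w m := fun m => by rw [hw]; positivity
  have hw1 : ∀ m, 1 / 80 * z * (19 / 20 : ℝ) ^ m ≤ w m := fun m => by
    rw [hw]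
    have : (0 : ℝ) ≤ (19 / 20 : ℝ) ^ (n - m) := by positivity
    gcongr
    linarith
  have hw2 : ∀ m, 1 / 80 * z * (19 / 20 : ℝ) ^ (n - m) ≤ w m := fun m => by
    rw [hw]
    have : (0 : ℝ) ≤ (19 / 20 : ℝ) ^ m := by positivity
    gcongr
    linarith
  have hwz : ∀ m, w m ≤ z := fun m => by
    have h1 : (19 / 20 : ℝ) ^ m ≤ 1 := pow_le_one₀ (by norm_num) (by norm_num)
    have h2 : (19 / 20 : ℝ) ^ (n - m) ≤ 1 := pow_le_one₀ (by norm_num) (by norm_num)
    rw [hw]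
    nlinarith
  have hsum : ∑ m ∈ Finset.range (n + 1), w m ≤ z / 2 := by
    have h1 : ∑ m ∈ Finset.range (n + 1), w m = 1 / 80 * z *
        ((∑ m ∈ Finset.range (n + 1), (19 / 20 : ℝ) ^ m) +
          ∑ m ∈ Finset.range (n + 1), (19 / 20 : ℝ) ^ (n - m)) := by
      rw [← Finset.sum_add_distrib, Finset.mul_sum]
    have h2 : ∑ m ∈ Finset.range (n + 1), (19 / 20 : ℝ) ^ (n - m) =
        ∑ m ∈ Finset.range (n + 1), (19 / 20 : ℝ) ^ m :=
      Finset.sum_range_reflect (fun m => (19 / 20 : ℝ) ^ m) (n + 1)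
    have h3 := fb_geom (q := 19 / 20) (by norm_num) (by norm_num) (n + 1)
    rw [h1, h2]
    norm_num at h3
    nlinarith
  have hD := fb_ff_double hk w (fun m => (hw0 m).le) (n + 1) z
  have hA : ∑ m ∈ Finset.range (n + 1), (2 : ℝ≥0∞) ^ (n + 1 - 1 - m) * gf a (2 ^ m) (w m) ≤
      ENNReal.ofReal (C * 80 ^ 3 / (1 - q) * (2 ^ n * √2 ^ n + 2 ^ n * c3 a z) / z ^ 3) := by
    have hterm : ∀ m ∈ Finset.range (n + 1), (2 : ℝ≥0∞) ^ (n + 1 - 1 - m) * gf a (2 ^ m) (w m) ≤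
        ENNReal.ofReal (C * ((2 ^ n * √2 ^ n) * q ^ (n - m) / (1 / 80 * z) ^ 3 +
          2 ^ n * c3 a z * q ^ m / (1 / 80 * z) ^ 3)) := by
      intro m hm
      have hmn : m ≤ n := Nat.lt_succ_iff.1 (Finset.mem_range.1 hm)
      obtain ⟨d, rfl⟩ := Nat.exists_eq_add_of_le hmn
      have e1 : m + d + 1 - 1 - m = d := by omega
      have e2 : m + d - m = d := by omega
      have h1 := hgf (2 ^ m) (w m) (by positivity) (hw0 m)
      rw [fb_sqrt_pow] at h1
      have h2 : (2 : ℝ≥0∞) ^ d = ENNReal.ofReal (2 ^ d) := by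
        rw [ENNReal.ofReal_pow (by norm_num)]
        norm_num
      rw [e1, h2]
      refine (mul_le_mul_right h1 _).trans ?_
      rw [← ENNReal.ofReal_mul (by positivity)]
      refine ENNReal.ofReal_le_ofReal ?_
      have hcm : c3 a (w m) ≤ c3 a z := c3_mono hk (hw0 m).le (hwz m)
      have hcm0 : 0 ≤ c3 a (w m) := c3_nonneg hk (hw0 m).le
      have hw2' := hw2 m
      rw [e2] at hw2' ⊢
      have hw1' := hw1 m
      have t1 := fb_term1 hr (by norm_num : (0 : ℝ) < 19 / 20) (by norm_num : (0 : ℝ) < 1 / 80)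
        hz m d
      have t2 := fb_term2 (c := c3 a z) hr hr2 (by norm_num : (0 : ℝ) < 19 / 20)
        (by norm_num : (0 : ℝ) < 1 / 80) hz m d
      rw [← hq] at t1 t2
      rw [← t1, ← t2]
      calc 2 ^ d * (C * (2 ^ m * √2 ^ m + √2 ^ m * c3 a (w m)) / w m ^ 3)
          = C * (2 ^ (m + d) * √2 ^ m / w m ^ 3 + 2 ^ d * (√2 ^ m * c3 a (w m)) / w m ^ 3) := by
            rw [pow_add]
            ring
        _ ≤ _ := by
            gcongr
    refine (Finset.sum_le_sum hterm).trans ?_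
    rw [← ENNReal.ofReal_sum_of_nonneg (fun m _ => by positivity)]
    refine ENNReal.ofReal_le_ofReal ?_
    have h2 : ∑ m ∈ Finset.range (n + 1), q ^ (n - m) = ∑ m ∈ Finset.range (n + 1), q ^ m :=
      Finset.sum_range_reflect (fun m => q ^ m) (n + 1)
    have h3 := fb_geom hq0 hq1 (n + 1)
    have h4 : ∑ m ∈ Finset.range (n + 1), C * ((2 ^ n * √2 ^ n) * q ^ (n - m) / (1 / 80 * z) ^ 3 +
          2 ^ n * c3 a z * q ^ m / (1 / 80 * z) ^ 3) =
        C * ((2 ^ n * √2 ^ n) / (1 / 80 * z) ^ 3 * ∑ m ∈ Finset.range (n + 1), q ^ (n - m) +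
          2 ^ n * c3 a z / (1 / 80 * z) ^ 3 * ∑ m ∈ Finset.range (n + 1), q ^ m) := by
      rw [Finset.mul_sum, Finset.mul_sum, ← Finset.sum_add_distrib, Finset.mul_sum]
      refine Finset.sum_congr rfl fun m _ => ?_
      ring
    rw [h4, h2]
    calc C * ((2 ^ n * √2 ^ n) / (1 / 80 * z) ^ 3 * ∑ m ∈ Finset.range (n + 1), q ^ m +
          2 ^ n * c3 a z / (1 / 80 * z) ^ 3 * ∑ m ∈ Finset.range (n + 1), q ^ m)
        ≤ C * ((2 ^ n * √2 ^ n) / (1 / 80 * z) ^ 3 * (1 / (1 - q)) +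
          2 ^ n * c3 a z / (1 / 80 * z) ^ 3 * (1 / (1 - q))) := by gcongr
      _ = _ := by
          field_simp
  have hB : (2 : ℝ≥0∞) ^ (n + 1) * ff a 1 (z - ∑ m ∈ Finset.range (n + 1), w m) ≤
      ENNReal.ofReal (16 * Real.exp (Lam a) * C * (2 ^ n * √2 ^ n + 2 ^ n * c3 a z) / z ^ 3) := by
    have h1 : ff a 1 (z - ∑ m ∈ Finset.range (n + 1), w m) ≤ ff a 1 (z / 2) :=
      fb_ff_anti (by linarith)
    have h2 := fb_ff_one hk (z / 2)
    have h3 := hgf 1 (z / 2) one_pos (by positivity)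
    have h4 : (2 : ℝ≥0∞) ^ (n + 1) = ENNReal.ofReal (2 ^ (n + 1)) := by
      rw [ENNReal.ofReal_pow (by norm_num)]
      norm_num
    rw [h4]
    refine (mul_le_mul_right (h1.trans (h2.trans (mul_le_mul_right h3 _))) _).trans ?_
    rw [← ENNReal.ofReal_mul (Real.exp_pos _).le, ← ENNReal.ofReal_mul (by positivity)]
    refine ENNReal.ofReal_le_ofReal ?_
    rw [Real.sqrt_one]
    have hcm : c3 a (z / 2) ≤ c3 a z := c3_mono hk (by positivity) (by linarith)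
    have hcm0 : 0 ≤ c3 a (z / 2) := c3_nonneg hk (by positivity)
    have hE := Real.exp_pos (Lam a)
    have hrn : 1 ≤ √(2 : ℝ) ^ n := one_le_pow₀ hr1
    calc 2 ^ (n + 1) * (Real.exp (Lam a) * (C * (1 * 1 + 1 * c3 a (z / 2)) / (z / 2) ^ 3))
        = 16 * Real.exp (Lam a) * C * (2 ^ n * 1 + 2 ^ n * c3 a (z / 2)) / z ^ 3 := by
          field_simp
          ring
      _ ≤ _ := by
          gcongr
  refine hD.trans ((add_le_add hA hB).trans ?_)
  rw [← ENNReal.ofReal_add (by positivity) (by positivity)]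
  refine ENNReal.ofReal_le_ofReal (le_of_eq ?_)
  ring

theorem ff_le (hk : IsKernel a) (hc : mn a = 0) :
    ∃ C : ℝ, 0 < C ∧ ∀ t z : ℝ, 1 ≤ t → 0 < z →
      ff a t z ≤ ENNReal.ofReal (C * (t * √t + t * c3 a z) / z ^ 3) := by
  obtain ⟨C, hC, h⟩ := fb_dyadic hk hc
  refine ⟨C, hC, fun t z ht hz => ?_⟩
  obtain ⟨n, hn1, hn2⟩ := exists_nat_pow_near ht (one_lt_two : (1 : ℝ) < 2)
  refine (fb_ff_mono hn2.le).trans ((h n z hz).trans (ENNReal.ofReal_le_ofReal ?_))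
  have hc0 : 0 ≤ c3 a z := c3_nonneg hk hz.le
  have h1 : √(2 : ℝ) ^ n ≤ √t := by
    rw [← fb_sqrt_pow]
    exact Real.sqrt_le_sqrt hn1
  have ht0 : 0 ≤ t := by linarith
  gcongr

end H40.VM
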