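import Pool.Agent.H40.VM.VB2

/-!
# Module VB6: the eigenfunctions

`Ef θ m = 1 + (e^{iθ} - 1) ∑_j (H(j) - x(j)) e^{iθj}` (`H` Heaviside). For the sorted configuration
with centre `c` it equals `e^{iθc}`, so `|Ef θ m - e^{iθ cc m}| ≤ |e^{iθ}-1| ∑_j |x(j) - H_c(j)|` and
the last sum is twice the number of ones to the left of `c = cc m` (= number of zeros at sites
`≥ c`, `balance`). The generator: real and imaginary parts are linear functionals plus constants;
`gn_lin` with `ρ(j) = - (e^{iθ}-1) e^{iθj}` and the geometric sums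
`bd true ρ k = e^{iθk} - 1`, `ρ(i+k) - ρ(i) = (e^{iθk} - 1) ρ(i)`.
-/

open MeasureTheory ProbabilityTheory Filter Topology
open scoped ENNReal NNReal unitInterval symmDiff

namespace H40.VM

open H40.Voter (IsKernel)

variable {a : ℤ → ℝ}

noncomputable def Ef (θ : ℝ) (m : St) : ℂ :=
  1 + (Complex.exp (θ * Complex.I) - 1) *
    ∑ i ∈ m, (-(ys true i) : ℝ) * Complex.exp (θ * i * Complex.I)

noncomputable def lamf (a : ℤ → ℝ) (θ : ℝ) : ℂ :=
  ∑' k : ℤ, (a k : ℂ) * (Complex.exp (θ * k * Complex.I) - 1)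

/-- the exponentials -/
noncomputable def ex (θ : ℝ) (j : ℤ) : ℂ := Complex.exp (θ * j * Complex.I)

lemma ex_zero (θ : ℝ) : ex θ 0 = 1 := by simp [ex]

lemma ex_add (θ : ℝ) (i j : ℤ) : ex θ (i + j) = ex θ i * ex θ j := by
  unfold ex
  rw [← Complex.exp_add]
  congr 1
  push_cast
  ring

lemma ex_eq (θ : ℝ) (j : ℤ) : ex θ j = Complex.exp (((θ * j : ℝ) : ℂ) * Complex.I) := by
  unfold ex
  push_cast
  rfl

lemma norm_ex (θ : ℝ) (j : ℤ) : ‖ex θ j‖ = 1 := by
  rw [ex_eq, Complex.norm_exp_ofReal_mul_I]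

lemma ex_one (θ : ℝ) : Complex.exp (θ * Complex.I) = ex θ 1 := by
  unfold ex; simp

lemma norm_ex_sub_one_le (θ : ℝ) (j : ℤ) : ‖ex θ j - 1‖ ≤ |θ * j| := by
  have := Real.norm_exp_I_mul_ofReal_sub_one_le (x := θ * j)
  rw [mul_comm Complex.I, ← ex_eq, Real.norm_eq_abs] at this
  exact this

lemma norm_ex_sub_one_le_two (θ : ℝ) (j : ℤ) : ‖ex θ j - 1‖ ≤ 2 := by
  calc ‖ex θ j - 1‖ ≤ ‖ex θ j‖ + ‖(1 : ℂ)‖ := norm_sub_le _ _
    _ = 2 := by rw [norm_ex, norm_one]; norm_num

lemma geom_ex (θ : ℝ) (p q : ℤ) (h : p ≤ q) :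
    (ex θ 1 - 1) * ∑ j ∈ Finset.Ico p q, ex θ j = ex θ q - ex θ p := by
  induction q, h using Int.leInduction with
  | base => simp
  | succ q hq ih =>
    have e : Finset.Ico p (q + 1) = insert q (Finset.Ico p q) := by
      ext j
      simp only [Finset.mem_Ico, Finset.mem_insert]
      omega
    rw [e, Finset.sum_insert (by simp), mul_add, ih, ex_add θ q 1]
    ring

lemma Ef_eq (θ : ℝ) (m : St) :
    Ef θ m = 1 + (ex θ 1 - 1) * ∑ i ∈ m, ((-(ys true i) : ℝ) : ℂ) * ex θ i := by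
  unfold Ef
  rw [ex_one]
  rfl

lemma lamf_eq (a : ℤ → ℝ) (θ : ℝ) : lamf a θ = ∑' k : ℤ, (a k : ℂ) * (ex θ k - 1) := rfl

lemma abs_ys (b : Bool) (i : ℤ) : |ys b i| = 1 := by
  unfold ys
  split_ifs <;> simp

lemma norm_Ef_le (θ : ℝ) (m : St) : ‖Ef θ m‖ ≤ 1 + 2 * m.card := by
  rw [Ef_eq]
  refine (norm_add_le _ _).trans ?_
  rw [norm_one, norm_mul]
  have h1 : ‖∑ i ∈ m, ((-(ys true i) : ℝ) : ℂ) * ex θ i‖ ≤ m.card := by
    refine (norm_sum_le _ _).trans ?_
    rw [Finset.sum_congr rfl (g := fun _ => (1 : ℝ)) (fun i _ => by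
      rw [norm_mul, norm_ex, mul_one, Complex.norm_real, Real.norm_eq_abs, abs_neg, abs_ys])]
    simp
  have h2 := norm_ex_sub_one_le_two θ 1
  have := mul_le_mul h2 h1 (norm_nonneg _) (by norm_num)
  linarith

@[simp] lemma Ef_empty (θ : ℝ) : Ef θ ∅ = 1 := by
  simp [Ef]

/-- the weights of the linear functional -/
noncomputable def Rw (θ : ℝ) (w : ℂ) (j : ℤ) : ℂ := -(w * (ex θ 1 - 1) * ex θ j)

lemma Ef_lin (θ : ℝ) (w : ℂ) (m : St) :
    w * Ef θ m = w + ∑ i ∈ m, (ys true i : ℂ) * Rw θ w i := by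
  rw [Ef_eq, mul_add, mul_one, ← mul_assoc, Finset.mul_sum]
  congr 1
  apply Finset.sum_congr rfl
  intro i _
  unfold Rw
  push_cast
  ring

lemma Ef_re (θ : ℝ) (w : ℂ) (m : St) :
    (w * Ef θ m).re = w.re + lin true (fun j => (Rw θ w j).re) m := by
  rw [Ef_lin, Complex.add_re, Complex.re_sum]
  unfold lin
  congr 1
  apply Finset.sum_congr rfl
  intro i _
  rw [Complex.re_ofReal_mul]

lemma bd_Rw (θ : ℝ) (w : ℂ) (k : ℤ) :
    bd true (fun j => (Rw θ w j).re) k = (w * (ex θ k - 1)).re := by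
  unfold bd
  rw [if_pos rfl]
  have h1 : ∀ s : Finset ℤ, ∑ j ∈ s, (Rw θ w j).re =
      (-(w * ((ex θ 1 - 1) * ∑ j ∈ s, ex θ j))).re := by
    intro s
    rw [← Complex.re_sum]
    congr 1
    unfold Rw
    rw [Finset.sum_neg_distrib, ← Finset.mul_sum, mul_assoc]
  split_ifs with h
  · rw [h1, geom_ex θ 0 k h, ex_zero, ← Complex.neg_re, neg_neg]
  · rw [h1, geom_ex θ k 0 (by omega), ex_zero]
    congr 1
    ring

theorem gn_Ef (hk : IsKernel a) (θ : ℝ) (w : ℂ) (m : St) :
    gn a true (fun m => (w * Ef θ m).re) m = (w * lamf a θ * Ef θ m).re := by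
  have h1 : gn a true (fun m => (w * Ef θ m).re) m =
      gn a true (lin true (fun j => (Rw θ w j).re)) m := by
    unfold gn
    apply tsum_congr
    intro j
    simp only [Ef_re]
    ring
  have hρ : Summable fun j : ℤ => rt a true m j * |(Rw θ w j).re| := by
    refine Summable.of_nonneg_of_le
      (fun j => mul_nonneg (rt_nonneg hk true m j) (abs_nonneg _)) (fun j => ?_)
      ((summable_rt hk true m).mul_right (‖w‖ * 2))
    apply mul_le_mul_of_nonneg_left _ (rt_nonneg hk true m j)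
    refine (Complex.abs_re_le_norm _).trans ?_
    unfold Rw
    rw [norm_neg, norm_mul, norm_mul, norm_ex, mul_one]
    exact mul_le_mul_of_nonneg_left (norm_ex_sub_one_le_two θ 1) (norm_nonneg _)
  rw [h1, gn_lin hk true _ m hρ]
  have h2 : ∀ k : ℤ, a k * (bd true (fun j => (Rw θ w j).re) k +
      ∑ i ∈ m, ys true i * ((Rw θ w (i + k)).re - (Rw θ w i).re)) =
      ((a k : ℂ) * (ex θ k - 1) * (w * Ef θ m)).re := by
    intro k
    have h3 : ∑ i ∈ m, ys true i * ((Rw θ w (i + k)).re - (Rw θ w i).re) =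
        ((ex θ k - 1) * ∑ i ∈ m, (ys true i : ℂ) * Rw θ w i).re := by
      rw [Finset.mul_sum, Complex.re_sum]
      apply Finset.sum_congr rfl
      intro i _
      have h4 : (ex θ k - 1) * ((ys true i : ℂ) * Rw θ w i) =
          (ys true i : ℂ) * (Rw θ w (i + k) - Rw θ w i) := by
        unfold Rw
        rw [ex_add]
        ring
      rw [h4, Complex.re_ofReal_mul, Complex.sub_re]
    rw [bd_Rw, h3, ← Complex.add_re, Ef_lin, mul_assoc, Complex.re_ofReal_mul]
    congr 2
    ring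
  rw [tsum_congr h2]
  have hs : Summable fun k : ℤ => (a k : ℂ) * (ex θ k - 1) * (w * Ef θ m) := by
    apply Summable.mul_right
    refine Summable.of_norm_bounded (g := fun k => a k * 2) (hk.summable.mul_right 2)
      (fun k => ?_)
    rw [norm_mul, Complex.norm_real, Real.norm_eq_abs, abs_of_nonneg (hk.nonneg k)]
    exact mul_le_mul_of_nonneg_left (norm_ex_sub_one_le_two θ k) (hk.nonneg k)
  rw [← Complex.re_tsum hs, tsum_mul_right, ← lamf_eq]
  congr 1
  ring

theorem norm_Ef_sub_le (θ : ℝ) (m : St) :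
    ‖Ef θ m - Complex.exp (θ * (cc m : ℝ) * Complex.I)‖ ≤
      2 * |θ| * no true m ((cc m : ℝ) - 1) := by
  classical
  obtain ⟨c, hc⟩ : ∃ c : ℤ, c = cc m := ⟨_, rfl⟩
  have hexc : Complex.exp (θ * (cc m : ℝ) * Complex.I) = ex θ c := by
    rw [hc]; unfold ex; push_cast; rfl
  rw [hexc, Ef_eq]
  let U : Finset ℤ := m ∪ (Finset.Ico 0 c ∪ Finset.Ico c 0)
  let x : ℤ → ℂ := fun j => if cf true m j = true then 1 else 0
  let H : ℤ → ℂ := fun j => if 0 ≤ j then 1 else 0
  let Hc : ℤ → ℂ := fun j => if c ≤ j then 1 else 0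
  have s1 : ∑ i ∈ m, ((-(ys true i) : ℝ) : ℂ) * ex θ i = ∑ i ∈ U, (H i - x i) * ex θ i := by
    rw [← Finset.sum_subset (s₁ := m) (s₂ := U) Finset.subset_union_left]
    · apply Finset.sum_congr rfl
      intro i hi
      congr 1
      simp only [ys, bs, H, x, cf, hi, decide_true, Bool.xor_true, Bool.true_and,
        Bool.not_eq_true', decide_eq_false_iff_not, decide_eq_true_eq]
      by_cases h0 : 0 ≤ i
      · simp [h0]
      · simp [h0]
    · intro i _ hi
      have : H i = x i := by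
        simp only [H, x, cf, bs, hi, decide_false, Bool.xor_false, Bool.true_and,
          decide_eq_true_eq]
      rw [this, sub_self, zero_mul]
  have s2 : ∑ i ∈ U, (H i - x i) * ex θ i =
      ∑ i ∈ U, (H i - Hc i) * ex θ i + ∑ i ∈ U, (Hc i - x i) * ex θ i := by
    rw [← Finset.sum_add_distrib]
    apply Finset.sum_congr rfl
    intro i _
    ring
  have s3 : (ex θ 1 - 1) * ∑ i ∈ U, (H i - Hc i) * ex θ i = ex θ c - 1 := by
    by_cases h0 : 0 ≤ c
    · have : ∑ i ∈ U, (H i - Hc i) * ex θ i = ∑ i ∈ Finset.Ico 0 c, ex θ i := by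
        rw [← Finset.sum_subset (s₁ := Finset.Ico 0 c) (s₂ := U)
          (Finset.subset_union_left.trans Finset.subset_union_right)]
        · apply Finset.sum_congr rfl
          intro i hi
          rw [Finset.mem_Ico] at hi
          have h1 : H i = 1 := if_pos hi.1
          have h2 : Hc i = 0 := if_neg (by omega)
          rw [h1, h2]; ring
        · intro i _ hi
          rw [Finset.mem_Ico] at hi
          have : H i = Hc i := by
            by_cases h1 : 0 ≤ i
            · have h2 : c ≤ i := by omega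
              simp [H, Hc, h1, h2]
            · have h2 : ¬ c ≤ i := by omega
              simp [H, Hc, h1, h2]
          rw [this, sub_self, zero_mul]
      rw [this, geom_ex θ 0 c h0, ex_zero]
    · have : ∑ i ∈ U, (H i - Hc i) * ex θ i = -∑ i ∈ Finset.Ico c 0, ex θ i := by
        rw [← Finset.sum_neg_distrib]
        rw [← Finset.sum_subset (s₁ := Finset.Ico c 0) (s₂ := U)
          (Finset.subset_union_right.trans Finset.subset_union_right)]
        · apply Finset.sum_congr rfl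
          intro i hi
          rw [Finset.mem_Ico] at hi
          have h1 : H i = 0 := if_neg (by omega)
          have h2 : Hc i = 1 := if_pos hi.1
          rw [h1, h2]; ring
        · intro i _ hi
          rw [Finset.mem_Ico] at hi
          have : H i = Hc i := by
            by_cases h1 : 0 ≤ i
            · have h2 : c ≤ i := by omega
              simp [H, Hc, h1, h2]
            · have h2 : ¬ c ≤ i := by omega
              simp [H, Hc, h1, h2]
          rw [this, sub_self, zero_mul]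
      rw [this, mul_neg, geom_ex θ c 0 (by omega), ex_zero]
      ring
  have s4 : ‖∑ i ∈ U, (Hc i - x i) * ex θ i‖ ≤
      (no true m ((cc m : ℝ) - 1) : ℝ) + nz m ((cc m : ℝ) - 1) := by
    refine (norm_sum_le _ _).trans ?_
    have h1 : ∀ i ∈ U, ‖(Hc i - x i) * ex θ i‖ =
        (if ((i : ℝ) ≤ (cc m : ℝ) - 1 ∧ cf true m i = true) then (1 : ℝ) else 0) +
        (if ((cc m : ℝ) - 1 < (i : ℝ) ∧ cf true m i = false) then (1 : ℝ) else 0) := by
      intro i _
      rw [norm_mul, norm_ex, mul_one]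
      have e1 : ((i : ℝ) ≤ (cc m : ℝ) - 1) ↔ ¬ c ≤ i := by
        rw [hc]
        constructor
        · intro h
          have : i ≤ cc m - 1 := by exact_mod_cast h
          omega
        · intro h
          have : i ≤ cc m - 1 := by omega
          exact_mod_cast this
      have e2 : ((cc m : ℝ) - 1 < (i : ℝ)) ↔ c ≤ i := by
        rw [← not_le, e1, not_not]
      simp only [e1, e2, Hc, x]
      by_cases h1 : c ≤ i <;> by_cases h2 : cf true m i = true <;> simp [h1, h2]
    rw [Finset.sum_congr rfl h1, Finset.sum_add_distrib]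
    apply add_le_add
    · rw [Finset.sum_boole]
      have : (U.filter (fun i : ℤ => (i : ℝ) ≤ (cc m : ℝ) - 1 ∧ cf true m i = true)).card ≤
          no true m ((cc m : ℝ) - 1) := by
        unfold no
        rw [← Set.ncard_coe_finset]
        apply Set.ncard_le_ncard _ (no_finite _ _ _)
        intro i hi
        rw [Finset.mem_coe, Finset.mem_filter] at hi
        exact hi.2
      exact_mod_cast this
    · rw [Finset.sum_boole]
      have : (U.filter (fun i : ℤ => (cc m : ℝ) - 1 < (i : ℝ) ∧ cf true m i = false)).card ≤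
          nz m ((cc m : ℝ) - 1) := by
        unfold nz
        rw [← Set.ncard_coe_finset]
        apply Set.ncard_le_ncard _ (nz_finite _ _)
        intro i hi
        rw [Finset.mem_coe, Finset.mem_filter] at hi
        exact hi.2
      exact_mod_cast this
  have hb := balance m (cc m - 1)
  have hb2 : nz m ((cc m : ℝ) - 1) = no true m ((cc m : ℝ) - 1) := by
    push_cast at hb
    omega
  rw [hb2] at s4
  have e : 1 + (ex θ 1 - 1) * ∑ i ∈ m, ((-(ys true i) : ℝ) : ℂ) * ex θ i - ex θ c =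
      (ex θ 1 - 1) * ∑ i ∈ U, (Hc i - x i) * ex θ i := by
    rw [s1, s2, mul_add, s3]
    ring
  rw [e, norm_mul]
  have h5 := norm_ex_sub_one_le θ 1
  rw [Int.cast_one, mul_one] at h5
  have := mul_le_mul h5 s4 (norm_nonneg _) (abs_nonneg _)
  refine this.trans (le_of_eq ?_)
  ring

lemma lamf_summable (hk : IsKernel a) (θ : ℝ) :
    Summable fun k : ℤ => (a k : ℂ) * (ex θ k - 1) := by
  refine Summable.of_norm_bounded (g := fun k => a k * 2) (hk.summable.mul_right 2)
    (fun k => ?_)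
  rw [norm_mul, Complex.norm_real, Real.norm_eq_abs, abs_of_nonneg (hk.nonneg k)]
  exact mul_le_mul_of_nonneg_left (norm_ex_sub_one_le_two θ k) (hk.nonneg k)

lemma lamf_re_nonpos (hk : IsKernel a) (θ : ℝ) : (lamf a θ).re ≤ 0 := by
  rw [lamf_eq, Complex.re_tsum (lamf_summable hk θ)]
  apply tsum_nonpos
  intro k
  rw [Complex.re_ofReal_mul, Complex.sub_re, Complex.one_re]
  have h1 : (ex θ k).re ≤ 1 := (Complex.re_le_norm _).trans (norm_ex θ k).le
  exact mul_nonpos_of_nonneg_of_nonpos (hk.nonneg k) (by linarith)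

lemma norm_second (x : ℝ) : ‖Complex.exp (x * Complex.I) - 1 - x * Complex.I‖ ≤ 3 * x ^ 2 := by
  by_cases h : |x| ≤ 1
  · have h1 : ‖(x : ℂ) * Complex.I‖ = |x| := by
      rw [norm_mul, Complex.norm_I, mul_one, Complex.norm_real, Real.norm_eq_abs]
    have h2 := Complex.norm_exp_sub_one_sub_id_le (x := (x : ℂ) * Complex.I) (by rw [h1]; exact h)
    rw [h1, sq_abs] at h2
    nlinarith [sq_nonneg x]
  · push Not at h
    have h1 : ‖Complex.exp (x * Complex.I) - 1 - x * Complex.I‖ ≤ 1 + 1 + |x| := by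
      refine (norm_sub_le _ _).trans ?_
      rw [norm_mul, Complex.norm_I, mul_one, Complex.norm_real, Real.norm_eq_abs]
      refine add_le_add ((norm_sub_le _ _).trans ?_) le_rfl
      rw [Complex.norm_exp_ofReal_mul_I, norm_one]
    rw [← sq_abs]
    nlinarith

lemma norm_third (x : ℝ) (h : |x| ≤ 1) :
    ‖Complex.exp (x * Complex.I) - 1 - x * Complex.I + (x : ℂ) ^ 2 / 2‖ ≤ |x| ^ 3 := by
  have h1 : ‖(x : ℂ) * Complex.I‖ = |x| := by
    rw [norm_mul, Complex.norm_I, mul_one, Complex.norm_real, Real.norm_eq_abs]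
  have h2 := Complex.exp_bound (x := (x : ℂ) * Complex.I) (by rw [h1]; exact h) (n := 3)
    (by norm_num)
  rw [h1] at h2
  have e : ∑ j ∈ Finset.range 3, ((x : ℂ) * Complex.I) ^ j / (j.factorial : ℂ) =
      1 + x * Complex.I - (x : ℂ) ^ 2 / 2 := by
    simp only [Finset.sum_range_succ, Finset.sum_range_zero, pow_zero, Nat.factorial, pow_one,
      mul_pow, Complex.I_sq]
    push_cast
    ring
  rw [e] at h2
  have e2 : Complex.exp (x * Complex.I) - 1 - x * Complex.I + (x : ℂ) ^ 2 / 2 =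
      Complex.exp (x * Complex.I) - (1 + x * Complex.I - (x : ℂ) ^ 2 / 2) := by ring
  rw [e2]
  refine h2.trans ?_
  have h3 : 0 ≤ |x| ^ 3 := by positivity
  have h4 : ((Nat.succ 3 : ℕ) : ℝ) * (((3 : ℕ).factorial : ℝ) * ((3 : ℕ) : ℝ))⁻¹ ≤ 1 := by
    norm_num [Nat.factorial]
  calc |x| ^ 3 * (((Nat.succ 3 : ℕ) : ℝ) * (((3 : ℕ).factorial : ℝ) * ((3 : ℕ) : ℝ))⁻¹)
      ≤ |x| ^ 3 * 1 := mul_le_mul_of_nonneg_left h4 h3
    _ = |x| ^ 3 := mul_one _

/-- dominated convergence with `|e^{ix} - 1 - ix + x²/2| ≤ min (x², |x|³)` -/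
theorem lamf_asymp (hk : IsKernel a) (hc : mn a = 0) :
    Tendsto (fun θ : ℝ => lamf a θ / (θ : ℂ) ^ 2) (𝓝[≠] 0) (𝓝 (-(sg a : ℂ) / 2)) := by
  have hab : Summable fun k : ℤ => a k * |(k : ℝ)| := by
    refine Summable.of_nonneg_of_le (fun k => mul_nonneg (hk.nonneg k) (abs_nonneg _))
      (fun k => ?_) (hk.summable.add hk.second_moment)
    have h1 : |(k : ℝ)| ≤ 1 + (k : ℝ) ^ 2 := by
      rw [← sq_abs]; nlinarith [abs_nonneg (k : ℝ), sq_nonneg (|(k : ℝ)| - 1)]
    have := mul_le_mul_of_nonneg_left h1 (hk.nonneg k)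
    linarith
  have hmn : Summable fun k : ℤ => a k * (k : ℝ) := by
    refine Summable.of_norm (hab.congr (fun k => ?_))
    rw [norm_mul, Real.norm_eq_abs, Real.norm_eq_abs, abs_of_nonneg (hk.nonneg k)]
  have hmnC : ∑' k : ℤ, ((a k : ℂ) * (k : ℂ)) = 0 := by
    have h1 : ∑' k : ℤ, ((a k : ℂ) * (k : ℂ)) = ((∑' k : ℤ, a k * (k : ℝ) : ℝ) : ℂ) := by
      rw [Complex.ofReal_tsum]
      apply tsum_congr
      intro k
      push_cast
      rfl
    rw [h1]
    unfold mn at hc
    rw [hc]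
    simp
  have hmnS : Summable fun k : ℤ => ((a k : ℂ) * (k : ℂ)) := by
    have := (Complex.hasSum_ofReal.2 hmn.hasSum).summable
    refine this.congr (fun k => ?_)
    push_cast
    rfl
  have key : ∀ θ : ℝ, lamf a θ / (θ : ℂ) ^ 2 =
      ∑' k : ℤ, (a k : ℂ) * ((ex θ k - 1 - θ * k * Complex.I) / (θ : ℂ) ^ 2) := by
    intro θ
    have h1 : lamf a θ = ∑' k : ℤ, (a k : ℂ) * (ex θ k - 1 - θ * k * Complex.I) := by
      have h2 : ∀ k : ℤ, (a k : ℂ) * (ex θ k - 1 - θ * k * Complex.I) =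
          (a k : ℂ) * (ex θ k - 1) - ((a k : ℂ) * (k : ℂ)) * (θ * Complex.I) := by
        intro k; ring
      rw [tsum_congr h2, (lamf_summable hk θ).tsum_sub (hmnS.mul_right _), tsum_mul_right, hmnC,
        zero_mul, sub_zero, lamf_eq]
    rw [h1, ← tsum_div_const]
    apply tsum_congr
    intro k
    ring
  have hlim : -(sg a : ℂ) / 2 = ∑' k : ℤ, (a k : ℂ) * (-((k : ℂ) ^ 2) / 2) := by
    unfold sg
    rw [Complex.ofReal_tsum, ← tsum_neg, ← tsum_div_const]
    apply tsum_congr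
    intro k
    push_cast
    ring
  simp only [key]
  rw [hlim]
  refine tendsto_tsum_of_dominated_convergence (bound := fun k : ℤ => 3 * (a k * (k : ℝ) ^ 2))
    (hk.second_moment.mul_left 3) ?_ ?_
  · intro k
    apply Tendsto.const_mul
    rw [tendsto_iff_norm_sub_tendsto_zero]
    have hev : ∀ᶠ θ : ℝ in 𝓝[≠] 0, ‖(ex θ k - 1 - θ * k * Complex.I) / (θ : ℂ) ^ 2 -
        -((k : ℂ) ^ 2) / 2‖ ≤ |θ| * |(k : ℝ)| ^ 3 := by
      have h1 : ∀ᶠ θ : ℝ in 𝓝[≠] 0, |θ * k| < 1 := by
        have : Tendsto (fun θ : ℝ => |θ * k|) (𝓝[≠] 0) (𝓝 |(0 : ℝ) * k|) :=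
          ((continuous_abs.comp (continuous_id.mul continuous_const)).tendsto 0).mono_left
            nhdsWithin_le_nhds
        rw [zero_mul, abs_zero] at this
        exact this.eventually (gt_mem_nhds one_pos)
      filter_upwards [h1, self_mem_nhdsWithin] with θ h2 h3
      have h3 : θ ≠ 0 := h3
      have h3' : (θ : ℂ) ≠ 0 := by exact_mod_cast h3
      have h4 := norm_third (θ * k) h2.le
      have e : (ex θ k - 1 - θ * k * Complex.I) / (θ : ℂ) ^ 2 - -((k : ℂ) ^ 2) / 2 =
          (Complex.exp (((θ * k : ℝ) : ℂ) * Complex.I) - 1 - ((θ * k : ℝ) : ℂ) * Complex.I +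
            ((θ * k : ℝ) : ℂ) ^ 2 / 2) / (θ : ℂ) ^ 2 := by
        rw [ex_eq]
        push_cast
        field_simp
        ring
      rw [e, norm_div, norm_pow, Complex.norm_real, Real.norm_eq_abs, div_le_iff₀ (by positivity)]
      refine h4.trans (le_of_eq ?_)
      rw [abs_mul]
      ring
    have hz : Tendsto (fun θ : ℝ => |θ| * |(k : ℝ)| ^ 3) (𝓝[≠] 0) (𝓝 0) := by
      have : Tendsto (fun θ : ℝ => |θ| * |(k : ℝ)| ^ 3) (𝓝[≠] 0) (𝓝 (|(0 : ℝ)| * |(k : ℝ)| ^ 3)) :=
        ((continuous_abs.mul continuous_const).tendsto 0).mono_left nhdsWithin_le_nhds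
      rwa [abs_zero, zero_mul] at this
    exact squeeze_zero' (Eventually.of_forall fun θ => norm_nonneg _) hev hz
  · filter_upwards [self_mem_nhdsWithin] with θ h3 k
    have h3 : θ ≠ 0 := h3
    rw [norm_mul, Complex.norm_real, Real.norm_eq_abs, abs_of_nonneg (hk.nonneg k), norm_div,
      norm_pow, Complex.norm_real, Real.norm_eq_abs]
    have h4 := norm_second (θ * k)
    have e : ex θ k - 1 - θ * k * Complex.I =
        Complex.exp (((θ * k : ℝ) : ℂ) * Complex.I) - 1 - ((θ * k : ℝ) : ℂ) * Complex.I := by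
      rw [ex_eq]; push_cast; ring
    rw [e]
    have h5 : ‖Complex.exp (((θ * k : ℝ) : ℂ) * Complex.I) - 1 - ((θ * k : ℝ) : ℂ) * Complex.I‖ /
        |θ| ^ 2 ≤ 3 * (k : ℝ) ^ 2 := by
      rw [div_le_iff₀ (by positivity), sq_abs]
      refine h4.trans (le_of_eq ?_)
      ring
    have := mul_le_mul_of_nonneg_left h5 (hk.nonneg k)
    linarith

end H40.VM
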