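import Pool.Agent.H40.VM.CB
import Pool.Agent.H40.VM.VB6

/-!
# Module EG: expectation of the eigenfunction

`Chain.sub` applied to `± W`, `W t m n = (w * exp (t * lamf) * Ef θ m).re` (`w = 1` and
`w = - I`), `L = card`, `K = 2`: the derivative in `t` equals the generator by `gn_Ef`
(`tot_mul_integral`, `summable_rt_of_growth`, `q_true`); growth: `‖exp (t lamf)‖ ≤ 1` for `t ≥ 0`.
`char_centre` follows with `norm_Ef_sub_le`.
-/

open MeasureTheory ProbabilityTheory Filter Topology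
open scoped ENNReal NNReal unitInterval symmDiff

namespace H40.VM

open H40.Voter (IsKernel)

variable {a : ℤ → ℝ}

lemma EG_card_Φ (b : Bool) (m : St) (u : unitInterval) :
    (((vc a b).Φ m u).card : ℝ) ≤ (m.card : ℝ) + 1 := by
  exact_mod_cast card_Φ_le (a := a) b m u

lemma EG_count (hk : IsKernel a) (m : St) {t : ℝ} (ht : 0 ≤ t) :
    ∑' k, Pr {ω | (vc a true).T (k + 1) m ω ≤ t} ≠ ∞ :=
  ne_top_of_le_ne_top ENNReal.ofReal_ne_top (tsum_count_le hk m ht)

lemma EG_norm_exp (hk : IsKernel a) (θ : ℝ) {t : ℝ} (ht : 0 ≤ t) :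
    ‖Complex.exp (t * lamf a θ)‖ ≤ 1 := by
  rw [Complex.norm_exp, Complex.re_ofReal_mul]
  rw [← Real.exp_zero]
  apply Real.exp_le_exp.2
  exact mul_nonpos_of_nonneg_of_nonpos ht (lamf_re_nonpos hk θ)

lemma EG_re_bound (θ : ℝ) (w : ℂ) (m : St) :
    |(w * Ef θ m).re| ≤ (2 * ‖w‖) * (1 + (m.card : ℝ)) := by
  refine (Complex.abs_re_le_norm _).trans ?_
  rw [norm_mul]
  have h1 := norm_Ef_le θ m
  have h2 := norm_nonneg w
  have h3 : (0 : ℝ) ≤ m.card := Nat.cast_nonneg _
  nlinarith [mul_le_mul_of_nonneg_left h1 h2]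

lemma EG_integrable_re (hk : IsKernel a) (θ : ℝ) (w : ℂ) (m : St) {u : ℝ} (hu : 0 ≤ u) :
    Integrable (fun ω => (w * Ef θ ((vc a true).X u m ω)).re) Pr := by
  have := (vc a true).integrable_of_growth (ne_true hk) (L := fun m => (m.card : ℝ))
    (fun x => Nat.cast_nonneg _) (EG_card_Φ true) (K := 2 * ‖w‖)
    (f := fun x _ => (w * Ef θ x).re) (fun x n => ?_) hu m (EG_count hk m hu) 0
  · exact this
  · refine (EG_re_bound θ w x).trans ?_
    apply mul_le_mul_of_nonneg_left _ (by positivity)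
    have : (0 : ℝ) ≤ n := Nat.cast_nonneg _
    linarith

lemma EG_ineq (hk : IsKernel a) (θ : ℝ) (w : ℂ) (m : St) {u : ℝ} (hu : 0 ≤ u) :
    (w * Complex.exp (u * lamf a θ) * Ef θ m).re ≤
      ∫ ω, (w * Ef θ ((vc a true).X u m ω)).re ∂Pr := by
  have key := (vc a true).sub (ne_true hk) (L := fun m => (m.card : ℝ))
    (fun x => Nat.cast_nonneg _) (EG_card_Φ true) (K := 2 * ‖w‖) hu
    (W := fun t x _ => (w * Complex.exp (t * lamf a θ) * Ef θ x).re)
    (W' := fun t x _ => (w * Complex.exp (t * lamf a θ) * lamf a θ * Ef θ x).re)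
    ?_ ?_ ?_ ?_ m (EG_count hk m hu) 0
  · simpa using key
  · intro t ht x n
    refine (EG_re_bound θ _ x).trans ?_
    have h1 : ‖w * Complex.exp (t * lamf a θ)‖ ≤ ‖w‖ := by
      rw [norm_mul]
      have := EG_norm_exp hk θ ht.1
      have := mul_le_mul_of_nonneg_left this (norm_nonneg w)
      linarith
    have h2 : (0 : ℝ) ≤ n := Nat.cast_nonneg _
    have h3 : (0 : ℝ) ≤ (x.card : ℝ) := Nat.cast_nonneg _
    have h4 := norm_nonneg w
    nlinarith [mul_nonneg h4 h2, mul_nonneg h4 h3]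
  · intro t x n
    have h1 : HasDerivAt (fun t : ℝ => w * Complex.exp (t * lamf a θ) * Ef θ x)
        (w * Complex.exp (t * lamf a θ) * lamf a θ * Ef θ x) t := by
      have h2 : HasDerivAt (fun t : ℝ => (t : ℂ) * lamf a θ) (lamf a θ) t := by
        have := (Complex.ofRealCLM.hasDerivAt (x := t)).mul_const (lamf a θ)
        simpa using this
      have h3 := ((h2.cexp).const_mul w).mul_const (Ef θ x)
      refine h3.congr_deriv ?_
      ring
    have h4 := (Complex.reCLM.hasFDerivAt (x := w * Complex.exp (t * lamf a θ) * Ef θ x)).comp_hasDerivAt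
      t h1
    exact h4
  · intro x n
    apply Complex.continuous_re.comp
    fun_prop
  · intro t ht x n
    rw [q_true hk]
    have h3 := gn_Ef hk θ (w * Complex.exp (t * lamf a θ)) x
    obtain ⟨f, hf⟩ : ∃ f : St → ℝ, f = fun y => (w * Complex.exp (t * lamf a θ) * Ef θ y).re :=
      ⟨_, rfl⟩
    have hfe : ∀ y, (w * Complex.exp (t * lamf a θ) * Ef θ y).re = f y := fun y => by rw [hf]
    rw [← hf] at h3
    have hg : ∀ y : St, |f y| ≤
        (2 * ‖w * Complex.exp (t * lamf a θ)‖) * (1 + (y.card : ℝ)) := fun y => by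
      rw [← hfe]; exact EG_re_bound θ _ y
    have hs := summable_rt_of_growth hk true x hg
    have h1 := tot_mul_integral hk (tot_true_pos hk x) hs
    have h2 := (integral_Φ hk (tot_true_pos hk x) hs).1
    have h4 : ∫ u : unitInterval, (f ((vc a true).Φ x u) - f x) =
        (∫ u : unitInterval, f ((vc a true).Φ x u)) - f x := by
      rw [integral_sub h2 (integrable_const _)]
      simp
    simp only [hfe]
    rw [h4, h1, h3]

theorem int_Ef (hk : IsKernel a) (θ : ℝ) (m : St) {u : ℝ} (hu : 0 ≤ u) :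
    Integrable (fun ω => Ef θ ((vc a true).X u m ω)) Pr ∧
    ∫ ω, Ef θ ((vc a true).X u m ω) ∂Pr = Complex.exp (u * lamf a θ) * Ef θ m := by
  have hi1 := EG_integrable_re hk θ 1 m hu
  have hi2 := EG_integrable_re hk θ (-Complex.I) m hu
  have hint : Integrable (fun ω => Ef θ ((vc a true).X u m ω)) Pr := by
    have h1 : (fun ω => Ef θ ((vc a true).X u m ω)) = fun ω =>
        (((1 * Ef θ ((vc a true).X u m ω)).re : ℝ) : ℂ) +
        (((-Complex.I * Ef θ ((vc a true).X u m ω)).re : ℝ) : ℂ) * Complex.I := by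
      funext ω
      apply Complex.ext <;> simp
    rw [h1]
    exact (hi1.ofReal (𝕜 := ℂ)).add ((hi2.ofReal (𝕜 := ℂ)).mul_const _)
  refine ⟨hint, ?_⟩
  have key : ∀ w : ℂ, 0 ≤ (w * ((∫ ω, Ef θ ((vc a true).X u m ω) ∂Pr) -
      Complex.exp (u * lamf a θ) * Ef θ m)).re := by
    intro w
    have h1 := EG_ineq hk θ w m hu
    have h2 : ∫ ω, (w * Ef θ ((vc a true).X u m ω)).re ∂Pr =
        (w * ∫ ω, Ef θ ((vc a true).X u m ω) ∂Pr).re := by
      rw [← integral_const_mul]
      have := Complex.reCLM.integral_comp_comm (hint.const_mul w)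
      simpa using this
    rw [h2] at h1
    rw [mul_sub, Complex.sub_re, ← mul_assoc]
    linarith
  have h3 := key (-(starRingEnd ℂ) ((∫ ω, Ef θ ((vc a true).X u m ω) ∂Pr) -
      Complex.exp (u * lamf a θ) * Ef θ m))
  rw [neg_mul, Complex.neg_re, mul_comm, Complex.mul_conj, Complex.ofReal_re] at h3
  have h4 : Complex.normSq ((∫ ω, Ef θ ((vc a true).X u m ω) ∂Pr) -
      Complex.exp (u * lamf a θ) * Ef θ m) = 0 :=
    le_antisymm (by linarith) (Complex.normSq_nonneg _)
  exact sub_eq_zero.1 (Complex.normSq_eq_zero.1 h4)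

/-- the number of ones left of the centre -/
noncomputable def dd (m : St) : ℝ := no true m ((cc m : ℝ) - 1)

theorem integrable_dd (hk : IsKernel a) (m : St) {u : ℝ} (hu : 0 ≤ u) :
    Integrable (fun ω => dd ((vc a true).X u m ω)) Pr := by
  refine ((integrable_const (1 : ℝ)).add (integrable_hh hk m hu)).mono' ?_
    (Eventually.of_forall fun ω => ?_)
  · exact ((measurable_of_countable dd).comp
      ((vc a true).measurable_Xx u m)).aestronglyMeasurable
  · have h1 := sq_no_le ((vc a true).X u m ω)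
    have h2 : 0 ≤ dd ((vc a true).X u m ω) := Nat.cast_nonneg _
    rw [Real.norm_eq_abs, abs_of_nonneg h2]
    change dd ((vc a true).X u m ω) ^ 2 ≤ _ at h1
    simp only [Pi.add_apply]
    nlinarith [sq_nonneg (dd ((vc a true).X u m ω) - 1)]

theorem char_centre (hk : IsKernel a) (θ : ℝ) (m : St) {u : ℝ} (hu : 0 ≤ u) :
    ‖∫ ω, Complex.exp (θ * (((cc ((vc a true).X u m ω) : ℝ) - cc m : ℝ)) * Complex.I) ∂Pr -
      Complex.exp (u * lamf a θ)‖ ≤
      2 * |θ| * (dd m + ∫ ω, dd ((vc a true).X u m ω) ∂Pr) := by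
  obtain ⟨hint, hEf⟩ := int_Ef hk θ m hu
  set Z : Om → ℂ := fun ω => Complex.exp (θ * (cc ((vc a true).X u m ω) : ℝ) * Complex.I) with hZ
  set e : ℂ := Complex.exp (θ * (cc m : ℝ) * Complex.I) with he
  have hne : ‖e‖ = 1 := by
    rw [he, ← Complex.ofReal_mul, Complex.norm_exp_ofReal_mul_I]
  have he0 : e ≠ 0 := Complex.exp_ne_zero _
  have hnZ : ∀ ω, ‖Z ω‖ = 1 := fun ω => by
    rw [hZ]; simp only; rw [← Complex.ofReal_mul, Complex.norm_exp_ofReal_mul_I]
  have hZm : Measurable Z :=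
    (measurable_of_countable (fun x : St => Complex.exp (θ * (cc x : ℝ) * Complex.I))).comp
      ((vc a true).measurable_Xx u m)
  have hZi : Integrable Z Pr :=
    (integrable_const (1 : ℝ)).mono' hZm.aestronglyMeasurable
      (Eventually.of_forall fun ω => (hnZ ω).le)
  have h1 : ∀ ω, Complex.exp (θ * (((cc ((vc a true).X u m ω) : ℝ) - cc m : ℝ)) * Complex.I) =
      Z ω * e⁻¹ := by
    intro ω
    rw [hZ, he]
    simp only
    rw [← Complex.exp_neg, ← Complex.exp_add]
    congr 1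
    push_cast
    ring
  rw [integral_congr_ae (Eventually.of_forall h1), integral_mul_const]
  have h2 : (∫ ω, Z ω ∂Pr) * e⁻¹ - Complex.exp (u * lamf a θ) =
      ((Complex.exp (u * lamf a θ) * (Ef θ m - e)) -
        ∫ ω, (Ef θ ((vc a true).X u m ω) - Z ω) ∂Pr) * e⁻¹ := by
    rw [integral_sub hint hZi, hEf]
    field_simp
    ring
  rw [h2, norm_mul, norm_inv, hne, inv_one, mul_one]
  refine (norm_sub_le _ _).trans ?_
  have h3 : ‖Complex.exp (u * lamf a θ) * (Ef θ m - e)‖ ≤ 2 * |θ| * dd m := by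
    rw [norm_mul]
    have q1 := EG_norm_exp hk θ hu
    have q2 := norm_Ef_sub_le θ m
    calc ‖Complex.exp (u * lamf a θ)‖ * ‖Ef θ m - e‖ ≤ 1 * ‖Ef θ m - e‖ :=
          mul_le_mul_of_nonneg_right q1 (norm_nonneg _)
      _ ≤ 2 * |θ| * dd m := by rw [one_mul]; exact q2
  have h4 : ‖∫ ω, (Ef θ ((vc a true).X u m ω) - Z ω) ∂Pr‖ ≤
      2 * |θ| * ∫ ω, dd ((vc a true).X u m ω) ∂Pr := by
    rw [← integral_const_mul]
    refine norm_integral_le_of_norm_le ((integrable_dd hk m hu).const_mul _)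
      (Eventually.of_forall fun ω => ?_)
    exact norm_Ef_sub_le θ _
  linarith

end H40.VM
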