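import Pool.Agent.H40.VM.RW
import Pool.Agent.H40.VM.EG

/-!
# Module LL: law of large numbers for the number of jumps

Let `t` be large, `u = t / K` (`K` blocks), `s_k = k u`, `n = ⌈κ t⌉`,
`D_k = N_u (X_{s_k}) (θ_{s_k} ω)` the number of jumps in the `k`-th block (`N_restart`), and
`φ m = ∫ min (N u m ω) n`. With `C_ϑ(y) = (2/ϑ²)(1 - cos (ϑ y)) ≤ y²` and `centre_sq`,
`φ m ≥ u E C_ϑ ((cc (Y (min N n)) - cc m)/√u) ≥ u E C_ϑ ((cc (X u m) - cc m)/√u) - (4u/ϑ²) Pr {N u m > n}`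
`≥ u (2/ϑ²) (1 - Re exp (u lamf (ϑ/√u))) - u (2/ϑ²) err(m) - (4u/ϑ²) Pr {N u m > n}`,
`err(m) ≤ 2 (ϑ/√u) (dd m + E dd (X_u))` (`char_centre`).
`M = ∑_k (min D_k n - φ (X_{s_k}))` has `E M² ≤ n E N_t` (orthogonality by `Chain.restart`, or
induction on the number of blocks), and `N_t ≥ ∑_k min D_k n = M + ∑_k φ (X_{s_k})`. Hence
`E (sg - N_t/t)⁺ ≤ sg - (2/ϑ²)(1 - Re exp (u lamf (ϑ/√u))) + √(n E N_t)/t`
`  + (1/K) ∑_k (4/(ϑ √u)) E (dd (X_{s_k}) + dd (X_{s_{k+1}})) + (4/(ϑ² K)) E N_t / n`.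
Let `t → ∞` (`lamf_asymp`: `u lamf (ϑ/√u) → - sg ϑ²/2`; `tendsto_ED`; `tendsto_EN`), then
`K → ∞`, `κ → 0`, `ϑ → 0` (`(2/ϑ²)(1 - exp (- sg ϑ²/2)) → sg`): the right side tends to zero. Since
`E N_t/t ≤ sg` (`count_le`), `E |N_t/t - sg| ≤ 2 E (sg - N_t/t)⁺ → 0`.
-/

open MeasureTheory ProbabilityTheory Filter Topology
open scoped ENNReal NNReal unitInterval symmDiff

namespace H40.VM

open H40.Voter (IsKernel)

section General

set_option linter.unusedSectionVars false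

variable {E : Type} [MeasurableSpace E] [Countable E] [DiscreteMeasurableSpace E] (C : Chain E)

/-- truncated number of jumps -/
noncomputable def Chain.ll_g (n : ℕ) (u : ℝ) (x : E) (ω : Om) : ℝ := ((min (C.N u x ω) n : ℕ) : ℝ)

/-- mean truncated number of jumps -/
noncomputable def Chain.ll_f (n : ℕ) (u : ℝ) (x : E) : ℝ := ∫ ω, C.ll_g n u x ω ∂Pr

/-- number of jumps in a block -/
noncomputable def Chain.ll_D (u : ℝ) (x : E) (k : ℕ) (ω : Om) : ℕ :=
  C.N ((k : ℝ) * u + u) x ω - C.N ((k : ℝ) * u) x ω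

noncomputable def Chain.ll_G (n : ℕ) (u : ℝ) (x : E) (k : ℕ) (ω : Om) : ℝ :=
  ((min (C.ll_D u x k ω) n : ℕ) : ℝ)

noncomputable def Chain.ll_M (n : ℕ) (u : ℝ) (x : E) (k : ℕ) (ω : Om) : ℝ :=
  ∑ j ∈ Finset.range k, (C.ll_G n u x j ω - C.ll_f n u (C.X ((j : ℝ) * u) x ω))

lemma ll_min_nonneg (a n : ℕ) : (0 : ℝ) ≤ ((min a n : ℕ) : ℝ) := Nat.cast_nonneg _

lemma ll_min_le (a n : ℕ) : ((min a n : ℕ) : ℝ) ≤ n := by
  exact_mod_cast min_le_right a n

lemma Chain.ll_measurable_g (n : ℕ) (u : ℝ) :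
    Measurable fun p : E × Om => C.ll_g n u p.1 p.2 := by
  have h : Measurable fun p : E × Om => C.N u p.1 p.2 :=
    C.measurable_N.comp (measurable_const.prodMk (measurable_fst.prodMk measurable_snd))
  exact (measurable_of_countable (fun k : ℕ => ((min k n : ℕ) : ℝ))).comp h

lemma Chain.ll_measurable_gx (n : ℕ) (u : ℝ) (x : E) : Measurable fun ω => C.ll_g n u x ω :=
  (measurable_of_countable (fun k : ℕ => ((min k n : ℕ) : ℝ))).comp (C.measurable_Nx u x)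

lemma Chain.ll_g_nonneg (n : ℕ) (u : ℝ) (x : E) (ω : Om) : 0 ≤ C.ll_g n u x ω := ll_min_nonneg _ _
lemma Chain.ll_g_le (n : ℕ) (u : ℝ) (x : E) (ω : Om) : C.ll_g n u x ω ≤ n := ll_min_le _ _

lemma Chain.ll_integrable_g (n : ℕ) (u : ℝ) (x : E) : Integrable (fun ω => C.ll_g n u x ω) Pr := by
  refine Integrable.of_bound (C.ll_measurable_gx n u x).aestronglyMeasurable n ?_
  refine Eventually.of_forall fun ω => ?_
  rw [Real.norm_eq_abs, abs_of_nonneg (C.ll_g_nonneg _ _ _ _)]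
  exact C.ll_g_le _ _ _ _

lemma Chain.ll_f_nonneg (n : ℕ) (u : ℝ) (x : E) : 0 ≤ C.ll_f n u x :=
  integral_nonneg fun ω => C.ll_g_nonneg _ _ _ _

lemma Chain.ll_f_le (n : ℕ) (u : ℝ) (x : E) : C.ll_f n u x ≤ n := by
  have h : ∫ ω, C.ll_g n u x ω ∂Pr ≤ ∫ _ω, (n : ℝ) ∂Pr :=
    integral_mono (C.ll_integrable_g n u x) (integrable_const _) fun ω => C.ll_g_le _ _ _ _
  simpa [Chain.ll_f] using h

lemma Chain.ll_measurable_D (u : ℝ) (x : E) (k : ℕ) : Measurable (C.ll_D u x k) := by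
  have h1 := C.measurable_Nx ((k : ℝ) * u + u) x
  have h2 := C.measurable_Nx ((k : ℝ) * u) x
  exact (measurable_of_countable (fun p : ℕ × ℕ => p.1 - p.2)).comp (h1.prodMk h2)

lemma Chain.ll_measurable_G (n : ℕ) (u : ℝ) (x : E) (k : ℕ) : Measurable (C.ll_G n u x k) :=
  (measurable_of_countable (fun j : ℕ => ((min j n : ℕ) : ℝ))).comp (C.ll_measurable_D u x k)

lemma Chain.ll_G_nonneg (n : ℕ) (u : ℝ) (x : E) (k : ℕ) (ω : Om) : 0 ≤ C.ll_G n u x k ω :=
  ll_min_nonneg _ _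
lemma Chain.ll_G_le (n : ℕ) (u : ℝ) (x : E) (k : ℕ) (ω : Om) : C.ll_G n u x k ω ≤ n :=
  ll_min_le _ _

lemma Chain.ll_measurable_fX (n : ℕ) (u s : ℝ) (x : E) :
    Measurable fun ω => C.ll_f n u (C.X s x ω) :=
  (measurable_of_countable (C.ll_f n u)).comp (C.measurable_Xx s x)

lemma Chain.ll_measurable_M (n : ℕ) (u : ℝ) (x : E) (k : ℕ) : Measurable (C.ll_M n u x k) := by
  unfold Chain.ll_M
  exact Finset.measurable_sum _ fun j _ =>
    (C.ll_measurable_G n u x j).sub (C.ll_measurable_fX n u _ x)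

lemma Chain.ll_term_le (n : ℕ) (u : ℝ) (x : E) (k : ℕ) (ω : Om) :
    |C.ll_G n u x k ω - C.ll_f n u (C.X ((k : ℝ) * u) x ω)| ≤ n := by
  rw [abs_le]
  constructor <;>
  linarith [C.ll_G_nonneg n u x k ω, C.ll_G_le n u x k ω,
    C.ll_f_nonneg n u (C.X ((k : ℝ) * u) x ω), C.ll_f_le n u (C.X ((k : ℝ) * u) x ω)]

lemma Chain.ll_M_bound (n : ℕ) (u : ℝ) (x : E) (k : ℕ) (ω : Om) :
    |C.ll_M n u x k ω| ≤ k * n := by
  unfold Chain.ll_M
  refine (Finset.abs_sum_le_sum_abs _ _).trans ?_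
  refine (Finset.sum_le_card_nsmul _ _ (n : ℝ) fun j _ => C.ll_term_le n u x j ω).trans ?_
  simp

lemma Chain.ll_past_M (n : ℕ) {u : ℝ} (hu : 0 ≤ u) (x : E) (k : ℕ) :
    C.Past ((k : ℝ) * u) x (C.ll_M n u x k) := by
  intro ω ω' h1 h2 h3 h4
  unfold Chain.ll_M
  refine Finset.sum_congr rfl fun j hj => ?_
  rw [Finset.mem_range] at hj
  have hj0 : (0 : ℝ) ≤ (j : ℝ) * u := by positivity
  have hj1 : (j : ℝ) * u + u ≤ (k : ℝ) * u := by
    have : ((j : ℝ) + 1) ≤ k := by exact_mod_cast hj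
    nlinarith
  have hj2 : (j : ℝ) * u ≤ (k : ℝ) * u := by linarith
  have e1 := C.past_N_le (r := (j : ℝ) * u + u) (by positivity) hj1 x ω ω' h1 h2 h3 h4
  have e2 := C.past_N_le hj0 hj2 x ω ω' h1 h2 h3 h4
  have e3 := C.past_X_le hj0 hj2 x ω ω' h1 h2 h3 h4
  unfold Chain.ll_G Chain.ll_D
  rw [e1, e2, e3]

lemma Chain.ll_D_ae (hC : C.NE) {u : ℝ} (hu : 0 ≤ u) (x : E) (k : ℕ) :
    ∀ᵐ ω ∂Pr, C.ll_D u x k ω =
      C.N u (C.X ((k : ℝ) * u) x ω) (C.θ ((k : ℝ) * u) x ω) ∧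
      C.N ((k : ℝ) * u + u) x ω = C.N ((k : ℝ) * u) x ω + C.ll_D u x k ω := by
  filter_upwards [C.ae_finite hC x] with ω hω
  have h := C.N_restart (s := (k : ℝ) * u) (t := u) (by positivity) hu x ω hω
  unfold Chain.ll_D
  rw [h]
  simp

lemma Chain.ll_step (hC : C.NE) (n : ℕ) {u : ℝ} (hu : 0 ≤ u) (x : E) (k : ℕ) {Z : Om → ℝ}
    (hZ : Measurable Z) (hp : C.Past ((k : ℝ) * u) x Z) {B : ℝ} (hB : ∀ ω, |Z ω| ≤ B) :
    ∫ ω, Z ω * C.ll_G n u x k ω ∂Pr = ∫ ω, Z ω * C.ll_f n u (C.X ((k : ℝ) * u) x ω) ∂Pr := by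
  have hs : (0 : ℝ) ≤ (k : ℝ) * u := by positivity
  have hX := C.measurable_Xx ((k : ℝ) * u) x
  have hθ := C.measurable_θ ((k : ℝ) * u) x
  have hB0 : 0 ≤ B := (abs_nonneg _).trans (hB fun _ => ((0 : unitInterval), (0 : ℝ≥0)))
  have hH1 : Measurable fun p : (ℝ × E) × Om => C.N u p.1.2 p.2 := by
    have h1 : Measurable fun p : (ℝ × E) × Om => (u, p.1.2, p.2) :=
      measurable_const.prodMk ((measurable_snd.comp measurable_fst).prodMk measurable_snd)
    exact C.measurable_N.comp h1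
  have hH2 : Measurable fun p : (ℝ × E) × Om => C.ll_g n u p.1.2 p.2 :=
    (measurable_of_countable (fun k : ℕ => ((min k n : ℕ) : ℝ))).comp hH1
  have hH : Measurable fun p : (ℝ × E) × Om => p.1.1 * C.ll_g n u p.1.2 p.2 :=
    (measurable_fst.comp measurable_fst).mul hH2
  have hp' : C.Past ((k : ℝ) * u) x (fun ω => (Z ω, C.X ((k : ℝ) * u) x ω)) := by
    intro ω ω' h1 h2 h3 h4
    exact Prod.ext (hp ω ω' h1 h2 h3 h4) (C.past_X _ x ω ω' h1 h2 h3 h4)
  have hi : Integrable (fun ω => (fun p : (ℝ × E) × Om => p.1.1 * C.ll_g n u p.1.2 p.2)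
      ((Z ω, C.X ((k : ℝ) * u) x ω), C.θ ((k : ℝ) * u) x ω)) Pr := by
    refine Integrable.of_bound (hH.comp ((hZ.prodMk hX).prodMk hθ)).aestronglyMeasurable
      (B * n) ?_
    refine Eventually.of_forall fun ω => ?_
    simp only [Real.norm_eq_abs, abs_mul]
    refine mul_le_mul (hB ω) ?_ (abs_nonneg _) hB0
    rw [abs_of_nonneg (C.ll_g_nonneg _ _ _ _)]
    exact C.ll_g_le _ _ _ _
  have h := C.integral_restart hC x hs (hZ.prodMk hX) hp' hH hi
  simp only at h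
  calc ∫ ω, Z ω * C.ll_G n u x k ω ∂Pr
      = ∫ ω, Z ω * C.ll_g n u (C.X ((k : ℝ) * u) x ω) (C.θ ((k : ℝ) * u) x ω) ∂Pr := by
        refine integral_congr_ae ?_
        filter_upwards [C.ll_D_ae hC hu x k] with ω hω
        unfold Chain.ll_G Chain.ll_g
        rw [hω.1]
    _ = ∫ ω, ∫ ω', Z ω * C.ll_g n u (C.X ((k : ℝ) * u) x ω) ω' ∂Pr ∂Pr := h
    _ = _ := by
        refine integral_congr_ae (Eventually.of_forall fun ω => ?_)
        exact integral_const_mul _ _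

lemma Chain.ll_integrable_G (n : ℕ) (u : ℝ) (x : E) (k : ℕ) :
    Integrable (C.ll_G n u x k) Pr := by
  refine Integrable.of_bound (C.ll_measurable_G n u x k).aestronglyMeasurable n ?_
  refine Eventually.of_forall fun ω => ?_
  rw [Real.norm_eq_abs, abs_of_nonneg (C.ll_G_nonneg _ _ _ _ _)]
  exact C.ll_G_le _ _ _ _ _

lemma Chain.ll_integrable_f (n : ℕ) (u s : ℝ) (x : E) :
    Integrable (fun ω => C.ll_f n u (C.X s x ω)) Pr := by
  refine Integrable.of_bound (C.ll_measurable_fX n u s x).aestronglyMeasurable n ?_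
  refine Eventually.of_forall fun ω => ?_
  rw [Real.norm_eq_abs, abs_of_nonneg (C.ll_f_nonneg _ _ _)]
  exact C.ll_f_le _ _ _

lemma Chain.ll_mean (hC : C.NE) (n : ℕ) {u : ℝ} (hu : 0 ≤ u) (x : E) (k : ℕ) :
    ∫ ω, C.ll_f n u (C.X ((k : ℝ) * u) x ω) ∂Pr = ∫ ω, C.ll_G n u x k ω ∂Pr := by
  have h := C.ll_step hC n hu x k (Z := fun _ => 1) measurable_const
    (fun _ _ _ _ _ _ => rfl) (B := 1) (fun _ => by simp)
  simpa using h.symm

lemma Chain.ll_sq (hC : C.NE) (n : ℕ) {u : ℝ} (hu : 0 ≤ u) (x : E) (k : ℕ) :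
    ∫ ω, (C.ll_M n u x k ω) ^ 2 ∂Pr ≤
      2 * n * ∑ j ∈ Finset.range k, ∫ ω, C.ll_G n u x j ω ∂Pr := by
  induction k with
  | zero => simp [Chain.ll_M]
  | succ k ih =>
    have hM := C.ll_measurable_M n u x k
    have hG := C.ll_measurable_G n u x k
    have hf := C.ll_measurable_fX n u ((k : ℝ) * u) x
    have hMsq : Integrable (fun ω => (C.ll_M n u x k ω) ^ 2) Pr := by
      refine Integrable.of_bound (hM.pow_const 2).aestronglyMeasurable (((k : ℝ) * n) ^ 2) ?_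
      refine Eventually.of_forall fun ω => ?_
      rw [norm_pow, Real.norm_eq_abs]
      exact pow_le_pow_left₀ (abs_nonneg _) (C.ll_M_bound n u x k ω) 2
    have hMG : Integrable (fun ω => C.ll_M n u x k ω * C.ll_G n u x k ω) Pr := by
      refine Integrable.of_bound (hM.mul hG).aestronglyMeasurable (((k : ℝ) * n) * n) ?_
      refine Eventually.of_forall fun ω => ?_
      rw [norm_mul, Real.norm_eq_abs, Real.norm_eq_abs]
      refine mul_le_mul (C.ll_M_bound n u x k ω) ?_ (abs_nonneg _) (by positivity)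
      rw [abs_of_nonneg (C.ll_G_nonneg _ _ _ _ _)]
      exact C.ll_G_le _ _ _ _ _
    have hMf : Integrable (fun ω => C.ll_M n u x k ω *
        C.ll_f n u (C.X ((k : ℝ) * u) x ω)) Pr := by
      refine Integrable.of_bound (hM.mul hf).aestronglyMeasurable (((k : ℝ) * n) * n) ?_
      refine Eventually.of_forall fun ω => ?_
      rw [norm_mul, Real.norm_eq_abs, Real.norm_eq_abs]
      refine mul_le_mul (C.ll_M_bound n u x k ω) ?_ (abs_nonneg _) (by positivity)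
      rw [abs_of_nonneg (C.ll_f_nonneg _ _ _)]
      exact C.ll_f_le _ _ _
    have hdiff : Integrable (fun ω => (C.ll_G n u x k ω -
        C.ll_f n u (C.X ((k : ℝ) * u) x ω)) ^ 2) Pr := by
      refine Integrable.of_bound ((hG.sub hf).pow_const 2).aestronglyMeasurable ((n : ℝ) ^ 2) ?_
      refine Eventually.of_forall fun ω => ?_
      rw [norm_pow, Real.norm_eq_abs]
      exact pow_le_pow_left₀ (abs_nonneg _) (C.ll_term_le n u x k ω) 2
    have hstep := C.ll_step hC n hu x k hM (C.ll_past_M n hu x k) (C.ll_M_bound n u x k)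
    have hmean := C.ll_mean hC n hu x k
    have hIG := C.ll_integrable_G n u x k
    have hIf := C.ll_integrable_f n u ((k : ℝ) * u) x
    have e1 : ∀ ω, (C.ll_M n u x (k + 1) ω) ^ 2 =
        ((C.ll_M n u x k ω) ^ 2 + 2 * (C.ll_M n u x k ω * C.ll_G n u x k ω -
          C.ll_M n u x k ω * C.ll_f n u (C.X ((k : ℝ) * u) x ω))) +
        (C.ll_G n u x k ω - C.ll_f n u (C.X ((k : ℝ) * u) x ω)) ^ 2 := by
      intro ω
      have : C.ll_M n u x (k + 1) ω = C.ll_M n u x k ω +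
        (C.ll_G n u x k ω - C.ll_f n u (C.X ((k : ℝ) * u) x ω)) := by
        unfold Chain.ll_M
        rw [Finset.sum_range_succ]
      rw [this]; ring
    have hsub : Integrable (fun ω => C.ll_M n u x k ω * C.ll_G n u x k ω -
          C.ll_M n u x k ω * C.ll_f n u (C.X ((k : ℝ) * u) x ω)) Pr := hMG.sub hMf
    have hsub2 : Integrable (fun ω => 2 * (C.ll_M n u x k ω * C.ll_G n u x k ω -
          C.ll_M n u x k ω * C.ll_f n u (C.X ((k : ℝ) * u) x ω))) Pr := hsub.const_mul 2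
    have hadd : Integrable (fun ω => (C.ll_M n u x k ω) ^ 2 +
        2 * (C.ll_M n u x k ω * C.ll_G n u x k ω -
          C.ll_M n u x k ω * C.ll_f n u (C.X ((k : ℝ) * u) x ω))) Pr := hMsq.add hsub2
    have e3 : ∫ ω, (C.ll_M n u x (k + 1) ω) ^ 2 ∂Pr = ∫ ω, (C.ll_M n u x k ω) ^ 2 ∂Pr +
        ∫ ω, (C.ll_G n u x k ω - C.ll_f n u (C.X ((k : ℝ) * u) x ω)) ^ 2 ∂Pr := by
      calc ∫ ω, (C.ll_M n u x (k + 1) ω) ^ 2 ∂Pr = ∫ ω, (((C.ll_M n u x k ω) ^ 2 +
            2 * (C.ll_M n u x k ω * C.ll_G n u x k ω -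
            C.ll_M n u x k ω * C.ll_f n u (C.X ((k : ℝ) * u) x ω))) +
            (C.ll_G n u x k ω - C.ll_f n u (C.X ((k : ℝ) * u) x ω)) ^ 2) ∂Pr :=
            integral_congr_ae (Eventually.of_forall e1)
        _ = _ := by
            rw [integral_add hadd hdiff, integral_add hMsq hsub2, integral_const_mul,
              integral_sub hMG hMf, hstep, sub_self, mul_zero, add_zero]
    rw [e3, Finset.sum_range_succ, mul_add]
    refine add_le_add ih ?_
    have e2 : ∫ ω, (C.ll_G n u x k ω - C.ll_f n u (C.X ((k : ℝ) * u) x ω)) ^ 2 ∂Pr ≤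
        ∫ ω, (n : ℝ) * (C.ll_G n u x k ω + C.ll_f n u (C.X ((k : ℝ) * u) x ω)) ∂Pr := by
      refine integral_mono hdiff ((hIG.add hIf).const_mul _) fun ω => ?_
      have h1 := C.ll_term_le n u x k ω
      have h2 : |C.ll_G n u x k ω - C.ll_f n u (C.X ((k : ℝ) * u) x ω)| ≤
          C.ll_G n u x k ω + C.ll_f n u (C.X ((k : ℝ) * u) x ω) := by
        rw [abs_le]
        constructor <;>
        linarith [C.ll_G_nonneg n u x k ω, C.ll_f_nonneg n u (C.X ((k : ℝ) * u) x ω)]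
      change (C.ll_G n u x k ω - C.ll_f n u (C.X ((k : ℝ) * u) x ω)) ^ 2 ≤ _
      rw [← sq_abs, sq]
      exact mul_le_mul h1 h2 (abs_nonneg _) (Nat.cast_nonneg _)
    rw [integral_const_mul, integral_add hIG hIf, hmean] at e2
    linarith

lemma Chain.ll_sum_D (hC : C.NE) {u : ℝ} (hu : 0 ≤ u) (x : E) (k : ℕ) :
    ∀ᵐ ω ∂Pr, ∑ j ∈ Finset.range k, C.ll_D u x j ω ≤ C.N ((k : ℝ) * u) x ω := by
  induction k with
  | zero => exact Eventually.of_forall fun ω => by simp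
  | succ k ih =>
    filter_upwards [ih, C.ll_D_ae hC hu x k] with ω h1 h2
    rw [Finset.sum_range_succ]
    have e : ((k + 1 : ℕ) : ℝ) * u = (k : ℝ) * u + u := by push_cast; ring
    rw [e, h2.2]
    omega

lemma Chain.ll_sum_G (hC : C.NE) (n : ℕ) {u : ℝ} (hu : 0 ≤ u) (x : E) (k : ℕ) :
    ∀ᵐ ω ∂Pr, ∑ j ∈ Finset.range k, C.ll_G n u x j ω ≤ (C.N ((k : ℝ) * u) x ω : ℝ) := by
  filter_upwards [C.ll_sum_D hC hu x k] with ω h
  have h1 : ∑ j ∈ Finset.range k, C.ll_G n u x j ω ≤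
      ∑ j ∈ Finset.range k, (C.ll_D u x j ω : ℝ) := by
    refine Finset.sum_le_sum fun j _ => ?_
    unfold Chain.ll_G
    exact_mod_cast min_le_left _ _
  refine h1.trans ?_
  exact_mod_cast h

end General

variable {a : ℤ → ℝ}

lemma ll_abs_cc_Y (hk : IsKernel a) (m : St) (k : ℕ) (ω : Om) :
    |((cc ((vc a true).Y k m ω) : ℝ) - cc m)| ≤ k := by
  induction k with
  | zero => simp
  | succ k ih =>
    rw [Chain.Y_succ']
    obtain ⟨j, hj⟩ := Φ_eq_true hk ((vc a true).Y k m ω) (ω k).1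
    rw [hj, cc_fl]
    have h1 := abs_le.1 ih
    rw [abs_le]
    push_cast
    split_ifs <;> push_cast <;> constructor <;> linarith

lemma ll_measurable_Ymin (m : St) (u : ℝ) (n : ℕ) :
    Measurable fun ω => (vc a true).Y (min ((vc a true).N u m ω) n) m ω := by
  have hN := (vc a true).measurable_Nx u m
  have h : ∀ j : ℕ, Measurable fun ω => (vc a true).Y (min j n) m ω := fun j =>
    (vc a true).measurable_Yx _ m
  have h2 : Measurable fun p : ℕ × Om => (vc a true).Y (min p.1 n) m p.2 :=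
    measurable_from_prod_countable_right fun j => h j
  exact h2.comp (hN.prodMk measurable_id)

/-- the mean of the truncated number of jumps is at least the mean of a bounded function of the
displacement of the centre -/
lemma ll_phi_ge (hk : IsKernel a) (hc : mn a = 0) (m : St) {u : ℝ} (hu : 0 ≤ u) {θ : ℝ}
    (hθ : 0 < θ) {n : ℕ} (hn : 0 < n) :
    (2 / θ ^ 2) * (1 - (Complex.exp (u * lamf a θ)).re) ≤
      (1 + 4 / (θ ^ 2 * n)) * (∫ ω, ((min ((vc a true).N u m ω) n : ℕ) : ℝ) ∂Pr) +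
      (4 / θ) * (dd m + ∫ ω, dd ((vc a true).X u m ω) ∂Pr) := by
  have hn' : (0 : ℝ) < n := by exact_mod_cast hn
  set φ : ℝ := ∫ ω, ((min ((vc a true).N u m ω) n : ℕ) : ℝ) ∂Pr with hφ
  set yY : Om → ℝ := fun ω =>
    (cc ((vc a true).Y (min ((vc a true).N u m ω) n) m ω) : ℝ) - cc m with hyY
  set yX : Om → ℝ := fun ω => (cc ((vc a true).X u m ω) : ℝ) - cc m with hyX
  have hcc : Measurable fun x : St => (cc x : ℝ) := measurable_of_countable _
  have myY : Measurable yY := (hcc.comp (ll_measurable_Ymin m u n)).sub_const _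
  have myX : Measurable yX := (hcc.comp ((vc a true).measurable_Xx u m)).sub_const _
  have hmin : Integrable (fun ω => ((min ((vc a true).N u m ω) n : ℕ) : ℝ)) Pr := by
    refine Integrable.of_bound ((measurable_of_countable (fun k : ℕ =>
      ((min k n : ℕ) : ℝ))).comp ((vc a true).measurable_Nx u m)).aestronglyMeasurable n ?_
    refine Eventually.of_forall fun ω => ?_
    simp only [Function.comp, Real.norm_eq_abs, Nat.abs_cast]
    exact_mod_cast min_le_right _ _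
  -- step 1
  have h1 : ∫ ω, (2 / θ ^ 2) * (1 - Real.cos (θ * yY ω)) ∂Pr ≤ φ := by
    rw [hφ, ← centre_sq hk hc m hu n]
    refine integral_mono ?_ ?_ fun ω => ?_
    · refine Integrable.of_bound (C := (2 / θ ^ 2) * 2) ?_ (Eventually.of_forall fun ω => ?_)
      · exact (((Real.measurable_cos.comp (myY.const_mul θ)).const_sub 1).const_mul
          _).aestronglyMeasurable
      · rw [norm_mul, Real.norm_eq_abs, Real.norm_eq_abs, abs_of_pos (by positivity)]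
        refine mul_le_mul_of_nonneg_left ?_ (by positivity)
        rw [abs_le]; constructor <;> linarith [Real.neg_one_le_cos (θ * yY ω),
          Real.cos_le_one (θ * yY ω)]
    · refine Integrable.of_bound (C := (n : ℝ) ^ 2) (myY.pow_const 2).aestronglyMeasurable
        (Eventually.of_forall fun ω => ?_)
      rw [norm_pow, Real.norm_eq_abs]
      refine pow_le_pow_left₀ (abs_nonneg _) ?_ 2
      refine (ll_abs_cc_Y hk m _ ω).trans ?_
      exact_mod_cast min_le_right _ _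
    · change (2 / θ ^ 2) * (1 - Real.cos (θ * yY ω)) ≤ (yY ω) ^ 2
      have := Real.one_sub_sq_div_two_le_cos (x := θ * yY ω)
      have h2 : 1 - Real.cos (θ * yY ω) ≤ (θ * yY ω) ^ 2 / 2 := by linarith
      calc (2 / θ ^ 2) * (1 - Real.cos (θ * yY ω)) ≤ (2 / θ ^ 2) * ((θ * yY ω) ^ 2 / 2) :=
            mul_le_mul_of_nonneg_left h2 (by positivity)
        _ = (yY ω) ^ 2 := by field_simp
  -- step 2
  have hcosX : Integrable (fun ω => Real.cos (θ * yX ω)) Pr := by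
    refine Integrable.of_bound (C := 1)
      (Real.measurable_cos.comp (myX.const_mul θ)).aestronglyMeasurable
      (Eventually.of_forall fun ω => ?_)
    exact Real.abs_cos_le_one _
  have h2 : ∫ ω, (2 / θ ^ 2) * (1 - Real.cos (θ * yX ω)) ∂Pr ≤
      ∫ ω, ((2 / θ ^ 2) * (1 - Real.cos (θ * yY ω)) + (2 / θ ^ 2) * (2 / n) *
        ((min ((vc a true).N u m ω) n : ℕ) : ℝ)) ∂Pr := by
    refine integral_mono ?_ ?_ fun ω => ?_
    · exact ((integrable_const (1 : ℝ)).sub hcosX).const_mul _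
    · refine Integrable.add ?_ (hmin.const_mul _)
      refine ((integrable_const (1 : ℝ)).sub ?_).const_mul _
      refine Integrable.of_bound (C := 1)
        (Real.measurable_cos.comp (myY.const_mul θ)).aestronglyMeasurable
        (Eventually.of_forall fun ω => ?_)
      exact Real.abs_cos_le_one _
    · change (2 / θ ^ 2) * (1 - Real.cos (θ * yX ω)) ≤
        (2 / θ ^ 2) * (1 - Real.cos (θ * yY ω)) + (2 / θ ^ 2) * (2 / n) *
        ((min ((vc a true).N u m ω) n : ℕ) : ℝ)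
      rw [mul_assoc, ← mul_add]
      refine mul_le_mul_of_nonneg_left ?_ (by positivity)
      by_cases hle : (vc a true).N u m ω ≤ n
      · have : yX ω = yY ω := by
          simp only [hyX, hyY, min_eq_left hle]; rfl
        rw [this]
        have : 0 ≤ 2 / (n : ℝ) * ((min ((vc a true).N u m ω) n : ℕ) : ℝ) := by positivity
        linarith
      · push Not at hle
        rw [min_eq_right hle.le]
        have : 2 / (n : ℝ) * (n : ℝ) = 2 := by field_simp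
        rw [this]
        linarith [Real.neg_one_le_cos (θ * yX ω), Real.cos_le_one (θ * yY ω)]
  have hcosY : Integrable (fun ω => (2 / θ ^ 2) * (1 - Real.cos (θ * yY ω))) Pr := by
    refine ((integrable_const (1 : ℝ)).sub ?_).const_mul _
    refine Integrable.of_bound (C := 1)
      (Real.measurable_cos.comp (myY.const_mul θ)).aestronglyMeasurable
      (Eventually.of_forall fun ω => ?_)
    exact Real.abs_cos_le_one _
  rw [integral_add hcosY (hmin.const_mul _), integral_const_mul (2 / θ ^ 2 * (2 / (n : ℝ)))] at h2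
  -- step 3
  have h3 : ∫ ω, Real.cos (θ * yX ω) ∂Pr ≤ (Complex.exp (u * lamf a θ)).re +
      2 * θ * (dd m + ∫ ω, dd ((vc a true).X u m ω) ∂Pr) := by
    have hch := char_centre hk θ m hu
    rw [abs_of_pos hθ] at hch
    have hre : (∫ ω, Complex.exp (θ * (((cc ((vc a true).X u m ω) : ℝ) - cc m : ℝ)) *
        Complex.I) ∂Pr).re = ∫ ω, Real.cos (θ * yX ω) ∂Pr := by
      have hint : Integrable (fun ω => Complex.exp (θ * (((cc ((vc a true).X u m ω) : ℝ) -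
          cc m : ℝ)) * Complex.I)) Pr := by
        refine Integrable.of_bound (C := 1) ?_ (Eventually.of_forall fun ω => ?_)
        · have : Measurable fun x : St => Complex.exp (θ * (((cc x : ℝ) - cc m : ℝ)) *
            Complex.I) := measurable_of_countable _
          exact (this.comp ((vc a true).measurable_Xx u m)).aestronglyMeasurable
        · rw [← Complex.ofReal_mul, Complex.norm_exp_ofReal_mul_I]
      have := integral_re (𝕜 := ℂ) hint
      simp only [RCLike.re_to_complex] at this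
      rw [← this]
      refine integral_congr_ae (Eventually.of_forall fun ω => ?_)
      simp only [hyX]
      rw [← Complex.ofReal_mul, Complex.exp_ofReal_mul_I_re]
    have h4 := (abs_le.1 ((Complex.abs_re_le_norm _).trans hch)).2
    rw [Complex.sub_re, hre] at h4
    linarith
  have h4 : ∫ ω, (2 / θ ^ 2) * (1 - Real.cos (θ * yX ω)) ∂Pr =
      (2 / θ ^ 2) * (1 - ∫ ω, Real.cos (θ * yX ω) ∂Pr) := by
    rw [integral_const_mul, integral_sub (integrable_const _) hcosX]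
    simp
  rw [h4] at h2
  have h5 : (2 / θ ^ 2) * (1 - (Complex.exp (u * lamf a θ)).re -
      2 * θ * (dd m + ∫ ω, dd ((vc a true).X u m ω) ∂Pr)) ≤
      (2 / θ ^ 2) * (1 - ∫ ω, Real.cos (θ * yX ω) ∂Pr) :=
    mul_le_mul_of_nonneg_left (by linarith) (by positivity)
  have e5 : (2 / θ ^ 2) * (1 - (Complex.exp (u * lamf a θ)).re -
      2 * θ * (dd m + ∫ ω, dd ((vc a true).X u m ω) ∂Pr)) =
      (2 / θ ^ 2) * (1 - (Complex.exp (u * lamf a θ)).re) -
      (4 / θ) * (dd m + ∫ ω, dd ((vc a true).X u m ω) ∂Pr) := by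
    field_simp
    ring
  have e6 : (1 + 4 / (θ ^ 2 * n)) * φ = φ + 2 / θ ^ 2 * (2 / (n : ℝ)) * φ := by
    field_simp
    ring
  rw [e5] at h5
  rw [e6]
  linarith



lemma dd_nonneg (m : St) : 0 ≤ dd m := Nat.cast_nonneg _

lemma ll_h (hk : IsKernel a) (m : St) {s u : ℝ} (hs : 0 ≤ s) (hu : 0 ≤ u) :
    Integrable (fun ω => ∫ ω', dd ((vc a true).X u ((vc a true).X s m ω) ω') ∂Pr) Pr ∧
    ∫ ω, (∫ ω', dd ((vc a true).X u ((vc a true).X s m ω) ω') ∂Pr) ∂Pr =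
      ∫ ω, dd ((vc a true).X (s + u) m ω) ∂Pr := by
  have hC := ne_true hk
  have hZ := (vc a true).measurable_Xx s m
  have hθ := (vc a true).measurable_θ s m
  have hH : Measurable fun p : St × Om => dd ((vc a true).X u p.1 p.2) :=
    measurable_from_prod_countable_right fun y =>
      (measurable_of_countable dd).comp ((vc a true).measurable_Xx u y)
  have hae : (fun ω => dd ((vc a true).X (s + u) m ω)) =ᵐ[Pr]
      fun ω => (fun p : St × Om => dd ((vc a true).X u p.1 p.2))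
        ((vc a true).X s m ω, (vc a true).θ s m ω) := by
    filter_upwards [(vc a true).ae_finite hC m] with ω hω
    rw [(vc a true).X_restart hs hu m ω hω]
  have hi : Integrable (fun ω => (fun p : St × Om => dd ((vc a true).X u p.1 p.2))
        ((vc a true).X s m ω, (vc a true).θ s m ω)) Pr :=
    (integrable_dd hk m (add_nonneg hs hu)).congr hae
  have : IsProbabilityMeasure (Pr.map ((vc a true).X s m)) :=
    Measure.isProbabilityMeasure_map hZ.aemeasurable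
  have hi' : Integrable (fun p : St × Om => dd ((vc a true).X u p.1 p.2))
      ((Pr.map ((vc a true).X s m)).prod Pr) := by
    rw [← (vc a true).restart hC m hs hZ ((vc a true).past_X s m),
      integrable_map_measure hH.aestronglyMeasurable (hZ.prodMk hθ).aemeasurable]
    exact hi
  refine ⟨hi'.integral_prod_left.comp_measurable hZ, ?_⟩
  have h := (vc a true).integral_restart hC m hs hZ ((vc a true).past_X s m) hH hi
  rw [integral_congr_ae hae]
  exact h.symm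

lemma ll_abs_le_sq {x c : ℝ} (hc : 0 < c) : |x| ≤ (x ^ 2 / c + c) / 2 := by
  have h : 0 ≤ (|x| - c) ^ 2 / c := by positivity
  have e : (|x| - c) ^ 2 / c = x ^ 2 / c + c - 2 * |x| := by
    rw [sub_sq, sq_abs]; field_simp; ring
  rw [e] at h
  linarith

/-- the main inequality -/
lemma ll_main (hk : IsKernel a) (hc : mn a = 0) {u : ℝ} (hu : 0 < u) {K : ℕ} (hK : 0 < K)
    {n : ℕ} (hn : 0 < n) {θ : ℝ} (hθ : 0 < θ) {c : ℝ} (hc0 : 0 < c) :
    ∫ ω, max (sg a - ((vc a true).N ((K : ℝ) * u) ∅ ω : ℝ) / (K * u)) 0 ∂Pr ≤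
      |sg a - (2 / θ ^ 2) * (1 - (Complex.exp (u * lamf a θ)).re) / u| +
      (1 / (K * u)) * (((2 * n / c) * (∫ ω, ((vc a true).N ((K : ℝ) * u) ∅ ω : ℝ) ∂Pr) + c) / 2 +
        (4 / θ) * ∑ k ∈ Finset.range K, ((∫ ω, dd ((vc a true).X ((k : ℝ) * u) ∅ ω) ∂Pr) +
          ∫ ω, dd ((vc a true).X ((k : ℝ) * u + u) ∅ ω) ∂Pr) +
        (4 / (θ ^ 2 * n)) * (∫ ω, ((vc a true).N ((K : ℝ) * u) ∅ ω : ℝ) ∂Pr)) := by
  have hC := ne_true hk
  have hn' : (0 : ℝ) < n := by exact_mod_cast hn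
  have hK' : (0 : ℝ) < K := by exact_mod_cast hK
  set C := vc a true with hCdef
  set A : ℝ := (2 / θ ^ 2) * (1 - (Complex.exp (u * lamf a θ)).re) with hA
  set EN : ℝ := ∫ ω, (C.N ((K : ℝ) * u) ∅ ω : ℝ) ∂Pr with hEN
  set h : ℕ → Om → ℝ := fun k ω => ∫ ω', dd (C.X u (C.X ((k : ℝ) * u) ∅ ω) ω') ∂Pr with hh
  have hhint : ∀ k : ℕ, Integrable (h k) Pr := fun k =>
    (ll_h hk ∅ (s := (k : ℝ) * u) (by positivity) hu.le).1
  have hheq : ∀ k : ℕ, ∫ ω, h k ω ∂Pr = ∫ ω, dd (C.X ((k : ℝ) * u + u) ∅ ω) ∂Pr := fun k =>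
    (ll_h hk ∅ (s := (k : ℝ) * u) (by positivity) hu.le).2
  have hh0 : ∀ k ω, 0 ≤ h k ω := fun k ω => integral_nonneg fun ω' => dd_nonneg _
  have hdint : ∀ k : ℕ, Integrable (fun ω => dd (C.X ((k : ℝ) * u) ∅ ω)) Pr := fun k =>
    integrable_dd hk ∅ (by positivity)
  set S1 : Om → ℝ := fun ω => ∑ k ∈ Finset.range K, C.ll_f n u (C.X ((k : ℝ) * u) ∅ ω) with hS1
  set S2 : Om → ℝ := fun ω => ∑ k ∈ Finset.range K, (dd (C.X ((k : ℝ) * u) ∅ ω) + h k ω) with hS2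
  have hS1i : Integrable S1 Pr :=
    integrable_finsetSum _ fun k _ => C.ll_integrable_f n u _ ∅
  have hS2i : Integrable S2 Pr :=
    integrable_finsetSum _ fun k _ => (hdint k).add (hhint k)
  have hS1n : ∀ ω, 0 ≤ S1 ω := fun ω => Finset.sum_nonneg fun k _ => C.ll_f_nonneg _ _ _
  have hS2n : ∀ ω, 0 ≤ S2 ω := fun ω => Finset.sum_nonneg fun k _ =>
    add_nonneg (dd_nonneg _) (hh0 k ω)
  have hM := C.ll_measurable_M n u ∅ K
  have hMsq : Integrable (fun ω => (C.ll_M n u ∅ K ω) ^ 2) Pr := by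
    refine Integrable.of_bound (hM.pow_const 2).aestronglyMeasurable (((K : ℝ) * n) ^ 2) ?_
    refine Eventually.of_forall fun ω => ?_
    rw [norm_pow, Real.norm_eq_abs]
    exact pow_le_pow_left₀ (abs_nonneg _) (C.ll_M_bound n u ∅ K ω) 2
  have hNint : Integrable (fun ω => (C.N ((K : ℝ) * u) ∅ ω : ℝ)) Pr :=
    integrable_count hk ∅ (by positivity)
  -- sum of means
  have hsumG : ∑ k ∈ Finset.range K, ∫ ω, C.ll_G n u ∅ k ω ∂Pr ≤ EN := by
    rw [← integral_finsetSum _ fun k _ => C.ll_integrable_G n u ∅ k]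
    exact integral_mono_ae (integrable_finsetSum _ fun k _ => C.ll_integrable_G n u ∅ k) hNint
      (C.ll_sum_G hC n hu.le ∅ K)
  have hS1m : ∫ ω, S1 ω ∂Pr ≤ EN := by
    rw [hS1, integral_finsetSum _ fun k _ => C.ll_integrable_f n u _ ∅]
    simp_rw [C.ll_mean hC n hu.le ∅]
    exact hsumG
  have hS2m : ∫ ω, S2 ω ∂Pr = ∑ k ∈ Finset.range K,
      ((∫ ω, dd (C.X ((k : ℝ) * u) ∅ ω) ∂Pr) + ∫ ω, dd (C.X ((k : ℝ) * u + u) ∅ ω) ∂Pr) := by
    have hadd : ∀ k ∈ Finset.range K, Integrable (fun ω => dd (C.X ((k : ℝ) * u) ∅ ω) + h k ω) Pr :=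
      fun k _ => (hdint k).add (hhint k)
    rw [hS2, integral_finsetSum _ hadd]
    refine Finset.sum_congr rfl fun k _ => ?_
    rw [integral_add (hdint k) (hhint k), hheq]
  have hMm : ∫ ω, (C.ll_M n u ∅ K ω) ^ 2 ∂Pr ≤ 2 * n * EN := by
    refine (C.ll_sq hC n hu.le ∅ K).trans ?_
    exact mul_le_mul_of_nonneg_left hsumG (by positivity)
  -- pointwise
  have hpt : ∀ᵐ ω ∂Pr, max (sg a - (C.N ((K : ℝ) * u) ∅ ω : ℝ) / (K * u)) 0 ≤
      |sg a - A / u| + (1 / (K * u)) * (((C.ll_M n u ∅ K ω) ^ 2 / c + c) / 2 +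
        (4 / θ) * S2 ω + (4 / (θ ^ 2 * n)) * S1 ω) := by
    filter_upwards [C.ll_sum_G hC n hu.le ∅ K] with ω hω
    have hMe : C.ll_M n u ∅ K ω = ∑ k ∈ Finset.range K, C.ll_G n u ∅ k ω - S1 ω := by
      simp only [Chain.ll_M, Finset.sum_sub_distrib, hS1]
    have hAle : K * A ≤ (1 + 4 / (θ ^ 2 * n)) * S1 ω + (4 / θ) * S2 ω := by
      have : ∑ _k ∈ Finset.range K, A ≤ ∑ k ∈ Finset.range K,
          ((1 + 4 / (θ ^ 2 * n)) * C.ll_f n u (C.X ((k : ℝ) * u) ∅ ω) +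
            (4 / θ) * (dd (C.X ((k : ℝ) * u) ∅ ω) + h k ω)) :=
        Finset.sum_le_sum fun k _ => ll_phi_ge hk hc _ hu.le hθ hn
      rw [Finset.sum_const, Finset.card_range, nsmul_eq_mul, Finset.sum_add_distrib,
        ← Finset.mul_sum, ← Finset.mul_sum] at this
      exact this
    have hMabs := ll_abs_le_sq (x := C.ll_M n u ∅ K ω) hc0
    have hMneg := neg_abs_le (C.ll_M n u ∅ K ω)
    have h1 : (K : ℝ) * A - (((C.ll_M n u ∅ K ω) ^ 2 / c + c) / 2 + (4 / θ) * S2 ω +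
        (4 / (θ ^ 2 * n)) * S1 ω) ≤ (C.N ((K : ℝ) * u) ∅ ω : ℝ) := by
      have e : (1 + 4 / (θ ^ 2 * n)) * S1 ω = S1 ω + (4 / (θ ^ 2 * n)) * S1 ω := by ring
      rw [e] at hAle
      linarith
    have hKu : 0 < (K : ℝ) * u := by positivity
    have h2 : sg a - (C.N ((K : ℝ) * u) ∅ ω : ℝ) / (K * u) ≤ (sg a - A / u) + (1 / (K * u)) *
        (((C.ll_M n u ∅ K ω) ^ 2 / c + c) / 2 + (4 / θ) * S2 ω +
        (4 / (θ ^ 2 * n)) * S1 ω) := by
      have e : (K : ℝ) * A / (K * u) = A / u := by field_simp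
      have h3 : ((K : ℝ) * A - (((C.ll_M n u ∅ K ω) ^ 2 / c + c) / 2 + (4 / θ) * S2 ω +
        (4 / (θ ^ 2 * n)) * S1 ω)) / (K * u) ≤ (C.N ((K : ℝ) * u) ∅ ω : ℝ) / (K * u) :=
        div_le_div_of_nonneg_right h1 hKu.le
      rw [sub_div, e] at h3
      have e2 : (1 / ((K : ℝ) * u)) * (((C.ll_M n u ∅ K ω) ^ 2 / c + c) / 2 + (4 / θ) * S2 ω +
        (4 / (θ ^ 2 * n)) * S1 ω) = (((C.ll_M n u ∅ K ω) ^ 2 / c + c) / 2 + (4 / θ) * S2 ω +
        (4 / (θ ^ 2 * n)) * S1 ω) / (K * u) := by ring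
      rw [e2]
      linarith
    have hnn : 0 ≤ (1 / ((K : ℝ) * u)) * (((C.ll_M n u ∅ K ω) ^ 2 / c + c) / 2 +
        (4 / θ) * S2 ω + (4 / (θ ^ 2 * n)) * S1 ω) := by
      have := hS1n ω
      have := hS2n ω
      positivity
    refine max_le ?_ ?_
    · linarith [le_abs_self (sg a - A / u)]
    · linarith [abs_nonneg (sg a - A / u)]
  have hKu : 0 < (K : ℝ) * u := by positivity
  have i1 : Integrable (fun ω => ((C.ll_M n u ∅ K ω) ^ 2 / c + c) / 2) Pr :=
    ((hMsq.div_const c).add (integrable_const c)).div_const 2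
  have i2 : Integrable (fun ω => (4 / θ) * S2 ω) Pr := hS2i.const_mul _
  have i3 : Integrable (fun ω => (4 / (θ ^ 2 * n)) * S1 ω) Pr := hS1i.const_mul _
  have i12 : Integrable (fun ω => ((C.ll_M n u ∅ K ω) ^ 2 / c + c) / 2 + (4 / θ) * S2 ω) Pr :=
    i1.add i2
  have i123 : Integrable (fun ω => ((C.ll_M n u ∅ K ω) ^ 2 / c + c) / 2 + (4 / θ) * S2 ω +
      (4 / (θ ^ 2 * n)) * S1 ω) Pr := i12.add i3
  have hmax : Integrable (fun ω => max (sg a - (C.N ((K : ℝ) * u) ∅ ω : ℝ) / (K * u)) 0) Pr :=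
    ((integrable_const (sg a)).sub (hNint.div_const _)).pos_part
  refine (integral_mono_ae hmax ((integrable_const _).add (i123.const_mul _)) hpt).trans ?_
  have e0 : ∫ ω, (|sg a - A / u| + (1 / (K * u)) * (((C.ll_M n u ∅ K ω) ^ 2 / c + c) / 2 +
        (4 / θ) * S2 ω + (4 / (θ ^ 2 * n)) * S1 ω)) ∂Pr =
      |sg a - A / u| + (1 / (K * u)) * (((∫ ω, (C.ll_M n u ∅ K ω) ^ 2 ∂Pr) / c + c) / 2 +
        (4 / θ) * (∫ ω, S2 ω ∂Pr) + (4 / (θ ^ 2 * n)) * ∫ ω, S1 ω ∂Pr) := by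
    rw [integral_add (integrable_const _) (i123.const_mul _), integral_const_mul,
      integral_add i12 i3, integral_add i1 i2, integral_const_mul, integral_const_mul,
      integral_div, integral_add (hMsq.div_const c) (integrable_const c), integral_div]
    simp
  change ∫ ω, (|sg a - A / u| + (1 / (K * u)) * (((C.ll_M n u ∅ K ω) ^ 2 / c + c) / 2 +
        (4 / θ) * S2 ω + (4 / (θ ^ 2 * n)) * S1 ω)) ∂Pr ≤ _
  rw [e0, hS2m]
  refine add_le_add le_rfl (mul_le_mul_of_nonneg_left ?_ (by positivity))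
  have f1 : (∫ ω, (C.ll_M n u ∅ K ω) ^ 2 ∂Pr) / c ≤ (2 * n / c) * EN := by
    calc (∫ ω, (C.ll_M n u ∅ K ω) ^ 2 ∂Pr) / c ≤ (2 * n * EN) / c :=
          div_le_div_of_nonneg_right hMm hc0.le
      _ = _ := by ring
  have f2 : (4 / (θ ^ 2 * n)) * ∫ ω, S1 ω ∂Pr ≤ (4 / (θ ^ 2 * n)) * EN :=
    mul_le_mul_of_nonneg_left hS1m (by positivity)
  linarith



lemma sg_pos (hk : IsKernel a) : 0 < sg a := by
  obtain ⟨k, hk2, hk0⟩ := hk.long_jump
  have h1 : a k * (k : ℝ) ^ 2 ≤ sg a :=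
    hk.second_moment.le_tsum k fun j _ => mul_nonneg (hk.nonneg j) (sq_nonneg _)
  have hne : (k : ℝ) ≠ 0 := by
    intro h
    have : k = 0 := by exact_mod_cast h
    rw [this] at hk2
    simp at hk2
  have : 0 < a k * (k : ℝ) ^ 2 := by positivity
  linarith

lemma ll_EN_le (hk : IsKernel a) {t : ℝ} (ht : 0 ≤ t) :
    ∫ ω, ((vc a true).N t ∅ ω : ℝ) ∂Pr ≤ t * sg a := by
  have := count_le hk ∅ ht
  simpa using this

lemma ll_lim1 (hk : IsKernel a) (hc : mn a = 0) {ϑ : ℝ} (hϑ : 0 < ϑ) :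
    Tendsto (fun u : ℝ => (2 / (ϑ / √u) ^ 2) *
      (1 - (Complex.exp (u * lamf a (ϑ / √u))).re) / u) atTop
      (𝓝 ((2 / ϑ ^ 2) * (1 - Real.exp (-(sg a * ϑ ^ 2 / 2))))) := by
  have hsq : Tendsto (fun u : ℝ => √u) atTop atTop := Real.tendsto_sqrt_atTop
  have h0 : Tendsto (fun u : ℝ => ϑ / √u) atTop (𝓝 0) := hsq.const_div_atTop ϑ
  have h1 : Tendsto (fun u : ℝ => ϑ / √u) atTop (𝓝[≠] 0) := by
    refine tendsto_nhdsWithin_iff.2 ⟨h0, ?_⟩
    filter_upwards [eventually_gt_atTop (0 : ℝ)] with u hu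
    have : 0 < ϑ / √u := by positivity
    exact this.ne'
  have h2 := (lamf_asymp hk hc).comp h1
  have h3 : Tendsto (fun u : ℝ => (ϑ : ℂ) ^ 2 * (lamf a (ϑ / √u) / ((ϑ / √u : ℝ) : ℂ) ^ 2)) atTop
      (𝓝 ((ϑ : ℂ) ^ 2 * (-(sg a : ℂ) / 2))) := h2.const_mul _
  have h4 : Tendsto (fun u : ℝ => (Complex.exp ((ϑ : ℂ) ^ 2 *
      (lamf a (ϑ / √u) / ((ϑ / √u : ℝ) : ℂ) ^ 2))).re) atTop
      (𝓝 (Complex.exp ((ϑ : ℂ) ^ 2 * (-(sg a : ℂ) / 2))).re) :=
    (Complex.continuous_re.tendsto _).comp ((Complex.continuous_exp.tendsto _).comp h3)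
  have e : (Complex.exp ((ϑ : ℂ) ^ 2 * (-(sg a : ℂ) / 2))).re =
      Real.exp (-(sg a * ϑ ^ 2 / 2)) := by
    have : (ϑ : ℂ) ^ 2 * (-(sg a : ℂ) / 2) = ((-(sg a * ϑ ^ 2 / 2) : ℝ) : ℂ) := by
      push_cast; ring
    rw [this, ← Complex.ofReal_exp, Complex.ofReal_re]
  rw [e] at h4
  refine ((h4.const_sub 1).const_mul (2 / ϑ ^ 2)).congr' ?_
  filter_upwards [eventually_gt_atTop (0 : ℝ)] with u hu
  have hs : 0 < √u := Real.sqrt_pos.2 hu
  have hss : √u ^ 2 = u := Real.sq_sqrt hu.le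
  have e1 : (ϑ : ℂ) ^ 2 * (lamf a (ϑ / √u) / ((ϑ / √u : ℝ) : ℂ) ^ 2) = u * lamf a (ϑ / √u) := by
    have h5 : ((√u : ℝ) : ℂ) ^ 2 = (u : ℂ) := by rw [← Complex.ofReal_pow, hss]
    have h6 : ((√u : ℝ) : ℂ) ≠ 0 := by exact_mod_cast hs.ne'
    have h7 : (ϑ : ℂ) ≠ 0 := by exact_mod_cast hϑ.ne'
    rw [← h5]
    push_cast
    field_simp
  rw [e1]
  have e2 : 2 / (ϑ / √u) ^ 2 = 2 * u / ϑ ^ 2 := by
    rw [div_pow, hss]; field_simp
  rw [e2]
  field_simp

lemma ll_eps {x ϑ : ℝ} (hϑ : 0 < ϑ) (hx : 0 ≤ x) (h1 : x * ϑ ^ 2 / 2 ≤ 1) :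
    |x - (2 / ϑ ^ 2) * (1 - Real.exp (-(x * ϑ ^ 2 / 2)))| ≤ x ^ 2 * ϑ ^ 2 / 2 := by
  have h0 : 0 ≤ x * ϑ ^ 2 / 2 := by positivity
  have h2 := Real.abs_exp_sub_one_sub_id_le (x := -(x * ϑ ^ 2 / 2)) (by
    rw [abs_neg, abs_of_nonneg h0]; exact h1)
  have e : x - (2 / ϑ ^ 2) * (1 - Real.exp (-(x * ϑ ^ 2 / 2))) =
      (2 / ϑ ^ 2) * (Real.exp (-(x * ϑ ^ 2 / 2)) - 1 - -(x * ϑ ^ 2 / 2)) := by
    field_simp
    ring
  rw [e, abs_mul, abs_of_pos (by positivity)]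
  calc (2 / ϑ ^ 2) * |Real.exp (-(x * ϑ ^ 2 / 2)) - 1 - -(x * ϑ ^ 2 / 2)|
      ≤ (2 / ϑ ^ 2) * (-(x * ϑ ^ 2 / 2)) ^ 2 := mul_le_mul_of_nonneg_left h2 (by positivity)
    _ = _ := by field_simp

lemma ll_lim3 (hk : IsKernel a) (k : ℕ) :
    Tendsto (fun u : ℝ => (∫ ω, dd ((vc a true).X ((k : ℝ) * u) ∅ ω) ∂Pr) / √u) atTop (𝓝 0) := by
  have hsq : Tendsto (fun u : ℝ => √u) atTop atTop := Real.tendsto_sqrt_atTop
  rcases Nat.eq_zero_or_pos k with h0 | h0
  · subst h0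
    simp only [Nat.cast_zero, zero_mul]
    exact hsq.const_div_atTop _
  · have hk' : (0 : ℝ) < k := by exact_mod_cast h0
    have h1 : Tendsto (fun u : ℝ => (k : ℝ) * u) atTop atTop := tendsto_id.const_mul_atTop hk'
    have h2 := ((tendsto_ED hk).comp h1).const_mul (√(k : ℝ))
    rw [mul_zero] at h2
    refine h2.congr' ?_
    filter_upwards [eventually_gt_atTop (0 : ℝ)] with u hu
    simp only [Function.comp]
    have e : √((k : ℝ) * u) = √(k : ℝ) * √u := Real.sqrt_mul hk'.le u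
    have h3 : 0 < √(k : ℝ) := Real.sqrt_pos.2 hk'
    have h4 : 0 < √u := Real.sqrt_pos.2 hu
    have e5 : (fun ω => ((no true ((vc a true).X ((k : ℝ) * u) ∅ ω)
      ((cc ((vc a true).X ((k : ℝ) * u) ∅ ω) : ℝ) - 1) : ℕ) : ℝ)) =
      fun ω => dd ((vc a true).X ((k : ℝ) * u) ∅ ω) := rfl
    rw [e, e5]
    field_simp

lemma ll_lim3' (hk : IsKernel a) (k : ℕ) :
    Tendsto (fun u : ℝ => (∫ ω, dd ((vc a true).X ((k : ℝ) * u + u) ∅ ω) ∂Pr) / √u) atTop
      (𝓝 0) := by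
  have h := ll_lim3 hk (k + 1)
  have e : ∀ u : ℝ, ((k + 1 : ℕ) : ℝ) * u = (k : ℝ) * u + u := fun u => by push_cast; ring
  simp_rw [e] at h
  exact h

theorem ll_pos (hk : IsKernel a) (hc : mn a = 0) :
    Tendsto (fun t : ℝ => ∫ ω, max (sg a - ((vc a true).N t ∅ ω : ℝ) / t) 0 ∂Pr) atTop (𝓝 0) := by
  have hsg := sg_pos hk
  have hF0 : ∀ t : ℝ, 0 ≤ ∫ ω, max (sg a - ((vc a true).N t ∅ ω : ℝ) / t) 0 ∂Pr := fun t =>
    integral_nonneg fun ω => le_max_right _ _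
  rw [Metric.tendsto_nhds]
  intro ε hε
  -- choice of ϑ
  obtain ⟨ϑ, hϑ1, hϑ2, hϑ⟩ : ∃ ϑ : ℝ, sg a * ϑ ^ 2 / 2 < 1 ∧ (sg a) ^ 2 * ϑ ^ 2 / 2 < ε / 4 ∧
      0 < ϑ := by
    have c1 : Tendsto (fun ϑ : ℝ => sg a * ϑ ^ 2 / 2) (𝓝 0) (𝓝 0) := by
      have : Continuous fun ϑ : ℝ => sg a * ϑ ^ 2 / 2 := by fun_prop
      simpa using this.tendsto 0
    have c2 : Tendsto (fun ϑ : ℝ => (sg a) ^ 2 * ϑ ^ 2 / 2) (𝓝 0) (𝓝 0) := by
      have : Continuous fun ϑ : ℝ => (sg a) ^ 2 * ϑ ^ 2 / 2 := by fun_prop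
      simpa using this.tendsto 0
    have d1 : ∀ᶠ ϑ : ℝ in 𝓝[>] 0, sg a * ϑ ^ 2 / 2 < 1 :=
      (c1.mono_left nhdsWithin_le_nhds).eventually_lt_const one_pos
    have d2 : ∀ᶠ ϑ : ℝ in 𝓝[>] 0, (sg a) ^ 2 * ϑ ^ 2 / 2 < ε / 4 :=
      (c2.mono_left nhdsWithin_le_nhds).eventually_lt_const (by positivity)
    obtain ⟨ϑ, h⟩ := (d1.and (d2.and self_mem_nhdsWithin)).exists
    exact ⟨ϑ, h.1, h.2.1, h.2.2⟩
  -- choice of κ
  set κ : ℝ := ε / (4 * (sg a + 1)) with hκ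
  have hκ0 : 0 < κ := by positivity
  have hκ1 : κ * sg a + κ / 2 < ε / 4 := by
    have : κ * (sg a + 1) = ε / 4 := by rw [hκ]; field_simp
    nlinarith
  -- choice of K
  obtain ⟨K, hK⟩ := exists_nat_gt (4 * sg a / (ϑ ^ 2 * κ ^ 2) / (ε / 4))
  have hK0 : (0 : ℝ) < K := lt_of_le_of_lt (by positivity) hK
  have hK0' : 0 < K := by exact_mod_cast hK0
  have hK1 : 4 * sg a / (ϑ ^ 2 * κ ^ 2 * K) < ε / 4 := by
    rw [div_lt_iff₀ (by positivity)] at hK
    rw [← div_div, div_lt_iff₀ hK0]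
    linarith
  set L : ℝ := (2 / ϑ ^ 2) * (1 - Real.exp (-(sg a * ϑ ^ 2 / 2))) with hL
  have hLe : |sg a - L| < ε / 4 := lt_of_le_of_lt (ll_eps hϑ hsg.le hϑ1.le) hϑ2
  -- error term
  set A : ℝ → ℝ := fun u => (2 / (ϑ / √u) ^ 2) *
      (1 - (Complex.exp (u * lamf a (ϑ / √u))).re) / u with hA
  set R : ℝ → ℝ := fun u => |L - A u| + sg a / (κ * K) / u + (4 / (ϑ * K)) *
    ∑ k ∈ Finset.range K, ((∫ ω, dd ((vc a true).X ((k : ℝ) * u) ∅ ω) ∂Pr) / √u +
      (∫ ω, dd ((vc a true).X ((k : ℝ) * u + u) ∅ ω) ∂Pr) / √u) with hR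
  have hRlim : Tendsto R atTop (𝓝 0) := by
    have r1 : Tendsto (fun u => |L - A u|) atTop (𝓝 0) := by
      have := ((ll_lim1 hk hc hϑ).const_sub L).abs
      simpa [hL] using this
    have r2 : Tendsto (fun u : ℝ => sg a / (κ * K) / u) atTop (𝓝 0) :=
      tendsto_id.const_div_atTop _
    have r3 : Tendsto (fun u : ℝ => ∑ k ∈ Finset.range K,
        ((∫ ω, dd ((vc a true).X ((k : ℝ) * u) ∅ ω) ∂Pr) / √u +
        (∫ ω, dd ((vc a true).X ((k : ℝ) * u + u) ∅ ω) ∂Pr) / √u)) atTop (𝓝 0) := by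
      have := tendsto_finsetSum (Finset.range K) fun k _ => (ll_lim3 hk k).add (ll_lim3' hk k)
      simpa using this
    have r4 := (r1.add r2).add (r3.const_mul (4 / (ϑ * K)))
    simpa using r4
  have hev : ∀ᶠ u : ℝ in atTop, ∫ ω, max (sg a - ((vc a true).N ((K : ℝ) * u) ∅ ω : ℝ) /
      (K * u)) 0 ∂Pr < ε := by
    filter_upwards [hRlim.eventually_lt_const (show 0 < ε / 4 by positivity),
      eventually_gt_atTop (0 : ℝ)] with u hRu hu
    set n : ℕ := ⌈κ ^ 2 * K * u⌉₊ with hn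
    have hn0 : 0 < n := Nat.ceil_pos.2 (by positivity)
    have hn0' : (0 : ℝ) < n := by exact_mod_cast hn0
    have hn1 : κ ^ 2 * K * u ≤ n := Nat.le_ceil _
    have hn2 : (n : ℝ) < κ ^ 2 * K * u + 1 := Nat.ceil_lt_add_one (by positivity)
    have hs : 0 < √u := Real.sqrt_pos.2 hu
    have hss : √u ^ 2 = u := Real.sq_sqrt hu.le
    have hm := ll_main hk hc hu hK0' hn0 (θ := ϑ / √u) (by positivity) (c := κ * K * u)
      (by positivity)
    have hEN := ll_EN_le hk (t := (K : ℝ) * u) (by positivity)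
    have hEN0 : 0 ≤ ∫ ω, ((vc a true).N ((K : ℝ) * u) ∅ ω : ℝ) ∂Pr :=
      integral_nonneg fun ω => Nat.cast_nonneg _
    set EN : ℝ := ∫ ω, ((vc a true).N ((K : ℝ) * u) ∅ ω : ℝ) ∂Pr with hENdef
    have t1 : |sg a - A u| ≤ |sg a - L| + |L - A u| := by
      have := abs_add_le (sg a - L) (L - A u)
      have e : sg a - L + (L - A u) = sg a - A u := by ring
      rwa [e] at this
    have t2 : (1 / (K * u)) * (((2 * n / (κ * K * u)) * EN + κ * K * u) / 2) ≤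
        κ * sg a + κ / 2 + sg a / (κ * K) / u := by
      have h1 : (2 * n / (κ * K * u)) * EN ≤ (2 * (κ ^ 2 * K * u + 1) / (κ * K * u)) *
          (K * u * sg a) := by
        refine mul_le_mul ?_ hEN hEN0 (by positivity)
        exact div_le_div_of_nonneg_right (by linarith) (by positivity)
      calc (1 / (K * u)) * (((2 * n / (κ * K * u)) * EN + κ * K * u) / 2)
          ≤ (1 / (K * u)) * (((2 * (κ ^ 2 * K * u + 1) / (κ * K * u)) *
          (K * u * sg a) + κ * K * u) / 2) :=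
            mul_le_mul_of_nonneg_left (by linarith) (by positivity)
        _ = _ := by field_simp; ring
    have t3 : (1 / (K * u)) * ((4 / (ϑ / √u)) * ∑ k ∈ Finset.range K,
        ((∫ ω, dd ((vc a true).X ((k : ℝ) * u) ∅ ω) ∂Pr) +
          ∫ ω, dd ((vc a true).X ((k : ℝ) * u + u) ∅ ω) ∂Pr)) = (4 / (ϑ * K)) *
        ∑ k ∈ Finset.range K, ((∫ ω, dd ((vc a true).X ((k : ℝ) * u) ∅ ω) ∂Pr) / √u +
        (∫ ω, dd ((vc a true).X ((k : ℝ) * u + u) ∅ ω) ∂Pr) / √u) := by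
      simp_rw [← add_div]
      rw [← Finset.sum_div]
      set Sg := ∑ k ∈ Finset.range K, ((∫ ω, dd ((vc a true).X ((k : ℝ) * u) ∅ ω) ∂Pr) +
          ∫ ω, dd ((vc a true).X ((k : ℝ) * u + u) ∅ ω) ∂Pr)
      have : (u : ℝ) = √u * √u := by rw [← sq, hss]
      rw [show (1 : ℝ) / (K * u) = 1 / (K * (√u * √u)) by rw [← this]]
      field_simp
    have t4 : (1 / (K * u)) * ((4 / ((ϑ / √u) ^ 2 * n)) * EN) ≤
        4 * sg a / (ϑ ^ 2 * κ ^ 2 * K) := by
      have e1 : 4 / ((ϑ / √u) ^ 2 * n) = 4 * u / (ϑ ^ 2 * n) := by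
        rw [div_pow, hss]; field_simp
      rw [e1]
      calc (1 / (K * u)) * ((4 * u / (ϑ ^ 2 * n)) * EN)
          ≤ (1 / (K * u)) * ((4 * u / (ϑ ^ 2 * (κ ^ 2 * K * u))) * (K * u * sg a)) := by
            refine mul_le_mul_of_nonneg_left ?_ (by positivity)
            refine mul_le_mul ?_ hEN hEN0 (by positivity)
            refine div_le_div_of_nonneg_left (by positivity) (by positivity) ?_
            exact mul_le_mul_of_nonneg_left hn1 (by positivity)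
        _ = _ := by field_simp
    have hAu : (2 / (ϑ / √u) ^ 2) * (1 - (Complex.exp (u * lamf a (ϑ / √u))).re) / u = A u := rfl
    rw [hAu, mul_add, mul_add, t3] at hm
    simp only [hR] at hRu
    linarith
  have hdiv : Tendsto (fun t : ℝ => t / K) atTop atTop := tendsto_id.atTop_div_const hK0
  filter_upwards [hdiv.eventually hev] with t ht
  have e : (K : ℝ) * (t / K) = t := by field_simp
  rw [e] at ht
  rw [Real.dist_eq, sub_zero, abs_of_nonneg (hF0 t)]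
  exact ht

theorem lln_L1 (hk : IsKernel a) (hc : mn a = 0) :
    Tendsto (fun t : ℝ => ∫ ω, |((vc a true).N t ∅ ω : ℝ) / t - sg a| ∂Pr) atTop (𝓝 0) := by
  have h1 := ((tendsto_EN hk).sub_const (sg a)).add ((ll_pos hk hc).const_mul 2)
  rw [sub_self, mul_zero, add_zero] at h1
  refine h1.congr' ?_
  filter_upwards [eventually_ge_atTop (0 : ℝ)] with t ht
  have hi := (integrable_count hk ∅ ht).div_const t
  have hi2 : Integrable (fun ω => ((vc a true).N t ∅ ω : ℝ) / t - sg a) Pr :=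
    hi.sub (integrable_const _)
  have hi3 : Integrable (fun ω => max (sg a - ((vc a true).N t ∅ ω : ℝ) / t) 0) Pr :=
    ((integrable_const (sg a)).sub hi).pos_part
  have e : ∀ ω, |((vc a true).N t ∅ ω : ℝ) / t - sg a| =
      (((vc a true).N t ∅ ω : ℝ) / t - sg a) +
        2 * max (sg a - ((vc a true).N t ∅ ω : ℝ) / t) 0 := by
    intro ω
    rcases le_total (((vc a true).N t ∅ ω : ℝ) / t) (sg a) with h | h
    · rw [abs_of_nonpos (by linarith), max_eq_left (by linarith)]; ring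
    · rw [abs_of_nonneg (by linarith), max_eq_right (by linarith)]; ring
  simp_rw [e]
  rw [integral_add hi2 (hi3.const_mul 2), integral_const_mul, integral_sub hi (integrable_const _),
    integral_div]
  simp

theorem lln (hk : IsKernel a) (hc : mn a = 0) {δ : ℝ} (hδ : 0 < δ) :
    Tendsto (fun t : ℝ => Pr {ω | δ ≤ |((vc a true).N t ∅ ω : ℝ) / t - sg a|}) atTop (𝓝 0) := by
  have h1 : Tendsto (fun t : ℝ => ENNReal.ofReal
      ((∫ ω, |((vc a true).N t ∅ ω : ℝ) / t - sg a| ∂Pr) / δ)) atTop (𝓝 0) := by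
    have := ENNReal.tendsto_ofReal ((lln_L1 hk hc).div_const δ)
    simpa using this
  refine tendsto_of_tendsto_of_tendsto_of_le_of_le' tendsto_const_nhds h1
    (Eventually.of_forall fun _ => bot_le) ?_
  filter_upwards [eventually_ge_atTop (0 : ℝ)] with t ht
  have hi : Integrable (fun ω => |((vc a true).N t ∅ ω : ℝ) / t - sg a|) Pr :=
    (((integrable_count hk ∅ ht).div_const t).sub (integrable_const _)).abs
  have h2 := mul_meas_ge_le_integral_of_nonneg (μ := Pr)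
    (f := fun ω => |((vc a true).N t ∅ ω : ℝ) / t - sg a|)
    (Eventually.of_forall fun ω => abs_nonneg _) hi δ
  rw [← ENNReal.ofReal_toReal (measure_ne_top Pr
    {ω | δ ≤ |((vc a true).N t ∅ ω : ℝ) / t - sg a|})]
  refine ENNReal.ofReal_le_ofReal ?_
  rw [le_div_iff₀ hδ, mul_comm]
  exact h2

/-- the jump times -/
theorem lln_T (hk : IsKernel a) (hc : mn a = 0) {δ : ℝ} (hδ : 0 < δ) :
    Tendsto (fun n : ℕ => Pr {ω | δ ≤ |(vc a true).T n ∅ ω / n - 1 / sg a|}) atTop (𝓝 0) := by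
  have hsg := sg_pos hk
  have hC := ne_true hk
  -- upper side
  set s1 : ℝ := 1 / sg a + δ / 2 with hs1
  have hs10 : 0 < s1 := by positivity
  set δ' : ℝ := min δ (1 / (2 * sg a)) with hδ'
  have hδ'0 : 0 < δ' := by positivity
  set s2 : ℝ := 1 / sg a - δ' with hs2
  have hs20 : 0 < s2 := by
    have h1 : δ' ≤ 1 / (2 * sg a) := min_le_right _ _
    have h2 : 1 / (2 * sg a) < 1 / sg a := by
      apply one_div_lt_one_div_of_lt hsg; linarith
    linarith
  set e1 : ℝ := sg a - 1 / s1 with he1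
  have he10 : 0 < e1 := by
    have : 1 / s1 < 1 / (1 / sg a) := one_div_lt_one_div_of_lt (by positivity) (by linarith)
    rw [one_div_one_div] at this
    linarith
  set e2 : ℝ := 1 / s2 - sg a with he2
  have he20 : 0 < e2 := by
    have : 1 / (1 / sg a) < 1 / s2 := one_div_lt_one_div_of_lt hs20 (by linarith)
    rw [one_div_one_div] at this
    linarith
  have l1 : Tendsto (fun n : ℕ => Pr {ω | e1 ≤
      |((vc a true).N ((n : ℝ) * s1) ∅ ω : ℝ) / ((n : ℝ) * s1) - sg a|}) atTop (𝓝 0) :=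
    (lln hk hc he10).comp (tendsto_natCast_atTop_atTop.atTop_mul_const hs10)
  have l2 : Tendsto (fun n : ℕ => Pr {ω | e2 ≤
      |((vc a true).N ((n : ℝ) * s2) ∅ ω : ℝ) / ((n : ℝ) * s2) - sg a|}) atTop (𝓝 0) :=
    (lln hk hc he20).comp (tendsto_natCast_atTop_atTop.atTop_mul_const hs20)
  have l3 := l1.add l2
  rw [add_zero] at l3
  refine tendsto_of_tendsto_of_tendsto_of_le_of_le' tendsto_const_nhds l3
    (Eventually.of_forall fun _ => bot_le) ?_
  filter_upwards [eventually_gt_atTop 0] with n hn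
  have hn' : (0 : ℝ) < n := by exact_mod_cast hn
  refine (measure_mono_ae ?_).trans (measure_union_le _ _)
  filter_upwards [(vc a true).ae_finite hC ∅] with ω hω
  intro h
  have h : δ ≤ |(vc a true).T n ∅ ω / n - 1 / sg a| := h
  obtain ⟨k, rfl⟩ : ∃ k, n = k + 1 := ⟨n - 1, by omega⟩
  rcases le_abs.1 h with h' | h'
  · left
    change e1 ≤ _
    -- T > n s1
    have hT : ((k + 1 : ℕ) : ℝ) * s1 < (vc a true).T (k + 1) ∅ ω := by
      have : s1 < (vc a true).T (k + 1) ∅ ω / ((k + 1 : ℕ) : ℝ) := by rw [hs1]; linarith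
      rw [lt_div_iff₀ hn'] at this
      linarith
    have hN : ¬ k < (vc a true).N (((k + 1 : ℕ) : ℝ) * s1) ∅ ω := by
      rw [(vc a true).lt_N_iff (by positivity) (hω _) k]
      exact not_le.2 hT
    have hN' : ((vc a true).N (((k + 1 : ℕ) : ℝ) * s1) ∅ ω : ℝ) ≤ ((k + 1 : ℕ) : ℝ) := by
      have : (vc a true).N (((k + 1 : ℕ) : ℝ) * s1) ∅ ω ≤ k + 1 := by omega
      exact_mod_cast this
    have : ((vc a true).N (((k + 1 : ℕ) : ℝ) * s1) ∅ ω : ℝ) /
        (((k + 1 : ℕ) : ℝ) * s1) ≤ 1 / s1 := by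
      rw [div_le_div_iff₀ (by positivity) hs10]
      nlinarith
    refine le_trans ?_ (neg_le_abs _)
    rw [he1]; linarith
  · right
    change e2 ≤ _
    have hT : (vc a true).T (k + 1) ∅ ω ≤ ((k + 1 : ℕ) : ℝ) * s2 := by
      have : (vc a true).T (k + 1) ∅ ω / ((k + 1 : ℕ) : ℝ) ≤ s2 := by
        have : δ' ≤ δ := min_le_left _ _
        rw [hs2]; linarith
      rw [div_le_iff₀ hn'] at this
      linarith
    have hN := ((vc a true).lt_N_iff (t := ((k + 1 : ℕ) : ℝ) * s2) (by positivity)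
      (hω _) k).2 hT
    have hN' : ((k + 1 : ℕ) : ℝ) ≤ ((vc a true).N (((k + 1 : ℕ) : ℝ) * s2) ∅ ω : ℝ) := by
      exact_mod_cast hN
    have : 1 / s2 ≤ ((vc a true).N (((k + 1 : ℕ) : ℝ) * s2) ∅ ω : ℝ) /
        (((k + 1 : ℕ) : ℝ) * s2) := by
      rw [div_le_div_iff₀ hs20 (by positivity)]
      nlinarith
    refine le_trans ?_ (le_abs_self _)
    rw [he2]; linarith

end H40.VM
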