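import Pool.Agent.H40.VM.CLa
import Pool.Agent.H40.VM.LLU
import Pool.Agent.H40.VM.SHP

/-!
# Module CLc: closeness of the rescaled interface and the rescaled centre on time intervals

Take `n = ⌈K/ε²⌉` jumps with `K = 2 sg T₀ + 2`. Outside of the bad events
(1) `∃ k ≤ n`, `|T0 k - k/sg| > η/ε²` (`lln_unif`),
(2) `∃ i j ≤ n` with `|i - j| ≤ η'/ε²` and `|S i - S j| > κ/(3ε)` (`modulus_P` or `modulus`),
(3) `∃ k < n` with `T0 k ≤ K'/ε²` and `low (mis (Z k)) (S k - κ/(3ε))` (`sharp_path`),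
`Y_close` shows `|Y t - ε S ⌊sg t/ε²⌋| ≤ κ` for all `t ≤ T₀`. The probabilities of (1), (3) under `Pr`
(for `can a n`) tend to zero, hence also under `P` (`tendsto_P_of_Pr`, `P_le`).
-/

open MeasureTheory ProbabilityTheory Filter Topology
open scoped ENNReal NNReal unitInterval symmDiff

namespace H40.VM

open H40.Voter (IsKernel IsVoterChain IsVoterProcess VoterFam SkoD jumpTime Config)

variable {a : ℤ → ℝ}

/-- the deterministic part: the index of the state at time `t` -/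
lemma clc_det {T : ℕ → ℝ} (hT0 : T 0 = 0) {g η ε η₁ T₀ t : ℝ} (hg : 0 < g) (hε : 0 < ε)
    (hε1 : ε < 1) (hη₁ : 0 < η₁) (h1 : η₁ ≤ 1 / 2) (h2 : η₁ ≤ η / 3) (h3 : ε ^ 2 / g ≤ 1 / 2)
    (h4 : ε ^ 2 / g ≤ η / 3) (h5 : ε * T₀ / 2 ≤ η / 3) (ht0 : 0 ≤ t) (htT : t ≤ T₀)
    (h : ∀ k ≤ ⌊g * (T₀ + 2) / ε ^ 2⌋₊, |T k - k / g| ≤ η₁ * (1 / ε ^ 2)) :
    ∃ k : ℕ, k < ⌊g * (T₀ + 2) / ε ^ 2⌋₊ ∧ T k ≤ (1 - ε / 2) * (t / ε ^ 2) ∧
      (1 - ε / 2) * (t / ε ^ 2) < T (k + 1) ∧ |k * ε ^ 2 / g - t| ≤ η := by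
  have hu : 0 < ε ^ 2 := by positivity
  set u := ε ^ 2 with hu'
  set N := ⌊g * (T₀ + 2) / u⌋₊ with hN
  have hN1 : g * (T₀ + 2) / u < N + 1 := Nat.lt_floor_add_one _
  rw [div_lt_iff₀ hu] at hN1
  set τ := (1 - ε / 2) * (t / u) with hτ
  have hτu : τ * u = (1 - ε / 2) * t := by rw [hτ]; field_simp
  have hτ0 : 0 ≤ τ := mul_nonneg (by linarith) (by positivity)
  have key : ∀ k ≤ N, |T k * u - k * u / g| ≤ η₁ := by
    intro k hk
    have e : T k * u - k * u / g = (T k - k / g) * u := by ring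
    rw [e, abs_mul, abs_of_pos hu]
    calc |T k - k / g| * u ≤ η₁ * (1 / u) * u := mul_le_mul_of_nonneg_right (h k hk) hu.le
      _ = η₁ := by field_simp
  have hTN : τ < T N := by
    have h6 := (abs_le.1 (key N le_rfl)).1
    have h7 : T₀ + 2 - u / g < N * u / g := by
      rw [lt_div_iff₀ hg, sub_mul, div_mul_cancel₀ _ hg.ne']
      linarith
    have h8 : τ * u < T N * u := by
      rw [hτu]
      have : (1 - ε / 2) * t ≤ t := by nlinarith
      linarith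
    exact lt_of_mul_lt_mul_right h8 hu.le
  classical
  have hex : ∃ k, τ < T k := ⟨N, hTN⟩
  set k' := Nat.find hex with hk'
  have hk1 : τ < T k' := Nat.find_spec hex
  have hk2 : k' ≤ N := Nat.find_min' hex hTN
  have hk3 : k' ≠ 0 := by
    intro h0
    rw [h0, hT0] at hk1
    linarith
  obtain ⟨k, hk⟩ := Nat.exists_eq_succ_of_ne_zero hk3
  have hk4 : T k ≤ τ := not_lt.1 (Nat.find_min hex (m := k) (by omega))
  rw [hk, Nat.succ_eq_add_one] at hk1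
  refine ⟨k, by omega, hk4, hk1, ?_⟩
  have h6 := abs_le.1 (key k (by omega))
  have h7 := abs_le.1 (key (k + 1) (by omega))
  have h8 : T k * u ≤ τ * u := mul_le_mul_of_nonneg_right hk4 hu.le
  have h9 : τ * u ≤ T (k + 1) * u := mul_le_mul_of_nonneg_right hk1.le hu.le
  have h10 : ((k + 1 : ℕ) : ℝ) * u / g = k * u / g + u / g := by
    push_cast
    ring
  rw [h10] at h7
  rw [hτu] at h8 h9
  have h11 : ε * t ≤ ε * T₀ := mul_le_mul_of_nonneg_left htT hε.le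
  have h12 : 0 ≤ ε * t := by positivity
  have h13 : (1 - ε / 2) * t = t - ε * t / 2 := by ring
  rw [h13] at h8 h9
  rw [abs_le]
  constructor
  · linarith
  · linarith

/-- jump times computed from data -/
noncomputable def clcT (a : ℤ → ℝ) (p : (ℕ → St) × (ℕ → ℝ)) (k : ℕ) : ℝ :=
  ∑ i ∈ Finset.range k, p.2 i / tot a true (p.1 i)

lemma clc_meas_st (k : ℕ) : Measurable fun p : (ℕ → St) × (ℕ → ℝ) => p.1 k :=
  (measurable_pi_apply k).comp measurable_fst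

lemma clc_meas_T (k : ℕ) : Measurable fun p : (ℕ → St) × (ℕ → ℝ) => clcT a p k := by
  unfold clcT
  refine Finset.measurable_sum _ fun i _ => ?_
  refine Measurable.div ((measurable_pi_apply i).comp measurable_snd) ?_
  exact (measurable_of_countable (tot a true)).comp (clc_meas_st i)

lemma clc_T_abs {V : VoterFam a} (c : Chains V) (ε : ℝ) {n k : ℕ} (hk : k ≤ n) (ω : V.Ω ε) :
    clcT a (abs' (c.Z ε) (c.ξ ε) n ω) k = c.T0 ε k ω := by
  unfold clcT Chains.T0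
  refine Finset.sum_congr rfl fun i hi => ?_
  have hi' : i < n := (Finset.mem_range.1 hi).trans_le hk
  simp only [abs', trS, trE]
  rw [if_pos hi', min_eq_left hi'.le]

lemma clc_T_can (hk : IsKernel a) {n k : ℕ} (h : k ≤ n) (ω : Om) :
    clcT a (can a n ω) k = (vc a true).T k ∅ ω := by
  unfold clcT Chain.T
  refine Finset.sum_congr rfl fun i hi => ?_
  have hi' : i < n := (Finset.mem_range.1 hi).trans_le h
  simp only [can, trS, trE]
  rw [if_pos hi', min_eq_left hi'.le, q_true hk]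

lemma clc_tendsto_sq : Tendsto (fun ε : ℝ => 1 / ε ^ 2) (𝓝[>] 0) atTop := by
  have h1 : Tendsto (fun ε : ℝ => ε⁻¹) (𝓝[>] 0) atTop := tendsto_inv_nhdsGT_zero
  have h2 : Tendsto (fun x : ℝ => x ^ 2) atTop atTop := tendsto_pow_atTop (by norm_num)
  refine (h2.comp h1).congr fun ε => ?_
  simp

theorem close_path (hk : IsKernel a) (hc : mn a = 0)
    (htail : Tendsto (fun z : ℝ => c3 a z / z) atTop (𝓝 0)) {V : VoterFam a} (c : Chains V)
    (T₀ : ℝ≥0) {κ : ℝ} (hκ : 0 < κ) :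
    Tendsto (fun ε : ℝ => V.P ε {ω | ∃ t : ℝ≥0, t ≤ T₀ ∧
      κ < |(V.Y ε ω).1 t - ε * c.S ε ⌊sg a * t / ε ^ 2⌋₊ ω|}) (𝓝[>] 0) (𝓝 0) := by
  have hg : 0 < sg a := sg_pos hk
  refine ENNReal.tendsto_nhds_zero.2 fun e₀ he₀ => ?_
  obtain ⟨e, he0, he⟩ : ∃ e : ℝ, 0 < e ∧ ENNReal.ofReal e ≤ e₀ := by
    by_cases h : e₀ = ⊤
    · exact ⟨1, one_pos, by rw [h]; exact le_top⟩
    · exact ⟨e₀.toReal, ENNReal.toReal_pos he₀.ne' h, (ENNReal.ofReal_toReal h).le⟩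
  obtain ⟨η₀, hη₀, hmod⟩ := modulus_P hk hc c (T₀ + 1) (κ := κ / 2) (δ := e / 3) (by positivity)
    (by positivity)
  set η : ℝ := min η₀ 1 with hη
  have hη0 : 0 < η := lt_min hη₀ one_pos
  set η₁ : ℝ := min (1 / 2) (η / 3) with hη₁
  have hη₁0 : 0 < η₁ := lt_min (by norm_num) (by positivity)
  have hη₁1 : η₁ ≤ 1 / 2 := min_le_left _ _
  have hη₁2 : η₁ ≤ η / 3 := min_le_right _ _
  set K : ℝ := sg a * (T₀ + 2) with hK
  have hK0 : 0 < K := by positivity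
  set n : ℝ → ℕ := fun ε => ⌊K / ε ^ 2⌋₊ with hn
  have hnK : ∀ ε : ℝ, (n ε : ℝ) ≤ K * (1 / ε ^ 2) := by
    intro ε
    have := Nat.floor_le (a := K / ε ^ 2) (by positivity)
    calc (n ε : ℝ) ≤ K / ε ^ 2 := this
      _ = K * (1 / ε ^ 2) := by ring
  have hnK' : ∀ᶠ ε : ℝ in 𝓝[>] 0, (n ε : ℝ) ≤ K / ε ^ 2 + 1 := by
    refine Eventually.of_forall fun ε => ?_
    have := Nat.floor_le (a := K / ε ^ 2) (by positivity)
    linarith
  -- the bad sets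
  set S1 : ℝ → Set ((ℕ → St) × (ℕ → ℝ)) := fun ε =>
    {p | ∃ k : ℕ, k ≤ n ε ∧ η₁ * (1 / ε ^ 2) < |clcT a p k - k / sg a|} with hS1
  set S2 : ℝ → Set ((ℕ → St) × (ℕ → ℝ)) := fun ε =>
    {p | ∃ k : ℕ, k ≤ n ε ∧ (clcT a p k ≤ (T₀ + 1) * (1 / ε ^ 2) ∧
      low true (p.1 k) ((cc (p.1 k) : ℝ) - κ / 3 * √(1 / ε ^ 2)))} with hS2
  have hS1m : ∀ ε, MeasurableSet (S1 ε) := by
    intro ε
    have e1 : S1 ε = ⋃ k : ℕ, ⋃ (_ : k ≤ n ε),
        {p | η₁ * (1 / ε ^ 2) < |clcT a p k - k / sg a|} := by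
      ext p
      simp [hS1]
    rw [e1]
    refine MeasurableSet.iUnion fun k => MeasurableSet.iUnion fun _ => ?_
    exact measurableSet_lt measurable_const ((clc_meas_T k).sub_const _).abs
  have hS2m : ∀ ε, MeasurableSet (S2 ε) := by
    intro ε
    have e1 : S2 ε = ⋃ k : ℕ, ⋃ (_ : k ≤ n ε),
        ({p | clcT a p k ≤ (T₀ + 1) * (1 / ε ^ 2)} ∩
          (fun p : (ℕ → St) × (ℕ → ℝ) => p.1 k) ⁻¹'
            {m : St | low true m ((cc m : ℝ) - κ / 3 * √(1 / ε ^ 2))}) := by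
      ext p
      simp only [hS2, Set.mem_iUnion, Set.mem_inter_iff, Set.mem_preimage, Set.mem_ofPred_eq,
        exists_prop]
    rw [e1]
    refine MeasurableSet.iUnion fun k => MeasurableSet.iUnion fun _ => ?_
    refine (measurableSet_le (clc_meas_T k) measurable_const).inter ?_
    exact clc_meas_st k (MeasurableSet.of_discrete)
  have hP1 : Tendsto (fun ε => Pr (can a (n ε) ⁻¹' S1 ε)) (𝓝[>] 0) (𝓝 0) := by
    have h1 := (lln_unif hk hc (K := K) (δ := η₁) hK0 hη₁0).comp clc_tendsto_sq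
    refine tendsto_of_tendsto_of_tendsto_of_le_of_le tendsto_const_nhds h1
      (fun _ => zero_le) fun ε => ?_
    refine measure_mono ?_
    rintro ω ⟨k, hk1, hk2⟩
    rw [clc_T_can hk hk1] at hk2
    refine ⟨k, ?_, hk2⟩
    have : (k : ℝ) ≤ n ε := by exact_mod_cast hk1
    exact this.trans (hnK ε)
  have hP2 : Tendsto (fun ε => Pr (can a (n ε) ⁻¹' S2 ε)) (𝓝[>] 0) (𝓝 0) := by
    have h1 := (sharp_path hk hc htail (K := (T₀ : ℝ) + 1) (δ := κ / 3) (by positivity)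
      (by positivity)).comp clc_tendsto_sq
    refine tendsto_of_tendsto_of_tendsto_of_le_of_le tendsto_const_nhds h1
      (fun _ => zero_le) fun ε => ?_
    refine measure_mono ?_
    rintro ω ⟨k, hk1, hk2, hk3⟩
    rw [clc_T_can hk hk1] at hk2
    refine ⟨k, hk2, ?_⟩
    simp only [can, trS, min_eq_left hk1] at hk3
    exact hk3
  have hQ1 := ENNReal.tendsto_nhds_zero.1 (tendsto_P_of_Pr hk c hK0.le hnK' hS1m hP1)
    (ENNReal.ofReal (e / 3)) (ENNReal.ofReal_pos.2 (by positivity))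
  have hQ2 := ENNReal.tendsto_nhds_zero.1 (tendsto_P_of_Pr hk c hK0.le hnK' hS2m hP2)
    (ENNReal.ofReal (e / 3)) (ENNReal.ofReal_pos.2 (by positivity))
  -- smallness of ε
  set r : ℝ := min (min (1 / 2) (sg a / 2)) (min (sg a * η / 3) (η / (3 * (T₀ + 1)))) with hr
  have hr0 : 0 < r := by
    refine lt_min (lt_min (by norm_num) (by positivity)) (lt_min (by positivity) (by positivity))
  have hsmall : ∀ᶠ ε : ℝ in 𝓝[>] 0, ε ∈ Set.Ioo 0 r := Ioo_mem_nhdsGT hr0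
  filter_upwards [hmod, hQ1, hQ2, hsmall] with ε h1 h2 h3 h4
  obtain ⟨hε, hεr⟩ := h4
  have r1 : ε < 1 / 2 := hεr.trans_le ((min_le_left _ _).trans (min_le_left _ _))
  have r2 : ε < sg a / 2 := hεr.trans_le ((min_le_left _ _).trans (min_le_right _ _))
  have r3 : ε < sg a * η / 3 := hεr.trans_le ((min_le_right _ _).trans (min_le_left _ _))
  have r4 : ε < η / (3 * (T₀ + 1)) := hεr.trans_le ((min_le_right _ _).trans (min_le_right _ _))
  have hε1 : ε < 1 := by linarith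
  have hεε : ε ^ 2 ≤ ε := by nlinarith
  have q1 : ε ^ 2 / sg a ≤ 1 / 2 := by
    rw [div_le_iff₀ hg]
    linarith
  have q2 : ε ^ 2 / sg a ≤ η / 3 := by
    rw [div_le_iff₀ hg]
    linarith
  have q3 : ε * T₀ / 2 ≤ η / 3 := by
    have hT : (0 : ℝ) ≤ T₀ := T₀.2
    rw [lt_div_iff₀ (by positivity)] at r4
    nlinarith
  have hY := Y_close hk hc c hε hε1
  set Bm : Set (V.Ω ε) := {ω | ∃ s t : ℝ≥0, s ≤ T₀ + 1 ∧ t ≤ T₀ + 1 ∧ |(s : ℝ) - t| ≤ η₀ ∧
        κ / 2 < ε * |(c.S ε ⌊sg a * s / ε ^ 2⌋₊ ω : ℝ) - c.S ε ⌊sg a * t / ε ^ 2⌋₊ ω|} with hBm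
  have hle : V.P ε {ω | ∃ t : ℝ≥0, t ≤ T₀ ∧
      κ < |(V.Y ε ω).1 t - ε * c.S ε ⌊sg a * t / ε ^ 2⌋₊ ω|} ≤
      V.P ε (abs' (c.Z ε) (c.ξ ε) (n ε) ⁻¹' S1 ε ∪
        (abs' (c.Z ε) (c.ξ ε) (n ε) ⁻¹' S2 ε ∪ Bm)) := by
    refine measure_mono_ae ?_
    filter_upwards [hY] with ω hω
    rintro ⟨t, ht, htκ⟩
    by_contra hno
    have hno' : ω ∉ (abs' (c.Z ε) (c.ξ ε) (n ε) ⁻¹' S1 ε ∪
        (abs' (c.Z ε) (c.ξ ε) (n ε) ⁻¹' S2 ε ∪ Bm)) := hno
    rw [Set.mem_union, Set.mem_union, not_or, not_or] at hno'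
    obtain ⟨g1, g2, g3⟩ := hno'
    have g1' : ∀ k ≤ ⌊sg a * ((T₀ : ℝ) + 2) / ε ^ 2⌋₊,
        |c.T0 ε k ω - k / sg a| ≤ η₁ * (1 / ε ^ 2) := by
      intro k hk'
      by_contra hcon
      apply g1
      refine ⟨k, hk', ?_⟩
      rw [clc_T_abs c ε hk']
      exact not_le.1 hcon
    have htT : (t : ℝ) ≤ T₀ := by exact_mod_cast ht
    obtain ⟨k, hk1, hk2, hk3, hk4⟩ := clc_det (T := fun k => c.T0 ε k ω) (by simp [Chains.T0]) hg
      hε hε1 hη₁0 hη₁1 hη₁2 q1 q2 q3 t.coe_nonneg htT g1'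
    have hkn : k ≤ n ε := hk1.le
    have hsq : √(1 / ε ^ 2) = 1 / ε := by
      rw [← one_div_pow, Real.sqrt_sq (by positivity)]
    have hlow : ¬ low true (mis (c.Z ε k ω)) ((c.S ε k ω : ℝ) - κ / 3 * (1 / ε)) := by
      intro hl
      apply g2
      refine ⟨k, hkn, ?_, ?_⟩
      · rw [clc_T_abs c ε hkn]
        refine hk2.trans ?_
        have h6 : (1 - ε / 2) * ((t : ℝ) / ε ^ 2) ≤ (t : ℝ) / ε ^ 2 := by
          have : (0 : ℝ) ≤ (t : ℝ) / ε ^ 2 := by positivity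
          nlinarith
        refine h6.trans ?_
        rw [div_eq_mul_one_div]
        exact mul_le_mul_of_nonneg_right (by linarith) (by positivity)
      · simp only [abs', trS, min_eq_left hkn]
        rw [hsq]
        exact hl
    have hYk := hω k t (κ / 3 * (1 / ε)) hk2 hk3 hlow
    have hs0 : 0 ≤ k * ε ^ 2 / sg a := by positivity
    set s : ℝ≥0 := ⟨k * ε ^ 2 / sg a, hs0⟩ with hs
    have hsv : (s : ℝ) = k * ε ^ 2 / sg a := rfl
    have hfl : ⌊sg a * (s : ℝ) / ε ^ 2⌋₊ = k := by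
      have : sg a * (s : ℝ) / ε ^ 2 = k := by
        rw [hsv]
        field_simp
      rw [this, Nat.floor_natCast]
    have hS : ¬ κ / 2 < ε * |(c.S ε k ω : ℝ) - c.S ε ⌊sg a * t / ε ^ 2⌋₊ ω| := by
      intro hcon
      apply g3
      refine ⟨s, t, ?_, ht.trans (by simp), ?_, ?_⟩
      · rw [← NNReal.coe_le_coe, hsv]
        push_cast
        have := (abs_le.1 hk4).2
        have hη1 : η ≤ 1 := min_le_right _ _
        linarith
      · rw [hsv]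
        exact hk4.trans (min_le_left _ _)
      · rw [hfl]
        exact hcon
    rw [not_lt] at hS
    have h7 : ε * (κ / 3 * (1 / ε)) = κ / 3 := by field_simp
    rw [h7] at hYk
    have h8 : |(V.Y ε ω).1 t - ε * c.S ε ⌊sg a * t / ε ^ 2⌋₊ ω| ≤
        |(V.Y ε ω).1 t - ε * c.S ε k ω| +
          |ε * ((c.S ε k ω : ℝ) - c.S ε ⌊sg a * t / ε ^ 2⌋₊ ω)| := by
      have e3 : (V.Y ε ω).1 t - ε * c.S ε ⌊sg a * t / ε ^ 2⌋₊ ω =
          ((V.Y ε ω).1 t - ε * c.S ε k ω) +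
            ε * ((c.S ε k ω : ℝ) - c.S ε ⌊sg a * t / ε ^ 2⌋₊ ω) := by ring
      rw [e3]
      exact abs_add_le _ _
    rw [abs_mul, abs_of_pos hε] at h8
    linarith
  refine hle.trans (le_trans ?_ he)
  calc V.P ε (abs' (c.Z ε) (c.ξ ε) (n ε) ⁻¹' S1 ε ∪
        (abs' (c.Z ε) (c.ξ ε) (n ε) ⁻¹' S2 ε ∪ Bm))
      ≤ V.P ε (abs' (c.Z ε) (c.ξ ε) (n ε) ⁻¹' S1 ε) +
        (V.P ε (abs' (c.Z ε) (c.ξ ε) (n ε) ⁻¹' S2 ε) + V.P ε Bm) :=
        (measure_union_le _ _).trans (add_le_add le_rfl (measure_union_le _ _))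
    _ ≤ ENNReal.ofReal (e / 3) + (ENNReal.ofReal (e / 3) + ENNReal.ofReal (e / 3)) :=
        add_le_add h2 (add_le_add h3 h1)
    _ = ENNReal.ofReal e := by
        rw [← ENNReal.ofReal_add (by positivity) (by positivity),
          ← ENNReal.ofReal_add (by positivity) (by positivity)]
        congr 1
        ring

end H40.VM
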