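import Pool.Agent.H40.VM.SHP
import Pool.Agent.H40.VM.EG

/-!
# Module DD: the number of misplaced particles along the path (centred kernels, no tail condition)

* `no_hit`: `Chain.super_hit` with `S = {m | lam ≤ no true m (a₀ - z)}`, `A = Vf 3 a₀ z / (lam z³)`,
  `B = (4 sg Vf 1 a₀ z + 2 c3 a z) / (lam z³)`, `D = 2 sg² / (lam z³)`: the generator inequalities are
  those of `no_le3` (module SB), `1 ≤ A` on `S` by `pow_mul_no_le`, and `Vf p a₀ z m = 0`
  (`Vf_eq_zero`).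
* `c3_div_sq`: `c3 a z / z² = ∑_n a(-n) n min(n,z)³/z²`, terms bounded by `a(-n) n²` and tending to
  zero (dominated convergence for series, `tendsto_tsum_of_dominated_convergence`).
* `dd_path`: blocks of length `η n` exactly as in `sharp_path` (module SHP), with `low ..` in part (c)
  replaced by `κ/4 √n ≤ no (Y k) (cc (X_{s_i}) - x₂)` and `ff` replaced by `no_hit` with
  `t = η n`, `z = δ √n`, `lam = κ/4 √n` (`δ := κ/8` say): each block costs
  `2 sg² η²/(κ δ³/4) + o(1)`, and there are at most `K/η + 1` blocks, so the total is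
  `O(η) + o(1)`. On the good event, `dd (Y k) ≤ no (Y k) b + (cc (Y k) - b)` with
  `b = cc (X_{s_i}) - x₂` (the ones left of the centre are the ones at sites `≤ b` and at most
  `cc (Y k) - 1 - b + 1` others), `cc (Y k) - cc (X_{s_i}) ≤ κ/4 √n` by `modulus`.
-/

open MeasureTheory ProbabilityTheory Filter Topology
open scoped ENNReal NNReal unitInterval symmDiff

namespace H40.VM

open H40.Voter (IsKernel)

variable {a : ℤ → ℝ}

theorem no_hit (hk : IsKernel a) (hc : mn a = 0) (a₀ : ℤ) {z : ℝ} (hz : 0 < z) {m : St}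
    (hm : ∀ i < a₀, cf true m i = false) {t lam : ℝ} (ht : 0 ≤ t) (hl : 0 < lam) :
    Pr {ω | ∃ k, (vc a true).T k m ω ≤ t ∧
      lam ≤ (no true ((vc a true).Y k m ω) ((a₀ : ℝ) - z) : ℝ)} ≤
      ENNReal.ofReal ((2 * sg a ^ 2 * t ^ 2 + 2 * c3 a z * t) / (lam * z ^ 3)) := by
  have hsg := sb_sg_nonneg hk
  have hc3 := c3_nonneg hk hz.le
  have hz3 : 0 < z ^ 3 := pow_pos hz 3
  set c : ℝ := 1 / (lam * z ^ 3) with hcdef
  have hc0 : 0 < c := by positivity
  have hB : ∀ x, 0 ≤ 4 * sg a * Vf 1 a₀ z x + 2 * c3 a z := fun x => by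
    have := Vf_nonneg 1 a₀ hz x
    positivity
  have hA1 : ∀ x, ∫⁻ u, ENNReal.ofReal (Vf 3 a₀ z ((vc a true).Φ x u)) ≤
      ENNReal.ofReal (Vf 3 a₀ z x + (4 * sg a * Vf 1 a₀ z x + 2 * c3 a z) / (vc a true).q x) := by
    intro x
    rw [lintegral_ofReal_Φ hk (tot_true_pos hk x) (fun y => Vf_nonneg 3 a₀ hz y)
      (summable_rt_Vf hk (by norm_num) a₀ hz x), q_true hk]
    refine ENNReal.ofReal_le_ofReal ?_
    have := div_le_div_of_nonneg_right (gn_V3 hk hc a₀ hz x) (tot_true_pos hk x).le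
    linarith
  have hB1 : ∀ x, ∫⁻ u, ENNReal.ofReal (4 * sg a * Vf 1 a₀ z ((vc a true).Φ x u) +
      2 * c3 a z) ≤ ENNReal.ofReal (4 * sg a * Vf 1 a₀ z x + 2 * c3 a z +
        2 * (2 * sg a ^ 2) / (vc a true).q x) := by
    intro x
    have htot := tot_true_pos hk x
    have hs : Summable fun j : ℤ => rt a true x j *
        (4 * sg a * Vf 1 a₀ z (fl x j) + 2 * c3 a z) := by
      refine (((summable_rt_Vf hk one_pos a₀ hz x).mul_left (4 * sg a)).add
        ((summable_rt hk true x).mul_right (2 * c3 a z))).congr fun j => ?_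
      ring
    rw [lintegral_ofReal_Φ (f := fun y => 4 * sg a * Vf 1 a₀ z y + 2 * c3 a z) hk htot hB hs,
      q_true hk]
    refine ENNReal.ofReal_le_ofReal ?_
    have e : gn a true (fun y => 4 * sg a * Vf 1 a₀ z y + 2 * c3 a z) x =
        4 * sg a * gn a true (Vf 1 a₀ z) x := by
      unfold gn
      rw [← tsum_mul_left]
      refine tsum_congr fun j => ?_
      ring
    rw [e]
    have h1 := mul_le_mul_of_nonneg_left (gn_V1 hk hc a₀ hz x)
      (by positivity : (0 : ℝ) ≤ 4 * sg a)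
    have h2 := div_le_div_of_nonneg_right h1 htot.le
    have e2 : 2 * (2 * sg a ^ 2) = 4 * sg a * sg a := by ring
    rw [e2]
    linarith
  have hsup := (vc a true).super_hit
    (S := {x : St | lam ≤ (no true x ((a₀ : ℝ) - z) : ℝ)})
    (A := fun x => c * Vf 3 a₀ z x)
    (B := fun x => c * (4 * sg a * Vf 1 a₀ z x + 2 * c3 a z)) (D := c * (2 * sg a ^ 2))
    (fun x => mul_nonneg hc0.le (Vf_nonneg 3 a₀ hz x)) (fun x => mul_nonneg hc0.le (hB x))
    (by positivity)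
    (fun x hx => by
      have hx' : lam ≤ (no true x ((a₀ : ℝ) - z) : ℝ) := hx
      have h1 := pow_mul_no_le (p := 3) (by norm_num) a₀ hz x
      have h2 : lam * z ^ 3 ≤ Vf 3 a₀ z x := by
        refine le_trans ?_ h1
        rw [mul_comm]
        exact mul_le_mul_of_nonneg_left hx' hz3.le
      rw [hcdef, one_div, inv_mul_eq_div, le_div_iff₀ (by positivity), one_mul]
      exact h2)
    (fun x _ => by
      have e1 : ∀ u, ENNReal.ofReal (c * Vf 3 a₀ z ((vc a true).Φ x u)) =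
          ENNReal.ofReal c * ENNReal.ofReal (Vf 3 a₀ z ((vc a true).Φ x u)) := fun u =>
        ENNReal.ofReal_mul hc0.le
      rw [lintegral_congr e1, lintegral_const_mul' _ _ ENNReal.ofReal_ne_top]
      refine (mul_le_mul_right (hA1 x) _).trans (le_of_eq ?_)
      rw [← ENNReal.ofReal_mul hc0.le]
      congr 1
      ring)
    (fun x _ => by
      have e1 : ∀ u, ENNReal.ofReal (c * (4 * sg a * Vf 1 a₀ z ((vc a true).Φ x u) +
          2 * c3 a z)) = ENNReal.ofReal c *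
          ENNReal.ofReal (4 * sg a * Vf 1 a₀ z ((vc a true).Φ x u) + 2 * c3 a z) := fun u =>
        ENNReal.ofReal_mul hc0.le
      rw [lintegral_congr e1, lintegral_const_mul' _ _ ENNReal.ofReal_ne_top]
      refine (mul_le_mul_right (hB1 x) _).trans (le_of_eq ?_)
      rw [← ENNReal.ofReal_mul hc0.le]
      congr 1
      ring) ht m
  refine hsup.trans (ENNReal.ofReal_le_ofReal (le_of_eq ?_))
  rw [Vf_eq_zero (by norm_num) a₀ hz hm, Vf_eq_zero one_pos a₀ hz hm, hcdef]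
  field_simp
  ring

theorem c3_div_sq (hk : IsKernel a) : Tendsto (fun z : ℝ => c3 a z / z ^ 2) atTop (𝓝 0) := by
  have hinj : Function.Injective (fun n : ℕ => -(n : ℤ)) := by
    intro x y hxy
    simpa using hxy
  have hbs : Summable fun n : ℕ => a (-(n : ℤ)) * (n : ℝ) ^ 2 := by
    refine (hk.second_moment.comp_injective hinj).congr fun n => ?_
    simp only [Function.comp]
    push_cast
    ring
  have h0 : Tendsto (fun z : ℝ => ∑' n : ℕ, a (-(n : ℤ)) * n * (min (n : ℝ) z) ^ 3 / z ^ 2)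
      atTop (𝓝 (∑' _ : ℕ, (0 : ℝ))) := by
    refine tendsto_tsum_of_dominated_convergence hbs (fun n => ?_) ?_
    · have h1 : Tendsto (fun z : ℝ => a (-(n : ℤ)) * n * (n : ℝ) ^ 3 / z ^ 2) atTop (𝓝 0) :=
        Tendsto.div_atTop tendsto_const_nhds (tendsto_pow_atTop (by norm_num))
      refine h1.congr' ?_
      filter_upwards [eventually_ge_atTop (n : ℝ)] with z hz
      rw [min_eq_left hz]
    · filter_upwards [eventually_gt_atTop (0 : ℝ)] with z hz n
      have h1 : 0 ≤ min (n : ℝ) z := le_min (Nat.cast_nonneg n) hz.le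
      have ha := hk.nonneg (-(n : ℤ))
      have h2 : (min (n : ℝ) z) ^ 3 ≤ (n : ℝ) * z ^ 2 := by
        have e : (min (n : ℝ) z) ^ 3 = min (n : ℝ) z * (min (n : ℝ) z) ^ 2 := by ring
        rw [e]
        exact mul_le_mul (min_le_left _ _) (pow_le_pow_left₀ h1 (min_le_right _ _) 2)
          (sq_nonneg _) (Nat.cast_nonneg n)
      have h3 : 0 ≤ a (-(n : ℤ)) * n * (min (n : ℝ) z) ^ 3 / z ^ 2 := by positivity
      rw [Real.norm_eq_abs, abs_of_nonneg h3, div_le_iff₀ (by positivity)]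
      calc a (-(n : ℤ)) * n * (min (n : ℝ) z) ^ 3 ≤ a (-(n : ℤ)) * n * ((n : ℝ) * z ^ 2) :=
            mul_le_mul_of_nonneg_left h2 (by positivity)
        _ = _ := by ring
  rw [tsum_zero] at h0
  refine h0.congr fun z => ?_
  unfold c3
  rw [tsum_div_const]

lemma dd_no_mono {b : Bool} {m : St} {r r' : ℝ} (hr : r ≤ r') : no b m r ≤ no b m r' := by
  unfold no
  refine Set.ncard_le_ncard ?_ (no_finite b m r')
  rintro i ⟨h1, h2⟩
  exact ⟨h1.trans hr, h2⟩

/-- the ones left of the centre -/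
lemma dd_le_no (m : St) (b : ℝ) : dd m ≤ (no true m b : ℝ) + max 0 ((cc m : ℝ) - b) := by
  unfold dd
  rcases le_or_gt ((cc m : ℝ) - 1) b with h | h
  · have h1 : (no true m ((cc m : ℝ) - 1) : ℝ) ≤ no true m b := by exact_mod_cast dd_no_mono h
    have h2 := le_max_left (0 : ℝ) ((cc m : ℝ) - b)
    linarith
  · have hfl : ⌊b⌋ ≤ cc m - 1 := by
      have h1 : ((⌊b⌋ : ℤ) : ℝ) ≤ b := Int.floor_le b
      have h2 : ((⌊b⌋ : ℤ) : ℝ) ≤ ((cc m - 1 : ℤ) : ℝ) := by push_cast; linarith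
      exact_mod_cast h2
    have h1 : no true m ((cc m : ℝ) - 1) ≤ no true m b + (cc m - 1 - ⌊b⌋).toNat := by
      unfold no
      have hsub : {i : ℤ | (i : ℝ) ≤ (cc m : ℝ) - 1 ∧ cf true m i = true} ⊆
          {i : ℤ | (i : ℝ) ≤ b ∧ cf true m i = true} ∪
            (↑(Finset.Ioc ⌊b⌋ (cc m - 1)) : Set ℤ) := by
        rintro i ⟨h1, h2⟩
        by_cases h3 : (i : ℝ) ≤ b
        · exact Or.inl ⟨h3, h2⟩
        · right
          rw [Finset.coe_Ioc, Set.mem_Ioc]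
          refine ⟨Int.floor_lt.2 (not_le.1 h3), ?_⟩
          have h4 : (i : ℝ) ≤ ((cc m - 1 : ℤ) : ℝ) := by push_cast; exact h1
          exact_mod_cast h4
      refine (Set.ncard_le_ncard hsub ((no_finite true m b).union
        (Finset.finite_toSet _))).trans ?_
      refine (Set.ncard_union_le _ _).trans (le_of_eq ?_)
      rw [Set.ncard_coe_finset, Int.card_Ioc]
    have h2 : (((cc m - 1 - ⌊b⌋).toNat : ℕ) : ℝ) = (cc m : ℝ) - 1 - ⌊b⌋ := by
      have h3 : (((cc m - 1 - ⌊b⌋).toNat : ℕ) : ℤ) = cc m - 1 - ⌊b⌋ :=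
        Int.toNat_of_nonneg (by omega)
      have h4 : ((((cc m - 1 - ⌊b⌋).toNat : ℕ) : ℤ) : ℝ) = ((cc m - 1 - ⌊b⌋ : ℤ) : ℝ) := by
        rw [h3]
      rw [Int.cast_natCast] at h4
      rw [h4]
      push_cast
      ring
    have h3 : (no true m ((cc m : ℝ) - 1) : ℝ) ≤ (no true m b : ℝ) +
        (((cc m - 1 - ⌊b⌋).toNat : ℕ) : ℝ) := by exact_mod_cast h1
    rw [h2] at h3
    have h4 := Int.lt_floor_add_one b
    have h5 := le_max_right (0 : ℝ) ((cc m : ℝ) - b)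
    linarith

/-- the bound for one block -/
noncomputable def ddF (a : ℤ → ℝ) (t z lam : ℝ) : ℝ≥0∞ :=
  ENNReal.ofReal ((2 * sg a ^ 2 * t ^ 2 + 2 * c3 a z * t) / (lam * z ^ 3))

/-- conditional estimate on one block -/
lemma dd_block (hk : IsKernel a) (hc : mn a = 0) {s u x₁ x₂ lam : ℝ} (hs : 0 ≤ s) (hu : 0 ≤ u)
    (hx : x₁ < x₂) (hl : 0 < lam) :
    Pr {ω | ¬ low true ((vc a true).X s ∅ ω) ((cc ((vc a true).X s ∅ ω) : ℝ) - x₁) ∧
      ∃ k, (vc a true).T k ((vc a true).X s ∅ ω) ((vc a true).θ s ∅ ω) ≤ u ∧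
        lam ≤ (no true ((vc a true).Y k ((vc a true).X s ∅ ω) ((vc a true).θ s ∅ ω))
          ((cc ((vc a true).X s ∅ ω) : ℝ) - x₂) : ℝ)} ≤ ddF a u (x₂ - x₁) lam := by
  set C := vc a true with hCdef
  have hC : C.NE := ne_true hk
  set A : Set (St × Om) := {p | ¬ low true p.1 ((cc p.1 : ℝ) - x₁) ∧ ∃ k, C.T k p.1 p.2 ≤ u ∧
      lam ≤ (no true (C.Y k p.1 p.2) ((cc p.1 : ℝ) - x₂) : ℝ)} with hA
  have hAm : MeasurableSet A := by
    have h1 : MeasurableSet {p : St × Om | ¬ low true p.1 ((cc p.1 : ℝ) - x₁)} :=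
      measurable_fst (MeasurableSet.of_discrete (s := {m : St | ¬ low true m ((cc m : ℝ) - x₁)}))
    have h2 : ∀ k, MeasurableSet {p : St × Om | C.T k p.1 p.2 ≤ u} := fun k =>
      measurableSet_le (C.measurable_T k) measurable_const
    have h3 : ∀ k, MeasurableSet {p : St × Om |
        lam ≤ (no true (C.Y k p.1 p.2) ((cc p.1 : ℝ) - x₂) : ℝ)} := by
      intro k
      have h4 : Measurable fun p : St × Om => (C.Y k p.1 p.2, p.1) :=
        (C.measurable_Y k).prodMk measurable_fst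
      exact h4 ((Set.to_countable {q : St × St |
        lam ≤ (no true q.1 ((cc q.2 : ℝ) - x₂) : ℝ)}).measurableSet)
    have h5 : A = {p : St × Om | ¬ low true p.1 ((cc p.1 : ℝ) - x₁)} ∩
        ⋃ k, ({p : St × Om | C.T k p.1 p.2 ≤ u} ∩
          {p : St × Om | lam ≤ (no true (C.Y k p.1 p.2) ((cc p.1 : ℝ) - x₂) : ℝ)}) := by
      ext p
      simp [hA]
    rw [h5]
    exact h1.inter (MeasurableSet.iUnion fun k => (h2 k).inter (h3 k))
  have hmeas : Measurable fun ω : Om => (C.X s ∅ ω, C.θ s ∅ ω) :=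
    (C.measurable_Xx s ∅).prodMk (C.measurable_θ s ∅)
  have h1 := C.lintegral_restart hC ∅ hs (Z := fun ω => C.X s ∅ ω) (C.measurable_Xx s ∅)
    (C.past_X s ∅) (H := A.indicator 1) (measurable_one.indicator hAm)
  have h2 : ∫⁻ ω, A.indicator (1 : St × Om → ℝ≥0∞) (C.X s ∅ ω, C.θ s ∅ ω) ∂Pr =
      Pr {ω | (C.X s ∅ ω, C.θ s ∅ ω) ∈ A} :=
    lintegral_indicator_one (μ := Pr) (hmeas hAm)
  rw [h2] at h1
  change Pr {ω | (C.X s ∅ ω, C.θ s ∅ ω) ∈ A} ≤ _
  rw [h1]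
  have h3 : ∀ m : St, ∫⁻ ω', A.indicator (1 : St × Om → ℝ≥0∞) (m, ω') ∂Pr ≤
      ddF a u (x₂ - x₁) lam := by
    intro m
    have hm : Measurable fun ω' : Om => (m, ω') := measurable_const.prodMk measurable_id
    have h4 : ∫⁻ ω', A.indicator (1 : St × Om → ℝ≥0∞) (m, ω') ∂Pr = Pr {ω' | (m, ω') ∈ A} :=
      lintegral_indicator_one (μ := Pr) (hm hAm)
    rw [h4]
    by_cases hlow : low true m ((cc m : ℝ) - x₁)
    · have : {ω' : Om | (m, ω') ∈ A} = ∅ := by
        ext ω'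
        simp [hA, hlow]
      rw [this, measure_empty]
      exact zero_le
    · have hz : ∀ i < ⌊(cc m : ℝ) - x₁⌋ + 1, cf true m i = false := by
        intro i hi
        by_contra hcf
        apply hlow
        refine ⟨i, ?_, by simpa using hcf⟩
        have : i ≤ ⌊(cc m : ℝ) - x₁⌋ := by omega
        exact Int.le_floor.1 this
      refine (measure_mono ?_).trans (no_hit hk hc (⌊(cc m : ℝ) - x₁⌋ + 1)
        (z := x₂ - x₁) (by linarith) hz hu hl)
      rintro ω' ⟨_, k, h5, h6⟩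
      refine ⟨k, h5, h6.trans ?_⟩
      have h7 : no true (C.Y k m ω') ((cc m : ℝ) - x₂) ≤ no true (C.Y k m ω')
          (((⌊(cc m : ℝ) - x₁⌋ + 1 : ℤ) : ℝ) - (x₂ - x₁)) := by
        apply dd_no_mono
        have := Int.lt_floor_add_one ((cc m : ℝ) - x₁)
        push_cast
        linarith
      exact_mod_cast h7
  calc ∫⁻ ω, ∫⁻ ω', A.indicator (1 : St × Om → ℝ≥0∞) (C.X s ∅ ω, ω') ∂Pr ∂Pr
      ≤ ∫⁻ _, ddF a u (x₂ - x₁) lam ∂Pr := lintegral_mono fun ω => h3 _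
    _ = _ := by rw [lintegral_const, measure_univ, mul_one]

/-- the initial block -/
lemma dd_block0 (hk : IsKernel a) (hc : mn a = 0) {u z lam : ℝ} (hu : 0 ≤ u) (hz : 0 < z)
    (hl : 0 < lam) :
    Pr {ω | ∃ k, (vc a true).T k ∅ ω ≤ u ∧
      lam ≤ (no true ((vc a true).Y k ∅ ω) (0 - z) : ℝ)} ≤ ddF a u z lam := by
  have h := no_hit hk hc 0 hz (m := ∅) (fun i hi => by
    unfold cf bs
    simp
    omega) hu hl
  unfold ddF
  simpa using h

/-- the deterministic part -/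
lemma dd_incl {n η ηm δ K β g : ℝ} {M : ℕ} (hn : 0 < n) (hη : 0 < η) (hδ : 0 < δ)
    (hM : K / η ≤ M) (hM' : (M : ℝ) * η ≤ K + 1) (hK : 0 < K) (hβ0 : 0 < β) (hβ1 : β ≤ 1)
    (hg : 0 < g) (h1 : g * η ≤ ηm / 2) (h2 : 2 * β * (K + 1) ≤ ηm / 2)
    {ω : Om} (hω : ∀ t, ∃ k, t < (vc a true).T k ∅ ω)
    (hb : ¬ ∃ i j : ℕ, (i : ℝ) ≤ (g + 1) * (K + 1) * n ∧ (j : ℝ) ≤ (g + 1) * (K + 1) * n ∧
      |(i : ℝ) - j| ≤ ηm * n ∧
      δ / 4 * √n < |(cc ((vc a true).Y i ∅ ω) : ℝ) - cc ((vc a true).Y j ∅ ω)|)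
    (hN : ∀ i < M, ¬ β ≤ |((vc a true).N (((i : ℝ) + 1) * η * n) ∅ ω : ℝ) /
      (((i : ℝ) + 1) * η * n) - g|)
    (h0 : ¬ ∃ k, (vc a true).T k ∅ ω ≤ η * n ∧
      δ * √n ≤ (no true ((vc a true).Y k ∅ ω) (0 - δ / 2 * √n) : ℝ))
    (hCe : ∀ i < M, ¬ ∃ k, (vc a true).T k ((vc a true).X (((i : ℝ) + 1) * η * n) ∅ ω)
        ((vc a true).θ (((i : ℝ) + 1) * η * n) ∅ ω) ≤ η * n ∧
      δ * √n ≤ (no true ((vc a true).Y k ((vc a true).X (((i : ℝ) + 1) * η * n) ∅ ω)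
        ((vc a true).θ (((i : ℝ) + 1) * η * n) ∅ ω))
        ((cc ((vc a true).X (((i : ℝ) + 1) * η * n) ∅ ω) : ℝ) - 3 * δ / 4 * √n) : ℝ)) :
    ¬ ∃ k, (vc a true).T k ∅ ω ≤ K * n ∧
      2 * δ * √n < dd ((vc a true).Y k ∅ ω) := by
  set C := vc a true with hC
  rintro ⟨k, hk1, hk2⟩
  have hs : 0 < η * n := mul_pos hη hn
  have hsn : 0 ≤ √n := Real.sqrt_nonneg n
  have hηm : 0 < ηm := by
    have : 0 < g * η := mul_pos hg hη
    linarith
  -- bounds for the numbers of jumps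
  have hNb : ∀ j : ℕ, 1 ≤ j → j ≤ M → g * (j * (η * n)) - β * (j * (η * n)) ≤
      (C.N (j * (η * n)) ∅ ω : ℝ) ∧ (C.N (j * (η * n)) ∅ ω : ℝ) ≤
      g * (j * (η * n)) + β * (j * (η * n)) := by
    intro j hj1 hjM
    obtain ⟨i, rfl⟩ : ∃ i, j = i + 1 := ⟨j - 1, by omega⟩
    have h3 := hN i (by omega)
    rw [not_le] at h3
    have e1 : ((i : ℝ) + 1) * η * n = ((i + 1 : ℕ) : ℝ) * (η * n) := by push_cast; ring
    rw [e1] at h3
    set t : ℝ := ((i + 1 : ℕ) : ℝ) * (η * n) with ht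
    have ht0 : 0 < t := by positivity
    rw [abs_lt] at h3
    have h4 : (C.N t ∅ ω : ℝ) = ((C.N t ∅ ω : ℝ) / t) * t := by field_simp
    constructor
    · rw [h4]
      nlinarith [h3.1]
    · rw [h4]
      nlinarith [h3.2]
  have hMs : (M : ℝ) * (η * n) ≤ (K + 1) * n := by
    calc (M : ℝ) * (η * n) = (M * η) * n := by ring
      _ ≤ (K + 1) * n := mul_le_mul_of_nonneg_right hM' hn.le
  have hjs : ∀ j : ℕ, j ≤ M → (j : ℝ) * (η * n) ≤ (K + 1) * n := by
    intro j hj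
    refine le_trans (mul_le_mul_of_nonneg_right ?_ hs.le) hMs
    exact_mod_cast hj
  have hNK : ∀ j : ℕ, 1 ≤ j → j ≤ M →
      (C.N (j * (η * n)) ∅ ω : ℝ) ≤ (g + 1) * (K + 1) * n := by
    intro j hj1 hjM
    have h3 := (hNb j hj1 hjM).2
    have h4 := hjs j hjM
    have h5 : 0 ≤ (j : ℝ) * (η * n) := by positivity
    calc (C.N (j * (η * n)) ∅ ω : ℝ) ≤ g * (j * (η * n)) + β * (j * (η * n)) := h3
      _ ≤ (g + 1) * (j * (η * n)) := by nlinarith
      _ ≤ (g + 1) * ((K + 1) * n) := mul_le_mul_of_nonneg_left h4 (by linarith)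
      _ = _ := by ring
  have hinc : ∀ j : ℕ, 1 ≤ j → j + 1 ≤ M → (C.N (((j + 1 : ℕ) : ℝ) * (η * n)) ∅ ω : ℝ) -
      C.N (j * (η * n)) ∅ ω ≤ ηm * n := by
    intro j hj1 hjM
    have h3 := (hNb j hj1 (by omega)).1
    have h4 := (hNb (j + 1) (by omega) hjM).2
    have h5 := hjs j (by omega)
    have h6 := hjs (j + 1) hjM
    have h7 := mul_le_mul_of_nonneg_left h5 hβ0.le
    have h8 := mul_le_mul_of_nonneg_left h6 hβ0.le
    have h9 : g * (((j + 1 : ℕ) : ℝ) * (η * n)) - g * (j * (η * n)) = g * η * n := by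
      push_cast; ring
    have h10 := mul_le_mul_of_nonneg_right h1 hn.le
    have h11 := mul_le_mul_of_nonneg_right h2 hn.le
    linarith
  have hfirst : (C.N (η * n) ∅ ω : ℝ) ≤ ηm * n ∧ (C.N (η * n) ∅ ω : ℝ) ≤
      (g + 1) * (K + 1) * n := by
    have hM1 : 1 ≤ M := by
      have : (0 : ℝ) < M := lt_of_lt_of_le (div_pos hK hη) hM
      have : 0 < M := by exact_mod_cast this
      omega
    have h3 := (hNb 1 le_rfl hM1).2
    have h4 := hNK 1 le_rfl hM1
    have h5 := hjs 1 hM1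
    simp only [Nat.cast_one, one_mul] at h3 h4 h5
    refine ⟨?_, h4⟩
    have h7 := mul_le_mul_of_nonneg_left h5 hβ0.le
    have h10 := mul_le_mul_of_nonneg_right h1 hn.le
    have h11 := mul_le_mul_of_nonneg_right h2 hn.le
    have h12 : 0 ≤ β * ((K + 1) * n) := by positivity
    linarith
  -- index of a jump time
  have hle : ∀ t : ℝ, 0 ≤ t → C.T k ∅ ω ≤ t → k ≤ C.N t ∅ ω := by
    intro t ht0 hkt
    by_contra hcon
    have h3 := ((C.N_eq_iff ht0 (hω t)).1 rfl).2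
    have h4 : C.T (C.N t ∅ ω + 1) ∅ ω ≤ C.T k ∅ ω := C.T_mono ∅ ω (by omega)
    linarith
  rcases le_or_gt (C.T k ∅ ω) (η * n) with hcase | hcase
  · have hkN := hle _ hs.le hcase
    have hkN' : (k : ℝ) ≤ C.N (η * n) ∅ ω := by exact_mod_cast hkN
    apply h0
    refine ⟨k, hcase, ?_⟩
    have h3 : ¬ δ / 4 * √n < |(cc (C.Y k ∅ ω) : ℝ) - cc (C.Y 0 ∅ ω)| := by
      intro hlt
      refine hb ⟨k, 0, hkN'.trans hfirst.2, ?_, ?_, hlt⟩
      · simp only [Nat.cast_zero]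
        positivity
      · simp only [Nat.cast_zero, sub_zero]
        rw [abs_of_nonneg (Nat.cast_nonneg k)]
        exact hkN'.trans hfirst.1
    rw [not_lt, Chain.Y_zero, shp_cc_empty, Int.cast_zero, sub_zero] at h3
    have h4 := (abs_le.1 h3).2
    have h5 : 0 ≤ δ * √n := by positivity
    have h6 := dd_le_no (C.Y k ∅ ω) (0 - δ / 2 * √n)
    have h7 : max 0 ((cc (C.Y k ∅ ω) : ℝ) - (0 - δ / 2 * √n)) ≤ δ * √n :=
      max_le h5 (by linarith)
    linarith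
  · set s : ℝ := η * n with hsdef
    set i : ℕ := ⌈C.T k ∅ ω / s⌉₊ - 1 with hi
    have hr1 : 1 < C.T k ∅ ω / s := by rw [lt_div_iff₀ hs]; linarith
    have hc2 : 1 < ⌈C.T k ∅ ω / s⌉₊ := by
      rw [Nat.lt_ceil]
      simpa using hr1
    have hi1 : 1 ≤ i := by omega
    have hiM : i + 1 ≤ M := by
      have : ⌈C.T k ∅ ω / s⌉₊ ≤ M := by
        rw [Nat.ceil_le]
        refine le_trans ?_ hM
        rw [div_le_div_iff₀ hs hη]
        calc C.T k ∅ ω * η ≤ K * n * η := mul_le_mul_of_nonneg_right hk1 hη.le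
          _ = K * s := by rw [hsdef]; ring
      omega
    have hlow : (i : ℝ) * s < C.T k ∅ ω := by
      have : i < ⌈C.T k ∅ ω / s⌉₊ := by omega
      rw [Nat.lt_ceil, lt_div_iff₀ hs] at this
      exact this
    have hup : C.T k ∅ ω ≤ ((i + 1 : ℕ) : ℝ) * s := by
      have : C.T k ∅ ω / s ≤ ((⌈C.T k ∅ ω / s⌉₊ : ℕ) : ℝ) := Nat.le_ceil _
      rw [div_le_iff₀ hs] at this
      have e : ⌈C.T k ∅ ω / s⌉₊ = i + 1 := by omega
      rwa [e] at this
    obtain ⟨i', hi'⟩ : ∃ i', i = i' + 1 := ⟨i - 1, by omega⟩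
    have his : 0 ≤ (i : ℝ) * s := by positivity
    have hNi : C.T (C.N (i * s) ∅ ω) ∅ ω ≤ i * s := ((C.N_eq_iff his (hω _)).1 rfl).1
    have hkgt : C.N (i * s) ∅ ω < k := by
      by_contra hcon
      have : C.T k ∅ ω ≤ C.T (C.N (i * s) ∅ ω) ∅ ω := C.T_mono ∅ ω (not_lt.1 hcon)
      linarith
    obtain ⟨j, hj⟩ : ∃ j, k = C.N (i * s) ∅ ω + (j + 1) :=
      ⟨k - C.N (i * s) ∅ ω - 1, by omega⟩
    have hkN : k ≤ C.N (((i + 1 : ℕ) : ℝ) * s) ∅ ω := hle _ (by positivity) hup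
    have hkN' : (k : ℝ) ≤ C.N (((i + 1 : ℕ) : ℝ) * s) ∅ ω := by exact_mod_cast hkN
    have hNk' : (C.N (i * s) ∅ ω : ℝ) ≤ k := by exact_mod_cast hkgt.le
    have h3 : ¬ δ / 4 * √n < |(cc (C.Y k ∅ ω) : ℝ) - cc (C.Y (C.N (i * s) ∅ ω) ∅ ω)| := by
      intro hlt
      refine hb ⟨k, C.N (i * s) ∅ ω, hkN'.trans (hNK (i + 1) (by omega) hiM),
        hNk'.trans (hkN'.trans (hNK (i + 1) (by omega) hiM)), ?_, hlt⟩
      rw [abs_of_nonneg (by linarith)]
      have := hinc i hi1 hiM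
      linarith
    rw [not_lt] at h3
    have h4 := (abs_le.1 h3).2
    have hT := C.T_restart his ∅ ω (hω _) j
    rw [← hj] at hT
    have hY := C.Y_restart (i * s) ∅ ω (j + 1)
    rw [← hj] at hY
    have e2 : ((i' : ℝ) + 1) * η * n = i * s := by rw [hi', hsdef]; push_cast; ring
    have h5 := hCe i' (by omega)
    rw [e2] at h5
    apply h5
    refine ⟨j + 1, ?_, ?_⟩
    · have e3 : ((i + 1 : ℕ) : ℝ) * s = i * s + s := by push_cast; ring
      rw [e3] at hup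
      linarith
    · rw [← hY]
      have e4 : C.X (i * s) ∅ ω = C.Y (C.N (i * s) ∅ ω) ∅ ω := rfl
      rw [e4]
      have h50 : 0 ≤ δ * √n := by positivity
      have h6 := dd_le_no (C.Y k ∅ ω)
        ((cc (C.Y (C.N (i * s) ∅ ω) ∅ ω) : ℝ) - 3 * δ / 4 * √n)
      have h7 : max 0 ((cc (C.Y k ∅ ω) : ℝ) -
          ((cc (C.Y (C.N (i * s) ∅ ω) ∅ ω) : ℝ) - 3 * δ / 4 * √n)) ≤ δ * √n :=
        max_le h50 (by linarith)
      linarith

theorem dd_path (hk : IsKernel a) (hc : mn a = 0) {K κ : ℝ} (hK : 0 < K) (hκ : 0 < κ) :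
    Tendsto (fun n : ℝ => Pr {ω | ∃ k, (vc a true).T k ∅ ω ≤ K * n ∧
      κ * √n < dd ((vc a true).Y k ∅ ω)}) atTop (𝓝 0) := by
  set C := vc a true with hCdef
  have hg : 0 < sg a := sg_pos hk
  obtain ⟨δ, hδdef⟩ : ∃ δ : ℝ, δ = κ / 2 := ⟨_, rfl⟩
  have hδ : 0 < δ := by rw [hδdef]; positivity
  have hκδ : κ = 2 * δ := by rw [hδdef]; ring
  rw [hκδ]
  refine ENNReal.tendsto_nhds_zero.2 fun ε hε => ?_
  obtain ⟨e, he0, he⟩ : ∃ e : ℝ, 0 < e ∧ ENNReal.ofReal e ≤ ε := by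
    by_cases h : ε = ⊤
    · exact ⟨1, one_pos, by rw [h]; exact le_top⟩
    · exact ⟨ε.toReal, ENNReal.toReal_pos hε.ne' h, (ENNReal.ofReal_toReal h).le⟩
  obtain ⟨ηm, hηm, hmod⟩ := modulus hk hc ∅ (κ := δ / 4) (K := (sg a + 1) * (K + 1))
    (δ := e / 4) (by positivity) (by positivity) (by positivity)
  -- the mesh
  set r : ℝ := e * δ ^ 4 / (64 * sg a ^ 2 * (K + 2)) with hr
  have hr0 : 0 < r := by positivity
  set η : ℝ := min 1 (min (ηm / (2 * sg a)) r) with hη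
  have hη0 : 0 < η := lt_min one_pos (lt_min (by positivity) (by positivity))
  have hη1 : η ≤ 1 := min_le_left _ _
  have hηg : sg a * η ≤ ηm / 2 := by
    have h1 : η ≤ ηm / (2 * sg a) := (min_le_right _ _).trans (min_le_left _ _)
    rw [le_div_iff₀ (by positivity)] at h1
    linarith
  have hηr : η ≤ r := (min_le_right _ _).trans (min_le_right _ _)
  set β : ℝ := min 1 (ηm / (4 * (K + 1))) with hβ
  have hβ0 : 0 < β := lt_min one_pos (by positivity)
  have hβ1 : β ≤ 1 := min_le_left _ _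
  have hβ2 : 2 * β * (K + 1) ≤ ηm / 2 := by
    have h1 : β ≤ ηm / (4 * (K + 1)) := min_le_right _ _
    rw [le_div_iff₀ (by positivity)] at h1
    linarith
  set M : ℕ := ⌈K / η⌉₊ with hM
  have hM1 : K / η ≤ M := Nat.le_ceil _
  have hM2 : (M : ℝ) < K / η + 1 := Nat.ceil_lt_add_one (by positivity)
  have hMη : (M : ℝ) * η ≤ K + 1 := by
    have h1 := mul_le_mul_of_nonneg_right hM2.le hη0.le
    have h2 : (K / η + 1) * η = K + η := by field_simp
    linarith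
  have hM3 : ((M : ℝ) + 1) * η ≤ K + 2 := by linarith
  have hMpos : (0 : ℝ) < M := lt_of_lt_of_le (div_pos hK hη0) hM1
  set δ' : ℝ := δ / (4 * √(M * η)) with hδ'
  have hMη0 : 0 < √((M : ℝ) * η) := Real.sqrt_pos.2 (by positivity)
  have hδ'0 : 0 < δ' := by positivity
  -- times tend to infinity
  have htime : ∀ i : ℕ, Tendsto (fun n : ℝ => ((i : ℝ) + 1) * η * n) atTop atTop := by
    intro i
    exact Tendsto.const_mul_atTop (by positivity) tendsto_id
  have hfN : Tendsto (fun n : ℝ => ∑ i ∈ Finset.range M,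
      Pr {ω | β ≤ |(C.N (((i : ℝ) + 1) * η * n) ∅ ω : ℝ) / (((i : ℝ) + 1) * η * n) - sg a|})
      atTop (𝓝 (∑ i ∈ Finset.range M, (0 : ℝ≥0∞))) :=
    tendsto_finsetSum _ fun i _ => (lln hk hc hβ0).comp (htime i)
  have hfA : Tendsto (fun n : ℝ => ∑ i ∈ Finset.range M,
      Pr {ω | low true (C.X (((i : ℝ) + 1) * η * n) ∅ ω)
        ((cc (C.X (((i : ℝ) + 1) * η * n) ∅ ω) : ℝ) - δ' * √(((i : ℝ) + 1) * η * n))})
      atTop (𝓝 (∑ i ∈ Finset.range M, (0 : ℝ≥0∞))) :=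
    tendsto_finsetSum _ fun i _ => (sharp hk hc hδ'0).comp (htime i)
  rw [Finset.sum_const_zero] at hfN hfA
  have he8 : (0 : ℝ≥0∞) < ENNReal.ofReal (e / 8) := ENNReal.ofReal_pos.2 (by positivity)
  have hevN := (ENNReal.tendsto_nhds_zero.1 hfN) _ he8
  have hevA := (ENNReal.tendsto_nhds_zero.1 hfA) _ he8
  -- the tail term
  have hz : Tendsto (fun n : ℝ => δ / 2 * √n) atTop atTop :=
    Tendsto.const_mul_atTop (by positivity) Real.tendsto_sqrt_atTop
  have htl : ∀ᶠ n : ℝ in atTop, c3 a (δ / 2 * √n) / (δ / 2 * √n) ^ 2 ≤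
      e * δ ^ 2 / (16 * (K + 2)) := by
    have h1 := (c3_div_sq hk).comp hz
    exact h1.eventually_le_const (by positivity)
  have htn : ∀ᶠ n : ℝ in atTop, 1 ≤ η * n := by
    filter_upwards [eventually_ge_atTop (1 / η)] with n hn
    rw [div_le_iff₀ hη0] at hn
    linarith
  filter_upwards [hmod, hevN, hevA, htl, htn, eventually_gt_atTop 0] with n h1 h2 h3 h4 h5 hn
  have hsn : 0 < √n := Real.sqrt_pos.2 hn
  -- the bound for the blocks
  have hblock : ((M : ℝ≥0∞) + 1) * ddF a (η * n) (δ / 2 * √n) (δ * √n) ≤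
      ENNReal.ofReal (e / 2) := by
    have h7 : ((M : ℝ≥0∞) + 1) = ENNReal.ofReal ((M : ℝ) + 1) := by
      rw [ENNReal.ofReal_add (by positivity) (by positivity)]
      simp
    rw [h7]
    unfold ddF
    rw [← ENNReal.ofReal_mul (by positivity)]
    refine ENNReal.ofReal_le_ofReal ?_
    set z : ℝ := δ / 2 * √n with hzdef
    have hz0 : 0 < z := by positivity
    have hnn : √n * √n = n := Real.mul_self_sqrt hn.le
    have e2 : (2 * sg a ^ 2 * (η * n) ^ 2 + 2 * c3 a z * (η * n)) / (δ * √n * z ^ 3) =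
        16 * sg a ^ 2 * η ^ 2 / δ ^ 4 + 4 * η / δ ^ 2 * (c3 a z / z ^ 2) := by
      have h8 : δ * √n * z ^ 3 = δ ^ 4 / 8 * n ^ 2 := by
        rw [hzdef]
        have : δ * √n * (δ / 2 * √n) ^ 3 = δ ^ 4 / 8 * ((√n * √n) * (√n * √n)) := by ring
        rw [this, hnn]
        ring
      have h9 : z ^ 2 = δ ^ 2 / 4 * n := by
        have : z ^ 2 = δ ^ 2 / 4 * (√n * √n) := by rw [hzdef]; ring
        rw [this, hnn]
      rw [h8, h9]
      field_simp
      ring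
    rw [e2, mul_add]
    have h10 : ((M : ℝ) + 1) * (16 * sg a ^ 2 * η ^ 2 / δ ^ 4) ≤ e / 4 := by
      calc ((M : ℝ) + 1) * (16 * sg a ^ 2 * η ^ 2 / δ ^ 4) =
            (((M : ℝ) + 1) * η) * η * (16 * sg a ^ 2 / δ ^ 4) := by ring
        _ ≤ (K + 2) * r * (16 * sg a ^ 2 / δ ^ 4) := by
            refine mul_le_mul_of_nonneg_right ?_ (by positivity)
            exact mul_le_mul hM3 hηr hη0.le (by positivity)
        _ = e / 4 := by
            rw [hr]
            field_simp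
            ring
    have h11 : ((M : ℝ) + 1) * (4 * η / δ ^ 2 * (c3 a z / z ^ 2)) ≤ e / 4 := by
      have h12 : ((M : ℝ) + 1) * (4 * η / δ ^ 2 * (c3 a z / z ^ 2)) =
          ((((M : ℝ) + 1) * η) * (4 / δ ^ 2)) * (c3 a z / z ^ 2) := by ring
      rw [h12]
      have h13 : 0 ≤ (((M : ℝ) + 1) * η) * (4 / δ ^ 2) := by positivity
      calc ((((M : ℝ) + 1) * η) * (4 / δ ^ 2)) * (c3 a z / z ^ 2) ≤
            ((((M : ℝ) + 1) * η) * (4 / δ ^ 2)) * (e * δ ^ 2 / (16 * (K + 2))) :=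
            mul_le_mul_of_nonneg_left h4 h13
        _ ≤ ((K + 2) * (4 / δ ^ 2)) * (e * δ ^ 2 / (16 * (K + 2))) := by
            refine mul_le_mul_of_nonneg_right ?_ (by positivity)
            exact mul_le_mul_of_nonneg_right hM3 (by positivity)
        _ = e / 4 := by
            field_simp
            ring
    linarith
  -- the inclusion
  set Eb : Set Om := {ω | ∃ i j : ℕ, (i : ℝ) ≤ (sg a + 1) * (K + 1) * n ∧
    (j : ℝ) ≤ (sg a + 1) * (K + 1) * n ∧ |(i : ℝ) - j| ≤ ηm * n ∧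
      δ / 4 * √n < |(cc (C.Y i ∅ ω) : ℝ) - cc (C.Y j ∅ ω)|} with hEb
  set EN : ℕ → Set Om := fun i =>
    {ω | β ≤ |(C.N (((i : ℝ) + 1) * η * n) ∅ ω : ℝ) / (((i : ℝ) + 1) * η * n) - sg a|} with hEN
  set EA : ℕ → Set Om := fun i => {ω | low true (C.X (((i : ℝ) + 1) * η * n) ∅ ω)
        ((cc (C.X (((i : ℝ) + 1) * η * n) ∅ ω) : ℝ) - δ' * √(((i : ℝ) + 1) * η * n))} with hEA
  set E0 : Set Om := {ω | ∃ k, C.T k ∅ ω ≤ η * n ∧
      δ * √n ≤ (no true (C.Y k ∅ ω) (0 - δ / 2 * √n) : ℝ)} with hE0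
  set EC : ℕ → Set Om := fun i =>
    {ω | ¬ low true (C.X (((i : ℝ) + 1) * η * n) ∅ ω)
        ((cc (C.X (((i : ℝ) + 1) * η * n) ∅ ω) : ℝ) - δ / 4 * √n) ∧
      ∃ k, C.T k (C.X (((i : ℝ) + 1) * η * n) ∅ ω) (C.θ (((i : ℝ) + 1) * η * n) ∅ ω) ≤ η * n ∧
        δ * √n ≤ (no true (C.Y k (C.X (((i : ℝ) + 1) * η * n) ∅ ω)
          (C.θ (((i : ℝ) + 1) * η * n) ∅ ω))
          ((cc (C.X (((i : ℝ) + 1) * η * n) ∅ ω) : ℝ) - 3 * δ / 4 * √n) : ℝ)} with hEC
  set Nl : Set Om := {ω | ¬ ∀ t : ℝ, ∃ k, t < C.T k ∅ ω} with hNl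
  have hNl0 : Pr Nl = 0 := C.ae_finite (ne_true hk) ∅
  have hincl : {ω | ∃ k, C.T k ∅ ω ≤ K * n ∧ 2 * δ * √n < dd (C.Y k ∅ ω)} ⊆
      Eb ∪ ((⋃ i ∈ Finset.range M, EN i) ∪ ((⋃ i ∈ Finset.range M, EA i) ∪
        (E0 ∪ ((⋃ i ∈ Finset.range M, EC i) ∪ Nl)))) := by
    intro ω hω
    by_contra hno
    simp only [Set.mem_union, Set.mem_iUnion, Finset.mem_range, exists_prop, not_or, not_exists,
      not_and] at hno
    obtain ⟨g1, g2, g3, g4, g5, g6⟩ := hno
    have g6' : ∀ t : ℝ, ∃ k, t < C.T k ∅ ω := by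
      by_contra h'
      exact g6 h'
    refine dd_incl (a := a) hn hη0 hδ hM1 hMη hK hβ0 hβ1 hg hηg hβ2 g6' g1 g2 g4 ?_ hω
    intro i hi hex
    refine g5 i hi ⟨?_, hex⟩
    intro hlow
    refine g3 i hi (shp_low_mono hlow ?_)
    have hi' : ((i : ℝ) + 1) ≤ M := by exact_mod_cast hi
    have h6 : √(((i : ℝ) + 1) * η * n) ≤ √(M * η) * √n := by
      rw [← Real.sqrt_mul (by positivity)]
      refine Real.sqrt_le_sqrt ?_
      exact mul_le_mul_of_nonneg_right (mul_le_mul_of_nonneg_right hi' hη0.le) hn.le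
    have h7 : δ' * √(((i : ℝ) + 1) * η * n) ≤ δ / 4 * √n := by
      calc δ' * √(((i : ℝ) + 1) * η * n) ≤ δ' * (√(M * η) * √n) :=
            mul_le_mul_of_nonneg_left h6 hδ'0.le
        _ = δ / 4 * √n := by
            rw [hδ']
            field_simp
    linarith
  refine (measure_mono hincl).trans ?_
  have hlt : δ / 4 * √n < 3 * δ / 4 * √n := by
    have : 0 < δ * √n := by positivity
    linarith
  have hEC' : ∀ i, Pr (EC i) ≤ ddF a (η * n) (δ / 2 * √n) (δ * √n) := by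
    intro i
    have h6 := dd_block hk hc (s := ((i : ℝ) + 1) * η * n) (u := η * n) (x₁ := δ / 4 * √n)
      (x₂ := 3 * δ / 4 * √n) (lam := δ * √n) (by positivity) (by positivity) hlt (by positivity)
    have e3 : 3 * δ / 4 * √n - δ / 4 * √n = δ / 2 * √n := by ring
    rw [e3] at h6
    exact h6
  have hU : Pr (Eb ∪ ((⋃ i ∈ Finset.range M, EN i) ∪ ((⋃ i ∈ Finset.range M, EA i) ∪
        (E0 ∪ ((⋃ i ∈ Finset.range M, EC i) ∪ Nl))))) ≤
      Pr Eb + (∑ i ∈ Finset.range M, Pr (EN i) + (∑ i ∈ Finset.range M, Pr (EA i) +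
        (Pr E0 + (∑ i ∈ Finset.range M, Pr (EC i) + Pr Nl)))) := by
    refine (measure_union_le _ _).trans (add_le_add le_rfl ?_)
    refine (measure_union_le _ _).trans (add_le_add (measure_biUnion_finset_le _ _) ?_)
    refine (measure_union_le _ _).trans (add_le_add (measure_biUnion_finset_le _ _) ?_)
    refine (measure_union_le _ _).trans (add_le_add le_rfl ?_)
    exact (measure_union_le _ _).trans (add_le_add (measure_biUnion_finset_le _ _) le_rfl)
  refine hU.trans ?_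
  rw [hNl0, add_zero]
  have h6 : Pr E0 + ∑ i ∈ Finset.range M, Pr (EC i) ≤ ENNReal.ofReal (e / 2) := by
    refine le_trans ?_ hblock
    have h7 : ∑ i ∈ Finset.range M, Pr (EC i) ≤ ∑ i ∈ Finset.range M,
        ddF a (η * n) (δ / 2 * √n) (δ * √n) := Finset.sum_le_sum fun i _ => hEC' i
    rw [Finset.sum_const, Finset.card_range, nsmul_eq_mul] at h7
    rw [add_mul, one_mul, add_comm]
    exact add_le_add h7 (dd_block0 hk hc (by positivity) (by positivity) (by positivity))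
  calc Pr Eb + (∑ i ∈ Finset.range M, Pr (EN i) + (∑ i ∈ Finset.range M, Pr (EA i) +
        (Pr E0 + ∑ i ∈ Finset.range M, Pr (EC i))))
      ≤ ENNReal.ofReal (e / 4) + (ENNReal.ofReal (e / 8) + (ENNReal.ofReal (e / 8) +
        ENNReal.ofReal (e / 2))) :=
        add_le_add h1 (add_le_add h2 (add_le_add h3 h6))
    _ = ENNReal.ofReal e := by
        rw [← ENNReal.ofReal_add (by positivity) (by positivity),
          ← ENNReal.ofReal_add (by positivity) (by positivity),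
          ← ENNReal.ofReal_add (by positivity) (by positivity)]
        congr 1
        ring
    _ ≤ ε := he

end H40.VM
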