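import Pool.Agent.H40.Voter.MeasDefs
import Pool.Agent.H40.VM.EG

/-!
# Module EC: the rescaled empirical measure is close to Lebesgue measure to the right of the centre

Deterministic. `∫ φ d(empMeasure ε (cf true m)) = ∑_{i : cf true m i} ε φ (ε i)` (finitely many
nonzero terms). Replacing the ones of `m` by the sites `≥ cc m` changes the sum by at most
`ε ‖φ‖ (no true m (cc m - 1) + nz m (cc m - 1)) = 2 ε ‖φ‖ dd m` (`balance` at `z = cc m - 1`); then
compare `∑_{i ≥ cc m} ε φ (ε i)` with `∫_{ε cc m}^∞ φ` cell by cell (`[ε i, ε (i+1))`, uniform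
continuity of `φ`, only the cells that meet the support contribute), and
`|∫_{ε cc m}^∞ φ - ∫_w^∞ φ| ≤ ‖φ‖ |w - ε cc m|`.
-/

open MeasureTheory ProbabilityTheory Filter Topology
open scoped ENNReal NNReal unitInterval symmDiff

namespace H40.VM

open H40.Voter (IsKernel empMeasure)

/-- Riemann sums over consecutive cells -/
lemma riemann_cells {φ : ℝ → ℝ} (hφ : Continuous φ) {ε η : ℝ} (hε : 0 < ε)
    (hη : ∀ x y : ℝ, |x - y| ≤ ε → |φ x - φ y| ≤ η) (c : ℤ) (n : ℕ) :
    |∑ i ∈ Finset.Ico c (c + n), ε * φ (ε * i) - ∫ x in (ε * c)..(ε * ((c + n : ℤ) : ℝ)), φ x|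
      ≤ n * (ε * η) := by
  induction n with
  | zero => simp
  | succ n ih =>
    have e1 : Finset.Ico c (c + ((n + 1 : ℕ) : ℤ)) = insert (c + n) (Finset.Ico c (c + n)) := by
      ext i
      simp only [Finset.mem_Ico, Finset.mem_insert]
      push_cast
      omega
    have e2 : (c + n : ℤ) ∉ Finset.Ico c (c + n) := by simp
    rw [e1, Finset.sum_insert e2]
    have e3 : ∫ x in (ε * c)..(ε * ((c + ((n + 1 : ℕ) : ℤ) : ℤ) : ℝ)), φ x =
        (∫ x in (ε * c)..(ε * ((c + n : ℤ) : ℝ)), φ x) +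
          ∫ x in (ε * ((c + n : ℤ) : ℝ))..(ε * ((c + ((n + 1 : ℕ) : ℤ) : ℤ) : ℝ)), φ x :=
      (intervalIntegral.integral_add_adjacent_intervals (hφ.intervalIntegrable _ _)
        (hφ.intervalIntegrable _ _)).symm
    rw [e3]
    have e4 : ε * ((c + ((n + 1 : ℕ) : ℤ) : ℤ) : ℝ) - ε * ((c + n : ℤ) : ℝ) = ε := by
      push_cast
      ring
    have e5 : |ε * φ (ε * ((c + n : ℤ) : ℝ)) -
        ∫ x in (ε * ((c + n : ℤ) : ℝ))..(ε * ((c + ((n + 1 : ℕ) : ℤ) : ℤ) : ℝ)), φ x| ≤ ε * η := by
      have e6 : ε * φ (ε * ((c + n : ℤ) : ℝ)) =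
          ∫ _ in (ε * ((c + n : ℤ) : ℝ))..(ε * ((c + ((n + 1 : ℕ) : ℤ) : ℤ) : ℝ)),
            φ (ε * ((c + n : ℤ) : ℝ)) := by
        rw [intervalIntegral.integral_const, e4, smul_eq_mul]
      rw [e6, ← intervalIntegral.integral_sub intervalIntegrable_const
        (hφ.intervalIntegrable _ _)]
      have e7 := intervalIntegral.norm_integral_le_of_norm_le_const
        (a := ε * ((c + n : ℤ) : ℝ)) (b := ε * ((c + ((n + 1 : ℕ) : ℤ) : ℤ) : ℝ))
        (f := fun x => φ (ε * ((c + n : ℤ) : ℝ)) - φ x) (C := η) (by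
          intro x hx
          rw [Set.uIoc_of_le (by linarith), Set.mem_Ioc] at hx
          rw [Real.norm_eq_abs]
          apply hη
          rw [abs_sub_comm, abs_of_nonneg (by linarith [hx.1])]
          linarith [hx.2])
      rw [e4, abs_of_pos hε, Real.norm_eq_abs] at e7
      linarith
    push_cast at ih e5 ⊢
    calc _ = |(ε * φ (ε * (c + n)) - ∫ x in (ε * (c + n))..(ε * (c + (n + 1))), φ x) +
          (∑ i ∈ Finset.Ico c (c + n), ε * φ (ε * i) - ∫ x in (ε * c)..(ε * (c + n)), φ x)| := by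
            congr 1
            ring
      _ ≤ ε * η + n * (ε * η) := (abs_add_le _ _).trans (add_le_add e5 ih)
      _ = (n + 1) * (ε * η) := by ring

theorem emp_close {φ : ℝ → ℝ} (hφ : Continuous φ) (hs : HasCompactSupport φ) {κ : ℝ}
    (hκ : 0 < κ) :
    ∃ δ : ℝ, 0 < δ ∧ ∀ ε : ℝ, 0 < ε → ε < δ → ∀ (m : St) (w : ℝ), |w - ε * cc m| ≤ δ →
      ε * dd m ≤ δ →
      |(∫ x, φ x ∂(empMeasure ε (cf true m))) - ∫ x in Set.Ioi w, φ x| ≤ κ := by
  -- support, bound, modulus of continuity
  obtain ⟨L, hL0, hL⟩ : ∃ L : ℝ, 0 < L ∧ ∀ x, L < |x| → φ x = 0 := by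
    obtain ⟨L, hL⟩ := hs.isCompact.isBounded.subset_closedBall 0
    refine ⟨max L 1, by positivity, fun x hx => ?_⟩
    by_contra h
    have h1 : x ∈ tsupport φ := subset_tsupport φ h
    have h2 := hL h1
    rw [Metric.mem_closedBall, dist_zero_right, Real.norm_eq_abs] at h2
    have h3 := le_max_left L 1
    linarith
  obtain ⟨B, hB⟩ : ∃ B, ∀ x, |φ x| ≤ B := by
    obtain ⟨B, hB⟩ := hφ.bounded_above_of_compact_support hs
    exact ⟨B, fun x => by simpa using hB x⟩
  have hB0 : 0 ≤ B := (abs_nonneg _).trans (hB 0)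
  set η : ℝ := κ / (3 * (2 * L + 4)) with hη
  have hη0 : 0 < η := by positivity
  obtain ⟨δ₀, hδ₀, hmod⟩ : ∃ δ₀ > 0, ∀ x y : ℝ, |x - y| < δ₀ → |φ x - φ y| ≤ η := by
    have huc := hs.uniformContinuous_of_continuous hφ
    obtain ⟨δ₀, hδ₀, h⟩ := Metric.uniformContinuous_iff.1 huc η hη0
    refine ⟨δ₀, hδ₀, fun x y hxy => ?_⟩
    have := h (a := x) (b := y) (by rwa [Real.dist_eq])
    rw [Real.dist_eq] at this
    exact this.le
  have hint : Integrable φ := hφ.integrable_of_hasCompactSupport hs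
  refine ⟨min 1 (min (δ₀ / 2) (κ / (6 * (B + 1)))), by positivity, ?_⟩
  intro ε hε hεδ m w hw hdd
  have hε1 : ε < 1 := hεδ.trans_le (min_le_left _ _)
  have hεδ₀ : ε < δ₀ := by
    have h1 : ε < δ₀ / 2 := hεδ.trans_le ((min_le_right _ _).trans (min_le_left _ _))
    linarith
  have hδB : min 1 (min (δ₀ / 2) (κ / (6 * (B + 1)))) ≤ κ / (6 * (B + 1)) :=
    (min_le_right _ _).trans (min_le_right _ _)
  have hw' : |w - ε * cc m| ≤ κ / (6 * (B + 1)) := hw.trans hδB
  have hdd' : ε * dd m ≤ κ / (6 * (B + 1)) := hdd.trans hδB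
  have hmod' : ∀ x y : ℝ, |x - y| ≤ ε → |φ x - φ y| ≤ η := fun x y h =>
    hmod x y (lt_of_le_of_lt h hεδ₀)
  have hBκ : B * (κ / (6 * (B + 1))) ≤ κ / 6 := by
    rw [← mul_div_assoc, div_le_div_iff₀ (by positivity) (by positivity)]
    nlinarith
  -- the window
  set K : ℕ := ⌈L / ε⌉₊ with hK
  have hK1 : L ≤ ε * K := by
    have h1 := Nat.le_ceil (L / ε)
    rw [div_le_iff₀ hε] at h1
    linarith
  have hK2 : ε * K ≤ L + ε := by
    have h1 := Nat.ceil_lt_add_one (a := L / ε) (by positivity)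
    have h2 : ε * (⌈L / ε⌉₊ : ℝ) ≤ ε * (L / ε + 1) := mul_le_mul_of_nonneg_left h1.le hε.le
    rw [mul_add, mul_div_cancel₀ _ hε.ne', mul_one] at h2
    exact h2
  set lo : ℤ := -(K : ℤ) - 1 with hlo
  set hi : ℤ := (K : ℤ) + 1 with hhi
  have hout : ∀ i : ℤ, i < -(K : ℤ) ∨ (K : ℤ) < i → φ (ε * i) = 0 := by
    intro i hi
    apply hL
    have h1 : (K : ℝ) < |(i : ℝ)| := by
      have h2 : (K : ℤ) < |i| := by
        rcases hi with h | h
        · rw [abs_of_neg (by omega)]
          omega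
        · rw [abs_of_pos (by omega)]
          exact h
      exact_mod_cast h2
    rw [abs_mul, abs_of_pos hε]
    calc L ≤ ε * K := hK1
      _ < ε * |(i : ℝ)| := mul_lt_mul_of_pos_left h1 hε
  set c : ℤ := cc m with hc
  set c0 : ℤ := max lo (min c hi) with hc0
  have hc0lo : lo ≤ c0 := le_max_left _ _
  have hc0hi : c0 ≤ hi := by omega
  -- Step 1
  have s1 : ∫ x, φ x ∂(empMeasure ε (cf true m)) =
      ∑ i ∈ Finset.Ico lo hi, if cf true m i = true then ε * φ (ε * i) else 0 := by
    unfold empMeasure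
    rw [integral_sum_dirac (fun _ => ENNReal.ofReal_ne_top)]
    simp only [ENNReal.toReal_ofReal hε.le, smul_eq_mul]
    have h1 : ∑' i : {i : ℤ // cf true m i = true}, ε * φ (ε * ((i : ℤ) : ℝ)) =
        ∑' i : ℤ, Set.indicator {i : ℤ | cf true m i = true} (fun i : ℤ => ε * φ (ε * i)) i :=
      tsum_subtype {i : ℤ | cf true m i = true} (fun i : ℤ => ε * φ (ε * i))
    rw [h1, tsum_eq_sum (s := Finset.Ico lo hi)]
    · refine Finset.sum_congr rfl fun i _ => ?_
      rw [Set.indicator_apply]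
      rfl
    · intro i hi
      rw [Finset.mem_Ico] at hi
      rw [Set.indicator_apply, hout i (by omega), mul_zero, ite_self]
  -- Step 2
  have s2 : |(∑ i ∈ Finset.Ico lo hi, if cf true m i = true then ε * φ (ε * i) else 0) -
      ∑ i ∈ Finset.Ico c0 hi, ε * φ (ε * i)| ≤ 2 * (ε * dd m) * B := by
    have h1 : ∑ i ∈ Finset.Ico c0 hi, ε * φ (ε * i) =
        ∑ i ∈ Finset.Ico lo hi, if c ≤ i then ε * φ (ε * i) else 0 := by
      rw [← Finset.sum_filter]
      refine Finset.sum_congr ?_ fun _ _ => rfl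
      ext i
      simp only [Finset.mem_Ico, Finset.mem_filter]
      omega
    rw [h1, ← Finset.sum_sub_distrib]
    set S : Finset ℤ := (no_finite true m ((c - 1 : ℤ) : ℝ)).toFinset ∪
      (nz_finite m ((c - 1 : ℤ) : ℝ)).toFinset with hS
    have h2 : ∀ i ∈ Finset.Ico lo hi,
        |(if cf true m i = true then ε * φ (ε * i) else 0) - (if c ≤ i then ε * φ (ε * i) else 0)|
          ≤ if i ∈ S then ε * B else 0 := by
      intro i _
      have h3 : |ε * φ (ε * i)| ≤ ε * B := by
        rw [abs_mul, abs_of_pos hε]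
        exact mul_le_mul_of_nonneg_left (hB _) hε.le
      by_cases hx : cf true m i = true <;> by_cases hci : c ≤ i
      · simp only [hx, hci, if_true, sub_self, abs_zero]
        split_ifs
        · positivity
        · exact le_rfl
      · have hiS : i ∈ S := by
          rw [hS, Finset.mem_union, Set.Finite.mem_toFinset]
          left
          refine ⟨?_, hx⟩
          have : i ≤ c - 1 := by omega
          exact_mod_cast this
        simp only [hx, hci, if_true, if_false, hiS, sub_zero]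
        exact h3
      · have hiS : i ∈ S := by
          rw [hS, Finset.mem_union, Set.Finite.mem_toFinset, Set.Finite.mem_toFinset]
          right
          refine ⟨?_, by simpa using hx⟩
          have : c - 1 < i := by omega
          exact_mod_cast this
        simp only [hx, hci, if_true, hiS, zero_sub, abs_neg]
        simpa using h3
      · have h4 : 0 ≤ if i ∈ S then ε * B else 0 := by
          by_cases hiS : i ∈ S
          · rw [if_pos hiS]
            positivity
          · rw [if_neg hiS]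
        rw [if_neg hx, if_neg hci, sub_zero, abs_zero]
        exact h4
    refine (Finset.abs_sum_le_sum_abs _ _).trans ((Finset.sum_le_sum h2).trans ?_)
    have h4 : ∑ i ∈ Finset.Ico lo hi, (if i ∈ S then ε * B else 0) ≤ (S.card : ℝ) * (ε * B) := by
      rw [← Finset.sum_filter, Finset.sum_const, nsmul_eq_mul]
      refine mul_le_mul_of_nonneg_right ?_ (by positivity)
      have : ((Finset.Ico lo hi).filter (fun i => i ∈ S)).card ≤ S.card := by
        refine Finset.card_le_card fun i hi => ?_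
        exact (Finset.mem_filter.1 hi).2
      exact_mod_cast this
    refine h4.trans ?_
    have h5 : (S.card : ℝ) ≤ 2 * dd m := by
      have h6 : S.card ≤ no true m ((c - 1 : ℤ) : ℝ) + nz m ((c - 1 : ℤ) : ℝ) := by
        rw [no_eq_card, nz_eq_card]
        exact Finset.card_union_le _ _
      have h7 := balance m (c - 1)
      have h8 : nz m ((c - 1 : ℤ) : ℝ) = no true m ((c - 1 : ℤ) : ℝ) := by
        rw [← hc] at h7
        omega
      have h9 : dd m = no true m ((c - 1 : ℤ) : ℝ) := by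
        unfold dd
        rw [← hc]
        push_cast
        rfl
      rw [h9]
      rw [h8] at h6
      have : (S.card : ℝ) ≤ ((no true m ((c - 1 : ℤ) : ℝ) + no true m ((c - 1 : ℤ) : ℝ) : ℕ) : ℝ) := by
        exact_mod_cast h6
      push_cast at this ⊢
      linarith
    calc (S.card : ℝ) * (ε * B) ≤ (2 * dd m) * (ε * B) :=
          mul_le_mul_of_nonneg_right h5 (by positivity)
      _ = 2 * (ε * dd m) * B := by ring
  -- Step 3
  have s3 : |∑ i ∈ Finset.Ico c0 hi, ε * φ (ε * i) - ∫ x in (ε * c0)..(ε * hi), φ x| ≤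
      (2 * L + 4) * η := by
    obtain ⟨n, hn⟩ : ∃ n : ℕ, hi = c0 + n := ⟨(hi - c0).toNat, by omega⟩
    have h1 := riemann_cells hφ hε hmod' c0 n
    rw [← hn] at h1
    refine h1.trans ?_
    have h2 : n ≤ 2 * K + 2 := by omega
    have h3 : (n : ℝ) ≤ 2 * K + 2 := by exact_mod_cast h2
    have h4 : (n : ℝ) * ε ≤ 2 * L + 4 := by
      calc (n : ℝ) * ε ≤ (2 * K + 2) * ε := mul_le_mul_of_nonneg_right h3 hε.le
        _ = 2 * (ε * K) + 2 * ε := by ring
        _ ≤ 2 * (L + ε) + 2 * ε := by linarith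
        _ ≤ 2 * L + 4 := by linarith
    calc (n : ℝ) * (ε * η) = (n * ε) * η := by ring
      _ ≤ (2 * L + 4) * η := mul_le_mul_of_nonneg_right h4 hη0.le
  -- Step 4
  have hzero : ∀ y : ℝ, L ≤ y → ∫ x in Set.Ioi y, φ x = 0 := by
    intro y hy
    refine setIntegral_eq_zero_of_forall_eq_zero fun x hx => ?_
    rw [Set.mem_Ioi] at hx
    exact hL x (lt_of_lt_of_le (lt_of_le_of_lt hy hx) (le_abs_self x))
  have hIoi : ∀ y z : ℝ, ∫ x in Set.Ioi y, φ x = (∫ x in y..z, φ x) + ∫ x in Set.Ioi z, φ x :=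
    fun y z => (intervalIntegral.integral_interval_add_Ioi hint.integrableOn
      hint.integrableOn).symm
  have hhi' : ∫ x in Set.Ioi (ε * (hi : ℝ)), φ x = 0 := by
    apply hzero
    rw [hhi]
    push_cast
    linarith
  have s4 : ∫ x in Set.Ioi (ε * (c : ℝ)), φ x = ∫ x in (ε * c0)..(ε * hi), φ x := by
    rcases le_or_gt hi c with h | h
    · have e1 : c0 = hi := by omega
      rw [e1, intervalIntegral.integral_same]
      apply hzero
      have h1 : (hi : ℝ) ≤ c := by exact_mod_cast h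
      have h2 : ε * (hi : ℝ) ≤ ε * c := mul_le_mul_of_nonneg_left h1 hε.le
      have h3 : ε * (hi : ℝ) = ε * K + ε := by
        rw [hhi]
        push_cast
        ring
      linarith
    · rcases le_or_gt lo c with h' | h'
      · have e1 : c0 = c := by omega
        rw [e1, hIoi (ε * c) (ε * hi), hhi', add_zero]
      · have e1 : c0 = lo := by omega
        rw [e1, hIoi (ε * c) (ε * lo), hIoi (ε * lo) (ε * hi), hhi', add_zero]
        have e2 : ∫ x in (ε * c)..(ε * lo), φ x = 0 := by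
          have h1 : (c : ℝ) ≤ lo := by exact_mod_cast h'.le
          have h2 : ε * (c : ℝ) ≤ ε * lo := mul_le_mul_of_nonneg_left h1 hε.le
          rw [intervalIntegral.integral_of_le h2]
          refine setIntegral_eq_zero_of_forall_eq_zero fun x hx => ?_
          apply hL
          have h3 : x ≤ ε * lo := hx.2
          have h4 : ε * (lo : ℝ) = -(ε * K) - ε := by
            rw [hlo]
            push_cast
            ring
          rw [abs_of_neg (by linarith)]
          linarith
        rw [e2, zero_add]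
  have s5 : |(∫ x in Set.Ioi (ε * (c : ℝ)), φ x) - ∫ x in Set.Ioi w, φ x| ≤
      B * (κ / (6 * (B + 1))) := by
    rw [hIoi (ε * c) w, add_sub_cancel_right]
    have h1 := intervalIntegral.norm_integral_le_of_norm_le_const (a := ε * (c : ℝ)) (b := w)
      (f := φ) (C := B) (fun x _ => by simpa using hB x)
    rw [Real.norm_eq_abs] at h1
    exact h1.trans (mul_le_mul_of_nonneg_left hw' hB0)
  have s6 : (2 * L + 4) * η = κ / 3 := by
    rw [hη]
    field_simp
  have s7 : 2 * (ε * dd m) * B ≤ κ / 3 := by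
    have h1 : (ε * dd m) * B ≤ (κ / (6 * (B + 1))) * B := mul_le_mul_of_nonneg_right hdd' hB0
    linarith
  rw [s1]
  rw [← s4, s6] at s3
  calc |(∑ i ∈ Finset.Ico lo hi, if cf true m i = true then ε * φ (ε * i) else 0) -
        ∫ x in Set.Ioi w, φ x|
      = |((∑ i ∈ Finset.Ico lo hi, if cf true m i = true then ε * φ (ε * i) else 0) -
          ∑ i ∈ Finset.Ico c0 hi, ε * φ (ε * i)) +
        ((∑ i ∈ Finset.Ico c0 hi, ε * φ (ε * i) - ∫ x in Set.Ioi (ε * (c : ℝ)), φ x) +
        ((∫ x in Set.Ioi (ε * (c : ℝ)), φ x) - ∫ x in Set.Ioi w, φ x))| := by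
          congr 1
          ring
    _ ≤ κ / 3 + (κ / 3 + κ / 6) := by
        refine (abs_add_le _ _).trans (add_le_add (s2.trans s7) ?_)
        exact (abs_add_le _ _).trans (add_le_add s3 (s5.trans hBκ))
    _ ≤ κ := by linarith

end H40.VM
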