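import Pool.Agent.H40.VM.CLc
import Pool.Agent.H40.VM.DD
import Pool.Agent.H40.VM.EC

/-!
# Module CLm: closeness of the rescaled empirical measures and the rescaled centre, uniformly on time
intervals

As in module CLc (`close_path`) with the events `S2` replaced by
`∃ k ≤ n, T0 k ≤ (T₀ + 1)/ε² ∧ κ' √(1/ε²) < dd (Z k)` (`dd_path` instead of `sharp_path`), and
`Y_close` replaced by the following: almost surely, if `T0 k ≤ (1 - ε/2) t/ε² < T0 (k+1)`, then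
`V.X ε (t/ε²) ω = Z k ω = cf true (mis (Z k ω))` (`hold`, `jumpTime_eq`, `ae_class`; see the proof of
`Y_close` in module CLa). Then `emp_close` with `w = ε S ⌊sg t/ε²⌋`, `m = mis (Z k)`.
-/

open MeasureTheory ProbabilityTheory Filter Topology
open scoped ENNReal NNReal unitInterval symmDiff

namespace H40.VM

open H40.Voter (IsKernel IsVoterChain IsVoterProcess VoterFam SkoD jumpTime Config empMeasure)

variable {a : ℤ → ℝ}

/-- the state of the model while the chain is in its `k`-th state -/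
theorem X_state (hk : IsKernel a) (hc : mn a = 0) {V : VoterFam a} (c : Chains V) {ε : ℝ}
    (h0 : 0 < ε) (h1 : ε < 1) :
    ∀ᵐ ω ∂(V.P ε), ∀ (k : ℕ) (t : ℝ≥0), c.T0 ε k ω ≤ (1 - ε / 2) * (t / ε ^ 2) →
      (1 - ε / 2) * (t / ε ^ 2) < c.T0 ε (k + 1) ω →
      V.X ε (t / (ε ^ 2).toNNReal) ω = cf true (mis (c.Z ε k ω)) := by
  filter_upwards [ae_class hk h0.le h1 (c.chain ε h0 h1), jumpTime_eq hk hc c h0 h1,
    c.hold ε h0 h1] with ω h2 h3 h4 k t h6 h7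
  have hpos : 0 < 1 - ε / 2 := by linarith
  have ht : ((t / (ε ^ 2).toNNReal : ℝ≥0) : ℝ) = t / ε ^ 2 := by
    rw [NNReal.coe_div, Real.coe_toNNReal _ (sq_nonneg ε)]
  have h9 : V.X ε (t / (ε ^ 2).toNNReal) ω = c.Z ε k ω := by
    refine h4 k (t / (ε ^ 2).toNNReal) ?_ ?_
    · rw [h3, ht, div_le_iff₀ hpos]
      linarith
    · rw [h3, ht, lt_div_iff₀ hpos]
      linarith
  rw [h9]
  exact (h2 k).1

theorem close_meas (hk : IsKernel a) (hc : mn a = 0) {V : VoterFam a} (c : Chains V) (T₀ : ℝ≥0)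
    {φ : ℝ → ℝ} (hφ : Continuous φ) (hs : HasCompactSupport φ) {κ : ℝ} (hκ : 0 < κ) :
    Tendsto (fun ε : ℝ => V.P ε {ω | ∃ t : ℝ≥0, t ≤ T₀ ∧
      κ < |(∫ x, φ x ∂(empMeasure ε (V.X ε (t / (ε ^ 2).toNNReal) ω))) -
        ∫ x in Set.Ioi (ε * (c.S ε ⌊sg a * t / ε ^ 2⌋₊ ω : ℝ)), φ x|}) (𝓝[>] 0) (𝓝 0) := by
  obtain ⟨δ, hδ, hemp⟩ := emp_close hφ hs hκ
  have hg : 0 < sg a := sg_pos hk
  refine ENNReal.tendsto_nhds_zero.2 fun e₀ he₀ => ?_
  obtain ⟨e, he0, he⟩ : ∃ e : ℝ, 0 < e ∧ ENNReal.ofReal e ≤ e₀ := by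
    by_cases h : e₀ = ⊤
    · exact ⟨1, one_pos, by rw [h]; exact le_top⟩
    · exact ⟨e₀.toReal, ENNReal.toReal_pos he₀.ne' h, (ENNReal.ofReal_toReal h).le⟩
  obtain ⟨η₀, hη₀, hmod⟩ := modulus_P hk hc c (T₀ + 1) (κ := δ) (δ := e / 3) hδ
    (by positivity)
  set η : ℝ := min η₀ 1 with hη
  have hη0 : 0 < η := lt_min hη₀ one_pos
  set η₁ : ℝ := min (1 / 2) (η / 3) with hη₁
  have hη₁0 : 0 < η₁ := lt_min (by norm_num) (by positivity)
  have hη₁1 : η₁ ≤ 1 / 2 := min_le_left _ _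
  have hη₁2 : η₁ ≤ η / 3 := min_le_right _ _
  set K : ℝ := sg a * (T₀ + 2) with hK
  have hK0 : 0 < K := by positivity
  set n : ℝ → ℕ := fun ε => ⌊K / ε ^ 2⌋₊ with hn
  have hnK : ∀ ε : ℝ, (n ε : ℝ) ≤ K * (1 / ε ^ 2) := by
    intro ε
    have := Nat.floor_le (a := K / ε ^ 2) (by positivity)
    calc (n ε : ℝ) ≤ K / ε ^ 2 := this
      _ = K * (1 / ε ^ 2) := by ring
  have hnK' : ∀ᶠ ε : ℝ in 𝓝[>] 0, (n ε : ℝ) ≤ K / ε ^ 2 + 1 := by
    refine Eventually.of_forall fun ε => ?_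
    have := Nat.floor_le (a := K / ε ^ 2) (by positivity)
    linarith
  -- the bad sets
  set S1 : ℝ → Set ((ℕ → St) × (ℕ → ℝ)) := fun ε =>
    {p | ∃ k : ℕ, k ≤ n ε ∧ η₁ * (1 / ε ^ 2) < |clcT a p k - k / sg a|} with hS1
  set S2 : ℝ → Set ((ℕ → St) × (ℕ → ℝ)) := fun ε =>
    {p | ∃ k : ℕ, k ≤ n ε ∧ (clcT a p k ≤ (T₀ + 1) * (1 / ε ^ 2) ∧
      δ * √(1 / ε ^ 2) < dd (p.1 k))} with hS2
  have hS1m : ∀ ε, MeasurableSet (S1 ε) := by
    intro ε
    have e1 : S1 ε = ⋃ k : ℕ, ⋃ (_ : k ≤ n ε),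
        {p | η₁ * (1 / ε ^ 2) < |clcT a p k - k / sg a|} := by
      ext p
      simp [hS1]
    rw [e1]
    refine MeasurableSet.iUnion fun k => MeasurableSet.iUnion fun _ => ?_
    exact measurableSet_lt measurable_const ((clc_meas_T k).sub_const _).abs
  have hS2m : ∀ ε, MeasurableSet (S2 ε) := by
    intro ε
    have e1 : S2 ε = ⋃ k : ℕ, ⋃ (_ : k ≤ n ε),
        ({p | clcT a p k ≤ (T₀ + 1) * (1 / ε ^ 2)} ∩
          (fun p : (ℕ → St) × (ℕ → ℝ) => p.1 k) ⁻¹'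
            {m : St | δ * √(1 / ε ^ 2) < dd m}) := by
      ext p
      simp only [hS2, Set.mem_iUnion, Set.mem_inter_iff, Set.mem_preimage, Set.mem_ofPred_eq,
        exists_prop]
    rw [e1]
    refine MeasurableSet.iUnion fun k => MeasurableSet.iUnion fun _ => ?_
    refine (measurableSet_le (clc_meas_T k) measurable_const).inter ?_
    exact clc_meas_st k (MeasurableSet.of_discrete)
  have hP1 : Tendsto (fun ε => Pr (can a (n ε) ⁻¹' S1 ε)) (𝓝[>] 0) (𝓝 0) := by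
    have h1 := (lln_unif hk hc (K := K) (δ := η₁) hK0 hη₁0).comp clc_tendsto_sq
    refine tendsto_of_tendsto_of_tendsto_of_le_of_le tendsto_const_nhds h1
      (fun _ => zero_le) fun ε => ?_
    refine measure_mono ?_
    rintro ω ⟨k, hk1, hk2⟩
    rw [clc_T_can hk hk1] at hk2
    refine ⟨k, ?_, hk2⟩
    have : (k : ℝ) ≤ n ε := by exact_mod_cast hk1
    exact this.trans (hnK ε)
  have hP2 : Tendsto (fun ε => Pr (can a (n ε) ⁻¹' S2 ε)) (𝓝[>] 0) (𝓝 0) := by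
    have h1 := (dd_path hk hc (K := (T₀ : ℝ) + 1) (κ := δ) (by positivity)
      hδ).comp clc_tendsto_sq
    refine tendsto_of_tendsto_of_tendsto_of_le_of_le tendsto_const_nhds h1
      (fun _ => zero_le) fun ε => ?_
    refine measure_mono ?_
    rintro ω ⟨k, hk1, hk2, hk3⟩
    rw [clc_T_can hk hk1] at hk2
    refine ⟨k, hk2, ?_⟩
    simp only [can, trS, min_eq_left hk1] at hk3
    exact hk3
  have hQ1 := ENNReal.tendsto_nhds_zero.1 (tendsto_P_of_Pr hk c hK0.le hnK' hS1m hP1)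
    (ENNReal.ofReal (e / 3)) (ENNReal.ofReal_pos.2 (by positivity))
  have hQ2 := ENNReal.tendsto_nhds_zero.1 (tendsto_P_of_Pr hk c hK0.le hnK' hS2m hP2)
    (ENNReal.ofReal (e / 3)) (ENNReal.ofReal_pos.2 (by positivity))
  -- smallness of ε
  set r : ℝ := min (min (min (1 / 2) δ) (sg a / 2))
    (min (sg a * η / 3) (η / (3 * (T₀ + 1)))) with hr
  have hr0 : 0 < r := by
    refine lt_min (lt_min (lt_min (by norm_num) hδ) (by positivity))
      (lt_min (by positivity) (by positivity))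
  have hsmall : ∀ᶠ ε : ℝ in 𝓝[>] 0, ε ∈ Set.Ioo 0 r := Ioo_mem_nhdsGT hr0
  filter_upwards [hmod, hQ1, hQ2, hsmall] with ε h1 h2 h3 h4
  obtain ⟨hε, hεr⟩ := h4
  have r0 : ε < min (1 / 2) δ := hεr.trans_le ((min_le_left _ _).trans (min_le_left _ _))
  have r1 : ε < 1 / 2 := r0.trans_le (min_le_left _ _)
  have rδ : ε < δ := r0.trans_le (min_le_right _ _)
  have r2 : ε < sg a / 2 := hεr.trans_le ((min_le_left _ _).trans (min_le_right _ _))
  have r3 : ε < sg a * η / 3 := hεr.trans_le ((min_le_right _ _).trans (min_le_left _ _))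
  have r4 : ε < η / (3 * (T₀ + 1)) := hεr.trans_le ((min_le_right _ _).trans (min_le_right _ _))
  have hε1 : ε < 1 := by linarith
  have hεε : ε ^ 2 ≤ ε := by nlinarith
  have q1 : ε ^ 2 / sg a ≤ 1 / 2 := by
    rw [div_le_iff₀ hg]
    linarith
  have q2 : ε ^ 2 / sg a ≤ η / 3 := by
    rw [div_le_iff₀ hg]
    linarith
  have q3 : ε * T₀ / 2 ≤ η / 3 := by
    have hT : (0 : ℝ) ≤ T₀ := T₀.2
    rw [lt_div_iff₀ (by positivity)] at r4
    nlinarith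
  have hX := X_state hk hc c hε hε1
  set Bm : Set (V.Ω ε) := {ω | ∃ s t : ℝ≥0, s ≤ T₀ + 1 ∧ t ≤ T₀ + 1 ∧ |(s : ℝ) - t| ≤ η₀ ∧
        δ < ε * |(c.S ε ⌊sg a * s / ε ^ 2⌋₊ ω : ℝ) - c.S ε ⌊sg a * t / ε ^ 2⌋₊ ω|} with hBm
  have hle : V.P ε {ω | ∃ t : ℝ≥0, t ≤ T₀ ∧
      κ < |(∫ x, φ x ∂(empMeasure ε (V.X ε (t / (ε ^ 2).toNNReal) ω))) -
        ∫ x in Set.Ioi (ε * (c.S ε ⌊sg a * t / ε ^ 2⌋₊ ω : ℝ)), φ x|} ≤
      V.P ε (abs' (c.Z ε) (c.ξ ε) (n ε) ⁻¹' S1 ε ∪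
        (abs' (c.Z ε) (c.ξ ε) (n ε) ⁻¹' S2 ε ∪ Bm)) := by
    refine measure_mono_ae ?_
    filter_upwards [hX] with ω hω
    rintro ⟨t, ht, htκ⟩
    by_contra hno
    have hno' : ω ∉ (abs' (c.Z ε) (c.ξ ε) (n ε) ⁻¹' S1 ε ∪
        (abs' (c.Z ε) (c.ξ ε) (n ε) ⁻¹' S2 ε ∪ Bm)) := hno
    rw [Set.mem_union, Set.mem_union, not_or, not_or] at hno'
    obtain ⟨g1, g2, g3⟩ := hno'
    have g1' : ∀ k ≤ ⌊sg a * ((T₀ : ℝ) + 2) / ε ^ 2⌋₊,
        |c.T0 ε k ω - k / sg a| ≤ η₁ * (1 / ε ^ 2) := by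
      intro k hk'
      by_contra hcon
      apply g1
      refine ⟨k, hk', ?_⟩
      rw [clc_T_abs c ε hk']
      exact not_le.1 hcon
    have htT : (t : ℝ) ≤ T₀ := by exact_mod_cast ht
    obtain ⟨k, hk1, hk2, hk3, hk4⟩ := clc_det (T := fun k => c.T0 ε k ω) (by simp [Chains.T0]) hg
      hε hε1 hη₁0 hη₁1 hη₁2 q1 q2 q3 t.coe_nonneg htT g1'
    have hkn : k ≤ n ε := hk1.le
    have hsq : √(1 / ε ^ 2) = 1 / ε := by
      rw [← one_div_pow, Real.sqrt_sq (by positivity)]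
    have hdd : ε * dd (mis (c.Z ε k ω)) ≤ δ := by
      by_contra hl
      rw [not_le] at hl
      apply g2
      refine ⟨k, hkn, ?_, ?_⟩
      · rw [clc_T_abs c ε hkn]
        refine hk2.trans ?_
        have h6 : (1 - ε / 2) * ((t : ℝ) / ε ^ 2) ≤ (t : ℝ) / ε ^ 2 := by
          have : (0 : ℝ) ≤ (t : ℝ) / ε ^ 2 := by positivity
          nlinarith
        refine h6.trans ?_
        rw [div_eq_mul_one_div]
        exact mul_le_mul_of_nonneg_right (by linarith) (by positivity)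
      · simp only [abs', trS, min_eq_left hkn]
        rw [hsq, mul_one_div, div_lt_iff₀ hε]
        linarith
    have hXk := hω k t hk2 hk3
    have hs0 : 0 ≤ k * ε ^ 2 / sg a := by positivity
    set s : ℝ≥0 := ⟨k * ε ^ 2 / sg a, hs0⟩ with hs
    have hsv : (s : ℝ) = k * ε ^ 2 / sg a := rfl
    have hfl : ⌊sg a * (s : ℝ) / ε ^ 2⌋₊ = k := by
      have : sg a * (s : ℝ) / ε ^ 2 = k := by
        rw [hsv]
        field_simp
      rw [this, Nat.floor_natCast]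
    have hS : ¬ δ < ε * |(c.S ε k ω : ℝ) - c.S ε ⌊sg a * t / ε ^ 2⌋₊ ω| := by
      intro hcon
      apply g3
      refine ⟨s, t, ?_, ht.trans (by simp), ?_, ?_⟩
      · rw [← NNReal.coe_le_coe, hsv]
        push_cast
        have := (abs_le.1 hk4).2
        have hη1 : η ≤ 1 := min_le_right _ _
        linarith
      · rw [hsv]
        exact hk4.trans (min_le_left _ _)
      · rw [hfl]
        exact hcon
    rw [not_lt] at hS
    have h7 : |ε * (c.S ε ⌊sg a * t / ε ^ 2⌋₊ ω : ℝ) - ε * (cc (mis (c.Z ε k ω)) : ℝ)| ≤ δ := by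
      rw [← mul_sub, abs_mul, abs_of_pos hε, abs_sub_comm]
      exact hS
    have h8 := hemp ε hε rδ (mis (c.Z ε k ω)) _ h7 hdd
    rw [← hXk] at h8
    exact absurd htκ (not_lt.2 h8)
  refine hle.trans (le_trans ?_ he)
  calc V.P ε (abs' (c.Z ε) (c.ξ ε) (n ε) ⁻¹' S1 ε ∪
        (abs' (c.Z ε) (c.ξ ε) (n ε) ⁻¹' S2 ε ∪ Bm))
      ≤ V.P ε (abs' (c.Z ε) (c.ξ ε) (n ε) ⁻¹' S1 ε) +
        (V.P ε (abs' (c.Z ε) (c.ξ ε) (n ε) ⁻¹' S2 ε) + V.P ε Bm) :=
        (measure_union_le _ _).trans (add_le_add le_rfl (measure_union_le _ _))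
    _ ≤ ENNReal.ofReal (e / 3) + (ENNReal.ofReal (e / 3) + ENNReal.ofReal (e / 3)) :=
        add_le_add h2 (add_le_add h3 h1)
    _ = ENNReal.ofReal e := by
        rw [← ENNReal.ofReal_add (by positivity) (by positivity),
          ← ENNReal.ofReal_add (by positivity) (by positivity)]
        congr 1
        ring

end H40.VM
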