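import Pool.Agent.H40.Voter.SkorDefs

/-!
# Module FC: convergence in law in the Skorokhod space from finite dimensional laws and a modulus of
continuity (continuous limit)

For `N ≥ 1` let `π_N x` be the step path `t ↦ x (min ⌊t N⌋ N² / N)` (an element of `SkoD`
depending continuously, for uniform convergence, on finitely many coordinates of `x`). If `y` is
continuous, `π_N y → y` locally uniformly, hence in the sense of `SkoTendsto` (identity time
changes). Let `G` be bounded, measurable and `SkoContinuous`.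
* `E G (π_N (Y ε)) → E G (π_N Z)` as `ε → 0` (`fdd` for the function `v ↦ G (step path of v)`,
  bounded and continuous), and `E G (π_N Z) → E G Z` as `N → ∞` (dominated convergence).
* Compactness lemma: let `x_k ∈ SkoD` be such that `sup_k |x_k 0| < ∞` and for all `T`, `κ > 0`
  there are `η > 0` and `K` with `|x_k s - x_k t| ≤ κ` whenever `k ≥ K`, `s, t ≤ T`, `|s - t| ≤ η`.
  Then along a subsequence `x_k` converges locally uniformly to a continuous path `y` (diagonal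
  argument at rational times), so for `N_k → ∞` also `π_{N_k} x_k → y` locally uniformly, and
  `G (x_k) - G (π_{N_k} x_k) → 0` along the subsequence.
* Fix `ν > 0`. For each `j ≥ 1` choose `η_j` for `T = j`, `κ = 1/j`, `δ = ν 2^{-j}` in `mod`;
  this holds for `ε < ε_j` (`ε_j` decreasing). Choose `R` with `P' {|Z_0| ≥ R} < ν`; by `fdd` at time
  `0`, `P {|Y_0| > R + 1} ≤ ν` for small `ε`. Let `G_ε` be the event that `|Y_0| ≤ R + 1` and
  `w_j(Y, η_j) ≤ 1/j` for all `j` with `ε < ε_j`; its complement has probability `≤ 2ν`. By the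
  compactness lemma, for every `c > 0` there are `ε₀, N₀` with `|G (Y) - G (π_N Y)| ≤ c` on `G_ε` for
  `ε < ε₀`, `N ≥ N₀`. (`P` is used as an outer measure; measurable hulls or `lintegral` bounds deal
  with measurability.)
-/

open MeasureTheory ProbabilityTheory Filter Topology
open scoped ENNReal NNReal BoundedContinuousFunction

namespace H40.VM

open H40.Voter (SkoD ConvInLaw SkoTendsto SkoContinuous)

/-! ### local uniform convergence -/

lemma FC_sko {x : ℕ → SkoD} {y : SkoD}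
    (h : ∀ T : ℝ≥0, TendstoUniformlyOn (fun n => (x n).1) y.1 atTop (Set.Iic T)) :
    SkoTendsto x y := by
  refine ⟨fun _ => OrderIso.refl _, ?_, fun N => h N⟩
  intro u hu
  exact Eventually.of_forall fun n s => refl_mem_uniformity hu

/-! ### step paths -/

/-- the mesh -/
noncomputable def FC_M (N : ℕ) : ℝ≥0 := (N : ℝ≥0) + 1

lemma FC_M_pos (N : ℕ) : 0 < FC_M N := by unfold FC_M; positivity

lemma FC_floor_right (N : ℕ) (t : ℝ≥0) :
    ∀ᶠ s in 𝓝[≥] t, ⌊s * FC_M N⌋₊ = ⌊t * FC_M N⌋₊ := by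
  have hM := FC_M_pos N
  have h1 : t < ((⌊t * FC_M N⌋₊ : ℝ≥0) + 1) / FC_M N := by
    rw [lt_div_iff₀ hM]
    exact Nat.lt_floor_add_one _
  filter_upwards [Ico_mem_nhdsGE h1] with s hs
  rw [Nat.floor_eq_iff zero_le]
  constructor
  · exact (Nat.floor_le zero_le).trans (mul_le_mul_left hs.1 _)
  · exact (lt_div_iff₀ hM).1 hs.2

lemma FC_floor_left (N : ℕ) (t : ℝ≥0) : ∃ m : ℕ, ∀ᶠ s in 𝓝[<] t, ⌊s * FC_M N⌋₊ = m := by
  have hM := FC_M_pos N
  rcases eq_or_ne t 0 with rfl | ht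
  · refine ⟨0, ?_⟩
    have : (Set.Iio (0 : ℝ≥0)) = ∅ := by
      ext x
      simp
    rw [this, nhdsWithin_empty]
    exact Filter.eventually_bot
  · have ht0 : 0 < t := pos_iff_ne_zero.2 ht
    have h0 : 0 < t * FC_M N := mul_pos ht0 hM
    have h1 : 1 ≤ ⌈t * FC_M N⌉₊ := Nat.one_le_ceil_iff.2 h0
    obtain ⟨m, hm⟩ := Nat.exists_eq_succ_of_ne_zero (by omega : ⌈t * FC_M N⌉₊ ≠ 0)
    refine ⟨m, ?_⟩
    have h2 : (m : ℝ≥0) < t * FC_M N := by
      have := Nat.lt_ceil.1 (by rw [hm]; exact Nat.lt_succ_self m : m < ⌈t * FC_M N⌉₊)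
      exact this
    have h3 : (m : ℝ≥0) / FC_M N < t := (div_lt_iff₀ hM).2 h2
    filter_upwards [Ico_mem_nhdsLT h3] with s hs
    rw [Nat.floor_eq_iff zero_le]
    constructor
    · exact (div_le_iff₀ hM).1 hs.1
    · have h4 : s * FC_M N < t * FC_M N := (mul_lt_mul_iff_left₀ hM).2 hs.2
      have h5 : t * FC_M N ≤ (⌈t * FC_M N⌉₊ : ℝ≥0) := Nat.le_ceil _
      rw [hm] at h5
      refine h4.trans_le ?_
      push_cast at h5
      exact h5

/-- step path with values `v` -/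
noncomputable def FC_step (N : ℕ) (v : ℕ → ℝ) : SkoD :=
  ⟨fun t => v (min ⌊t * FC_M N⌋₊ ((N + 1) ^ 2)), by
    intro t
    constructor
    · have h : (fun t => v (min ⌊t * FC_M N⌋₊ ((N + 1) ^ 2))) =ᶠ[𝓝[≥] t]
          fun _ => v (min ⌊t * FC_M N⌋₊ ((N + 1) ^ 2)) := by
        filter_upwards [FC_floor_right N t] with s hs
        rw [hs]
      exact (tendsto_congr' h).2 tendsto_const_nhds
    · obtain ⟨m, hm⟩ := FC_floor_left N t
      refine ⟨v (min m ((N + 1) ^ 2)), ?_⟩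
      have h : (fun t => v (min ⌊t * FC_M N⌋₊ ((N + 1) ^ 2))) =ᶠ[𝓝[<] t]
          fun _ => v (min m ((N + 1) ^ 2)) := by
        filter_upwards [hm] with s hs
        rw [hs]
      exact (tendsto_congr' h).2 tendsto_const_nhds⟩

/-- the grid point before `t` -/
noncomputable def FC_t (N : ℕ) (t : ℝ≥0) : ℝ≥0 :=
  ((min ⌊t * FC_M N⌋₊ ((N + 1) ^ 2) : ℕ) : ℝ≥0) / FC_M N

lemma FC_t_le (N : ℕ) (t : ℝ≥0) : FC_t N t ≤ t := by
  unfold FC_t
  rw [div_le_iff₀ (FC_M_pos N)]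
  refine le_trans ?_ (Nat.floor_le zero_le)
  exact_mod_cast min_le_left _ _

lemma FC_t_near (N : ℕ) {t : ℝ≥0} (ht : t ≤ N) : |(t : ℝ) - FC_t N t| ≤ 1 / ((N : ℝ) + 1) := by
  have hM := FC_M_pos N
  have h1 : ⌊t * FC_M N⌋₊ ≤ (N + 1) ^ 2 := by
    have h2 : t * FC_M N ≤ (((N + 1) ^ 2 : ℕ) : ℝ≥0) := by
      have h3 : t ≤ FC_M N := ht.trans (by unfold FC_M; exact le_self_add)
      calc t * FC_M N ≤ FC_M N * FC_M N := mul_le_mul_left h3 _
        _ = (((N + 1) ^ 2 : ℕ) : ℝ≥0) := by unfold FC_M; push_cast; ring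
    have := Nat.floor_le_floor h2
    rwa [Nat.floor_natCast] at this
  have h4 : FC_t N t = (⌊t * FC_M N⌋₊ : ℝ≥0) / FC_M N := by
    unfold FC_t
    rw [min_eq_left h1]
  have h5 : FC_t N t ≤ t := FC_t_le N t
  have h6 : t * FC_M N < (⌊t * FC_M N⌋₊ : ℝ≥0) + 1 := Nat.lt_floor_add_one _
  have h7 : t < FC_t N t + 1 / FC_M N := by
    rw [h4, ← add_div, lt_div_iff₀ hM]
    exact h6
  have h8 : (t : ℝ) < FC_t N t + 1 / ((N : ℝ) + 1) := by
    have : (t : ℝ) < ((FC_t N t + 1 / FC_M N : ℝ≥0) : ℝ) := by exact_mod_cast h7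
    rw [NNReal.coe_add, NNReal.coe_div] at this
    unfold FC_M at this
    push_cast at this
    exact this
  have h9 : (FC_t N t : ℝ) ≤ t := by exact_mod_cast h5
  rw [abs_le]
  constructor <;> linarith [h8, h9, (by positivity : (0 : ℝ) ≤ 1 / ((N : ℝ) + 1))]

/-- the discretized path -/
noncomputable def FC_pi (N : ℕ) (x : SkoD) : SkoD := FC_step N fun i => x.1 ((i : ℝ≥0) / FC_M N)

lemma FC_pi_apply (N : ℕ) (x : SkoD) (t : ℝ≥0) : (FC_pi N x).1 t = x.1 (FC_t N t) := rfl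

lemma FC_measurable_pi (N : ℕ) : Measurable (FC_pi N) := by
  refine Measurable.subtype_mk ?_
  refine measurable_pi_iff.2 fun t => ?_
  exact (measurable_pi_apply _).comp measurable_subtype_coe

/-! ### compactness -/

lemma FC_bound {x : ℝ≥0 → ℝ} {η κ : ℝ} {T : ℝ≥0}
    (h : ∀ s t : ℝ≥0, s ≤ T → t ≤ T → |(s : ℝ) - t| ≤ η → |x s - x t| ≤ κ) (hη : 0 < η)
    (m : ℕ) : ∀ t : ℝ≥0, t ≤ T → (t : ℝ) ≤ m * η → |x t - x 0| ≤ m * κ := by
  induction m with
  | zero =>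
    intro t _ ht
    have : t = 0 := by
      have h1 : (t : ℝ) ≤ 0 := by simpa using ht
      exact_mod_cast le_antisymm h1 t.2
    rw [this]
    simp
  | succ m ih =>
    intro t htT ht
    have hηn : ((η.toNNReal : ℝ≥0) : ℝ) = η := Real.coe_toNNReal _ hη.le
    have h1 : t - η.toNNReal ≤ t := tsub_le_self
    have h2 : (t : ℝ) ≤ ((t - η.toNNReal : ℝ≥0) : ℝ) + η := by
      have : t ≤ (t - η.toNNReal) + η.toNNReal := le_tsub_add
      have h3 : (t : ℝ) ≤ (((t - η.toNNReal) + η.toNNReal : ℝ≥0) : ℝ) := by exact_mod_cast this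
      rw [NNReal.coe_add, hηn] at h3
      exact h3
    have h3 : ((t - η.toNNReal : ℝ≥0) : ℝ) ≤ m * η := by
      rcases le_total t η.toNNReal with h4 | h4
      · rw [tsub_eq_zero_of_le h4]
        have : (0 : ℝ) ≤ m * η := by positivity
        simpa using this
      · rw [NNReal.coe_sub h4, hηn]
        push_cast at ht
        linarith
    have h4 := ih _ (h1.trans htT) h3
    have h1' : ((t - η.toNNReal : ℝ≥0) : ℝ) ≤ t := by exact_mod_cast h1
    have h5 := h t (t - η.toNNReal) htT (h1.trans htT) (by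
      rw [abs_le]; constructor <;> linarith)
    have h6 : |x t - x 0| ≤ |x t - x (t - η.toNNReal)| + |x (t - η.toNNReal) - x 0| :=
      abs_sub_le _ _ _
    push_cast
    linarith

/-- Arzela-Ascoli along an ultrafilter -/
lemma FC_compact (U : Ultrafilter ℕ) (hU : (U : Filter ℕ) ≤ atTop) {x : ℕ → ℝ≥0 → ℝ} {R : ℝ}
    (h0 : ∀ k, |x k 0| ≤ R)
    (hmod : ∀ (T : ℝ≥0) (κ : ℝ), 0 < κ → ∃ η : ℝ, 0 < η ∧ ∀ᶠ k in atTop,
      ∀ s t : ℝ≥0, s ≤ T → t ≤ T → |(s : ℝ) - t| ≤ η → |x k s - x k t| ≤ κ) :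
    ∃ y : ℝ≥0 → ℝ, Continuous y ∧ ∀ T : ℝ≥0,
      TendstoUniformlyOn x y (U : Filter ℕ) (Set.Iic T) := by
  have hlim : ∀ t : ℝ≥0, ∃ l : ℝ, Tendsto (fun k => x k t) (U : Filter ℕ) (𝓝 l) := by
    intro t
    obtain ⟨η, hη, hev⟩ := hmod t 1 one_pos
    obtain ⟨m, hm⟩ := exists_nat_gt ((t : ℝ) / η)
    have hm' : (t : ℝ) ≤ m * η := by
      rw [div_lt_iff₀ hη] at hm; exact hm.le
    have hB : ∀ᶠ k in (U : Filter ℕ), x k t ∈ Set.Icc (-(R + m)) (R + m) := by
      filter_upwards [hU hev] with k hk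
      have h1 := FC_bound hk hη m t le_rfl hm'
      have h2 := h0 k
      rw [abs_le] at h1 h2
      constructor <;> linarith [h1.1, h1.2, h2.1, h2.2]
    have hc : IsCompact (Set.Icc (-(R + m)) (R + m)) := isCompact_Icc
    obtain ⟨l, -, hl⟩ := hc.ultrafilter_le_nhds (U.map fun k => x k t) (by
      rw [le_principal_iff]; exact hB)
    exact ⟨l, hl⟩
  choose y hy using hlim
  have hymod : ∀ (T : ℝ≥0) (κ : ℝ), 0 < κ → ∃ η : ℝ, 0 < η ∧
      (∀ s t : ℝ≥0, s ≤ T → t ≤ T → |(s : ℝ) - t| ≤ η → |y s - y t| ≤ κ) ∧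
      ∀ᶠ k in (U : Filter ℕ), ∀ s t : ℝ≥0, s ≤ T → t ≤ T → |(s : ℝ) - t| ≤ η →
        |x k s - x k t| ≤ κ := by
    intro T κ hκ
    obtain ⟨η, hη, hev⟩ := hmod T κ hκ
    refine ⟨η, hη, fun s t hs ht hst => ?_, hU hev⟩
    have h1 : Tendsto (fun k => |x k s - x k t|) (U : Filter ℕ) (𝓝 |y s - y t|) :=
      ((hy s).sub (hy t)).abs
    refine le_of_tendsto h1 ?_
    filter_upwards [hU hev] with k hk
    exact hk s t hs ht hst
  refine ⟨y, ?_, fun T => ?_⟩
  · rw [Metric.continuous_iff]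
    intro t κ hκ
    obtain ⟨η, hη, h1, -⟩ := hymod (t + 1) (κ / 2) (by positivity)
    refine ⟨min η 1, by positivity, fun s hs => ?_⟩
    rw [NNReal.dist_eq] at hs
    have h2 : |(s : ℝ) - t| ≤ η := (hs.le).trans (min_le_left _ _)
    have h3 : |(s : ℝ) - t| ≤ 1 := (hs.le).trans (min_le_right _ _)
    have h4 : s ≤ t + 1 := by
      have : (s : ℝ) ≤ t + 1 := by linarith [(abs_le.1 h3).2]
      exact_mod_cast this
    rw [Real.dist_eq]
    have := h1 s t h4 le_self_add h2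
    linarith
  · rw [Metric.tendstoUniformlyOn_iff]
    intro κ hκ
    obtain ⟨η, hη, h1, h2⟩ := hymod T (κ / 4) (by positivity)
    obtain ⟨m, hm⟩ := exists_nat_gt ((T : ℝ) / η)
    have hm' : (T : ℝ) ≤ m * η := by
      rw [div_lt_iff₀ hη] at hm; exact hm.le
    have h3 : ∀ᶠ k in (U : Filter ℕ), ∀ i ∈ Finset.range (m + 1),
        |x k (i * η.toNNReal) - y (i * η.toNNReal)| ≤ κ / 4 := by
      rw [Filter.eventually_all_finset]
      intro i _
      have := (hy (i * η.toNNReal)).sub_const (y (i * η.toNNReal))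
      rw [sub_self] at this
      have := this.abs
      rw [abs_zero] at this
      exact (this.eventually (gt_mem_nhds (by positivity : 0 < κ / 4))).mono fun k hk => hk.le
    filter_upwards [h2, h3] with k hk2 hk3 t ht
    have ht : t ≤ T := ht
    have hηn : ((η.toNNReal : ℝ≥0) : ℝ) = η := Real.coe_toNNReal _ hη.le
    set i : ℕ := ⌊(t : ℝ) / η⌋₊ with hi
    have hi1 : (i : ℝ) ≤ (t : ℝ) / η := Nat.floor_le (by positivity)
    have hi2 : (t : ℝ) / η < i + 1 := Nat.lt_floor_add_one _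
    rw [le_div_iff₀ hη] at hi1
    rw [div_lt_iff₀ hη] at hi2
    have hTr : (t : ℝ) ≤ T := by exact_mod_cast ht
    have him : i ∈ Finset.range (m + 1) := by
      rw [Finset.mem_range]
      have : (i : ℝ) * η ≤ m * η := hi1.trans (hTr.trans hm')
      have h4 : (i : ℝ) ≤ m := le_of_mul_le_mul_right this hη
      have : i ≤ m := by exact_mod_cast h4
      omega
    have hc : (((i : ℝ≥0) * η.toNNReal : ℝ≥0) : ℝ) = i * η := by
      rw [NNReal.coe_mul, hηn]; simp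
    have hle : (i : ℝ≥0) * η.toNNReal ≤ T := by
      have : (((i : ℝ≥0) * η.toNNReal : ℝ≥0) : ℝ) ≤ T := by rw [hc]; linarith
      exact_mod_cast this
    have hd : |(((i : ℝ≥0) * η.toNNReal : ℝ≥0) : ℝ) - t| ≤ η := by
      rw [hc, abs_le]
      constructor <;> nlinarith
    have e1 := h1 _ _ hle ht hd
    have e2 := hk2 _ _ hle ht hd
    have e3 := hk3 i him
    rw [Real.dist_eq]
    rw [abs_le] at e1 e2 e3
    rw [abs_lt]
    constructor <;> linarith [e1.1, e1.2, e2.1, e2.2, e3.1, e3.2]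

/-- discretized paths converge to the same limit -/
lemma FC_pi_conv {ι : Type*} {l : Filter ι} {x : ι → SkoD} {N : ι → ℕ} {y : ℝ≥0 → ℝ}
    (hyc : Continuous y) (hx : ∀ T : ℝ≥0, TendstoUniformlyOn (fun k => (x k).1) y l (Set.Iic T))
    (hN : Tendsto N l atTop) (T : ℝ≥0) :
    TendstoUniformlyOn (fun k => (FC_pi (N k) (x k)).1) y l (Set.Iic T) := by
  rw [Metric.tendstoUniformlyOn_iff]
  intro κ hκ
  have h1 := Metric.tendstoUniformlyOn_iff.1 (hx T) (κ / 2) (by positivity)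
  have huc : UniformContinuousOn y (Set.Icc 0 T) :=
    isCompact_Icc.uniformContinuousOn_of_continuous hyc.continuousOn
  obtain ⟨η, hη, h2⟩ := Metric.uniformContinuousOn_iff.1 huc (κ / 2) (by positivity)
  obtain ⟨n0, hn0⟩ := exists_nat_gt (max (T : ℝ) (1 / η))
  filter_upwards [h1, hN.eventually_ge_atTop n0] with k hk1 hk2 t ht
  have ht : t ≤ T := ht
  have hn1 : (n0 : ℝ) ≤ N k := by exact_mod_cast hk2
  have hn2 : (T : ℝ) < n0 := (le_max_left _ _).trans_lt hn0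
  have hn3 : 1 / η < n0 := (le_max_right _ _).trans_lt hn0
  have htr : (t : ℝ) ≤ T := by exact_mod_cast ht
  have htN : t ≤ N k := by
    have : (t : ℝ) ≤ N k := by linarith
    exact_mod_cast this
  have h3 := FC_t_near (N k) htN
  have h4 := FC_t_le (N k) t
  have h5 : 1 / ((N k : ℝ) + 1) < η := by
    rw [div_lt_iff₀ (by positivity)]
    rw [div_lt_iff₀ hη] at hn3
    nlinarith
  have e1 := hk1 (FC_t (N k) t) (h4.trans ht)
  have e2 := h2 t ⟨zero_le, ht⟩ (FC_t (N k) t) ⟨zero_le, h4.trans ht⟩ (by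
    rw [NNReal.dist_eq]
    linarith)
  rw [FC_pi_apply]
  have := dist_triangle (y t) (y (FC_t (N k) t)) ((x k).1 (FC_t (N k) t))
  linarith

lemma FC_cadlag {y : ℝ≥0 → ℝ} (hy : Continuous y) : H40.Voter.Cadlag y := fun t =>
  ⟨hy.continuousWithinAt, y t, (hy.tendsto t).mono_left nhdsWithin_le_nhds⟩

/-- the comparison of a path with its discretization, uniformly on a family of paths -/
lemma FC_compare {G : SkoD → ℝ} (hG : SkoContinuous G) {R : ℝ} {η e : ℕ → ℝ}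
    (hη : ∀ j, 0 < η j) (he : ∀ j, 0 < e j) {c : ℝ} (hc : 0 < c) :
    ∃ ε₀ : ℝ, 0 < ε₀ ∧ ∃ N₀ : ℕ, ∀ ε : ℝ, 0 < ε → ε < ε₀ → ∀ N ≥ N₀, ∀ x : SkoD,
      |x.1 0| ≤ R → (∀ j : ℕ, ε < e j → ∀ s t : ℝ≥0, s ≤ j → t ≤ j → |(s : ℝ) - t| ≤ η j →
        |x.1 s - x.1 t| ≤ 1 / ((j : ℝ) + 1)) → |G x - G (FC_pi N x)| ≤ c := by
  by_contra hcon
  push Not at hcon
  have hseq : ∀ k : ℕ, ∃ ε : ℝ, 0 < ε ∧ ε < 1 / ((k : ℝ) + 1) ∧ ∃ N ≥ k, ∃ x : SkoD,
      |x.1 0| ≤ R ∧ (∀ j : ℕ, ε < e j → ∀ s t : ℝ≥0, s ≤ j → t ≤ j → |(s : ℝ) - t| ≤ η j →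
        |x.1 s - x.1 t| ≤ 1 / ((j : ℝ) + 1)) ∧ c < |G x - G (FC_pi N x)| := by
    intro k
    obtain ⟨ε, h1, h2, N, h3, x, h4, h5, h6⟩ := hcon (1 / ((k : ℝ) + 1)) (by positivity) k
    exact ⟨ε, h1, h2, N, h3, x, h4, h5, h6⟩
  choose ε hε0 hεk N hN x hx0 hxm hxc using hseq
  obtain ⟨U, hU⟩ : ∃ U : Ultrafilter ℕ, (U : Filter ℕ) ≤ atTop :=
    ⟨Ultrafilter.of atTop, Ultrafilter.of_le atTop⟩
  have hεlim : Tendsto ε atTop (𝓝 0) :=
    squeeze_zero (fun k => (hε0 k).le) (fun k => (hεk k).le) tendsto_one_div_add_atTop_nhds_zero_nat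
  obtain ⟨y, hyc, hy⟩ := FC_compact U hU (x := fun k => (x k).1) hx0 (by
    intro T κ hκ
    obtain ⟨j, hj⟩ := exists_nat_gt (max (T : ℝ) (1 / κ))
    have hj1 : (T : ℝ) < j := (le_max_left _ _).trans_lt hj
    have hj2 : 1 / κ < j := (le_max_right _ _).trans_lt hj
    refine ⟨η j, hη j, ?_⟩
    filter_upwards [hεlim.eventually (gt_mem_nhds (he j))] with k hk s t hs ht hst
    have hTj : T ≤ (j : ℝ≥0) := by
      have : (T : ℝ) ≤ j := hj1.le
      exact_mod_cast this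
    refine (hxm k j hk s t (hs.trans hTj) (ht.trans hTj) hst).trans ?_
    rw [div_le_iff₀ (by positivity)]
    rw [div_lt_iff₀ hκ] at hj2
    nlinarith)
  have hNlim : Tendsto N atTop atTop := tendsto_atTop_mono hN tendsto_id
  have hy2 := fun T => FC_pi_conv hyc hy (hNlim.mono_left hU) T
  -- extract a sequence
  have hex : ∀ n : ℕ, ∃ k : ℕ, (∀ t : ℝ≥0, t ≤ n → |y t - (x k).1 t| < 1 / ((n : ℝ) + 1)) ∧
      (∀ t : ℝ≥0, t ≤ n → |y t - (FC_pi (N k) (x k)).1 t| < 1 / ((n : ℝ) + 1)) := by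
    intro n
    have h1 := Metric.tendstoUniformlyOn_iff.1 (hy n) (1 / ((n : ℝ) + 1)) (by positivity)
    have h2 := Metric.tendstoUniformlyOn_iff.1 (hy2 n) (1 / ((n : ℝ) + 1)) (by positivity)
    obtain ⟨k, hk1, hk2⟩ := (h1.and h2).exists
    exact ⟨k, fun t ht => hk1 t ht, fun t ht => hk2 t ht⟩
  choose φ hφ1 hφ2 using hex
  have hconv : ∀ (z : ℕ → SkoD), (∀ n : ℕ, ∀ t : ℝ≥0, t ≤ n → |y t - (z n).1 t| <
      1 / ((n : ℝ) + 1)) → SkoTendsto z ⟨y, FC_cadlag hyc⟩ := by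
    intro z hz
    apply FC_sko
    intro T
    rw [Metric.tendstoUniformlyOn_iff]
    intro κ hκ
    obtain ⟨n0, hn0⟩ := exists_nat_gt (max (T : ℝ) (1 / κ))
    filter_upwards [eventually_ge_atTop n0] with n hn t ht
    have ht : t ≤ T := ht
    have hn' : (n0 : ℝ) ≤ n := by exact_mod_cast hn
    have hn1 : (T : ℝ) < n0 := (le_max_left _ _).trans_lt hn0
    have hn2 : 1 / κ < n0 := (le_max_right _ _).trans_lt hn0
    have htn : t ≤ (n : ℝ≥0) := by
      have h1 : (t : ℝ) ≤ T := by exact_mod_cast ht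
      have : (t : ℝ) ≤ n := by linarith
      exact_mod_cast this
    rw [Real.dist_eq]
    refine (hz n t htn).trans_le ?_
    rw [div_le_iff₀ (by positivity)]
    rw [div_lt_iff₀ hκ] at hn2
    nlinarith
  have l1 := hG _ _ (hconv (fun n => x (φ n)) hφ1)
  have l2 := hG _ _ (hconv (fun n => FC_pi (N (φ n)) (x (φ n))) hφ2)
  have l3 := (l1.sub l2).abs
  rw [sub_self, abs_zero] at l3
  obtain ⟨n, hn⟩ := (l3.eventually (gt_mem_nhds hc)).exists
  exact absurd hn (not_lt.2 (hxc (φ n)).le)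

/-! ### discretized functionals -/

lemma FC_grid_mem (N i : ℕ) : ((min i ((N + 1) ^ 2) : ℕ) : ℝ≥0) / FC_M N ∈
    (Finset.range ((N + 1) ^ 2 + 1)).image (fun i : ℕ => (i : ℝ≥0) / FC_M N) := by
  refine Finset.mem_image.2 ⟨min i ((N + 1) ^ 2), ?_, rfl⟩
  rw [Finset.mem_range]
  have := min_le_right i ((N + 1) ^ 2)
  omega

/-- the grid -/
noncomputable def FC_grid (N : ℕ) : Finset ℝ≥0 :=
  (Finset.range ((N + 1) ^ 2 + 1)).image (fun i : ℕ => (i : ℝ≥0) / FC_M N)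

/-- the step path of a function on the grid -/
noncomputable def FC_sp (N : ℕ) (w : FC_grid N → ℝ) : SkoD :=
  FC_step N fun i => w ⟨_, FC_grid_mem N i⟩

lemma FC_sp_pi (N : ℕ) (x : SkoD) : FC_sp N (fun t => x.1 t) = FC_pi N x := by
  apply Subtype.ext
  funext t
  change x.1 (((min (min ⌊t * FC_M N⌋₊ ((N + 1) ^ 2)) ((N + 1) ^ 2) : ℕ) : ℝ≥0) / FC_M N) =
    x.1 (((min ⌊t * FC_M N⌋₊ ((N + 1) ^ 2) : ℕ) : ℝ≥0) / FC_M N)
  rw [min_assoc, min_self]

lemma FC_continuous {G : SkoD → ℝ} (hG : SkoContinuous G) (N : ℕ) :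
    Continuous fun w : FC_grid N → ℝ => G (FC_sp N w) := by
  apply SeqContinuous.continuous
  intro w v hw
  apply hG
  apply FC_sko
  intro T
  rw [Metric.tendstoUniformlyOn_iff]
  intro κ hκ
  filter_upwards [Metric.tendsto_nhds.1 hw κ hκ] with n hn t _
  have h1 := dist_le_pi_dist (w n) v ⟨_, FC_grid_mem N (min ⌊t * FC_M N⌋₊ ((N + 1) ^ 2))⟩
  rw [dist_comm] at h1
  exact h1.trans_lt hn

/-! ### the theorem -/

theorem conv_of_fdd_of_mod {Ω : ℝ → Type} [∀ ε, MeasurableSpace (Ω ε)] {P : ∀ ε, Measure (Ω ε)}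
    [∀ ε, IsProbabilityMeasure (P ε)] {Y : ∀ ε, Ω ε → SkoD} (hY : ∀ ε, Measurable (Y ε))
    {Ω' : Type} [MeasurableSpace Ω'] {P' : Measure Ω'} [IsProbabilityMeasure P'] {Z : Ω' → SkoD}
    (hZ : Measurable Z) (hcont : ∀ᵐ ω ∂P', Continuous (Z ω).1)
    (fdd : ∀ (s : Finset ℝ≥0) (g : (s → ℝ) →ᵇ ℝ),
      Tendsto (fun ε : ℝ => ∫ ω, g (fun t => (Y ε ω).1 t) ∂(P ε)) (𝓝[>] 0)
        (𝓝 (∫ ω, g (fun t => (Z ω).1 t) ∂P')))
    (mod : ∀ (T : ℝ≥0) (κ δ : ℝ), 0 < κ → 0 < δ → ∃ η : ℝ, 0 < η ∧ ∀ᶠ ε : ℝ in 𝓝[>] 0,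
      P ε {ω | ∃ s t : ℝ≥0, s ≤ T ∧ t ≤ T ∧ |(s : ℝ) - t| ≤ η ∧
        κ < |(Y ε ω).1 s - (Y ε ω).1 t|} ≤ ENNReal.ofReal δ) :
    ConvInLaw P Y P' Z := by
  intro G hGm ⟨C, hC⟩ hG
  have hCpos : 0 ≤ C := (abs_nonneg _).trans (hC (FC_step 0 0))
  have hGi : ∀ {Ω₀ : Type} [MeasurableSpace Ω₀] {μ : Measure Ω₀} [IsProbabilityMeasure μ]
      {V : Ω₀ → SkoD}, Measurable V → Integrable (fun ω => G (V ω)) μ := by
    intro Ω₀ _ μ _ V hV
    refine (integrable_const C).mono' (hGm.comp hV).aestronglyMeasurable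
      (Eventually.of_forall fun ω => ?_)
    rw [Real.norm_eq_abs]
    exact hC _
  -- (B)
  have hB : ∀ N : ℕ, Tendsto (fun ε : ℝ => ∫ ω, G (FC_pi N (Y ε ω)) ∂(P ε)) (𝓝[>] 0)
      (𝓝 (∫ ω, G (FC_pi N (Z ω)) ∂P')) := by
    intro N
    have h1 := fdd (FC_grid N) (BoundedContinuousFunction.ofNormedAddCommGroup
      (fun w : FC_grid N → ℝ => G (FC_sp N w)) (FC_continuous hG N) C
      (fun w => by rw [Real.norm_eq_abs]; exact hC _))
    simp only [BoundedContinuousFunction.coe_ofNormedAddCommGroup, FC_sp_pi] at h1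
    exact h1
  -- (C)
  have hCc : Tendsto (fun N : ℕ => ∫ ω, G (FC_pi N (Z ω)) ∂P') atTop (𝓝 (∫ ω, G (Z ω) ∂P')) := by
    refine tendsto_integral_of_dominated_convergence (fun _ => C)
      (fun N => (hGm.comp ((FC_measurable_pi N).comp hZ)).aestronglyMeasurable)
      (integrable_const C) (fun N => Eventually.of_forall fun ω => ?_) ?_
    · rw [Real.norm_eq_abs]; exact hC _
    · filter_upwards [hcont] with ω hω
      apply hG
      apply FC_sko
      intro T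
      exact FC_pi_conv hω (fun T => by
        rw [Metric.tendstoUniformlyOn_iff]
        intro κ hκ
        exact Eventually.of_forall fun n t _ => by rw [dist_self]; exact hκ) tendsto_id T
  rw [Metric.tendsto_nhds]
  intro κ hκ
  obtain ⟨ν, hν, hνκ⟩ : ∃ ν : ℝ, 0 < ν ∧ 3 * ν + 4 * C * ν < κ := by
    refine ⟨κ / (4 + 4 * C), by positivity, ?_⟩
    have : 3 * (κ / (4 + 4 * C)) + 4 * C * (κ / (4 + 4 * C)) =
        κ * ((3 + 4 * C) / (4 + 4 * C)) := by ring
    rw [this]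
    have h2 : (3 + 4 * C) / (4 + 4 * C) < 1 := by
      rw [div_lt_one (by positivity)]; linarith
    nlinarith
  -- tightness at time zero
  obtain ⟨R, hR⟩ : ∃ R : ℝ, ∀ᶠ ε : ℝ in 𝓝[>] 0,
      P ε {ω | ¬ |(Y ε ω).1 0| ≤ R} ≤ ENNReal.ofReal ν := by
    have hlim : Tendsto (fun n : ℕ => ∫ ω, min 1 (max 0 (|(Z ω).1 0| - (n : ℝ))) ∂P') atTop
        (𝓝 (∫ _ω : Ω', (0 : ℝ) ∂P')) := by
      refine tendsto_integral_of_dominated_convergence (fun _ => (1 : ℝ)) (fun n => ?_)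
        (integrable_const 1) (fun n => Eventually.of_forall fun ω => ?_)
        (Eventually.of_forall fun ω => ?_)
      · have h0 : Measurable fun ω => (Z ω).1 0 :=
          (measurable_pi_apply (0 : ℝ≥0)).comp (measurable_subtype_coe.comp hZ)
        exact (measurable_const.min (measurable_const.max
          ((continuous_abs.measurable.comp h0).sub measurable_const))).aestronglyMeasurable
      · rw [Real.norm_eq_abs, abs_of_nonneg (le_min zero_le_one (le_max_left _ _))]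
        exact min_le_left _ _
      · refine tendsto_const_nhds.congr' ?_
        obtain ⟨n0, hn0⟩ := exists_nat_gt |(Z ω).1 0|
        filter_upwards [eventually_ge_atTop n0] with n hn
        have hn' : (n0 : ℝ) ≤ n := by exact_mod_cast hn
        rw [max_eq_left (by linarith), min_eq_right zero_le_one]
    rw [integral_zero] at hlim
    obtain ⟨n, hn⟩ := (hlim.eventually (gt_mem_nhds hν)).exists
    refine ⟨n + 1, ?_⟩
    have h0mem : (0 : ℝ≥0) ∈ ({0} : Finset ℝ≥0) := Finset.mem_singleton_self _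
    have h1 := fdd {0} (BoundedContinuousFunction.ofNormedAddCommGroup
      (fun w : ({0} : Finset ℝ≥0) → ℝ => min 1 (max 0 (|w ⟨0, h0mem⟩| - (n : ℝ)))) (by fun_prop) 1
      (fun w => by
        rw [Real.norm_eq_abs, abs_of_nonneg (le_min zero_le_one (le_max_left _ _))]
        exact min_le_left _ _))
    simp only [BoundedContinuousFunction.coe_ofNormedAddCommGroup] at h1
    filter_upwards [h1.eventually (gt_mem_nhds hn)] with ε hε
    have hmeas0 : Measurable fun ω => (Y ε ω).1 0 :=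
      (measurable_pi_apply (0 : ℝ≥0)).comp (measurable_subtype_coe.comp (hY ε))
    have hfi : Integrable (fun ω => min 1 (max 0 (|(Y ε ω).1 0| - (n : ℝ)))) (P ε) := by
      refine (integrable_const (1 : ℝ)).mono' (measurable_const.min (measurable_const.max
          ((continuous_abs.measurable.comp hmeas0).sub measurable_const))).aestronglyMeasurable
          (Eventually.of_forall fun ω => ?_)
      rw [Real.norm_eq_abs, abs_of_nonneg (le_min zero_le_one (le_max_left _ _))]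
      exact min_le_left _ _
    have h2 := mul_meas_ge_le_integral_of_nonneg (μ := P ε)
      (f := fun ω => min 1 (max 0 (|(Y ε ω).1 0| - (n : ℝ))))
      (Eventually.of_forall fun ω => le_min zero_le_one (le_max_left _ _)) hfi 1
    rw [one_mul] at h2
    have h3 : (P ε).real {ω | 1 ≤ min 1 (max 0 (|(Y ε ω).1 0| - (n : ℝ)))} ≤ ν := h2.trans hε.le
    have h4 : P ε {ω | 1 ≤ min 1 (max 0 (|(Y ε ω).1 0| - (n : ℝ)))} ≤ ENNReal.ofReal ν := by
      rw [← ENNReal.ofReal_toReal (measure_ne_top (P ε) _)]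
      exact ENNReal.ofReal_le_ofReal h3
    refine (measure_mono ?_).trans h4
    intro ω hω
    have hω : ¬ |(Y ε ω).1 0| ≤ (n : ℝ) + 1 := hω
    push Not at hω
    change 1 ≤ min 1 (max 0 (|(Y ε ω).1 0| - (n : ℝ)))
    exact le_min le_rfl ((by linarith : (1 : ℝ) ≤ |(Y ε ω).1 0| - n).trans (le_max_right _ _))
  -- moduli
  have hm : ∀ j : ℕ, ∃ η e : ℝ, 0 < η ∧ 0 < e ∧ ∀ ε : ℝ, 0 < ε → ε < e →
      P ε {ω | ∃ s t : ℝ≥0, s ≤ (j : ℝ≥0) ∧ t ≤ (j : ℝ≥0) ∧ |(s : ℝ) - t| ≤ η ∧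
        1 / ((j : ℝ) + 1) < |(Y ε ω).1 s - (Y ε ω).1 t|} ≤ ENNReal.ofReal (ν / 2 ^ (j + 1)) := by
    intro j
    obtain ⟨η, hη, hev⟩ := mod j (1 / ((j : ℝ) + 1)) (ν / 2 ^ (j + 1)) (by positivity)
      (by positivity)
    obtain ⟨e, he, he2⟩ := (mem_nhdsGT_iff_exists_Ioo_subset.1 hev)
    exact ⟨η, e, hη, he, fun ε h1 h2 => he2 ⟨h1, h2⟩⟩
  choose η e hη he hbad using hm
  obtain ⟨ε₀, hε₀, N₀, hcmp⟩ := FC_compare hG (R := R) hη he hν
  obtain ⟨N, hN1, hN2⟩ : ∃ N : ℕ, N₀ ≤ N ∧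
      |∫ ω, G (FC_pi N (Z ω)) ∂P' - ∫ ω, G (Z ω) ∂P'| < ν := by
    obtain ⟨N, h1, h2⟩ := ((eventually_ge_atTop N₀).and (Metric.tendsto_nhds.1 hCc ν hν)).exists
    exact ⟨N, h1, h2⟩
  filter_upwards [hR, Metric.tendsto_nhds.1 (hB N) ν hν, self_mem_nhdsWithin,
    Ioo_mem_nhdsGT hε₀] with ε hε1 hε2 hε3 hε4
  have hε3 : 0 < ε := hε3
  rw [Real.dist_eq] at hε2 ⊢
  -- the bad event
  set Bad : Set (Ω ε) := {ω | ¬ |(Y ε ω).1 0| ≤ R} ∪ ⋃ j : ℕ, {ω | ε < e j ∧
    ∃ s t : ℝ≥0, s ≤ (j : ℝ≥0) ∧ t ≤ (j : ℝ≥0) ∧ |(s : ℝ) - t| ≤ η j ∧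
        1 / ((j : ℝ) + 1) < |(Y ε ω).1 s - (Y ε ω).1 t|} with hBad
  have hBadP : P ε Bad ≤ ENNReal.ofReal (2 * ν) := by
    refine (measure_union_le _ _).trans ?_
    have h1 : P ε (⋃ j : ℕ, {ω | ε < e j ∧
        ∃ s t : ℝ≥0, s ≤ (j : ℝ≥0) ∧ t ≤ (j : ℝ≥0) ∧ |(s : ℝ) - t| ≤ η j ∧
        1 / ((j : ℝ) + 1) < |(Y ε ω).1 s - (Y ε ω).1 t|}) ≤ ENNReal.ofReal ν := by
      refine (measure_iUnion_le _).trans ?_
      have h2 : ∀ j : ℕ, P ε {ω | ε < e j ∧
          ∃ s t : ℝ≥0, s ≤ (j : ℝ≥0) ∧ t ≤ (j : ℝ≥0) ∧ |(s : ℝ) - t| ≤ η j ∧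
          1 / ((j : ℝ) + 1) < |(Y ε ω).1 s - (Y ε ω).1 t|} ≤ ENNReal.ofReal (ν / 2 ^ (j + 1)) := by
        intro j
        by_cases hj : ε < e j
        · refine (measure_mono ?_).trans (hbad j ε hε3 hj)
          intro ω hω
          exact hω.2
        · have : {ω | ε < e j ∧
            ∃ s t : ℝ≥0, s ≤ (j : ℝ≥0) ∧ t ≤ (j : ℝ≥0) ∧ |(s : ℝ) - t| ≤ η j ∧
            1 / ((j : ℝ) + 1) < |(Y ε ω).1 s - (Y ε ω).1 t|} = (∅ : Set (Ω ε)) := by
            ext ω
            simp [hj]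
          rw [this, measure_empty]
          exact zero_le
      refine (ENNReal.tsum_le_tsum h2).trans ?_
      have h3 : HasSum (fun j : ℕ => ν / 2 ^ (j + 1)) ν := by
        have := (hasSum_geometric_two' ν)
        refine this.congr_fun fun j => ?_
        rw [pow_succ]; ring
      rw [← ENNReal.ofReal_tsum_of_nonneg (fun j => by positivity) h3.summable, h3.tsum_eq]
    refine (add_le_add hε1 h1).trans (le_of_eq ?_)
    rw [← ENNReal.ofReal_add hν.le hν.le]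
    congr 1
    ring
  have hgood : ∀ ω, ω ∉ Bad → |G (Y ε ω) - G (FC_pi N (Y ε ω))| ≤ ν := by
    intro ω hω
    rw [hBad, Set.mem_union, not_or, Set.mem_iUnion, not_exists] at hω
    obtain ⟨hω1, hω2⟩ := hω
    refine hcmp ε hε3 hε4.2 N hN1 (Y ε ω) (by simpa using hω1) ?_
    intro j hj s t hs ht hst
    by_contra hc
    exact hω2 j ⟨hj, s, t, hs, ht, hst, not_le.1 hc⟩
  have hmain : |∫ ω, G (Y ε ω) ∂(P ε) - ∫ ω, G (FC_pi N (Y ε ω)) ∂(P ε)| ≤
      ν + 2 * C * (2 * ν) := by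
    have hsub := integral_sub (μ := P ε) (hGi (hY ε)) (hGi ((FC_measurable_pi N).comp (hY ε)))
    simp only [Function.comp_apply] at hsub
    rw [← hsub]
    set B : Set (Ω ε) := toMeasurable (P ε) Bad with hBdef
    have hBm : MeasurableSet B := measurableSet_toMeasurable _ _
    have hBP : P ε B ≤ ENNReal.ofReal (2 * ν) := by rw [hBdef, measure_toMeasurable]; exact hBadP
    have hint : Integrable (fun ω => ν + B.indicator (fun _ => 2 * C) ω) (P ε) :=
      (integrable_const ν).add ((integrable_const (2 * C)).indicator hBm)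
    rw [← Real.norm_eq_abs]
    refine (norm_integral_le_of_norm_le hint (Eventually.of_forall fun ω => ?_)).trans ?_
    · rw [Real.norm_eq_abs]
      by_cases hω : ω ∈ B
      · rw [Set.indicator_of_mem hω]
        have h1 := hC (Y ε ω)
        have h2 := hC (FC_pi N (Y ε ω))
        rw [abs_le] at h1 h2 ⊢
        constructor <;> linarith [h1.1, h1.2, h2.1, h2.2]
      · rw [Set.indicator_of_notMem hω, add_zero]
        exact hgood ω fun h => hω (subset_toMeasurable _ _ h)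
    · rw [integral_add (integrable_const ν) ((integrable_const (2 * C)).indicator hBm),
        integral_indicator_const _ hBm]
      simp only [integral_const, probReal_univ, one_smul, smul_eq_mul]
      have : (P ε).real B ≤ 2 * ν := by
        unfold Measure.real
        exact ENNReal.toReal_le_of_le_ofReal (by positivity) hBP
      nlinarith
  rw [abs_lt] at hε2 hN2
  rw [abs_le] at hmain
  rw [abs_lt]
  constructor <;> linarith [hε2.1, hε2.2, hN2.1, hN2.2, hmain.1, hmain.2]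

end H40.VM
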