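import Pool.Agent.H40.Voter.Ctmc

/-!
# Module LV: finite dimensional laws of drifted Brownian motion, Lévy's theorem

* `char_bm`: linear combinations of a Brownian motion are Gaussian (`IsBrownianReal`,
  `IsPreBrownianReal.isGaussianProcess`, covariance `min s t`), so
  `E exp (i ∑ θ_t (σ B_t + μ t)) = exp (-(σ²/2) ∑∑ θ_t θ_r min t r + i μ ∑ θ_t t)`.
* `fdd_of_char`: Lévy's convergence theorem `ProbabilityMeasure.tendsto_iff_tendsto_charFun` in
  `EuclideanSpace ℝ s` along sequences `ε_n → 0+` (`tendsto_of_seq_tendsto`).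
-/

open MeasureTheory ProbabilityTheory Filter Topology
open scoped ENNReal NNReal BoundedContinuousFunction

namespace H40.VM

open H40.Voter (SkoD IsDriftedBM)

theorem char_bm {Ω : Type*} [MeasurableSpace Ω] {P : Measure Ω} [IsProbabilityMeasure P]
    {σ μ : ℝ} {Z : Ω → SkoD} (h : IsDriftedBM P σ μ Z) (s : Finset ℝ≥0) (θ : ℝ≥0 → ℝ) :
    ∫ ω, Complex.exp ((∑ t ∈ s, θ t * (Z ω).1 t : ℝ) * Complex.I) ∂P =
      Complex.exp (-(σ ^ 2 / 2 * ∑ t ∈ s, ∑ r ∈ s, θ t * θ r * min (t : ℝ) r : ℝ) +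
        (μ * ∑ t ∈ s, θ t * t : ℝ) * Complex.I) := by
  classical
  obtain ⟨B, hB, hZ⟩ := h
  have hpre := hB.toIsPreBrownianReal
  set X : Ω → ℝ := fun ω => ∑ t ∈ s, (σ * θ t) * B t ω with hXdef
  set m : ℝ := μ * ∑ t ∈ s, θ t * t with hm
  have hX : HasGaussianLaw X P := by
    have h1 := (hpre.isGaussianProcess.hasGaussianLaw s).map_fun
      (∑ t : s, (σ * θ t) • (ContinuousLinearMap.proj (R := ℝ) (φ := fun _ : s => ℝ) t))
    refine h1.congr (Eventually.of_forall fun ω => ?_)
    simp only [hXdef, _root_.sum_apply, _root_.smul_apply,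
      ContinuousLinearMap.proj_apply, Finset.restrict_def, smul_eq_mul]
    exact Finset.sum_coe_sort s (fun t => (σ * θ t) * B t ω)
  have hmean : P[X] = 0 := by
    rw [hXdef, integral_finsetSum]
    · refine Finset.sum_eq_zero fun t _ => ?_
      rw [integral_const_mul, hpre.integral_eval t, mul_zero]
    · intro t _
      exact (hpre.integrable_eval t).const_mul _
  have hvar : Var[X; P] = σ ^ 2 * ∑ t ∈ s, ∑ r ∈ s, θ t * θ r * min (t : ℝ) r := by
    rw [← covariance_self hX.aemeasurable, hXdef, covariance_fun_sum_fun_sum']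
    · rw [Finset.mul_sum]
      refine Finset.sum_congr rfl fun t _ => ?_
      rw [Finset.mul_sum]
      refine Finset.sum_congr rfl fun r _ => ?_
      rw [covariance_const_mul_left, covariance_const_mul_right, hpre.covariance_fun_eval t r]
      push_cast
      ring
    · intro t _
      exact ((hpre.isGaussianProcess.hasGaussianLaw_eval t).memLp_two).const_mul _
    · intro t _
      exact ((hpre.isGaussianProcess.hasGaussianLaw_eval t).memLp_two).const_mul _
  have hvar0 : 0 ≤ Var[X; P] := variance_nonneg X P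
  have hchar : ∫ ω, Complex.exp ((X ω : ℂ) * Complex.I) ∂P =
      Complex.exp (-(Var[X; P] / 2 : ℝ)) := by
    have h1 : charFun (P.map X) 1 = ∫ ω, Complex.exp ((X ω : ℂ) * Complex.I) ∂P := by
      rw [charFun_apply_real, integral_map hX.aemeasurable]
      · simp
      · exact Measurable.aestronglyMeasurable (by fun_prop)
    rw [← h1, hX.map_eq_gaussianReal, charFun_gaussianReal, hmean]
    congr 1
    rw [Real.coe_toNNReal _ hvar0]
    push_cast
    ring
  have hsum : ∀ᵐ ω ∂P, Complex.exp ((∑ t ∈ s, θ t * (Z ω).1 t : ℝ) * Complex.I) =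
      Complex.exp ((X ω : ℂ) * Complex.I) * Complex.exp ((m : ℂ) * Complex.I) := by
    filter_upwards [hZ] with ω hω
    rw [← Complex.exp_add, ← add_mul, ← Complex.ofReal_add]
    congr 3
    simp only [hXdef, hm]
    rw [Finset.mul_sum, ← Finset.sum_add_distrib]
    refine Finset.sum_congr rfl fun t _ => ?_
    rw [hω t]
    ring
  rw [integral_congr_ae hsum, integral_mul_const, hchar, ← Complex.exp_add, hvar]
  congr 2
  push_cast
  ring

private theorem measurable_coordLV (t : ℝ≥0) : Measurable (fun x : SkoD => x.1 t) :=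
  (measurable_pi_apply t).comp
    (measurable_subtype_coe : Measurable (Subtype.val : {x : ℝ≥0 → ℝ // H40.Voter.Cadlag x} → _))

theorem fdd_of_char {Ω : ℝ → Type} [∀ ε, MeasurableSpace (Ω ε)] {P : ∀ ε, Measure (Ω ε)}
    [∀ ε, IsProbabilityMeasure (P ε)] {Y : ∀ ε, Ω ε → SkoD} (hY : ∀ ε, Measurable (Y ε))
    {Ω' : Type} [MeasurableSpace Ω'] {P' : Measure Ω'} [IsProbabilityMeasure P'] {Z : Ω' → SkoD}
    (hZ : Measurable Z)
    (h : ∀ (s : Finset ℝ≥0) (θ : ℝ≥0 → ℝ),
      Tendsto (fun ε : ℝ => ∫ ω, Complex.exp ((∑ t ∈ s, θ t * (Y ε ω).1 t : ℝ) * Complex.I) ∂(P ε))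
        (𝓝[>] 0) (𝓝 (∫ ω, Complex.exp ((∑ t ∈ s, θ t * (Z ω).1 t : ℝ) * Complex.I) ∂P')))
    (s : Finset ℝ≥0) (g : (s → ℝ) →ᵇ ℝ) :
    Tendsto (fun ε : ℝ => ∫ ω, g (fun t => (Y ε ω).1 t) ∂(P ε)) (𝓝[>] 0)
      (𝓝 (∫ ω, g (fun t => (Z ω).1 t) ∂P')) := by
  classical
  refine tendsto_of_seq_tendsto fun e he => ?_
  -- the random vectors
  set V : ∀ ε, Ω ε → EuclideanSpace ℝ s := fun ε ω => WithLp.toLp 2 (fun t : s => (Y ε ω).1 t)
    with hV
  set W : Ω' → EuclideanSpace ℝ s := fun ω => WithLp.toLp 2 (fun t : s => (Z ω).1 t) with hW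
  have hVm : ∀ ε, Measurable (V ε) := by
    intro ε
    refine (WithLp.measurable_toLp 2 (s → ℝ)).comp ?_
    exact measurable_pi_lambda _ fun t => (measurable_coordLV t).comp (hY ε)
  have hWm : Measurable W := by
    refine (WithLp.measurable_toLp 2 (s → ℝ)).comp ?_
    exact measurable_pi_lambda _ fun t => (measurable_coordLV t).comp hZ
  have hinner : ∀ (x : s → ℝ) (v : EuclideanSpace ℝ s),
      (inner ℝ (WithLp.toLp 2 x : EuclideanSpace ℝ s) v : ℝ) = ∑ t : s, v t * x t := by
    intro x v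
    rw [PiLp.inner_apply]
    simp
  let μn : ℕ → ProbabilityMeasure (EuclideanSpace ℝ s) := fun n =>
    ⟨(P (e n)).map (V (e n)), Measure.isProbabilityMeasure_map (hVm _).aemeasurable⟩
  let μ0 : ProbabilityMeasure (EuclideanSpace ℝ s) :=
    ⟨P'.map W, Measure.isProbabilityMeasure_map hWm.aemeasurable⟩
  have hconv : Tendsto μn atTop (𝓝 μ0) := by
    refine ProbabilityMeasure.tendsto_of_tendsto_charFun fun v => ?_
    set θ : ℝ≥0 → ℝ := fun t => if ht : t ∈ s then v ⟨t, ht⟩ else 0 with hθ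
    have hsum : ∀ x : ℝ≥0 → ℝ, ∑ t : s, v t * x t = ∑ t ∈ s, θ t * x t := by
      intro x
      rw [← Finset.sum_coe_sort s (fun t => θ t * x t)]
      refine Finset.sum_congr rfl fun t _ => ?_
      simp [hθ]
    have h1 := (h s θ).comp he
    have h2 : ∀ n, charFun (μn n : Measure (EuclideanSpace ℝ s)) v =
        ∫ ω, Complex.exp ((∑ t ∈ s, θ t * (Y (e n) ω).1 t : ℝ) * Complex.I) ∂(P (e n)) := by
      intro n
      change charFun ((P (e n)).map (V (e n))) v = _
      rw [charFun_apply, integral_map (hVm _).aemeasurable]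
      · refine integral_congr_ae (Eventually.of_forall fun ω => ?_)
        simp only [hV]
        rw [hinner, hsum]
      · exact Measurable.aestronglyMeasurable (by fun_prop)
    have h3 : charFun (μ0 : Measure (EuclideanSpace ℝ s)) v =
        ∫ ω, Complex.exp ((∑ t ∈ s, θ t * (Z ω).1 t : ℝ) * Complex.I) ∂P' := by
      change charFun (P'.map W) v = _
      rw [charFun_apply, integral_map hWm.aemeasurable]
      · refine integral_congr_ae (Eventually.of_forall fun ω => ?_)
        simp only [hW]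
        rw [hinner, hsum]
      · exact Measurable.aestronglyMeasurable (by fun_prop)
    rw [h3]
    exact h1.congr fun n => (h2 n).symm
  rw [ProbabilityMeasure.tendsto_iff_forall_integral_tendsto] at hconv
  have h4 := hconv (g.compContinuous ⟨fun x : EuclideanSpace ℝ s => WithLp.ofLp x,
    PiLp.continuous_ofLp 2 _⟩)
  have h5 : ∀ n, ∫ x, (g.compContinuous ⟨fun x : EuclideanSpace ℝ s => WithLp.ofLp x,
      PiLp.continuous_ofLp 2 _⟩) x ∂(μn n : Measure (EuclideanSpace ℝ s)) =
      ∫ ω, g (fun t => (Y (e n) ω).1 t) ∂(P (e n)) := by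
    intro n
    change ∫ x, _ ∂((P (e n)).map (V (e n))) = _
    rw [integral_map (hVm _).aemeasurable]
    · rfl
    · exact (BoundedContinuousFunction.continuous _).aestronglyMeasurable
  have h6 : ∫ x, (g.compContinuous ⟨fun x : EuclideanSpace ℝ s => WithLp.ofLp x,
      PiLp.continuous_ofLp 2 _⟩) x ∂(μ0 : Measure (EuclideanSpace ℝ s)) =
      ∫ ω, g (fun t => (Z ω).1 t) ∂P' := by
    change ∫ x, _ ∂(P'.map W) = _
    rw [integral_map hWm.aemeasurable]
    · rfl
    · exact (BoundedContinuousFunction.continuous _).aestronglyMeasurable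
  rw [h6] at h4
  exact h4.congr fun n => h5 n

end H40.VM
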