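import Pool.Agent.H40.VM.CF
import Pool.Agent.H40.VM.CLc
import Pool.Agent.H40.VM.LV
import Pool.Agent.H40.VM.FC
import Pool.Agent.H40.VM.TL

/-!
# Module CONV: the positive results
-/

open MeasureTheory ProbabilityTheory Filter Topology
open scoped ENNReal NNReal unitInterval symmDiff BoundedContinuousFunction

namespace H40.VM

open H40.Voter (IsKernel IsVoterChain IsVoterProcess VoterFam SkoD jumpTime Config ConvInLaw
  IsDriftedBM)

variable {a : ℤ → ℝ}

theorem fdd_main (hk : IsKernel a) (hc : mn a = 0) (V : VoterFam a) {Ω' : Type}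
    [MeasurableSpace Ω'] {P' : Measure Ω'} [IsProbabilityMeasure P'] {Z : Ω' → SkoD}
    (hZ : Measurable Z) (hB : IsDriftedBM P' (√(sg a)) (-(sg a) / 2) Z)
    (s : Finset ℝ≥0) (g : (s → ℝ) →ᵇ ℝ) :
    Tendsto (fun ε : ℝ => ∫ ω, g (fun t => (V.Y ε ω).1 t) ∂(V.P ε)) (𝓝[>] 0)
      (𝓝 (∫ ω, g (fun t => (Z ω).1 t) ∂P')) := by
  refine fdd_of_char V.meas hZ (fun s θ => ?_) s g
  have h := char_Y hk hc V s θ
  rw [char_bm hB s θ]
  convert h using 3
  have h1 : √(sg a) ^ 2 = sg a := Real.sq_sqrt (sg_pos hk).le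
  rw [h1]
  push_cast
  ring

theorem conv_main (hk : IsKernel a) (hc : mn a = 0)
    (htail : Tendsto (fun d : ℕ => (d : ℝ) ^ 2 * tm a d) atTop (𝓝 0)) (V : VoterFam a)
    {Ω' : Type} [MeasurableSpace Ω'] {P' : Measure Ω'} [IsProbabilityMeasure P'] {Z : Ω' → SkoD}
    (hZ : Measurable Z) (hB : IsDriftedBM P' (√(sg a)) (-(sg a) / 2) Z) :
    ConvInLaw V.P V.Y P' Z := by
  obtain ⟨c⟩ := exists_chains V
  refine conv_of_fdd_of_mod V.meas hZ ?_ (fdd_main hk hc V hZ hB) ?_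
  · obtain ⟨B, hB1, hB2⟩ := hB
    filter_upwards [hB2, hB1.cont] with ω h1 h2
    have : (Z ω).1 = fun t : ℝ≥0 => √(sg a) * B t ω + -(sg a) / 2 * t := funext h1
    rw [this]
    fun_prop
  · intro T κ δ hκ hδ
    have hcl := close_path hk hc (c3_of_tail hk htail) c T (κ := κ / 3) (by positivity)
    obtain ⟨η, hη, hmod⟩ := modulus_P hk hc c T (κ := κ / 3) (δ := δ / 2) (by positivity)
      (by positivity)
    refine ⟨η, hη, ?_⟩
    have h3 : ∀ᶠ ε : ℝ in 𝓝[>] 0, V.P ε {ω | ∃ t : ℝ≥0, t ≤ T ∧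
      κ / 3 < |(V.Y ε ω).1 t - ε * c.S ε ⌊sg a * t / ε ^ 2⌋₊ ω|} ≤ ENNReal.ofReal (δ / 2) :=
      (hcl.eventually (ge_mem_nhds (by
        simpa using (by positivity : 0 < δ / 2)))).mono fun ε h => h
    filter_upwards [h3, hmod, self_mem_nhdsWithin] with ε h4 h5 h6
    have hε : (0 : ℝ) < ε := h6
    calc _ ≤ V.P ε ({ω | ∃ t : ℝ≥0, t ≤ T ∧
            κ / 3 < |(V.Y ε ω).1 t - ε * c.S ε ⌊sg a * t / ε ^ 2⌋₊ ω|} ∪
          {ω | ∃ s t : ℝ≥0, s ≤ T ∧ t ≤ T ∧ |(s : ℝ) - t| ≤ η ∧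
            κ / 3 < ε * |(c.S ε ⌊sg a * s / ε ^ 2⌋₊ ω : ℝ) -
              c.S ε ⌊sg a * t / ε ^ 2⌋₊ ω|}) := by
          refine measure_mono ?_
          rintro ω ⟨s, t, hs, ht, hst, hlt⟩
          by_contra hcon
          simp only [Set.mem_union, Set.mem_ofPred_eq, not_or, not_exists, not_and, not_lt]
            at hcon
          obtain ⟨hc1, hc2⟩ := hcon
          have e1 := hc1 s hs
          have e2 := hc1 t ht
          have e3 := hc2 s t hs ht hst
          rw [abs_le] at e1 e2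
          have e4 : |ε * (c.S ε ⌊sg a * s / ε ^ 2⌋₊ ω : ℝ) -
              ε * c.S ε ⌊sg a * t / ε ^ 2⌋₊ ω| ≤ κ / 3 := by
            rw [← mul_sub, abs_mul, abs_of_pos hε]
            exact e3
          rw [abs_le] at e4
          have : |(V.Y ε ω).1 s - (V.Y ε ω).1 t| ≤ κ := by
            rw [abs_le]
            constructor <;> linarith
          linarith
      _ ≤ _ := measure_union_le _ _
      _ ≤ ENNReal.ofReal (δ / 2) + ENNReal.ofReal (δ / 2) := add_le_add h4 h5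
      _ = ENNReal.ofReal δ := by
          rw [← ENNReal.ofReal_add (by positivity) (by positivity)]
          congr 1
          ring

end H40.VM
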