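import Mathlib

/-!
# Continuous time Markov chains on a countable state space, built from i.i.d. pairs
(uniform variable, exponential variable)
-/

open MeasureTheory ProbabilityTheory Filter Topology
open scoped ENNReal NNReal unitInterval

namespace H40.VM

/-- One step of randomness: a uniform variable and a standard exponential variable. -/
abbrev Stp : Type := unitInterval × ℝ≥0

/-- The standard exponential law on the nonnegative reals. -/
noncomputable def expL : Measure ℝ≥0 := (expMeasure 1).map Real.toNNReal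

noncomputable def stp : Measure Stp := (volume : Measure unitInterval).prod expL

abbrev Om : Type := ℕ → Stp

noncomputable def Pr : Measure Om := Measure.infinitePi fun _ => stp

instance : IsProbabilityMeasure expL := by
  have : IsProbabilityMeasure (expMeasure 1) := isProbabilityMeasure_expMeasure one_pos
  exact Measure.isProbabilityMeasure_map (by fun_prop)

instance : IsProbabilityMeasure stp := by unfold stp; infer_instance

instance : IsProbabilityMeasure Pr := by unfold Pr; infer_instance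

def cons (s : Stp) (ω : Om) : Om
  | 0 => s
  | n + 1 => ω n

def shift (ω : Om) : Om := fun n => ω (n + 1)

/-- the first `n` coordinates of `ω` followed by `ω'` -/
def glue (n : ℕ) (ω ω' : Om) : Om := fun k => if k < n then ω k else ω' (k - n)

@[simp] lemma cons_zero (s : Stp) (ω : Om) : cons s ω 0 = s := rfl
@[simp] lemma cons_succ (s : Stp) (ω : Om) (n : ℕ) : cons s ω (n + 1) = ω n := rfl
@[simp] lemma shift_apply (ω : Om) (n : ℕ) : shift ω n = ω (n + 1) := rfl
@[simp] lemma shift_cons (s : Stp) (ω : Om) : shift (cons s ω) = ω := rfl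
lemma cons_shift (ω : Om) : cons (ω 0) (shift ω) = ω := by
  funext n; cases n <;> rfl

/-- A continuous time Markov chain: `Φ x u` is the state after a jump from `x` (with `u` uniform),
`q x` is the total jump rate. -/
structure Chain (E : Type) [MeasurableSpace E] where
  Φ : E → unitInterval → E
  q : E → ℝ
  meas : ∀ x, Measurable (Φ x)
  qpos : ∀ x, 0 < q x

variable {E : Type} [MeasurableSpace E] (C : Chain E)

/-- the jump chain -/
def Chain.Y : ℕ → E → Om → E
  | 0, x, _ => x
  | n + 1, x, ω => Chain.Y n (C.Φ x (ω 0).1) (shift ω)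

/-- the jump times -/
noncomputable def Chain.T (n : ℕ) (x : E) (ω : Om) : ℝ :=
  ∑ k ∈ Finset.range n, ((ω k).2 : ℝ) / C.q (C.Y k x ω)

/-- the number of jumps up to time `t` -/
noncomputable def Chain.N (t : ℝ) (x : E) (ω : Om) : ℕ := sInf {n | t < C.T (n + 1) x ω}

/-- the state at time `t` -/
noncomputable def Chain.X (t : ℝ) (x : E) (ω : Om) : E := C.Y (C.N t x ω) x ω

/-- the randomness after time `t` -/
noncomputable def Chain.θ (t : ℝ) (x : E) (ω : Om) : Om := fun k =>
  if k = 0 then ((ω (C.N t x ω)).1,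
    (ω (C.N t x ω)).2 - (C.q (C.X t x ω) * (t - C.T (C.N t x ω) x ω)).toNNReal)
  else ω (C.N t x ω + k)

/-- non-explosion -/
def Chain.NE : Prop := ∀ x t, Tendsto (fun k => Pr {ω | C.T k x ω ≤ t}) atTop (𝓝 0)

@[simp] lemma Chain.Y_zero (x : E) (ω : Om) : C.Y 0 x ω = x := rfl
lemma Chain.Y_succ (n : ℕ) (x : E) (ω : Om) :
    C.Y (n + 1) x ω = C.Y n (C.Φ x (ω 0).1) (shift ω) := rfl

lemma Chain.Y_succ' (n : ℕ) (x : E) (ω : Om) :
    C.Y (n + 1) x ω = C.Φ (C.Y n x ω) (ω n).1 := by
  induction n generalizing x ω with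
  | zero => rfl
  | succ n ih => rw [Chain.Y_succ, ih, Chain.Y_succ]; rfl

@[simp] lemma Chain.T_zero (x : E) (ω : Om) : C.T 0 x ω = 0 := by simp [Chain.T]

lemma Chain.T_succ (n : ℕ) (x : E) (ω : Om) :
    C.T (n + 1) x ω = C.T n x ω + ((ω n).2 : ℝ) / C.q (C.Y n x ω) := by
  simp [Chain.T, Finset.sum_range_succ]

lemma Chain.T_succ' (n : ℕ) (x : E) (ω : Om) :
    C.T (n + 1) x ω = ((ω 0).2 : ℝ) / C.q x + C.T n (C.Φ x (ω 0).1) (shift ω) := by
  simp only [Chain.T, Finset.sum_range_succ', Chain.Y_zero]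
  rw [add_comm]
  rfl

lemma Chain.T_nonneg (n : ℕ) (x : E) (ω : Om) : 0 ≤ C.T n x ω :=
  Finset.sum_nonneg fun k _ => div_nonneg (ω k).2.2 (C.qpos _).le

lemma Chain.T_mono (x : E) (ω : Om) : Monotone fun n => C.T n x ω := by
  refine monotone_nat_of_le_succ fun n => ?_
  rw [Chain.T_succ]
  exact le_add_of_nonneg_right (div_nonneg (ω n).2.2 (C.qpos _).le)

/-- `Y k` depends only on the first `k` coordinates. -/
lemma Chain.Y_congr {n : ℕ} {x : E} {ω ω' : Om} (h : ∀ k < n, ω k = ω' k) :
    C.Y n x ω = C.Y n x ω' := by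
  induction n with
  | zero => rfl
  | succ n ih =>
    rw [Chain.Y_succ', Chain.Y_succ', ih fun k hk => h k (by omega), h n (by omega)]

lemma Chain.T_congr {n : ℕ} {x : E} {ω ω' : Om} (h : ∀ k < n, ω k = ω' k) :
    C.T n x ω = C.T n x ω' := by
  refine Finset.sum_congr rfl fun k hk => ?_
  rw [Finset.mem_range] at hk
  rw [h k hk, C.Y_congr fun i hi => h i (by omega)]

lemma Chain.Y_add (n k : ℕ) (x : E) (ω : Om) :
    C.Y (n + k) x ω = C.Y k (C.Y n x ω) (fun i => ω (n + i)) := by
  induction k with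
  | zero => rfl
  | succ k ih => rw [← add_assoc, Chain.Y_succ', ih, Chain.Y_succ']

lemma Chain.T_add (n k : ℕ) (x : E) (ω : Om) :
    C.T (n + k) x ω = C.T n x ω + C.T k (C.Y n x ω) (fun i => ω (n + i)) := by
  induction k with
  | zero => simp
  | succ k ih => rw [← add_assoc, Chain.T_succ, ih, Chain.T_succ, Chain.Y_add, add_assoc]

/-! ### Number of jumps -/

lemma Chain.N_eq_iff {t : ℝ} {x : E} {ω : Om} {n : ℕ} (ht : 0 ≤ t)
    (h : ∃ k, t < C.T k x ω) :
    C.N t x ω = n ↔ C.T n x ω ≤ t ∧ t < C.T (n + 1) x ω := by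
  have hne : {n | t < C.T (n + 1) x ω}.Nonempty := by
    obtain ⟨k, hk⟩ := h
    exact ⟨k, hk.trans_le (C.T_mono x ω (Nat.le_succ k))⟩
  have hmem : t < C.T (C.N t x ω + 1) x ω := Nat.sInf_mem hne
  have hle : C.T (C.N t x ω) x ω ≤ t := by
    rcases Nat.eq_zero_or_pos (C.N t x ω) with h0 | h0
    · rw [h0]; simpa using ht
    · by_contra hcon
      have : C.N t x ω - 1 ∈ {n | t < C.T (n + 1) x ω} := by
        show t < C.T (C.N t x ω - 1 + 1) x ω
        rw [Nat.sub_add_cancel h0]
        exact not_le.1 hcon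
      have := Nat.sInf_le this
      change C.N t x ω ≤ _ at this
      omega
  constructor
  · rintro rfl
    exact ⟨hle, hmem⟩
  · rintro ⟨h1, h2⟩
    refine le_antisymm (Nat.sInf_le h2) ?_
    by_contra hcon
    have : C.T (C.N t x ω + 1) x ω ≤ C.T n x ω := C.T_mono x ω (by omega)
    linarith

lemma Chain.N_le {t : ℝ} {x : E} {ω : Om} {n : ℕ} (h : t < C.T (n + 1) x ω) :
    C.N t x ω ≤ n := Nat.sInf_le h

end H40.VM
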