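import Pool.Agent.H40.VM.CT0

/-!
# First step decomposition, splitting, memoryless property
-/

open MeasureTheory ProbabilityTheory Filter Topology
open scoped ENNReal NNReal unitInterval

namespace H40.VM

lemma lintegral_expL {f : ℝ≥0 → ℝ≥0∞} (hf : Measurable f) :
    ∫⁻ e, f e ∂expL =
      ∫⁻ r in Set.Ioi (0 : ℝ), ENNReal.ofReal (Real.exp (-r)) * f r.toNNReal := by
  have h1 : expMeasure 1 = volume.withDensity (exponentialPDF 1) := rfl
  have hg : Measurable fun r : ℝ => f r.toNNReal := hf.comp (by fun_prop)
  rw [expL, lintegral_map hf (by fun_prop), h1,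
    lintegral_withDensity_eq_lintegral_mul _ (by
      exact (measurable_exponentialPDFReal 1).ennreal_ofReal) hg]
  rw [← lintegral_indicator measurableSet_Ioi]
  refine lintegral_congr_ae ?_
  have h0 : ∀ᵐ r : ℝ, r ≠ 0 := by
    simp [ae_iff, measure_singleton]
  filter_upwards [h0] with r hr
  by_cases h : 0 < r
  · rw [Set.indicator_of_mem (Set.mem_Ioi.2 h)]
    simp [exponentialPDF_of_nonneg h.le]
  · have h' : r < 0 := lt_of_le_of_ne (not_lt.1 h) hr
    rw [Set.indicator_of_notMem (by simpa using h)]
    simp [exponentialPDF_of_neg h']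

lemma memoryless {f : ℝ≥0 → ℝ≥0∞} (hf : Measurable f) (r : ℝ≥0) :
    ∫⁻ e, (if r < e then f (e - r) else 0) ∂expL =
      ENNReal.ofReal (Real.exp (-r)) * ∫⁻ e, f e ∂expL := by
  have hm : Measurable fun e : ℝ≥0 => if r < e then f (e - r) else 0 :=
    Measurable.ite (measurableSet_lt measurable_const measurable_id)
      (hf.comp (by fun_prop)) measurable_const
  rw [lintegral_expL hm, lintegral_expL hf, ← lintegral_const_mul _ (by fun_prop),
    ← lintegral_indicator measurableSet_Ioi, ← lintegral_indicator measurableSet_Ioi]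
  conv_lhs => rw [← lintegral_add_right_eq_self _ (r : ℝ)]
  refine lintegral_congr fun s => ?_
  by_cases h : 0 < s
  · rw [Set.indicator_of_mem (Set.mem_Ioi.2 h), Set.indicator_of_mem (by
      show (0 : ℝ) < s + r; positivity)]
    have h1 : r < (s + r).toNNReal := by
      rw [Real.lt_toNNReal_iff_coe_lt]
      linarith
    have h2 : (s + r).toNNReal - r = s.toNNReal := by
      rw [Real.toNNReal_add h.le (NNReal.coe_nonneg r), Real.toNNReal_coe, add_tsub_cancel_right]
    rw [if_pos h1, h2, ← mul_assoc, ← ENNReal.ofReal_mul (Real.exp_pos _).le, ← Real.exp_add]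
    congr 3
    ring
  · have hR : s ∉ Set.Ioi (0 : ℝ) := h
    rw [Set.indicator_of_notMem hR]
    by_cases h3 : 0 < s + r
    · rw [Set.indicator_of_mem (Set.mem_Ioi.2 h3), if_neg, mul_zero]
      rw [not_lt, Real.toNNReal_le_iff_le_coe]
      linarith
    · exact Set.indicator_of_notMem (s := Set.Ioi (0 : ℝ)) (a := s + r) h3 _

lemma measurable_cons : Measurable fun p : Stp × Om => cons p.1 p.2 := by
  refine measurable_pi_iff.2 fun n => ?_
  cases n with
  | zero => exact measurable_fst
  | succ n => exact (measurable_pi_apply n).comp measurable_snd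

lemma measurable_shift : Measurable (shift : Om → Om) :=
  measurable_pi_iff.2 fun n => measurable_pi_apply (n + 1)

lemma measurable_glue (n : ℕ) : Measurable fun p : Om × Om => glue n p.1 p.2 := by
  refine measurable_pi_iff.2 fun k => ?_
  by_cases h : k < n
  · simp only [glue, h, if_true]
    exact (measurable_pi_apply k).comp measurable_fst
  · simp only [glue, h, if_false]
    exact (measurable_pi_apply (k - n)).comp measurable_snd

/-- The image of `stp × Pr` under `cons` is `Pr`. -/
lemma map_cons : (stp.prod Pr).map (fun p => cons p.1 p.2) = Pr := by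
  classical
  refine Measure.eq_infinitePi _ fun s t ht => ?_
  rw [Measure.map_apply measurable_cons
    (MeasurableSet.pi s.countable_toSet fun i _ => ht i)]
  have hpre : (fun p : Stp × Om => cons p.1 p.2) ⁻¹' (Set.pi s t) =
      (if 0 ∈ s then t 0 else Set.univ) ×ˢ
        (Set.pi ((s.erase 0).image Nat.pred : Finset ℕ) fun n => t (n + 1)) := by
    ext p
    simp only [Set.mem_preimage, Set.mem_pi, Finset.mem_coe, Set.mem_prod, Finset.mem_image,
      Finset.mem_erase]
    constructor
    · intro h
      refine ⟨?_, ?_⟩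
      · split_ifs with h0
        · exact h 0 h0
        · trivial
      · rintro n ⟨k, ⟨hk0, hk⟩, rfl⟩
        have := h k hk
        obtain ⟨m, rfl⟩ := Nat.exists_eq_succ_of_ne_zero hk0
        exact this
    · rintro ⟨h0, h1⟩ k hk
      rcases Nat.eq_zero_or_pos k with rfl | hk0
      · rw [if_pos hk] at h0
        exact h0
      · obtain ⟨m, rfl⟩ := Nat.exists_eq_succ_of_ne_zero hk0.ne'
        exact h1 m ⟨m + 1, ⟨by omega, hk⟩, rfl⟩
  rw [hpre, Measure.prod_prod, Pr, Measure.infinitePi_pi _ (fun i _ => ht (i + 1))]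
  have himg : ∏ i ∈ (s.erase 0).image Nat.pred, stp (t (i + 1)) =
      ∏ i ∈ s.erase 0, stp (t i) := by
    rw [Finset.prod_image]
    · refine Finset.prod_congr rfl fun i hi => ?_
      have h0 : i ≠ 0 := (Finset.mem_erase.1 hi).1
      rw [Nat.pred_eq_sub_one, Nat.sub_add_cancel (Nat.pos_of_ne_zero h0)]
    · intro i hi j hj hij
      have hi0 : i ≠ 0 := (Finset.mem_erase.1 hi).1
      have hj0 : j ≠ 0 := (Finset.mem_erase.1 hj).1
      simp only [Nat.pred_eq_sub_one] at hij
      omega
  rw [himg]
  split_ifs with h0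
  · rw [Finset.mul_prod_erase s (fun i => stp (t i)) h0]
  · rw [Finset.erase_eq_of_notMem h0, measure_univ, one_mul]

theorem lintegral_cons {F : Om → ℝ≥0∞} (hF : Measurable F) :
    ∫⁻ ω, F ω ∂Pr = ∫⁻ s, ∫⁻ ω, F (cons s ω) ∂Pr ∂stp := by
  conv_lhs => rw [← map_cons]
  have hm : Measurable fun p : Stp × Om => F (cons p.1 p.2) := hF.comp measurable_cons
  rw [lintegral_map hF measurable_cons, lintegral_prod _ hm.aemeasurable]

theorem lintegral_cons' {F : Om → ℝ≥0∞} (hF : Measurable F) :
    ∫⁻ ω, F ω ∂Pr =
      ∫⁻ e, ∫⁻ u : unitInterval, ∫⁻ ω, F (cons (u, e) ω) ∂Pr ∂volume ∂expL := by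
  have hm : Measurable fun p : Stp × Om => F (cons p.1 p.2) := hF.comp measurable_cons
  rw [lintegral_cons hF, stp, lintegral_prod_symm]
  exact hm.lintegral_prod_right'.aemeasurable

theorem integral_cons {F : Om → ℝ} (hF : Integrable F Pr) :
    ∫ ω, F ω ∂Pr = ∫ s, ∫ ω, F (cons s ω) ∂Pr ∂stp := by
  have hF' : Integrable F ((stp.prod Pr).map fun p => cons p.1 p.2) := by rwa [map_cons]
  conv_lhs => rw [← map_cons]
  rw [integral_map measurable_cons.aemeasurable hF'.1, integral_prod]
  exact hF'.comp_measurable measurable_cons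

lemma glue_succ (n : ℕ) (ω ω' : Om) :
    glue (n + 1) ω ω' = cons (ω 0) (glue n (shift ω) ω') := by
  funext k
  cases k with
  | zero => simp [glue]
  | succ k => simp [glue]

theorem lintegral_split (n : ℕ) {F : Om → ℝ≥0∞} (hF : Measurable F) :
    ∫⁻ ω, F ω ∂Pr = ∫⁻ ω, ∫⁻ ω', F (glue n ω ω') ∂Pr ∂Pr := by
  induction n generalizing F with
  | zero =>
    have : ∀ ω ω' : Om, glue 0 ω ω' = ω' := fun ω ω' => by funext k; simp [glue]
    simp [this]
  | succ n ih =>
    have hm0 : Measurable fun p : Om × Om => F (glue (n + 1) p.1 p.2) :=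
      hF.comp (measurable_glue (n + 1))
    have hm : Measurable fun ω : Om => ∫⁻ ω', F (glue (n + 1) ω ω') ∂Pr :=
      hm0.lintegral_prod_right' 
    rw [lintegral_cons hF, lintegral_cons hm]
    refine lintegral_congr fun s => ?_
    simp only [glue_succ, cons_zero, shift_cons]
    exact ih (F := fun ω => F (cons s ω))
      (hF.comp (measurable_cons.comp (measurable_const.prodMk measurable_id)))

theorem map_glue (n : ℕ) : (Pr.prod Pr).map (fun p => glue n p.1 p.2) = Pr := by
  refine Measure.ext_of_lintegral _ fun F hF => ?_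
  have hm0 : Measurable fun p : Om × Om => F (glue n p.1 p.2) := hF.comp (measurable_glue n)
  rw [lintegral_map hF (measurable_glue n), lintegral_prod _ hm0.aemeasurable,
    ← lintegral_split n hF]

/-! ### Measurability -/

section

variable {E : Type} [MeasurableSpace E] [Countable E] [DiscreteMeasurableSpace E] (C : Chain E)

lemma Chain.measurable_Φ : Measurable fun p : E × unitInterval => C.Φ p.1 p.2 :=
  measurable_from_prod_countable_right C.meas

lemma Chain.measurable_Y (n : ℕ) : Measurable fun p : E × Om => C.Y n p.1 p.2 := by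
  induction n with
  | zero => exact measurable_fst
  | succ n ih =>
    simp only [Chain.Y_succ']
    refine C.measurable_Φ.comp (ih.prodMk ?_)
    exact measurable_fst.comp ((measurable_pi_apply n).comp measurable_snd)

lemma Chain.measurable_q : Measurable C.q := measurable_of_countable _

lemma Chain.measurable_T (n : ℕ) : Measurable fun p : E × Om => C.T n p.1 p.2 := by
  unfold Chain.T
  refine Finset.measurable_sum _ fun k _ => ?_
  refine Measurable.div ?_ (C.measurable_q.comp (C.measurable_Y k))
  exact measurable_coe_nnreal_real.comp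
    (measurable_snd.comp ((measurable_pi_apply k).comp measurable_snd))

lemma Chain.measurable_Yx (n : ℕ) (x : E) : Measurable fun ω : Om => C.Y n x ω :=
  (C.measurable_Y n).comp (measurable_const.prodMk measurable_id)

lemma Chain.measurable_Tx (n : ℕ) (x : E) : Measurable fun ω : Om => C.T n x ω :=
  (C.measurable_T n).comp (measurable_const.prodMk measurable_id)

/-- joint measurability of the number of jumps -/
lemma Chain.measurable_N : Measurable fun p : ℝ × E × Om => C.N p.1 p.2.1 p.2.2 := by
  refine measurable_to_countable' fun n => ?_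
  have hset : ∀ k, MeasurableSet {p : ℝ × E × Om | p.1 < C.T (k + 1) p.2.1 p.2.2} := fun k =>
    measurableSet_lt measurable_fst ((C.measurable_T (k + 1)).comp measurable_snd)
  have : (fun p : ℝ × E × Om => C.N p.1 p.2.1 p.2.2) ⁻¹' {n} =
      ({p | p.1 < C.T (n + 1) p.2.1 p.2.2} ∩
        ⋂ k ∈ Set.Iio n, {p | p.1 < C.T (k + 1) p.2.1 p.2.2}ᶜ) ∪
      (if n = 0 then ⋂ k, {p | p.1 < C.T (k + 1) p.2.1 p.2.2}ᶜ else ∅) := by
    ext p
    simp only [Set.mem_preimage, Set.mem_singleton_iff, Set.mem_union, Set.mem_inter_iff,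
      Set.mem_ofPred_eq, Set.mem_iInter, Set.mem_Iio, Set.mem_compl_iff]
    constructor
    · intro h
      by_cases hne : {k | p.1 < C.T (k + 1) p.2.1 p.2.2}.Nonempty
      · left
        refine ⟨?_, fun k hk hlt => ?_⟩
        · rw [← h]; exact Nat.sInf_mem hne
        · have : C.N p.1 p.2.1 p.2.2 ≤ k := Nat.sInf_le hlt
          omega
      · right
        have hn : n = 0 := by
          rw [← h]
          unfold Chain.N
          rw [Set.not_nonempty_iff_eq_empty.1 hne, Nat.sInf_empty]
        rw [if_pos hn]
        simp only [Set.mem_iInter, Set.mem_compl_iff]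
        exact fun k hk => hne ⟨k, hk⟩
    · rintro (⟨h1, h2⟩ | h)
      · refine le_antisymm (Nat.sInf_le h1) ?_
        by_contra hcon
        exact h2 _ (not_le.1 hcon) (Nat.sInf_mem (⟨n, h1⟩ :
          {k | p.1 < C.T (k + 1) p.2.1 p.2.2}.Nonempty))
      · split_ifs at h with hn
        · simp only [Set.mem_iInter, Set.mem_compl_iff] at h
          have : {k | p.1 < C.T (k + 1) p.2.1 p.2.2} = ∅ :=
            Set.eq_empty_of_forall_notMem fun k hk => h k hk
          rw [hn]
          unfold Chain.N
          rw [this, Nat.sInf_empty]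
        · exact absurd h (Set.notMem_empty _)
  rw [this]
  refine MeasurableSet.union ?_ ?_
  · exact (hset n).inter (MeasurableSet.biInter (Set.to_countable _) fun k _ => (hset k).compl)
  · split_ifs
    · exact MeasurableSet.iInter fun k => (hset k).compl
    · exact MeasurableSet.empty

/-- joint measurability of the state -/
lemma Chain.measurable_X : Measurable fun p : ℝ × E × Om => C.X p.1 p.2.1 p.2.2 := by
  refine measurable_to_countable' fun y => ?_
  have : (fun p : ℝ × E × Om => C.X p.1 p.2.1 p.2.2) ⁻¹' {y} =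
      ⋃ n, ({p | C.N p.1 p.2.1 p.2.2 = n} ∩ {p | C.Y n p.2.1 p.2.2 = y}) := by
    ext p
    simp [Chain.X]
  rw [this]
  refine MeasurableSet.iUnion fun n => MeasurableSet.inter ?_ ?_
  · exact C.measurable_N (measurableSet_singleton n)
  · exact ((C.measurable_Y n).comp measurable_snd) (measurableSet_singleton y)

lemma Chain.measurable_Nx (t : ℝ) (x : E) : Measurable fun ω : Om => C.N t x ω :=
  C.measurable_N.comp (measurable_const.prodMk (measurable_const.prodMk measurable_id))

lemma Chain.measurable_Xx (t : ℝ) (x : E) : Measurable fun ω : Om => C.X t x ω :=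
  C.measurable_X.comp (measurable_const.prodMk (measurable_const.prodMk measurable_id))

omit [Countable E] [DiscreteMeasurableSpace E] in
/-- almost surely there are only finitely many jumps in bounded time -/
lemma Chain.ae_finite (hC : C.NE) (x : E) :
    ∀ᵐ ω ∂Pr, ∀ t : ℝ, ∃ k, t < C.T k x ω := by
  have h : ∀ t : ℕ, ∀ᵐ ω ∂Pr, ∃ k, (t : ℝ) < C.T k x ω := by
    intro t
    rw [ae_iff]
    have hle : ∀ k, Pr {ω | ¬ ∃ k, (t : ℝ) < C.T k x ω} ≤ Pr {ω | C.T k x ω ≤ t} := by
      intro k
      refine measure_mono fun ω hω => ?_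
      simp only [Set.mem_ofPred_eq, not_exists, not_lt] at hω
      exact hω k
    have := ge_of_tendsto' (hC x t) hle
    exact le_antisymm this bot_le
  filter_upwards [ae_all_iff.2 h] with ω hω t
  obtain ⟨n, hn⟩ := exists_nat_gt t
  obtain ⟨k, hk⟩ := hω n
  exact ⟨k, hn.trans hk⟩

end

end H40.VM
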