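import Pool.Agent.H40.VM.CT1

/-!
# Module CT2: restarting at a deterministic time

`Chain.θ s x ω` is the randomness after time `s` (the clock of the current state is reduced by the
amount already used). It is independent of the past up to time `s` and has law `Pr`.

Proof of `restart`. By `Measure.prod_eq` it suffices to compute
`Pr {Z ∈ A, θ ∈ B} = Pr {Z ∈ A} * Pr B`. Almost surely `ω` is non explosive (`Chain.ae_finite`);
decompose over `N s x ω = n`. Use `lintegral_split n`: with `ω = glue n ω₁ ω₂`, `T n`, `Y n` only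
depend on `ω₁` (`T_congr`, `Y_congr`), and `N s x ω = n` iff `T n x ω₁ ≤ s` and
`r < (ω₂ 0).2`, where `r = (q (Y n x ω₁) * (s - T n x ω₁)).toNNReal` (`N_eq_iff`, `T_add`).
On this event `θ s x ω = fun k => if k = 0 then ((ω₂ 0).1, (ω₂ 0).2 - r) else ω₂ k`, and
`Z (glue n ω₁ ω₂)` does not depend on `ω₂` (take a reference `ω₂` with a huge first clock).
Conclude with `lintegral_cons'` and `memoryless`:
`∫⁻ ω₂, (if r < (ω₂ 0).2 then F (θ..) else 0) = exp (-r) * ∫⁻ F`.
-/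

open MeasureTheory ProbabilityTheory Filter Topology
open scoped ENNReal NNReal unitInterval

namespace H40.VM

variable {E : Type} [MeasurableSpace E] (C : Chain E)

/-- `Z` only depends on what happens up to time `s` (for configurations which are not explosive
before time `s`) -/
def Chain.Past {β : Type*} (s : ℝ) (x : E) (Z : Om → β) : Prop :=
  ∀ ω ω' : Om, (∃ k, s < C.T k x ω) → (∃ k, s < C.T k x ω') → C.N s x ω = C.N s x ω' →
    (∀ k < C.N s x ω, ω k = ω' k) → Z ω = Z ω'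

lemma Chain.Y_congr_fst {n : ℕ} {x : E} {ω ω' : Om} (h : ∀ k < n, (ω k).1 = (ω' k).1) :
    C.Y n x ω = C.Y n x ω' := by
  induction n with
  | zero => rfl
  | succ n ih =>
    rw [Chain.Y_succ', Chain.Y_succ', ih fun k hk => h k (by omega), h n (by omega)]

lemma Chain.θ_zero (s : ℝ) (x : E) (ω : Om) : C.θ s x ω 0 = ((ω (C.N s x ω)).1,
    (ω (C.N s x ω)).2 - (C.q (C.X s x ω) * (s - C.T (C.N s x ω) x ω)).toNNReal) := by
  simp [Chain.θ]

lemma Chain.θ_succ (s : ℝ) (x : E) (ω : Om) (k : ℕ) :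
    C.θ s x ω (k + 1) = ω (C.N s x ω + (k + 1)) := by
  simp [Chain.θ]

lemma Chain.Y_restart (s : ℝ) (x : E) (ω : Om) (k : ℕ) :
    C.Y (C.N s x ω + k) x ω = C.Y k (C.X s x ω) (C.θ s x ω) := by
  rw [Chain.Y_add]
  refine C.Y_congr_fst fun i _ => ?_
  cases i with
  | zero => rw [Chain.θ_zero]; rfl
  | succ i => rw [Chain.θ_succ]

lemma Chain.T_restart {s : ℝ} (hs : 0 ≤ s) (x : E) (ω : Om) (hω : ∃ k, s < C.T k x ω) (k : ℕ) :
    C.T (C.N s x ω + (k + 1)) x ω = s + C.T (k + 1) (C.X s x ω) (C.θ s x ω) := by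
  have hN := (C.N_eq_iff hs hω).1 rfl
  rw [Chain.T_add, Chain.T_succ', Chain.T_succ', Chain.θ_zero]
  have hsh : shift (fun i => ω (C.N s x ω + i)) = shift (C.θ s x ω) := by
    funext n
    simp only [shift_apply, Chain.θ_succ]
  rw [hsh]
  have hq := C.qpos (C.X s x ω)
  set n := C.N s x ω with hn
  have h1 : C.X s x ω = C.Y n x ω := rfl
  rw [h1] at hq ⊢
  simp only [add_zero]
  have h2 : C.T (n + 1) x ω = C.T n x ω + ((ω n).2 : ℝ) / C.q (C.Y n x ω) := C.T_succ n x ω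
  have h3 : C.q (C.Y n x ω) * (s - C.T n x ω) < ((ω n).2 : ℝ) := by
    have := hN.2
    rw [h2] at this
    have h4 : s - C.T n x ω < ((ω n).2 : ℝ) / C.q (C.Y n x ω) := by linarith
    rwa [lt_div_iff₀ hq, mul_comm] at h4
  have h5 : 0 ≤ C.q (C.Y n x ω) * (s - C.T n x ω) := mul_nonneg hq.le (by linarith [hN.1])
  have h6 : (C.q (C.Y n x ω) * (s - C.T n x ω)).toNNReal ≤ (ω n).2 := by
    rw [Real.toNNReal_le_iff_le_coe]
    exact h3.le
  rw [NNReal.coe_sub h6, Real.coe_toNNReal _ h5, sub_div, mul_div_assoc, mul_comm,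
    div_mul_cancel₀ _ hq.ne']
  ring

lemma Chain.exists_T_restart {s t : ℝ} (hs : 0 ≤ s) (x : E) (ω : Om)
    (hω : ∀ t, ∃ k, t < C.T k x ω) : ∃ k, t < C.T k (C.X s x ω) (C.θ s x ω) := by
  obtain ⟨k, hk⟩ := hω (s + t)
  refine ⟨k + 1, ?_⟩
  have h1 : C.T k x ω ≤ C.T (C.N s x ω + (k + 1)) x ω := C.T_mono x ω (by omega)
  rw [C.T_restart hs x ω (hω s)] at h1
  linarith

lemma Chain.N_restart {s t : ℝ} (hs : 0 ≤ s) (ht : 0 ≤ t) (x : E) (ω : Om)
    (hω : ∀ t, ∃ k, t < C.T k x ω) :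
    C.N (s + t) x ω = C.N s x ω + C.N t (C.X s x ω) (C.θ s x ω) := by
  have hm := (C.N_eq_iff ht (C.exists_T_restart (t := t) hs x ω hω)).1 rfl
  rw [C.N_eq_iff (add_nonneg hs ht) (hω _)]
  set m := C.N t (C.X s x ω) (C.θ s x ω) with hmdef
  constructor
  · rcases Nat.eq_zero_or_pos m with h0 | h0
    · rw [h0, add_zero]
      have := (C.N_eq_iff hs (hω s)).1 rfl
      linarith [this.1]
    · obtain ⟨j, hj⟩ := Nat.exists_eq_succ_of_ne_zero h0.ne'
      rw [hj, Nat.succ_eq_add_one, C.T_restart hs x ω (hω s)]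
      rw [hj] at hm
      have := hm.1
      rw [Nat.succ_eq_add_one] at this
      linarith
  · rw [add_assoc, C.T_restart hs x ω (hω s)]
    linarith [hm.2]

lemma Chain.X_restart {s t : ℝ} (hs : 0 ≤ s) (ht : 0 ≤ t) (x : E) (ω : Om)
    (hω : ∀ t, ∃ k, t < C.T k x ω) :
    C.X (s + t) x ω = C.X t (C.X s x ω) (C.θ s x ω) := by
  have h1 : C.X (s + t) x ω = C.Y (C.N (s + t) x ω) x ω := rfl
  rw [h1, C.N_restart hs ht x ω hω, C.Y_restart]
  rfl

lemma Chain.past_X (s : ℝ) (x : E) : C.Past s x (C.X s x) := by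
  intro ω ω' _ _ hN h
  show C.Y (C.N s x ω) x ω = C.Y (C.N s x ω') x ω'
  rw [← hN]
  exact C.Y_congr h

lemma Chain.past_N (s : ℝ) (x : E) : C.Past s x (C.N s x) := by
  intro ω ω' _ _ hN _
  exact hN

lemma Chain.past_N_le {r s : ℝ} (hr : 0 ≤ r) (hrs : r ≤ s) (x : E) : C.Past s x (C.N r x) := by
  intro ω ω' hω hω' hN h
  have hs : 0 ≤ s := hr.trans hrs
  obtain ⟨k, hk⟩ := hω
  obtain ⟨k', hk'⟩ := hω'
  have h1 := (C.N_eq_iff hs ⟨k, hk⟩).1 rfl
  have h2 := (C.N_eq_iff hs ⟨k', hk'⟩).1 rfl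
  rw [C.N_eq_iff hr ⟨k, hrs.trans_lt hk⟩]
  have h3 := (C.N_eq_iff hr ⟨k', hrs.trans_lt hk'⟩).1 rfl
  have hle : C.N r x ω' ≤ C.N s x ω' := C.N_le (hrs.trans_lt h2.2)
  rw [← hN] at hle
  refine ⟨?_, ?_⟩
  · rw [C.T_congr (ω' := ω') fun k hk => h k (by omega)]
    exact h3.1
  · rcases Nat.lt_or_ge (C.N r x ω') (C.N s x ω) with hlt | hge
    · rw [C.T_congr (ω' := ω') fun k hk => h k (by omega)]
      exact h3.2
    · have : C.N r x ω' = C.N s x ω := le_antisymm hle hge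
      rw [this]
      exact hrs.trans_lt h1.2

/-- the states before time `s` are past-measurable -/
lemma Chain.past_X_le {r s : ℝ} (hr : 0 ≤ r) (hrs : r ≤ s) (x : E) : C.Past s x (C.X r x) := by
  intro ω ω' hω hω' hN h
  have hs : 0 ≤ s := hr.trans hrs
  have h1 := (C.N_eq_iff hs hω).1 rfl
  have hle : C.N r x ω ≤ C.N s x ω := C.N_le (hrs.trans_lt h1.2)
  have h2 := C.past_N_le hr hrs x ω ω' hω hω' hN h
  show C.Y (C.N r x ω) x ω = C.Y (C.N r x ω') x ω'
  rw [← h2]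
  exact C.Y_congr fun k hk => h k (by omega)

/-- the first clock is reduced by `r` -/
noncomputable def red (r : ℝ≥0) (ω : Om) : Om := fun k =>
  if k = 0 then ((ω 0).1, (ω 0).2 - r) else ω k

lemma red_cons (r : ℝ≥0) (u : unitInterval) (e : ℝ≥0) (ω : Om) :
    red r (cons (u, e) ω) = cons (u, e - r) ω := by
  funext k
  cases k with
  | zero => simp [red]
  | succ k => simp [red]

lemma measurable_red (r : ℝ≥0) : Measurable (red r) := by
  refine measurable_pi_iff.2 fun k => ?_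
  cases k with
  | zero =>
    have h1 : Measurable fun ω : Om => ω 0 := measurable_pi_apply 0
    simp only [red, if_true]
    exact h1.fst.prodMk (h1.snd.sub measurable_const)
  | succ k =>
    simp only [red, Nat.succ_ne_zero, if_false]
    exact measurable_pi_apply _

lemma memoryless_om {G : Om → ℝ≥0∞} (hG : Measurable G) (r : ℝ≥0) :
    ∫⁻ ω, (if r < (ω 0).2 then G (red r ω) else 0) ∂Pr =
      ENNReal.ofReal (Real.exp (-r)) * ∫⁻ ω, G ω ∂Pr := by
  have hm : Measurable fun ω : Om => if r < (ω 0).2 then G (red r ω) else 0 := by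
    refine Measurable.ite ?_ (hG.comp (measurable_red r)) measurable_const
    exact measurableSet_lt measurable_const (measurable_snd.comp (measurable_pi_apply 0))
  have hc : Measurable fun p : (ℝ≥0 × unitInterval) × Om => G (cons (p.1.2, p.1.1) p.2) :=
    hG.comp (measurable_cons.comp
      ((measurable_fst.snd.prodMk measurable_fst.fst).prodMk measurable_snd))
  have hh : Measurable fun e : ℝ≥0 => ∫⁻ u : unitInterval, ∫⁻ ω, G (cons (u, e) ω) ∂Pr := by
    have h1 : Measurable fun p : ℝ≥0 × unitInterval => ∫⁻ ω, G (cons (p.2, p.1) ω) ∂Pr :=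
      hc.lintegral_prod_right'
    exact h1.lintegral_prod_right'
  rw [lintegral_cons' hm, lintegral_cons' hG, ← memoryless hh r]
  refine lintegral_congr fun e => ?_
  simp only [cons_zero, red_cons]
  split_ifs with h
  · rfl
  · simp

variable [Countable E] [DiscreteMeasurableSpace E]

lemma Chain.measurable_θ (s : ℝ) (x : E) : Measurable (C.θ s x) := by
  have hN := C.measurable_Nx s x
  have hev : ∀ k : ℕ, Measurable fun ω : Om => ω (C.N s x ω + k) := by
    intro k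
    have h1 : Measurable fun p : ℕ × Om => p.2 (p.1 + k) :=
      measurable_from_prod_countable_right fun n => measurable_pi_apply (n + k)
    exact h1.comp (hN.prodMk measurable_id)
  have hT : Measurable fun ω : Om => C.T (C.N s x ω) x ω := by
    have h1 : Measurable fun p : ℕ × Om => C.T p.1 x p.2 :=
      measurable_from_prod_countable_right fun n => C.measurable_Tx n x
    exact h1.comp (hN.prodMk measurable_id)
  have hq : Measurable fun ω : Om => C.q (C.X s x ω) :=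
    C.measurable_q.comp (C.measurable_Xx s x)
  refine measurable_pi_iff.2 fun k => ?_
  cases k with
  | zero =>
    have h0 := hev 0
    simp only [add_zero] at h0
    have h1 : Measurable fun ω : Om =>
        (C.q (C.X s x ω) * (s - C.T (C.N s x ω) x ω)).toNNReal :=
      (hq.mul (measurable_const.sub hT)).real_toNNReal
    simp only [Chain.θ_zero]
    exact h0.fst.prodMk (h0.snd.sub h1)
  | succ k =>
    simp only [Chain.θ_succ]
    exact hev (k + 1)

/-- `n` jumps up to time `s` -/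
def Chain.D (s : ℝ) (x : E) (n : ℕ) : Set Om := {ω | C.T n x ω ≤ s ∧ s < C.T (n + 1) x ω}

lemma Chain.measurableSet_D (s : ℝ) (x : E) (n : ℕ) : MeasurableSet (C.D s x n) :=
  (measurableSet_le (C.measurable_Tx n x) measurable_const).inter
    (measurableSet_lt measurable_const (C.measurable_Tx (n + 1) x))

open Classical in
lemma Chain.restart_inner (x : E) {s : ℝ} (hs : 0 ≤ s) {β : Type*}
    {Z : Om → β} (hp : C.Past s x Z) (A : Set β) (n : ℕ) (ω₁ : Om) {G : Om → ℝ≥0∞}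
    (hG : Measurable G) :
    ∫⁻ ω₂, (if glue n ω₁ ω₂ ∈ C.D s x n ∧ Z (glue n ω₁ ω₂) ∈ A then
      G (C.θ s x (glue n ω₁ ω₂)) else 0) ∂Pr =
    (∫⁻ ω₂, (if glue n ω₁ ω₂ ∈ C.D s x n ∧ Z (glue n ω₁ ω₂) ∈ A then 1 else 0) ∂Pr) *
      ∫⁻ ω, G ω ∂Pr := by
  set y := C.Y n x ω₁ with hy
  set τ := C.T n x ω₁ with hτ
  have hYg : ∀ ω₂, C.Y n x (glue n ω₁ ω₂) = y := fun ω₂ => C.Y_congr fun k hk => by
    simp [glue, hk]
  have hTg : ∀ ω₂, C.T n x (glue n ω₁ ω₂) = τ := fun ω₂ => C.T_congr fun k hk => by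
    simp [glue, hk]
  have hgn : ∀ ω₂ k, glue n ω₁ ω₂ (n + k) = ω₂ k := fun ω₂ k => by simp [glue]
  have hgn0 : ∀ ω₂, glue n ω₁ ω₂ n = ω₂ 0 := fun ω₂ => by simpa using hgn ω₂ 0
  have hq := C.qpos y
  by_cases hτs : τ ≤ s
  · set r : ℝ≥0 := (C.q y * (s - τ)).toNNReal with hr
    have hr0 : 0 ≤ C.q y * (s - τ) := mul_nonneg hq.le (by linarith)
    have hD : ∀ ω₂, glue n ω₁ ω₂ ∈ C.D s x n ↔ r < (ω₂ 0).2 := by
      intro ω₂
      simp only [Chain.D, Set.mem_ofPred_eq]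
      rw [Chain.T_succ, hTg, hYg, hgn0]
      rw [hr, Real.toNNReal_lt_iff_lt_coe hr0]
      constructor
      · rintro ⟨_, h⟩
        have h4 : s - τ < ((ω₂ 0).2 : ℝ) / C.q y := by linarith
        rwa [lt_div_iff₀ hq, mul_comm] at h4
      · intro h
        refine ⟨hτs, ?_⟩
        have h4 : s - τ < ((ω₂ 0).2 : ℝ) / C.q y := by
          rwa [lt_div_iff₀ hq, mul_comm]
        linarith
    have hN : ∀ ω₂, r < (ω₂ 0).2 → C.N s x (glue n ω₁ ω₂) = n := by
      intro ω₂ h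
      have h1 := (hD ω₂).2 h
      exact (C.N_eq_iff hs ⟨n + 1, h1.2⟩).2 h1
    have hθ : ∀ ω₂, r < (ω₂ 0).2 → C.θ s x (glue n ω₁ ω₂) = red r ω₂ := by
      intro ω₂ h
      have h1 := hN ω₂ h
      have h2 : C.X s x (glue n ω₁ ω₂) = y := by
        show C.Y (C.N s x (glue n ω₁ ω₂)) x (glue n ω₁ ω₂) = y
        rw [h1, hYg]
      funext k
      cases k with
      | zero =>
        rw [Chain.θ_zero, h1, h2, hTg, hgn0]
        simp [red, hr]
      | succ k =>
        rw [Chain.θ_succ, h1, hgn]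
        simp [red]
    set ω0 : Om := fun _ => (0, r + 1) with hω0
    have hω0r : r < (ω0 0).2 := by
      show r < r + 1
      exact lt_add_of_pos_right _ one_pos
    have hZ : ∀ ω₂, r < (ω₂ 0).2 → Z (glue n ω₁ ω₂) = Z (glue n ω₁ ω0) := by
      intro ω₂ h
      refine hp _ _ ⟨n + 1, ((hD ω₂).2 h).2⟩ ⟨n + 1, ((hD ω0).2 hω0r).2⟩ ?_ ?_
      · rw [hN ω₂ h, hN ω0 hω0r]
      · intro k hk
        rw [hN ω₂ h] at hk
        simp [glue, hk]
    by_cases ha : Z (glue n ω₁ ω0) ∈ A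
    · have e1 : ∀ ω₂, (if glue n ω₁ ω₂ ∈ C.D s x n ∧ Z (glue n ω₁ ω₂) ∈ A then
          G (C.θ s x (glue n ω₁ ω₂)) else 0) = if r < (ω₂ 0).2 then G (red r ω₂) else 0 := by
        intro ω₂
        by_cases h : r < (ω₂ 0).2
        · rw [if_pos ⟨(hD ω₂).2 h, by rwa [hZ ω₂ h]⟩, if_pos h, hθ ω₂ h]
        · rw [if_neg fun h' => h ((hD ω₂).1 h'.1), if_neg h]
      have e2 : ∀ ω₂, (if glue n ω₁ ω₂ ∈ C.D s x n ∧ Z (glue n ω₁ ω₂) ∈ A then
          (1 : ℝ≥0∞) else 0) = if r < (ω₂ 0).2 then (fun _ => (1 : ℝ≥0∞)) (red r ω₂) else 0 := by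
        intro ω₂
        by_cases h : r < (ω₂ 0).2
        · rw [if_pos ⟨(hD ω₂).2 h, by rwa [hZ ω₂ h]⟩, if_pos h]
        · rw [if_neg fun h' => h ((hD ω₂).1 h'.1), if_neg h]
      simp_rw [e1]
      rw [lintegral_congr e2, memoryless_om hG, memoryless_om measurable_const]
      simp
    · have e1 : ∀ (c : Om → ℝ≥0∞) ω₂, (if glue n ω₁ ω₂ ∈ C.D s x n ∧ Z (glue n ω₁ ω₂) ∈ A then
          c ω₂ else 0) = 0 := by
        intro c ω₂
        rw [if_neg]
        rintro ⟨h1, h2⟩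
        rw [hZ ω₂ ((hD ω₂).1 h1)] at h2
        exact ha h2
      rw [lintegral_congr (e1 fun ω₂ => G (C.θ s x (glue n ω₁ ω₂))),
        lintegral_congr (e1 fun _ => 1)]
      simp
  · have hD : ∀ ω₂, glue n ω₁ ω₂ ∉ C.D s x n := by
      intro ω₂ h
      have := h.1
      rw [hTg] at this
      exact hτs this
    have e1 : ∀ (c : Om → ℝ≥0∞) ω₂, (if glue n ω₁ ω₂ ∈ C.D s x n ∧ Z (glue n ω₁ ω₂) ∈ A then
        c ω₂ else 0) = 0 := by
      intro c ω₂
      rw [if_neg]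
      rintro ⟨h1, _⟩
      exact hD ω₂ h1
    rw [lintegral_congr (e1 fun ω₂ => G (C.θ s x (glue n ω₁ ω₂))),
      lintegral_congr (e1 fun _ => 1)]
    simp

lemma Chain.restart_D (x : E) {s : ℝ} (hs : 0 ≤ s) {β : Type*} [MeasurableSpace β]
    {Z : Om → β} (hZ : Measurable Z) (hp : C.Past s x Z) {A : Set β} (hA : MeasurableSet A)
    {B : Set Om} (hB : MeasurableSet B) (n : ℕ) :
    Pr (C.D s x n ∩ (Z ⁻¹' A ∩ C.θ s x ⁻¹' B)) = Pr (C.D s x n ∩ Z ⁻¹' A) * Pr B := by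
  classical
  have hDm := C.measurableSet_D s x n
  have hS : MeasurableSet (C.D s x n ∩ Z ⁻¹' A) := hDm.inter (hZ hA)
  have hS' : MeasurableSet (C.D s x n ∩ (Z ⁻¹' A ∩ C.θ s x ⁻¹' B)) :=
    hDm.inter ((hZ hA).inter (C.measurable_θ s x hB))
  rw [← lintegral_indicator_one hS, ← lintegral_indicator_one hS', ← lintegral_indicator_one hB]
  rw [lintegral_split n (measurable_one.indicator hS'), lintegral_split n (measurable_one.indicator hS)]
  rw [← lintegral_mul_const' _ _ (by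
    rw [lintegral_indicator_one hB]; exact measure_ne_top _ _)]
  refine lintegral_congr fun ω₁ => ?_
  have h1 := C.restart_inner x hs hp A n ω₁ (G := B.indicator 1) (measurable_one.indicator hB)
  convert h1 using 2
  · funext ω₂
    by_cases hd : glue n ω₁ ω₂ ∈ C.D s x n <;> by_cases hz : Z (glue n ω₁ ω₂) ∈ A <;>
      by_cases hb : C.θ s x (glue n ω₁ ω₂) ∈ B <;> simp [Set.indicator, hd, hz, hb]
  · refine lintegral_congr fun ω₂ => ?_
    by_cases hd : glue n ω₁ ω₂ ∈ C.D s x n <;> by_cases hz : Z (glue n ω₁ ω₂) ∈ A <;>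
      simp [Set.indicator, hd, hz]

lemma Chain.sum_D (hC : C.NE) (x : E) {s : ℝ} (hs : 0 ≤ s) {S : Set Om} (hS : MeasurableSet S) :
    Pr S = ∑' n, Pr (C.D s x n ∩ S) := by
  have hdisj : Pairwise (Function.onFun Disjoint fun n => C.D s x n ∩ S) := by
    intro m n hmn
    rw [Function.onFun, Set.disjoint_left]
    rintro ω ⟨h1, _⟩ ⟨h2, _⟩
    apply hmn
    rw [← (C.N_eq_iff hs ⟨m + 1, h1.2⟩).2 h1, ← (C.N_eq_iff hs ⟨n + 1, h2.2⟩).2 h2]
  rw [← measure_iUnion hdisj fun n => (C.measurableSet_D s x n).inter hS]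
  refine measure_congr ?_
  filter_upwards [C.ae_finite hC x] with ω hω
  have h1 := (C.N_eq_iff hs (hω s)).1 rfl
  apply propext
  show ω ∈ S ↔ ω ∈ ⋃ n, C.D s x n ∩ S
  rw [Set.mem_iUnion]
  constructor
  · intro h
    exact ⟨C.N s x ω, h1, h⟩
  · rintro ⟨n, _, h⟩
    exact h

theorem Chain.restart (hC : C.NE) (x : E) {s : ℝ} (hs : 0 ≤ s) {β : Type*} [MeasurableSpace β]
    {Z : Om → β} (hZ : Measurable Z) (hp : C.Past s x Z) :
    Pr.map (fun ω => (Z ω, C.θ s x ω)) = (Pr.map Z).prod Pr := by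
  have hθ := C.measurable_θ s x
  have : IsProbabilityMeasure (Pr.map Z) := Measure.isProbabilityMeasure_map hZ.aemeasurable
  symm
  refine Measure.prod_eq fun A B hA hB => ?_
  rw [Measure.map_apply (hZ.prodMk hθ) (hA.prod hB), Measure.map_apply hZ hA]
  have h1 : (fun ω => (Z ω, C.θ s x ω)) ⁻¹' (A ×ˢ B) = Z ⁻¹' A ∩ C.θ s x ⁻¹' B := rfl
  rw [h1, C.sum_D hC x hs ((hZ hA).inter (hθ hB)), C.sum_D hC x hs (hZ hA),
    ← ENNReal.tsum_mul_right]
  exact tsum_congr fun n => C.restart_D x hs hZ hp hA hB n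

theorem Chain.lintegral_restart (hC : C.NE) (x : E) {s : ℝ} (hs : 0 ≤ s) {β : Type*}
    [MeasurableSpace β] {Z : Om → β} (hZ : Measurable Z) (hp : C.Past s x Z)
    {H : β × Om → ℝ≥0∞} (hH : Measurable H) :
    ∫⁻ ω, H (Z ω, C.θ s x ω) ∂Pr = ∫⁻ ω, ∫⁻ ω', H (Z ω, ω') ∂Pr ∂Pr := by
  have hθ := C.measurable_θ s x
  rw [← lintegral_map hH (hZ.prodMk hθ), C.restart hC x hs hZ hp,
    lintegral_prod _ hH.aemeasurable, lintegral_map hH.lintegral_prod_right' hZ]

theorem Chain.integral_restart (hC : C.NE) (x : E) {s : ℝ} (hs : 0 ≤ s) {β : Type*}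
    [MeasurableSpace β] {Z : Om → β} (hZ : Measurable Z) (hp : C.Past s x Z)
    {H : β × Om → ℝ} (hH : Measurable H) (hi : Integrable (fun ω => H (Z ω, C.θ s x ω)) Pr) :
    ∫ ω, H (Z ω, C.θ s x ω) ∂Pr = ∫ ω, ∫ ω', H (Z ω, ω') ∂Pr ∂Pr := by
  have hθ := C.measurable_θ s x
  have : IsProbabilityMeasure (Pr.map Z) := Measure.isProbabilityMeasure_map hZ.aemeasurable
  have hi' : Integrable H ((Pr.map Z).prod Pr) := by
    rw [← C.restart hC x hs hZ hp, integrable_map_measure hH.aestronglyMeasurable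
      (hZ.prodMk hθ).aemeasurable]
    exact hi
  rw [← integral_map (hZ.prodMk hθ).aemeasurable hH.aestronglyMeasurable (f := H),
    C.restart hC x hs hZ hp, integral_prod _ hi',
    integral_map hZ.aemeasurable hi'.integral_prod_left.1]

/-- Simple Markov property for one-time probabilities (Chapman-Kolmogorov). -/
theorem Chain.markov (hC : C.NE) (x : E) {s t : ℝ} (hs : 0 ≤ s) (ht : 0 ≤ t)
    (f : E → E → ℝ≥0∞) :
    ∫⁻ ω, f (C.X s x ω) (C.X (s + t) x ω) ∂Pr =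
      ∫⁻ ω, ∫⁻ ω', f (C.X s x ω) (C.X t (C.X s x ω) ω') ∂Pr ∂Pr := by
  have hH : Measurable fun p : E × Om => f p.1 (C.X t p.1 p.2) :=
    measurable_from_prod_countable_right fun y =>
      (measurable_of_countable (f y)).comp (C.measurable_Xx t y)
  rw [← C.lintegral_restart hC x hs (C.measurable_Xx s x) (C.past_X s x) hH]
  refine lintegral_congr_ae ?_
  filter_upwards [C.ae_finite hC x] with ω hω
  rw [C.X_restart hs ht x ω hω]

end H40.VM
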