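import Pool.Agent.H40.VM.CT1

/-!
# Module CT3: supersolutions

Common step (first jump). For `t ≥ 0`, by `lintegral_cons'` and `T_succ'`, `Y_succ`: on
`e := (ω 0).2`, if `t < e / q x` nothing happens up to time `t`; otherwise the chain restarts from
`Φ x u` with remaining time `t - e / q x`. Calculus: for `r = q t` and a polynomial
`w(s) = A + s B + s² D`,
`∫_0^{r} exp (-e) * (w (t - e / q) + w' (t - e / q) / q) de = w t - exp (- r) * w 0`
(the integrand is the derivative of `e ↦ - exp (-e) * w (t - e / q)`).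
All statements are proved for the functionals truncated at `k` jumps by induction on `k`, then
monotone convergence (`Chain.ae_finite`).
-/

open MeasureTheory ProbabilityTheory Filter Topology
open scoped ENNReal NNReal unitInterval

namespace H40.VM

/-- the calculus identity behind all supersolution arguments -/
lemma calc_exp {q t : ℝ} (hq : 0 < q) (ht : 0 ≤ t) {w w' : ℝ → ℝ}
    (hd : ∀ s, HasDerivAt w (w' s) s) (hc : Continuous w')
    (h0 : ∀ s ∈ Set.Icc 0 t, 0 ≤ w s + w' s / q) (hw0 : 0 ≤ w 0) :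
    ∫⁻ e : ℝ≥0, (if (e : ℝ) / q ≤ t then
        ENNReal.ofReal (w (t - (e : ℝ) / q) + w' (t - (e : ℝ) / q) / q) else 0) ∂expL
      + ENNReal.ofReal (Real.exp (-(q * t)) * w 0) = ENNReal.ofReal (w t) := by
  have hwc : Continuous w := continuous_iff_continuousAt.2 fun s => (hd s).continuousAt
  have hqt : 0 ≤ q * t := mul_nonneg hq.le ht
  let h : ℝ → ℝ := fun r => Real.exp (-r) * (w (t - r / q) + w' (t - r / q) / q)
  have hcont : Continuous h := by
    have h1 : Continuous fun r : ℝ => t - r / q := by fun_prop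
    exact (Real.continuous_exp.comp continuous_neg).mul
      ((hwc.comp h1).add ((hc.comp h1).div_const q))
  have hm : Measurable fun e : ℝ≥0 => (if (e : ℝ) / q ≤ t then
        ENNReal.ofReal (w (t - (e : ℝ) / q) + w' (t - (e : ℝ) / q) / q) else 0) := by
    refine Measurable.ite (measurableSet_le (by fun_prop) measurable_const) ?_ measurable_const
    refine Measurable.ennreal_ofReal ?_
    have h1 : Measurable fun e : ℝ≥0 => t - (e : ℝ) / q := by fun_prop
    exact (hwc.measurable.comp h1).add ((hc.measurable.comp h1).div_const q)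
  rw [lintegral_expL hm]
  have h1 : ∫⁻ r in Set.Ioi (0 : ℝ), ENNReal.ofReal (Real.exp (-r)) *
      (if ((r.toNNReal : ℝ≥0) : ℝ) / q ≤ t then ENNReal.ofReal
        (w (t - ((r.toNNReal : ℝ≥0) : ℝ) / q) + w' (t - ((r.toNNReal : ℝ≥0) : ℝ) / q) / q)
        else 0) = ∫⁻ r in Set.Ioc (0 : ℝ) (q * t), ENNReal.ofReal (h r) := by
    rw [← lintegral_indicator measurableSet_Ioi, ← lintegral_indicator measurableSet_Ioc]
    refine lintegral_congr fun r => ?_
    by_cases hr : 0 < r
    · have hcoe : ((r.toNNReal : ℝ≥0) : ℝ) = r := Real.coe_toNNReal r hr.le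
      rw [Set.indicator_of_mem (Set.mem_Ioi.2 hr), hcoe]
      by_cases hrt : r / q ≤ t
      · have h2 : r ≤ q * t := by
          rw [div_le_iff₀ hq] at hrt
          linarith
        rw [if_pos hrt, Set.indicator_of_mem (Set.mem_Ioc.2 ⟨hr, h2⟩),
          ← ENNReal.ofReal_mul (Real.exp_pos _).le]
      · have h2 : ¬ r ≤ q * t := by
          intro h2
          apply hrt
          rw [div_le_iff₀ hq]
          linarith
        rw [if_neg hrt, mul_zero, Set.indicator_of_notMem]
        exact fun h3 => h2 h3.2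
    · rw [Set.indicator_of_notMem (by simpa using hr), Set.indicator_of_notMem]
      exact fun h3 => hr h3.1
  rw [h1]
  have hnn : ∀ r ∈ Set.Ioc (0 : ℝ) (q * t), 0 ≤ h r := by
    intro r hr
    refine mul_nonneg (Real.exp_pos _).le (h0 _ ⟨?_, ?_⟩)
    · have : r / q ≤ t := by
        rw [div_le_iff₀ hq]
        linarith [hr.2]
      linarith
    · have : 0 ≤ r / q := div_nonneg hr.1.le hq.le
      linarith
  have hint : IntegrableOn h (Set.Ioc 0 (q * t)) :=
    (hcont.continuousOn.integrableOn_compact isCompact_Icc).mono_set Set.Ioc_subset_Icc_self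
  have h2 : ENNReal.ofReal (∫ r in Set.Ioc (0 : ℝ) (q * t), h r) =
      ∫⁻ r in Set.Ioc (0 : ℝ) (q * t), ENNReal.ofReal (h r) :=
    ofReal_integral_eq_lintegral_ofReal hint
      ((ae_restrict_iff' measurableSet_Ioc).2 (Eventually.of_forall hnn))
  have h3 : ∫ r in Set.Ioc (0 : ℝ) (q * t), h r = w t - Real.exp (-(q * t)) * w 0 := by
    rw [← intervalIntegral.integral_of_le hqt]
    have hder : ∀ r ∈ Set.uIcc 0 (q * t),
        HasDerivAt (fun r => -(Real.exp (-r) * w (t - r / q))) (h r) r := by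
      intro r _
      have d1 : HasDerivAt (fun r : ℝ => Real.exp (-r)) (Real.exp (-r) * (-1)) r :=
        (hasDerivAt_neg r).exp
      have d2 : HasDerivAt (fun r : ℝ => t - r / q) (-(1 / q)) r :=
        ((hasDerivAt_id r).div_const q).const_sub t
      have d3 : HasDerivAt (fun r : ℝ => w (t - r / q)) (w' (t - r / q) * (-(1 / q))) r :=
        (hd (t - r / q)).comp r d2
      have d4 := (d1.mul d3).neg
      refine d4.congr_deriv ?_
      change _ = Real.exp (-r) * (w (t - r / q) + w' (t - r / q) / q)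
      ring
    rw [intervalIntegral.integral_eq_sub_of_hasDerivAt hder (hcont.intervalIntegrable _ _)]
    have e1 : t - q * t / q = 0 := by field_simp; ring
    rw [e1]
    simp
    ring
  rw [← h2, h3, ← ENNReal.ofReal_add _ (mul_nonneg (Real.exp_pos _).le hw0)]
  · congr 1
    ring
  · rw [← h3]
    exact setIntegral_nonneg measurableSet_Ioc hnn

lemma calc_le {q t : ℝ} (hq : 0 < q) (ht : 0 ≤ t) {a b D : ℝ} (ha : 0 ≤ a) (hb : 0 ≤ b)
    (hD : 0 ≤ D) :
    ∫⁻ e : ℝ≥0, (if (e : ℝ) / q ≤ t then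
        ENNReal.ofReal ((a + (t - (e : ℝ) / q) * b + (t - (e : ℝ) / q) ^ 2 * D)
          + (b + 2 * (t - (e : ℝ) / q) * D) / q) else 0) ∂expL
      + ENNReal.ofReal (Real.exp (-(q * t)) * a) = ENNReal.ofReal (a + t * b + t ^ 2 * D) := by
  have hd : ∀ s : ℝ, HasDerivAt (fun s => a + s * b + s ^ 2 * D) (b + 2 * s * D) s := by
    intro s
    have d1 : HasDerivAt (fun s : ℝ => a + s * b) (1 * b) s :=
      ((hasDerivAt_id s).mul_const b).const_add a
    have d2 : HasDerivAt (fun s : ℝ => s ^ 2 * D) ((2 * s) * D) s := by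
      have := (hasDerivAt_pow 2 s).mul_const D
      refine this.congr_deriv ?_
      norm_num
    refine (d1.add d2).congr_deriv ?_
    ring
  have h := calc_exp hq ht hd (by fun_prop) (fun s hs => by
    have := hs.1
    positivity) (by simpa using ha)
  simp only [zero_mul, add_zero, ne_eq, OfNat.ofNat_ne_zero, not_false_eq_true, zero_pow] at h
  exact h

lemma lint_gt {q t : ℝ} (hq : 0 < q) (ht : 0 ≤ t) (c : ℝ≥0∞) :
    ∫⁻ e : ℝ≥0, (if t < (e : ℝ) / q then c else 0) ∂expL =
      ENNReal.ofReal (Real.exp (-(q * t))) * c := by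
  obtain ⟨r, hr⟩ : ∃ r : ℝ≥0, (r : ℝ) = q * t := ⟨⟨q * t, mul_nonneg hq.le ht⟩, rfl⟩
  have h1 := memoryless (f := fun _ => c) measurable_const r
  rw [lintegral_const, measure_univ, mul_one, hr] at h1
  rw [← h1]
  refine lintegral_congr fun e => ?_
  have : t < (e : ℝ) / q ↔ r < e := by
    rw [lt_div_iff₀ hq, ← NNReal.coe_lt_coe, hr, mul_comm]
  simp only [this]

/-- the inner bound -/
lemma inner_bound {a b : unitInterval → ℝ} (ha : Measurable a) (hb : Measurable b)
    (ha0 : ∀ u, 0 ≤ a u) (hb0 : ∀ u, 0 ≤ b u) {D s : ℝ} (hD : 0 ≤ D) (hs : 0 ≤ s)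
    {c : ℝ≥0∞} {Ax Bx q : ℝ} (hq : 0 < q) (hAx : 0 ≤ Ax) (hBx : 0 ≤ Bx)
    (h1 : (∫⁻ u, ENNReal.ofReal (a u)) + c ≤ ENNReal.ofReal (Ax + Bx / q))
    (h2 : ∫⁻ u, ENNReal.ofReal (b u) ≤ ENNReal.ofReal (Bx + 2 * D / q)) :
    c + ∫⁻ u, ENNReal.ofReal (a u + s * b u + s ^ 2 * D) ≤
      ENNReal.ofReal ((Ax + s * Bx + s ^ 2 * D) + (Bx + 2 * s * D) / q) := by
  have e1 : ∀ u, ENNReal.ofReal (a u + s * b u + s ^ 2 * D) =
      ENNReal.ofReal (a u) + (ENNReal.ofReal s * ENNReal.ofReal (b u)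
        + ENNReal.ofReal (s ^ 2 * D)) := by
    intro u
    rw [← ENNReal.ofReal_mul hs, ← ENNReal.ofReal_add (mul_nonneg hs (hb0 u)) (by positivity),
      ← ENNReal.ofReal_add (ha0 u) (by have := hb0 u; positivity), add_assoc]
  simp_rw [e1]
  rw [lintegral_add_left ha.ennreal_ofReal, lintegral_add_left
    (hb.ennreal_ofReal.const_mul _), lintegral_const_mul _ hb.ennreal_ofReal, lintegral_const,
    measure_univ, mul_one]
  have e2 : ENNReal.ofReal ((Ax + s * Bx + s ^ 2 * D) + (Bx + 2 * s * D) / q) =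
      ENNReal.ofReal (Ax + Bx / q) + (ENNReal.ofReal s * ENNReal.ofReal (Bx + 2 * D / q)
        + ENNReal.ofReal (s ^ 2 * D)) := by
    rw [← ENNReal.ofReal_mul hs, ← ENNReal.ofReal_add (by positivity) (by positivity),
      ← ENNReal.ofReal_add (by positivity) (by positivity)]
    congr 1
    ring
  rw [e2, ← add_assoc, add_comm c]
  gcongr

variable {E : Type} [MeasurableSpace E] [Countable E] [DiscreteMeasurableSpace E] (C : Chain E)

omit [Countable E] [DiscreteMeasurableSpace E] in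
lemma Chain.T_cons (n : ℕ) (x : E) (u : unitInterval) (e : ℝ≥0) (ω : Om) :
    C.T (n + 1) x (cons (u, e) ω) = (e : ℝ) / C.q x + C.T n (C.Φ x u) ω := by
  rw [C.T_succ', cons_zero, shift_cons]

omit [Countable E] [DiscreteMeasurableSpace E] in
lemma Chain.Y_cons (n : ℕ) (x : E) (u : unitInterval) (e : ℝ≥0) (ω : Om) :
    C.Y (n + 1) x (cons (u, e) ω) = C.Y n (C.Φ x u) ω := by
  rw [C.Y_succ, cons_zero, shift_cons]

lemma Chain.measurable_comp_Φ (f : E → ℝ) (x : E) : Measurable fun u => f (C.Φ x u) :=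
  (measurable_of_countable f).comp (C.meas x)

lemma pr_eq_lint {p : Om → Prop} [DecidablePred p] (hp : MeasurableSet {ω | p ω}) :
    Pr {ω | p ω} = ∫⁻ ω, (if p ω then (1 : ℝ≥0∞) else 0) ∂Pr := by
  rw [← lintegral_indicator_one hp]
  refine lintegral_congr fun ω => ?_
  by_cases h : p ω
  · rw [if_pos h, Set.indicator_of_mem (s := {ω | p ω}) h]
    rfl
  · rw [if_neg h, Set.indicator_of_notMem (s := {ω | p ω}) h]

/-- expected number of jumps (no non-explosion assumption) -/
theorem Chain.super_count {A B : E → ℝ} (hA : ∀ x, 0 ≤ A x) (hB : ∀ x, 0 ≤ B x)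
    (h1 : ∀ x, (∫⁻ u, ENNReal.ofReal (A (C.Φ x u))) + 1 ≤ ENNReal.ofReal (A x + B x / C.q x))
    (h2 : ∀ x, ∫⁻ u, ENNReal.ofReal (B (C.Φ x u)) ≤ ENNReal.ofReal (B x))
    {t : ℝ} (ht : 0 ≤ t) (x : E) (k : ℕ) :
    ∑ i ∈ Finset.range k, Pr {ω | C.T (i + 1) x ω ≤ t} ≤ ENNReal.ofReal (A x + t * B x) := by
  induction k generalizing t x with
  | zero => simp
  | succ k ih =>
    have hq := C.qpos x
    have hset : ∀ (i : ℕ) (y : E) (s : ℝ), MeasurableSet {ω | C.T i y ω ≤ s} := fun i y s =>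
      measurableSet_le (C.measurable_Tx i y) measurable_const
    have hmi : ∀ i, Measurable fun ω => (if C.T (i + 1) x ω ≤ t then (1 : ℝ≥0∞) else 0) :=
      fun i => Measurable.ite (hset (i + 1) x t) measurable_const measurable_const
    have e1 : ∑ i ∈ Finset.range (k + 1), Pr {ω | C.T (i + 1) x ω ≤ t} =
        ∫⁻ ω, ∑ i ∈ Finset.range (k + 1), (if C.T (i + 1) x ω ≤ t then (1 : ℝ≥0∞) else 0) ∂Pr := by
      rw [lintegral_finsetSum _ fun i _ => hmi i]
      exact Finset.sum_congr rfl fun i _ => pr_eq_lint (hset (i + 1) x t)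
    rw [e1, lintegral_cons' (Finset.measurable_sum _ fun i _ => hmi i)]
    have key : ∀ e : ℝ≥0, (∫⁻ u : unitInterval, ∫⁻ ω, ∑ i ∈ Finset.range (k + 1),
        (if C.T (i + 1) x (cons (u, e) ω) ≤ t then (1 : ℝ≥0∞) else 0) ∂Pr ∂volume) ≤
        (if (e : ℝ) / C.q x ≤ t then
        ENNReal.ofReal ((A x + (t - (e : ℝ) / C.q x) * B x + (t - (e : ℝ) / C.q x) ^ 2 * 0)
          + (B x + 2 * (t - (e : ℝ) / C.q x) * 0) / C.q x) else 0) := by
      intro e
      by_cases he : (e : ℝ) / C.q x ≤ t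
      · rw [if_pos he]
        have hs : 0 ≤ t - (e : ℝ) / C.q x := by linarith
        refine le_trans ?_ (inner_bound (C.measurable_comp_Φ A x) (C.measurable_comp_Φ B x)
          (fun u => hA _) (fun u => hB _) le_rfl hs hq (hA x) (hB x) (h1 x)
          ((h2 x).trans (ENNReal.ofReal_le_ofReal (by simp))))
        have hpt : ∀ u : unitInterval, (∫⁻ ω, ∑ i ∈ Finset.range (k + 1),
            (if C.T (i + 1) x (cons (u, e) ω) ≤ t then (1 : ℝ≥0∞) else 0) ∂Pr) ≤
            1 + ENNReal.ofReal (A (C.Φ x u) + (t - (e : ℝ) / C.q x) * B (C.Φ x u)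
              + (t - (e : ℝ) / C.q x) ^ 2 * 0) := by
          intro u
          have h3 : ∀ ω, ∑ i ∈ Finset.range (k + 1),
              (if C.T (i + 1) x (cons (u, e) ω) ≤ t then (1 : ℝ≥0∞) else 0) ≤
              1 + ∑ i ∈ Finset.range k,
                (if C.T (i + 1) (C.Φ x u) ω ≤ t - (e : ℝ) / C.q x then (1 : ℝ≥0∞) else 0) := by
            intro ω
            rw [Finset.sum_range_succ', add_comm]
            refine add_le_add ?_ (le_of_eq (Finset.sum_congr rfl fun i _ => ?_))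
            · split_ifs <;> simp
            · rw [C.T_cons]
              have : (e : ℝ) / C.q x + C.T (i + 1) (C.Φ x u) ω ≤ t ↔
                  C.T (i + 1) (C.Φ x u) ω ≤ t - (e : ℝ) / C.q x := by
                constructor <;> intro h <;> linarith
              simp only [this]
          refine (lintegral_mono h3).trans ?_
          have hm : ∀ i, Measurable fun ω =>
              (if C.T (i + 1) (C.Φ x u) ω ≤ t - (e : ℝ) / C.q x then (1 : ℝ≥0∞) else 0) :=
            fun i => Measurable.ite (hset _ _ _) measurable_const measurable_const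
          rw [lintegral_add_left measurable_const, lintegral_const, measure_univ, mul_one,
            lintegral_finsetSum _ fun i _ => hm i]
          refine add_le_add le_rfl ?_
          have h4 : ∑ i ∈ Finset.range k, ∫⁻ ω, (if C.T (i + 1) (C.Φ x u) ω ≤
              t - (e : ℝ) / C.q x then (1 : ℝ≥0∞) else 0) ∂Pr =
              ∑ i ∈ Finset.range k, Pr {ω | C.T (i + 1) (C.Φ x u) ω ≤ t - (e : ℝ) / C.q x} :=
            Finset.sum_congr rfl fun i _ => (pr_eq_lint (hset _ _ _)).symm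
          rw [h4, mul_zero, add_zero]
          exact ih hs (C.Φ x u)
        refine (lintegral_mono hpt).trans (le_of_eq ?_)
        rw [lintegral_add_left measurable_const, lintegral_const, measure_univ, mul_one]
      · rw [if_neg he]
        have hz : ∀ (u : unitInterval) (ω : Om), ∑ i ∈ Finset.range (k + 1),
            (if C.T (i + 1) x (cons (u, e) ω) ≤ t then (1 : ℝ≥0∞) else 0) = 0 := by
          intro u ω
          refine Finset.sum_eq_zero fun i _ => ?_
          rw [if_neg]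
          rw [C.T_cons]
          have := C.T_nonneg i (C.Φ x u) ω
          push Not at he ⊢
          linarith
        simp only [hz, lintegral_zero, le_refl]
    refine (lintegral_mono key).trans ?_
    have hfin := calc_le hq ht (hA x) (hB x) (le_refl (0 : ℝ))
    rw [mul_zero, add_zero] at hfin
    rw [← hfin]
    exact le_self_add

theorem Chain.ne_of_super {A B : E → ℝ} (hA : ∀ x, 0 ≤ A x) (hB : ∀ x, 0 ≤ B x)
    (h1 : ∀ x, (∫⁻ u, ENNReal.ofReal (A (C.Φ x u))) + 1 ≤ ENNReal.ofReal (A x + B x / C.q x))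
    (h2 : ∀ x, ∫⁻ u, ENNReal.ofReal (B (C.Φ x u)) ≤ ENNReal.ofReal (B x)) :
    C.NE := by
  intro x t
  by_cases ht : 0 ≤ t
  · have hsum : ∑' i, Pr {ω | C.T (i + 1) x ω ≤ t} ≠ ∞ := by
      refine ne_top_of_le_ne_top ENNReal.ofReal_ne_top
        (ENNReal.tsum_le_of_sum_range_le fun k => C.super_count hA hB h1 h2 ht x k)
    have := ENNReal.tendsto_atTop_zero_of_tsum_ne_top hsum
    exact (tendsto_add_atTop_iff_nat 1).1 this
  · have : ∀ k, Pr {ω | C.T k x ω ≤ t} = 0 := by
      intro k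
      have : {ω | C.T k x ω ≤ t} = ∅ := by
        refine Set.eq_empty_of_forall_notMem fun ω hω => ?_
        have h3 := C.T_nonneg k x ω
        have h4 : C.T k x ω ≤ t := hω
        exact ht (h3.trans h4)
      rw [this, measure_empty]
    simp only [this]
    exact tendsto_const_nhds

/-- expected time until the first jump, cut off at `t` -/
lemma lint_min {q t : ℝ} (hq : 0 < q) (ht : 0 ≤ t) :
    ∫⁻ e : ℝ≥0, ENNReal.ofReal (min t ((e : ℝ) / q)) ∂expL =
      ∫⁻ e : ℝ≥0, (if (e : ℝ) / q ≤ t then ENNReal.ofReal (1 / q) else 0) ∂expL := by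
  have h1 := calc_le hq ht (le_refl (0 : ℝ)) zero_le_one (le_refl (0 : ℝ))
  simp only [mul_zero, mul_one, add_zero, zero_add, ENNReal.ofReal_zero] at h1
  have hset : MeasurableSet {e : ℝ≥0 | (e : ℝ) / q ≤ t} :=
    measurableSet_le (by fun_prop) measurable_const
  have hm1 : Measurable fun e : ℝ≥0 => (if (e : ℝ) / q ≤ t then
      ENNReal.ofReal (t - (e : ℝ) / q) else 0) :=
    Measurable.ite hset (by fun_prop) measurable_const
  have hm2 : Measurable fun e : ℝ≥0 => ENNReal.ofReal (min t ((e : ℝ) / q)) := by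
    have : Measurable fun e : ℝ≥0 => min t ((e : ℝ) / q) := measurable_const.min (by fun_prop)
    exact this.ennreal_ofReal
  have h2 : ∀ e : ℝ≥0, ENNReal.ofReal (min t ((e : ℝ) / q)) + (if (e : ℝ) / q ≤ t then
      ENNReal.ofReal (t - (e : ℝ) / q) else 0) = ENNReal.ofReal t := by
    intro e
    by_cases he : (e : ℝ) / q ≤ t
    · rw [if_pos he, min_eq_right he, ← ENNReal.ofReal_add (by positivity) (by linarith)]
      congr 1
      ring
    · rw [if_neg he, min_eq_left (not_le.1 he).le, add_zero]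
  have h3 : ∀ e : ℝ≥0, (if (e : ℝ) / q ≤ t then ENNReal.ofReal (t - (e : ℝ) / q + 1 / q) else 0)
      = (if (e : ℝ) / q ≤ t then ENNReal.ofReal (1 / q) else 0) + (if (e : ℝ) / q ≤ t then
      ENNReal.ofReal (t - (e : ℝ) / q) else 0) := by
    intro e
    by_cases he : (e : ℝ) / q ≤ t
    · rw [if_pos he, if_pos he, if_pos he, ← ENNReal.ofReal_add (by positivity) (by linarith)]
      congr 1
      ring
    · rw [if_neg he, if_neg he, if_neg he, add_zero]
  simp_rw [h3] at h1
  have h4 : ∫⁻ e : ℝ≥0, ENNReal.ofReal (min t ((e : ℝ) / q)) ∂expL +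
      ∫⁻ e : ℝ≥0, (if (e : ℝ) / q ≤ t then ENNReal.ofReal (t - (e : ℝ) / q) else 0) ∂expL
      = ENNReal.ofReal t := by
    rw [← lintegral_add_left hm2]
    simp_rw [h2]
    rw [lintegral_const, measure_univ, mul_one]
  have hm3 : Measurable fun e : ℝ≥0 => (if (e : ℝ) / q ≤ t then ENNReal.ofReal (1 / q) else 0) :=
    Measurable.ite hset measurable_const measurable_const
  rw [lintegral_add_left hm3] at h1
  have hfin : ∫⁻ e : ℝ≥0, (if (e : ℝ) / q ≤ t then ENNReal.ofReal (t - (e : ℝ) / q) else 0) ∂expL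
      ≠ ∞ := by
    have h5 : ∫⁻ e : ℝ≥0, (if (e : ℝ) / q ≤ t then ENNReal.ofReal (t - (e : ℝ) / q) else 0) ∂expL
        ≤ ENNReal.ofReal t := by
      rw [← h4]
      exact le_add_self
    exact ne_top_of_le_ne_top ENNReal.ofReal_ne_top h5
  exact (ENNReal.add_left_inj hfin).1 (h4.trans h1.symm)

/-- terminal cost, truncated at `k` jumps -/
noncomputable def Chain.TF (A : E → ℕ → ℝ) (k : ℕ) (t : ℝ) (x : E) (n : ℕ) (ω : Om) : ℝ≥0∞ :=
  ∑ i ∈ Finset.range k, if C.T i x ω ≤ t ∧ t < C.T (i + 1) x ω then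
    ENNReal.ofReal (A (C.Y i x ω) (n + i)) else 0

lemma Chain.measurable_TF (A : E → ℕ → ℝ) (k : ℕ) (x : E) (n : ℕ) :
    Measurable fun p : ℝ × Om => C.TF A k p.1 x n p.2 := by
  unfold Chain.TF
  refine Finset.measurable_sum _ fun i _ => ?_
  refine Measurable.ite ?_ ?_ measurable_const
  · exact (measurableSet_le ((C.measurable_Tx i x).comp measurable_snd) measurable_fst).inter
      (measurableSet_lt measurable_fst ((C.measurable_Tx (i + 1) x).comp measurable_snd))
  · have h1 : Measurable fun y : E => A y (n + i) := measurable_of_countable _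
    exact (h1.comp ((C.measurable_Yx i x).comp measurable_snd)).ennreal_ofReal

omit [Countable E] [DiscreteMeasurableSpace E] in
lemma Chain.TF_neg (A : E → ℕ → ℝ) (k : ℕ) {t : ℝ} (ht : t < 0) (x : E) (n : ℕ) (ω : Om) :
    C.TF A k t x n ω = 0 := by
  refine Finset.sum_eq_zero fun i _ => ?_
  rw [if_neg]
  rintro ⟨h1, -⟩
  have := C.T_nonneg i x ω
  linarith

omit [Countable E] [DiscreteMeasurableSpace E] in
lemma Chain.TF_cons (A : E → ℕ → ℝ) (k : ℕ) {t : ℝ} (ht : 0 ≤ t) (x : E) (n : ℕ)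
    (u : unitInterval) (e : ℝ≥0) (ω : Om) :
    C.TF A (k + 1) t x n (cons (u, e) ω) = (if t < (e : ℝ) / C.q x then
      ENNReal.ofReal (A x n) else 0) + C.TF A k (t - (e : ℝ) / C.q x) (C.Φ x u) (n + 1) ω := by
  unfold Chain.TF
  rw [Finset.sum_range_succ', add_comm]
  congr 1
  · rw [C.T_cons, C.T_zero, C.T_zero, add_zero, C.Y_zero, add_zero]
    simp only [ht, true_and]
  · refine Finset.sum_congr rfl fun i _ => ?_
    rw [C.T_cons, C.T_cons, C.Y_cons]
    have h1 : (e : ℝ) / C.q x + C.T i (C.Φ x u) ω ≤ t ↔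
        C.T i (C.Φ x u) ω ≤ t - (e : ℝ) / C.q x := by
      constructor <;> intro h <;> linarith
    have h2 : t < (e : ℝ) / C.q x + C.T (i + 1) (C.Φ x u) ω ↔
        t - (e : ℝ) / C.q x < C.T (i + 1) (C.Φ x u) ω := by
      constructor <;> intro h <;> linarith
    have h3 : n + (i + 1) = n + 1 + i := by omega
    simp only [h1, h2, h3]

omit [Countable E] [DiscreteMeasurableSpace E] in
lemma Chain.TF_mono (A : E → ℕ → ℝ) (t : ℝ) (x : E) (n : ℕ) (ω : Om) :
    Monotone fun k => C.TF A k t x n ω := fun _ _ hij =>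
  Finset.sum_le_sum_of_subset (Finset.range_mono hij)

omit [Countable E] [DiscreteMeasurableSpace E] in
lemma Chain.TF_eq (A : E → ℕ → ℝ) {k : ℕ} {t : ℝ} (ht : 0 ≤ t) (x : E) (n : ℕ) {ω : Om}
    (h : t < C.T k x ω) :
    C.TF A k t x n ω = ENNReal.ofReal (A (C.X t x ω) (n + C.N t x ω)) := by
  have hN : ∀ i, C.N t x ω = i ↔ C.T i x ω ≤ t ∧ t < C.T (i + 1) x ω :=
    fun i => C.N_eq_iff ht ⟨k, h⟩
  have h1 := (hN (C.N t x ω)).1 rfl
  have h2 : C.N t x ω < k := by
    by_contra hcon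
    have := C.T_mono x ω (not_lt.1 hcon)
    simp only at this
    linarith [h1.1]
  unfold Chain.TF
  rw [Finset.sum_eq_single_of_mem (C.N t x ω) (Finset.mem_range.2 h2)]
  · rw [if_pos h1]
    rfl
  · intro i _ hi
    rw [if_neg]
    intro h3
    exact hi ((hN i).2 h3).symm

/-- running cost, truncated at `k` jumps -/
noncomputable def Chain.RF (g : E → ℝ) (k : ℕ) (t : ℝ) (x : E) (ω : Om) : ℝ≥0∞ :=
  ∫⁻ s in Set.Ioc 0 t, C.TF (fun y _ => g y) k s x 0 ω

lemma Chain.measurable_RF (g : E → ℝ) (k : ℕ) (t : ℝ) (x : E) :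
    Measurable fun ω : Om => C.RF g k t x ω := by
  have h0 := C.measurable_TF (fun y _ => g y) k x 0
  have h := h0.comp (measurable_swap (α := Om) (β := ℝ))
  exact h.lintegral_prod_right'

lemma shift_lintegral {φ : ℝ → ℝ≥0∞} (hφ : ∀ s < 0, φ s = 0) {t c : ℝ} (hc : 0 ≤ c) :
    ∫⁻ s in Set.Ioc 0 t, φ (s - c) = ∫⁻ s in Set.Ioc 0 (t - c), φ s := by
  rw [← lintegral_indicator measurableSet_Ioc, ← lintegral_indicator measurableSet_Ioc]
  have h1 : ∫⁻ s, (Set.Ioc 0 t).indicator (fun s => φ (s - c)) s =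
      ∫⁻ s, (Set.Ioc (-c) (t - c)).indicator φ (s - c) := by
    refine lintegral_congr fun s => ?_
    by_cases hs : s ∈ Set.Ioc 0 t
    · rw [Set.indicator_of_mem hs, Set.indicator_of_mem]
      exact ⟨by linarith [hs.1], by linarith [hs.2]⟩
    · rw [Set.indicator_of_notMem hs, Set.indicator_of_notMem]
      exact fun h => hs ⟨by linarith [h.1], by linarith [h.2]⟩
  rw [h1, lintegral_sub_right_eq_self (fun s => (Set.Ioc (-c) (t - c)).indicator φ s) c]
  have h0 : ∀ᵐ r : ℝ, r ≠ 0 := by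
    simp [ae_iff, measure_singleton]
  refine lintegral_congr_ae ?_
  filter_upwards [h0] with s hs
  rcases lt_or_gt_of_ne hs with h2 | h2
  · rw [Set.indicator_of_notMem (s := Set.Ioc 0 (t - c)) (fun h => by linarith [h.1])]
    by_cases h3 : s ∈ Set.Ioc (-c) (t - c)
    · rw [Set.indicator_of_mem h3, hφ s h2]
    · rw [Set.indicator_of_notMem h3]
  · by_cases h3 : s ≤ t - c
    · have m1 : s ∈ Set.Ioc 0 (t - c) := ⟨h2, h3⟩
      have m2 : s ∈ Set.Ioc (-c) (t - c) := ⟨by linarith, h3⟩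
      rw [Set.indicator_of_mem m1, Set.indicator_of_mem m2]
    · rw [Set.indicator_of_notMem (s := Set.Ioc 0 (t - c)) (fun h => h3 h.2),
        Set.indicator_of_notMem (s := Set.Ioc (-c) (t - c)) (fun h => h3 h.2)]

omit [Countable E] [DiscreteMeasurableSpace E] in
lemma Chain.RF_cons (g : E → ℝ) (k : ℕ) (t : ℝ) (x : E)
    (u : unitInterval) (e : ℝ≥0) (ω : Om) :
    C.RF g (k + 1) t x (cons (u, e) ω) ≤ ENNReal.ofReal (min t ((e : ℝ) / C.q x)) *
      ENNReal.ofReal (g x) + C.RF g k (t - (e : ℝ) / C.q x) (C.Φ x u) ω := by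
  have hc : 0 ≤ (e : ℝ) / C.q x := div_nonneg e.2 (C.qpos x).le
  unfold Chain.RF
  have h1 : ∫⁻ s in Set.Ioc 0 t, C.TF (fun y _ => g y) (k + 1) s x 0 (cons (u, e) ω) =
      ∫⁻ s in Set.Ioc 0 t, ((if s < (e : ℝ) / C.q x then ENNReal.ofReal (g x) else 0)
        + C.TF (fun y _ => g y) k (s - (e : ℝ) / C.q x) (C.Φ x u) 0 ω) := by
    refine setLIntegral_congr_fun measurableSet_Ioc fun s hs => ?_
    rw [C.TF_cons _ k hs.1.le]
    rfl
  have hm : Measurable fun s : ℝ => (if s < (e : ℝ) / C.q x then ENNReal.ofReal (g x) else 0) :=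
    Measurable.ite (measurableSet_lt measurable_id measurable_const)
      measurable_const measurable_const
  rw [h1, lintegral_add_left hm]
  refine add_le_add ?_ (le_of_eq ?_)
  · have h2 : ∀ s ∈ Set.Ioc 0 t, (if s < (e : ℝ) / C.q x then ENNReal.ofReal (g x) else 0) ≤
        (Set.Ioc 0 (min t ((e : ℝ) / C.q x))).indicator (fun _ => ENNReal.ofReal (g x)) s := by
      intro s hs
      split_ifs with h
      · have m1 : s ∈ Set.Ioc 0 (min t ((e : ℝ) / C.q x)) := ⟨hs.1, le_min hs.2 h.le⟩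
        rw [Set.indicator_of_mem m1]
      · exact bot_le
    refine (setLIntegral_mono' measurableSet_Ioc h2).trans ?_
    refine (setLIntegral_le_lintegral _ _).trans ?_
    rw [lintegral_indicator measurableSet_Ioc, setLIntegral_const, Real.volume_Ioc, sub_zero,
      mul_comm]
  · exact shift_lintegral (φ := fun s => C.TF (fun y _ => g y) k s (C.Φ x u) 0 ω)
      (fun s hs => C.TF_neg _ k hs _ _ _) hc

lemma Chain.measurable_TFx (A : E → ℕ → ℝ) (k : ℕ) (t : ℝ) (x : E) (n : ℕ) :
    Measurable fun ω => C.TF A k t x n ω := by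
  have h0 := C.measurable_TF A k x n
  have h1 : Measurable fun ω : Om => ((t, ω) : ℝ × Om) := measurable_prodMk_left
  exact Measurable.comp (g := fun p : ℝ × Om => C.TF A k p.1 x n p.2)
    (f := fun ω : Om => ((t, ω) : ℝ × Om)) h0 h1

/-- the truncated functionals -/
lemma Chain.super_trunc {A : E → ℕ → ℝ} {B g : E → ℝ} {D : ℝ} (hA : ∀ x n, 0 ≤ A x n)
    (hB : ∀ x, 0 ≤ B x) (hD : 0 ≤ D)
    (h1 : ∀ x n, (∫⁻ u, ENNReal.ofReal (A (C.Φ x u) (n + 1))) + ENNReal.ofReal (g x / C.q x) ≤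
      ENNReal.ofReal (A x n + B x / C.q x))
    (h2 : ∀ x, ∫⁻ u, ENNReal.ofReal (B (C.Φ x u)) ≤ ENNReal.ofReal (B x + 2 * D / C.q x))
    (k : ℕ) {t : ℝ} (ht : 0 ≤ t) (x : E) (n : ℕ) :
    ∫⁻ ω, (C.TF A k t x n ω + C.RF g k t x ω) ∂Pr ≤
      ENNReal.ofReal (A x n + t * B x + t ^ 2 * D) := by
  induction k generalizing t x n with
  | zero =>
    have h0 : ∀ ω, C.TF A 0 t x n ω + C.RF g 0 t x ω = 0 := by
      intro ω
      simp [Chain.TF, Chain.RF]
    simp only [h0, lintegral_zero]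
    exact bot_le
  | succ k ih =>
    have hq := C.qpos x
    have hmT : Measurable fun ω => C.TF A (k + 1) t x n ω := C.measurable_TFx A (k + 1) t x n
    have hmR := C.measurable_RF g (k + 1) t x
    have hmTR : Measurable fun ω => C.TF A (k + 1) t x n ω + C.RF g (k + 1) t x ω :=
      hmT.add hmR
    rw [lintegral_cons' hmTR]
    let J : ℝ≥0 → ℝ≥0∞ := fun e => if (e : ℝ) / C.q x ≤ t then
      ∫⁻ u : unitInterval, ENNReal.ofReal (A (C.Φ x u) (n + 1) + (t - (e : ℝ) / C.q x) *
        B (C.Φ x u) + (t - (e : ℝ) / C.q x) ^ 2 * D) else 0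
    have key : ∀ e : ℝ≥0, (∫⁻ u : unitInterval, ∫⁻ ω, (C.TF A (k + 1) t x n (cons (u, e) ω) +
        C.RF g (k + 1) t x (cons (u, e) ω)) ∂Pr ∂volume) ≤
        (if t < (e : ℝ) / C.q x then ENNReal.ofReal (A x n) else 0) +
        (ENNReal.ofReal (min t ((e : ℝ) / C.q x)) * ENNReal.ofReal (g x) + J e) := by
      intro e
      have hpt : ∀ u : unitInterval, (∫⁻ ω, (C.TF A (k + 1) t x n (cons (u, e) ω) +
          C.RF g (k + 1) t x (cons (u, e) ω)) ∂Pr) ≤
          ((if t < (e : ℝ) / C.q x then ENNReal.ofReal (A x n) else 0) +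
          ENNReal.ofReal (min t ((e : ℝ) / C.q x)) * ENNReal.ofReal (g x)) +
          (if (e : ℝ) / C.q x ≤ t then ENNReal.ofReal (A (C.Φ x u) (n + 1) +
            (t - (e : ℝ) / C.q x) * B (C.Φ x u) + (t - (e : ℝ) / C.q x) ^ 2 * D) else 0) := by
        intro u
        have h3 : ∀ ω, C.TF A (k + 1) t x n (cons (u, e) ω) +
            C.RF g (k + 1) t x (cons (u, e) ω) ≤
            ((if t < (e : ℝ) / C.q x then ENNReal.ofReal (A x n) else 0) +
            ENNReal.ofReal (min t ((e : ℝ) / C.q x)) * ENNReal.ofReal (g x)) +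
            (C.TF A k (t - (e : ℝ) / C.q x) (C.Φ x u) (n + 1) ω +
              C.RF g k (t - (e : ℝ) / C.q x) (C.Φ x u) ω) := by
          intro ω
          rw [C.TF_cons A k ht]
          refine (add_le_add le_rfl (C.RF_cons g k t x u e ω)).trans (le_of_eq ?_)
          ring
        refine (lintegral_mono h3).trans ?_
        rw [lintegral_add_left measurable_const, lintegral_const, measure_univ, mul_one]
        refine add_le_add le_rfl ?_
        by_cases he : (e : ℝ) / C.q x ≤ t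
        · rw [if_pos he]
          exact ih (by linarith) (C.Φ x u) (n + 1)
        · rw [if_neg he]
          have h0 : ∀ ω, C.TF A k (t - (e : ℝ) / C.q x) (C.Φ x u) (n + 1) ω +
              C.RF g k (t - (e : ℝ) / C.q x) (C.Φ x u) ω = 0 := by
            intro ω
            have hneg : t - (e : ℝ) / C.q x < 0 := by
              push Not at he
              linarith
            rw [C.TF_neg A k hneg, zero_add]
            unfold Chain.RF
            rw [Set.Ioc_eq_empty (by linarith), Measure.restrict_empty, lintegral_zero_measure]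
          simp only [h0, lintegral_zero, le_refl]
      refine (lintegral_mono hpt).trans ?_
      rw [lintegral_add_left measurable_const, lintegral_const, measure_univ, mul_one, add_assoc]
      refine add_le_add le_rfl (add_le_add le_rfl ?_)
      by_cases he : (e : ℝ) / C.q x ≤ t
      · simp only [J, he, if_true, le_refl]
      · simp only [J, he, if_false, lintegral_zero, le_refl]
    refine (lintegral_mono key).trans ?_
    have hset : MeasurableSet {e : ℝ≥0 | (e : ℝ) / C.q x ≤ t} :=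
      measurableSet_le (by fun_prop) measurable_const
    have m1 : Measurable fun e : ℝ≥0 => (if t < (e : ℝ) / C.q x then
        ENNReal.ofReal (A x n) else 0) :=
      Measurable.ite (measurableSet_lt measurable_const (by fun_prop)) measurable_const
        measurable_const
    have m2' : Measurable fun e : ℝ≥0 => ENNReal.ofReal (min t ((e : ℝ) / C.q x)) := by
      have : Measurable fun e : ℝ≥0 => min t ((e : ℝ) / C.q x) :=
        measurable_const.min (by fun_prop)
      exact this.ennreal_ofReal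
    have m2 : Measurable fun e : ℝ≥0 => ENNReal.ofReal (min t ((e : ℝ) / C.q x)) *
        ENNReal.ofReal (g x) := m2'.mul_const _
    have m3 : Measurable fun e : ℝ≥0 => (if (e : ℝ) / C.q x ≤ t then
        ENNReal.ofReal (1 / C.q x) else 0) := Measurable.ite hset measurable_const measurable_const
    have m4 : Measurable fun e : ℝ≥0 => (if (e : ℝ) / C.q x ≤ t then
        ENNReal.ofReal (1 / C.q x) else 0) * ENNReal.ofReal (g x) := m3.mul_const _
    rw [lintegral_add_left m1, lint_gt hq ht, lintegral_add_left m2, lintegral_mul_const _ m2',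
      lint_min hq ht, ← lintegral_mul_const _ m3, ← lintegral_add_left m4]
    have hfin := calc_le hq ht (hA x n) (hB x) hD
    rw [← hfin, add_comm, ENNReal.ofReal_mul (Real.exp_pos _).le]
    refine add_le_add (lintegral_mono fun e => ?_) le_rfl
    by_cases he : (e : ℝ) / C.q x ≤ t
    · simp only [J, he, if_true]
      rw [← ENNReal.ofReal_mul (by positivity)]
      have e2 : 1 / C.q x * g x = g x / C.q x := by ring
      rw [e2]
      exact inner_bound (C.measurable_comp_Φ (fun y => A y (n + 1)) x) (C.measurable_comp_Φ B x)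
        (fun u => hA _ _) (fun u => hB _) hD (by linarith) hq (hA x n) (hB x) (h1 x n) (h2 x)
    · simp only [J, he, if_false, zero_mul, add_zero, le_refl]

/-- supersolution with terminal cost `A` (depending on the state and on the number of jumps) and
running cost `g` -/
theorem Chain.super (hC : C.NE) {A : E → ℕ → ℝ} {B g : E → ℝ} {D : ℝ} (hA : ∀ x n, 0 ≤ A x n)
    (hB : ∀ x, 0 ≤ B x) (hD : 0 ≤ D) (hg : ∀ x, 0 ≤ g x)
    (h1 : ∀ x n, (∫⁻ u, ENNReal.ofReal (A (C.Φ x u) (n + 1))) + ENNReal.ofReal (g x / C.q x) ≤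
      ENNReal.ofReal (A x n + B x / C.q x))
    (h2 : ∀ x, ∫⁻ u, ENNReal.ofReal (B (C.Φ x u)) ≤ ENNReal.ofReal (B x + 2 * D / C.q x))
    {t : ℝ} (ht : 0 ≤ t) (x : E) (n : ℕ) :
    ∫⁻ ω, ENNReal.ofReal (A (C.X t x ω) (n + C.N t x ω)) ∂Pr +
      ∫⁻ s in Set.Ioc 0 t, ∫⁻ ω, ENNReal.ofReal (g (C.X s x ω)) ∂Pr ≤
      ENNReal.ofReal (A x n + t * B x + t ^ 2 * D) := by
  have hmg : Measurable fun p : ℝ × Om => ENNReal.ofReal (g (C.X p.1 x p.2)) := by
    have h3 : Measurable g := measurable_of_countable _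
    have h4 : Measurable fun p : ℝ × Om => C.X p.1 x p.2 :=
      C.measurable_X.comp (measurable_fst.prodMk (measurable_const.prodMk measurable_snd))
    exact (h3.comp h4).ennreal_ofReal
  have hswap : ∫⁻ s in Set.Ioc 0 t, ∫⁻ ω, ENNReal.ofReal (g (C.X s x ω)) ∂Pr =
      ∫⁻ ω, (∫⁻ s in Set.Ioc 0 t, ENNReal.ofReal (g (C.X s x ω))) ∂Pr :=
    lintegral_lintegral_swap hmg.aemeasurable
  have hmg' : Measurable fun ω : Om => ∫⁻ s in Set.Ioc 0 t, ENNReal.ofReal (g (C.X s x ω)) := by
    have h5 := hmg.comp (measurable_swap (α := Om) (β := ℝ))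
    exact h5.lintegral_prod_right'
  rw [hswap, ← lintegral_add_right _ hmg']
  have hmono : Monotone fun k => fun ω => C.TF A k t x n ω + C.RF g k t x ω := by
    intro i j hij ω
    refine add_le_add (C.TF_mono A t x n ω hij) ?_
    exact lintegral_mono fun s => C.TF_mono (fun y _ => g y) s x 0 ω hij
  have hmeas : ∀ k, Measurable fun ω => C.TF A k t x n ω + C.RF g k t x ω := fun k =>
    (C.measurable_TFx A k t x n).add (C.measurable_RF g k t x)
  have hle : ∫⁻ ω, (ENNReal.ofReal (A (C.X t x ω) (n + C.N t x ω)) +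
      ∫⁻ s in Set.Ioc 0 t, ENNReal.ofReal (g (C.X s x ω))) ∂Pr ≤
      ∫⁻ ω, ⨆ k, (C.TF A k t x n ω + C.RF g k t x ω) ∂Pr := by
    refine lintegral_mono_ae ?_
    filter_upwards [C.ae_finite hC x] with ω hω
    obtain ⟨k, hk⟩ := hω t
    refine le_trans (le_of_eq ?_) (le_iSup (fun k => C.TF A k t x n ω + C.RF g k t x ω) k)
    rw [C.TF_eq A ht x n hk]
    congr 1
    unfold Chain.RF
    refine setLIntegral_congr_fun measurableSet_Ioc fun s hs => ?_
    exact (C.TF_eq (fun y _ => g y) hs.1.le x 0 (lt_of_le_of_lt hs.2 hk)).symm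
  refine hle.trans ?_
  rw [lintegral_iSup hmeas hmono]
  exact iSup_le fun k => C.super_trunc hA hB hD h1 h2 k ht x n

lemma Chain.measurableSet_hit (S : Set E) (k : ℕ) (t : ℝ) (x : E) :
    MeasurableSet {ω | ∃ i < k, C.T i x ω ≤ t ∧ C.Y i x ω ∈ S} := by
  have : {ω | ∃ i < k, C.T i x ω ≤ t ∧ C.Y i x ω ∈ S} =
      ⋃ i ∈ Set.Iio k, ({ω | C.T i x ω ≤ t} ∩ {ω | C.Y i x ω ∈ S}) := by
    ext ω
    simp only [Set.mem_ofPred_eq, Set.mem_iUnion, Set.mem_inter_iff, Set.mem_Iio, exists_prop]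
  rw [this]
  refine MeasurableSet.biUnion (Set.to_countable _) fun i _ => ?_
  exact (measurableSet_le (C.measurable_Tx i x) measurable_const).inter
    ((C.measurable_Yx i x) (MeasurableSet.of_discrete))

lemma Chain.super_hit_trunc {S : Set E} {A B : E → ℝ} {D : ℝ} (hA : ∀ x, 0 ≤ A x)
    (hB : ∀ x, 0 ≤ B x) (hD : 0 ≤ D) (hS : ∀ x ∈ S, 1 ≤ A x)
    (h1 : ∀ x ∉ S, ∫⁻ u, ENNReal.ofReal (A (C.Φ x u)) ≤ ENNReal.ofReal (A x + B x / C.q x))
    (h2 : ∀ x ∉ S, ∫⁻ u, ENNReal.ofReal (B (C.Φ x u)) ≤ ENNReal.ofReal (B x + 2 * D / C.q x))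
    (k : ℕ) {t : ℝ} (ht : 0 ≤ t) (x : E) :
    Pr {ω | ∃ i < k, C.T i x ω ≤ t ∧ C.Y i x ω ∈ S} ≤
      ENNReal.ofReal (A x + t * B x + t ^ 2 * D) := by
  classical
  induction k generalizing t x with
  | zero =>
    have : {ω : Om | ∃ i < 0, C.T i x ω ≤ t ∧ C.Y i x ω ∈ S} = ∅ := by
      ext ω
      simp
    rw [this, measure_empty]
    exact bot_le
  | succ k ih =>
    have hq := C.qpos x
    by_cases hx : x ∈ S
    · refine prob_le_one.trans ?_
      rw [← ENNReal.ofReal_one]
      refine ENNReal.ofReal_le_ofReal ?_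
      have := hS x hx
      have h3 := hB x
      have : 0 ≤ t * B x := mul_nonneg ht h3
      have : 0 ≤ t ^ 2 * D := by positivity
      linarith
    · rw [pr_eq_lint (C.measurableSet_hit S (k + 1) t x), lintegral_cons'
        (Measurable.ite (C.measurableSet_hit S (k + 1) t x) measurable_const measurable_const)]
      have key : ∀ e : ℝ≥0, (∫⁻ u : unitInterval, ∫⁻ ω, (if ∃ i < k + 1,
          C.T i x (cons (u, e) ω) ≤ t ∧ C.Y i x (cons (u, e) ω) ∈ S then (1 : ℝ≥0∞) else 0)
          ∂Pr ∂volume) ≤ (if (e : ℝ) / C.q x ≤ t then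
          ENNReal.ofReal ((A x + (t - (e : ℝ) / C.q x) * B x + (t - (e : ℝ) / C.q x) ^ 2 * D)
            + (B x + 2 * (t - (e : ℝ) / C.q x) * D) / C.q x) else 0) := by
        intro e
        have hiff : ∀ (u : unitInterval) (ω : Om), (∃ i < k + 1,
            C.T i x (cons (u, e) ω) ≤ t ∧ C.Y i x (cons (u, e) ω) ∈ S) →
            ∃ i < k, C.T i (C.Φ x u) ω ≤ t - (e : ℝ) / C.q x ∧ C.Y i (C.Φ x u) ω ∈ S := by
          rintro u ω ⟨i, hi, hT, hY⟩
          cases i with
          | zero => exact absurd hY hx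
          | succ i =>
            rw [C.T_cons] at hT
            rw [C.Y_cons] at hY
            exact ⟨i, by omega, by linarith, hY⟩
        by_cases he : (e : ℝ) / C.q x ≤ t
        · rw [if_pos he]
          have hs : 0 ≤ t - (e : ℝ) / C.q x := by linarith
          have h1' : (∫⁻ u, ENNReal.ofReal (A (C.Φ x u))) + 0 ≤
              ENNReal.ofReal (A x + B x / C.q x) := by
            rw [add_zero]
            exact h1 x hx
          refine le_trans ?_ (inner_bound (c := 0) (C.measurable_comp_Φ A x)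
            (C.measurable_comp_Φ B x) (fun u => hA _) (fun u => hB _) hD hs hq (hA x) (hB x)
            h1' (h2 x hx))
          rw [zero_add]
          refine lintegral_mono fun u => ?_
          refine le_trans ?_ (ih hs (C.Φ x u))
          rw [pr_eq_lint (C.measurableSet_hit S k (t - (e : ℝ) / C.q x) (C.Φ x u))]
          refine lintegral_mono fun ω => ?_
          by_cases h3 : ∃ i < k + 1, C.T i x (cons (u, e) ω) ≤ t ∧ C.Y i x (cons (u, e) ω) ∈ S
          · rw [if_pos h3, if_pos (hiff u ω h3)]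
          · rw [if_neg h3]
            exact bot_le
        · rw [if_neg he]
          have hz : ∀ (u : unitInterval) (ω : Om), (if ∃ i < k + 1,
              C.T i x (cons (u, e) ω) ≤ t ∧ C.Y i x (cons (u, e) ω) ∈ S then (1 : ℝ≥0∞) else 0)
              = 0 := by
            intro u ω
            rw [if_neg]
            intro h3
            obtain ⟨i, -, hT, -⟩ := hiff u ω h3
            have := C.T_nonneg i (C.Φ x u) ω
            push Not at he
            linarith
          simp only [hz, lintegral_zero, le_refl]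
      refine (lintegral_mono key).trans ?_
      have hfin := calc_le hq ht (hA x) (hB x) hD
      rw [← hfin]
      exact le_self_add

/-- maximal inequality -/
theorem Chain.super_hit {S : Set E} {A B : E → ℝ} {D : ℝ} (hA : ∀ x, 0 ≤ A x)
    (hB : ∀ x, 0 ≤ B x) (hD : 0 ≤ D) (hS : ∀ x ∈ S, 1 ≤ A x)
    (h1 : ∀ x ∉ S, ∫⁻ u, ENNReal.ofReal (A (C.Φ x u)) ≤ ENNReal.ofReal (A x + B x / C.q x))
    (h2 : ∀ x ∉ S, ∫⁻ u, ENNReal.ofReal (B (C.Φ x u)) ≤ ENNReal.ofReal (B x + 2 * D / C.q x))
    {t : ℝ} (ht : 0 ≤ t) (x : E) :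
    Pr {ω | ∃ i, C.T i x ω ≤ t ∧ C.Y i x ω ∈ S} ≤ ENNReal.ofReal (A x + t * B x + t ^ 2 * D) := by
  have hU : {ω : Om | ∃ i, C.T i x ω ≤ t ∧ C.Y i x ω ∈ S} =
      ⋃ k, {ω | ∃ i < k, C.T i x ω ≤ t ∧ C.Y i x ω ∈ S} := by
    ext ω
    simp only [Set.mem_ofPred_eq, Set.mem_iUnion]
    constructor
    · rintro ⟨i, hi⟩
      exact ⟨i + 1, i, Nat.lt_succ_self i, hi⟩
    · rintro ⟨k, i, -, hi⟩
      exact ⟨i, hi⟩
  have hmono : Monotone fun k => {ω : Om | ∃ i < k, C.T i x ω ≤ t ∧ C.Y i x ω ∈ S} := by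
    rintro k l hkl ω ⟨i, hi, h⟩
    exact ⟨i, hi.trans_le hkl, h⟩
  rw [hU, hmono.measure_iUnion]
  exact iSup_le fun k => C.super_hit_trunc hA hB hD hS h1 h2 k ht x

end H40.VM
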