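import Pool.Agent.H40.VM.CT3

/-!
# Module CT5: forward equation for bounded functions with bounded generator

Proof: `Chain.super` with `A x n = F x + K` (constant in `n`), `B = K`, `D = 0`,
`g x = K - G x ≥ 0` gives `E F (X t) + K + ∫ (K - E G (X s)) ds ≤ F x + K + t K`, i.e. `≤`;
applied to `- F` (with `- G`) it gives `≥`.
-/

open MeasureTheory ProbabilityTheory Filter Topology
open scoped ENNReal NNReal unitInterval

namespace H40.VM

variable {E : Type} [MeasurableSpace E] [Countable E] [DiscreteMeasurableSpace E] (C : Chain E)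

/-- a bounded function of the state is integrable -/
lemma Chain.integrable_X {F : E → ℝ} {K : ℝ} (hF : ∀ x, |F x| ≤ K) (t : ℝ) (x : E) :
    Integrable (fun ω => F (C.X t x ω)) Pr := by
  have hm : Measurable F := measurable_of_countable F
  refine Integrable.of_bound (hm.comp (C.measurable_Xx t x)).aestronglyMeasurable K ?_
  exact Eventually.of_forall fun ω => hF _

lemma Chain.integrable_Φ {F : E → ℝ} {K : ℝ} (hF : ∀ x, |F x| ≤ K) (x : E) :
    Integrable (fun u => F (C.Φ x u)) := by
  have hm : Measurable F := measurable_of_countable F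
  refine Integrable.of_bound (hm.comp (C.meas x)).aestronglyMeasurable K ?_
  exact Eventually.of_forall fun ω => hF _

lemma Chain.measurable_mean (F : E → ℝ) (x : E) :
    StronglyMeasurable fun s : ℝ => ∫ ω, F (C.X s x ω) ∂Pr := by
  have hm : Measurable F := measurable_of_countable F
  have h1 : Measurable fun p : ℝ × Om => F (C.X p.1 x p.2) :=
    hm.comp (C.measurable_X.comp (measurable_fst.prodMk (measurable_const.prodMk measurable_snd)))
  exact h1.stronglyMeasurable.integral_prod_right

omit [Countable E] [DiscreteMeasurableSpace E] in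
lemma Chain.abs_mean_le {F : E → ℝ} {K : ℝ} (hF : ∀ x, |F x| ≤ K) (s : ℝ) (x : E) :
    |∫ ω, F (C.X s x ω) ∂Pr| ≤ K := by
  have := norm_integral_le_of_norm_le_const (μ := Pr) (f := fun ω => F (C.X s x ω)) (C := K)
    (Eventually.of_forall fun ω => hF _)
  simpa using this

lemma Chain.forward_le (hC : C.NE) {F G : E → ℝ} {K : ℝ} (hF : ∀ x, |F x| ≤ K)
    (hG : ∀ x, |G x| ≤ K) (hFG : ∀ x, G x = C.q x * (∫ u, F (C.Φ x u) - F x)) {t : ℝ}
    (ht : 0 ≤ t) (x : E) :
    ∫ ω, F (C.X t x ω) ∂Pr ≤ F x + ∫ s in (0 : ℝ)..t, ∫ ω, G (C.X s x ω) ∂Pr := by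
  have hF' : ∀ x, -K ≤ F x ∧ F x ≤ K := fun x => abs_le.1 (hF x)
  have hG' : ∀ x, -K ≤ G x ∧ G x ≤ K := fun x => abs_le.1 (hG x)
  have hK : 0 ≤ K := (abs_nonneg _).trans (hF x)
  have hmean : ∀ x, ∫ u, F (C.Φ x u) - F x = (∫ u, F (C.Φ x u)) - F x := by
    intro x
    rw [integral_sub (C.integrable_Φ hF x) (integrable_const _)]
    simp
  have hsup := C.super hC (A := fun x _ => F x + K) (B := fun _ => K) (g := fun x => K - G x)
    (D := 0) (fun x _ => by linarith [(hF' x).1]) (fun _ => hK) le_rfl
    (fun x => by linarith [(hG' x).2]) (fun x _ => ?_) (fun x => ?_) ht x 0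
  · have e1 : ∫⁻ ω, ENNReal.ofReal (F (C.X t x ω) + K) ∂Pr =
        ENNReal.ofReal ((∫ ω, F (C.X t x ω) ∂Pr) + K) := by
      rw [← ofReal_integral_eq_lintegral_ofReal (f := fun ω => F (C.X t x ω) + K)
        ((C.integrable_X hF t x).add (integrable_const K))
        (Eventually.of_forall fun ω => by
          change (0 : ℝ) ≤ F (C.X t x ω) + K
          linarith [(hF' (C.X t x ω)).1])]
      rw [integral_add (C.integrable_X hF t x) (integrable_const K)]
      simp
    have e2 : ∀ s : ℝ, ∫⁻ ω, ENNReal.ofReal (K - G (C.X s x ω)) ∂Pr =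
        ENNReal.ofReal (K - ∫ ω, G (C.X s x ω) ∂Pr) := by
      intro s
      rw [← ofReal_integral_eq_lintegral_ofReal (f := fun ω => K - G (C.X s x ω))
        ((integrable_const K).sub (C.integrable_X hG s x))
        (Eventually.of_forall fun ω => by
          change (0 : ℝ) ≤ K - G (C.X s x ω)
          linarith [(hG' (C.X s x ω)).2])]
      rw [integral_sub (integrable_const K) (C.integrable_X hG s x)]
      simp
    have hgi : IntegrableOn (fun s : ℝ => ∫ ω, G (C.X s x ω) ∂Pr) (Set.Ioc 0 t) := by
      refine Integrable.of_bound (C.measurable_mean G x).aestronglyMeasurable K ?_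
      exact Eventually.of_forall fun s => C.abs_mean_le hG s x
    have e3 : ∫⁻ s in Set.Ioc 0 t, ENNReal.ofReal (K - ∫ ω, G (C.X s x ω) ∂Pr) =
        ENNReal.ofReal (t * K - ∫ s in Set.Ioc 0 t, ∫ ω, G (C.X s x ω) ∂Pr) := by
      have hc : IntegrableOn (fun _ : ℝ => K) (Set.Ioc 0 t) := by
        exact integrableOn_const (by simp) 
      rw [← ofReal_integral_eq_lintegral_ofReal
        (f := fun s => K - ∫ ω, G (C.X s x ω) ∂Pr) (hc.sub hgi)
        (Eventually.of_forall fun s => by
          change (0 : ℝ) ≤ K - ∫ ω, G (C.X s x ω) ∂Pr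
          linarith [(abs_le.1 (C.abs_mean_le hG s x)).2])]
      rw [integral_sub hc hgi]
      simp [ht]
    simp only [e1, e2] at hsup
    rw [e3, ← ENNReal.ofReal_add] at hsup
    · rw [ENNReal.ofReal_le_ofReal_iff] at hsup
      · rw [intervalIntegral.integral_of_le ht]
        linarith
      · have := (hF' x).1
        have : 0 ≤ t * K := mul_nonneg ht hK
        linarith
    · linarith [(abs_le.1 (C.abs_mean_le hF t x)).1]
    · have : ∫ s in Set.Ioc 0 t, ∫ ω, G (C.X s x ω) ∂Pr ≤ ∫ s in Set.Ioc 0 t, K := by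
        refine integral_mono hgi (integrableOn_const (by simp)) fun s => ?_
        exact (abs_le.1 (C.abs_mean_le hG s x)).2
      simp only [integral_const, MeasurableSet.univ, measureReal_restrict_apply, Set.univ_inter,
        Real.volume_real_Ioc, sub_zero, smul_eq_mul] at this
      rw [max_eq_left ht] at this
      linarith
  · have e1 : ∫⁻ u, ENNReal.ofReal (F (C.Φ x u) + K) =
        ENNReal.ofReal ((∫ u, F (C.Φ x u)) + K) := by
      rw [← ofReal_integral_eq_lintegral_ofReal (f := fun u => F (C.Φ x u) + K)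
        ((C.integrable_Φ hF x).add (integrable_const K))
        (Eventually.of_forall fun u => by
          change (0 : ℝ) ≤ F (C.Φ x u) + K
          linarith [(hF' (C.Φ x u)).1])]
      rw [integral_add (C.integrable_Φ hF x) (integrable_const K)]
      simp
    have hm : |∫ u, F (C.Φ x u)| ≤ K := by
      have := norm_integral_le_of_norm_le_const (μ := (volume : Measure unitInterval))
        (f := fun u => F (C.Φ x u)) (C := K) (Eventually.of_forall fun ω => hF _)
      simpa using this
    have hq := C.qpos x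
    rw [e1, ← ENNReal.ofReal_add]
    · refine ENNReal.ofReal_le_ofReal (le_of_eq ?_)
      have := hFG x
      rw [hmean] at this
      rw [this]
      field_simp
      ring
    · linarith [(abs_le.1 hm).1]
    · exact div_nonneg (by linarith [(hG' x).2]) hq.le
  · simp

theorem Chain.forward (hC : C.NE) {F G : E → ℝ} {K : ℝ} (hF : ∀ x, |F x| ≤ K)
    (hG : ∀ x, |G x| ≤ K) (hFG : ∀ x, G x = C.q x * (∫ u, F (C.Φ x u) - F x)) {t : ℝ}
    (ht : 0 ≤ t) (x : E) :
    ∫ ω, F (C.X t x ω) ∂Pr = F x + ∫ s in (0 : ℝ)..t, ∫ ω, G (C.X s x ω) ∂Pr := by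
  refine le_antisymm (C.forward_le hC hF hG hFG ht x) ?_
  have h := C.forward_le hC (F := fun x => - F x) (G := fun x => - G x) (K := K)
    (fun x => by rw [abs_neg]; exact hF x) (fun x => by rw [abs_neg]; exact hG x)
    (fun x => by
      rw [hFG x, ← mul_neg, ← integral_neg]
      congr 1
      refine integral_congr_ae (Eventually.of_forall fun u => ?_)
      change - (F (C.Φ x u) - F x) = - F (C.Φ x u) - - F x
      ring) ht x
  simp only [integral_neg, intervalIntegral.integral_neg] at h
  linarith

end H40.VM
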