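import Pool.Agent.H40.VM.TRa
import Pool.Agent.H40.VM.BJ

/-!
# Module EX: existence of families of voter models

For `0 < ε < 1` let `ec a ε : Chain St` be the chain with total rate `qe a ε m` and jump law: flip
`j` with probability `(if cf true m j then 1 - ε else 1) * rt a true m j / qe a ε m` (construct `Φ`
with `Measure.exists_measurable_map_eq` as in `vc`, VC0/VB1). On `(Om, Pr)` take
`Z k ω = cf true (Y k ∅ ω)`, `ξ k ω = (ω k).2`, `X t ω = cf true (X t ∅ ω)` and
`(Y ε ω) t = ε * lf (X (t/ε²) ∅ ω)` if `ω` is non explosive, `0` otherwise (locally finite step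
function, hence càdlàg; measurable coordinates).
`IsVoterChain.law`: first step decomposition, induction on `n` (configurations `y k` outside of the
class have probability zero on both sides; `flipRate_cf`, `totalRate_cf`).
Non explosion: `qe ≤ tot ≤ C (1 + card)` (`tot_true_le`) and `card` grows by at most one per jump,
so `T n ≥ ∑_{k<n} (ω k).2/(C (1 + k))`, which tends to infinity almost surely:
`E exp (-∑_{k<n} (ω k).2/(C(1+k))) = ∏_{k<n} (1 + 1/(C(1+k)))⁻¹ → 0`.
For `ε` outside of `(0, 1)` take anything (e.g. the same objects with `ε` replaced by `1/2`).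
-/

open MeasureTheory ProbabilityTheory Filter Topology
open scoped ENNReal NNReal unitInterval symmDiff

namespace H40.VM

open H40.Voter (IsKernel IsVoterChain IsVoterProcess VoterFam SkoD Cadlag Config flipRate totalRate
  jumpProb jumpTime heaviside flipAt IsScaledInterface)

variable {a : ℤ → ℝ}

/-! ### the chain -/

/-- probability of a flip at `j` -/
noncomputable def ewt (a : ℤ → ℝ) (ε : ℝ) (m : St) (j : ℤ) : ℝ :=
  flipRate a ε (cf true m) j / totalRate a ε (cf true m)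

/-- law of the flipped site -/
noncomputable def esite (a : ℤ → ℝ) (ε : ℝ) (m : St) : Measure ℤ :=
  Measure.sum fun j : ℤ => ENNReal.ofReal (ewt a ε m j) • Measure.dirac j

lemma qe_pos (hk : IsKernel a) {ε : ℝ} (h0 : 0 ≤ ε) (h1 : ε < 1) (m : St) : 0 < qe a ε m := by
  have h := (qe_bounds hk h0 m).1
  have h2 := tot_true_pos hk m
  have : 0 < (1 - ε) * tot a true m := mul_pos (by linarith) h2
  linarith

lemma flipRate_cf_nonneg (hk : IsKernel a) {ε : ℝ} (h1 : ε < 1) (m : St) (j : ℤ) :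
    0 ≤ flipRate a ε (cf true m) j := by
  rw [flipRate_cf hk]
  refine mul_nonneg ?_ (rt_nonneg hk _ _ _)
  split_ifs <;> linarith

lemma summable_flipRate_cf (hk : IsKernel a) {ε : ℝ} (h0 : 0 ≤ ε) (h1 : ε < 1) (m : St) :
    Summable (flipRate a ε (cf true m)) := by
  refine Summable.of_nonneg_of_le (flipRate_cf_nonneg hk h1 m) (fun j => ?_) (summable_rt hk true m)
  rw [flipRate_cf hk]
  have h := rt_nonneg hk true m j
  split_ifs
  · nlinarith
  · rw [one_mul]

lemma ewt_nonneg (hk : IsKernel a) {ε : ℝ} (h0 : 0 ≤ ε) (h1 : ε < 1) (m : St) (j : ℤ) :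
    0 ≤ ewt a ε m j := by
  refine div_nonneg (flipRate_cf_nonneg hk h1 m j) ?_
  rw [totalRate_cf hk]
  exact (qe_pos hk h0 h1 m).le

lemma summable_ewt (hk : IsKernel a) {ε : ℝ} (h0 : 0 ≤ ε) (h1 : ε < 1) (m : St) :
    Summable (ewt a ε m) := (summable_flipRate_cf hk h0 h1 m).div_const _

lemma tsum_ewt (hk : IsKernel a) {ε : ℝ} (h0 : 0 ≤ ε) (h1 : ε < 1) (m : St) :
    ∑' j, ewt a ε m j = 1 := by
  unfold ewt
  rw [tsum_div_const]
  have h : totalRate a ε (cf true m) ≠ 0 := by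
    rw [totalRate_cf hk]
    exact (qe_pos hk h0 h1 m).ne'
  exact div_self h

lemma esite_prob (hk : IsKernel a) {ε : ℝ} (h0 : 0 ≤ ε) (h1 : ε < 1) (m : St) :
    IsProbabilityMeasure (esite a ε m) := by
  constructor
  unfold esite
  rw [Measure.sum_apply _ MeasurableSet.univ]
  have e : ∀ j : ℤ, (ENNReal.ofReal (ewt a ε m j) • Measure.dirac j) Set.univ =
      ENNReal.ofReal (ewt a ε m j) := by
    intro j
    rw [Measure.smul_apply, Measure.dirac_apply_of_mem (Set.mem_univ _), smul_eq_mul, mul_one]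
  rw [tsum_congr e, ← ENNReal.ofReal_tsum_of_nonneg (ewt_nonneg hk h0 h1 m)
    (summable_ewt hk h0 h1 m), tsum_ewt hk h0 h1, ENNReal.ofReal_one]

/-- `C` is the chain of the biased voter model -/
def IsEC (a : ℤ → ℝ) (ε : ℝ) (C : Chain St) : Prop :=
  (∀ m, C.q m = qe a ε m) ∧ ∀ m, ∃ f : unitInterval → ℤ, Measurable f ∧
    volume.map f = esite a ε m ∧ C.Φ m = fun u => fl m (f u)

lemma exists_ec (hk : IsKernel a) {ε : ℝ} (h0 : 0 ≤ ε) (h1 : ε < 1) :
    ∃ C : Chain St, IsEC a ε C := by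
  have hex : ∀ m : St, ∃ f : unitInterval → ℤ, Measurable f ∧ volume.map f = esite a ε m := by
    intro m
    have := esite_prob hk h0 h1 m
    exact MeasureTheory.Measure.exists_measurable_map_eq (esite a ε m)
  choose f hf hf2 using hex
  exact ⟨⟨fun m u => fl m (f m u), qe a ε,
    fun m => (measurable_of_countable (fl m)).comp (hf m), fun m => qe_pos hk h0 h1 m⟩,
    fun m => rfl, fun m => ⟨f m, hf m, hf2 m, rfl⟩⟩

lemma IsEC.lintegral {ε : ℝ} {C : Chain St} (hC : IsEC a ε C) (m : St) (g : St → ℝ≥0∞) :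
    ∫⁻ u, g (C.Φ m u) = ∑' j : ℤ, ENNReal.ofReal (ewt a ε m j) * g (fl m j) := by
  obtain ⟨f, hf, hf2, hf3⟩ := hC.2 m
  rw [hf3]
  have e : ∫⁻ u, g (fl m (f u)) = ∫⁻ j, g (fl m j) ∂(volume.map f) :=
    (lintegral_map (f := fun j : ℤ => g (fl m j)) (measurable_of_countable _) hf).symm
  rw [e, hf2]
  unfold esite
  rw [lintegral_sum_measure]
  refine tsum_congr fun j => ?_
  rw [lintegral_smul_measure, lintegral_dirac, smul_eq_mul]

lemma IsEC.card_le {ε : ℝ} {C : Chain St} (hC : IsEC a ε C) (m : St) (u : unitInterval) :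
    (C.Φ m u).card ≤ m.card + 1 := by
  obtain ⟨f, -, -, hf3⟩ := hC.2 m
  rw [hf3]
  exact card_fl_le m _

/-! ### finite dimensional laws -/

open Classical in
lemma jumpProb_cf (ε : ℝ) (m : St) (y : Config) :
    jumpProb a ε (cf true m) y = ∑' j : ℤ, if y = cf true (fl m j) then ewt a ε m j else 0 := by
  unfold jumpProb
  refine tsum_congr fun j => ?_
  rw [flipAt_cf]
  rfl

open Classical in
lemma IsEC.step (hk : IsKernel a) {ε : ℝ} (h0 : 0 ≤ ε) (h1 : ε < 1) {C : Chain St}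
    (hC : IsEC a ε C) (m : St) (y : Config) (c : ℝ) (hc : 0 ≤ c) :
    ∫⁻ u, ENNReal.ofReal ((if y = cf true (C.Φ m u) then 1 else 0) * c) =
      ENNReal.ofReal (jumpProb a ε (cf true m) y * c) := by
  rw [hC.lintegral m (fun x => ENNReal.ofReal ((if y = cf true x then 1 else 0) * c)),
    jumpProb_cf, ← tsum_mul_right, ENNReal.ofReal_tsum_of_nonneg]
  · refine tsum_congr fun j => ?_
    rw [← ENNReal.ofReal_mul (ewt_nonneg hk h0 h1 m j)]
    congr 1
    split_ifs <;> ring
  · intro j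
    refine mul_nonneg ?_ hc
    split_ifs
    · exact ewt_nonneg hk h0 h1 m j
    · exact le_rfl
  · refine Summable.mul_right _ ?_
    refine Summable.of_nonneg_of_le (fun j => ?_) (fun j => ?_) (summable_ewt hk h0 h1 m)
    · split_ifs
      · exact ewt_nonneg hk h0 h1 m j
      · exact le_rfl
    · split_ifs
      · exact le_rfl
      · exact ewt_nonneg hk h0 h1 m j

lemma jumpProb_cf_nonneg (hk : IsKernel a) {ε : ℝ} (h0 : 0 ≤ ε) (h1 : ε < 1) (m : St)
    (y : Config) : 0 ≤ jumpProb a ε (cf true m) y := by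
  classical
  rw [jumpProb_cf]
  refine tsum_nonneg fun j => ?_
  split_ifs
  · exact ewt_nonneg hk h0 h1 m j
  · exact le_rfl

lemma measurableSet_box (C : Chain St) (n : ℕ) (m : St) (y : ℕ → Config) (r : ℕ → ℝ) :
    MeasurableSet {ω : Om | ∀ k ≤ n, cf true (C.Y k m ω) = y k ∧ r k < ((ω k).2 : ℝ)} := by
  have : {ω : Om | ∀ k ≤ n, cf true (C.Y k m ω) = y k ∧ r k < ((ω k).2 : ℝ)} =
      ⋂ k : ℕ, ⋂ _ : k ≤ n, ({ω : Om | cf true (C.Y k m ω) = y k} ∩
        {ω : Om | r k < ((ω k).2 : ℝ)}) := by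
    ext ω
    simp
  rw [this]
  refine MeasurableSet.iInter fun k => MeasurableSet.iInter fun _ => MeasurableSet.inter ?_ ?_
  · exact (C.measurable_Yx k m) (MeasurableSet.of_discrete (s := {x : St | cf true x = y k}))
  · exact measurableSet_lt measurable_const (by fun_prop)

open Classical in
theorem IsEC.law (hk : IsKernel a) {ε : ℝ} (h0 : 0 ≤ ε) (h1 : ε < 1) {C : Chain St}
    (hC : IsEC a ε C) (n : ℕ) : ∀ (m : St) (y : ℕ → Config) (r : ℕ → ℝ), (∀ k, 0 ≤ r k) →
    Pr {ω | ∀ k ≤ n, cf true (C.Y k m ω) = y k ∧ r k < ((ω k).2 : ℝ)} =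
      ENNReal.ofReal ((if y 0 = cf true m then 1 else 0) *
        (∏ k ∈ Finset.range n, jumpProb a ε (y k) (y (k + 1))) *
        ∏ k ∈ Finset.range (n + 1), Real.exp (-(r k))) := by
  have hr0 : ∀ r : ℝ, 0 ≤ r → ∀ (c : ℝ≥0∞),
      ∫⁻ e : ℝ≥0, (if r < (e : ℝ) then c else 0) ∂expL = ENNReal.ofReal (Real.exp (-r)) * c := by
    intro r hr c
    have h := memoryless (f := fun _ => c) measurable_const r.toNNReal
    rw [lintegral_const, measure_univ, mul_one, Real.coe_toNNReal r hr] at h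
    rw [← h]
    refine lintegral_congr fun e => ?_
    have : r < (e : ℝ) ↔ r.toNNReal < e := by
      rw [← NNReal.coe_lt_coe, Real.coe_toNNReal r hr]
    simp only [this]
  induction n with
  | zero =>
    intro m y r hr
    rw [pr_eq_lint (measurableSet_box C 0 m y r), lintegral_cons' ?_]
    swap
    · exact Measurable.ite (measurableSet_box C 0 m y r) measurable_const measurable_const
    have e1 : ∀ (e : ℝ≥0) (u : unitInterval) (ω : Om)
        [Decidable (∀ k ≤ 0, cf true (C.Y k m (cons (u, e) ω)) = y k ∧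
          r k < (((cons (u, e) ω) k).2 : ℝ))],
        (if ∀ k ≤ 0, cf true (C.Y k m (cons (u, e) ω)) = y k ∧
          r k < (((cons (u, e) ω) k).2 : ℝ) then (1 : ℝ≥0∞) else 0) =
        if r 0 < (e : ℝ) then (if y 0 = cf true m then 1 else 0) else 0 := by
      intro e u ω _
      by_cases hA : y 0 = cf true m <;> by_cases hB : r 0 < (e : ℝ) <;> simp [hA, hB, eq_comm]
    simp only [e1, lintegral_const, measure_univ, mul_one]
    rw [hr0 _ (hr 0)]
    simp only [Finset.range_zero, Finset.prod_empty, mul_one, zero_add, Finset.range_one,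
      Finset.prod_singleton]
    split_ifs <;> simp
  | succ n ih =>
    intro m y r hr
    rw [pr_eq_lint (measurableSet_box C (n + 1) m y r), lintegral_cons' ?_]
    swap
    · exact Measurable.ite (measurableSet_box C (n + 1) m y r) measurable_const measurable_const
    have e1 : ∀ (e : ℝ≥0) (u : unitInterval) (ω : Om),
        (if ∀ k ≤ n + 1, cf true (C.Y k m (cons (u, e) ω)) = y k ∧
          r k < (((cons (u, e) ω) k).2 : ℝ) then (1 : ℝ≥0∞) else 0) =
        if r 0 < (e : ℝ) then (if y 0 = cf true m then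
          (if ∀ k ≤ n, cf true (C.Y k (C.Φ m u) ω) = y (k + 1) ∧ r (k + 1) < ((ω k).2 : ℝ) then
            (1 : ℝ≥0∞) else 0) else 0) else 0 := by
      intro e u ω
      have hiff : (∀ k ≤ n + 1, cf true (C.Y k m (cons (u, e) ω)) = y k ∧
          r k < (((cons (u, e) ω) k).2 : ℝ)) ↔ (r 0 < (e : ℝ) ∧ y 0 = cf true m ∧
          ∀ k ≤ n, cf true (C.Y k (C.Φ m u) ω) = y (k + 1) ∧ r (k + 1) < ((ω k).2 : ℝ)) := by
        constructor
        · intro h
          refine ⟨(h 0 (by omega)).2, (h 0 (by omega)).1.symm, fun k hk => ?_⟩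
          have := h (k + 1) (by omega)
          rwa [C.Y_cons, cons_succ] at this
        · rintro ⟨h1, h2, h3⟩ k hk
          cases k with
          | zero => exact ⟨h2.symm, h1⟩
          | succ k =>
            rw [C.Y_cons, cons_succ]
            exact h3 k (by omega)
      simp only [hiff]
      by_cases hA : y 0 = cf true m <;> by_cases hB : r 0 < (e : ℝ) <;> simp [hA, hB]
    simp only [e1]
    by_cases hA : y 0 = cf true m
    swap
    · simp [hA]
    simp only [hA, if_true, one_mul]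
    have e2 : ∀ e : ℝ≥0, (∫⁻ u : unitInterval, ∫⁻ ω, (if r 0 < (e : ℝ) then
          (if ∀ k ≤ n, cf true (C.Y k (C.Φ m u) ω) = y (k + 1) ∧ r (k + 1) < ((ω k).2 : ℝ) then
            (1 : ℝ≥0∞) else 0) else 0) ∂Pr) =
        if r 0 < (e : ℝ) then ENNReal.ofReal (jumpProb a ε (y 0) (y 1) *
          ((∏ k ∈ Finset.range n, jumpProb a ε (y (k + 1)) (y (k + 1 + 1))) *
            ∏ k ∈ Finset.range (n + 1), Real.exp (-(r (k + 1))))) else 0 := by
      intro e
      by_cases hB : r 0 < (e : ℝ)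
      swap
      · simp [hB]
      simp only [hB, if_true]
      have e3 : ∀ u : unitInterval, ∫⁻ ω, (if ∀ k ≤ n, cf true (C.Y k (C.Φ m u) ω) = y (k + 1) ∧
          r (k + 1) < ((ω k).2 : ℝ) then (1 : ℝ≥0∞) else 0) ∂Pr =
          ENNReal.ofReal ((if y 1 = cf true (C.Φ m u) then 1 else 0) *
            ((∏ k ∈ Finset.range n, jumpProb a ε (y (k + 1)) (y (k + 1 + 1))) *
            ∏ k ∈ Finset.range (n + 1), Real.exp (-(r (k + 1))))) := by
        intro u
        rw [← pr_eq_lint (measurableSet_box C n (C.Φ m u) (fun k => y (k + 1))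
          (fun k => r (k + 1)))]
        rw [ih (C.Φ m u) (fun k => y (k + 1)) (fun k => r (k + 1)) (fun k => hr _), mul_assoc]
      simp only [e3]
      by_cases hpos : 0 ≤ ((∏ k ∈ Finset.range n, jumpProb a ε (y (k + 1)) (y (k + 1 + 1))) *
            ∏ k ∈ Finset.range (n + 1), Real.exp (-(r (k + 1))))
      · rw [hC.step hk h0 h1 m (y 1) _ hpos, hA]
      · push Not at hpos
        have hz1 : ∀ u : unitInterval, ENNReal.ofReal ((if y 1 = cf true (C.Φ m u) then 1 else 0) *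
            ((∏ k ∈ Finset.range n, jumpProb a ε (y (k + 1)) (y (k + 1 + 1))) *
            ∏ k ∈ Finset.range (n + 1), Real.exp (-(r (k + 1))))) = 0 := by
          intro u
          refine ENNReal.ofReal_of_nonpos ?_
          split_ifs
          · rw [one_mul]; exact hpos.le
          · rw [zero_mul]
        simp only [hz1, lintegral_zero]
        rw [ENNReal.ofReal_of_nonpos]
        rw [hA]
        exact mul_nonpos_of_nonneg_of_nonpos (jumpProb_cf_nonneg hk h0 h1 m _) hpos.le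
    rw [lintegral_congr e2, hr0 _ (hr 0), ← ENNReal.ofReal_mul (Real.exp_pos _).le]
    congr 1
    rw [Finset.prod_range_succ' (fun k => jumpProb a ε (y k) (y (k + 1))),
      Finset.prod_range_succ' (fun k => Real.exp (-(r k)))]
    ring

/-! ### non explosion -/

lemma lint_exp_div {q : ℝ} (hq : 0 < q) :
    ∫⁻ e : ℝ≥0, ENNReal.ofReal (Real.exp (-((e : ℝ) / q))) ∂expL =
      ENNReal.ofReal (1 + 1 / q)⁻¹ := by
  have hm : Measurable fun e : ℝ≥0 => ENNReal.ofReal (Real.exp (-((e : ℝ) / q))) := by fun_prop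
  rw [lintegral_expL hm]
  have hb : 0 < 1 + 1 / q := by positivity
  have e1 : ∀ r ∈ Set.Ioi (0 : ℝ), ENNReal.ofReal (Real.exp (-r)) *
      ENNReal.ofReal (Real.exp (-((r.toNNReal : ℝ) / q))) =
      ENNReal.ofReal (Real.exp (-(1 + 1 / q) * r)) := by
    intro r hr
    rw [← ENNReal.ofReal_mul (Real.exp_pos _).le, ← Real.exp_add,
      Real.coe_toNNReal r (le_of_lt hr)]
    congr 2
    ring
  rw [setLIntegral_congr_fun measurableSet_Ioi e1,
    ← ofReal_integral_eq_lintegral_ofReal (integrableOn_exp_mul_Ioi (by linarith) 0)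
      (Filter.Eventually.of_forall fun r => (Real.exp_pos _).le)]
  rw [integral_exp_mul_Ioi (by linarith) 0]
  congr 1
  rw [mul_zero, Real.exp_zero]
  field_simp

lemma IsEC.exp_T {ε : ℝ} {C : Chain St} (hC : IsEC a ε C) {M : ℝ} (hM : 0 < M)
    (hq : ∀ m, qe a ε m ≤ M * (1 + m.card)) (n : ℕ) : ∀ (m : St) (K : ℕ), m.card ≤ K →
    ∫⁻ ω, ENNReal.ofReal (Real.exp (-(C.T n m ω))) ∂Pr ≤
      ENNReal.ofReal (∏ k ∈ Finset.range n, (1 + 1 / (M * (1 + (K + k : ℕ))))⁻¹) := by
  induction n with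
  | zero => intro m K _; simp
  | succ n ih =>
    intro m K hmK
    have hT := C.measurable_Tx (n + 1) m
    rw [lintegral_cons' (by fun_prop)]
    have hqm := C.qpos m
    have e1 : ∀ e : ℝ≥0, (∫⁻ u : unitInterval, ∫⁻ ω,
        ENNReal.ofReal (Real.exp (-(C.T (n + 1) m (cons (u, e) ω)))) ∂Pr) ≤
        ENNReal.ofReal (Real.exp (-((e : ℝ) / C.q m))) *
        ENNReal.ofReal (∏ k ∈ Finset.range n, (1 + 1 / (M * (1 + (K + 1 + k : ℕ))))⁻¹) := by
      intro e
      have e2 : ∀ u : unitInterval, (∫⁻ ω,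
          ENNReal.ofReal (Real.exp (-(C.T (n + 1) m (cons (u, e) ω)))) ∂Pr) ≤
          ENNReal.ofReal (Real.exp (-((e : ℝ) / C.q m))) *
          ENNReal.ofReal (∏ k ∈ Finset.range n, (1 + 1 / (M * (1 + (K + 1 + k : ℕ))))⁻¹) := by
        intro u
        have e3 : ∀ ω, ENNReal.ofReal (Real.exp (-(C.T (n + 1) m (cons (u, e) ω)))) =
            ENNReal.ofReal (Real.exp (-((e : ℝ) / C.q m))) *
              ENNReal.ofReal (Real.exp (-(C.T n (C.Φ m u) ω))) := by
          intro ω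
          rw [C.T_cons, neg_add, Real.exp_add, ENNReal.ofReal_mul (Real.exp_pos _).le]
        simp only [e3]
        have hT2 := C.measurable_Tx n (C.Φ m u)
        rw [lintegral_const_mul _ (by fun_prop)]
        gcongr
        exact ih (C.Φ m u) (K + 1) ((hC.card_le m u).trans (by omega))
      refine (lintegral_mono e2).trans ?_
      rw [lintegral_const, measure_univ, mul_one]
    refine (lintegral_mono e1).trans ?_
    rw [lintegral_mul_const _ (by fun_prop), lint_exp_div hqm, Finset.prod_range_succ',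
      mul_comm (∏ k ∈ Finset.range n, _), ENNReal.ofReal_mul (by positivity)]
    have hqK : C.q m ≤ M * (1 + (K : ℝ)) := by
      rw [hC.1]
      refine (hq m).trans ?_
      have : (m.card : ℝ) ≤ K := by exact_mod_cast hmK
      gcongr
    gcongr ?_ * ?_
    · refine ENNReal.ofReal_le_ofReal ?_
      gcongr
      simpa using hqK
    · refine ENNReal.ofReal_le_ofReal (le_of_eq ?_)
      refine Finset.prod_congr rfl fun k _ => ?_
      have : K + 1 + k = K + (k + 1) := by omega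
      rw [this]

lemma one_add_sum_le_prod (x : ℕ → ℝ) (hx : ∀ k, 0 ≤ x k) (n : ℕ) :
    1 + ∑ k ∈ Finset.range n, x k ≤ ∏ k ∈ Finset.range n, (1 + x k) := by
  induction n with
  | zero => simp
  | succ n ih =>
    rw [Finset.sum_range_succ, Finset.prod_range_succ]
    have h1 : 0 ≤ ∑ k ∈ Finset.range n, x k := Finset.sum_nonneg fun k _ => hx k
    nlinarith [hx n, mul_nonneg h1 (hx n), mul_le_mul_of_nonneg_right ih (hx n)]

theorem IsEC.ne (hk : IsKernel a) {ε : ℝ} (h0 : 0 ≤ ε) {C : Chain St}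
    (hC : IsEC a ε C) : C.NE := by
  obtain ⟨M, hM, hMt⟩ := tot_true_le hk
  have hq : ∀ m, qe a ε m ≤ M * (1 + m.card) := fun m => (qe_bounds hk h0 m).2.trans (hMt m)
  intro m t
  set K := m.card with hK
  have hbound : ∀ n, Pr {ω | C.T n m ω ≤ t} ≤
      ENNReal.ofReal (Real.exp t * (1 + ∑ k ∈ Finset.range n,
        1 / (M * (1 + (K + k : ℕ))))⁻¹) := by
    intro n
    have hT := C.measurable_Tx n m
    have h1 : Pr {ω | C.T n m ω ≤ t} ≤
        ENNReal.ofReal (Real.exp t) * ∫⁻ ω, ENNReal.ofReal (Real.exp (-(C.T n m ω))) ∂Pr := by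
      classical
      rw [pr_eq_lint (measurableSet_le hT measurable_const), ← lintegral_const_mul _ (by fun_prop)]
      refine lintegral_mono fun ω => ?_
      dsimp only
      split_ifs with h
      · rw [← ENNReal.ofReal_mul (Real.exp_pos _).le, ← Real.exp_add, ← ENNReal.ofReal_one]
        refine ENNReal.ofReal_le_ofReal ?_
        rw [← Real.exp_zero]
        exact Real.exp_le_exp.2 (by linarith)
      · exact bot_le
    refine h1.trans ?_
    rw [ENNReal.ofReal_mul (Real.exp_pos _).le]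
    gcongr
    refine (hC.exp_T hM hq n m K le_rfl).trans ?_
    refine ENNReal.ofReal_le_ofReal ?_
    rw [Finset.prod_inv_distrib]
    have hx : ∀ k : ℕ, 0 ≤ 1 / (M * (1 + (K + k : ℕ))) := fun k => by positivity
    have h2 := one_add_sum_le_prod (fun k : ℕ => 1 / (M * (1 + (K + k : ℕ)))) hx n
    have h3 : 0 < 1 + ∑ k ∈ Finset.range n, 1 / (M * (1 + (K + k : ℕ))) := by
      have := Finset.sum_nonneg (s := Finset.range n) fun k _ => hx k
      linarith
    exact inv_anti₀ h3 h2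
  have hdiv : Tendsto (fun n : ℕ => 1 + ∑ k ∈ Finset.range n,
      1 / (M * (1 + (K + k : ℕ)))) atTop atTop := by
    refine tendsto_atTop_add_const_left _ _ ?_
    have h4 := (Real.tendsto_sum_range_one_div_nat_succ_atTop).const_mul_atTop
      (show 0 < 1 / (M * (1 + K)) by positivity)
    refine tendsto_atTop_mono (fun n => ?_) h4
    rw [Finset.mul_sum]
    refine Finset.sum_le_sum fun k _ => ?_
    rw [div_mul_div_comm, one_mul]
    refine one_div_le_one_div_of_le (by positivity) ?_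
    rw [mul_assoc]
    refine mul_le_mul_of_nonneg_left ?_ hM.le
    push_cast
    nlinarith [mul_nonneg (Nat.cast_nonneg (α := ℝ) K) (Nat.cast_nonneg (α := ℝ) k)]
  have hlim : Tendsto (fun n : ℕ => ENNReal.ofReal (Real.exp t * (1 + ∑ k ∈ Finset.range n,
      1 / (M * (1 + (K + k : ℕ))))⁻¹)) atTop (𝓝 0) := by
    have h5 := (hdiv.inv_tendsto_atTop).const_mul (Real.exp t)
    rw [mul_zero] at h5
    have h6 := ENNReal.tendsto_ofReal h5
    rw [ENNReal.ofReal_zero] at h6
    exact h6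
  exact tendsto_of_tendsto_of_tendsto_of_le_of_le tendsto_const_nhds hlim (fun _ => bot_le) hbound

/-! ### paths -/

/-- no explosion -/
def goodS (C : Chain St) : Set Om := {ω | ∀ n : ℕ, ∃ k, (n : ℝ) < C.T k ∅ ω}

lemma measurableSet_goodS (C : Chain St) : MeasurableSet (goodS C) := by
  have : goodS C = ⋂ n : ℕ, ⋃ k : ℕ, {ω | (n : ℝ) < C.T k ∅ ω} := by
    ext ω
    simp [goodS]
  rw [this]
  exact MeasurableSet.iInter fun n => MeasurableSet.iUnion fun k =>
    measurableSet_lt measurable_const (C.measurable_Tx k ∅)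

lemma goodS_all {C : Chain St} {ω : Om} (h : ω ∈ goodS C) (t : ℝ) : ∃ k, t < C.T k ∅ ω := by
  obtain ⟨n, hn⟩ := exists_nat_gt t
  obtain ⟨k, hk⟩ := h n
  exact ⟨k, hn.trans hk⟩

open Classical in
/-- the scaled path -/
noncomputable def pth (C : Chain St) (ε : ℝ) (s : ℝ≥0) (ω : Om) (t : ℝ≥0) : ℝ :=
  if ω ∈ goodS C then ε * (lf (C.X ((t / s : ℝ≥0) : ℝ) ∅ ω) : ℝ) else 0

lemma pth_eq {C : Chain St} {ε : ℝ} {s : ℝ≥0} {ω : Om} (hω : ω ∈ goodS C) {t t' : ℝ≥0} {n : ℕ}
    (h1 : C.T n ∅ ω ≤ ((t / s : ℝ≥0) : ℝ)) (h2 : ((t / s : ℝ≥0) : ℝ) < C.T (n + 1) ∅ ω)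
    (h1' : C.T n ∅ ω ≤ ((t' / s : ℝ≥0) : ℝ)) (h2' : ((t' / s : ℝ≥0) : ℝ) < C.T (n + 1) ∅ ω) :
    pth C ε s ω t = pth C ε s ω t' := by
  unfold pth
  rw [if_pos hω, if_pos hω]
  have e1 := (C.N_eq_iff (NNReal.coe_nonneg _) (goodS_all hω _)).2 ⟨h1, h2⟩
  have e2 := (C.N_eq_iff (NNReal.coe_nonneg _) (goodS_all hω _)).2 ⟨h1', h2'⟩
  unfold Chain.X
  rw [e1, e2]

lemma pth_val {C : Chain St} {ε : ℝ} {s : ℝ≥0} {ω : Om} (hω : ω ∈ goodS C) {t : ℝ≥0} {n : ℕ}
    (h1 : C.T n ∅ ω ≤ ((t / s : ℝ≥0) : ℝ)) (h2 : ((t / s : ℝ≥0) : ℝ) < C.T (n + 1) ∅ ω) :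
    pth C ε s ω t = ε * (lf (C.Y n ∅ ω) : ℝ) := by
  unfold pth
  rw [if_pos hω]
  have e1 := (C.N_eq_iff (NNReal.coe_nonneg _) (goodS_all hω _)).2 ⟨h1, h2⟩
  unfold Chain.X
  rw [e1]

lemma cadlag_pth (C : Chain St) (ε : ℝ) {s : ℝ≥0} (hs : 0 < s) (ω : Om) :
    Cadlag (pth C ε s ω) := by
  by_cases hω : ω ∈ goodS C
  swap
  · have : pth C ε s ω = fun _ => 0 := by
      funext t
      unfold pth
      rw [if_neg hω]
    rw [this]
    exact fun t => ⟨continuous_const.continuousWithinAt, 0, tendsto_const_nhds⟩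
  have hcont : Continuous fun r : ℝ≥0 => ((r / s : ℝ≥0) : ℝ) := by fun_prop
  intro t
  constructor
  · set n := C.N ((t / s : ℝ≥0) : ℝ) ∅ ω with hn
    obtain ⟨h1, h2⟩ := (C.N_eq_iff (NNReal.coe_nonneg _) (goodS_all hω _)).1 hn.symm
    have hev : ∀ᶠ r in 𝓝[≥] t, pth C ε s ω r = pth C ε s ω t := by
      have h3 : ∀ᶠ r in 𝓝[≥] t, ((r / s : ℝ≥0) : ℝ) < C.T (n + 1) ∅ ω :=
        (hcont.continuousAt.eventually_lt continuousAt_const h2).filter_mono nhdsWithin_le_nhds
      filter_upwards [h3, self_mem_nhdsWithin] with r hr hr2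
      refine pth_eq hω (h1.trans ?_) hr h1 h2
      have : t / s ≤ r / s := by
        have : t ≤ r := hr2
        gcongr
      exact_mod_cast this
    exact (tendsto_const_nhds.congr' (hev.mono fun r hr => hr.symm))
  · by_cases ht : t = 0
    · subst ht
      refine ⟨0, ?_⟩
      have : Set.Iio (0 : ℝ≥0) = ∅ := by
        ext x; simp
      rw [this, nhdsWithin_empty]
      exact tendsto_bot
    have htp : 0 < t := pos_iff_ne_zero.2 ht
    have hts : (0 : ℝ) < ((t / s : ℝ≥0) : ℝ) := by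
      have : 0 < t / s := div_pos htp hs
      exact_mod_cast this
    have hex : ∃ n, ((t / s : ℝ≥0) : ℝ) ≤ C.T (n + 1) ∅ ω := by
      obtain ⟨k, hk⟩ := goodS_all hω ((t / s : ℝ≥0) : ℝ)
      exact ⟨k, hk.le.trans (C.T_mono ∅ ω (Nat.le_succ k))⟩
    classical
    set n := Nat.find hex with hn
    have h2 : ((t / s : ℝ≥0) : ℝ) ≤ C.T (n + 1) ∅ ω := Nat.find_spec hex
    have h1 : C.T n ∅ ω < ((t / s : ℝ≥0) : ℝ) := by
      rcases Nat.eq_zero_or_pos n with h | h
      · rw [h, C.T_zero]; exact hts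
      · have h3 := Nat.find_min hex (m := n - 1) (by omega)
        rw [Nat.sub_add_cancel h] at h3
        exact not_le.1 h3
    refine ⟨ε * (lf (C.Y n ∅ ω) : ℝ), ?_⟩
    have hev : ∀ᶠ r in 𝓝[<] t, pth C ε s ω r = ε * (lf (C.Y n ∅ ω) : ℝ) := by
      have h3 : ∀ᶠ r in 𝓝[<] t, C.T n ∅ ω < ((r / s : ℝ≥0) : ℝ) :=
        (continuousAt_const.eventually_lt hcont.continuousAt h1).filter_mono nhdsWithin_le_nhds
      filter_upwards [h3, self_mem_nhdsWithin] with r hr hr2
      refine pth_val hω hr.le (lt_of_lt_of_le ?_ h2)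
      have : r / s < t / s := by
        have : r < t := hr2
        gcongr
      exact_mod_cast this
    exact tendsto_const_nhds.congr' (hev.mono fun r hr => hr.symm)

lemma measurable_pth (C : Chain St) (ε : ℝ) (s : ℝ≥0) (t : ℝ≥0) :
    Measurable fun ω => pth C ε s ω t := by
  unfold pth
  refine Measurable.ite (measurableSet_goodS C) ?_ measurable_const
  have : Measurable fun m : St => ε * (lf m : ℝ) := measurable_of_countable _
  exact this.comp (C.measurable_Xx _ ∅)

lemma exists_sko (C : Chain St) (ε : ℝ) (hε : 0 < ε) : ∃ Y : Om → SkoD, Measurable Y ∧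
    ∀ ω ∈ goodS C, ∀ t : ℝ≥0,
      (Y ω).1 t = ε * (lf (C.X ((t / (ε ^ 2).toNNReal : ℝ≥0) : ℝ) ∅ ω) : ℝ) := by
  have hs : 0 < (ε ^ 2).toNNReal := Real.toNNReal_pos.2 (by positivity)
  refine ⟨fun ω => ⟨pth C ε (ε ^ 2).toNNReal ω, cadlag_pth C ε hs ω⟩, ?_, ?_⟩
  · exact Measurable.subtype_mk (measurable_pi_iff.2 fun t => measurable_pth C ε _ t)
  · intro ω hω t
    show pth C ε (ε ^ 2).toNNReal ω t = _
    unfold pth
    rw [if_pos hω]

lemma ex_jumpTime_eq (hk : IsKernel a) {ε : ℝ} {C : Chain St} (hC : IsEC a ε C) (n : ℕ) (ω : Om) :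
    jumpTime a ε (fun k ω => cf true (C.Y k ∅ ω)) (fun k (ω : Om) => ((ω k).2 : ℝ)) n ω =
      C.T n ∅ ω := by
  unfold jumpTime Chain.T
  refine Finset.sum_congr rfl fun k _ => ?_
  rw [totalRate_cf hk, hC.1]

/-- everything for one bias -/
lemma exists_one (hk : IsKernel a) {ε : ℝ} (h0 : 0 < ε) (h1 : ε < 1) :
    ∃ (X : ℝ≥0 → Om → Config) (Y : Om → SkoD), IsVoterProcess Pr a ε X ∧ Measurable Y ∧
      IsScaledInterface Pr ε X Y := by
  obtain ⟨C, hC⟩ := exists_ec hk h0.le h1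
  obtain ⟨Y, hY, hY2⟩ := exists_sko C ε h0
  refine ⟨fun t ω => cf true (C.X (t : ℝ) ∅ ω), Y, ?_, hY, ?_⟩
  · refine ⟨fun k ω => cf true (C.Y k ∅ ω), fun k (ω : Om) => ((ω k).2 : ℝ), ⟨?_, ?_, ?_⟩, ?_⟩
    · intro k
      exact (measurable_of_countable (cf true)).comp (C.measurable_Yx k ∅)
    · intro k
      fun_prop
    · intro n y r hr
      rw [hC.law hk h0.le h1 n ∅ y r hr, cf_empty]
    · refine Filter.Eventually.of_forall fun ω n t hn1 hn2 => ?_
      rw [ex_jumpTime_eq hk hC] at hn1 hn2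
      have e := (C.N_eq_iff (NNReal.coe_nonneg t) ⟨n + 1, hn2⟩).2 ⟨hn1, hn2⟩
      show cf true (C.X (t : ℝ) ∅ ω) = cf true (C.Y n ∅ ω)
      unfold Chain.X
      rw [e]
  · filter_upwards [C.ae_finite (hC.ne hk h0.le) ∅] with ω hω t
    refine ⟨lf (C.X ((t / (ε ^ 2).toNNReal : ℝ≥0) : ℝ) ∅ ω), lf_isLeast _, ?_⟩
    exact hY2 ω (fun n => hω n) t

theorem exists_fam (hk : IsKernel a) : Nonempty (VoterFam a) := by
  have h : ∀ ε : ℝ, ∃ (X : ℝ≥0 → Om → Config) (Y : Om → SkoD), Measurable Y ∧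
      (0 < ε → ε < 1 → IsVoterProcess Pr a ε X) ∧
      (0 < ε → ε < 1 → IsScaledInterface Pr ε X Y) := by
    intro ε
    by_cases hε : 0 < ε ∧ ε < 1
    · obtain ⟨X, Y, h1, h2, h3⟩ := exists_one hk hε.1 hε.2
      exact ⟨X, Y, h2, fun _ _ => h1, fun _ _ => h3⟩
    · obtain ⟨X, Y, h1, h2, h3⟩ := exists_one hk (ε := 1 / 2) (by norm_num) (by norm_num)
      exact ⟨X, Y, h2, fun h4 h5 => absurd ⟨h4, h5⟩ hε, fun h4 h5 => absurd ⟨h4, h5⟩ hε⟩
  choose X Y h1 h2 h3 using h
  exact ⟨{ Ω := fun _ => Om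
           mΩ := fun _ => inferInstance
           P := fun _ => Pr
           prob := fun _ => inferInstance
           X := X
           voter := h2
           Y := Y
           meas := h1
           interface := h3 }⟩

end H40.VM
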