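import Pool.Agent.H40.VM.EX
import Pool.Agent.H40.Voter.MeasDefs

/-!
# Module EXm: existence of the measure valued processes

For the family constructed in module EX (`X t ω = cf true (X t ∅ ω)` on `Om`), for `0 < ε < 1` take
`(M ε ω) t = empMeasure ε (X (t/ε²) ω)` if `ω` is non explosive, and the zero path otherwise (also
for other `ε`, or the same objects with `ε` replaced by `1/2`). A non explosive path is a locally
finite right continuous step function, so all integrals of continuous functions with compact support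
are càdlàg; `empMeasure ε x` is locally finite (`ε > 0`: at most `(b - a)/ε + 1` sites `i` with
`a ≤ ε i ≤ b`). Measurability of `ω ↦ (M ε ω) t`: the state at time `t` is a measurable function with
values in a countable discrete space.
-/

open MeasureTheory ProbabilityTheory Filter Topology
open scoped ENNReal NNReal unitInterval symmDiff

namespace H40.VM

open H40.Voter (IsKernel VoterFam MeasFam SkoD Cadlag Config MeasD VagueCadlag empMeasure
  IsVoterProcess IsScaledInterface)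

variable {a : ℤ → ℝ}

lemma exm_locallyFinite {ε : ℝ} (hε : 0 < ε) (x : Config) :
    IsLocallyFiniteMeasure (empMeasure ε x) := by
  constructor
  intro y
  refine ⟨Set.Icc (y - 1) (y + 1), Icc_mem_nhds (by linarith) (by linarith), ?_⟩
  unfold empMeasure
  rw [Measure.sum_apply _ measurableSet_Icc]
  have hfin : {i : ℤ | ε * (i : ℝ) ∈ Set.Icc (y - 1) (y + 1)}.Finite := by
    refine (Set.finite_Icc ⌈(y - 1) / ε⌉ ⌊(y + 1) / ε⌋).subset ?_
    rintro i ⟨h1, h2⟩
    refine ⟨Int.ceil_le.2 ?_, Int.le_floor.2 ?_⟩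
    · rw [div_le_iff₀ hε]; linarith
    · rw [le_div_iff₀ hε]; linarith
  have hfin2 : {i : {i : ℤ // x i = true} |
      ε * ((i : ℤ) : ℝ) ∈ Set.Icc (y - 1) (y + 1)}.Finite :=
    hfin.preimage (f := fun i : {i : ℤ // x i = true} => (i : ℤ))
      (Subtype.coe_injective.injOn)
  rw [tsum_eq_sum (s := hfin2.toFinset)]
  · refine ENNReal.sum_lt_top.2 fun i _ => ?_
    rw [Measure.smul_apply, smul_eq_mul]
    exact ENNReal.mul_lt_top ENNReal.ofReal_lt_top (measure_lt_top _ _)
  · intro i hi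
    have hi' : ¬ ε * ((i : ℤ) : ℝ) ∈ Set.Icc (y - 1) (y + 1) := by
      intro h
      exact hi ((Set.Finite.mem_toFinset hfin2).2 h)
    rw [Measure.smul_apply, Measure.dirac_apply' _ measurableSet_Icc,
      Set.indicator_of_notMem hi', smul_zero]

open Classical in
/-- functions of the state along the time changed path -/
noncomputable def exF {β : Type*} (C : Chain St) (F : St → β) (b : β) (s : ℝ≥0) (ω : Om)
    (t : ℝ≥0) : β :=
  if ω ∈ goodS C then F (C.X ((t / s : ℝ≥0) : ℝ) ∅ ω) else b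

lemma exF_val {β : Type*} {C : Chain St} {F : St → β} {b : β} {s : ℝ≥0} {ω : Om}
    (hω : ω ∈ goodS C) {t : ℝ≥0} {n : ℕ}
    (h1 : C.T n ∅ ω ≤ ((t / s : ℝ≥0) : ℝ)) (h2 : ((t / s : ℝ≥0) : ℝ) < C.T (n + 1) ∅ ω) :
    exF C F b s ω t = F (C.Y n ∅ ω) := by
  unfold exF
  rw [if_pos hω]
  have e1 := (C.N_eq_iff (NNReal.coe_nonneg _) (goodS_all hω _)).2 ⟨h1, h2⟩
  unfold Chain.X
  rw [e1]

lemma exF_cadlag (C : Chain St) (F : St → ℝ) (b : ℝ) {s : ℝ≥0} (hs : 0 < s) (ω : Om) :
    Cadlag (exF C F b s ω) := by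
  by_cases hω : ω ∈ goodS C
  swap
  · have : exF C F b s ω = fun _ => b := by
      funext t
      unfold exF
      rw [if_neg hω]
    rw [this]
    exact fun t => ⟨continuous_const.continuousWithinAt, b, tendsto_const_nhds⟩
  have hcont : Continuous fun r : ℝ≥0 => ((r / s : ℝ≥0) : ℝ) := by fun_prop
  intro t
  constructor
  · set n := C.N ((t / s : ℝ≥0) : ℝ) ∅ ω with hn
    obtain ⟨h1, h2⟩ := (C.N_eq_iff (NNReal.coe_nonneg _) (goodS_all hω _)).1 hn.symm
    have hev : ∀ᶠ r in 𝓝[≥] t, exF C F b s ω r = exF C F b s ω t := by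
      have h3 : ∀ᶠ r in 𝓝[≥] t, ((r / s : ℝ≥0) : ℝ) < C.T (n + 1) ∅ ω :=
        (hcont.continuousAt.eventually_lt continuousAt_const h2).filter_mono nhdsWithin_le_nhds
      filter_upwards [h3, self_mem_nhdsWithin] with r hr hr2
      have h4 : C.T n ∅ ω ≤ ((r / s : ℝ≥0) : ℝ) := by
        refine h1.trans ?_
        have : t / s ≤ r / s := by
          have : t ≤ r := hr2
          gcongr
        exact_mod_cast this
      rw [exF_val hω h4 hr, exF_val hω h1 h2]
    exact (tendsto_const_nhds.congr' (hev.mono fun r hr => hr.symm))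
  · by_cases ht : t = 0
    · subst ht
      refine ⟨0, ?_⟩
      have : Set.Iio (0 : ℝ≥0) = ∅ := by
        ext x; simp
      rw [this, nhdsWithin_empty]
      exact tendsto_bot
    have htp : 0 < t := pos_iff_ne_zero.2 ht
    have hts : (0 : ℝ) < ((t / s : ℝ≥0) : ℝ) := by
      have : 0 < t / s := div_pos htp hs
      exact_mod_cast this
    have hex : ∃ n, ((t / s : ℝ≥0) : ℝ) ≤ C.T (n + 1) ∅ ω := by
      obtain ⟨k, hk⟩ := goodS_all hω ((t / s : ℝ≥0) : ℝ)
      exact ⟨k, hk.le.trans (C.T_mono ∅ ω (Nat.le_succ k))⟩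
    classical
    set n := Nat.find hex with hn
    have h2 : ((t / s : ℝ≥0) : ℝ) ≤ C.T (n + 1) ∅ ω := Nat.find_spec hex
    have h1 : C.T n ∅ ω < ((t / s : ℝ≥0) : ℝ) := by
      rcases Nat.eq_zero_or_pos n with h | h
      · rw [h, C.T_zero]; exact hts
      · have h3 := Nat.find_min hex (m := n - 1) (by omega)
        rw [Nat.sub_add_cancel h] at h3
        exact not_le.1 h3
    refine ⟨F (C.Y n ∅ ω), ?_⟩
    have hev : ∀ᶠ r in 𝓝[<] t, exF C F b s ω r = F (C.Y n ∅ ω) := by
      have h3 : ∀ᶠ r in 𝓝[<] t, C.T n ∅ ω < ((r / s : ℝ≥0) : ℝ) :=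
        (continuousAt_const.eventually_lt hcont.continuousAt h1).filter_mono nhdsWithin_le_nhds
      filter_upwards [h3, self_mem_nhdsWithin] with r hr hr2
      refine exF_val hω hr.le (lt_of_lt_of_le ?_ h2)
      have : r / s < t / s := by
        have : r < t := hr2
        gcongr
      exact_mod_cast this
    exact tendsto_const_nhds.congr' (hev.mono fun r hr => hr.symm)

lemma exF_measurable {β : Type*} [MeasurableSpace β] (C : Chain St) (F : St → β) (b : β)
    (s t : ℝ≥0) : Measurable fun ω => exF C F b s ω t := by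
  unfold exF
  refine Measurable.ite (measurableSet_goodS C) ?_ measurable_const
  exact (measurable_of_countable F).comp (C.measurable_Xx _ ∅)

lemma exists_measD (C : Chain St) (ε : ℝ) (hε : 0 < ε) : ∃ M : Om → MeasD, Measurable M ∧
    ∀ ω ∈ goodS C, ∀ t : ℝ≥0,
      (M ω).1 t = empMeasure ε (cf true (C.X ((t / (ε ^ 2).toNNReal : ℝ≥0) : ℝ) ∅ ω)) := by
  have hs : 0 < (ε ^ 2).toNNReal := Real.toNNReal_pos.2 (by positivity)
  set F : St → Measure ℝ := fun m => empMeasure ε (cf true m) with hF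
  have hV : ∀ ω, VagueCadlag (exF C F 0 (ε ^ 2).toNNReal ω) := by
    intro ω
    constructor
    · intro t
      unfold exF
      split_ifs
      · exact exm_locallyFinite hε _
      · infer_instance
    · intro φ _ _
      have e : (fun t => ∫ x, φ x ∂(exF C F 0 (ε ^ 2).toNNReal ω t)) =
          exF C (fun m => ∫ x, φ x ∂(F m)) 0 (ε ^ 2).toNNReal ω := by
        funext t
        unfold exF
        split_ifs
        · rfl
        · rw [integral_zero_measure]
      rw [e]
      exact exF_cadlag C _ 0 hs ω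
  refine ⟨fun ω => ⟨exF C F 0 (ε ^ 2).toNNReal ω, hV ω⟩, ?_, ?_⟩
  · exact Measurable.subtype_mk (measurable_pi_iff.2 fun t => exF_measurable C F 0 _ t)
  · intro ω hω t
    show exF C F 0 (ε ^ 2).toNNReal ω t = _
    unfold exF
    rw [if_pos hω]

/-- everything for one bias -/
lemma exists_one_meas (hk : IsKernel a) {ε : ℝ} (h0 : 0 < ε) (h1 : ε < 1) :
    ∃ (X : ℝ≥0 → Om → Config) (Y : Om → SkoD) (M : Om → MeasD), IsVoterProcess Pr a ε X ∧
      Measurable Y ∧ IsScaledInterface Pr ε X Y ∧ Measurable M ∧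
      ∀ᵐ ω ∂Pr, ∀ t : ℝ≥0, (M ω).1 t = empMeasure ε (X (t / (ε ^ 2).toNNReal) ω) := by
  obtain ⟨C, hC⟩ := exists_ec hk h0.le h1
  obtain ⟨Y, hY, hY2⟩ := exists_sko C ε h0
  obtain ⟨M, hM, hM2⟩ := exists_measD C ε h0
  refine ⟨fun t ω => cf true (C.X (t : ℝ) ∅ ω), Y, M, ?_, hY, ?_, hM, ?_⟩
  · refine ⟨fun k ω => cf true (C.Y k ∅ ω), fun k (ω : Om) => ((ω k).2 : ℝ), ⟨?_, ?_, ?_⟩, ?_⟩
    · intro k
      exact (measurable_of_countable (cf true)).comp (C.measurable_Yx k ∅)
    · intro k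
      fun_prop
    · intro n y r hr
      rw [hC.law hk h0.le h1 n ∅ y r hr, cf_empty]
    · refine Filter.Eventually.of_forall fun ω n t hn1 hn2 => ?_
      rw [ex_jumpTime_eq hk hC] at hn1 hn2
      have e := (C.N_eq_iff (NNReal.coe_nonneg t) ⟨n + 1, hn2⟩).2 ⟨hn1, hn2⟩
      show cf true (C.X (t : ℝ) ∅ ω) = cf true (C.Y n ∅ ω)
      unfold Chain.X
      rw [e]
  · filter_upwards [C.ae_finite (hC.ne hk h0.le) ∅] with ω hω t
    refine ⟨lf (C.X ((t / (ε ^ 2).toNNReal : ℝ≥0) : ℝ) ∅ ω), lf_isLeast _, ?_⟩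
    exact hY2 ω (fun n => hω n) t
  · filter_upwards [C.ae_finite (hC.ne hk h0.le) ∅] with ω hω t
    exact hM2 ω (fun n => hω n) t

theorem exists_fam_meas (hk : IsKernel a) : ∃ V : VoterFam a, Nonempty (MeasFam V) := by
  have h : ∀ ε : ℝ, ∃ (X : ℝ≥0 → Om → Config) (Y : Om → SkoD) (M : Om → MeasD), Measurable Y ∧
      Measurable M ∧
      (0 < ε → ε < 1 → IsVoterProcess Pr a ε X) ∧
      (0 < ε → ε < 1 → IsScaledInterface Pr ε X Y) ∧
      (0 < ε → ε < 1 → ∀ᵐ ω ∂Pr, ∀ t : ℝ≥0,
        (M ω).1 t = empMeasure ε (X (t / (ε ^ 2).toNNReal) ω)) := by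
    intro ε
    by_cases hε : 0 < ε ∧ ε < 1
    · obtain ⟨X, Y, M, h1, h2, h3, h4, h5⟩ := exists_one_meas hk hε.1 hε.2
      exact ⟨X, Y, M, h2, h4, fun _ _ => h1, fun _ _ => h3, fun _ _ => h5⟩
    · obtain ⟨X, Y, M, h1, h2, h3, h4, h5⟩ :=
        exists_one_meas hk (ε := 1 / 2) (by norm_num) (by norm_num)
      exact ⟨X, Y, M, h2, h4, fun h4 h5 => absurd ⟨h4, h5⟩ hε,
        fun h4 h5 => absurd ⟨h4, h5⟩ hε, fun h4 h5 => absurd ⟨h4, h5⟩ hε⟩
  choose X Y M h1 h2 h3 h4 h5 using h
  refine ⟨{ Ω := fun _ => Om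
            mΩ := fun _ => inferInstance
            P := fun _ => Pr
            prob := fun _ => inferInstance
            X := X
            voter := h3
            Y := Y
            meas := h1
            interface := h4 }, ⟨?_⟩⟩
  exact { M := M
          meas := h2
          eq := h5 }

end H40.VM
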