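import Pool.Agent.H40.Voter.MeasDefs
import Pool.Agent.H40.VM.FC

/-!
# Module FCm: convergence in law of measure valued processes

Let `Ψ : SkoD → MeasD`, `(Ψ x) t = volume.restrict (Ioi (x t))` (the integrals
`∫_{x t}^∞ φ` are càdlàg functions of `t`, since `w ↦ ∫_w^∞ φ` is continuous). `Ψ` is measurable and
maps `SkoTendsto` sequences to `MTendsto` sequences (same time changes; `w ↦ ∫_w^∞ φ` is Lipschitz).
Let `G` be bounded, measurable and `MContinuous`.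
* `G ∘ Ψ` is bounded, measurable, `SkoContinuous`, so `E G (Ψ (W ε)) → E G (Ψ Z) = E G N` by
  `conv_of_fdd_of_mod`.
* `E |G (M ε) - G (Ψ (W ε))| → 0`: countable family of test functions: `C(ℝ, ℝ)` is second countable
  (compact open topology), so for each `R : ℕ` the set of continuous functions vanishing outside of
  `[-R, R]` has a countable dense subset (uniform approximation), and add for each `R` a continuous
  function `χ_R ≥ 1_{[-R,R]}` with compact support. Enumerate all of them as `φ_i`. Fix `ν > 0`. As in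
  the proof of `conv_of_fdd_of_mod` (see `FC_compare`) choose `R`, `η_j`, `e_j` for the modulus of
  `W`, and by `close` choose `e'_j` such that for `ε < e'_j` the probability that
  `|∫ φ_i dM_t - ∫_{W t}^∞ φ_i| > 1/(j+1)` for some `i ≤ j`, `t ≤ j` is at most `ν 2^{-j-1}`. On the good
  event (complement of all these events with `ε < e_j`, `ε < e'_j`), `|G (M ε) - G (Ψ (W ε))| ≤ ν` for
  `ε < ε₀`: otherwise take a sequence of violations; by `FC_compact` (ultrafilter `U ≤ atTop`)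
  `W → y` locally uniformly along `U`, `y` continuous, so `Ψ W → Ψ y` and `M → Ψ y` (for every `φ_i`,
  hence for every continuous `φ` with compact support, by approximation and the bound for
  `∫ χ_R dM_t`), locally uniformly, and `G (M) - G (Ψ W) → 0` along `U` (extract a sequence as in
  `FC_compare`; identity time changes).
-/

open MeasureTheory ProbabilityTheory Filter Topology
open scoped ENNReal NNReal BoundedContinuousFunction

namespace H40.VM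

open H40.Voter (SkoD ConvInLaw SkoTendsto SkoContinuous MeasD MTendsto MContinuous MConvInLaw
  IsSharp)

/-! ### integrals over half lines -/

/-- the integral of a function over a half line -/
noncomputable def FCm_F (φ : ℝ → ℝ) (w : ℝ) : ℝ := ∫ x in Set.Ioi w, φ x

lemma FCm_lip {φ : ℝ → ℝ} (hφ : Continuous φ) (hs : HasCompactSupport φ) :
    ∃ C : ℝ, 0 ≤ C ∧ ∀ w w' : ℝ, |FCm_F φ w - FCm_F φ w'| ≤ C * |w - w'| := by
  obtain ⟨C, hC⟩ := hs.exists_bound_of_continuous hφ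
  have hC0 : 0 ≤ C := (norm_nonneg _).trans (hC 0)
  have hi : Integrable φ := hφ.integrable_of_hasCompactSupport hs
  refine ⟨C, hC0, fun w w' => ?_⟩
  unfold FCm_F
  rw [intervalIntegral.integral_Ioi_sub_Ioi' hi.integrableOn hi.integrableOn]
  have := intervalIntegral.norm_integral_le_of_norm_le_const (a := w) (b := w') (f := φ)
    (C := C) (fun x _ => hC x)
  rw [Real.norm_eq_abs, abs_sub_comm w' w] at this
  exact this

lemma FCm_unif {φ : ℝ → ℝ} (hφ : Continuous φ) (hs : HasCompactSupport φ) :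
    UniformContinuous (FCm_F φ) := by
  obtain ⟨C, hC0, hC⟩ := FCm_lip hφ hs
  have h : LipschitzWith C.toNNReal (FCm_F φ) := by
    refine LipschitzWith.of_dist_le_mul fun w w' => ?_
    rw [Real.dist_eq, Real.dist_eq, Real.coe_toNNReal _ hC0]
    exact hC w w'
  exact h.uniformContinuous

/-- the path of the restrictions of Lebesgue measure -/
noncomputable def FCm_Psi (x : SkoD) : MeasD :=
  ⟨fun t => (volume : Measure ℝ).restrict (Set.Ioi (x.1 t)), fun t => inferInstance, by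
    intro φ hφ hs t
    have hF : Continuous (FCm_F φ) := (FCm_unif hφ hs).continuous
    obtain ⟨h1, l, hl⟩ := x.2 t
    exact ⟨hF.continuousAt.comp_continuousWithinAt h1, FCm_F φ l, (hF.tendsto l).comp hl⟩⟩

lemma FCm_Psi_apply (x : SkoD) (t : ℝ≥0) (φ : ℝ → ℝ) :
    ∫ z, φ z ∂((FCm_Psi x).1 t) = FCm_F φ (x.1 t) := rfl

lemma FCm_measurable_Psi : Measurable FCm_Psi := by
  refine Measurable.subtype_mk ?_
  refine measurable_pi_iff.2 fun t => ?_
  refine Measure.measurable_of_measurable_coe _ fun s hs => ?_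
  have h : Antitone fun w : ℝ => (volume : Measure ℝ).restrict (Set.Ioi w) s := fun w w' h =>
    Measure.restrict_mono (Set.Ioi_subset_Ioi h) le_rfl s
  exact h.measurable.comp ((measurable_pi_apply t).comp measurable_subtype_coe)

lemma FCm_Psi_tendsto {x : ℕ → SkoD} {y : SkoD} (h : SkoTendsto x y) :
    MTendsto (fun n => FCm_Psi (x n)) (FCm_Psi y) := by
  obtain ⟨lam, h1, h2⟩ := h
  refine ⟨lam, h1, fun φ hφ hs N => ?_⟩
  exact (FCm_unif hφ hs).comp_tendstoUniformlyOn (h2 N)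

/-! ### test functions -/

/-- a cutoff function -/
noncomputable def FCm_chi (r : ℕ) (x : ℝ) : ℝ := max 0 (min 1 ((r : ℝ) + 1 - |x|))

lemma FCm_chi_cont (r : ℕ) : Continuous (FCm_chi r) := by
  unfold FCm_chi
  fun_prop

lemma FCm_chi_nonneg (r : ℕ) (x : ℝ) : 0 ≤ FCm_chi r x := le_max_left _ _

lemma FCm_chi_zero {r : ℕ} {x : ℝ} (h : (r : ℝ) + 1 < |x|) : FCm_chi r x = 0 := by
  unfold FCm_chi
  exact max_eq_left ((min_le_right _ _).trans (by linarith))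

lemma FCm_chi_one {r : ℕ} {x : ℝ} (h : |x| ≤ r) : FCm_chi r x = 1 := by
  unfold FCm_chi
  rw [min_eq_left (by linarith), max_eq_right zero_le_one]

/-- the test functions -/
noncomputable def FCm_tf (r n : ℕ) (x : ℝ) : ℝ :=
  match n with
  | 0 => FCm_chi r x
  | m + 1 => FCm_chi r x * (TopologicalSpace.denseSeq C(ℝ, ℝ) m) x

lemma FCm_tf_cont (r n : ℕ) : Continuous (FCm_tf r n) := by
  cases n with
  | zero => exact FCm_chi_cont r
  | succ m => exact (FCm_chi_cont r).mul (TopologicalSpace.denseSeq C(ℝ, ℝ) m).continuous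

lemma FCm_tf_supp (r n : ℕ) : HasCompactSupport (FCm_tf r n) := by
  refine HasCompactSupport.intro (isCompact_Icc (a := -((r : ℝ) + 1)) (b := (r : ℝ) + 1))
    fun x hx => ?_
  have h : (r : ℝ) + 1 < |x| := by
    by_contra hcon
    exact hx ⟨(abs_le.1 (not_lt.1 hcon)).1, (abs_le.1 (not_lt.1 hcon)).2⟩
  cases n with
  | zero => exact FCm_chi_zero h
  | succ m =>
    change FCm_chi r x * _ = 0
    rw [FCm_chi_zero h, zero_mul]

lemma FCm_approx {φ : ℝ → ℝ} (hφ : Continuous φ) (hs : HasCompactSupport φ) :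
    ∃ r : ℕ, ∀ κ : ℝ, 0 < κ → ∃ n : ℕ, ∀ x, |φ x - FCm_tf r n x| ≤ κ * FCm_tf r 0 x := by
  obtain ⟨R, hR⟩ := hs.isCompact.isBounded.subset_closedBall (0 : ℝ)
  obtain ⟨r, hr⟩ := exists_nat_ge R
  refine ⟨r, fun κ hκ => ?_⟩
  have hmul : ∀ x, φ x = FCm_chi r x * φ x := by
    intro x
    by_cases h : |x| ≤ r
    · rw [FCm_chi_one h, one_mul]
    · have h0 : φ x = 0 := by
        apply image_eq_zero_of_notMem_tsupport
        intro hx
        have := hR hx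
        rw [Metric.mem_closedBall, Real.dist_eq, sub_zero] at this
        exact h (this.trans hr)
      rw [h0, mul_zero]
  have h1 : TendstoUniformlyOn (fun (g : C(ℝ, ℝ)) a => g a) (⟨φ, hφ⟩ : C(ℝ, ℝ))
      (𝓝 (⟨φ, hφ⟩ : C(ℝ, ℝ))) (Set.Icc (-((r : ℝ) + 1)) ((r : ℝ) + 1)) :=
    (ContinuousMap.tendsto_iff_forall_isCompact_tendstoUniformlyOn.1
      (tendsto_id (α := C(ℝ, ℝ)) (x := 𝓝 (⟨φ, hφ⟩ : C(ℝ, ℝ))))) _ isCompact_Icc
  have h2 := Metric.tendstoUniformlyOn_iff.1 h1 κ hκ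
  obtain ⟨m, hm⟩ := (TopologicalSpace.denseRange_denseSeq C(ℝ, ℝ)).mem_nhds h2
  refine ⟨m + 1, fun x => ?_⟩
  change |φ x - FCm_chi r x * (TopologicalSpace.denseSeq C(ℝ, ℝ) m) x| ≤ κ * FCm_chi r x
  have h3 : φ x - FCm_chi r x * (TopologicalSpace.denseSeq C(ℝ, ℝ) m) x =
      FCm_chi r x * (φ x - (TopologicalSpace.denseSeq C(ℝ, ℝ) m) x) := by
    rw [mul_sub, ← hmul x]
  rw [h3, abs_mul, abs_of_nonneg (FCm_chi_nonneg r x), mul_comm]
  by_cases h : (r : ℝ) + 1 < |x|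
  · rw [FCm_chi_zero h, mul_zero, mul_zero]
  · refine mul_le_mul_of_nonneg_right ?_ (FCm_chi_nonneg r x)
    have h4 := hm x ⟨(abs_le.1 (not_lt.1 h)).1, (abs_le.1 (not_lt.1 h)).2⟩
    rw [Real.dist_eq] at h4
    exact h4.le

lemma FCm_int_diff {μ : Measure ℝ} [IsLocallyFiniteMeasure μ] {f g h : ℝ → ℝ}
    (hf : Continuous f) (hfs : HasCompactSupport f) (hg : Continuous g)
    (hgs : HasCompactSupport g) (hh : Continuous h) (hhs : HasCompactSupport h) {κ : ℝ}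
    (hfg : ∀ x, |f x - g x| ≤ κ * h x) :
    |∫ x, f x ∂μ - ∫ x, g x ∂μ| ≤ κ * ∫ x, h x ∂μ := by
  rw [← integral_sub (hf.integrable_of_hasCompactSupport hfs)
    (hg.integrable_of_hasCompactSupport hgs), ← integral_const_mul, ← Real.norm_eq_abs]
  exact norm_integral_le_of_norm_le ((hh.integrable_of_hasCompactSupport hhs).const_mul κ)
    (Eventually.of_forall hfg)

lemma FCm_MT {x : ℕ → SkoD} {w : ℕ → MeasD} {y : SkoD}
    (h1 : ∀ n : ℕ, ∀ t : ℝ≥0, t ≤ n → |y.1 t - (x n).1 t| < 1 / ((n : ℝ) + 1))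
    (h2 : ∀ n : ℕ, ∀ r ≤ n, ∀ m ≤ n, ∀ t : ℝ≥0, t ≤ n →
      |(∫ z, FCm_tf r m z ∂((w n).1 t)) - FCm_F (FCm_tf r m) ((x n).1 t)| ≤
        1 / ((n : ℝ) + 1)) :
    MTendsto w (FCm_Psi y) := by
  refine ⟨fun _ => OrderIso.refl _, ?_, fun φ hφ hs N => ?_⟩
  · intro u hu
    exact Eventually.of_forall fun n s => refl_mem_uniformity hu
  rw [Metric.tendstoUniformlyOn_iff]
  intro κ hκ
  obtain ⟨r, hr⟩ := FCm_approx hφ hs
  obtain ⟨C, hC0, hC⟩ := FCm_lip hφ hs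
  set I : ℝ := ∫ z, FCm_tf r 0 z with hI
  have hti : Integrable (FCm_tf r 0) :=
    (FCm_tf_cont r 0).integrable_of_hasCompactSupport (FCm_tf_supp r 0)
  have ht0 : ∀ z, 0 ≤ FCm_tf r 0 z := fun z => FCm_chi_nonneg r z
  have hI0 : 0 ≤ I := integral_nonneg ht0
  have hFI : ∀ v, FCm_F (FCm_tf r 0) v ≤ I := fun v =>
    setIntegral_le_integral hti (Eventually.of_forall ht0)
  obtain ⟨m, hm⟩ := hr (κ / (4 * (I + 1))) (by positivity)
  obtain ⟨n0, hn0⟩ := exists_nat_gt (max (N : ℝ) (max (4 / κ) (4 * C / κ)))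
  have hn1 : (N : ℝ) < n0 := (le_max_left _ _).trans_lt hn0
  have hn2 : 4 / κ < n0 := ((le_max_left _ _).trans (le_max_right _ _)).trans_lt hn0
  have hn3 : 4 * C / κ < n0 := ((le_max_right _ _).trans (le_max_right _ _)).trans_lt hn0
  rw [div_lt_iff₀ hκ] at hn2 hn3
  filter_upwards [eventually_ge_atTop (max n0 (max r m))] with n hn s hs'
  have hs' : s ≤ N := hs'
  have hn4 : n0 ≤ n := (le_max_left _ _).trans hn
  have hn5 : r ≤ n := ((le_max_left _ _).trans (le_max_right _ _)).trans hn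
  have hn6 : m ≤ n := ((le_max_right _ _).trans (le_max_right _ _)).trans hn
  have hn4' : (n0 : ℝ) ≤ n := by exact_mod_cast hn4
  have hsn : s ≤ (n : ℝ≥0) := by
    have h3 : (s : ℝ) ≤ N := by exact_mod_cast hs'
    have : (s : ℝ) ≤ n := by linarith
    exact_mod_cast this
  have hpos : (0 : ℝ) < (n : ℝ) + 1 := by positivity
  have hq1 : 1 / ((n : ℝ) + 1) < κ / 4 := by
    rw [div_lt_div_iff₀ hpos (by norm_num)]
    nlinarith
  have hq2 : C * (1 / ((n : ℝ) + 1)) < κ / 4 := by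
    rw [mul_one_div, div_lt_div_iff₀ hpos (by norm_num)]
    nlinarith
  have hq3 : 1 / ((n : ℝ) + 1) ≤ 1 := by
    rw [div_le_one hpos]
    have : (0 : ℝ) ≤ n := Nat.cast_nonneg n
    linarith
  have : IsLocallyFiniteMeasure ((w n).1 s) := (w n).2.1 s
  have a1 := FCm_int_diff (μ := (w n).1 s) hφ hs (FCm_tf_cont r m) (FCm_tf_supp r m)
    (FCm_tf_cont r 0) (FCm_tf_supp r 0) hm
  have a2 := h2 n r hn5 m hn6 s hsn
  have a3 := h2 n r hn5 0 (Nat.zero_le _) s hsn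
  have a4 := FCm_int_diff (μ := (volume : Measure ℝ).restrict (Set.Ioi ((x n).1 s))) hφ hs
    (FCm_tf_cont r m) (FCm_tf_supp r m) (FCm_tf_cont r 0) (FCm_tf_supp r 0) hm
  change |FCm_F φ ((x n).1 s) - FCm_F (FCm_tf r m) ((x n).1 s)| ≤
    κ / (4 * (I + 1)) * FCm_F (FCm_tf r 0) ((x n).1 s) at a4
  have a5 := hC (y.1 s) ((x n).1 s)
  have a6 := h1 n s hsn
  have a7 := hFI ((x n).1 s)
  have hκ' : 0 < κ / (4 * (I + 1)) := by positivity
  have b1 : κ / (4 * (I + 1)) * (I + 1) = κ / 4 := by field_simp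
  have b2 : κ / (4 * (I + 1)) * FCm_F (FCm_tf r 0) ((x n).1 s) ≤ κ / 4 := by
    rw [← b1]
    exact mul_le_mul_of_nonneg_left (by linarith) hκ'.le
  have b3 : κ / (4 * (I + 1)) * ∫ z, FCm_tf r 0 z ∂((w n).1 s) ≤ κ / 4 := by
    rw [← b1]
    refine mul_le_mul_of_nonneg_left ?_ hκ'.le
    have := (abs_le.1 a3).2
    linarith
  have b4 : C * |y.1 s - (x n).1 s| < κ / 4 :=
    lt_of_le_of_lt (mul_le_mul_of_nonneg_left a6.le hC0) hq2
  rw [FCm_Psi_apply, OrderIso.refl_apply, Real.dist_eq]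
  rw [abs_le] at a1 a2 a4 a5
  rw [abs_lt]
  constructor <;> linarith [a1.1, a1.2, a2.1, a2.2, a4.1, a4.2, a5.1, a5.2]

/-- the comparison of a measure valued path with the path of restricted Lebesgue measures -/
lemma FCm_compare {G : MeasD → ℝ} (hG : MContinuous G) {R : ℝ} {η e e' : ℕ → ℝ}
    (hη : ∀ j, 0 < η j) (he : ∀ j, 0 < e j) (he' : ∀ j, 0 < e' j) {c : ℝ} (hc : 0 < c) :
    ∃ ε₀ : ℝ, 0 < ε₀ ∧ ∀ ε : ℝ, 0 < ε → ε < ε₀ → ∀ (x : SkoD) (w : MeasD),
      |x.1 0| ≤ R → (∀ j : ℕ, ε < e j → ∀ s t : ℝ≥0, s ≤ j → t ≤ j → |(s : ℝ) - t| ≤ η j →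
        |x.1 s - x.1 t| ≤ 1 / ((j : ℝ) + 1)) →
      (∀ j : ℕ, ε < e' j → ∀ r ≤ j, ∀ m ≤ j, ∀ t : ℝ≥0, t ≤ j →
        |(∫ z, FCm_tf r m z ∂(w.1 t)) - FCm_F (FCm_tf r m) (x.1 t)| ≤ 1 / ((j : ℝ) + 1)) →
      |G w - G (FCm_Psi x)| ≤ c := by
  by_contra hcon
  push Not at hcon
  have hseq : ∀ k : ℕ, ∃ ε : ℝ, 0 < ε ∧ ε < 1 / ((k : ℝ) + 1) ∧ ∃ (x : SkoD) (w : MeasD),
      |x.1 0| ≤ R ∧ (∀ j : ℕ, ε < e j → ∀ s t : ℝ≥0, s ≤ j → t ≤ j → |(s : ℝ) - t| ≤ η j →
        |x.1 s - x.1 t| ≤ 1 / ((j : ℝ) + 1)) ∧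
      (∀ j : ℕ, ε < e' j → ∀ r ≤ j, ∀ m ≤ j, ∀ t : ℝ≥0, t ≤ j →
        |(∫ z, FCm_tf r m z ∂(w.1 t)) - FCm_F (FCm_tf r m) (x.1 t)| ≤ 1 / ((j : ℝ) + 1)) ∧
      c < |G w - G (FCm_Psi x)| := by
    intro k
    obtain ⟨ε, h1, h2, x, w, h4, h5, h6, h7⟩ := hcon (1 / ((k : ℝ) + 1)) (by positivity)
    exact ⟨ε, h1, h2, x, w, h4, h5, h6, h7⟩
  choose ε hε0 hεk x w hx0 hxm hxw hxc using hseq
  obtain ⟨U, hU⟩ : ∃ U : Ultrafilter ℕ, (U : Filter ℕ) ≤ atTop :=
    ⟨Ultrafilter.of atTop, Ultrafilter.of_le atTop⟩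
  have hεlim : Tendsto ε atTop (𝓝 0) :=
    squeeze_zero (fun k => (hε0 k).le) (fun k => (hεk k).le) tendsto_one_div_add_atTop_nhds_zero_nat
  obtain ⟨y, hyc, hy⟩ := FC_compact U hU (x := fun k => (x k).1) hx0 (by
    intro T κ hκ
    obtain ⟨j, hj⟩ := exists_nat_gt (max (T : ℝ) (1 / κ))
    have hj1 : (T : ℝ) < j := (le_max_left _ _).trans_lt hj
    have hj2 : 1 / κ < j := (le_max_right _ _).trans_lt hj
    refine ⟨η j, hη j, ?_⟩
    filter_upwards [hεlim.eventually (gt_mem_nhds (he j))] with k hk s t hs ht hst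
    have hTj : T ≤ (j : ℝ≥0) := by
      have : (T : ℝ) ≤ j := hj1.le
      exact_mod_cast this
    refine (hxm k j hk s t (hs.trans hTj) (ht.trans hTj) hst).trans ?_
    rw [div_le_iff₀ (by positivity)]
    rw [div_lt_iff₀ hκ] at hj2
    nlinarith)
  -- extract a sequence
  have hex : ∀ n : ℕ, ∃ k : ℕ, (∀ t : ℝ≥0, t ≤ n → |y t - (x k).1 t| < 1 / ((n : ℝ) + 1)) ∧
      ε k < e' n := by
    intro n
    have h1 := Metric.tendstoUniformlyOn_iff.1 (hy n) (1 / ((n : ℝ) + 1)) (by positivity)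
    have h2 := hU (hεlim.eventually (gt_mem_nhds (he' n)))
    obtain ⟨k, hk1, hk2⟩ := (h1.and h2).exists
    exact ⟨k, fun t ht => hk1 t ht, hk2⟩
  choose φ hφ1 hφ2 using hex
  have l1 := hG _ _ (FCm_MT (x := fun n => x (φ n)) (w := fun n => w (φ n))
    (y := ⟨y, FC_cadlag hyc⟩) hφ1 (fun n r hr m hm t ht => hxw (φ n) n (hφ2 n) r hr m hm t ht))
  have l2 := hG _ _ (FCm_MT (x := fun n => x (φ n)) (w := fun n => FCm_Psi (x (φ n)))
    (y := ⟨y, FC_cadlag hyc⟩) hφ1 (fun n r hr m hm t ht => by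
      rw [FCm_Psi_apply, sub_self, abs_zero]
      positivity))
  have l3 := (l1.sub l2).abs
  rw [sub_self, abs_zero] at l3
  obtain ⟨n, hn⟩ := (l3.eventually (gt_mem_nhds hc)).exists
  exact absurd hn (not_lt.2 (hxc (φ n)).le)

theorem mconv_of_close {Ω : ℝ → Type} [∀ ε, MeasurableSpace (Ω ε)] {P : ∀ ε, Measure (Ω ε)}
    [∀ ε, IsProbabilityMeasure (P ε)] {W : ∀ ε, Ω ε → SkoD} (hW : ∀ ε, Measurable (W ε))
    {M : ∀ ε, Ω ε → MeasD} (hM : ∀ ε, Measurable (M ε))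
    {Ω' : Type} [MeasurableSpace Ω'] {P' : Measure Ω'} [IsProbabilityMeasure P'] {Z : Ω' → SkoD}
    (hZ : Measurable Z) (hcont : ∀ᵐ ω ∂P', Continuous (Z ω).1) {N : Ω' → MeasD}
    (hN : IsSharp P' Z N)
    (fdd : ∀ (s : Finset ℝ≥0) (g : (s → ℝ) →ᵇ ℝ),
      Tendsto (fun ε : ℝ => ∫ ω, g (fun t => (W ε ω).1 t) ∂(P ε)) (𝓝[>] 0)
        (𝓝 (∫ ω, g (fun t => (Z ω).1 t) ∂P')))
    (mod : ∀ (T : ℝ≥0) (κ δ : ℝ), 0 < κ → 0 < δ → ∃ η : ℝ, 0 < η ∧ ∀ᶠ ε : ℝ in 𝓝[>] 0,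
      P ε {ω | ∃ s t : ℝ≥0, s ≤ T ∧ t ≤ T ∧ |(s : ℝ) - t| ≤ η ∧
        κ < |(W ε ω).1 s - (W ε ω).1 t|} ≤ ENNReal.ofReal δ)
    (close : ∀ φ : ℝ → ℝ, Continuous φ → HasCompactSupport φ → ∀ (T : ℝ≥0) (κ : ℝ), 0 < κ →
      Tendsto (fun ε : ℝ => P ε {ω | ∃ t : ℝ≥0, t ≤ T ∧
        κ < |(∫ x, φ x ∂((M ε ω).1 t)) - ∫ x in Set.Ioi ((W ε ω).1 t), φ x|}) (𝓝[>] 0) (𝓝 0)) :
    MConvInLaw P M P' N := by
  intro G hGm ⟨C, hC⟩ hG
  have hCpos : 0 ≤ C := (abs_nonneg _).trans (hC (FCm_Psi (FC_step 0 0)))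
  have hGi : ∀ {Ω₀ : Type} [MeasurableSpace Ω₀] {μ : Measure Ω₀} [IsProbabilityMeasure μ]
      {V : Ω₀ → MeasD}, Measurable V → Integrable (fun ω => G (V ω)) μ := by
    intro Ω₀ _ μ _ V hV
    refine (integrable_const C).mono' (hGm.comp hV).aestronglyMeasurable
      (Eventually.of_forall fun ω => ?_)
    rw [Real.norm_eq_abs]
    exact hC _
  have hA := conv_of_fdd_of_mod hW hZ hcont fdd mod (fun x => G (FCm_Psi x))
    (hGm.comp FCm_measurable_Psi) ⟨C, fun x => hC _⟩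
    (fun x y hxy => hG _ _ (FCm_Psi_tendsto hxy))
  have hNZ : ∫ ω, G (N ω) ∂P' = ∫ ω, G (FCm_Psi (Z ω)) ∂P' := by
    apply integral_congr_ae
    filter_upwards [hN] with ω hω
    congr 1
    exact Subtype.ext (funext hω)
  rw [hNZ]
  rw [Metric.tendsto_nhds]
  intro κ hκ
  obtain ⟨ν, hν, hνκ⟩ : ∃ ν : ℝ, 0 < ν ∧ 2 * ν + 6 * C * ν < κ := by
    refine ⟨κ / (4 + 8 * C), by positivity, ?_⟩
    have : 2 * (κ / (4 + 8 * C)) + 6 * C * (κ / (4 + 8 * C)) =
        κ * ((2 + 6 * C) / (4 + 8 * C)) := by ring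
    rw [this]
    have h2 : (2 + 6 * C) / (4 + 8 * C) < 1 := by
      rw [div_lt_one (by positivity)]; linarith
    nlinarith
  -- tightness at time zero
  obtain ⟨R, hR⟩ : ∃ R : ℝ, ∀ᶠ ε : ℝ in 𝓝[>] 0,
      P ε {ω | ¬ |(W ε ω).1 0| ≤ R} ≤ ENNReal.ofReal ν := by
    have hlim : Tendsto (fun n : ℕ => ∫ ω, min 1 (max 0 (|(Z ω).1 0| - (n : ℝ))) ∂P') atTop
        (𝓝 (∫ _ω : Ω', (0 : ℝ) ∂P')) := by
      refine tendsto_integral_of_dominated_convergence (fun _ => (1 : ℝ)) (fun n => ?_)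
        (integrable_const 1) (fun n => Eventually.of_forall fun ω => ?_)
        (Eventually.of_forall fun ω => ?_)
      · have h0 : Measurable fun ω => (Z ω).1 0 :=
          (measurable_pi_apply (0 : ℝ≥0)).comp (measurable_subtype_coe.comp hZ)
        exact (measurable_const.min (measurable_const.max
          ((continuous_abs.measurable.comp h0).sub measurable_const))).aestronglyMeasurable
      · rw [Real.norm_eq_abs, abs_of_nonneg (le_min zero_le_one (le_max_left _ _))]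
        exact min_le_left _ _
      · refine tendsto_const_nhds.congr' ?_
        obtain ⟨n0, hn0⟩ := exists_nat_gt |(Z ω).1 0|
        filter_upwards [eventually_ge_atTop n0] with n hn
        have hn' : (n0 : ℝ) ≤ n := by exact_mod_cast hn
        rw [max_eq_left (by linarith), min_eq_right zero_le_one]
    rw [integral_zero] at hlim
    obtain ⟨n, hn⟩ := (hlim.eventually (gt_mem_nhds hν)).exists
    refine ⟨n + 1, ?_⟩
    have h0mem : (0 : ℝ≥0) ∈ ({0} : Finset ℝ≥0) := Finset.mem_singleton_self _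
    have h1 := fdd {0} (BoundedContinuousFunction.ofNormedAddCommGroup
      (fun w : ({0} : Finset ℝ≥0) → ℝ => min 1 (max 0 (|w ⟨0, h0mem⟩| - (n : ℝ)))) (by fun_prop) 1
      (fun w => by
        rw [Real.norm_eq_abs, abs_of_nonneg (le_min zero_le_one (le_max_left _ _))]
        exact min_le_left _ _))
    simp only [BoundedContinuousFunction.coe_ofNormedAddCommGroup] at h1
    filter_upwards [h1.eventually (gt_mem_nhds hn)] with ε hε
    have hmeas0 : Measurable fun ω => (W ε ω).1 0 :=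
      (measurable_pi_apply (0 : ℝ≥0)).comp (measurable_subtype_coe.comp (hW ε))
    have hfi : Integrable (fun ω => min 1 (max 0 (|(W ε ω).1 0| - (n : ℝ)))) (P ε) := by
      refine (integrable_const (1 : ℝ)).mono' (measurable_const.min (measurable_const.max
          ((continuous_abs.measurable.comp hmeas0).sub measurable_const))).aestronglyMeasurable
          (Eventually.of_forall fun ω => ?_)
      rw [Real.norm_eq_abs, abs_of_nonneg (le_min zero_le_one (le_max_left _ _))]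
      exact min_le_left _ _
    have h2 := mul_meas_ge_le_integral_of_nonneg (μ := P ε)
      (f := fun ω => min 1 (max 0 (|(W ε ω).1 0| - (n : ℝ))))
      (Eventually.of_forall fun ω => le_min zero_le_one (le_max_left _ _)) hfi 1
    rw [one_mul] at h2
    have h3 : (P ε).real {ω | 1 ≤ min 1 (max 0 (|(W ε ω).1 0| - (n : ℝ)))} ≤ ν := h2.trans hε.le
    have h4 : P ε {ω | 1 ≤ min 1 (max 0 (|(W ε ω).1 0| - (n : ℝ)))} ≤ ENNReal.ofReal ν := by
      rw [← ENNReal.ofReal_toReal (measure_ne_top (P ε) _)]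
      exact ENNReal.ofReal_le_ofReal h3
    refine (measure_mono ?_).trans h4
    intro ω hω
    have hω : ¬ |(W ε ω).1 0| ≤ (n : ℝ) + 1 := hω
    push Not at hω
    change 1 ≤ min 1 (max 0 (|(W ε ω).1 0| - (n : ℝ)))
    exact le_min le_rfl ((by linarith : (1 : ℝ) ≤ |(W ε ω).1 0| - n).trans (le_max_right _ _))
  -- moduli
  have hm : ∀ j : ℕ, ∃ η e : ℝ, 0 < η ∧ 0 < e ∧ ∀ ε : ℝ, 0 < ε → ε < e →
      P ε {ω | ∃ s t : ℝ≥0, s ≤ (j : ℝ≥0) ∧ t ≤ (j : ℝ≥0) ∧ |(s : ℝ) - t| ≤ η ∧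
        1 / ((j : ℝ) + 1) < |(W ε ω).1 s - (W ε ω).1 t|} ≤ ENNReal.ofReal (ν / 2 ^ (j + 1)) := by
    intro j
    obtain ⟨η, hη, hev⟩ := mod j (1 / ((j : ℝ) + 1)) (ν / 2 ^ (j + 1)) (by positivity)
      (by positivity)
    obtain ⟨e, he, he2⟩ := (mem_nhdsGT_iff_exists_Ioo_subset.1 hev)
    exact ⟨η, e, hη, he, fun ε h1 h2 => he2 ⟨h1, h2⟩⟩
  choose η e hη he hbad using hm
  -- closeness
  have hcl : ∀ j : ℕ, ∃ e' : ℝ, 0 < e' ∧ ∀ ε : ℝ, 0 < ε → ε < e' →
      P ε {ω | ∃ r ≤ j, ∃ m ≤ j, ∃ t : ℝ≥0, t ≤ (j : ℝ≥0) ∧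
        1 / ((j : ℝ) + 1) < |(∫ z, FCm_tf r m z ∂((M ε ω).1 t)) -
          FCm_F (FCm_tf r m) ((W ε ω).1 t)|} ≤ ENNReal.ofReal (ν / 2 ^ (j + 1)) := by
    intro j
    have h1 : Tendsto (fun ε : ℝ => ∑ r ∈ Finset.range (j + 1), ∑ m ∈ Finset.range (j + 1),
        P ε {ω | ∃ t : ℝ≥0, t ≤ (j : ℝ≥0) ∧
        1 / ((j : ℝ) + 1) < |(∫ z, FCm_tf r m z ∂((M ε ω).1 t)) -
          ∫ z in Set.Ioi ((W ε ω).1 t), FCm_tf r m z|}) (𝓝[>] 0)
        (𝓝 (∑ r ∈ Finset.range (j + 1), ∑ m ∈ Finset.range (j + 1), (0 : ℝ≥0∞))) :=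
      tendsto_finsetSum _ fun r _ => tendsto_finsetSum _ fun m _ =>
        close (FCm_tf r m) (FCm_tf_cont r m) (FCm_tf_supp r m) j (1 / ((j : ℝ) + 1))
          (by positivity)
    simp only [Finset.sum_const_zero] at h1
    have h2 := ENNReal.tendsto_nhds_zero.1 h1 (ENNReal.ofReal (ν / 2 ^ (j + 1)))
      (ENNReal.ofReal_pos.2 (by positivity))
    obtain ⟨e', he', he2⟩ := (mem_nhdsGT_iff_exists_Ioo_subset.1 h2)
    refine ⟨e', he', fun ε h3 h4 => ?_⟩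
    have h5 := he2 ⟨h3, h4⟩
    refine le_trans ?_ h5
    refine le_trans (measure_mono ?_) ((measure_biUnion_finset_le _ _).trans
      (Finset.sum_le_sum fun r _ => measure_biUnion_finset_le _ _))
    rintro ω ⟨r, hr, m, hm, t, ht, hlt⟩
    simp only [Set.mem_iUnion, Finset.mem_range]
    exact ⟨r, by omega, m, by omega, t, ht, hlt⟩
  choose e' he' hbad' using hcl
  obtain ⟨ε₀, hε₀, hcmp⟩ := FCm_compare hG (R := R) hη he he' hν
  filter_upwards [hR, Metric.tendsto_nhds.1 hA ν hν, self_mem_nhdsWithin,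
    Ioo_mem_nhdsGT hε₀] with ε hε1 hε2 hε3 hε4
  have hε3 : 0 < ε := hε3
  rw [Real.dist_eq] at hε2 ⊢
  -- the bad event
  set Bad : Set (Ω ε) := {ω | ¬ |(W ε ω).1 0| ≤ R} ∪ ((⋃ j : ℕ, {ω | ε < e j ∧
    ∃ s t : ℝ≥0, s ≤ (j : ℝ≥0) ∧ t ≤ (j : ℝ≥0) ∧ |(s : ℝ) - t| ≤ η j ∧
        1 / ((j : ℝ) + 1) < |(W ε ω).1 s - (W ε ω).1 t|}) ∪ ⋃ j : ℕ, {ω | ε < e' j ∧
      ∃ r ≤ j, ∃ m ≤ j, ∃ t : ℝ≥0, t ≤ (j : ℝ≥0) ∧
        1 / ((j : ℝ) + 1) < |(∫ z, FCm_tf r m z ∂((M ε ω).1 t)) -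
          FCm_F (FCm_tf r m) ((W ε ω).1 t)|}) with hBad
  have hgeo : ∀ A : ℕ → Set (Ω ε), (∀ j, P ε (A j) ≤ ENNReal.ofReal (ν / 2 ^ (j + 1))) →
      P ε (⋃ j, A j) ≤ ENNReal.ofReal ν := by
    intro A hA'
    refine (measure_iUnion_le _).trans ?_
    refine (ENNReal.tsum_le_tsum hA').trans ?_
    have h3 : HasSum (fun j : ℕ => ν / 2 ^ (j + 1)) ν := by
      have := (hasSum_geometric_two' ν)
      refine this.congr_fun fun j => ?_
      rw [pow_succ]; ring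
    rw [← ENNReal.ofReal_tsum_of_nonneg (fun j => by positivity) h3.summable, h3.tsum_eq]
  have hBadP : P ε Bad ≤ ENNReal.ofReal (3 * ν) := by
    refine (measure_union_le _ _).trans ?_
    have h1 : P ε (⋃ j : ℕ, {ω | ε < e j ∧
        ∃ s t : ℝ≥0, s ≤ (j : ℝ≥0) ∧ t ≤ (j : ℝ≥0) ∧ |(s : ℝ) - t| ≤ η j ∧
        1 / ((j : ℝ) + 1) < |(W ε ω).1 s - (W ε ω).1 t|}) ≤ ENNReal.ofReal ν := by
      refine hgeo _ fun j => ?_
      by_cases hj : ε < e j
      · refine (measure_mono ?_).trans (hbad j ε hε3 hj)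
        intro ω hω
        exact hω.2
      · have : {ω | ε < e j ∧
            ∃ s t : ℝ≥0, s ≤ (j : ℝ≥0) ∧ t ≤ (j : ℝ≥0) ∧ |(s : ℝ) - t| ≤ η j ∧
            1 / ((j : ℝ) + 1) < |(W ε ω).1 s - (W ε ω).1 t|} = (∅ : Set (Ω ε)) := by
          ext ω
          simp [hj]
        rw [this, measure_empty]
        exact zero_le
    have h1' : P ε (⋃ j : ℕ, {ω | ε < e' j ∧
        ∃ r ≤ j, ∃ m ≤ j, ∃ t : ℝ≥0, t ≤ (j : ℝ≥0) ∧
        1 / ((j : ℝ) + 1) < |(∫ z, FCm_tf r m z ∂((M ε ω).1 t)) -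
          FCm_F (FCm_tf r m) ((W ε ω).1 t)|}) ≤ ENNReal.ofReal ν := by
      refine hgeo _ fun j => ?_
      by_cases hj : ε < e' j
      · refine (measure_mono ?_).trans (hbad' j ε hε3 hj)
        intro ω hω
        exact hω.2
      · have : {ω | ε < e' j ∧
            ∃ r ≤ j, ∃ m ≤ j, ∃ t : ℝ≥0, t ≤ (j : ℝ≥0) ∧
            1 / ((j : ℝ) + 1) < |(∫ z, FCm_tf r m z ∂((M ε ω).1 t)) -
            FCm_F (FCm_tf r m) ((W ε ω).1 t)|} = (∅ : Set (Ω ε)) := by
          ext ω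
          simp [hj]
        rw [this, measure_empty]
        exact zero_le
    refine (add_le_add hε1 ((measure_union_le _ _).trans (add_le_add h1 h1'))).trans
      (le_of_eq ?_)
    rw [← ENNReal.ofReal_add hν.le hν.le, ← ENNReal.ofReal_add hν.le (by positivity)]
    congr 1
    ring
  have hgood : ∀ ω, ω ∉ Bad → |G (M ε ω) - G (FCm_Psi (W ε ω))| ≤ ν := by
    intro ω hω
    rw [hBad, Set.mem_union, not_or, Set.mem_union, not_or, Set.mem_iUnion, not_exists,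
      Set.mem_iUnion, not_exists] at hω
    obtain ⟨hω1, hω2, hω3⟩ := hω
    refine hcmp ε hε3 hε4.2 (W ε ω) (M ε ω) (by simpa using hω1) ?_ ?_
    · intro j hj s t hs ht hst
      by_contra hc
      exact hω2 j ⟨hj, s, t, hs, ht, hst, not_le.1 hc⟩
    · intro j hj r hr m hm t ht
      by_contra hc
      exact hω3 j ⟨hj, r, hr, m, hm, t, ht, not_le.1 hc⟩
  have hmain : |∫ ω, G (M ε ω) ∂(P ε) - ∫ ω, G (FCm_Psi (W ε ω)) ∂(P ε)| ≤
      ν + 2 * C * (3 * ν) := by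
    have hsub := integral_sub (μ := P ε) (hGi (hM ε)) (hGi (FCm_measurable_Psi.comp (hW ε)))
    simp only [Function.comp_apply] at hsub
    rw [← hsub]
    set B : Set (Ω ε) := toMeasurable (P ε) Bad with hBdef
    have hBm : MeasurableSet B := measurableSet_toMeasurable _ _
    have hBP : P ε B ≤ ENNReal.ofReal (3 * ν) := by rw [hBdef, measure_toMeasurable]; exact hBadP
    have hint : Integrable (fun ω => ν + B.indicator (fun _ => 2 * C) ω) (P ε) :=
      (integrable_const ν).add ((integrable_const (2 * C)).indicator hBm)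
    rw [← Real.norm_eq_abs]
    refine (norm_integral_le_of_norm_le hint (Eventually.of_forall fun ω => ?_)).trans ?_
    · rw [Real.norm_eq_abs]
      by_cases hω : ω ∈ B
      · rw [Set.indicator_of_mem hω]
        have h1 := hC (M ε ω)
        have h2 := hC (FCm_Psi (W ε ω))
        rw [abs_le] at h1 h2 ⊢
        constructor <;> linarith [h1.1, h1.2, h2.1, h2.2]
      · rw [Set.indicator_of_notMem hω, add_zero]
        exact hgood ω fun h => hω (subset_toMeasurable _ _ h)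
    · rw [integral_add (integrable_const ν) ((integrable_const (2 * C)).indicator hBm),
        integral_indicator_const _ hBm]
      simp only [integral_const, probReal_univ, one_smul, smul_eq_mul]
      have : (P ε).real B ≤ 3 * ν := by
        unfold Measure.real
        exact ENNReal.toReal_le_of_le_ofReal (by positivity) hBP
      nlinarith
  rw [abs_lt] at hε2
  rw [abs_le] at hmain
  rw [abs_lt]
  constructor <;> linarith [hε2.1, hε2.2, hmain.1, hmain.2]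

end H40.VM
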