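import Pool.Agent.H40.Voter.SkorDefs

/-!
# Module JF: two Skorokhod continuous functionals

`jump_functional`: `G x = inf_n sup {φ(s) min (1, |x s - x r|) : |s - r| < 1/(n+1)}` with
`φ(t) = max 0 (min 1 (T + 1 - t))`; by right continuity the supremum may be taken over a countable
dense set of `s`, `r` (measurability). Continuity: `|λ s - λ r|` is small for close `s`, `r`
(uniform continuity of `λ` on compacts), and the terms for `(s, r)` and `(λ s, λ r)` are close.
`sup_functional`: `G x = sup_t max 0 (1 - t/r) min (1, |x t|)`.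
`zero_functional`: `x ↦ min 1 |x 0|` (time changes fix `0`).
-/

open MeasureTheory ProbabilityTheory Filter Topology
open scoped ENNReal NNReal

namespace H40.VM

open H40.Voter (SkoD SkoContinuous)

namespace JF

/-- truncated absolute value -/
noncomputable def h (v : ℝ) : ℝ := min 1 |v|

lemma h_nonneg (v : ℝ) : 0 ≤ h v := le_min zero_le_one (abs_nonneg v)
lemma h_le_one (v : ℝ) : h v ≤ 1 := min_le_left _ _
lemma h_le_abs (v : ℝ) : h v ≤ |v| := min_le_right _ _

lemma h_lip (a b : ℝ) : h a ≤ h b + |a - b| := by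
  unfold h
  have h1 : |a| ≤ |b| + |a - b| := by
    have := abs_add_le b (a - b)
    rwa [add_sub_cancel] at this
  have h2 : 0 ≤ |a - b| := abs_nonneg _
  rcases le_total 1 |b| with h3 | h3
  · rw [min_eq_left h3]
    exact (min_le_left _ _).trans (by linarith)
  · rw [min_eq_right h3]
    exact (min_le_right _ _).trans h1

lemma continuous_h : Continuous h := by
  unfold h; fun_prop

/-- a weight function: values in `[0, 1]`, Lipschitz, zero beyond `N` -/
structure IsW (g : ℝ≥0 → ℝ) (L : ℝ) (N : ℝ≥0) : Prop where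
  nonneg : ∀ t, 0 ≤ g t
  le_one : ∀ t, g t ≤ 1
  lip : ∀ s t : ℝ≥0, g s ≤ g t + L * |(s : ℝ) - t|
  zero : ∀ t, N ≤ t → g t = 0
  cont : Continuous g

lemma IsW.phi (T : ℝ≥0) : IsW (fun t => max 0 (min 1 ((T : ℝ) + 1 - t))) 1 (T + 1) where
  nonneg t := le_max_left _ _
  le_one t := max_le zero_le_one (min_le_left _ _)
  lip s t := by
    have h1 : (t : ℝ) - s ≤ |(s : ℝ) - t| := by rw [abs_sub_comm]; exact le_abs_self _
    have h0 : 0 ≤ |(s : ℝ) - t| := abs_nonneg _
    apply max_le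
    · have := le_max_left 0 (min 1 ((T : ℝ) + 1 - t))
      linarith
    · rcases le_total 1 ((T : ℝ) + 1 - t) with h3 | h3
      · have := le_max_right 0 (min 1 ((T : ℝ) + 1 - t))
        rw [min_eq_left h3] at this
        have h4 := min_le_left 1 ((T : ℝ) + 1 - s)
        rw [min_eq_left h3]
        linarith
      · have := le_max_right 0 (min 1 ((T : ℝ) + 1 - t))
        rw [min_eq_right h3] at this
        have h4 := min_le_right 1 ((T : ℝ) + 1 - s)
        rw [min_eq_right h3]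
        linarith
  zero t ht := by
    have h1 : ((T + 1 : ℝ≥0) : ℝ) ≤ t := by exact_mod_cast ht
    push_cast at h1
    have h2 := min_le_right 1 ((T : ℝ) + 1 - t)
    exact max_eq_left (by linarith)
  cont := by fun_prop

lemma IsW.lin {r : ℝ≥0} (hr : 0 < r) : IsW (fun t => max 0 (1 - (t : ℝ) / r)) (1 / r) r where
  nonneg t := le_max_left _ _
  le_one t := max_le zero_le_one (by
    have : 0 ≤ (t : ℝ) / r := by positivity
    linarith)
  lip s t := by
    have hr' : (0 : ℝ) < r := by exact_mod_cast hr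
    have h1 : (t : ℝ) - s ≤ |(s : ℝ) - t| := by rw [abs_sub_comm]; exact le_abs_self _
    have h2 : ((t : ℝ) - s) / r ≤ 1 / r * |(s : ℝ) - t| := by
      rw [div_mul_eq_mul_div, one_mul]
      exact div_le_div_of_nonneg_right h1 hr'.le
    have h0 : 0 ≤ 1 / r * |(s : ℝ) - t| := by positivity
    apply max_le
    · have := le_max_left 0 (1 - (t : ℝ) / r)
      linarith
    · have := le_max_right 0 (1 - (t : ℝ) / r)
      rw [sub_div] at h2
      linarith
  zero t ht := by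
    have hr' : (0 : ℝ) < r := by exact_mod_cast hr
    have h1 : (r : ℝ) ≤ t := by exact_mod_cast ht
    have h2 : 1 ≤ (t : ℝ) / r := by rwa [one_le_div hr']
    exact max_eq_left (by linarith)
  cont := by fun_prop

lemma sko_cont (G : SkoD → ℝ) (hG : ∀ (y : SkoD) (e : ℝ), 0 < e → ∃ η > 0, ∃ N : ℝ≥0,
    ∀ (x : SkoD) (l : ℝ≥0 ≃o ℝ≥0), (∀ s, |(l s : ℝ) - s| ≤ η) →
      (∀ s ≤ N, |x.1 (l s) - y.1 s| ≤ η) → |G x - G y| ≤ e) : SkoContinuous G := by
  intro x y hxy
  obtain ⟨lam, h1, h2⟩ := hxy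
  rw [Metric.tendsto_atTop]
  intro e he
  obtain ⟨η, hη, N, hN⟩ := hG y (e / 2) (by linarith)
  have e1 := Metric.tendstoUniformly_iff.1 h1 η hη
  have e2 := Metric.tendstoUniformlyOn_iff.1 (h2 N) η hη
  obtain ⟨M, hM⟩ := eventually_atTop.1 (e1.and e2)
  refine ⟨M, fun n hn => ?_⟩
  obtain ⟨a1, a2⟩ := hM n hn
  have := hN (x n) (lam n) (fun s => ?_) (fun s hs => ?_)
  · rw [Real.dist_eq]; linarith
  · have := a1 s
    rw [dist_comm, NNReal.dist_eq] at this
    exact this.le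
  · have := a2 s hs
    rw [dist_comm, Real.dist_eq] at this
    exact this.le

lemma term_le {g : ℝ≥0 → ℝ} {L : ℝ} {N : ℝ≥0} (hg : IsW g L N) (hL : 0 ≤ L) {s t : ℝ≥0} {u v η : ℝ}
    (h1 : |(s : ℝ) - t| ≤ η) (h2 : t < N → |u - v| ≤ η) (hη : 0 ≤ η) :
    g s * h u ≤ g t * h v + (L + 1) * η := by
  have a1 := hg.lip s t
  have a2 : L * |(s : ℝ) - t| ≤ L * η := mul_le_mul_of_nonneg_left h1 hL
  have a3 : g s * h u ≤ g t * h u + L * η := by
    calc g s * h u ≤ (g t + L * η) * h u :=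
          mul_le_mul_of_nonneg_right (by linarith) (h_nonneg u)
      _ = g t * h u + L * η * h u := by ring
      _ ≤ g t * h u + L * η := by
          have : L * η * h u ≤ L * η * 1 :=
            mul_le_mul_of_nonneg_left (h_le_one u) (by positivity)
          linarith
  rcases lt_or_ge t N with h3 | h3
  · have b1 := h_lip u v
    have b2 : g t * h u ≤ g t * h v + η := by
      calc g t * h u ≤ g t * (h v + η) :=
            mul_le_mul_of_nonneg_left (by linarith [h2 h3]) (hg.nonneg t)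
        _ = g t * h v + g t * η := by ring
        _ ≤ g t * h v + η := by
            have : g t * η ≤ 1 * η := mul_le_mul_of_nonneg_right (hg.le_one t) hη
            linarith
    linarith
  · rw [hg.zero t h3, zero_mul] at a3 ⊢
    linarith

lemma term_ge {g : ℝ≥0 → ℝ} {L : ℝ} {N : ℝ≥0} (hg : IsW g L N) (hL : 0 ≤ L) {s t : ℝ≥0} {u v η : ℝ}
    (h1 : |(s : ℝ) - t| ≤ η) (h2 : t < N → |u - v| ≤ η) (hη : 0 ≤ η) :
    g t * h v ≤ g s * h u + (L + 1) * η := by
  have a1 := hg.lip t s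
  rw [abs_sub_comm] at a1
  have a2 : L * |(s : ℝ) - t| ≤ L * η := mul_le_mul_of_nonneg_left h1 hL
  rcases lt_or_ge t N with h3 | h3
  · have b1 := h_lip v u
    rw [abs_sub_comm] at b1
    have b2 : g t * h v ≤ g t * h u + η := by
      calc g t * h v ≤ g t * (h u + η) :=
            mul_le_mul_of_nonneg_left (by linarith [h2 h3]) (hg.nonneg t)
        _ = g t * h u + g t * η := by ring
        _ ≤ g t * h u + η := by
            have : g t * η ≤ 1 * η := mul_le_mul_of_nonneg_right (hg.le_one t) hη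
            linarith
    have b3 : g t * h u ≤ g s * h u + L * η := by
      calc g t * h u ≤ (g s + L * η) * h u :=
            mul_le_mul_of_nonneg_right (by linarith) (h_nonneg u)
        _ = g s * h u + L * η * h u := by ring
        _ ≤ g s * h u + L * η := by
            have : L * η * h u ≤ L * η * 1 :=
              mul_le_mul_of_nonneg_left (h_le_one u) (by positivity)
            linarith
    linarith
  · rw [hg.zero t h3, zero_mul]
    have := mul_nonneg (hg.nonneg s) (h_nonneg u)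
    positivity

lemma measurable_ev (t : ℝ≥0) : Measurable (fun x : SkoD => x.1 t) := by
  have : Measurable (fun x : {x : ℝ≥0 → ℝ // H40.Voter.Cadlag x} => x.1 t) :=
    (measurable_pi_apply t).comp measurable_subtype_coe
  exact this

/-! ### the supremum functional -/

/-- the weighted supremum -/
noncomputable def S (g : ℝ≥0 → ℝ) (x : ℝ≥0 → ℝ) : ℝ := ⨆ t : ℝ≥0, g t * h (x t)

lemma S_bdd {g : ℝ≥0 → ℝ} {L : ℝ} {N : ℝ≥0} (hg : IsW g L N) (x : ℝ≥0 → ℝ) :
    BddAbove (Set.range fun t : ℝ≥0 => g t * h (x t)) := by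
  refine ⟨1, ?_⟩
  rintro _ ⟨t, rfl⟩
  exact mul_le_one₀ (hg.le_one t) (h_nonneg _) (h_le_one _)

lemma exists_seq_right (s : ℝ≥0) : ∃ u : ℕ → ℕ,
    Tendsto (fun n => TopologicalSpace.denseSeq ℝ≥0 (u n)) atTop (𝓝[>] s) := by
  have hD : Dense (Set.range (TopologicalSpace.denseSeq ℝ≥0)) :=
    TopologicalSpace.denseRange_denseSeq ℝ≥0
  obtain ⟨u, -, h1, h2⟩ := Dense.exists_seq_strictAnti_tendsto hD s
  choose v hv using fun n => (h1 n).2
  refine ⟨v, ?_⟩
  simp only [hv]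
  exact tendsto_nhdsWithin_iff.2 ⟨h2, Eventually.of_forall fun n => (h1 n).1⟩

lemma S_eq {g : ℝ≥0 → ℝ} {L : ℝ} {N : ℝ≥0} (hg : IsW g L N) {x : ℝ≥0 → ℝ}
    (hx : ∀ t, ContinuousWithinAt x (Set.Ici t) t) :
    S g x = ⨆ i : ℕ, g (TopologicalSpace.denseSeq ℝ≥0 i) * h (x (TopologicalSpace.denseSeq ℝ≥0 i)) := by
  set d := TopologicalSpace.denseSeq ℝ≥0 with hd
  have hb : BddAbove (Set.range fun i : ℕ => g (d i) * h (x (d i))) := by
    refine ⟨1, ?_⟩
    rintro _ ⟨t, rfl⟩
    exact mul_le_one₀ (hg.le_one _) (h_nonneg _) (h_le_one _)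
  apply le_antisymm
  · apply ciSup_le
    intro t
    obtain ⟨u, hu⟩ := exists_seq_right t
    have h1 : Tendsto (fun n => g (d (u n)) * h (x (d (u n)))) atTop (𝓝 (g t * h (x t))) := by
      apply Tendsto.mul
      · exact (hg.cont.tendsto t).comp (hu.mono_right nhdsWithin_le_nhds)
      · apply (continuous_h.tendsto (x t)).comp
        exact ((hx t).mono_left (nhdsWithin_mono _ Set.Ioi_subset_Ici_self)).comp hu
    exact le_of_tendsto h1 (Eventually.of_forall fun n => le_ciSup hb (u n))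
  · apply ciSup_le
    intro i
    exact le_ciSup (S_bdd hg x) (d i)

/-! ### the jump functional -/

/-- terms -/
noncomputable def tm (g : ℝ≥0 → ℝ) (δ : ℝ) (x : ℝ≥0 → ℝ) (p : ℝ≥0 × ℝ≥0) : ℝ :=
  if |(p.1 : ℝ) - p.2| < δ then g p.1 * h (x p.1 - x p.2) else 0

lemma tm_nonneg {g : ℝ≥0 → ℝ} {L : ℝ} {N : ℝ≥0} (hg : IsW g L N) (δ : ℝ) (x : ℝ≥0 → ℝ)
    (p : ℝ≥0 × ℝ≥0) : 0 ≤ tm g δ x p := by
  unfold tm
  split_ifs
  · exact mul_nonneg (hg.nonneg _) (h_nonneg _)
  · exact le_rfl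

lemma tm_le_one {g : ℝ≥0 → ℝ} {L : ℝ} {N : ℝ≥0} (hg : IsW g L N) (δ : ℝ) (x : ℝ≥0 → ℝ)
    (p : ℝ≥0 × ℝ≥0) : tm g δ x p ≤ 1 := by
  unfold tm
  split_ifs
  · exact mul_le_one₀ (hg.le_one _) (h_nonneg _) (h_le_one _)
  · exact zero_le_one

/-- modulus -/
noncomputable def W (g : ℝ≥0 → ℝ) (δ : ℝ) (x : ℝ≥0 → ℝ) : ℝ := ⨆ p : ℝ≥0 × ℝ≥0, tm g δ x p

lemma W_bdd {g : ℝ≥0 → ℝ} {L : ℝ} {N : ℝ≥0} (hg : IsW g L N) (δ : ℝ) (x : ℝ≥0 → ℝ) :
    BddAbove (Set.range (tm g δ x)) := ⟨1, by rintro _ ⟨t, rfl⟩; exact tm_le_one hg δ x t⟩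

lemma W_nonneg {g : ℝ≥0 → ℝ} {L : ℝ} {N : ℝ≥0} (hg : IsW g L N) (δ : ℝ) (x : ℝ≥0 → ℝ) :
    0 ≤ W g δ x := Real.iSup_nonneg fun p => tm_nonneg hg δ x p

lemma W_le_one {g : ℝ≥0 → ℝ} {L : ℝ} {N : ℝ≥0} (hg : IsW g L N) (δ : ℝ) (x : ℝ≥0 → ℝ) :
    W g δ x ≤ 1 := ciSup_le fun p => tm_le_one hg δ x p

lemma W_eq {g : ℝ≥0 → ℝ} {L : ℝ} {N : ℝ≥0} (hg : IsW g L N) (δ : ℝ) {x : ℝ≥0 → ℝ}
    (hx : ∀ t, ContinuousWithinAt x (Set.Ici t) t) :
    W g δ x = ⨆ p : ℕ × ℕ, tm g δ x (TopologicalSpace.denseSeq ℝ≥0 p.1,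
      TopologicalSpace.denseSeq ℝ≥0 p.2) := by
  set d := TopologicalSpace.denseSeq ℝ≥0 with hd
  have hb : BddAbove (Set.range fun p : ℕ × ℕ => tm g δ x (d p.1, d p.2)) :=
    ⟨1, by rintro _ ⟨t, rfl⟩; exact tm_le_one hg δ x _⟩
  apply le_antisymm
  · apply ciSup_le
    rintro ⟨s, t⟩
    obtain ⟨u, hu⟩ := exists_seq_right s
    obtain ⟨v, hv⟩ := exists_seq_right t
    by_cases hst : |(s : ℝ) - t| < δ
    · have h1 : Tendsto (fun n => g (d (u n)) * h (x (d (u n)) - x (d (v n)))) atTop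
          (𝓝 (g s * h (x s - x t))) := by
        apply Tendsto.mul
        · exact (hg.cont.tendsto s).comp (hu.mono_right nhdsWithin_le_nhds)
        · apply (continuous_h.tendsto (x s - x t)).comp
          exact (((hx s).mono_left (nhdsWithin_mono _ Set.Ioi_subset_Ici_self)).comp hu).sub
            (((hx t).mono_left (nhdsWithin_mono _ Set.Ioi_subset_Ici_self)).comp hv)
      have h2 : Tendsto (fun n => |((d (u n) : ℝ≥0) : ℝ) - (d (v n) : ℝ≥0)|) atTop
          (𝓝 |(s : ℝ) - t|) := by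
        apply Tendsto.abs
        apply Tendsto.sub
        · exact (NNReal.continuous_coe.tendsto s).comp (hu.mono_right nhdsWithin_le_nhds)
        · exact (NNReal.continuous_coe.tendsto t).comp (hv.mono_right nhdsWithin_le_nhds)
      have h3 : tm g δ x (s, t) = g s * h (x s - x t) := by
        unfold tm; rw [if_pos hst]
      rw [h3]
      apply le_of_tendsto h1
      filter_upwards [h2.eventually (gt_mem_nhds hst)] with n hn
      have h4 : tm g δ x (d (u n), d (v n)) = g (d (u n)) * h (x (d (u n)) - x (d (v n))) := by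
        unfold tm; rw [if_pos hn]
      rw [← h4]
      exact le_ciSup hb (u n, v n)
    · have h3 : tm g δ x (s, t) = 0 := by
        unfold tm; rw [if_neg hst]
      rw [h3]
      exact Real.iSup_nonneg fun p => tm_nonneg hg δ x _
  · apply ciSup_le
    intro p
    exact le_ciSup (W_bdd hg δ x) (d p.1, d p.2)

/-- the jump functional -/
noncomputable def J (g : ℝ≥0 → ℝ) (x : ℝ≥0 → ℝ) : ℝ := ⨅ n : ℕ, W g (1 / ((n : ℝ) + 1)) x

lemma J_le {g : ℝ≥0 → ℝ} {L : ℝ} {N : ℝ≥0} (hg : IsW g L N) (x : ℝ≥0 → ℝ) (n : ℕ) :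
    J g x ≤ W g (1 / ((n : ℝ) + 1)) x :=
  ciInf_le ⟨0, by rintro _ ⟨m, rfl⟩; exact W_nonneg hg _ x⟩ n

lemma W_mono {g : ℝ≥0 → ℝ} {L : ℝ} {N : ℝ≥0} (hg : IsW g L N) {δ δ' : ℝ} (hδ : δ ≤ δ')
    (x : ℝ≥0 → ℝ) : W g δ x ≤ W g δ' x := by
  apply ciSup_le
  intro p
  by_cases h1 : |(p.1 : ℝ) - p.2| < δ
  · have h2 : tm g δ x p = tm g δ' x p := by
      unfold tm; rw [if_pos h1, if_pos (h1.trans_le hδ)]
    rw [h2]
    exact le_ciSup (W_bdd hg δ' x) p
  · have h3 : tm g δ x p = 0 := by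
      unfold tm; rw [if_neg h1]
    rw [h3]
    exact W_nonneg hg δ' x

lemma J_le_W {g : ℝ≥0 → ℝ} {L : ℝ} {N : ℝ≥0} (hg : IsW g L N) (x : ℝ≥0 → ℝ) {δ : ℝ} (hδ : 0 < δ) :
    J g x ≤ W g δ x := by
  obtain ⟨n, hn⟩ := exists_nat_one_div_lt hδ
  exact (J_le hg x n).trans (W_mono hg hn.le x)

lemma J_nonneg {g : ℝ≥0 → ℝ} {L : ℝ} {N : ℝ≥0} (hg : IsW g L N) (x : ℝ≥0 → ℝ) : 0 ≤ J g x :=
  Real.iInf_nonneg fun n => W_nonneg hg _ x

lemma le_J {g : ℝ≥0 → ℝ} {x : ℝ≥0 → ℝ} {c : ℝ} (h : ∀ δ : ℝ, 0 < δ → c ≤ W g δ x) :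
    c ≤ J g x := le_ciInf fun _ => h _ (by positivity)

/-- comparison of the moduli -/
lemma W_le_of {g : ℝ≥0 → ℝ} {N : ℝ≥0} (hg : IsW g 1 N) {x y : ℝ≥0 → ℝ} (l : ℝ≥0 ≃o ℝ≥0)
    {η δ δ' : ℝ} (hη : 0 ≤ η) (hδ : δ ≤ 1) (h1 : ∀ s, |(l s : ℝ) - s| ≤ η)
    (h2 : ∀ s ≤ N + 1, |x (l s) - y s| ≤ η) (h3 : δ' + 2 * η ≤ δ) :
    W g δ' x ≤ W g δ y + 4 * η := by
  apply ciSup_le
  rintro ⟨s', t'⟩
  obtain ⟨s, rfl⟩ := l.surjective s'
  obtain ⟨t, rfl⟩ := l.surjective t'
  have hW := W_nonneg hg δ y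
  by_cases h4 : |((l s : ℝ≥0) : ℝ) - (l t : ℝ≥0)| < δ'
  · have h5 : |(s : ℝ) - t| < δ := by
      have a1 := h1 s
      have a2 := h1 t
      rw [abs_le] at a1 a2
      rw [abs_lt] at h4 ⊢
      constructor <;> linarith [a1.1, a1.2, a2.1, a2.2, h4.1, h4.2]
    have h6 : tm g δ' x (l s, l t) = g (l s) * h (x (l s) - x (l t)) := by
      unfold tm; rw [if_pos h4]
    have h7 : tm g δ y (s, t) = g s * h (y s - y t) := by
      unfold tm; rw [if_pos h5]
    have h8 := le_ciSup (W_bdd hg δ y) (s, t)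
    rw [h7] at h8
    rw [h6]
    have h9 := term_le hg zero_le_one (s := l s) (t := s) (u := x (l s) - x (l t))
      (v := y s - y t) (η := 2 * η) ((h1 s).trans (by linarith)) (fun hs => ?_) (by linarith)
    · change _ ≤ W g δ y at h8
      linarith
    · have hs1 : s ≤ N + 1 := hs.le.trans (le_add_of_nonneg_right zero_le_one)
      have ht1 : t ≤ N + 1 := by
        rw [abs_lt] at h5
        have h10 : (s : ℝ) < N := by exact_mod_cast hs
        have h11 : (t : ℝ) ≤ N + 1 := by linarith [h5.1]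
        exact_mod_cast h11
      have b1 := h2 s hs1
      have b2 := h2 t ht1
      rw [abs_le] at b1 b2 ⊢
      constructor <;> linarith [b1.1, b1.2, b2.1, b2.2]
  · have h6 : tm g δ' x (l s, l t) = 0 := by
      unfold tm; rw [if_neg h4]
    rw [h6]
    linarith

lemma le_W_of {g : ℝ≥0 → ℝ} {N : ℝ≥0} (hg : IsW g 1 N) {x y : ℝ≥0 → ℝ} (l : ℝ≥0 ≃o ℝ≥0)
    {η δ : ℝ} (hη : 0 ≤ η) (hδ : 0 < δ) (h1 : ∀ s, |(l s : ℝ) - s| ≤ η)
    (h2 : ∀ s ≤ N + 1, |x (l s) - y s| ≤ η) :
    J g y ≤ W g δ x + 4 * η := by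
  -- uniform continuity of `l` on `[0, N + 1]`
  have hl : Continuous l := l.continuous
  have huc : UniformContinuousOn l (Set.Icc 0 (N + 1)) :=
    isCompact_Icc.uniformContinuousOn_of_continuous hl.continuousOn
  obtain ⟨δ₁, hδ₁, h3⟩ := Metric.uniformContinuousOn_iff.1 huc δ hδ
  refine (J_le_W hg y (lt_min hδ₁ zero_lt_one : 0 < min δ₁ 1)).trans ?_
  apply ciSup_le
  rintro ⟨s, t⟩
  have hW := W_nonneg hg δ x
  by_cases h4 : |(s : ℝ) - t| < min δ₁ 1
  · have h7 : tm g (min δ₁ 1) y (s, t) = g s * h (y s - y t) := by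
      unfold tm; rw [if_pos h4]
    rw [h7]
    rcases lt_or_ge s N with hs | hs
    · have hs1 : s ≤ N + 1 := hs.le.trans (le_add_of_nonneg_right zero_le_one)
      have ht1 : t ≤ N + 1 := by
        have h5 := h4.trans_le (min_le_right _ _)
        rw [abs_lt] at h5
        have h10 : (s : ℝ) < N := by exact_mod_cast hs
        have h11 : (t : ℝ) ≤ N + 1 := by linarith [h5.1]
        exact_mod_cast h11
      have h5 : |((l s : ℝ≥0) : ℝ) - (l t : ℝ≥0)| < δ := by
        have := h3 s ⟨bot_le, hs1⟩ t ⟨bot_le, ht1⟩ (by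
          rw [NNReal.dist_eq]; exact h4.trans_le (min_le_left _ _))
        rwa [NNReal.dist_eq] at this
      have h6 : tm g δ x (l s, l t) = g (l s) * h (x (l s) - x (l t)) := by
        unfold tm; rw [if_pos h5]
      have h8 := le_ciSup (W_bdd hg δ x) (l s, l t)
      rw [h6] at h8
      have h9 := term_ge hg zero_le_one (s := l s) (t := s) (u := x (l s) - x (l t))
        (v := y s - y t) (η := 2 * η) ((h1 s).trans (by linarith)) (fun _ => ?_) (by linarith)
      · change _ ≤ W g δ x at h8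
        linarith
      · have b1 := h2 s hs1
        have b2 := h2 t ht1
        rw [abs_le] at b1 b2 ⊢
        constructor <;> linarith [b1.1, b1.2, b2.1, b2.2]
    · rw [hg.zero s hs, zero_mul]
      linarith
  · have h6 : tm g (min δ₁ 1) y (s, t) = 0 := by
      unfold tm; rw [if_neg h4]
    rw [h6]
    linarith

end JF

open JF

theorem jump_functional (T : ℝ≥0) : ∃ G : SkoD → ℝ, Measurable G ∧ (∀ x, 0 ≤ G x ∧ G x ≤ 1) ∧
    SkoContinuous G ∧ (∀ x : SkoD, Continuous x.1 → G x = 0) ∧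
    ∀ (x : SkoD) (t : ℝ≥0) (l : ℝ), 0 < t → t ≤ T → Tendsto x.1 (𝓝[<] t) (𝓝 l) →
      min 1 |x.1 t - l| ≤ G x := by
  set g : ℝ≥0 → ℝ := fun t => max 0 (min 1 ((T : ℝ) + 1 - t)) with hgdef
  have hg : IsW g 1 (T + 1) := IsW.phi T
  refine ⟨fun x => J g x.1, ?_, fun x => ⟨J_nonneg hg x.1, ?_⟩, ?_, ?_, ?_⟩
  · -- measurability
    have h1 : (fun x : SkoD => J g x.1) = fun x : SkoD => ⨅ n : ℕ, ⨆ p : ℕ × ℕ,
        tm g (1 / ((n : ℝ) + 1)) x.1 (TopologicalSpace.denseSeq ℝ≥0 p.1,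
          TopologicalSpace.denseSeq ℝ≥0 p.2) := by
      funext x
      unfold J
      congr 1
      funext n
      exact W_eq hg _ (fun t => (x.2 t).1)
    rw [h1]
    apply Measurable.iInf
    intro n
    apply Measurable.iSup
    intro p
    unfold tm
    by_cases h2 : |((TopologicalSpace.denseSeq ℝ≥0 p.1 : ℝ≥0) : ℝ)
        - (TopologicalSpace.denseSeq ℝ≥0 p.2 : ℝ≥0)| < 1 / ((n : ℝ) + 1)
    · simp only [if_pos h2]
      exact (continuous_h.measurable.comp ((measurable_ev _).sub (measurable_ev _))).const_mul _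
    · simp only [if_neg h2]
      exact measurable_const
  · exact (J_le_W hg x.1 one_pos).trans (W_le_one hg 1 x.1)
  · -- continuity
    apply sko_cont
    intro y e he
    -- choose `δ` with `W δ y ≤ J y + e/2`
    obtain ⟨n, hn⟩ : ∃ n : ℕ, W g (1 / ((n : ℝ) + 1)) y.1 < J g y.1 + e / 2 :=
      exists_lt_of_ciInf_lt (show (⨅ n : ℕ, W g (1 / ((n : ℝ) + 1)) y.1) < J g y.1 + e / 2 by
        change J g y.1 < _; linarith)
    set δ : ℝ := 1 / ((n : ℝ) + 1) with hδ
    have hδ0 : 0 < δ := by positivity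
    have hδ1 : δ ≤ 1 := by
      rw [hδ, div_le_one (by positivity)]
      have : (0 : ℝ) ≤ n := n.cast_nonneg
      linarith
    refine ⟨min (e / 8) (δ / 4), lt_min (by linarith) (by linarith), T + 1 + 1, ?_⟩
    intro x l h1 h2
    set η := min (e / 8) (δ / 4) with hη
    have hη0 : 0 < η := lt_min (by linarith) (by linarith)
    have hη1 : η ≤ e / 8 := min_le_left _ _
    have hη2 : η ≤ δ / 4 := min_le_right _ _
    have a1 : J g x.1 ≤ J g y.1 + e := by
      have := W_le_of hg l hη0.le hδ1 h1 h2 (show δ / 2 + 2 * η ≤ δ by linarith)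
      have b1 := J_le_W hg x.1 (half_pos hδ0)
      linarith
    have a2 : J g y.1 ≤ J g x.1 + e := by
      have : J g y.1 - 4 * η ≤ J g x.1 := by
        apply le_J
        intro δ' hδ'
        have := le_W_of hg l hη0.le hδ' h1 h2
        linarith
      linarith
    change |J g x.1 - J g y.1| ≤ e
    rw [abs_le]
    constructor <;> linarith
  · -- continuous paths
    intro x hx
    apply le_antisymm _ (J_nonneg hg x.1)
    apply le_of_forall_pos_le_add
    intro e he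
    rw [zero_add]
    have huc : UniformContinuousOn x.1 (Set.Icc 0 (T + 1 + 1)) :=
      isCompact_Icc.uniformContinuousOn_of_continuous hx.continuousOn
    obtain ⟨δ₁, hδ₁, h3⟩ := Metric.uniformContinuousOn_iff.1 huc e he
    refine (J_le_W hg x.1 (lt_min hδ₁ zero_lt_one : 0 < min δ₁ 1)).trans ?_
    apply ciSup_le
    rintro ⟨s, t⟩
    by_cases h4 : |(s : ℝ) - t| < min δ₁ 1
    · have h7 : tm g (min δ₁ 1) x.1 (s, t) = g s * h (x.1 s - x.1 t) := by
        unfold tm; rw [if_pos h4]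
      rw [h7]
      rcases lt_or_ge s (T + 1) with hs | hs
      · have hs1 : s ≤ T + 1 + 1 := hs.le.trans (le_add_of_nonneg_right zero_le_one)
        have ht1 : t ≤ T + 1 + 1 := by
          have h5 := h4.trans_le (min_le_right _ _)
          rw [abs_lt] at h5
          have h10 : (s : ℝ) < ((T + 1 : ℝ≥0) : ℝ) := by exact_mod_cast hs
          have h11 : (t : ℝ) ≤ ((T + 1 : ℝ≥0) : ℝ) + 1 := by linarith [h5.1]
          exact_mod_cast h11
        have h5 : |x.1 s - x.1 t| < e := by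
          have := h3 s ⟨bot_le, hs1⟩ t ⟨bot_le, ht1⟩ (by
            rw [NNReal.dist_eq]; exact h4.trans_le (min_le_left _ _))
          rwa [Real.dist_eq] at this
        calc g s * h (x.1 s - x.1 t) ≤ 1 * |x.1 s - x.1 t| :=
              mul_le_mul (hg.le_one s) (h_le_abs _) (h_nonneg _) zero_le_one
          _ ≤ e := by linarith
      · rw [hg.zero s hs, zero_mul]
        exact he.le
    · have h6 : tm g (min δ₁ 1) x.1 (s, t) = 0 := by
        unfold tm; rw [if_neg h4]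
      rw [h6]
      exact he.le
  · -- jumps
    intro x t l ht0 ht1 hl
    apply le_J
    intro δ hδ
    have hgt : g t = 1 := by
      have h1 : (t : ℝ) ≤ T := by exact_mod_cast ht1
      simp only [hgdef]
      rw [min_eq_left (by linarith), max_eq_right zero_le_one]
    have hne : (𝓝[<] t).NeBot := nhdsLT_neBot_of_exists_lt ⟨0, ht0⟩
    have h1 : Tendsto (fun r => h (x.1 t - x.1 r)) (𝓝[<] t) (𝓝 (h (x.1 t - l))) :=
      (continuous_h.tendsto _).comp (tendsto_const_nhds.sub hl)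
    apply le_of_tendsto h1
    have h2 : ∀ᶠ r : ℝ≥0 in 𝓝 t, |(t : ℝ) - r| < δ := by
      have : ∀ᶠ r : ℝ≥0 in 𝓝 t, dist r t < δ := Metric.ball_mem_nhds t hδ
      filter_upwards [this] with r hr
      rw [NNReal.dist_eq, abs_sub_comm] at hr
      exact hr
    filter_upwards [nhdsWithin_le_nhds h2] with r hr
    have h4 : tm g δ x.1 (t, r) = h (x.1 t - x.1 r) := by
      unfold tm; rw [if_pos hr, hgt, one_mul]
    rw [← h4]
    exact le_ciSup (W_bdd hg δ x.1) (t, r)

theorem sup_functional (r : ℝ≥0) (hr : 0 < r) : ∃ G : SkoD → ℝ, Measurable G ∧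
    (∀ x, 0 ≤ G x ∧ G x ≤ 1) ∧ SkoContinuous G ∧
    (∀ (x : SkoD) (t : ℝ≥0), (1 - (t : ℝ) / r) * min 1 |x.1 t| ≤ G x) ∧
    ∀ (x : SkoD) (c : ℝ), 0 ≤ c → (∀ t ≤ r, |x.1 t| ≤ c) → G x ≤ c := by
  set g : ℝ≥0 → ℝ := fun t => max 0 (1 - (t : ℝ) / r) with hgdef
  have hg : IsW g (1 / r) r := IsW.lin hr
  have hL : (0 : ℝ) ≤ 1 / r := by positivity
  refine ⟨fun x => S g x.1, ?_, fun x => ⟨?_, ?_⟩, ?_, ?_, ?_⟩
  · have h1 : (fun x : SkoD => S g x.1) = fun x : SkoD => ⨆ i : ℕ,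
        g (TopologicalSpace.denseSeq ℝ≥0 i) * h (x.1 (TopologicalSpace.denseSeq ℝ≥0 i)) := by
      funext x
      exact S_eq hg (fun t => (x.2 t).1)
    rw [h1]
    apply Measurable.iSup
    intro i
    exact (continuous_h.measurable.comp (measurable_ev _)).const_mul _
  · exact Real.iSup_nonneg fun t => mul_nonneg (hg.nonneg t) (h_nonneg _)
  · exact ciSup_le fun t => mul_le_one₀ (hg.le_one t) (h_nonneg _) (h_le_one _)
  · apply sko_cont
    intro y e he
    refine ⟨e / (1 / (r : ℝ) + 1), by positivity, r, ?_⟩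
    intro x l h1 h2
    have hη : (1 / (r : ℝ) + 1) * (e / (1 / (r : ℝ) + 1)) = e := by
      field_simp
    have hη0 : 0 ≤ e / (1 / (r : ℝ) + 1) := by positivity
    change |S g x.1 - S g y.1| ≤ e
    rw [abs_le]
    constructor
    · have : S g y.1 ≤ S g x.1 + e := by
        apply ciSup_le
        intro s
        have h3 := term_ge hg hL (s := l s) (t := s) (u := x.1 (l s)) (v := y.1 s) (h1 s)
          (fun hs => h2 s hs.le) hη0
        rw [hη] at h3
        have h4 := le_ciSup (S_bdd hg x.1) (l s)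
        change _ ≤ S g x.1 at h4
        linarith
      linarith
    · have : S g x.1 ≤ S g y.1 + e := by
        apply ciSup_le
        intro s'
        obtain ⟨s, rfl⟩ := l.surjective s'
        have h3 := term_le hg hL (s := l s) (t := s) (u := x.1 (l s)) (v := y.1 s) (h1 s)
          (fun hs => h2 s hs.le) hη0
        rw [hη] at h3
        have h4 := le_ciSup (S_bdd hg y.1) s
        change _ ≤ S g y.1 at h4
        linarith
      linarith
  · intro x t
    refine le_trans ?_ (le_ciSup (S_bdd hg x.1) t)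
    exact mul_le_mul_of_nonneg_right (le_max_right _ _) (h_nonneg (x.1 t))
  · intro x c hc hx
    apply ciSup_le
    intro t
    rcases lt_or_ge t r with h1 | h1
    · calc g t * h (x.1 t) ≤ 1 * c :=
            mul_le_mul (hg.le_one t) ((h_le_abs _).trans (hx t h1.le)) (h_nonneg _) zero_le_one
        _ = c := one_mul c
    · rw [hg.zero t h1, zero_mul]
      exact hc

theorem zero_functional : Measurable (fun x : SkoD => min 1 |x.1 0|) ∧
    SkoContinuous (fun x : SkoD => min 1 |x.1 0|) := by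
  constructor
  · exact continuous_h.measurable.comp (measurable_ev 0)
  · apply sko_cont
    intro y e he
    refine ⟨e, he, 0, ?_⟩
    intro x l _ h2
    have h3 := h2 0 le_rfl
    have h4 : l 0 = 0 := by
      have := l.map_bot
      simpa using this
    rw [h4] at h3
    have a1 := h_lip (x.1 0) (y.1 0)
    have a2 := h_lip (y.1 0) (x.1 0)
    rw [abs_sub_comm] at a2
    change |h (x.1 0) - h (y.1 0)| ≤ e
    rw [abs_le]
    constructor <;> linarith

end H40.VM
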