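import Pool.Agent.H40.VM.TRa

/-!
# Module TRb: moments of the likelihood ratio, contiguity

One jump: with `p = (tot + mn) / (2 tot)` the probability that the centre goes up (`rate_up`),
`E lr = 1`, `E lr² = 1 + ε² p (1-p) / (1 - ε p)² ≤ 1 + ε²` and
`E lr⁻¹ = 1 + ε² p (1-p) / (1 - ε) ≤ 1 + ε²` for `0 ≤ ε ≤ 1/2`. Induction on `n` with the first step
decomposition (or conditioning on the first `n` coordinates, `lintegral_split`). Then
Cauchy-Schwarz (`ENNReal.lintegral_mul_le_Lp_mul_Lq` with exponents 2, 2) and `transfer`.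
-/

open MeasureTheory ProbabilityTheory Filter Topology
open scoped ENNReal NNReal unitInterval symmDiff

namespace H40.VM

open H40.Voter (IsKernel IsVoterChain)

variable {a : ℤ → ℝ}

/-- the probability that the centre goes up -/
noncomputable def trbp (a : ℤ → ℝ) (m : St) : ℝ := (tot a true m + mn a) / 2 / tot a true m

lemma trb_sum_up (hk : IsKernel a) (m : St) :
    Summable fun j : ℤ => if cf true m j then rt a true m j else 0 :=
  Summable.of_nonneg_of_le (fun j => by split_ifs <;> [exact rt_nonneg hk true m j; exact le_rfl])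
    (fun j => by split_ifs <;> [exact le_rfl; exact rt_nonneg hk true m j]) (summable_rt hk true m)

lemma trb_sum_down (hk : IsKernel a) (m : St) :
    Summable fun j : ℤ => if cf true m j then 0 else rt a true m j :=
  Summable.of_nonneg_of_le (fun j => by split_ifs <;> [exact le_rfl; exact rt_nonneg hk true m j])
    (fun j => by split_ifs <;> [exact rt_nonneg hk true m j; exact le_rfl]) (summable_rt hk true m)

lemma trb_rate_down (hk : IsKernel a) (m : St) :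
    ∑' j : ℤ, (if cf true m j then 0 else rt a true m j) =
      tot a true m - (tot a true m + mn a) / 2 := by
  have hs := summable_rt hk true m
  rw [← rate_up hk m]
  unfold tot
  rw [← hs.tsum_sub (trb_sum_up hk m)]
  refine tsum_congr fun j => ?_
  split_ifs <;> ring

lemma trbp_mem (hk : IsKernel a) (m : St) : 0 ≤ trbp a m ∧ trbp a m ≤ 1 := by
  have ht := tot_true_pos hk m
  have h1 : 0 ≤ (tot a true m + mn a) / 2 := by
    rw [← rate_up hk m]
    refine tsum_nonneg fun j => ?_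
    split_ifs <;> [exact rt_nonneg hk true m j; exact le_rfl]
  have h2 : 0 ≤ tot a true m - (tot a true m + mn a) / 2 := by
    rw [← trb_rate_down hk m]
    refine tsum_nonneg fun j => ?_
    split_ifs <;> [exact le_rfl; exact rt_nonneg hk true m j]
  unfold trbp
  constructor
  · positivity
  · rw [div_le_one ht]
    linarith

lemma trb_qe (hk : IsKernel a) (ε : ℝ) (m : St) :
    qe a ε m = tot a true m * (1 - ε * trbp a m) := by
  have ht := tot_true_pos hk m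
  unfold qe trbp
  field_simp

lemma trb_step (hk : IsKernel a) (m : St) (A B : ℝ≥0∞) :
    ∫⁻ u, (if cc ((vc a true).Φ m u) < cc m then A else B) =
      ENNReal.ofReal (1 - trbp a m) * A + ENNReal.ofReal (trbp a m) * B := by
  have ht := tot_true_pos hk m
  rw [lintegral_Φ hk ht (fun x => if cc x < cc m then A else B)]
  have e : ∀ j : ℤ, ENNReal.ofReal (rt a true m j / tot a true m) *
      (if cc (fl m j) < cc m then A else B) =
      ENNReal.ofReal ((if cf true m j then 0 else rt a true m j) / tot a true m) * A +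
      ENNReal.ofReal ((if cf true m j then rt a true m j else 0) / tot a true m) * B := by
    intro j
    rw [cc_fl]
    by_cases h : cf true m j = true
    · rw [if_pos h, if_pos h, if_pos h, if_neg (by omega)]
      simp
    · rw [if_neg h, if_neg h, if_neg h, if_pos (by omega)]
      simp
  rw [tsum_congr e, ENNReal.tsum_add, ENNReal.tsum_mul_right, ENNReal.tsum_mul_right]
  have e1 : ∑' j : ℤ, ENNReal.ofReal ((if cf true m j then rt a true m j else 0) / tot a true m)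
      = ENNReal.ofReal (trbp a m) := by
    rw [← ENNReal.ofReal_tsum_of_nonneg (fun j => by
      refine div_nonneg ?_ ht.le
      split_ifs <;> [exact rt_nonneg hk true m j; exact le_rfl])
      ((trb_sum_up hk m).div_const _), tsum_div_const, rate_up hk m]
    rfl
  have e2 : ∑' j : ℤ, ENNReal.ofReal ((if cf true m j then 0 else rt a true m j) / tot a true m)
      = ENNReal.ofReal (1 - trbp a m) := by
    rw [← ENNReal.ofReal_tsum_of_nonneg (fun j => by
      refine div_nonneg ?_ ht.le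
      split_ifs <;> [exact le_rfl; exact rt_nonneg hk true m j])
      ((trb_sum_down hk m).div_const _), tsum_div_const, trb_rate_down hk m]
    congr 1
    unfold trbp
    field_simp
  rw [e1, e2]

lemma trb_lr (hk : IsKernel a) (ε : ℝ) (m m' : St) :
    lr a ε m m' = if cc m' < cc m then 1 / (1 - ε * trbp a m) else
      (1 - ε) / (1 - ε * trbp a m) := by
  have ht := tot_true_pos hk m
  unfold lr
  rw [trb_qe hk]
  split_ifs
  · rw [one_mul, one_div, div_mul_eq_div_div, div_self ht.ne', one_div]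
  · rw [mul_comm (1 - ε), mul_div_mul_left _ _ ht.ne']

lemma trb_den (hk : IsKernel a) {ε : ℝ} (h0 : 0 ≤ ε) (h1 : ε ≤ 1 / 2) (m : St) :
    1 / 2 ≤ 1 - ε * trbp a m := by
  obtain ⟨h2, h3⟩ := trbp_mem hk m
  nlinarith

lemma lr_pos (hk : IsKernel a) {ε : ℝ} (h0 : 0 ≤ ε) (h1 : ε ≤ 1 / 2) (m m' : St) :
    0 < lr a ε m m' := by
  have h2 := trb_den hk h0 h1 m
  have h3 : 0 < 1 - ε := by linarith
  have h4 : 0 < 1 - ε * trbp a m := by linarith
  rw [trb_lr hk]
  split_ifs <;> positivity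

/-- product of a function of the successive states -/
noncomputable def trbP (a : ℤ → ℝ) (h : St → St → ℝ≥0∞) (n : ℕ) (x : St) (ω : Om) : ℝ≥0∞ :=
  ∏ k ∈ Finset.range n, h ((vc a true).Y k x ω) ((vc a true).Y (k + 1) x ω)

lemma trbP_meas (h : St → St → ℝ≥0∞) (n : ℕ) (x : St) : Measurable fun ω => trbP a h n x ω := by
  unfold trbP
  refine Finset.measurable_prod _ fun k _ => ?_
  have h1 : Measurable fun p : St × St => h p.1 p.2 := measurable_of_countable _
  exact h1.comp (((vc a true).measurable_Yx k x).prodMk ((vc a true).measurable_Yx (k + 1) x))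

lemma trbP_cons (h : St → St → ℝ≥0∞) (n : ℕ) (x : St) (u : unitInterval) (e : ℝ≥0) (ω : Om) :
    trbP a h (n + 1) x (cons (u, e) ω) =
      h x ((vc a true).Φ x u) * trbP a h n ((vc a true).Φ x u) ω := by
  unfold trbP
  rw [Finset.prod_range_succ', mul_comm]
  rfl

lemma trbP_lintegral (h : St → St → ℝ≥0∞) (n : ℕ) (x : St) :
    ∫⁻ ω, trbP a h (n + 1) x ω ∂Pr =
      ∫⁻ u : unitInterval, h x ((vc a true).Φ x u) *
        ∫⁻ ω, trbP a h n ((vc a true).Φ x u) ω ∂Pr := by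
  rw [lintegral_cons' (trbP_meas h (n + 1) x)]
  have h1 : ∀ (e : ℝ≥0) (u : unitInterval), ∫⁻ ω, trbP a h (n + 1) x (cons (u, e) ω) ∂Pr =
      h x ((vc a true).Φ x u) * ∫⁻ ω, trbP a h n ((vc a true).Φ x u) ω ∂Pr := by
    intro e u
    simp only [trbP_cons]
    rw [lintegral_const_mul _ (trbP_meas h n _)]
  simp only [h1, lintegral_const, measure_univ, mul_one]

lemma trbP_le {h : St → St → ℝ≥0∞} {c : ℝ≥0∞}
    (hc : ∀ x, ∫⁻ u, h x ((vc a true).Φ x u) ≤ c) (n : ℕ) (x : St) :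
    ∫⁻ ω, trbP a h n x ω ∂Pr ≤ c ^ n := by
  induction n generalizing x with
  | zero => simp [trbP]
  | succ n ih =>
    rw [trbP_lintegral]
    calc ∫⁻ u : unitInterval, h x ((vc a true).Φ x u) *
          ∫⁻ ω, trbP a h n ((vc a true).Φ x u) ω ∂Pr
        ≤ ∫⁻ u : unitInterval, h x ((vc a true).Φ x u) * c ^ n :=
          lintegral_mono fun u => mul_le_mul_right (ih _) _
      _ = (∫⁻ u : unitInterval, h x ((vc a true).Φ x u)) * c ^ n :=
          lintegral_mul_const _ ((measurable_of_countable (h x)).comp ((vc a true).meas x))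
      _ ≤ c * c ^ n := by
          gcongr
          exact hc x
      _ = c ^ (n + 1) := by rw [pow_succ']

lemma trbP_one {h : St → St → ℝ≥0∞}
    (hc : ∀ x, ∫⁻ u, h x ((vc a true).Φ x u) = 1) (n : ℕ) (x : St) :
    ∫⁻ ω, trbP a h n x ω ∂Pr = 1 := by
  induction n generalizing x with
  | zero => simp [trbP]
  | succ n ih =>
    rw [trbP_lintegral]
    simp only [ih, mul_one, hc]

lemma trb_ofReal (hk : IsKernel a) {ε : ℝ} (h0 : 0 ≤ ε) (h1 : ε ≤ 1 / 2) (n : ℕ) (ω : Om) :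
    ENNReal.ofReal (LRn a ε n ω) = trbP a (fun m m' => ENNReal.ofReal (lr a ε m m')) n ∅ ω := by
  unfold LRn trbP
  rw [ENNReal.ofReal_prod_of_nonneg fun k _ => (lr_pos hk h0 h1 _ _).le]

lemma LRn_pos (hk : IsKernel a) {ε : ℝ} (h0 : 0 ≤ ε) (h1 : ε ≤ 1 / 2) (n : ℕ) (ω : Om) :
    0 < LRn a ε n ω :=
  Finset.prod_pos fun _ _ => lr_pos hk h0 h1 _ _

lemma measurable_LRn (ε : ℝ) (n : ℕ) : Measurable fun ω => LRn a ε n ω := by
  unfold LRn
  refine Finset.measurable_prod _ fun k _ => ?_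
  have h1 : Measurable fun p : St × St => lr a ε p.1 p.2 := measurable_of_countable _
  have h2 : Measurable fun ω => ((vc a true).Y k ∅ ω, (vc a true).Y (k + 1) ∅ ω) :=
    ((vc a true).measurable_Yx k ∅).prodMk ((vc a true).measurable_Yx (k + 1) ∅)
  exact Measurable.comp (g := fun p : St × St => lr a ε p.1 p.2)
    (f := fun ω => ((vc a true).Y k ∅ ω, (vc a true).Y (k + 1) ∅ ω)) h1 h2

/-- the expectation of a function of the likelihood ratio of one jump -/
lemma trb_step_lr (hk : IsKernel a) {ε : ℝ} (m : St) {φ : ℝ → ℝ}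
    (h2 : 0 ≤ φ (1 / (1 - ε * trbp a m))) (h3 : 0 ≤ φ ((1 - ε) / (1 - ε * trbp a m))) :
    ∫⁻ u, ENNReal.ofReal (φ (lr a ε m ((vc a true).Φ m u))) =
      ENNReal.ofReal ((1 - trbp a m) * φ (1 / (1 - ε * trbp a m)) +
        trbp a m * φ ((1 - ε) / (1 - ε * trbp a m))) := by
  obtain ⟨hp0, hp1⟩ := trbp_mem hk m
  have e : ∀ u, ENNReal.ofReal (φ (lr a ε m ((vc a true).Φ m u))) =
      if cc ((vc a true).Φ m u) < cc m then
        ENNReal.ofReal (φ (1 / (1 - ε * trbp a m))) else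
        ENNReal.ofReal (φ ((1 - ε) / (1 - ε * trbp a m))) := by
    intro u
    rw [trb_lr hk]
    split_ifs <;> rfl
  simp only [e]
  have hq0 : 0 ≤ 1 - trbp a m := by linarith
  rw [trb_step hk, ← ENNReal.ofReal_mul hq0, ← ENNReal.ofReal_mul hp0,
    ← ENNReal.ofReal_add (mul_nonneg hq0 h2) (mul_nonneg hp0 h3)]

theorem LR_one (hk : IsKernel a) {ε : ℝ} (h0 : 0 ≤ ε) (h1 : ε ≤ 1 / 2) (n : ℕ) :
    ∫⁻ ω, ENNReal.ofReal (LRn a ε n ω) ∂Pr = 1 := by
  simp only [trb_ofReal hk h0 h1]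
  refine trbP_one (fun x => ?_) n ∅
  have hd := trb_den hk h0 h1 x
  have hd' : 0 < 1 - ε * trbp a x := by linarith
  have he : 0 ≤ 1 - ε := by linarith
  have h2 := trb_step_lr hk (ε := ε) x (φ := fun y => y) (by positivity) (by positivity)
  rw [h2, ← ENNReal.ofReal_one]
  congr 1
  have hne : 1 - ε * trbp a x ≠ 0 := hd'.ne'
  rw [show (1 - trbp a x) * (1 / (1 - ε * trbp a x)) + trbp a x *
    ((1 - ε) / (1 - ε * trbp a x)) = (1 - ε * trbp a x) / (1 - ε * trbp a x) by ring]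
  exact div_self hne

theorem LR_sq (hk : IsKernel a) {ε : ℝ} (h0 : 0 ≤ ε) (h1 : ε ≤ 1 / 2) (n : ℕ) :
    ∫⁻ ω, ENNReal.ofReal (LRn a ε n ω) ^ 2 ∂Pr ≤ ENNReal.ofReal ((1 + ε ^ 2) ^ n) := by
  have e : ∀ ω, ENNReal.ofReal (LRn a ε n ω) ^ 2 =
      trbP a (fun m m' => ENNReal.ofReal (lr a ε m m' ^ 2)) n ∅ ω := by
    intro ω
    rw [trb_ofReal hk h0 h1]
    unfold trbP
    rw [← Finset.prod_pow]
    refine Finset.prod_congr rfl fun k _ => ?_
    exact (ENNReal.ofReal_pow (lr_pos hk h0 h1 _ _).le 2).symm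
  simp only [e]
  rw [ENNReal.ofReal_pow (by positivity)]
  refine trbP_le (fun x => ?_) n ∅
  have hd := trb_den hk h0 h1 x
  have hd' : 0 < 1 - ε * trbp a x := by linarith
  obtain ⟨hp0, hp1⟩ := trbp_mem hk x
  have h2 := trb_step_lr hk (ε := ε) x (φ := fun y => y ^ 2) (by positivity) (by positivity)
  rw [h2]
  refine ENNReal.ofReal_le_ofReal ?_
  have h3 : (1 - trbp a x) * (1 / (1 - ε * trbp a x)) ^ 2 +
      trbp a x * ((1 - ε) / (1 - ε * trbp a x)) ^ 2 =
      1 + ε ^ 2 * (trbp a x * (1 - trbp a x) / (1 - ε * trbp a x) ^ 2) := by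
    have hne : 1 - ε * trbp a x ≠ 0 := hd'.ne'
    obtain ⟨d, hd2⟩ : ∃ d, d = 1 - ε * trbp a x := ⟨_, rfl⟩
    rw [← hd2] at hne ⊢
    field_simp
    rw [hd2]
    ring
  rw [h3]
  have h4 : trbp a x * (1 - trbp a x) / (1 - ε * trbp a x) ^ 2 ≤ 1 := by
    rw [div_le_one (by positivity)]
    nlinarith [sq_nonneg (trbp a x - 1 / 2)]
  have h5 : 0 ≤ ε ^ 2 := sq_nonneg ε
  nlinarith

theorem LR_inv (hk : IsKernel a) {ε : ℝ} (h0 : 0 ≤ ε) (h1 : ε ≤ 1 / 2) (n : ℕ) :
    ∫⁻ ω, (ENNReal.ofReal (LRn a ε n ω))⁻¹ ∂Pr ≤ ENNReal.ofReal ((1 + ε ^ 2) ^ n) := by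
  have e : ∀ ω, (ENNReal.ofReal (LRn a ε n ω))⁻¹ =
      trbP a (fun m m' => ENNReal.ofReal ((lr a ε m m')⁻¹)) n ∅ ω := by
    intro ω
    rw [← ENNReal.ofReal_inv_of_pos (LRn_pos hk h0 h1 n ω)]
    unfold trbP LRn
    rw [← Finset.prod_inv_distrib,
      ENNReal.ofReal_prod_of_nonneg fun k _ => (inv_pos.2 (lr_pos hk h0 h1 _ _)).le]
  simp only [e]
  rw [ENNReal.ofReal_pow (by positivity)]
  refine trbP_le (fun x => ?_) n ∅
  have hd := trb_den hk h0 h1 x
  have hd' : 0 < 1 - ε * trbp a x := by linarith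
  have he : 0 < 1 - ε := by linarith
  obtain ⟨hp0, hp1⟩ := trbp_mem hk x
  have h2 := trb_step_lr hk (ε := ε) x (φ := fun y => y⁻¹) (by positivity) (by positivity)
  rw [h2]
  refine ENNReal.ofReal_le_ofReal ?_
  have h3 : (1 - trbp a x) * (1 / (1 - ε * trbp a x))⁻¹ +
      trbp a x * ((1 - ε) / (1 - ε * trbp a x))⁻¹ =
      1 + ε ^ 2 * (trbp a x * (1 - trbp a x) / (1 - ε)) := by
    field_simp
    ring
  rw [h3]
  have h4 : trbp a x * (1 - trbp a x) / (1 - ε) ≤ 1 := by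
    rw [div_le_one he]
    nlinarith [sq_nonneg (trbp a x - 1 / 2)]
  have h5 : 0 ≤ ε ^ 2 := sq_nonneg ε
  nlinarith

lemma trb_sqrt {c : ℝ} (hc : 0 ≤ c) : ENNReal.ofReal c ^ (1 / 2 : ℝ) = ENNReal.ofReal (√c) := by
  rw [ENNReal.ofReal_rpow_of_nonneg hc (by norm_num), Real.sqrt_eq_rpow]

/-- Cauchy-Schwarz -/
lemma trb_cs {f g : Om → ℝ≥0∞} (hf : Measurable f) (hg : Measurable g) :
    ∫⁻ ω, f ω * g ω ∂Pr ≤
      (∫⁻ ω, f ω ^ 2 ∂Pr) ^ (1 / 2 : ℝ) * (∫⁻ ω, g ω ^ 2 ∂Pr) ^ (1 / 2 : ℝ) := by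
  have h := ENNReal.lintegral_mul_le_Lp_mul_Lq Pr (p := 2) (q := 2)
    Real.HolderConjugate.two_two hf.aemeasurable hg.aemeasurable
  have e : ∀ f : Om → ℝ≥0∞, ∫⁻ ω, f ω ^ (2 : ℝ) ∂Pr = ∫⁻ ω, f ω ^ 2 ∂Pr := by
    intro f
    refine lintegral_congr fun ω => ?_
    rw [← ENNReal.rpow_natCast]
    norm_num
  rw [e, e] at h
  exact h

variable {Ω : Type*} [MeasurableSpace Ω] {P : Measure Ω} {ε : ℝ} {Z : ℕ → Ω → ℤ → Bool}
  {ξ : ℕ → Ω → ℝ}

lemma trb_P_eq (hk : IsKernel a) [IsProbabilityMeasure P] (h0 : 0 ≤ ε) (h1 : ε ≤ 1 / 2)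
    (hZ : IsVoterChain P a ε Z ξ) (n : ℕ) {S : Set ((ℕ → St) × (ℕ → ℝ))}
    (hS : MeasurableSet S) :
    P (abs' Z ξ n ⁻¹' S) =
      ∫⁻ ω, ENNReal.ofReal (LRn a ε n ω) * (can a n ⁻¹' S).indicator 1 ω ∂Pr := by
  have h2 := transfer hk h0 (by linarith) hZ n (F := S.indicator 1)
    ((measurable_indicator_const_iff 1).2 hS)
  have h3 : ∫⁻ ω, S.indicator 1 (abs' Z ξ n ω) ∂P = P (abs' Z ξ n ⁻¹' S) := by
    rw [← lintegral_indicator_one ((measurable_abs' hZ n) hS)]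
    rfl
  rw [← h3, h2]
  rfl

/-- contiguity: probabilities under bias `ε` are controlled by probabilities without bias -/
theorem P_le (hk : IsKernel a) [IsProbabilityMeasure P] (h0 : 0 ≤ ε) (h1 : ε ≤ 1 / 2)
    (hZ : IsVoterChain P a ε Z ξ) (n : ℕ) {S : Set ((ℕ → St) × (ℕ → ℝ))}
    (hS : MeasurableSet S) :
    P (abs' Z ξ n ⁻¹' S) ≤
      ENNReal.ofReal (√((1 + ε ^ 2) ^ n)) * (Pr (can a n ⁻¹' S)) ^ (1 / 2 : ℝ) := by
  have hS' : MeasurableSet (can a n ⁻¹' S) := (measurable_can n) hS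
  rw [trb_P_eq hk h0 h1 hZ n hS]
  refine (trb_cs (measurable_LRn ε n).ennreal_ofReal
    (measurable_one.indicator hS')).trans ?_
  have h3 : ∫⁻ ω, ((can a n ⁻¹' S).indicator (1 : Om → ℝ≥0∞) ω) ^ 2 ∂Pr =
      Pr (can a n ⁻¹' S) := by
    rw [← lintegral_indicator_one hS']
    refine lintegral_congr fun ω => ?_
    by_cases h : ω ∈ can a n ⁻¹' S
    · rw [Set.indicator_of_mem h]
      simp
    · rw [Set.indicator_of_notMem h]
      simp
  rw [h3, ← trb_sqrt (by positivity)]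
  gcongr
  exact LR_sq hk h0 h1 n

/-- reverse contiguity -/
theorem Pr_le (hk : IsKernel a) [IsProbabilityMeasure P] (h0 : 0 ≤ ε) (h1 : ε ≤ 1 / 2)
    (hZ : IsVoterChain P a ε Z ξ) (n : ℕ) {S : Set ((ℕ → St) × (ℕ → ℝ))}
    (hS : MeasurableSet S) :
    Pr (can a n ⁻¹' S) ≤
      ENNReal.ofReal (√((1 + ε ^ 2) ^ n)) * (P (abs' Z ξ n ⁻¹' S)) ^ (1 / 2 : ℝ) := by
  have hS' : MeasurableSet (can a n ⁻¹' S) := (measurable_can n) hS
  have hm := measurable_LRn (a := a) ε n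
  have hm1 : Measurable fun ω => (ENNReal.ofReal (√(LRn a ε n ω)))⁻¹ :=
    (hm.sqrt.ennreal_ofReal).inv
  have hm2 : Measurable fun ω => ENNReal.ofReal (√(LRn a ε n ω)) *
      (can a n ⁻¹' S).indicator 1 ω :=
    hm.sqrt.ennreal_ofReal.mul (measurable_one.indicator hS')
  have hcs := trb_cs hm1 hm2
  have h3 : ∫⁻ ω, (ENNReal.ofReal (√(LRn a ε n ω)))⁻¹ * (ENNReal.ofReal (√(LRn a ε n ω)) *
      (can a n ⁻¹' S).indicator 1 ω) ∂Pr = Pr (can a n ⁻¹' S) := by
    rw [← lintegral_indicator_one hS']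
    refine lintegral_congr fun ω => ?_
    have hp := Real.sqrt_pos.2 (LRn_pos hk h0 h1 n ω)
    rw [← mul_assoc, ENNReal.inv_mul_cancel (by simpa using hp) ENNReal.ofReal_ne_top, one_mul]
  have h4 : ∫⁻ ω, ((ENNReal.ofReal (√(LRn a ε n ω)))⁻¹) ^ 2 ∂Pr =
      ∫⁻ ω, (ENNReal.ofReal (LRn a ε n ω))⁻¹ ∂Pr := by
    refine lintegral_congr fun ω => ?_
    rw [← ENNReal.inv_pow, ← ENNReal.ofReal_pow (Real.sqrt_nonneg _),
      Real.sq_sqrt (LRn_pos hk h0 h1 n ω).le]
  have h5 : ∫⁻ ω, (ENNReal.ofReal (√(LRn a ε n ω)) *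
      (can a n ⁻¹' S).indicator (1 : Om → ℝ≥0∞) ω) ^ 2 ∂Pr = P (abs' Z ξ n ⁻¹' S) := by
    rw [trb_P_eq hk h0 h1 hZ n hS]
    refine lintegral_congr fun ω => ?_
    rw [mul_pow, ← ENNReal.ofReal_pow (Real.sqrt_nonneg _),
      Real.sq_sqrt (LRn_pos hk h0 h1 n ω).le]
    by_cases h : ω ∈ can a n ⁻¹' S
    · rw [Set.indicator_of_mem h]
      simp
    · rw [Set.indicator_of_notMem h]
      simp
  rw [h3, h4, h5] at hcs
  refine hcs.trans ?_
  rw [← trb_sqrt (by positivity)]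
  gcongr
  exact LR_inv hk h0 h1 n

lemma trb_tv (hk : IsKernel a) {ε : ℝ} (h0 : 0 ≤ ε) (h1 : ε ≤ 1 / 2) (n : ℕ) :
    ∫⁻ ω, ENNReal.ofReal |LRn a ε n ω - 1| ∂Pr ≤
      ENNReal.ofReal (√((1 + ε ^ 2) ^ n - 1)) := by
  have hm := measurable_LRn (a := a) ε n
  have hm1 : Measurable fun ω => ENNReal.ofReal |LRn a ε n ω - 1| := by
    exact ((hm.sub_const 1).abs).ennreal_ofReal
  have hcs := trb_cs hm1 (g := fun _ => 1) measurable_const
  simp only [mul_one, one_pow, lintegral_const, measure_univ, ENNReal.one_rpow] at hcs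
  have hc1 : 1 ≤ (1 + ε ^ 2) ^ n := one_le_pow₀ (by nlinarith [sq_nonneg ε])
  refine hcs.trans ?_
  rw [← trb_sqrt (by linarith)]
  gcongr
  have h2 : ∫⁻ ω, (ENNReal.ofReal |LRn a ε n ω - 1| ^ 2 +
      (ENNReal.ofReal (LRn a ε n ω) + ENNReal.ofReal (LRn a ε n ω))) ∂Pr =
      ∫⁻ ω, (ENNReal.ofReal (LRn a ε n ω) ^ 2 + 1) ∂Pr := by
    refine lintegral_congr fun ω => ?_
    have hp := LRn_pos hk h0 h1 n ω
    rw [← ENNReal.ofReal_pow (abs_nonneg _), ← ENNReal.ofReal_add hp.le hp.le,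
      ← ENNReal.ofReal_add (by positivity) (by positivity), ← ENNReal.ofReal_pow hp.le,
      ← ENNReal.ofReal_one, ← ENNReal.ofReal_add (by positivity) (by positivity), sq_abs]
    congr 1
    ring
  rw [lintegral_add_left (hm1.pow_const 2), lintegral_add_left hm.ennreal_ofReal,
    LR_one hk h0 h1, lintegral_add_right _ measurable_const, lintegral_const, measure_univ,
    mul_one] at h2
  have h3 : ∫⁻ ω, ENNReal.ofReal |LRn a ε n ω - 1| ^ 2 ∂Pr + (1 + 1) ≤
      ENNReal.ofReal ((1 + ε ^ 2) ^ n - 1) + (1 + 1) := by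
    rw [h2]
    have h4 : ENNReal.ofReal ((1 + ε ^ 2) ^ n - 1) + (1 + 1) =
        ENNReal.ofReal ((1 + ε ^ 2) ^ n) + 1 := by
      rw [← add_assoc, ← ENNReal.ofReal_one, ← ENNReal.ofReal_add (by linarith) zero_le_one,
        sub_add_cancel]
    rw [h4]
    gcongr
    exact LR_sq hk h0 h1 n
  exact (ENNReal.add_le_add_iff_right (by norm_num)).1 h3

/-- total variation -/
theorem P_sub_Pr_le (hk : IsKernel a) [IsProbabilityMeasure P] (h0 : 0 ≤ ε) (h1 : ε ≤ 1 / 2)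
    (hZ : IsVoterChain P a ε Z ξ) (n : ℕ) {S : Set ((ℕ → St) × (ℕ → ℝ))}
    (hS : MeasurableSet S) :
    P (abs' Z ξ n ⁻¹' S) ≤ Pr (can a n ⁻¹' S) + ENNReal.ofReal (√((1 + ε ^ 2) ^ n - 1)) := by
  have hS' : MeasurableSet (can a n ⁻¹' S) := (measurable_can n) hS
  rw [trb_P_eq hk h0 h1 hZ n hS]
  calc ∫⁻ ω, ENNReal.ofReal (LRn a ε n ω) * (can a n ⁻¹' S).indicator 1 ω ∂Pr
      ≤ ∫⁻ ω, ((can a n ⁻¹' S).indicator 1 ω + ENNReal.ofReal |LRn a ε n ω - 1|) ∂Pr := by
        refine lintegral_mono fun ω => ?_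
        by_cases h : ω ∈ can a n ⁻¹' S
        · rw [Set.indicator_of_mem h]
          simp only [Pi.one_apply, mul_one]
          rw [← ENNReal.ofReal_one, ← ENNReal.ofReal_add zero_le_one (abs_nonneg _)]
          refine ENNReal.ofReal_le_ofReal ?_
          linarith [le_abs_self (LRn a ε n ω - 1)]
        · rw [Set.indicator_of_notMem h]
          simp
    _ = Pr (can a n ⁻¹' S) + ∫⁻ ω, ENNReal.ofReal |LRn a ε n ω - 1| ∂Pr := by
        rw [lintegral_add_left (measurable_one.indicator hS'), lintegral_indicator_one hS']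
    _ ≤ _ := by
        gcongr
        exact trb_tv hk h0 h1 n

end H40.VM
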