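import Pool.Agent.H40.VM.NCa
import Pool.Agent.H40.VM.JF
import Pool.Agent.H40.VM.TRb
import Pool.Agent.H40.VM.CLa

/-!
# Module NCb: no convergence when the kernel is not centred

Let `m = mn a ≠ 0`, `K = 3/|m|`, `s = K/ε` (unscaled time), i.e. rescaled time `K ε → 0`. Claim:
`V.P ε {|Y (K ε)| ≥ 1} → 1`. Let `k` be the index with `jumpTime k ≤ s < jumpTime (k+1)`, and
`T⁰ j = ∑_{i<j} ξ i / tot (mis (Z i))`; by `qe_bounds`, `T⁰ j ≤ jumpTime j ≤ T⁰ j/(1-ε)`, so
`T⁰ k ≤ s` and `(1-ε) s = s - K < T⁰ (k+1)`. By `nc_unbiased` (`δ = |m|/2`), outside of an event of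
small probability for the unbiased chain, `|lf - m s| < |m| s/2`, hence
`ε |lf| ≥ |m| K/2 ≥ 1`. The number of jumps up to time `s` is at most `n = ⌈1/ε²⌉` with high
probability (Markov inequality), and `tendsto_P_of_Pr` transfers the bound.
Conclusion: if `ConvInLaw V.P V.Y P' Z` with `Z` continuous, then `Z 0 = 0` a.s. by
`zero_functional` (`Y 0 = 0` a.s. for `0 < ε < 1`), and for `sup_functional r`,
`1 = lim (1 - K ε/r) ≤ liminf E G_r (Y ε) = E G_r (Z) → 0` as `r → 0` (dominated convergence).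
-/

open MeasureTheory ProbabilityTheory Filter Topology
open scoped ENNReal NNReal unitInterval symmDiff

namespace H40.VM

open H40.Voter (IsKernel VoterFam SkoD ConvInLaw jumpTime heaviside)

variable {a : ℤ → ℝ}

namespace NCb

/-- the bad set -/
def bad (a : ℤ → ℝ) (K s : ℝ) (n : ℕ) : Set ((ℕ → St) × (ℕ → ℝ)) :=
  {p | claT a n p ≤ s} ∪ {p | ∃ k < n, claT a k p ≤ s ∧ s - K < claT a (k + 1) p ∧
    |mn a| / 2 * s ≤ |(lf (p.1 k) : ℝ) - mn a * s|}

theorem measurableSet_bad (K s : ℝ) (n : ℕ) : MeasurableSet (bad a K s n) := by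
  refine (measurableSet_le (measurable_claT n) measurable_const).union ?_
  have : {p : (ℕ → St) × (ℕ → ℝ) | ∃ k < n, claT a k p ≤ s ∧ s - K < claT a (k + 1) p ∧
    |mn a| / 2 * s ≤ |(lf (p.1 k) : ℝ) - mn a * s|} =
    ⋃ k ∈ Finset.range n, {p : (ℕ → St) × (ℕ → ℝ) | claT a k p ≤ s ∧ s - K < claT a (k + 1) p ∧
    |mn a| / 2 * s ≤ |(lf (p.1 k) : ℝ) - mn a * s|} := by
    ext p
    simp only [Set.mem_ofPred_eq, Set.mem_iUnion, Finset.mem_range, exists_prop]
  rw [this]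
  refine Finset.measurableSet_biUnion _ fun k _ => ?_
  refine (measurableSet_le (measurable_claT k) measurable_const).inter
    ((measurableSet_lt measurable_const (measurable_claT (k + 1))).inter ?_)
  have h1 : Measurable fun m : St => |(lf m : ℝ) - mn a * s| := measurable_of_countable _
  exact measurableSet_le measurable_const (h1.comp (measurable_fst_apply k))

/-- Markov inequality for the number of jumps -/
theorem T_le (hk : IsKernel a) {s : ℝ} (hs : 0 ≤ s) (n : ℕ) :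
    (n : ℝ≥0∞) * Pr {ω | (vc a true).T n ∅ ω ≤ s} ≤ ENNReal.ofReal (s * sg a) := by
  have h1 := tsum_count_le hk ∅ hs
  rw [hh_empty, mul_zero, zero_add] at h1
  refine le_trans ?_ h1
  refine le_trans ?_ (ENNReal.sum_le_tsum (Finset.range n))
  have h2 : ∀ k ∈ Finset.range n, Pr {ω | (vc a true).T n ∅ ω ≤ s} ≤
      Pr {ω | (vc a true).T (k + 1) ∅ ω ≤ s} := by
    intro k hkn
    rw [Finset.mem_range] at hkn
    refine measure_mono fun ω hω => ?_
    exact ((vc a true).T_mono ∅ ω (by omega : k + 1 ≤ n)).trans hω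
  refine le_trans ?_ (Finset.sum_le_sum h2)
  rw [Finset.sum_const, Finset.card_range, nsmul_eq_mul]

theorem can_bad (hk : IsKernel a) (K s : ℝ) (n : ℕ) :
    can a n ⁻¹' bad a K s n ⊆ {ω | (vc a true).T n ∅ ω ≤ s} ∪
      {ω | ∃ k, (vc a true).T k ∅ ω ≤ s ∧ s - K < (vc a true).T (k + 1) ∅ ω ∧
      |mn a| / 2 * s ≤ |(lf ((vc a true).Y k ∅ ω) : ℝ) - mn a * s|} := by
  rintro ω (h | ⟨k, hkn, h1, h2, h3⟩)
  · left
    have h' : claT a n (can a n ω) ≤ s := h
    rw [claT_can hk le_rfl] at h'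
    exact h'
  · right
    rw [claT_can hk hkn.le] at h1
    rw [claT_can hk (by omega : k + 1 ≤ n)] at h2
    rw [can_fst hkn.le] at h3
    exact ⟨k, h1, h2, h3⟩

/-- number of jumps considered -/
noncomputable def nn (ε : ℝ) : ℕ := ⌈1 / ε ^ 2⌉₊

theorem tendsto_Pr (hk : IsKernel a) {K : ℝ} (hK : 0 < K) (hm : mn a ≠ 0) :
    Tendsto (fun ε : ℝ => Pr (can a (nn ε) ⁻¹' bad a K (K / ε) (nn ε))) (𝓝[>] 0) (𝓝 0) := by
  have hs : Tendsto (fun ε : ℝ => K / ε) (𝓝[>] 0) atTop := by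
    simp only [div_eq_mul_inv]
    exact tendsto_inv_nhdsGT_zero.const_mul_atTop hK
  have h1 := (nc_unbiased hk hK (δ := |mn a| / 2) (by positivity)).comp hs
  have h2 : Tendsto (fun ε : ℝ => ENNReal.ofReal (K * sg a * ε)) (𝓝[>] 0) (𝓝 0) := by
    have : Tendsto (fun ε : ℝ => ENNReal.ofReal (K * sg a * ε)) (𝓝 0)
        (𝓝 (ENNReal.ofReal (K * sg a * 0))) :=
      (ENNReal.continuous_ofReal.comp (continuous_const.mul continuous_id)).tendsto 0
    rw [mul_zero, ENNReal.ofReal_zero] at this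
    exact this.mono_left nhdsWithin_le_nhds
  have h3 := h2.add h1
  rw [add_zero] at h3
  refine tendsto_of_tendsto_of_tendsto_of_le_of_le' tendsto_const_nhds h3
    (Eventually.of_forall fun _ => zero_le) ?_
  filter_upwards [self_mem_nhdsWithin] with ε hε
  have hε' : 0 < ε := hε
  refine (measure_mono (can_bad hk _ _ _)).trans ((measure_union_le _ _).trans ?_)
  refine add_le_add ?_ le_rfl
  have h4 := T_le hk (s := K / ε) (by positivity) (nn ε)
  have hn : 1 / ε ^ 2 ≤ nn ε := Nat.le_ceil _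
  have hn0 : (0 : ℝ) < nn ε := lt_of_lt_of_le (by positivity) hn
  have hn1 : (nn ε : ℝ≥0∞) ≠ 0 := by
    have : nn ε ≠ 0 := by
      intro h
      rw [h] at hn0
      simp at hn0
    exact_mod_cast this
  have h5 : Pr {ω | (vc a true).T (nn ε) ∅ ω ≤ K / ε} ≤
      ENNReal.ofReal (K / ε * sg a) / (nn ε : ℝ≥0∞) := by
    rw [ENNReal.le_div_iff_mul_le (Or.inl hn1) (Or.inl (ENNReal.natCast_ne_top _)), mul_comm]
    exact h4
  refine h5.trans ?_
  rw [← ENNReal.ofReal_natCast, ← ENNReal.ofReal_div_of_pos hn0]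
  refine ENNReal.ofReal_le_ofReal ?_
  have hsg := cb_sg_nonneg hk
  rw [div_le_iff₀ hn0]
  calc K / ε * sg a = K * sg a * ε * (1 / ε ^ 2) := by field_simp
    _ ≤ K * sg a * ε * nn ε := mul_le_mul_of_nonneg_left hn (by positivity)

/-- comparison of the jump times -/
theorem jump_cmp (hk : IsKernel a) {V : VoterFam a} (c : Chains V) {ε : ℝ}
    (h0 : 0 < ε) (h1 : ε < 1) :
    ∀ᵐ ω ∂(V.P ε), ∀ k, c.T0 ε k ω ≤ jumpTime a ε (c.Z ε) (c.ξ ε) k ω ∧
      (1 - ε) * jumpTime a ε (c.Z ε) (c.ξ ε) k ω ≤ c.T0 ε k ω := by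
  filter_upwards [ae_class hk h0.le h1 (c.chain ε h0 h1)] with ω hω k
  have h2 : ∀ i, H40.Voter.totalRate a ε (c.Z ε i ω) = qe a ε (mis (c.Z ε i ω)) := by
    intro i
    conv_lhs => rw [(hω i).1]
    exact totalRate_cf hk ε _
  have hpos : 0 < 1 - ε := by linarith
  unfold jumpTime Chains.T0
  constructor
  · refine Finset.sum_le_sum fun i _ => ?_
    rw [h2 i]
    obtain ⟨h3, h4⟩ := qe_bounds hk h0.le (mis (c.Z ε i ω))
    have ht := tot_true_pos hk (mis (c.Z ε i ω))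
    have hq : 0 < qe a ε (mis (c.Z ε i ω)) := lt_of_lt_of_le (by positivity) h3
    exact div_le_div_of_nonneg_left (hω i).2.le hq h4
  · rw [Finset.mul_sum]
    refine Finset.sum_le_sum fun i _ => ?_
    rw [h2 i]
    obtain ⟨h3, h4⟩ := qe_bounds hk h0.le (mis (c.Z ε i ω))
    have ht := tot_true_pos hk (mis (c.Z ε i ω))
    have hq : 0 < qe a ε (mis (c.Z ε i ω)) := lt_of_lt_of_le (by positivity) h3
    rw [mul_div_assoc', div_le_div_iff₀ hq ht]
    have := (hω i).2.le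
    nlinarith

theorem far_subset (hk : IsKernel a) (hm : mn a ≠ 0) {V : VoterFam a} (c : Chains V) {ε : ℝ}
    (h0 : 0 < ε) (h1 : ε < 1) :
    ∀ᵐ ω ∂(V.P ε), |(V.Y ε ω).1 (3 / |mn a| * ε).toNNReal| < 1 →
      ω ∈ abs' (c.Z ε) (c.ξ ε) (nn ε) ⁻¹' bad a (3 / |mn a|) (3 / |mn a| / ε) (nn ε) := by
  filter_upwards [ae_class hk h0.le h1 (c.chain ε h0 h1), jump_cmp hk c h0 h1,
    c.hold ε h0 h1, V.interface ε h0 h1] with ω h2 h3 h4 h5 hY
  by_contra hbad
  set K : ℝ := 3 / |mn a| with hK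
  have hm' : 0 < |mn a| := abs_pos.2 hm
  have hKpos : 0 < K := by positivity
  set s : ℝ := K / ε with hs
  have hspos : 0 < s := by positivity
  have hbad' : ¬ ((claT a (nn ε) (abs' (c.Z ε) (c.ξ ε) (nn ε) ω) ≤ s) ∨
      ∃ k < nn ε, claT a k (abs' (c.Z ε) (c.ξ ε) (nn ε) ω) ≤ s ∧
      s - K < claT a (k + 1) (abs' (c.Z ε) (c.ξ ε) (nn ε) ω) ∧
      |mn a| / 2 * s ≤ |(lf ((abs' (c.Z ε) (c.ξ ε) (nn ε) ω).1 k) : ℝ) - mn a * s|) := hbad
  push Not at hbad'
  obtain ⟨hb1, hb2⟩ := hbad'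
  rw [claT_abs c le_rfl] at hb1
  have hjn : s < jumpTime a ε (c.Z ε) (c.ξ ε) (nn ε) ω := hb1.trans_le (h3 _).1
  -- the index
  classical
  have hex : ∃ n, s < jumpTime a ε (c.Z ε) (c.ξ ε) n ω := ⟨_, hjn⟩
  obtain ⟨n, hn1, hn2⟩ : ∃ n, s < jumpTime a ε (c.Z ε) (c.ξ ε) n ω ∧
      ∀ j < n, jumpTime a ε (c.Z ε) (c.ξ ε) j ω ≤ s :=
    ⟨Nat.find hex, Nat.find_spec hex, fun j hj => not_lt.1 (Nat.find_min hex hj)⟩
  have hn0 : n ≠ 0 := by
    rintro rfl
    simp [jumpTime] at hn1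
    linarith
  obtain ⟨k, rfl⟩ := Nat.exists_eq_succ_of_ne_zero hn0
  have hkn : k < nn ε := by
    by_contra hcon
    have := hn2 (nn ε) (by omega)
    linarith
  have hk1 := hn2 k (Nat.lt_succ_self k)
  have hT1 : c.T0 ε k ω ≤ s := (h3 k).1.trans hk1
  have hT2 : s - K < c.T0 ε (k + 1) ω := by
    have h6 := (h3 (k + 1)).2
    have h7 : (1 - ε) * s < (1 - ε) * jumpTime a ε (c.Z ε) (c.ξ ε) (k + 1) ω :=
      mul_lt_mul_of_pos_left hn1 (by linarith)
    have h8 : (1 - ε) * s = s - K := by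
      rw [hs]; field_simp
    linarith
  have hlf := hb2 k hkn (by rw [claT_abs c hkn.le]; exact hT1)
    (by rw [claT_abs c (by omega : k + 1 ≤ nn ε)]; exact hT2)
  rw [abs_fst c hkn.le] at hlf
  -- the interface
  set t : ℝ≥0 := (K * ε).toNNReal with ht
  have htt : ((t / (ε ^ 2).toNNReal : ℝ≥0) : ℝ) = s := by
    rw [NNReal.coe_div, Real.coe_toNNReal _ (sq_nonneg ε), ht,
      Real.coe_toNNReal _ (by positivity), hs]
    field_simp
  have h9 : V.X ε (t / (ε ^ 2).toNNReal) ω = c.Z ε k ω := by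
    refine h4 k (t / (ε ^ 2).toNNReal) ?_ ?_
    · rw [htt]; exact hk1
    · rw [htt]; exact hn1
  obtain ⟨i, hi, hYi⟩ := h5 t
  rw [h9, (h2 k).1] at hi
  have hil : i = lf (mis (c.Z ε k ω)) := hi.unique (lf_isLeast _)
  rw [hYi, hil, abs_mul, abs_of_pos h0] at hY
  set l : ℝ := (lf (mis (c.Z ε k ω)) : ℝ) with hl
  have h10 : |mn a| * s = 3 / ε := by
    rw [hs, hK]; field_simp
  have h11 : |mn a| * s ≤ |l| + |l - mn a * s| := by
    have := abs_sub_abs_le_abs_sub (mn a * s) l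
    rw [abs_sub_comm, abs_mul, abs_of_pos hspos] at this
    linarith
  have h12 : 3 / ε / 2 < |l| := by
    rw [← h10]
    linarith
  have h13 : ε * (3 / ε / 2) < ε * |l| := mul_lt_mul_of_pos_left h12 h0
  have h14 : ε * (3 / ε / 2) = 3 / 2 := by field_simp
  linarith

theorem zero_start (hk : IsKernel a) {V : VoterFam a} (c : Chains V) {ε : ℝ}
    (h0 : 0 < ε) (h1 : ε < 1) : ∀ᵐ ω ∂(V.P ε), (V.Y ε ω).1 0 = 0 := by
  filter_upwards [ae_class hk h0.le h1 (c.chain ε h0 h1), ae_zero hk h0.le h1 (c.chain ε h0 h1),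
    jump_cmp hk c h0 h1, c.hold ε h0 h1, V.interface ε h0 h1] with ω h2 hz h3 h4 h5
  have h9 : V.X ε (0 / (ε ^ 2).toNNReal) ω = c.Z ε 0 ω := by
    refine h4 0 (0 / (ε ^ 2).toNNReal) ?_ ?_
    · simp [jumpTime]
    · have h6 := (h3 (0 + 1)).1
      refine lt_of_lt_of_le ?_ h6
      have ht := tot_true_pos hk (mis (c.Z ε 0 ω))
      have hx := (h2 0).2
      simp only [Chains.T0, zero_add, Finset.sum_range_one, zero_div, NNReal.coe_zero]
      positivity
  obtain ⟨i, hi, hYi⟩ := h5 0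
  rw [h9, (h2 0).1, hz] at hi
  have hcf : ∀ j : ℤ, cf true ∅ j = true ↔ 0 ≤ j := by
    intro j
    simp [cf, bs]
  have h10 : IsLeast {j : ℤ | cf true ∅ j = true} 0 := by
    constructor
    · exact (hcf 0).2 le_rfl
    · intro j hj
      exact (hcf j).1 hj
  rw [hYi, hi.unique h10]
  simp

end NCb

theorem nc_far (hk : IsKernel a) (hm : mn a ≠ 0) (V : VoterFam a) :
    Tendsto (fun ε : ℝ => V.P ε {ω | |(V.Y ε ω).1 (3 / |mn a| * ε).toNNReal| < 1}) (𝓝[>] 0)
      (𝓝 0) := by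
  obtain ⟨c⟩ := exists_chains V
  have hm' : 0 < |mn a| := abs_pos.2 hm
  have hn : ∀ᶠ ε : ℝ in 𝓝[>] 0, (NCb.nn ε : ℝ) ≤ 1 / ε ^ 2 + 1 :=
    Eventually.of_forall fun ε => (Nat.ceil_lt_add_one (by positivity)).le
  have h1 := tendsto_P_of_Pr hk c (K := 1) zero_le_one hn
    (S := fun ε => NCb.bad a (3 / |mn a|) (3 / |mn a| / ε) (NCb.nn ε))
    (fun ε => NCb.measurableSet_bad _ _ _) (NCb.tendsto_Pr hk (by positivity) hm)
  refine tendsto_of_tendsto_of_tendsto_of_le_of_le' tendsto_const_nhds h1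
    (Eventually.of_forall fun _ => zero_le) ?_
  filter_upwards [cla_ev_small (b := 1 / 2) (by norm_num)] with ε h3
  refine measure_mono_ae ?_
  filter_upwards [NCb.far_subset hk hm c h3.1 (by linarith [h3.2])] with ω hω h
  exact hω h

theorem neg_mean (hk : IsKernel a) (hm : mn a ≠ 0) (V : VoterFam a)
    {Ω' : Type} [MeasurableSpace Ω'] {P' : Measure Ω'} [IsProbabilityMeasure P'] {Z : Ω' → SkoD}
    (hZ : Measurable Z) : ¬ ConvInLaw V.P V.Y P' Z := by
  intro hconv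
  obtain ⟨c⟩ := exists_chains V
  have hm' : 0 < |mn a| := abs_pos.2 hm
  -- `Z 0 = 0`
  have hz : ∀ᵐ ω ∂P', (Z ω).1 0 = 0 := by
    obtain ⟨hG1, hG2⟩ := zero_functional
    have h1 := hconv _ hG1 ⟨1, fun x => by
      rw [abs_of_nonneg (le_min zero_le_one (abs_nonneg _))]
      exact min_le_left _ _⟩ hG2
    have h2 : (fun ε : ℝ => ∫ ω, min 1 |(V.Y ε ω).1 0| ∂(V.P ε)) =ᶠ[𝓝[>] 0] fun _ => (0 : ℝ) := by
      filter_upwards [cla_ev_small (b := 1 / 2) (by norm_num)] with ε h3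
      have h4 := NCb.zero_start hk c h3.1 (by linarith [h3.2])
      have h5 : ∫ ω, min 1 |(V.Y ε ω).1 0| ∂(V.P ε) = ∫ _ω, (0 : ℝ) ∂(V.P ε) := by
        refine integral_congr_ae ?_
        filter_upwards [h4] with ω hω
        rw [hω]
        simp
      rw [h5, integral_zero]
    have h3 : Tendsto (fun ε : ℝ => ∫ ω, min 1 |(V.Y ε ω).1 0| ∂(V.P ε)) (𝓝[>] 0) (𝓝 0) :=
      (tendsto_congr' h2).2 tendsto_const_nhds
    have h4 : ∫ ω, min 1 |(Z ω).1 0| ∂P' = 0 := tendsto_nhds_unique h1 h3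
    have h5 : Integrable (fun ω => min 1 |(Z ω).1 0|) P' := by
      refine Integrable.of_bound (hG1.comp hZ).aestronglyMeasurable 1
        (Eventually.of_forall fun ω => ?_)
      rw [Real.norm_eq_abs, abs_of_nonneg (le_min zero_le_one (abs_nonneg _))]
      exact min_le_left _ _
    have h6 := (integral_eq_zero_iff_of_nonneg
      (fun ω => le_min zero_le_one (abs_nonneg ((Z ω).1 0))) h5).1 h4
    filter_upwards [h6] with ω hω
    have hω' : min 1 |(Z ω).1 0| = 0 := hω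
    rcases min_eq_iff.1 hω' with h | h
    · linarith [h.1]
    · exact abs_eq_zero.1 h.1
  -- the functionals
  have hr : ∀ n : ℕ, (0 : ℝ≥0) < 1 / ((n : ℝ≥0) + 1) := fun n => by positivity
  choose G hGm hG1 hGc hG2 hG3 using fun n : ℕ => sup_functional (1 / ((n : ℝ≥0) + 1)) (hr n)
  have hone : ∀ n, 1 ≤ ∫ ω, G n (Z ω) ∂P' := by
    intro n
    have h1 := hconv (G n) (hGm n) ⟨1, fun x => by
      rw [abs_of_nonneg (hG1 n x).1]
      exact (hG1 n x).2⟩ (hGc n)
    set r : ℝ≥0 := 1 / ((n : ℝ≥0) + 1) with hrdef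
    have hrpos : (0 : ℝ) < r := hr n
    set K : ℝ := 3 / |mn a| with hK
    have hKpos : 0 < K := by positivity
    have h2 : Tendsto (fun ε : ℝ => (1 - K * ε / r) *
        (1 - (V.P ε {ω | |(V.Y ε ω).1 (K * ε).toNNReal| < 1}).toReal)) (𝓝[>] 0) (𝓝 1) := by
      have e1 : Tendsto (fun ε : ℝ => 1 - K * ε / r) (𝓝[>] 0) (𝓝 1) := by
        have : Tendsto (fun ε : ℝ => 1 - K * ε / r) (𝓝 0) (𝓝 (1 - K * 0 / r)) :=
          Continuous.tendsto (by fun_prop) 0
        rw [mul_zero, zero_div, sub_zero] at this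
        exact this.mono_left nhdsWithin_le_nhds
      have e2 : Tendsto (fun ε : ℝ =>
          (V.P ε {ω | |(V.Y ε ω).1 (K * ε).toNNReal| < 1}).toReal) (𝓝[>] 0) (𝓝 0) := by
        have := (ENNReal.tendsto_toReal ENNReal.zero_ne_top).comp (nc_far hk hm V)
        rw [ENNReal.toReal_zero] at this
        exact this
      have := e1.mul (e2.const_sub 1)
      simpa using this
    refine le_of_tendsto_of_tendsto h2 h1 ?_
    have hev : ∀ᶠ ε : ℝ in 𝓝[>] 0, 0 < ε ∧ ε ≤ min (1 / 2) (r / K) :=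
      cla_ev_small (by positivity)
    filter_upwards [hev] with ε hε
    have hε0 := hε.1
    have hε1 : ε ≤ 1 / 2 := hε.2.trans (min_le_left _ _)
    have hε2 : K * ε / r ≤ 1 := by
      have := hε.2.trans (min_le_right _ _)
      rw [le_div_iff₀ hKpos] at this
      rw [div_le_one hrpos]
      linarith
    have hYm : Measurable fun ω => G n (V.Y ε ω) := (hGm n).comp (V.meas ε)
    have hcoord : Measurable fun x : SkoD => x.1 (K * ε).toNNReal :=
      (measurable_pi_apply (K * ε).toNNReal).comp measurable_subtype_coe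
    have hSet : MeasurableSet {ω | |(V.Y ε ω).1 (K * ε).toNNReal| < 1} := by
      have h7 : Measurable fun ω => |(V.Y ε ω).1 (K * ε).toNNReal| :=
        (continuous_abs.measurable).comp (hcoord.comp (V.meas ε))
      exact measurableSet_lt h7 measurable_const
    have hint : Integrable (fun ω => G n (V.Y ε ω)) (V.P ε) := by
      refine Integrable.of_bound hYm.aestronglyMeasurable 1 (Eventually.of_forall fun ω => ?_)
      rw [Real.norm_eq_abs, abs_of_nonneg (hG1 n _).1]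
      exact (hG1 n _).2
    have hle : ∀ ω, ({ω | |(V.Y ε ω).1 (K * ε).toNNReal| < 1}ᶜ).indicator
        (fun _ => 1 - K * ε / r) ω ≤ G n (V.Y ε ω) := by
      intro ω
      by_cases h : ω ∈ {ω | |(V.Y ε ω).1 (K * ε).toNNReal| < 1}
      · rw [Set.indicator_of_notMem (by simpa using h)]
        exact (hG1 n _).1
      · rw [Set.indicator_of_mem h]
        have h8 : 1 ≤ |(V.Y ε ω).1 (K * ε).toNNReal| := not_lt.1 h
        have h9 := hG2 n (V.Y ε ω) (K * ε).toNNReal
        rw [min_eq_left h8, mul_one, Real.coe_toNNReal _ (by positivity)] at h9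
        exact h9
    have hI := integral_mono ((integrable_const (1 - K * ε / r)).indicator hSet.compl) hint hle
    rw [integral_indicator hSet.compl, setIntegral_const, smul_eq_mul] at hI
    have hcompl : (V.P ε).real ({ω | |(V.Y ε ω).1 (K * ε).toNNReal| < 1}ᶜ) =
        1 - (V.P ε {ω | |(V.Y ε ω).1 (K * ε).toNNReal| < 1}).toReal := by
      rw [probReal_compl_eq_one_sub hSet]
      rfl
    rw [hcompl, mul_comm] at hI
    exact hI
  have hlim : Tendsto (fun n : ℕ => ∫ ω, G n (Z ω) ∂P') atTop (𝓝 0) := by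
    have h1 : Tendsto (fun n : ℕ => ∫ ω, G n (Z ω) ∂P') atTop (𝓝 (∫ _ω, (0 : ℝ) ∂P')) := by
      refine tendsto_integral_of_dominated_convergence (fun _ => (1 : ℝ))
        (fun n => ((hGm n).comp hZ).aestronglyMeasurable) (integrable_const _) ?_ ?_
      · intro n
        refine Eventually.of_forall fun ω => ?_
        rw [Real.norm_eq_abs, abs_of_nonneg (hG1 n _).1]
        exact (hG1 n _).2
      · filter_upwards [hz] with ω h0
        rw [Metric.tendsto_atTop]
        intro e he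
        have h2 : Tendsto (Z ω).1 (𝓝 0) (𝓝 0) := by
          have h4 : Tendsto (Z ω).1 (𝓝[≥] 0) (𝓝 ((Z ω).1 0)) := ((Z ω).2 0).1
          have h5 : (Set.Ici (0 : ℝ≥0)) = Set.univ := Set.eq_univ_of_forall fun x => Set.mem_Ici.2 zero_le
          rwa [h5, nhdsWithin_univ, h0] at h4
        have h3 : ∀ᶠ t in 𝓝 (0 : ℝ≥0), |(Z ω).1 t| < e / 2 := by
          have := (Metric.tendsto_nhds.1 h2) (e / 2) (by positivity)
          simpa [Real.dist_eq] using this
        obtain ⟨d, hd, hball⟩ := Metric.eventually_nhds_iff.1 h3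
        obtain ⟨N, hN⟩ := exists_nat_one_div_lt hd
        refine ⟨N, fun n hn => ?_⟩
        rw [Real.dist_eq, sub_zero, abs_of_nonneg (hG1 n _).1]
        have h4 : G n (Z ω) ≤ e / 2 := by
          refine hG3 n (Z ω) (e / 2) (by positivity) fun t ht => ?_
          refine (hball ?_).le
          have ht0 : (0 : ℝ) ≤ (t : ℝ) := t.2
          rw [NNReal.dist_eq, NNReal.coe_zero, sub_zero, abs_of_nonneg ht0]
          have h5 : (t : ℝ) ≤ 1 / ((n : ℝ) + 1) := by
            have : ((t : ℝ≥0) : ℝ) ≤ ((1 / ((n : ℝ≥0) + 1) : ℝ≥0) : ℝ) := NNReal.coe_le_coe.2 ht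
            simpa using this
          have h6 : 1 / ((n : ℝ) + 1) ≤ 1 / ((N : ℝ) + 1) := by
            have : (N : ℝ) ≤ n := by exact_mod_cast hn
            exact one_div_le_one_div_of_le (by positivity) (by linarith)
          linarith
        linarith
    simpa using h1
  have := ge_of_tendsto' hlim hone
  linarith

end H40.VM
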