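import Pool.Agent.H40.VM.BJ
import Pool.Agent.H40.VM.JF
import Pool.Agent.H40.VM.CLa
import Pool.Agent.H40.VM.LLU
import Pool.Agent.H40.VM.SH

/-!
# Module NG: no convergence to a continuous process when the tail condition fails

By `al_of_not_tail` there are `ℓ > 0` and arbitrarily large natural `D` with `ℓ ≤ D² al a D`. Put
`ε = 2/D`, `r = 1/ε = D/2`, `t = r²`, and apply `big_jump_ge` with `d = δ = r`: with
`b = t al a (2r) = D² al a D / 4 ≥ ℓ/4` and `p` the probability of a long jump up to time `t`,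
`p ≥ b (1 - p - o(1))` (`sharp`: for `s ≤ t` the event `low (X_s) (cc (X_s) - √t)` is contained in
`low (X_s) (cc (X_s) - √s)`, whose probability tends to zero as `s → ∞`), so
`p ≥ b/(1+b) - o(1) ≥ (ℓ/4)/(1+ℓ/4) - o(1)`: bounded below.
With `n = ⌈K/ε²⌉`, `K = 2 sg + 2`, the jump has index `< n` with high probability (`lln_unif`), so
`Pr (can a n ⁻¹' S) ≥ c > 0` for the measurable set `S` of sequences with
`∃ k < n, ∑_{i ≤ k} e_i / tot (y_i) ≤ 1/ε² ∧ lf (y_{k+1}) ≤ lf (y_k) - 1/ε`; by `Pr_le` the probability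
under `V.P ε` is at least `c' > 0` along the sequence `ε = 2/D`.
On this event, almost surely (clocks are positive, `ae_class`, `jumpTime_eq`), the path `V.Y ε`
has at the time `t = ε² jumpTime (k+1) ≤ 2` value `ε lf (mis (Z (k+1)))` and left limit
`ε lf (mis (Z k))`, i.e. a jump of size at least one. The functional of `jump_functional 2` contradicts
`ConvInLaw`.
-/

open MeasureTheory ProbabilityTheory Filter Topology
open scoped ENNReal NNReal unitInterval symmDiff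

namespace H40.VM

open H40.Voter (IsKernel VoterFam SkoD ConvInLaw IsVoterChain jumpTime)

variable {a : ℤ → ℝ}

/-- the integral of the probabilities of blurred interfaces is of smaller order than the time -/
lemma ng_int (hk : IsKernel a) (hc : mn a = 0) {e : ℝ} (he : 0 < e) :
    ∃ A : ℝ, ∀ t : ℝ, 0 ≤ t → |∫ s in (0 : ℝ)..t, (Pr {ω | low true ((vc a true).X s ∅ ω)
        ((cc ((vc a true).X s ∅ ω) : ℝ) - √t)}).toReal| ≤ e * t + A := by
  have h1 := sharp hk hc (δ := 1) one_pos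
  rw [ENNReal.tendsto_nhds_zero] at h1
  obtain ⟨S₀, hS₀⟩ := eventually_atTop.1 (h1 (ENNReal.ofReal e) (by simpa using he))
  refine ⟨Real.exp S₀, fun t ht => ?_⟩
  have hb : ∀ᵐ s : ℝ, s ∈ Set.Ioc 0 t → ‖(Pr {ω | low true ((vc a true).X s ∅ ω)
        ((cc ((vc a true).X s ∅ ω) : ℝ) - √t)}).toReal‖ ≤ e + Real.exp (S₀ - s) := by
    refine Eventually.of_forall fun s hs => ?_
    rw [Real.norm_eq_abs, abs_of_nonneg ENNReal.toReal_nonneg]
    rcases le_or_gt S₀ s with h | h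
    · have h2 := hS₀ s h
      have hsub : {ω | low true ((vc a true).X s ∅ ω) ((cc ((vc a true).X s ∅ ω) : ℝ) - √t)} ⊆
          {ω | low true ((vc a true).X s ∅ ω) ((cc ((vc a true).X s ∅ ω) : ℝ) - 1 * √s)} := by
        rintro ω ⟨i, hi1, hi2⟩
        refine ⟨i, hi1.trans ?_, hi2⟩
        have := Real.sqrt_le_sqrt hs.2
        linarith
      have h3 := (measure_mono hsub).trans h2
      have h4 := ENNReal.toReal_mono ENNReal.ofReal_ne_top h3
      rw [ENNReal.toReal_ofReal he.le] at h4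
      exact h4.trans (le_add_of_nonneg_right (Real.exp_pos _).le)
    · have h2 : (Pr {ω | low true ((vc a true).X s ∅ ω)
        ((cc ((vc a true).X s ∅ ω) : ℝ) - √t)}).toReal ≤ 1 :=
        ENNReal.toReal_le_of_le_ofReal zero_le_one (by simpa using prob_le_one)
      have h3 : 1 ≤ Real.exp (S₀ - s) := Real.one_le_exp (by linarith)
      linarith
  have hint : IntervalIntegrable (fun s : ℝ => e + Real.exp (S₀ - s)) volume 0 t :=
    Continuous.intervalIntegrable (by fun_prop) _ _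
  have h2 := intervalIntegral.norm_integral_le_of_norm_le ht (hb) hint
  rw [Real.norm_eq_abs] at h2
  refine h2.trans ?_
  have h3 : ∫ s in (0 : ℝ)..t, (e + Real.exp (S₀ - s)) =
      e * t + (Real.exp S₀ - Real.exp (S₀ - t)) := by
    rw [intervalIntegral.integral_add (by simp) (Continuous.intervalIntegrable (by fun_prop) _ _),
      intervalIntegral.integral_const]
    have h4 : ∫ s in (0 : ℝ)..t, Real.exp (S₀ - s) = Real.exp S₀ - Real.exp (S₀ - t) := by
      rw [intervalIntegral.integral_comp_sub_left (fun s => Real.exp s)]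
      simp
    rw [h4]
    simp [mul_comm]
  rw [h3]
  have := Real.exp_pos (S₀ - t)
  linarith

/-- long jumps have probability bounded below along a sequence of scales -/
theorem long_jumps (hk : IsKernel a) (hc : mn a = 0)
    (hnt : ¬ Tendsto (fun d : ℕ => (d : ℝ) ^ 2 * tm a d) atTop (𝓝 0)) :
    ∃ p₀ : ℝ, 0 < p₀ ∧ ∃ᶠ D : ℕ in atTop, p₀ ≤ (Pr {ω | ∃ k,
      (vc a true).T (k + 1) ∅ ω ≤ ((D : ℝ) / 2) ^ 2 ∧
      (lf ((vc a true).Y (k + 1) ∅ ω) : ℝ) ≤ lf ((vc a true).Y k ∅ ω) - (D : ℝ) / 2}).toReal := by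
  obtain ⟨ℓ, hℓ, hfr⟩ := al_of_not_tail hk hnt
  obtain ⟨A, hA⟩ := ng_int hk hc (e := 1 / 4) (by norm_num)
  refine ⟨ℓ / (8 + 2 * ℓ), by positivity, ?_⟩
  have hev : ∀ᶠ D : ℕ in atTop, 4 * A < ((D : ℝ) / 2) ^ 2 ∧ 0 < (D : ℝ) := by
    have h1 : Tendsto (fun D : ℕ => ((D : ℝ) / 2) ^ 2) atTop atTop := by
      refine (tendsto_pow_atTop two_ne_zero).comp ?_
      exact tendsto_natCast_atTop_atTop.atTop_div_const (by norm_num)
    filter_upwards [h1.eventually_gt_atTop (4 * A), eventually_gt_atTop 0] with D h2 h3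
    exact ⟨h2, by exact_mod_cast h3⟩
  refine (hfr.and_eventually hev).mono ?_
  rintro D ⟨h1, h2, h3⟩
  set r : ℝ := (D : ℝ) / 2 with hr
  have hr0 : 0 < r := by positivity
  set t : ℝ := r ^ 2 with ht
  have ht0 : 0 < t := by positivity
  have hsq : √t = r := Real.sqrt_sq hr0.le
  have hbj := big_jump_ge hk (d := r) (δ := r) (t := t) hr0 hr0.le ht0.le
  have hI := hA t ht0.le
  rw [hsq] at hI
  set J : ℝ := ∫ s in (0 : ℝ)..t, (Pr {ω | low true ((vc a true).X s ∅ ω)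
        ((cc ((vc a true).X s ∅ ω) : ℝ) - r)}).toReal with hJdef
  set p : ℝ := (Pr {ω | ∃ k, (vc a true).T (k + 1) ∅ ω ≤ t ∧
        (lf ((vc a true).Y (k + 1) ∅ ω) : ℝ) ≤ lf ((vc a true).Y k ∅ ω) - r}).toReal with hp
  have hrr : r + r = D := by rw [hr]; ring
  rw [hrr] at hbj
  have hI2 : J ≤ t / 2 := by
    have := (abs_le.1 hI).2
    linarith
  have hal := al_nonneg hk (D : ℝ)
  have hb : ℓ / 4 ≤ al a D * t := by
    have : al a D * t = (D : ℝ) ^ 2 * al a D / 4 := by rw [ht, hr]; ring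
    rw [this]
    linarith
  have hp1 : al a D * (t * (1 - p) - t / 2) ≤ p :=
    le_trans (mul_le_mul_of_nonneg_left (by linarith) hal) hbj
  have hp0 : 0 ≤ p := ENNReal.toReal_nonneg
  rw [div_le_iff₀ (by positivity)]
  -- b (1/2 - p) ≤ p
  have hp2 : al a D * t * (1 / 2 - p) ≤ p := by
    have : al a D * (t * (1 - p) - t / 2) = al a D * t * (1 / 2 - p) := by ring
    rw [← this]; exact hp1
  by_cases hhalf : p ≤ 1 / 2
  · have h4 : ℓ / 4 * (1 / 2 - p) ≤ p :=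
      (mul_le_mul_of_nonneg_right hb (by linarith)).trans hp2
    nlinarith
  · have : 1 / 2 < p := not_le.1 hhalf
    nlinarith

/-- a long jump among the first `n` jumps -/
def ngS (a : ℤ → ℝ) (n : ℕ) (r : ℝ) : Set ((ℕ → St) × (ℕ → ℝ)) :=
  {q | ∃ k < n, ∑ i ∈ Finset.range (k + 1), q.2 i / tot a true (q.1 i) ≤ r ^ 2 ∧
    (lf (q.1 (k + 1)) : ℝ) ≤ lf (q.1 k) - r}

lemma ngS_meas (a : ℤ → ℝ) (n : ℕ) (r : ℝ) : MeasurableSet (ngS a n r) := by
  have hy : ∀ i : ℕ, Measurable fun q : (ℕ → St) × (ℕ → ℝ) => q.1 i := fun i =>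
    (measurable_pi_apply i).comp measurable_fst
  have he : ∀ i : ℕ, Measurable fun q : (ℕ → St) × (ℕ → ℝ) => q.2 i := fun i =>
    (measurable_pi_apply i).comp measurable_snd
  have ht : Measurable fun m : St => tot a true m := Measurable.of_discrete
  have hl : Measurable fun m : St => (lf m : ℝ) := Measurable.of_discrete
  have : ngS a n r = ⋃ k ∈ Set.Iio n,
      ({q | ∑ i ∈ Finset.range (k + 1), q.2 i / tot a true (q.1 i) ≤ r ^ 2} ∩
        {q | (lf (q.1 (k + 1)) : ℝ) ≤ lf (q.1 k) - r}) := by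
    ext q
    simp only [ngS, Set.mem_ofPred_eq, Set.mem_iUnion, Set.mem_inter_iff, Set.mem_Iio,
      exists_prop]
  rw [this]
  refine MeasurableSet.biUnion (Set.to_countable _) fun k _ => MeasurableSet.inter ?_ ?_
  · exact measurableSet_le (Finset.measurable_sum _ fun i _ => (he i).div (ht.comp (hy i)))
      measurable_const
  · exact measurableSet_le (hl.comp (hy (k + 1))) ((hl.comp (hy k)).sub_const r)

lemma ng_can (hk : IsKernel a) {n : ℕ} {r : ℝ} {ω : Om}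
    (h : ∃ k < n, (vc a true).T (k + 1) ∅ ω ≤ r ^ 2 ∧
      (lf ((vc a true).Y (k + 1) ∅ ω) : ℝ) ≤ lf ((vc a true).Y k ∅ ω) - r) :
    can a n ω ∈ ngS a n r := by
  obtain ⟨k, hkn, h1, h2⟩ := h
  refine ⟨k, hkn, ?_, ?_⟩
  · have e : ∑ i ∈ Finset.range (k + 1), (can a n ω).2 i / tot a true ((can a n ω).1 i) =
        (vc a true).T (k + 1) ∅ ω := by
      unfold Chain.T
      refine Finset.sum_congr rfl fun i hi => ?_
      rw [Finset.mem_range] at hi
      have hin : i < n := by omega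
      simp only [can, trS, trE, if_pos hin, min_eq_left hin.le, q_true hk]
    rw [e]
    exact h1
  · have e1 : (can a n ω).1 (k + 1) = (vc a true).Y (k + 1) ∅ ω := by
      simp only [can, trS]
      rw [min_eq_left (by omega)]
    have e2 : (can a n ω).1 k = (vc a true).Y k ∅ ω := by
      simp only [can, trS]
      rw [min_eq_left hkn.le]
    rw [e1, e2]
    exact h2

/-- the value of the rescaled interface between two jumps -/
lemma ng_value (hk : IsKernel a) {V : VoterFam a} (c : Chains V) {ε : ℝ}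
    (h0 : 0 < ε) (h1 : ε < 1) :
    ∀ᵐ ω ∂(V.P ε), ∀ (n : ℕ) (t : ℝ≥0), jumpTime a ε (c.Z ε) (c.ξ ε) n ω ≤ (t : ℝ) / ε ^ 2 →
      (t : ℝ) / ε ^ 2 < jumpTime a ε (c.Z ε) (c.ξ ε) (n + 1) ω →
      (V.Y ε ω).1 t = ε * lf (mis (c.Z ε n ω)) := by
  filter_upwards [c.hold ε h0 h1, V.interface ε h0 h1, ae_class hk h0.le h1 (c.chain ε h0 h1)]
    with ω hh hi hcl n t h2 h3
  obtain ⟨i, hi1, hi2⟩ := hi t
  have hcoe : ((t / (ε ^ 2).toNNReal : ℝ≥0) : ℝ) = (t : ℝ) / ε ^ 2 := by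
    rw [NNReal.coe_div, Real.coe_toNNReal _ (by positivity)]
  have hX := hh n (t / (ε ^ 2).toNNReal) (by rw [hcoe]; exact h2) (by rw [hcoe]; exact h3)
  rw [hX, (hcl n).1] at hi1
  rw [hi2, hi1.unique (lf_isLeast _)]

/-- on the event of a long jump the path has a jump of size at least one before time two -/
lemma ng_jump (hk : IsKernel a) (hc : mn a = 0) {V : VoterFam a} (c : Chains V) {ε : ℝ}
    (h0 : 0 < ε) (h1 : ε ≤ 1 / 2) (n : ℕ) {G : SkoD → ℝ}
    (hG : ∀ (x : SkoD) (t : ℝ≥0) (l : ℝ), 0 < t → t ≤ 2 → Tendsto x.1 (𝓝[<] t) (𝓝 l) →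
      min 1 |x.1 t - l| ≤ G x) :
    ∀ᵐ ω ∂(V.P ε), abs' (c.Z ε) (c.ξ ε) n ω ∈ ngS a n (1 / ε) → 1 ≤ G (V.Y ε ω) := by
  have h1' : ε < 1 := by linarith
  filter_upwards [ng_value hk c h0 h1', jumpTime_eq hk hc c h0 h1',
    ae_class hk h0.le h1' (c.chain ε h0 h1')] with ω hv hj hcl hS
  obtain ⟨k, hkn, hT, hL⟩ := hS
  have e0 : ∀ i ≤ n, (abs' (c.Z ε) (c.ξ ε) n ω).1 i = mis (c.Z ε i ω) := by
    intro i hi
    simp only [abs', trS]
    rw [min_eq_left hi]
  have eT : ∑ i ∈ Finset.range (k + 1), (abs' (c.Z ε) (c.ξ ε) n ω).2 i /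
      tot a true ((abs' (c.Z ε) (c.ξ ε) n ω).1 i) = c.T0 ε (k + 1) ω := by
    unfold Chains.T0
    refine Finset.sum_congr rfl fun i hi => ?_
    rw [Finset.mem_range] at hi
    rw [e0 i (by omega)]
    simp only [abs', trE]
    rw [if_pos (by omega)]
  rw [eT] at hT
  rw [e0 (k + 1) (by omega), e0 k (by omega)] at hL
  have hstep : ∀ i, c.T0 ε i ω < c.T0 ε (i + 1) ω := by
    intro i
    unfold Chains.T0
    rw [Finset.sum_range_succ]
    have := div_pos (hcl i).2 (tot_true_pos hk (mis (c.Z ε i ω)))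
    linarith
  have hT0 : 0 ≤ c.T0 ε k ω := by
    unfold Chains.T0
    exact Finset.sum_nonneg fun i _ => (div_pos (hcl i).2 (tot_true_pos hk _)).le
  have hd : 0 < 1 - ε / 2 := by linarith
  set J : ℕ → ℝ := fun i => jumpTime a ε (c.Z ε) (c.ξ ε) i ω with hJ
  have hJe : ∀ i, J i = c.T0 ε i ω / (1 - ε / 2) := fun i => hj i
  have hJlt : ∀ i, J i < J (i + 1) := by
    intro i
    rw [hJe, hJe]
    exact div_lt_div_of_pos_right (hstep i) hd
  have hJ0 : 0 ≤ J k := by rw [hJe]; exact div_nonneg hT0 hd.le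
  have hε2 : 0 < ε ^ 2 := by positivity
  have hJle : ε ^ 2 * J (k + 1) ≤ 2 := by
    rw [hJe]
    have h5 : ε ^ 2 * c.T0 ε (k + 1) ω ≤ 1 := by
      have : ε ^ 2 * (1 / ε) ^ 2 = 1 := by field_simp
      calc ε ^ 2 * c.T0 ε (k + 1) ω ≤ ε ^ 2 * (1 / ε) ^ 2 := by gcongr
        _ = 1 := this
    rw [← mul_div_assoc, div_le_iff₀ hd]
    linarith
  let t₀ : ℝ≥0 := ⟨ε ^ 2 * J k, mul_nonneg hε2.le hJ0⟩
  let t₁ : ℝ≥0 := ⟨ε ^ 2 * J (k + 1), mul_nonneg hε2.le (hJ0.trans (hJlt k).le)⟩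
  have ht01 : t₀ < t₁ := by
    rw [← NNReal.coe_lt_coe]
    exact mul_lt_mul_of_pos_left (hJlt k) hε2
  have ht1 : t₁ ≤ 2 := by
    rw [← NNReal.coe_le_coe]
    exact hJle
  have hval1 : (V.Y ε ω).1 t₁ = ε * lf (mis (c.Z ε (k + 1) ω)) := by
    have e1 : (t₁ : ℝ) / ε ^ 2 = J (k + 1) := by
      show ε ^ 2 * J (k + 1) / ε ^ 2 = _
      field_simp
    refine hv (k + 1) t₁ ?_ ?_
    · rw [e1]
    · rw [e1]; exact hJlt (k + 1)
  have hlim : Tendsto (V.Y ε ω).1 (𝓝[<] t₁) (𝓝 (ε * lf (mis (c.Z ε k ω)))) := by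
    refine tendsto_const_nhds.congr' ?_
    filter_upwards [Ioo_mem_nhdsLT ht01] with t ht
    symm
    have h6 : (t₀ : ℝ) < t := NNReal.coe_lt_coe.2 ht.1
    have h7 : (t : ℝ) < t₁ := NNReal.coe_lt_coe.2 ht.2
    refine hv k t ?_ ?_
    · rw [le_div_iff₀ hε2, mul_comm]
      exact h6.le
    · rw [div_lt_iff₀ hε2, mul_comm]
      exact h7
  have hmain := hG (V.Y ε ω) t₁ _ (lt_of_le_of_lt bot_le ht01) ht1 hlim
  refine le_trans ?_ hmain
  refine le_min le_rfl ?_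
  rw [hval1, ← mul_sub, abs_mul, abs_of_pos h0]
  have h8 : 1 / ε ≤ |(lf (mis (c.Z ε (k + 1) ω)) : ℝ) - lf (mis (c.Z ε k ω))| := by
    rw [abs_sub_comm]
    refine le_trans ?_ (le_abs_self _)
    linarith
  calc (1 : ℝ) = ε * (1 / ε) := by field_simp
    _ ≤ _ := mul_le_mul_of_nonneg_left h8 h0.le

/-- long jumps among the first jumps -/
lemma ng_prob (hk : IsKernel a) (hc : mn a = 0)
    (hnt : ¬ Tendsto (fun d : ℕ => (d : ℝ) ^ 2 * tm a d) atTop (𝓝 0)) :
    ∃ p : ℝ, 0 < p ∧ ∃ᶠ D : ℕ in atTop, ENNReal.ofReal p ≤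
      Pr (can a ⌈(2 * sg a + 2) * ((D : ℝ) / 2) ^ 2⌉₊ ⁻¹'
        ngS a ⌈(2 * sg a + 2) * ((D : ℝ) / 2) ^ 2⌉₊ ((D : ℝ) / 2)) := by
  obtain ⟨p₀, hp₀, hfr⟩ := long_jumps hk hc hnt
  have hsg := sg_pos hk
  have hK : 0 < 2 * sg a + 2 := by linarith
  have hlln := lln_unif hk hc (K := 2 * sg a + 2) (δ := 1 / 2) hK (by norm_num)
  have hsq : Tendsto (fun D : ℕ => ((D : ℝ) / 2) ^ 2) atTop atTop := by
    refine (tendsto_pow_atTop two_ne_zero).comp ?_
    exact tendsto_natCast_atTop_atTop.atTop_div_const (by norm_num)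
  have hl2 := hlln.comp hsq
  rw [ENNReal.tendsto_nhds_zero] at hl2
  have hev := (hl2 (ENNReal.ofReal (p₀ / 2)) (by simpa using hp₀)).and
    (hsq.eventually_gt_atTop 1)
  refine ⟨p₀ / 2, by positivity, (hfr.and_eventually hev).mono ?_⟩
  rintro D ⟨h1, h2, h3⟩
  simp only [Function.comp_apply] at h2
  set n' : ℝ := ((D : ℝ) / 2) ^ 2 with hn'
  set K : ℝ := 2 * sg a + 2 with hKdef
  set n : ℕ := ⌈K * n'⌉₊ with hn
  have hn'0 : 0 < n' := by linarith
  set E₀ : Set Om := {ω | ∃ k, (vc a true).T (k + 1) ∅ ω ≤ n' ∧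
      (lf ((vc a true).Y (k + 1) ∅ ω) : ℝ) ≤ lf ((vc a true).Y k ∅ ω) - (D : ℝ) / 2} with hE₀
  set B₀ : Set Om := {ω | ∃ k : ℕ, (k : ℝ) ≤ K * n' ∧
      1 / 2 * n' < |(vc a true).T k ∅ ω - k / sg a|} with hB₀
  have hsub : E₀ ⊆ can a n ⁻¹' ngS a n ((D : ℝ) / 2) ∪ B₀ := by
    rintro ω ⟨k, hk1, hk2⟩
    by_cases hB : ω ∈ B₀
    · exact Or.inr hB
    · left
      refine ng_can hk ⟨k, ?_, hk1, hk2⟩
      by_contra hkn
      have hkn' : n ≤ k := not_lt.1 hkn
      apply hB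
      refine ⟨⌊K * n'⌋₊, Nat.floor_le (by positivity), ?_⟩
      have hfl : K * n' - 1 < (⌊K * n'⌋₊ : ℝ) := by
        have := Nat.lt_floor_add_one (K * n')
        linarith
      have hle : (vc a true).T ⌊K * n'⌋₊ ∅ ω ≤ (vc a true).T (k + 1) ∅ ω := by
        refine (vc a true).T_mono ∅ ω ?_
        have : ⌊K * n'⌋₊ ≤ ⌈K * n'⌉₊ := Nat.floor_le_ceil _
        omega
      have hT : (vc a true).T ⌊K * n'⌋₊ ∅ ω ≤ n' := hle.trans hk1
      have h5 : (K * n' - 1) / sg a < (⌊K * n'⌋₊ : ℝ) / sg a :=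
        div_lt_div_of_pos_right hfl hsg
      have h6 : 3 / 2 * n' ≤ (K * n' - 1) / sg a := by
        rw [le_div_iff₀ hsg, hKdef]
        nlinarith
      rw [abs_sub_comm]
      refine lt_of_lt_of_le ?_ (le_abs_self _)
      linarith
  have h4 : ENNReal.ofReal p₀ ≤ Pr E₀ := by
    rw [← ENNReal.ofReal_toReal (measure_ne_top Pr E₀)]
    exact ENNReal.ofReal_le_ofReal h1
  have h5 : ENNReal.ofReal p₀ ≤
      Pr (can a n ⁻¹' ngS a n ((D : ℝ) / 2)) + ENNReal.ofReal (p₀ / 2) :=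
    h4.trans ((measure_mono hsub).trans ((measure_union_le _ _).trans (add_le_add le_rfl h2)))
  have h6 : ENNReal.ofReal p₀ = ENNReal.ofReal (p₀ / 2) + ENNReal.ofReal (p₀ / 2) := by
    rw [← ENNReal.ofReal_add (by positivity) (by positivity)]
    congr 1
    ring
  rw [h6] at h5
  exact (ENNReal.add_le_add_iff_right ENNReal.ofReal_ne_top).1 h5

theorem neg_tail (hk : IsKernel a) (hc : mn a = 0)
    (hnt : ¬ Tendsto (fun d : ℕ => (d : ℝ) ^ 2 * tm a d) atTop (𝓝 0)) (V : VoterFam a)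
    {Ω' : Type} [MeasurableSpace Ω'] {P' : Measure Ω'} [IsProbabilityMeasure P'] {Z : Ω' → SkoD}
    (hZ : Measurable Z) (hcont : ∀ᵐ ω ∂P', Continuous (Z ω).1) :
    ¬ ConvInLaw V.P V.Y P' Z := by
  intro hconv
  obtain ⟨c⟩ := exists_chains V
  obtain ⟨p, hp, hfr⟩ := ng_prob hk hc hnt
  obtain ⟨G, hGm, hG01, hGc, hG0, hGj⟩ := jump_functional 2
  have hlim := hconv G hGm ⟨1, fun x => by
    rw [abs_of_nonneg (hG01 x).1]; exact (hG01 x).2⟩ hGc
  have hZ0 : ∫ ω, G (Z ω) ∂P' = 0 := by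
    rw [← integral_zero Ω' ℝ]
    refine integral_congr_ae ?_
    filter_upwards [hcont] with ω hω
    exact hG0 _ hω
  rw [hZ0] at hlim
  have hsg := sg_pos hk
  set C : ℝ := √(Real.exp (2 * sg a + 3)) with hC
  have hCpos : 0 < C := Real.sqrt_pos.2 (Real.exp_pos _)
  set c' : ℝ := (p / C) ^ 2 with hc'
  have hc'pos : 0 < c' := by positivity
  have hε : Tendsto (fun D : ℕ => 2 / (D : ℝ)) atTop (𝓝[>] 0) := by
    refine tendsto_nhdsWithin_iff.2 ⟨?_, ?_⟩
    · exact tendsto_const_nhds.div_atTop tendsto_natCast_atTop_atTop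
    · filter_upwards [eventually_gt_atTop 0] with D hD
      have : (0 : ℝ) < D := by exact_mod_cast hD
      exact div_pos two_pos this
  have hev1 := (hlim.comp hε).eventually (gt_mem_nhds hc'pos)
  have hev2 := eventually_ge_atTop (α := ℕ) 4
  obtain ⟨D, hD1, hD2, hD3⟩ := (hfr.and_eventually (hev1.and hev2)).exists
  simp only [Function.comp_apply] at hD2
  have hD4 : (4 : ℝ) ≤ D := by exact_mod_cast hD3
  set ε : ℝ := 2 / (D : ℝ) with hεdef
  have hDpos : (0 : ℝ) < D := by linarith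
  have h0 : 0 < ε := div_pos two_pos hDpos
  have h1 : ε ≤ 1 / 2 := by
    rw [hεdef, div_le_iff₀ hDpos]
    linarith
  have h1' : ε < 1 := by linarith
  have hinv : 1 / ε = (D : ℝ) / 2 := by
    rw [hεdef]; field_simp
  set n : ℕ := ⌈(2 * sg a + 2) * ((D : ℝ) / 2) ^ 2⌉₊ with hn
  have hj := ng_jump hk hc c h0 h1 n hGj
  rw [hinv] at hj
  have hSm := ngS_meas a n ((D : ℝ) / 2)
  have hPr := Pr_le hk (P := V.P ε) h0.le h1 (c.chain ε h0 h1') n hSm
  -- the constant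
  have hpow : √((1 + ε ^ 2) ^ n) ≤ C := by
    refine Real.sqrt_le_sqrt ?_
    have e1 : (1 + ε ^ 2) ^ n ≤ Real.exp (ε ^ 2 * n) := by
      calc (1 + ε ^ 2) ^ n ≤ (Real.exp (ε ^ 2)) ^ n := by
            refine pow_le_pow_left₀ (by positivity) ?_ n
            have := Real.add_one_le_exp (ε ^ 2)
            linarith
        _ = Real.exp (ε ^ 2 * n) := by rw [← Real.exp_nat_mul, mul_comm]
    refine e1.trans (Real.exp_le_exp.2 ?_)
    have e2 : (n : ℝ) ≤ (2 * sg a + 2) * ((D : ℝ) / 2) ^ 2 + 1 := by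
      have hx : 0 ≤ (2 * sg a + 2) * ((D : ℝ) / 2) ^ 2 := by positivity
      exact (Nat.ceil_lt_add_one hx).le
    have e3 : ε ^ 2 * ((D : ℝ) / 2) ^ 2 = 1 := by
      rw [hεdef]; field_simp
    have e4 : ε ^ 2 ≤ 1 := by nlinarith
    calc ε ^ 2 * n ≤ ε ^ 2 * ((2 * sg a + 2) * ((D : ℝ) / 2) ^ 2 + 1) := by gcongr
      _ = (2 * sg a + 2) * (ε ^ 2 * ((D : ℝ) / 2) ^ 2) + ε ^ 2 := by ring
      _ ≤ 2 * sg a + 3 := by rw [e3]; linarith
  -- lower bound for the probability under bias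
  set x : ℝ≥0∞ := V.P ε (abs' (c.Z ε) (c.ξ ε) n ⁻¹' ngS a n ((D : ℝ) / 2)) with hx
  have hxtop : x ≠ ∞ := measure_ne_top _ _
  have h2 : ENNReal.ofReal p ≤ ENNReal.ofReal C * x ^ (1 / 2 : ℝ) :=
    hD1.trans (hPr.trans (by gcongr))
  have h3 : p ≤ C * √(x.toReal) := by
    rw [← ENNReal.ofReal_toReal hxtop, ENNReal.ofReal_rpow_of_nonneg ENNReal.toReal_nonneg
      (by norm_num), ← Real.sqrt_eq_rpow, ← ENNReal.ofReal_mul hCpos.le] at h2
    exact (ENNReal.ofReal_le_ofReal_iff (by positivity)).1 h2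
  have h4 : c' ≤ x.toReal := by
    have h5 : p / C ≤ √(x.toReal) := by
      rw [div_le_iff₀ hCpos, mul_comm]
      exact h3
    calc c' = (p / C) ^ 2 := rfl
      _ ≤ (√(x.toReal)) ^ 2 := pow_le_pow_left₀ (by positivity) h5 2
      _ = x.toReal := Real.sq_sqrt ENNReal.toReal_nonneg
  have h6 : x ≤ V.P ε {ω | 1 ≤ G (V.Y ε ω)} := by
    refine measure_mono_ae ?_
    filter_upwards [hj] with ω hω h
    exact hω h
  have hint : Integrable (fun ω => G (V.Y ε ω)) (V.P ε) := by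
    refine Integrable.of_bound (hGm.comp (V.meas ε)).aestronglyMeasurable 1
      (Eventually.of_forall fun ω => ?_)
    rw [Real.norm_eq_abs, abs_of_nonneg (hG01 _).1]
    exact (hG01 _).2
  have h7 := mul_meas_ge_le_integral_of_nonneg
    (Eventually.of_forall fun ω => (hG01 (V.Y ε ω)).1) hint 1
  rw [one_mul] at h7
  have h8 : x.toReal ≤ (V.P ε).real {ω | 1 ≤ G (V.Y ε ω)} :=
    ENNReal.toReal_mono (measure_ne_top _ _) h6
  linarith

end H40.VM
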