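import Pool.Agent.H40.Voter.Tail
import Pool.Agent.H40.VM.CONV
import Pool.Agent.H40.VM.NG
import Pool.Agent.H40.VM.NCb
import Pool.Agent.H40.VM.EX
import Pool.Agent.H40.VM.AC

/-!
# Module FIN: assembly
-/

open MeasureTheory ProbabilityTheory Filter Topology
open scoped ENNReal NNReal BoundedContinuousFunction

namespace H40.Voter

open H40.VM

/-- for centred kernels every limit in law is continuous -/
lemma limit_cont {a : ℤ → ℝ} (hk : IsKernel a) (hc : mn a = 0) (V : VoterFam a)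
    {Ω' : Type} [MeasurableSpace Ω'] {P' : Measure Ω'} [IsProbabilityMeasure P'] {Z : Ω' → SkoD}
    (hZ : Measurable Z) (hconv : ConvInLaw V.P V.Y P' Z) : ∀ᵐ ω ∂P', Continuous (Z ω).1 := by
  refine cont_of_limit V.meas hZ (v := sg a) (μ := -(sg a) / 2) (sg_pos hk).le ?_ hconv
  intro s t θ hst
  rcases eq_or_lt_of_le hst with rfl | hlt
  · simp only [sub_self, mul_zero, zero_div, neg_zero, Complex.ofReal_zero, zero_mul, add_zero,
      Complex.exp_zero, integral_const, probReal_univ, one_smul]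
    exact tendsto_const_nhds
  · have hne : s ≠ t := hlt.ne
    have h := char_Y hk hc V {s, t} (fun r => if r = t then θ else -θ)
    have e1 : ∀ ε (ω : V.Ω ε), (∑ r ∈ ({s, t} : Finset ℝ≥0),
        (if r = t then θ else -θ) * (V.Y ε ω).1 r : ℝ) = θ * ((V.Y ε ω).1 t - (V.Y ε ω).1 s) := by
      intro ε ω
      rw [Finset.sum_pair hne, if_neg hne, if_pos rfl]
      ring
    simp only [e1] at h
    convert h using 2
    have hmin : min (s : ℝ) t = s := min_eq_left (by exact_mod_cast hst)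
    have hmin' : min (t : ℝ) s = s := by rw [min_comm]; exact hmin
    have e2 : ∑ u ∈ ({s, t} : Finset ℝ≥0), ∑ r ∈ ({s, t} : Finset ℝ≥0),
        (if u = t then θ else -θ) * (if r = t then θ else -θ) * min (u : ℝ) r =
        θ ^ 2 * (t - s) := by
      rw [Finset.sum_pair hne, Finset.sum_pair hne, Finset.sum_pair hne, if_neg hne, if_pos rfl,
        hmin, hmin', min_self, min_self]
      ring
    have e3 : ∑ u ∈ ({s, t} : Finset ℝ≥0), (if u = t then θ else -θ) * (u : ℝ) =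
        θ * (t - s) := by
      rw [Finset.sum_pair hne, if_neg hne, if_pos rfl]
      ring
    rw [e2, e3]
    push_cast
    ring_nf

theorem final_statement {a : ℤ → ℝ} (hk : IsKernel a) :
    Nonempty (VoterFam a) ∧
    ((Summable fun n : ℕ => (n : ℝ) ^ 3 * a (-(n : ℤ))) → TailSmall a) ∧
    ∀ V : VoterFam a, ∀ (Ω' : Type) [MeasurableSpace Ω'] (P' : Measure Ω') [IsProbabilityMeasure P']
      (Z : Ω' → SkoD), Measurable Z →
      (∑' k : ℤ, a k * (k : ℝ) = 0 →
        IsDriftedBM P' (√(∑' k : ℤ, a k * (k : ℝ) ^ 2)) (-(∑' k : ℤ, a k * (k : ℝ) ^ 2) / 2) Z →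
        (∀ (s : Finset ℝ≥0) (g : (s → ℝ) →ᵇ ℝ),
          Tendsto (fun ε : ℝ => ∫ ω, g (fun t => (V.Y ε ω).1 t) ∂(V.P ε)) (𝓝[>] 0)
            (𝓝 (∫ ω, g (fun t => (Z ω).1 t) ∂P'))) ∧
        (TailSmall a → ConvInLaw V.P V.Y P' Z)) ∧
      (ConvInLaw V.P V.Y P' Z → ∑' k : ℤ, a k * (k : ℝ) = 0 ∧ TailSmall a) := by
  refine ⟨exists_fam hk, fun h => tail_of_third hk h, ?_⟩
  intro V Ω' _ P' _ Z hZ
  refine ⟨fun hc hB => ⟨fdd_main hk hc V hZ hB, fun ht => conv_main hk hc ht V hZ hB⟩, ?_⟩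
  intro hconv
  by_cases hc : mn a = 0
  · refine ⟨hc, by_contra fun ht => ?_⟩
    exact neg_tail hk hc ht V hZ (limit_cont hk hc V hZ hconv) hconv
  · exact absurd hconv (neg_mean hk hc V hZ)

end H40.Voter
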