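import Pool.Agent.H40.VM.NCb
import Pool.Agent.H40.VM.EC
import Pool.Agent.H40.VM.FCm

/-!
# Module NM: no limit of the measure valued processes when the kernel is not centred

Let `φ x = max 0 (1 - |x|)` (`∫ φ = 1`, `∫_0^∞ φ = 1/2`), `m = mn a ≠ 0`, `K = 3/|m|`, `s = K/ε`
(unscaled time), i.e. rescaled time `K ε → 0`. Claims:
* `NM_far`: `V.P ε {ω | |∫ φ d(M ε ω)_{K ε} - 1/2| < 1/4} → 0`. As in `nc_far` (module NCb): let `k` be
  the index with `jumpTime k ≤ s < jumpTime (k+1)`; outside of events of small probability for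
  the unbiased chain, `|cc - m s| ≤ |m| s/3` and `hh ≤ κ s`, hence `dd² ≤ hh ≤ κ s` and
  `ε dd → 0`, while `ε |cc| ≥ 2`. By `emp_close` (with `w = ε cc`), `∫ φ dM` is close to
  `∫_{ε cc}^∞ φ`, which is `0` or `1`.
* almost surely `∫ φ d(N ω)_0 = 1/2`: the functional `w ↦ min 1 |∫ φ dw_0 - 1/2|` is bounded,
  measurable and continuous (time changes fix `0`), and `(M ε ω)_0 = empMeasure ε heaviside`
  almost surely, whose integral of `φ` tends to `1/2`.
* supremum functional: `w ↦ (t ↦ ∫ φ dw_t - 1/2)` is a map `MeasD → SkoD` which is measurable and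
  maps `MTendsto` to `SkoTendsto`; compose it with the functional of `sup_functional r` (module JF).
Conclusion as in `neg_mean` (module NCb): `1/4 ≤ lim E G_r (M ε) = E G_r (N) → 0` as `r → 0`, because
`t ↦ ∫ φ dN_t` is right continuous at `0` with value `1/2` there.
-/

open MeasureTheory ProbabilityTheory Filter Topology
open scoped ENNReal NNReal unitInterval symmDiff

namespace H40.VM

open H40.Voter (IsKernel VoterFam SkoD MeasD MConvInLaw MeasFam IsSharp jumpTime empMeasure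
  MTendsto SkoTendsto)

variable {a : ℤ → ℝ}

/-! ### the test function -/

/-- the test function -/
noncomputable def NM_phi (x : ℝ) : ℝ := max 0 (1 - |x|)

lemma NM_phi_cont : Continuous NM_phi := by
  unfold NM_phi
  fun_prop

lemma NM_phi_nonneg (x : ℝ) : 0 ≤ NM_phi x := le_max_left _ _

lemma NM_phi_zero {x : ℝ} (h : 1 ≤ |x|) : NM_phi x = 0 := max_eq_left (by linarith)

lemma NM_phi_supp : HasCompactSupport NM_phi := by
  refine HasCompactSupport.intro (isCompact_Icc (a := (-1 : ℝ)) (b := 1)) fun x hx => ?_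
  apply NM_phi_zero
  by_contra hcon
  push Not at hcon
  exact hx ⟨(abs_lt.1 hcon).1.le, (abs_lt.1 hcon).2.le⟩

lemma NM_F_zero : FCm_F NM_phi 0 = 1 / 2 := by
  unfold FCm_F
  rw [setIntegral_eq_of_subset_of_forall_sdiff_eq_zero (s := Set.Ioc 0 1) measurableSet_Ioi
    (fun x hx => hx.1) (fun x hx => ?_)]
  · have h1 : ∫ x in Set.Ioc (0 : ℝ) 1, NM_phi x = ∫ x in Set.Ioc (0 : ℝ) 1, (1 - x) := by
      refine setIntegral_congr_fun measurableSet_Ioc fun x hx => ?_
      simp only [NM_phi]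
      rw [abs_of_pos hx.1, max_eq_right (by linarith [hx.2])]
    rw [h1, ← intervalIntegral.integral_of_le zero_le_one, intervalIntegral.integral_sub
      (by simp) (by simp)]
    simp
    norm_num
  · have h1 : (0 : ℝ) < x := hx.1
    have h2 : ¬ x ≤ 1 := fun h => hx.2 ⟨h1, h⟩
    apply NM_phi_zero
    rw [abs_of_pos h1]
    linarith

lemma NM_F_right {w : ℝ} (h : 1 ≤ w) : FCm_F NM_phi w = 0 := by
  unfold FCm_F
  refine setIntegral_eq_zero_of_forall_eq_zero fun x hx => ?_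
  apply NM_phi_zero
  have h1 : w < x := hx
  rw [abs_of_pos (by linarith)]
  linarith

lemma NM_F_left {w : ℝ} (h : w ≤ -1) : FCm_F NM_phi w = 1 := by
  have h1 : ∫ x, NM_phi x = 2 * ∫ x in Set.Ioi (0 : ℝ), max 0 (1 - x) :=
    integral_comp_abs (f := fun u : ℝ => max 0 (1 - u))
  have h2 : ∫ x in Set.Ioi (0 : ℝ), max 0 (1 - x) = FCm_F NM_phi 0 := by
    unfold FCm_F
    refine setIntegral_congr_fun measurableSet_Ioi fun x hx => ?_
    simp only [NM_phi]
    rw [abs_of_pos (show (0 : ℝ) < x from hx)]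
  rw [h2, NM_F_zero] at h1
  unfold FCm_F
  rw [setIntegral_eq_integral_of_forall_compl_eq_zero (fun x hx => ?_), h1]
  · norm_num
  · apply NM_phi_zero
    have h3 : x ≤ w := not_lt.1 hx
    rw [abs_of_neg (by linarith)]
    linarith

/-! ### the associated real process -/

/-- the integral of the test function -/
noncomputable def NM_Th (w : MeasD) : SkoD :=
  ⟨fun t => (∫ x, NM_phi x ∂(w.1 t)) - 1 / 2, fun t => by
    obtain ⟨h1, l, hl⟩ := w.2.2 NM_phi NM_phi_cont NM_phi_supp t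
    exact ⟨h1.sub continuousWithinAt_const, l - 1 / 2, hl.sub_const _⟩⟩

lemma NM_measurable_Th : Measurable NM_Th := by
  refine Measurable.subtype_mk ?_
  refine measurable_pi_iff.2 fun t => ?_
  have h1 : Measurable fun w : MeasD => w.1 t :=
    (measurable_pi_apply t).comp measurable_subtype_coe
  have h2 : Measurable fun μ : Measure ℝ => ∫⁻ x, ENNReal.ofReal (NM_phi x) ∂μ :=
    Measure.measurable_lintegral (NM_phi_cont.measurable.ennreal_ofReal)
  have h3 : (fun w : MeasD => (∫ x, NM_phi x ∂(w.1 t)) - 1 / 2) =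
      fun w : MeasD => (∫⁻ x, ENNReal.ofReal (NM_phi x) ∂(w.1 t)).toReal - 1 / 2 := by
    funext w
    rw [integral_eq_lintegral_of_nonneg_ae (Eventually.of_forall NM_phi_nonneg)
      NM_phi_cont.aestronglyMeasurable]
  rw [h3]
  exact ((h2.comp h1).ennreal_toReal).sub_const _

lemma NM_Th_tendsto {x : ℕ → MeasD} {y : MeasD} (h : MTendsto x y) :
    SkoTendsto (fun n => NM_Th (x n)) (NM_Th y) := by
  obtain ⟨lam, h1, h2⟩ := h
  refine ⟨lam, h1, fun N => ?_⟩
  have h3 := h2 NM_phi NM_phi_cont NM_phi_supp N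
  rw [Metric.tendstoUniformlyOn_iff] at h3 ⊢
  intro κ hκ
  filter_upwards [h3 κ hκ] with n hn s hs
  have h4 := hn s hs
  rw [Real.dist_eq] at h4 ⊢
  change |((∫ z, NM_phi z ∂(y.1 s)) - 1 / 2) - ((∫ z, NM_phi z ∂((x n).1 (lam n s))) - 1 / 2)| < κ
  rwa [sub_sub_sub_cancel_right]

/-! ### the unbiased chain -/

theorem NM_unbiased (hk : IsKernel a) {K δ κ : ℝ} (hK : 0 < K) (hδ : 0 < δ) (hκ : 0 < κ) :
    Tendsto (fun s : ℝ => Pr {ω | ∃ k, (vc a true).T k ∅ ω ≤ s ∧
      s - K < (vc a true).T (k + 1) ∅ ω ∧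
      (δ * s ≤ |(cc ((vc a true).Y k ∅ ω) : ℝ) - mn a * s| ∨
        κ * s ≤ hh ((vc a true).Y k ∅ ω))}) atTop (𝓝 0) := by
  have hδ3 : 0 < δ / 2 := by positivity
  have h1 := nca_centre hk hδ3
  have h2 := nca_jumps hk hK hδ3
  have h3 : Tendsto (fun s : ℝ => ENNReal.ofReal (((∫ ω, hh ((vc a true).X (s - K) ∅ ω) ∂Pr) +
      K * sg a / 2) / (κ * s))) atTop (𝓝 0) := by
    have h4 := nca_shift (tendsto_Ehh hk) K
    have h5 : Tendsto (fun s : ℝ => K * sg a / 2 / s) atTop (𝓝 0) :=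
      tendsto_const_nhds.div_atTop tendsto_id
    have h6 := (h4.add h5).div_const κ
    rw [add_zero, zero_div] at h6
    have h7 := ENNReal.tendsto_ofReal h6
    rw [ENNReal.ofReal_zero] at h7
    refine h7.congr fun s => ?_
    congr 1
    rw [← add_div, div_div, mul_comm s]
  have h8 := (h1.add h2).add h3
  rw [add_zero, add_zero] at h8
  refine tendsto_of_tendsto_of_tendsto_of_le_of_le' tendsto_const_nhds h8
    (Eventually.of_forall fun s => bot_le) ?_
  filter_upwards [eventually_gt_atTop (0 : ℝ), eventually_gt_atTop K] with s hs hs'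
  have h9 := nca_hit hk hK.le (sub_pos.2 hs').le (mul_pos hκ hs)
  rw [sub_add_cancel] at h9
  refine le_trans ?_ (add_le_add le_rfl h9)
  refine le_trans ?_ (add_le_add (measure_union_le _ _) le_rfl)
  refine le_trans ?_ (measure_union_le _ _)
  refine measure_mono_ae ?_
  filter_upwards [(vc a true).ae_finite (ne_true hk) ∅] with ω hω hmem
  obtain ⟨k, hk1, hk2, hk3⟩ := hmem
  rcases hk3 with hk3 | hk3
  swap
  · exact Or.inr ⟨k, hk1, hk2, hk3⟩
  left
  by_contra hno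
  simp only [Set.mem_union, not_or] at hno
  obtain ⟨hA, hB⟩ := hno
  have hA : ¬ δ / 2 * s ≤ |(cc ((vc a true).X s ∅ ω) : ℝ) - mn a * s| := hA
  have hB : ¬ δ / 2 * s ≤ ((vc a true).N s ∅ ω : ℝ) - (vc a true).N (s - K) ∅ ω := hB
  push Not at hA hB
  have hN1 : (vc a true).N (s - K) ∅ ω ≤ k := (vc a true).N_le hk2
  have hN2 : k ≤ (vc a true).N s ∅ ω := by
    by_contra hcon
    have h10 := ((vc a true).N_eq_iff hs.le (hω s)).1 rfl
    have h11 : (vc a true).T ((vc a true).N s ∅ ω + 1) ∅ ω ≤ (vc a true).T k ∅ ω :=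
      (vc a true).T_mono ∅ ω (by omega)
    linarith [h10.2]
  obtain ⟨l, hl⟩ := Nat.exists_eq_add_of_le hN2
  have h12 := nca_cc_dist (a := a) ∅ ω k l
  rw [← hl] at h12
  have h13 : |(cc ((vc a true).Y k ∅ ω) : ℝ) - cc ((vc a true).X s ∅ ω)| ≤ l := h12
  have h14 : (l : ℝ) ≤ ((vc a true).N s ∅ ω : ℝ) - (vc a true).N (s - K) ∅ ω := by
    rw [hl]
    push_cast
    have : ((vc a true).N (s - K) ∅ ω : ℝ) ≤ k := by exact_mod_cast hN1
    linarith
  have h17 := abs_sub_le (cc ((vc a true).Y k ∅ ω) : ℝ) (cc ((vc a true).X s ∅ ω)) (mn a * s)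
  linarith

/-- the bad set -/
def NM_bad (a : ℤ → ℝ) (K s : ℝ) (n : ℕ) : Set ((ℕ → St) × (ℕ → ℝ)) :=
  {p | claT a n p ≤ s} ∪ {p | ∃ k < n, claT a k p ≤ s ∧ s - K < claT a (k + 1) p ∧
    (|mn a| / 3 * s ≤ |(cc (p.1 k) : ℝ) - mn a * s| ∨ 1 * s ≤ hh (p.1 k))}

theorem NM_measurableSet_bad (K s : ℝ) (n : ℕ) : MeasurableSet (NM_bad a K s n) := by
  refine (measurableSet_le (measurable_claT n) measurable_const).union ?_
  have : {p : (ℕ → St) × (ℕ → ℝ) | ∃ k < n, claT a k p ≤ s ∧ s - K < claT a (k + 1) p ∧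
    (|mn a| / 3 * s ≤ |(cc (p.1 k) : ℝ) - mn a * s| ∨ 1 * s ≤ hh (p.1 k))} =
    ⋃ k ∈ Finset.range n, {p : (ℕ → St) × (ℕ → ℝ) | claT a k p ≤ s ∧ s - K < claT a (k + 1) p ∧
    (|mn a| / 3 * s ≤ |(cc (p.1 k) : ℝ) - mn a * s| ∨ 1 * s ≤ hh (p.1 k))} := by
    ext p
    simp only [Set.mem_ofPred_eq, Set.mem_iUnion, Finset.mem_range, exists_prop]
  rw [this]
  refine Finset.measurableSet_biUnion _ fun k _ => ?_
  refine (measurableSet_le (measurable_claT k) measurable_const).inter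
    ((measurableSet_lt measurable_const (measurable_claT (k + 1))).inter ?_)
  have h1 : Measurable fun m : St => |(cc m : ℝ) - mn a * s| := measurable_of_countable _
  have h2 : Measurable fun m : St => hh m := measurable_of_countable _
  exact (measurableSet_le measurable_const (h1.comp (measurable_fst_apply k))).union
    (measurableSet_le measurable_const (h2.comp (measurable_fst_apply k)))

theorem NM_can_bad (hk : IsKernel a) (K s : ℝ) (n : ℕ) :
    can a n ⁻¹' NM_bad a K s n ⊆ {ω | (vc a true).T n ∅ ω ≤ s} ∪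
      {ω | ∃ k, (vc a true).T k ∅ ω ≤ s ∧ s - K < (vc a true).T (k + 1) ∅ ω ∧
      (|mn a| / 3 * s ≤ |(cc ((vc a true).Y k ∅ ω) : ℝ) - mn a * s| ∨
        1 * s ≤ hh ((vc a true).Y k ∅ ω))} := by
  rintro ω (h | ⟨k, hkn, h1, h2, h3⟩)
  · left
    have h' : claT a n (can a n ω) ≤ s := h
    rw [claT_can hk le_rfl] at h'
    exact h'
  · right
    rw [claT_can hk hkn.le] at h1
    rw [claT_can hk (by omega : k + 1 ≤ n)] at h2
    rw [can_fst hkn.le] at h3
    exact ⟨k, h1, h2, h3⟩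

theorem NM_tendsto_Pr (hk : IsKernel a) {K : ℝ} (hK : 0 < K) (hm : mn a ≠ 0) :
    Tendsto (fun ε : ℝ => Pr (can a (NCb.nn ε) ⁻¹' NM_bad a K (K / ε) (NCb.nn ε))) (𝓝[>] 0)
      (𝓝 0) := by
  have hs : Tendsto (fun ε : ℝ => K / ε) (𝓝[>] 0) atTop := by
    simp only [div_eq_mul_inv]
    exact tendsto_inv_nhdsGT_zero.const_mul_atTop hK
  have hm' : 0 < |mn a| := abs_pos.2 hm
  have h1 := (NM_unbiased hk hK (δ := |mn a| / 3) (κ := 1) (by positivity) one_pos).comp hs
  have h2 : Tendsto (fun ε : ℝ => ENNReal.ofReal (K * sg a * ε)) (𝓝[>] 0) (𝓝 0) := by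
    have : Tendsto (fun ε : ℝ => ENNReal.ofReal (K * sg a * ε)) (𝓝 0)
        (𝓝 (ENNReal.ofReal (K * sg a * 0))) :=
      (ENNReal.continuous_ofReal.comp (continuous_const.mul continuous_id)).tendsto 0
    rw [mul_zero, ENNReal.ofReal_zero] at this
    exact this.mono_left nhdsWithin_le_nhds
  have h3 := h2.add h1
  rw [add_zero] at h3
  refine tendsto_of_tendsto_of_tendsto_of_le_of_le' tendsto_const_nhds h3
    (Eventually.of_forall fun _ => zero_le) ?_
  filter_upwards [self_mem_nhdsWithin] with ε hε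
  have hε' : 0 < ε := hε
  refine (measure_mono (NM_can_bad hk _ _ _)).trans ((measure_union_le _ _).trans ?_)
  refine add_le_add ?_ le_rfl
  have h4 := NCb.T_le hk (s := K / ε) (by positivity) (NCb.nn ε)
  have hn : 1 / ε ^ 2 ≤ NCb.nn ε := Nat.le_ceil _
  have hn0 : (0 : ℝ) < NCb.nn ε := lt_of_lt_of_le (by positivity) hn
  have hn1 : (NCb.nn ε : ℝ≥0∞) ≠ 0 := by
    have : NCb.nn ε ≠ 0 := by
      intro h
      rw [h] at hn0
      simp at hn0
    exact_mod_cast this
  have h5 : Pr {ω | (vc a true).T (NCb.nn ε) ∅ ω ≤ K / ε} ≤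
      ENNReal.ofReal (K / ε * sg a) / (NCb.nn ε : ℝ≥0∞) := by
    rw [ENNReal.le_div_iff_mul_le (Or.inl hn1) (Or.inl (ENNReal.natCast_ne_top _)), mul_comm]
    exact h4
  refine h5.trans ?_
  rw [← ENNReal.ofReal_natCast, ← ENNReal.ofReal_div_of_pos hn0]
  refine ENNReal.ofReal_le_ofReal ?_
  have hsg := cb_sg_nonneg hk
  rw [div_le_iff₀ hn0]
  calc K / ε * sg a = K * sg a * ε * (1 / ε ^ 2) := by field_simp
    _ ≤ K * sg a * ε * NCb.nn ε := mul_le_mul_of_nonneg_left hn (by positivity)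

theorem NM_far_subset (hk : IsKernel a) (hm : mn a ≠ 0) {V : VoterFam a} (M : MeasFam V)
    (c : Chains V) {δ ε : ℝ} (hδ : 0 < δ)
    (hemp : ∀ ε : ℝ, 0 < ε → ε < δ → ∀ (m : St) (w : ℝ), |w - ε * cc m| ≤ δ →
      ε * dd m ≤ δ →
      |(∫ x, NM_phi x ∂(empMeasure ε (cf true m))) - ∫ x in Set.Ioi w, NM_phi x| ≤ 1 / 8)
    (h0 : 0 < ε) (h1 : ε < 1) (hεδ : ε < δ) (hεK : 3 / |mn a| * ε ≤ δ ^ 2) :
    ∀ᵐ ω ∂(V.P ε), |(NM_Th (M.M ε ω)).1 (3 / |mn a| * ε).toNNReal| < 1 / 4 →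
      ω ∈ abs' (c.Z ε) (c.ξ ε) (NCb.nn ε) ⁻¹'
        NM_bad a (3 / |mn a|) (3 / |mn a| / ε) (NCb.nn ε) := by
  filter_upwards [ae_class hk h0.le h1 (c.chain ε h0 h1), NCb.jump_cmp hk c h0 h1,
    c.hold ε h0 h1, M.eq ε h0 h1] with ω h2 h3 h4 h5 hY
  by_contra hbad
  set K : ℝ := 3 / |mn a| with hK
  have hm' : 0 < |mn a| := abs_pos.2 hm
  have hKpos : 0 < K := by positivity
  set s : ℝ := K / ε with hs
  have hspos : 0 < s := by positivity
  have hbad' : ¬ ((claT a (NCb.nn ε) (abs' (c.Z ε) (c.ξ ε) (NCb.nn ε) ω) ≤ s) ∨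
      ∃ k < NCb.nn ε, claT a k (abs' (c.Z ε) (c.ξ ε) (NCb.nn ε) ω) ≤ s ∧
      s - K < claT a (k + 1) (abs' (c.Z ε) (c.ξ ε) (NCb.nn ε) ω) ∧
      (|mn a| / 3 * s ≤ |(cc ((abs' (c.Z ε) (c.ξ ε) (NCb.nn ε) ω).1 k) : ℝ) - mn a * s| ∨
        1 * s ≤ hh ((abs' (c.Z ε) (c.ξ ε) (NCb.nn ε) ω).1 k))) := hbad
  push Not at hbad'
  obtain ⟨hb1, hb2⟩ := hbad'
  rw [claT_abs c le_rfl] at hb1
  have hjn : s < jumpTime a ε (c.Z ε) (c.ξ ε) (NCb.nn ε) ω := hb1.trans_le (h3 _).1
  -- the index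
  classical
  have hex : ∃ n, s < jumpTime a ε (c.Z ε) (c.ξ ε) n ω := ⟨_, hjn⟩
  obtain ⟨n, hn1, hn2⟩ : ∃ n, s < jumpTime a ε (c.Z ε) (c.ξ ε) n ω ∧
      ∀ j < n, jumpTime a ε (c.Z ε) (c.ξ ε) j ω ≤ s :=
    ⟨Nat.find hex, Nat.find_spec hex, fun j hj => not_lt.1 (Nat.find_min hex hj)⟩
  have hn0 : n ≠ 0 := by
    rintro rfl
    simp [jumpTime] at hn1
    linarith
  obtain ⟨k, rfl⟩ := Nat.exists_eq_succ_of_ne_zero hn0
  have hkn : k < NCb.nn ε := by
    by_contra hcon
    have := hn2 (NCb.nn ε) (by omega)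
    linarith
  have hk1 := hn2 k (Nat.lt_succ_self k)
  have hT1 : c.T0 ε k ω ≤ s := (h3 k).1.trans hk1
  have hT2 : s - K < c.T0 ε (k + 1) ω := by
    have h6 := (h3 (k + 1)).2
    have h7 : (1 - ε) * s < (1 - ε) * jumpTime a ε (c.Z ε) (c.ξ ε) (k + 1) ω :=
      mul_lt_mul_of_pos_left hn1 (by linarith)
    have h8 : (1 - ε) * s = s - K := by
      rw [hs]; field_simp
    linarith
  have hlf := hb2 k hkn (by rw [claT_abs c hkn.le]; exact hT1)
    (by rw [claT_abs c (by omega : k + 1 ≤ NCb.nn ε)]; exact hT2)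
  rw [abs_fst c hkn.le] at hlf
  obtain ⟨hcc, hhh⟩ := hlf
  -- the measure
  set t : ℝ≥0 := (K * ε).toNNReal with ht
  have htt : ((t / (ε ^ 2).toNNReal : ℝ≥0) : ℝ) = s := by
    rw [NNReal.coe_div, Real.coe_toNNReal _ (sq_nonneg ε), ht,
      Real.coe_toNNReal _ (by positivity), hs]
    field_simp
  have h9 : V.X ε (t / (ε ^ 2).toNNReal) ω = c.Z ε k ω := by
    refine h4 k (t / (ε ^ 2).toNNReal) ?_ ?_
    · rw [htt]; exact hk1
    · rw [htt]; exact hn1
  set m : St := mis (c.Z ε k ω) with hmdef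
  have h10 : (M.M ε ω).1 t = empMeasure ε (cf true m) := by
    rw [h5 t, h9]
    conv_lhs => rw [(h2 k).1]
  have hdd0 : 0 ≤ dd m := Nat.cast_nonneg _
  have hdd : ε * dd m ≤ δ := by
    have h11 : dd m ^ 2 ≤ hh m := sq_no_le m
    have h12 : ε ^ 2 * dd m ^ 2 ≤ δ ^ 2 := by
      have h13 : ε ^ 2 * dd m ^ 2 ≤ ε ^ 2 * s :=
        mul_le_mul_of_nonneg_left (by linarith) (sq_nonneg ε)
      have h14 : ε ^ 2 * s = K * ε := by rw [hs]; field_simp
      linarith
    by_contra hcon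
    push Not at hcon
    have h15 : δ ^ 2 < (ε * dd m) ^ 2 := pow_lt_pow_left₀ hcon hδ.le (by norm_num)
    rw [mul_pow] at h15
    linarith
  have h16 := hemp ε h0 hεδ m (ε * cc m) (by rw [sub_self, abs_zero]; exact hδ.le) hdd
  have hY' : |(∫ x, NM_phi x ∂((M.M ε ω).1 t)) - 1 / 2| < 1 / 4 := hY
  rw [h10] at hY'
  have h17 : |mn a| * s = 3 / ε := by
    rw [hs, hK]; field_simp
  set l : ℝ := (cc m : ℝ) with hl
  have h18 : |mn a| * s ≤ |l| + |l - mn a * s| := by
    have := abs_sub_abs_le_abs_sub (mn a * s) l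
    rw [abs_sub_comm, abs_mul, abs_of_pos hspos] at this
    linarith
  have h19 : 2 / ε < |l| := by
    have e1 : |mn a| / 3 * s = 1 / ε := by
      have : |mn a| / 3 * s = (|mn a| * s) / 3 := by ring
      rw [this, h17]
      ring
    rw [e1] at hcc
    rw [h17] at h18
    have e2 : 2 / ε = 3 / ε - 1 / ε := by ring
    rw [e2]
    linarith
  have h20 : 2 < ε * |l| := by
    have : ε * (2 / ε) < ε * |l| := mul_lt_mul_of_pos_left h19 h0
    have e3 : ε * (2 / ε) = 2 := by field_simp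
    linarith
  have h21 : 2 < |ε * l| := by rw [abs_mul, abs_of_pos h0]; exact h20
  rw [abs_le] at h16
  rw [abs_lt] at hY'
  rcases lt_abs.1 h21 with h22 | h22
  · have h23 := NM_F_right (w := ε * l) (by linarith)
    unfold FCm_F at h23
    rw [h23] at h16
    linarith [h16.1, h16.2, hY'.1, hY'.2]
  · have h23 := NM_F_left (w := ε * l) (by linarith)
    unfold FCm_F at h23
    rw [h23] at h16
    linarith [h16.1, h16.2, hY'.1, hY'.2]

theorem NM_zero (hk : IsKernel a) {V : VoterFam a} (M : MeasFam V) (c : Chains V) {ε : ℝ}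
    (h0 : 0 < ε) (h1 : ε < 1) :
    ∀ᵐ ω ∂(V.P ε), (M.M ε ω).1 0 = empMeasure ε (cf true ∅) := by
  filter_upwards [ae_class hk h0.le h1 (c.chain ε h0 h1), ae_zero hk h0.le h1 (c.chain ε h0 h1),
    NCb.jump_cmp hk c h0 h1, c.hold ε h0 h1, M.eq ε h0 h1] with ω h2 hz h3 h4 h5
  have h9 : V.X ε (0 / (ε ^ 2).toNNReal) ω = c.Z ε 0 ω := by
    refine h4 0 (0 / (ε ^ 2).toNNReal) ?_ ?_
    · simp [jumpTime]
    · have h6 := (h3 (0 + 1)).1
      refine lt_of_lt_of_le ?_ h6
      have ht := tot_true_pos hk (mis (c.Z ε 0 ω))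
      have hx := (h2 0).2
      simp only [Chains.T0, zero_add, Finset.sum_range_one, zero_div, NNReal.coe_zero]
      positivity
  rw [h5 0, h9, (h2 0).1, hz]

theorem NM_far (hk : IsKernel a) (hm : mn a ≠ 0) (V : VoterFam a) (M : MeasFam V) :
    Tendsto (fun ε : ℝ => V.P ε {ω | |(NM_Th (M.M ε ω)).1 (3 / |mn a| * ε).toNNReal| < 1 / 4})
      (𝓝[>] 0) (𝓝 0) := by
  obtain ⟨c⟩ := exists_chains V
  have hm' : 0 < |mn a| := abs_pos.2 hm
  have hn : ∀ᶠ ε : ℝ in 𝓝[>] 0, (NCb.nn ε : ℝ) ≤ 1 / ε ^ 2 + 1 :=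
    Eventually.of_forall fun ε => (Nat.ceil_lt_add_one (by positivity)).le
  have h1 := tendsto_P_of_Pr hk c (K := 1) zero_le_one hn
    (S := fun ε => NM_bad a (3 / |mn a|) (3 / |mn a| / ε) (NCb.nn ε))
    (fun ε => NM_measurableSet_bad _ _ _) (NM_tendsto_Pr hk (by positivity) hm)
  refine tendsto_of_tendsto_of_tendsto_of_le_of_le' tendsto_const_nhds h1
    (Eventually.of_forall fun _ => zero_le) ?_
  obtain ⟨δ, hδ, hemp⟩ := emp_close NM_phi_cont NM_phi_supp (κ := 1 / 8) (by norm_num)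
  filter_upwards [cla_ev_small (b := 1 / 2) (by norm_num),
    cla_ev_small (b := δ / 2) (by positivity),
    cla_ev_small (b := δ ^ 2 / (3 / |mn a|)) (by positivity)] with ε h3 h4 h5
  refine measure_mono_ae ?_
  have h6 : 3 / |mn a| * ε ≤ δ ^ 2 := by
    have := h5.2
    rw [le_div_iff₀ (by positivity)] at this
    linarith
  filter_upwards [NM_far_subset hk hm M c hδ hemp h3.1 (by linarith [h3.2])
    (by linarith [h4.2]) h6] with ω hω h
  exact hω h

theorem neg_mean_meas (hk : IsKernel a) (hm : mn a ≠ 0) (V : VoterFam a) (M : MeasFam V)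
    {Ω' : Type} [MeasurableSpace Ω'] {P' : Measure Ω'} [IsProbabilityMeasure P']
    {N : Ω' → MeasD} (hN : Measurable N) : ¬ MConvInLaw V.P M.M P' N := by
  intro hconv0
  obtain ⟨c⟩ := exists_chains V
  have hm' : 0 < |mn a| := abs_pos.2 hm
  set Z' : Ω' → SkoD := fun ω => NM_Th (N ω) with hZ'def
  have hZ' : Measurable Z' := NM_measurable_Th.comp hN
  have hYm0 : ∀ ε, Measurable fun ω => NM_Th (M.M ε ω) := fun ε =>
    NM_measurable_Th.comp (M.meas ε)
  have hconv : H40.Voter.ConvInLaw V.P (fun ε ω => NM_Th (M.M ε ω)) P' Z' := by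
    intro G hGm hGb hGc
    have h1 := hconv0 (fun w => G (NM_Th w)) (hGm.comp NM_measurable_Th)
      (by
        obtain ⟨C, hC⟩ := hGb
        exact ⟨C, fun x => hC _⟩) (fun x y hxy => hGc _ _ (NM_Th_tendsto hxy))
    exact h1
  -- `Z' 0 = 0`
  have hz : ∀ᵐ ω ∂P', (Z' ω).1 0 = 0 := by
    obtain ⟨hG1, hG2⟩ := zero_functional
    have h1 := hconv _ hG1 ⟨1, fun x => by
      rw [abs_of_nonneg (le_min zero_le_one (abs_nonneg _))]
      exact min_le_left _ _⟩ hG2
    have h3 : Tendsto (fun ε : ℝ => ∫ ω, min 1 |(NM_Th (M.M ε ω)).1 0| ∂(V.P ε)) (𝓝[>] 0)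
        (𝓝 0) := by
      rw [Metric.tendsto_nhds]
      intro κ hκ
      obtain ⟨δ, hδ, hemp⟩ := emp_close NM_phi_cont NM_phi_supp (κ := κ / 2) (by positivity)
      filter_upwards [cla_ev_small (b := 1 / 2) (by norm_num),
        cla_ev_small (b := δ / 2) (by positivity)] with ε h3 h4
      have h5 := NM_zero hk M c h3.1 (by linarith [h3.2])
      have h6 := hemp ε h3.1 (by linarith [h4.2]) ∅ 0 (by
        rw [nca_cc_empty]
        simp only [Int.cast_zero, mul_zero, sub_zero, abs_zero]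
        exact hδ.le) (by rw [nca_dd_empty, mul_zero]; exact hδ.le)
      have h6' := NM_F_zero
      unfold FCm_F at h6'
      rw [h6'] at h6
      rw [Real.dist_eq, sub_zero]
      have h7 : ‖∫ ω, min 1 |(NM_Th (M.M ε ω)).1 0| ∂(V.P ε)‖ ≤
          κ / 2 * ((V.P ε).real Set.univ) := by
        apply norm_integral_le_of_norm_le_const
        filter_upwards [h5] with ω hω
        rw [Real.norm_eq_abs, abs_of_nonneg (le_min zero_le_one (abs_nonneg _))]
        refine (min_le_right _ _).trans ?_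
        change |(∫ x, NM_phi x ∂((M.M ε ω).1 0)) - 1 / 2| ≤ κ / 2
        rw [hω]
        exact h6
      rw [probReal_univ, mul_one, Real.norm_eq_abs] at h7
      linarith
    have h4 : ∫ ω, min 1 |(Z' ω).1 0| ∂P' = 0 := tendsto_nhds_unique h1 h3
    have h5 : Integrable (fun ω => min 1 |(Z' ω).1 0|) P' := by
      refine Integrable.of_bound (hG1.comp hZ').aestronglyMeasurable 1
        (Eventually.of_forall fun ω => ?_)
      rw [Real.norm_eq_abs, abs_of_nonneg (le_min zero_le_one (abs_nonneg _))]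
      exact min_le_left _ _
    have h6 := (integral_eq_zero_iff_of_nonneg
      (fun ω => le_min zero_le_one (abs_nonneg ((Z' ω).1 0))) h5).1 h4
    filter_upwards [h6] with ω hω
    have hω' : min 1 |(Z' ω).1 0| = 0 := hω
    rcases min_eq_iff.1 hω' with h | h
    · linarith [h.1]
    · exact abs_eq_zero.1 h.1
  -- the functionals
  have hr : ∀ n : ℕ, (0 : ℝ≥0) < 1 / ((n : ℝ≥0) + 1) := fun n => by positivity
  choose G hGm hG1 hGc hG2 hG3 using fun n : ℕ => sup_functional (1 / ((n : ℝ≥0) + 1)) (hr n)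
  have hone : ∀ n, 1 / 4 ≤ ∫ ω, G n (Z' ω) ∂P' := by
    intro n
    have h1 := hconv (G n) (hGm n) ⟨1, fun x => by
      rw [abs_of_nonneg (hG1 n x).1]
      exact (hG1 n x).2⟩ (hGc n)
    set r : ℝ≥0 := 1 / ((n : ℝ≥0) + 1) with hrdef
    have hrpos : (0 : ℝ) < r := hr n
    set K : ℝ := 3 / |mn a| with hK
    have hKpos : 0 < K := by positivity
    have h2 : Tendsto (fun ε : ℝ => (1 - K * ε / r) * (1 / 4) *
        (1 - (V.P ε {ω | |(NM_Th (M.M ε ω)).1 (K * ε).toNNReal| < 1 / 4}).toReal)) (𝓝[>] 0)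
        (𝓝 (1 / 4)) := by
      have e1 : Tendsto (fun ε : ℝ => (1 - K * ε / r) * (1 / 4)) (𝓝[>] 0) (𝓝 (1 / 4)) := by
        have : Tendsto (fun ε : ℝ => (1 - K * ε / r) * (1 / 4)) (𝓝 0)
            (𝓝 ((1 - K * 0 / r) * (1 / 4))) :=
          Continuous.tendsto (by fun_prop) 0
        rw [mul_zero, zero_div, sub_zero, one_mul] at this
        exact this.mono_left nhdsWithin_le_nhds
      have e2 : Tendsto (fun ε : ℝ =>
          (V.P ε {ω | |(NM_Th (M.M ε ω)).1 (K * ε).toNNReal| < 1 / 4}).toReal) (𝓝[>] 0)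
          (𝓝 0) := by
        have := (ENNReal.tendsto_toReal ENNReal.zero_ne_top).comp (NM_far hk hm V M)
        rw [ENNReal.toReal_zero] at this
        exact this
      have := e1.mul (e2.const_sub 1)
      simpa using this
    refine le_of_tendsto_of_tendsto h2 h1 ?_
    have hev : ∀ᶠ ε : ℝ in 𝓝[>] 0, 0 < ε ∧ ε ≤ min (1 / 2) (r / K) :=
      cla_ev_small (by positivity)
    filter_upwards [hev] with ε hε
    have hε0 := hε.1
    have hε1 : ε ≤ 1 / 2 := hε.2.trans (min_le_left _ _)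
    have hε2 : K * ε / r ≤ 1 := by
      have := hε.2.trans (min_le_right _ _)
      rw [le_div_iff₀ hKpos] at this
      rw [div_le_one hrpos]
      linarith
    have hYm : Measurable fun ω => G n (NM_Th (M.M ε ω)) := (hGm n).comp (hYm0 ε)
    have hcoord : Measurable fun x : SkoD => x.1 (K * ε).toNNReal :=
      (measurable_pi_apply (K * ε).toNNReal).comp measurable_subtype_coe
    have hSet : MeasurableSet {ω | |(NM_Th (M.M ε ω)).1 (K * ε).toNNReal| < 1 / 4} := by
      have h7 : Measurable fun ω => |(NM_Th (M.M ε ω)).1 (K * ε).toNNReal| :=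
        (continuous_abs.measurable).comp (hcoord.comp (hYm0 ε))
      exact measurableSet_lt h7 measurable_const
    have hint : Integrable (fun ω => G n (NM_Th (M.M ε ω))) (V.P ε) := by
      refine Integrable.of_bound hYm.aestronglyMeasurable 1 (Eventually.of_forall fun ω => ?_)
      rw [Real.norm_eq_abs, abs_of_nonneg (hG1 n _).1]
      exact (hG1 n _).2
    have hle : ∀ ω, ({ω | |(NM_Th (M.M ε ω)).1 (K * ε).toNNReal| < 1 / 4}ᶜ).indicator
        (fun _ => (1 - K * ε / r) * (1 / 4)) ω ≤ G n (NM_Th (M.M ε ω)) := by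
      intro ω
      by_cases h : ω ∈ {ω | |(NM_Th (M.M ε ω)).1 (K * ε).toNNReal| < 1 / 4}
      · rw [Set.indicator_of_notMem (by simpa using h)]
        exact (hG1 n _).1
      · rw [Set.indicator_of_mem h]
        have h8 : 1 / 4 ≤ |(NM_Th (M.M ε ω)).1 (K * ε).toNNReal| := not_lt.1 h
        have h9 := hG2 n (NM_Th (M.M ε ω)) (K * ε).toNNReal
        rw [Real.coe_toNNReal _ (by positivity)] at h9
        refine le_trans ?_ h9
        refine mul_le_mul_of_nonneg_left (le_min (by norm_num) h8) (by linarith)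
    have hI := integral_mono ((integrable_const ((1 - K * ε / r) * (1 / 4))).indicator
      hSet.compl) hint hle
    rw [integral_indicator hSet.compl, setIntegral_const, smul_eq_mul] at hI
    have hcompl : (V.P ε).real ({ω | |(NM_Th (M.M ε ω)).1 (K * ε).toNNReal| < 1 / 4}ᶜ) =
        1 - (V.P ε {ω | |(NM_Th (M.M ε ω)).1 (K * ε).toNNReal| < 1 / 4}).toReal := by
      rw [probReal_compl_eq_one_sub hSet]
      rfl
    rw [hcompl, mul_comm] at hI
    exact hI
  have hlim : Tendsto (fun n : ℕ => ∫ ω, G n (Z' ω) ∂P') atTop (𝓝 0) := by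
    have h1 : Tendsto (fun n : ℕ => ∫ ω, G n (Z' ω) ∂P') atTop (𝓝 (∫ _ω, (0 : ℝ) ∂P')) := by
      refine tendsto_integral_of_dominated_convergence (fun _ => (1 : ℝ))
        (fun n => ((hGm n).comp hZ').aestronglyMeasurable) (integrable_const _) ?_ ?_
      · intro n
        refine Eventually.of_forall fun ω => ?_
        rw [Real.norm_eq_abs, abs_of_nonneg (hG1 n _).1]
        exact (hG1 n _).2
      · filter_upwards [hz] with ω h0
        rw [Metric.tendsto_atTop]
        intro e he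
        have h2 : Tendsto (Z' ω).1 (𝓝 0) (𝓝 0) := by
          have h4 : Tendsto (Z' ω).1 (𝓝[≥] 0) (𝓝 ((Z' ω).1 0)) := ((Z' ω).2 0).1
          have h5 : (Set.Ici (0 : ℝ≥0)) = Set.univ :=
            Set.eq_univ_of_forall fun x => Set.mem_Ici.2 zero_le
          rwa [h5, nhdsWithin_univ, h0] at h4
        have h3 : ∀ᶠ t in 𝓝 (0 : ℝ≥0), |(Z' ω).1 t| < e / 2 := by
          have := (Metric.tendsto_nhds.1 h2) (e / 2) (by positivity)
          simpa [Real.dist_eq] using this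
        obtain ⟨d, hd, hball⟩ := Metric.eventually_nhds_iff.1 h3
        obtain ⟨N, hN⟩ := exists_nat_one_div_lt hd
        refine ⟨N, fun n hn => ?_⟩
        rw [Real.dist_eq, sub_zero, abs_of_nonneg (hG1 n _).1]
        have h4 : G n (Z' ω) ≤ e / 2 := by
          refine hG3 n (Z' ω) (e / 2) (by positivity) fun t ht => ?_
          refine (hball ?_).le
          have ht0 : (0 : ℝ) ≤ (t : ℝ) := t.2
          rw [NNReal.dist_eq, NNReal.coe_zero, sub_zero, abs_of_nonneg ht0]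
          have h5 : (t : ℝ) ≤ 1 / ((n : ℝ) + 1) := by
            have : ((t : ℝ≥0) : ℝ) ≤ ((1 / ((n : ℝ≥0) + 1) : ℝ≥0) : ℝ) := NNReal.coe_le_coe.2 ht
            simpa using this
          have h6 : 1 / ((n : ℝ) + 1) ≤ 1 / ((N : ℝ) + 1) := by
            have : (N : ℝ) ≤ n := by exact_mod_cast hn
            exact one_div_le_one_div_of_le (by positivity) (by linarith)
          linarith
        linarith
    simpa using h1
  have := ge_of_tendsto' hlim hone
  linarith

end H40.VM
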