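import Pool.Agent.H40.VM.MC
import Pool.Agent.H40.VM.NM
import Pool.Agent.H40.VM.EXm

/-!
# Module FINm: assembly (measure valued processes)
-/

open MeasureTheory ProbabilityTheory Filter Topology
open scoped ENNReal NNReal

namespace H40.Voter

open H40.VM

theorem final_meas {a : ℤ → ℝ} (hk : IsKernel a) :
    (∃ V : VoterFam a, Nonempty (MeasFam V)) ∧
    ∀ (V : VoterFam a) (M : MeasFam V) (Ω' : Type) [MeasurableSpace Ω'] (P' : Measure Ω')
      [IsProbabilityMeasure P'] (N : Ω' → MeasD), Measurable N →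
      (∑' k : ℤ, a k * (k : ℝ) = 0 → ∀ Z : Ω' → SkoD, Measurable Z →
        IsDriftedBM P' (√(∑' k : ℤ, a k * (k : ℝ) ^ 2)) (-(∑' k : ℤ, a k * (k : ℝ) ^ 2) / 2) Z →
        IsSharp P' Z N → MConvInLaw V.P M.M P' N) ∧
      (MConvInLaw V.P M.M P' N → ∑' k : ℤ, a k * (k : ℝ) = 0) := by
  refine ⟨exists_fam_meas hk, ?_⟩
  intro V M Ω' _ P' _ N hN
  refine ⟨fun hc Z hZ hB hS => meas_main hk hc V M hZ hB hS, fun hconv => ?_⟩
  by_contra hm
  exact neg_mean_meas hk hm V M hN hconv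

end H40.Voter
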