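import Pool.Agent.H40.VM.CF
import Pool.Agent.H40.VM.LV
import Pool.Agent.H40.VM.CLm
import Pool.Agent.H40.VM.FCm

/-!
# Module MC: measure valued convergence for centred kernels

`mconv_of_close` with `W ε ω` the path `t ↦ ε S_{⌊sg t/ε²⌋}` for `0 < ε < 1` (a right continuous step
function of `t`, see `FC_floor_right`, `FC_floor_left`), the zero path for other `ε`;
`fdd_of_char` and `char_S` (and `char_bm`, see `fdd_main` in module CONV) give `fdd`,
`modulus_P` gives `mod` (see `conv_main`), `close_meas` and `MeasFam.eq` give `close`.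
-/

open MeasureTheory ProbabilityTheory Filter Topology
open scoped ENNReal NNReal unitInterval symmDiff BoundedContinuousFunction

namespace H40.VM

open H40.Voter (IsKernel VoterFam SkoD IsDriftedBM MeasD MConvInLaw MeasFam IsSharp)

variable {a : ℤ → ℝ}

lemma mc_floor_right {c : ℝ} (hc : 0 ≤ c) (t : ℝ≥0) :
    ∀ᶠ s : ℝ≥0 in 𝓝[≥] t, ⌊c * (s : ℝ)⌋₊ = ⌊c * (t : ℝ)⌋₊ := by
  have hct : 0 ≤ c * (t : ℝ) := mul_nonneg hc t.2
  have h1 : c * (t : ℝ) < (⌊c * (t : ℝ)⌋₊ : ℝ) + 1 := Nat.lt_floor_add_one _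
  have hcont : Continuous fun s : ℝ≥0 => c * (s : ℝ) := by fun_prop
  have h2 : ∀ᶠ s : ℝ≥0 in 𝓝 t, c * (s : ℝ) < (⌊c * (t : ℝ)⌋₊ : ℝ) + 1 :=
    hcont.continuousAt.eventually (Iio_mem_nhds h1)
  filter_upwards [nhdsWithin_le_nhds h2, self_mem_nhdsWithin] with s hs hst
  have hst' : t ≤ s := hst
  have h3 : c * (t : ℝ) ≤ c * (s : ℝ) := mul_le_mul_of_nonneg_left (by exact_mod_cast hst') hc
  rw [Nat.floor_eq_iff (hct.trans h3)]
  exact ⟨(Nat.floor_le hct).trans h3, hs⟩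

lemma mc_floor_left {c : ℝ} (hc : 0 ≤ c) (t : ℝ≥0) :
    ∃ m : ℕ, ∀ᶠ s : ℝ≥0 in 𝓝[<] t, ⌊c * (s : ℝ)⌋₊ = m := by
  rcases eq_or_lt_of_le (mul_nonneg hc t.2 : 0 ≤ c * (t : ℝ)) with h0 | h0
  · refine ⟨0, ?_⟩
    filter_upwards [self_mem_nhdsWithin] with s hs
    have hst : s < t := hs
    have h3 : c * (s : ℝ) ≤ c * (t : ℝ) :=
      mul_le_mul_of_nonneg_left (by exact_mod_cast hst.le) hc
    rw [← h0] at h3
    exact Nat.floor_of_nonpos h3
  · have h1 : 1 ≤ ⌈c * (t : ℝ)⌉₊ := Nat.one_le_ceil_iff.2 h0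
    obtain ⟨m, hm⟩ := Nat.exists_eq_succ_of_ne_zero (by omega : ⌈c * (t : ℝ)⌉₊ ≠ 0)
    refine ⟨m, ?_⟩
    have h2 : (m : ℝ) < c * (t : ℝ) :=
      Nat.lt_ceil.1 (by rw [hm]; exact Nat.lt_succ_self m : m < ⌈c * (t : ℝ)⌉₊)
    have hcont : Continuous fun s : ℝ≥0 => c * (s : ℝ) := by fun_prop
    have h3 : ∀ᶠ s : ℝ≥0 in 𝓝 t, (m : ℝ) < c * (s : ℝ) :=
      hcont.continuousAt.eventually (Ioi_mem_nhds h2)
    have hc0 : 0 < c := by
      rcases eq_or_lt_of_le hc with h | h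
      · rw [← h, zero_mul] at h0
        exact absurd h0 (lt_irrefl _)
      · exact h
    filter_upwards [nhdsWithin_le_nhds h3, self_mem_nhdsWithin] with s hs hst
    have hst' : s < t := hst
    have h4 : c * (s : ℝ) < c * (t : ℝ) := mul_lt_mul_of_pos_left (by exact_mod_cast hst') hc0
    rw [Nat.floor_eq_iff (mul_nonneg hc (NNReal.coe_nonneg s))]
    refine ⟨hs.le, ?_⟩
    have h5 := Nat.le_ceil (c * (t : ℝ))
    rw [hm] at h5
    push_cast at h5
    linarith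

/-- the step path with values `v` and jumps at the multiples of `1 / c` -/
noncomputable def mcPath (v : ℕ → ℝ) (c : ℝ) (hc : 0 ≤ c) : SkoD :=
  ⟨fun t => v ⌊c * (t : ℝ)⌋₊, by
    intro t
    constructor
    · have h : (fun t : ℝ≥0 => v ⌊c * (t : ℝ)⌋₊) =ᶠ[𝓝[≥] t] fun _ => v ⌊c * (t : ℝ)⌋₊ := by
        filter_upwards [mc_floor_right hc t] with s hs
        rw [hs]
      exact (tendsto_congr' h).2 tendsto_const_nhds
    · obtain ⟨m, hm⟩ := mc_floor_left hc t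
      refine ⟨v m, ?_⟩
      have h : (fun t : ℝ≥0 => v ⌊c * (t : ℝ)⌋₊) =ᶠ[𝓝[<] t] fun _ => v m := by
        filter_upwards [hm] with s hs
        rw [hs]
      exact (tendsto_congr' h).2 tendsto_const_nhds⟩

open Classical in
/-- the rescaled centre, a step path -/
noncomputable def mcW (hk : IsKernel a) {V : VoterFam a} (c : Chains V) (ε : ℝ) (ω : V.Ω ε) :
    SkoD :=
  mcPath (fun n => if 0 < ε ∧ ε < 1 then ε * (c.S ε n ω : ℝ) else 0) (sg a / ε ^ 2)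
    (div_nonneg (sg_pos hk).le (sq_nonneg ε))

lemma mcW_apply (hk : IsKernel a) {V : VoterFam a} (c : Chains V) {ε : ℝ} (h0 : 0 < ε)
    (h1 : ε < 1) (ω : V.Ω ε) (t : ℝ≥0) :
    (mcW hk c ε ω).1 t = ε * (c.S ε ⌊sg a * t / ε ^ 2⌋₊ ω : ℝ) := by
  unfold mcW mcPath
  show (if 0 < ε ∧ ε < 1 then ε * (c.S ε ⌊sg a / ε ^ 2 * (t : ℝ)⌋₊ ω : ℝ) else 0) = _
  rw [if_pos ⟨h0, h1⟩, div_mul_eq_mul_div]

lemma mcW_meas (hk : IsKernel a) {V : VoterFam a} (c : Chains V) (ε : ℝ) :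
    Measurable (mcW hk c ε) := by
  refine Measurable.subtype_mk (measurable_pi_lambda _ fun t => ?_)
  show Measurable fun ω => if 0 < ε ∧ ε < 1 then
    ε * (c.S ε ⌊sg a / ε ^ 2 * (t : ℝ)⌋₊ ω : ℝ) else 0
  by_cases h : 0 < ε ∧ ε < 1
  · simp only [h, and_self, if_true]
    have h1 : Measurable fun ω : V.Ω ε => c.S ε ⌊sg a / ε ^ 2 * (t : ℝ)⌋₊ ω :=
      (measurable_of_countable cc).comp (measurable_mis.comp ((c.chain ε h.1 h.2).measurable_Z _))
    exact (((measurable_of_countable (fun z : ℤ => (z : ℝ))).comp h1).const_mul ε)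
  · simp only [h, if_false]
    exact measurable_const

theorem meas_main (hk : IsKernel a) (hc : mn a = 0) (V : VoterFam a) (M : MeasFam V) {Ω' : Type}
    [MeasurableSpace Ω'] {P' : Measure Ω'} [IsProbabilityMeasure P'] {Z : Ω' → SkoD}
    (hZ : Measurable Z) (hB : IsDriftedBM P' (√(sg a)) (-(sg a) / 2) Z) {N : Ω' → MeasD}
    (hN : IsSharp P' Z N) : MConvInLaw V.P M.M P' N := by
  obtain ⟨c⟩ := exists_chains V
  have hev : ∀ᶠ ε : ℝ in 𝓝[>] 0, 0 < ε ∧ ε < 1 := by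
    filter_upwards [self_mem_nhdsWithin, nhdsWithin_le_nhds (Iio_mem_nhds one_pos)] with ε h1 h2
    exact ⟨h1, h2⟩
  have hcont : ∀ᵐ ω ∂P', Continuous (Z ω).1 := by
    obtain ⟨B, hB1, hB2⟩ := hB
    filter_upwards [hB2, hB1.cont] with ω h1 h2
    have : (Z ω).1 = fun t : ℝ≥0 => √(sg a) * B t ω + -(sg a) / 2 * t := funext h1
    rw [this]
    fun_prop
  refine mconv_of_close (W := mcW hk c) (mcW_meas hk c) M.meas hZ hcont hN ?_ ?_ ?_
  · intro s g
    refine fdd_of_char (mcW_meas hk c) hZ (fun s θ => ?_) s g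
    have h := char_S hk hc c s θ
    rw [char_bm hB s θ]
    have h2 := h.congr' (f₂ := fun ε : ℝ => ∫ ω, Complex.exp
      ((∑ t ∈ s, θ t * (mcW hk c ε ω).1 t : ℝ) * Complex.I) ∂(V.P ε)) (by
        filter_upwards [hev] with ε he
        simp only [mcW_apply hk c he.1 he.2])
    convert h2 using 3
    have h1 : √(sg a) ^ 2 = sg a := Real.sq_sqrt (sg_pos hk).le
    rw [h1]
    push_cast
    ring
  · intro T κ δ hκ hδ
    obtain ⟨η, hη, hmod⟩ := modulus_P hk hc c T (κ := κ) (δ := δ) hκ hδ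
    refine ⟨η, hη, ?_⟩
    filter_upwards [hmod, hev] with ε h5 he
    refine (measure_mono ?_).trans h5
    rintro ω ⟨s, t, hs, ht, hst, hlt⟩
    refine ⟨s, t, hs, ht, hst, ?_⟩
    rw [mcW_apply hk c he.1 he.2, mcW_apply hk c he.1 he.2, ← mul_sub, abs_mul,
      abs_of_pos he.1] at hlt
    exact hlt
  · intro φ hφ hs T κ hκ
    refine (close_meas hk hc c T hφ hs hκ).congr' ?_
    filter_upwards [hev] with ε he
    refine measure_congr ?_
    filter_upwards [M.eq ε he.1 he.2] with ω hω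
    apply propext
    constructor
    · rintro ⟨t, ht, hlt⟩
      refine ⟨t, ht, ?_⟩
      rw [hω t, mcW_apply hk c he.1 he.2]
      exact hlt
    · rintro ⟨t, ht, hlt⟩
      refine ⟨t, ht, ?_⟩
      rw [hω t, mcW_apply hk c he.1 he.2] at hlt
      exact hlt

end H40.VM
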