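import Pool.Agent.H40.VM.CT2
import Pool.Agent.H40.VM.EG
import Pool.Agent.H40.VM.BJ

/-!
# Module NCa: kernels which are not centred (unbiased chain)

`|lf m - mn s| ≤ |cc m - mn s| + hh m` (`sub_le_of_low`, `low_cc`, `low_iff_lf`).
* `cc (X s ∅) / s → mn` in probability: `char_centre` with `θ = ϑ/s`, `s lamf (ϑ/s) → i ϑ mn`
  (dominated convergence), `E dd (X s) / s → 0` (`tendsto_ED`), so
  `E cos (ϑ (cc (X s)/s - mn)) → 1` for every `ϑ`; and `E |cc (X s)| ≤ E N s ≤ sg s` (tightness).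
* For an index `k` with `T k ≤ s`, `s - K < T (k+1)`: `N (s-K) ≤ k ≤ N s` and
  `|cc (Y k) - cc (X s)| ≤ N s - N (s-K)`, whose expectation is `o(s)` (`count_le`, `tendsto_EN`).
* `hh (Y k)` for these `k`: restart at time `s - K` and `Chain.super_hit` with `S = {hh ≥ κ s}`,
  `A = hh/(κ s)`, `B = sg/(2 κ s)`: the probability that `hh` exceeds `κ s` during the next `K` time
  units is at most `(E hh (X (s-K)) + K sg)/(κ s) → 0` (`tendsto_Ehh`).
-/

open MeasureTheory ProbabilityTheory Filter Topology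
open scoped ENNReal NNReal unitInterval symmDiff

namespace H40.VM

open H40.Voter (IsKernel)

variable {a : ℤ → ℝ}

/-! ### the centre -/

lemma nca_cc_empty : cc ∅ = 0 := by simp [cc]

lemma nca_dd_empty : dd ∅ = 0 := by
  unfold dd no
  have h : {i : ℤ | (i : ℝ) ≤ ((cc ∅ : ℤ) : ℝ) - 1 ∧ cf true ∅ i = true} = ∅ := by
    ext i
    simp only [Set.mem_ofPred_eq, Set.mem_empty_iff_false, iff_false, not_and]
    intro h1 h2
    rw [nca_cc_empty] at h1
    have h3 : i ≤ -1 := by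
      have : (i : ℝ) ≤ -1 := by simpa using h1
      exact_mod_cast this
    have h4 : ¬ (0 ≤ i) := by omega
    simp [cf, bs, h4] at h2
  rw [h]
  simp

lemma nca_lamf (hk : IsKernel a) (θ : ℝ) :
    ‖lamf a θ - (θ * mn a : ℝ) * Complex.I‖ ≤ 3 * θ ^ 2 * sg a := by
  have h1 := (lamf_summable hk θ).hasSum
  have h2 : HasSum (fun k : ℤ => (a k : ℂ) * ((θ * k : ℝ) * Complex.I))
      ((θ * mn a : ℝ) * Complex.I) := by
    have h3 : HasSum (fun k : ℤ => a k * (k : ℝ)) (mn a) := (summable_mn hk).hasSum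
    have h4 := (Complex.hasSum_ofReal.2 (h3.mul_left θ)).mul_right Complex.I
    refine h4.congr_fun fun k => ?_
    push_cast
    ring
  rw [← lamf_eq] at h1
  have h5 := h1.sub h2
  have h6 : HasSum (fun k : ℤ => 3 * θ ^ 2 * (a k * (k : ℝ) ^ 2)) (3 * θ ^ 2 * sg a) :=
    hk.second_moment.hasSum.mul_left _
  rw [← h5.tsum_eq, ← h6.tsum_eq]
  refine tsum_of_norm_bounded (h6.summable.hasSum) fun k => ?_
  have e : (a k : ℂ) * (ex θ k - 1) - (a k : ℂ) * ((θ * k : ℝ) * Complex.I) =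
      (a k : ℂ) * (ex θ k - 1 - ((θ * k : ℝ) : ℂ) * Complex.I) := by ring
  rw [e, norm_mul, Complex.norm_real, Real.norm_eq_abs, abs_of_nonneg (hk.nonneg k), ex_eq]
  have := norm_second (θ * k)
  calc a k * ‖_‖ ≤ a k * (3 * (θ * k) ^ 2) := mul_le_mul_of_nonneg_left this (hk.nonneg k)
    _ = 3 * θ ^ 2 * (a k * (k : ℝ) ^ 2) := by ring

lemma nca_exp_lamf (hk : IsKernel a) (t : ℝ) :
    Tendsto (fun s : ℝ => Complex.exp (s * lamf a (t / s))) atTop
      (𝓝 (Complex.exp ((t * mn a : ℝ) * Complex.I))) := by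
  refine (Complex.continuous_exp.tendsto _).comp ?_
  rw [tendsto_iff_norm_sub_tendsto_zero]
  have h0 : Tendsto (fun s : ℝ => 3 * t ^ 2 * sg a / s) atTop (𝓝 0) :=
    tendsto_const_nhds.div_atTop tendsto_id
  refine squeeze_zero' (Eventually.of_forall fun s => norm_nonneg _) ?_ h0
  filter_upwards [eventually_gt_atTop (0 : ℝ)] with s hs
  have h1 := nca_lamf hk (t / s)
  have e : (s : ℂ) * lamf a (t / s) - (t * mn a : ℝ) * Complex.I =
      (s : ℂ) * (lamf a (t / s) - (t / s * mn a : ℝ) * Complex.I) := by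
    have hs' : (s : ℂ) ≠ 0 := by exact_mod_cast hs.ne'
    push_cast
    field_simp
  rw [e, norm_mul, Complex.norm_real, Real.norm_eq_abs, abs_of_pos hs]
  calc s * ‖_‖ ≤ s * (3 * (t / s) ^ 2 * sg a) := mul_le_mul_of_nonneg_left h1 hs.le
    _ = 3 * t ^ 2 * sg a / s := by field_simp

lemma nca_dd (hk : IsKernel a) :
    Tendsto (fun s : ℝ => (∫ ω, dd ((vc a true).X s ∅ ω) ∂Pr) / s) atTop (𝓝 0) := by
  have h1 : Tendsto (fun t : ℝ => (∫ ω, dd ((vc a true).X t ∅ ω) ∂Pr) / √t) atTop (𝓝 0) :=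
    tendsto_ED hk
  have h2 : Tendsto (fun t : ℝ => (√t)⁻¹) atTop (𝓝 0) :=
    tendsto_inv_atTop_zero.comp Real.tendsto_sqrt_atTop
  have h3 := h1.mul h2
  rw [mul_zero] at h3
  refine h3.congr' ?_
  filter_upwards [eventually_gt_atTop (0 : ℝ)] with s hs
  rw [← div_eq_mul_inv, div_div, Real.mul_self_sqrt hs.le]

lemma nca_char (hk : IsKernel a) (t : ℝ) :
    Tendsto (fun s : ℝ => charFun (Pr.map fun ω => (cc ((vc a true).X s ∅ ω) : ℝ) / s - mn a) t)
      atTop (𝓝 1) := by
  have hmeas : ∀ s : ℝ, Measurable fun ω => (cc ((vc a true).X s ∅ ω) : ℝ) / s - mn a := fun s =>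
    (measurable_of_countable (fun x : St => (cc x : ℝ) / s - mn a)).comp
      ((vc a true).measurable_Xx s ∅)
  have e : ∀ s : ℝ, charFun (Pr.map fun ω => (cc ((vc a true).X s ∅ ω) : ℝ) / s - mn a) t =
      (∫ ω, Complex.exp ((t / s : ℝ) * (((cc ((vc a true).X s ∅ ω) : ℝ) - cc ∅ : ℝ)) * Complex.I)
        ∂Pr) * Complex.exp (-((t * mn a : ℝ) * Complex.I)) := by
    intro s
    rw [charFun_apply_real, integral_map (hmeas s).aemeasurable
      (by fun_prop), ← integral_mul_const]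
    refine integral_congr_ae (Eventually.of_forall fun ω => ?_)
    simp only
    rw [← Complex.exp_add, nca_cc_empty]
    congr 1
    push_cast
    ring
  have h1 : Tendsto (fun s : ℝ => ∫ ω, Complex.exp ((t / s : ℝ) *
      (((cc ((vc a true).X s ∅ ω) : ℝ) - cc ∅ : ℝ)) * Complex.I) ∂Pr) atTop
      (𝓝 (Complex.exp ((t * mn a : ℝ) * Complex.I))) := by
    have h2 : Tendsto (fun s : ℝ => (∫ ω, Complex.exp ((t / s : ℝ) *
        (((cc ((vc a true).X s ∅ ω) : ℝ) - cc ∅ : ℝ)) * Complex.I) ∂Pr) -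
        Complex.exp (s * lamf a (t / s))) atTop (𝓝 0) := by
      rw [tendsto_zero_iff_norm_tendsto_zero]
      have h3 : Tendsto (fun s : ℝ => 2 * |t| * ((∫ ω, dd ((vc a true).X s ∅ ω) ∂Pr) / s)) atTop
          (𝓝 0) := by
        have := (nca_dd hk).const_mul (2 * |t|)
        rwa [mul_zero] at this
      refine squeeze_zero' (Eventually.of_forall fun s => norm_nonneg _) ?_ h3
      filter_upwards [eventually_gt_atTop (0 : ℝ)] with s hs
      refine (char_centre hk (t / s) ∅ hs.le).trans (le_of_eq ?_)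
      rw [nca_dd_empty, abs_div, abs_of_pos hs]
      field_simp
      ring
    have h4 := h2.add (nca_exp_lamf hk t)
    rw [zero_add] at h4
    refine h4.congr fun s => ?_
    ring
  have h5 := h1.mul_const (Complex.exp (-((t * mn a : ℝ) * Complex.I)))
  rw [← Complex.exp_add, add_neg_cancel, Complex.exp_zero] at h5
  refine h5.congr fun s => ?_
  rw [e s]

lemma nca_centre (hk : IsKernel a) {δ : ℝ} (hδ : 0 < δ) :
    Tendsto (fun s : ℝ => Pr {ω | δ * s ≤ |(cc ((vc a true).X s ∅ ω) : ℝ) - mn a * s|}) atTop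
      (𝓝 0) := by
  set r : ℝ := δ / 2 with hr
  have hr0 : 0 < r := by positivity
  set μ : ℝ → Measure ℝ := fun s =>
    Pr.map fun ω => (cc ((vc a true).X s ∅ ω) : ℝ) / s - mn a with hμ
  have hmeas : ∀ s : ℝ, Measurable fun ω => (cc ((vc a true).X s ∅ ω) : ℝ) / s - mn a := fun s =>
    (measurable_of_countable (fun x : St => (cc x : ℝ) / s - mn a)).comp
      ((vc a true).measurable_Xx s ∅)
  have hprob : ∀ s, IsProbabilityMeasure (μ s) := fun s =>
    Measure.isProbabilityMeasure_map (hmeas s).aemeasurable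
  have h1 : Tendsto (fun s => ∫ t in (-2 * r⁻¹)..(2 * r⁻¹), 1 - charFun (μ s) t) atTop (𝓝 0) := by
    have h2 : Tendsto (fun s => ∫ t in (-2 * r⁻¹)..(2 * r⁻¹), 1 - charFun (μ s) t) atTop
        (𝓝 (∫ t in (-2 * r⁻¹)..(2 * r⁻¹), (0 : ℂ))) := by
      refine intervalIntegral.tendsto_integral_filter_of_dominated_convergence (fun _ => 2)
        (Eventually.of_forall fun s => ?_) (Eventually.of_forall fun s => ?_) ?_ ?_
      · exact (measurable_const.sub measurable_charFun).aestronglyMeasurable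
      · exact Eventually.of_forall fun t _ => norm_one_sub_charFun_le_two
      · exact intervalIntegrable_const
      · refine Eventually.of_forall fun t _ => ?_
        have := (nca_char hk t).const_sub 1
        rwa [sub_self] at this
    rwa [intervalIntegral.integral_zero] at h2
  have h3 : Tendsto (fun s => ENNReal.ofReal
      (2⁻¹ * r * ‖∫ t in (-2 * r⁻¹)..(2 * r⁻¹), 1 - charFun (μ s) t‖)) atTop (𝓝 0) := by
    have h4 := (h1.norm.const_mul (2⁻¹ * r))
    rw [norm_zero, mul_zero] at h4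
    have h5 := ENNReal.tendsto_ofReal h4
    rwa [ENNReal.ofReal_zero] at h5
  refine tendsto_of_tendsto_of_tendsto_of_le_of_le' tendsto_const_nhds h3
    (Eventually.of_forall fun s => bot_le) ?_
  filter_upwards [eventually_gt_atTop (0 : ℝ)] with s hs
  have := hprob s
  have h6 : {ω | δ * s ≤ |(cc ((vc a true).X s ∅ ω) : ℝ) - mn a * s|} ⊆
      (fun ω => (cc ((vc a true).X s ∅ ω) : ℝ) / s - mn a) ⁻¹' {x | r < |x|} := by
    intro ω hω
    simp only [Set.mem_ofPred_eq, Set.mem_preimage] at hω ⊢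
    have e : (cc ((vc a true).X s ∅ ω) : ℝ) / s - mn a =
        ((cc ((vc a true).X s ∅ ω) : ℝ) - mn a * s) / s := by field_simp
    rw [e, abs_div, abs_of_pos hs, lt_div_iff₀ hs]
    refine lt_of_lt_of_le ?_ hω
    exact mul_lt_mul_of_pos_right (by rw [hr]; linarith) hs
  have hms : MeasurableSet {x : ℝ | r < |x|} := measurableSet_lt measurable_const (by fun_prop)
  calc Pr {ω | δ * s ≤ |(cc ((vc a true).X s ∅ ω) : ℝ) - mn a * s|}
      ≤ Pr ((fun ω => (cc ((vc a true).X s ∅ ω) : ℝ) / s - mn a) ⁻¹' {x | r < |x|}) :=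
        measure_mono h6
    _ = μ s {x | r < |x|} := by rw [hμ, Measure.map_apply (hmeas s) hms]
    _ = ENNReal.ofReal ((μ s).real {x | r < |x|}) := by
        rw [Measure.real, ENNReal.ofReal_toReal (measure_ne_top _ _)]
    _ ≤ _ := ENNReal.ofReal_le_ofReal (measureReal_abs_gt_le_integral_charFun hr0)

/-! ### the number of inversions during a time interval -/

lemma nca_step (hk : IsKernel a) {c : ℝ} (hc : 0 ≤ c) (m : St) :
    ∫⁻ u, ENNReal.ofReal (c * hh ((vc a true).Φ m u)) ≤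
      ENNReal.ofReal (c * hh m + c * sg a / 2 / (vc a true).q m) := by
  have ht := tot_true_pos hk m
  have h := lintegral_ofReal_Φ hk ht (f := fun x => c * hh x)
    (fun x => mul_nonneg hc (hh_nonneg x)) (((summable_rt_hh hk m).mul_left c).congr fun j => by
      rw [abs_of_nonneg (hh_nonneg _)]; ring)
  rw [h, q_true hk]
  refine ENNReal.ofReal_le_ofReal ?_
  have e : gn a true (fun x => c * hh x) m = c * ((sg a - tot a true m) / 2) := by
    rw [← gn_hh hk m]
    unfold gn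
    rw [← tsum_mul_left]
    exact tsum_congr fun j => by ring
  rw [e]
  have h2 : c * ((sg a - tot a true m) / 2) / tot a true m ≤ c * sg a / 2 / tot a true m := by
    refine div_le_div_of_nonneg_right ?_ ht.le
    have := mul_nonneg hc ht.le
    nlinarith
  linarith

lemma nca_hit (hk : IsKernel a) {K s c : ℝ} (hK : 0 ≤ K) (hs : 0 ≤ s) (hc : 0 < c) :
    Pr {ω | ∃ k, (vc a true).T k ∅ ω ≤ s + K ∧ s < (vc a true).T (k + 1) ∅ ω ∧
      c ≤ hh ((vc a true).Y k ∅ ω)} ≤
      ENNReal.ofReal (((∫ ω, hh ((vc a true).X s ∅ ω) ∂Pr) + K * sg a / 2) / c) := by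
  set C := vc a true with hC
  set HS : Set (St × Om) := {p | ∃ i, C.T i p.1 p.2 ≤ K ∧ C.Y i p.1 p.2 ∈ {m : St | c ≤ hh m}}
    with hHS
  have hmeasS : MeasurableSet HS := by
    have : HS = ⋃ i, ({p : St × Om | C.T i p.1 p.2 ≤ K} ∩
        {p : St × Om | C.Y i p.1 p.2 ∈ {m : St | c ≤ hh m}}) := by
      ext p
      simp only [hHS, Set.mem_ofPred_eq, Set.mem_iUnion, Set.mem_inter_iff]
    rw [this]
    refine MeasurableSet.iUnion fun i => ?_
    exact (measurableSet_le (C.measurable_T i) measurable_const).inter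
      ((C.measurable_Y i) (MeasurableSet.of_discrete))
  have hsub : ∀ᵐ ω ∂Pr, ω ∈ {ω | ∃ k, C.T k ∅ ω ≤ s + K ∧ s < C.T (k + 1) ∅ ω ∧
      c ≤ hh (C.Y k ∅ ω)} → (C.X s ∅ ω, C.θ s ∅ ω) ∈ HS := by
    filter_upwards [C.ae_finite (ne_true hk) ∅] with ω hω hmem
    obtain ⟨k, h1, h2, h3⟩ := hmem
    have hN : C.N s ∅ ω ≤ k := C.N_le h2
    obtain ⟨j, rfl⟩ := Nat.exists_eq_add_of_le hN
    refine ⟨j, ?_, ?_⟩
    · simp only
      rcases Nat.eq_zero_or_pos j with h0 | h0
      · rw [h0, Chain.T_zero]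
        exact hK
      · obtain ⟨i, rfl⟩ := Nat.exists_eq_succ_of_ne_zero h0.ne'
        rw [Nat.succ_eq_add_one] at h1 ⊢
        rw [C.T_restart hs ∅ ω (hω s)] at h1
        linarith
    · simp only [Set.mem_ofPred_eq]
      rw [← C.Y_restart]
      exact h3
  have hind : Measurable (HS.indicator (fun _ => (1 : ℝ≥0∞))) :=
    measurable_const.indicator hmeasS
  calc Pr {ω | ∃ k, C.T k ∅ ω ≤ s + K ∧ s < C.T (k + 1) ∅ ω ∧ c ≤ hh (C.Y k ∅ ω)}
      ≤ Pr {ω | (C.X s ∅ ω, C.θ s ∅ ω) ∈ HS} := measure_mono_ae hsub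
    _ = ∫⁻ ω, HS.indicator (fun _ => (1 : ℝ≥0∞)) (C.X s ∅ ω, C.θ s ∅ ω) ∂Pr := by
        have hm : MeasurableSet {ω | (C.X s ∅ ω, C.θ s ∅ ω) ∈ HS} :=
          ((C.measurable_Xx s ∅).prodMk (C.measurable_θ s ∅)) hmeasS
        rw [← lintegral_indicator_one hm]
        rfl
    _ = ∫⁻ ω, ∫⁻ ω', HS.indicator (fun _ => (1 : ℝ≥0∞)) (C.X s ∅ ω, ω') ∂Pr ∂Pr :=
        C.lintegral_restart (ne_true hk) ∅ hs (C.measurable_Xx s ∅) (C.past_X s ∅) hind
    _ ≤ ∫⁻ ω, ENNReal.ofReal ((hh (C.X s ∅ ω) + K * sg a / 2) / c) ∂Pr := by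
        refine lintegral_mono fun ω => ?_
        set y := C.X s ∅ ω with hy
        have e : ∫⁻ ω', HS.indicator (fun _ => (1 : ℝ≥0∞)) (y, ω') ∂Pr =
            Pr {ω' | ∃ i, C.T i y ω' ≤ K ∧ C.Y i y ω' ∈ {m : St | c ≤ hh m}} := by
          have hm : MeasurableSet {ω' | (y, ω') ∈ HS} := measurable_prodMk_left hmeasS
          have := lintegral_indicator_one (μ := Pr) hm
          exact this
        rw [e]
        have hsg := cb_sg_nonneg hk
        have hsup := C.super_hit (S := {m : St | c ≤ hh m}) (A := fun m => 1 / c * hh m)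
          (B := fun _ => 1 / c * sg a / 2) (D := 0)
          (fun x => mul_nonneg (by positivity) (hh_nonneg x))
          (fun _ => by positivity) le_rfl
          (fun x hx => by
            have hx' : c ≤ hh x := hx
            rw [one_div, inv_mul_eq_div, le_div_iff₀ hc, one_mul]
            exact hx')
          (fun x _ => nca_step hk (by positivity) x)
          (fun x _ => by simp) hK y
        refine hsup.trans (ENNReal.ofReal_le_ofReal (le_of_eq ?_))
        field_simp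
        ring
    _ = ENNReal.ofReal (((∫ ω, hh (C.X s ∅ ω) ∂Pr) + K * sg a / 2) / c) := by
        have hsg := cb_sg_nonneg hk
        have hint : Integrable (fun ω => (hh (C.X s ∅ ω) + K * sg a / 2) / c) Pr :=
          ((integrable_hh hk ∅ hs).add (integrable_const _)).div_const c
        rw [← ofReal_integral_eq_lintegral_ofReal hint
          (Eventually.of_forall fun ω => by
            have := hh_nonneg (C.X s ∅ ω)
            simp only [Pi.zero_apply]
            positivity)]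
        congr 1
        rw [integral_div, integral_add (integrable_hh hk ∅ hs) (integrable_const _)]
        simp only [integral_const, probReal_univ, smul_eq_mul, one_mul]
        rfl

/-! ### the number of jumps during a time interval -/

lemma nca_cc_step (m : St) (u : unitInterval) :
    |(cc ((vc a true).Φ m u) : ℝ) - cc m| ≤ 1 := by
  rcases Φ_eq (a := a) true m u with h | ⟨j, h⟩
  · rw [h]; simp
  · rw [h, cc_fl]
    split_ifs <;> push_cast <;> norm_num

lemma nca_cc_dist (x : St) (ω : Om) (k l : ℕ) :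
    |(cc ((vc a true).Y k x ω) : ℝ) - cc ((vc a true).Y (k + l) x ω)| ≤ l := by
  induction l with
  | zero => simp
  | succ l ih =>
    have h1 := nca_cc_step (a := a) ((vc a true).Y (k + l) x ω) (ω (k + l)).1
    rw [← Chain.Y_succ'] at h1
    rw [abs_sub_comm] at h1
    have e : (cc ((vc a true).Y k x ω) : ℝ) - cc ((vc a true).Y (k + (l + 1)) x ω) =
        ((cc ((vc a true).Y k x ω) : ℝ) - cc ((vc a true).Y (k + l) x ω)) +
        ((cc ((vc a true).Y (k + l) x ω) : ℝ) - cc ((vc a true).Y (k + l + 1) x ω)) := by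
      rw [← add_assoc]; ring
    rw [e]
    refine (abs_add_le _ _).trans ?_
    push_cast
    linarith

lemma nca_shift {f : ℝ → ℝ} {L : ℝ} (h : Tendsto (fun s => f s / s) atTop (𝓝 L)) (K : ℝ) :
    Tendsto (fun s => f (s - K) / s) atTop (𝓝 L) := by
  have h1 : Tendsto (fun s : ℝ => s - K) atTop atTop := tendsto_atTop_add_const_right _ _ tendsto_id
  have h2 := h.comp h1
  have h3 : Tendsto (fun s : ℝ => (s - K) / s) atTop (𝓝 1) := by
    have h4 : Tendsto (fun s : ℝ => K / s) atTop (𝓝 0) := tendsto_const_nhds.div_atTop tendsto_id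
    have h5 := h4.const_sub 1
    rw [sub_zero] at h5
    refine h5.congr' ?_
    filter_upwards [eventually_gt_atTop (0 : ℝ)] with s hs
    field_simp
  have h6 := h2.mul h3
  rw [mul_one] at h6
  refine h6.congr' ?_
  filter_upwards [eventually_gt_atTop (0 : ℝ), eventually_gt_atTop K] with s hs hs'
  have : s - K ≠ 0 := by
    intro h; linarith
  simp only [Function.comp]
  field_simp

lemma nca_jumps (hk : IsKernel a) {K δ : ℝ} (hK : 0 < K) (hδ : 0 < δ) :
    Tendsto (fun s : ℝ => Pr {ω | δ * s ≤ ((vc a true).N s ∅ ω : ℝ) -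
      (vc a true).N (s - K) ∅ ω}) atTop (𝓝 0) := by
  have h1 := tendsto_EN hk
  have h2 := nca_shift h1 K
  have h3 := (h1.sub h2).div_const δ
  rw [sub_self, zero_div] at h3
  have h4 := ENNReal.tendsto_ofReal h3
  rw [ENNReal.ofReal_zero] at h4
  refine tendsto_of_tendsto_of_tendsto_of_le_of_le' tendsto_const_nhds h4
    (Eventually.of_forall fun s => bot_le) ?_
  filter_upwards [eventually_gt_atTop (0 : ℝ), eventually_gt_atTop K] with s hs hs'
  have hi1 := integrable_count hk ∅ hs.le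
  have hi2 := integrable_count hk ∅ (sub_pos.2 hs').le
  have hnn : 0 ≤ᵐ[Pr] fun ω => ((vc a true).N s ∅ ω : ℝ) - (vc a true).N (s - K) ∅ ω := by
    filter_upwards [(vc a true).ae_finite (ne_true hk) ∅] with ω hω
    have h5 := ((vc a true).N_eq_iff hs.le (hω s)).1 rfl
    have h6 : (vc a true).N (s - K) ∅ ω ≤ (vc a true).N s ∅ ω :=
      (vc a true).N_le (lt_of_le_of_lt (by linarith) h5.2)
    have h7 : ((vc a true).N (s - K) ∅ ω : ℝ) ≤ (vc a true).N s ∅ ω := by exact_mod_cast h6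
    simp only [Pi.zero_apply]
    linarith
  have h8 := mul_meas_ge_le_integral_of_nonneg hnn (hi1.sub hi2) (δ * s)
  have h9 : (∫ ω, (((vc a true).N s ∅ ω : ℝ) - (vc a true).N (s - K) ∅ ω) ∂Pr) =
      (∫ ω, ((vc a true).N s ∅ ω : ℝ) ∂Pr) - ∫ ω, ((vc a true).N (s - K) ∅ ω : ℝ) ∂Pr :=
    integral_sub hi1 hi2
  have h10 : Pr.real {ω | δ * s ≤ ((vc a true).N s ∅ ω : ℝ) - (vc a true).N (s - K) ∅ ω} ≤
      ((∫ ω, ((vc a true).N s ∅ ω : ℝ) ∂Pr) / s -
        (∫ ω, ((vc a true).N (s - K) ∅ ω : ℝ) ∂Pr) / s) / δ := by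
    rw [← sub_div, ← h9, div_div, le_div_iff₀ (by positivity), mul_comm, mul_comm s δ]
    exact h8
  rw [← ENNReal.ofReal_toReal (measure_ne_top Pr _)]
  exact ENNReal.ofReal_le_ofReal h10

theorem nc_unbiased (hk : IsKernel a) {K δ : ℝ} (hK : 0 < K) (hδ : 0 < δ) :
    Tendsto (fun s : ℝ => Pr {ω | ∃ k, (vc a true).T k ∅ ω ≤ s ∧
      s - K < (vc a true).T (k + 1) ∅ ω ∧
      δ * s ≤ |(lf ((vc a true).Y k ∅ ω) : ℝ) - mn a * s|}) atTop (𝓝 0) := by
  have hδ3 : 0 < δ / 3 := by positivity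
  have h1 := nca_centre hk hδ3
  have h2 := nca_jumps hk hK hδ3
  have h3 : Tendsto (fun s : ℝ => ENNReal.ofReal (((∫ ω, hh ((vc a true).X (s - K) ∅ ω) ∂Pr) +
      K * sg a / 2) / (δ / 3 * s))) atTop (𝓝 0) := by
    have h4 := nca_shift (tendsto_Ehh hk) K
    have h5 : Tendsto (fun s : ℝ => K * sg a / 2 / s) atTop (𝓝 0) :=
      tendsto_const_nhds.div_atTop tendsto_id
    have h6 := (h4.add h5).div_const (δ / 3)
    rw [add_zero, zero_div] at h6
    have h7 := ENNReal.tendsto_ofReal h6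
    rw [ENNReal.ofReal_zero] at h7
    refine h7.congr fun s => ?_
    congr 1
    rw [← add_div, div_div, mul_comm s]
  have h8 := (h1.add h2).add h3
  rw [add_zero, add_zero] at h8
  refine tendsto_of_tendsto_of_tendsto_of_le_of_le' tendsto_const_nhds h8
    (Eventually.of_forall fun s => bot_le) ?_
  filter_upwards [eventually_gt_atTop (0 : ℝ), eventually_gt_atTop K] with s hs hs'
  have h9 := nca_hit hk hK.le (sub_pos.2 hs').le (mul_pos hδ3 hs)
  rw [sub_add_cancel] at h9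
  refine le_trans ?_ (add_le_add le_rfl h9)
  refine le_trans ?_ (add_le_add (measure_union_le _ _) le_rfl)
  refine le_trans ?_ (measure_union_le _ _)
  refine measure_mono_ae ?_
  filter_upwards [(vc a true).ae_finite (ne_true hk) ∅] with ω hω hmem
  obtain ⟨k, hk1, hk2, hk3⟩ := hmem
  by_cases hA : δ / 3 * s ≤ |(cc ((vc a true).X s ∅ ω) : ℝ) - mn a * s|
  · exact Or.inl (Or.inl hA)
  by_cases hB : δ / 3 * s ≤ ((vc a true).N s ∅ ω : ℝ) - (vc a true).N (s - K) ∅ ω
  · exact Or.inl (Or.inr hB)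
  refine Or.inr ⟨k, hk1, hk2, ?_⟩
  push Not at hA hB
  have hN1 : (vc a true).N (s - K) ∅ ω ≤ k := (vc a true).N_le hk2
  have hN2 : k ≤ (vc a true).N s ∅ ω := by
    by_contra hcon
    have h10 := ((vc a true).N_eq_iff hs.le (hω s)).1 rfl
    have h11 : (vc a true).T ((vc a true).N s ∅ ω + 1) ∅ ω ≤ (vc a true).T k ∅ ω :=
      (vc a true).T_mono ∅ ω (by omega)
    linarith [h10.2]
  obtain ⟨l, hl⟩ := Nat.exists_eq_add_of_le hN2
  have h12 := nca_cc_dist (a := a) ∅ ω k l
  rw [← hl] at h12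
  have h13 : |(cc ((vc a true).Y k ∅ ω) : ℝ) - cc ((vc a true).X s ∅ ω)| ≤ l := h12
  have h14 : (l : ℝ) ≤ ((vc a true).N s ∅ ω : ℝ) - (vc a true).N (s - K) ∅ ω := by
    rw [hl]
    push_cast
    have : ((vc a true).N (s - K) ∅ ω : ℝ) ≤ k := by exact_mod_cast hN1
    linarith
  -- the leftmost one and the centre
  set m := (vc a true).Y k ∅ ω with hm
  have h15 : (lf m : ℝ) ≤ cc m := (low_iff_lf m _).1 (low_cc m)
  have h16 : (cc m : ℝ) - lf m ≤ hh m := sub_le_of_low ((low_iff_lf m _).2 le_rfl)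
  have h17 : |(lf m : ℝ) - mn a * s| ≤ ((cc m : ℝ) - lf m) +
      (|(cc m : ℝ) - cc ((vc a true).X s ∅ ω)| +
      |(cc ((vc a true).X s ∅ ω) : ℝ) - mn a * s|) := by
    have e : (lf m : ℝ) - mn a * s = -((cc m : ℝ) - lf m) +
        (((cc m : ℝ) - cc ((vc a true).X s ∅ ω)) +
        ((cc ((vc a true).X s ∅ ω) : ℝ) - mn a * s)) := by ring
    rw [e]
    refine (abs_add_le _ _).trans (add_le_add ?_ (abs_add_le _ _))
    rw [abs_neg, abs_of_nonneg (by linarith)]
  linarith

end H40.VM
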