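import Pool.Agent.H40.VM.CT2
import Pool.Agent.H40.VM.CB

/-!
# Module RW: the centre is a time changed simple random walk (centred kernels)

`cc (Φ m u)` is `cc m ± 1` with probability `1/2` each (`Φ_eq_true`, `cc_fl`, `rate_up`,
`lintegral_Φ`, `q_true`).
* `steps_law`: by `Measure.eq_infinitePi` and induction on the number of coordinates with the first
  step decomposition.
* `centre_mean`, `centre_sq`: induction on `n` with the first step decomposition `integral_cons`
  (bounded random variables): `N t m ω = 0` if `t < T 1`, else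
  `min (N t m ω) (n+1) = 1 + min (N (t - T 1) (Φ m u) (shift ω)) n`.
* `centre_sq_le`: Fatou / monotone convergence in `centre_sq`.
-/

open MeasureTheory ProbabilityTheory Filter Topology
open scoped ENNReal NNReal unitInterval symmDiff

namespace H40.VM

open H40.Voter (IsKernel)

variable {a : ℤ → ℝ}

/-- the law of a random sign -/
noncomputable def rad : Measure ℤ :=
  (2 : ℝ≥0∞)⁻¹ • Measure.dirac 1 + (2 : ℝ≥0∞)⁻¹ • Measure.dirac (-1)

instance : IsProbabilityMeasure rad := by
  constructor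
  simp [rad, ENNReal.inv_two_add_inv_two]

/-! ### law of one step -/

lemma rw_rate_down (hk : IsKernel a) (hc : mn a = 0) (m : St) :
    ∑' j : ℤ, (if cf true m j then 0 else rt a true m j) = tot a true m / 2 := by
  have h1 := rate_up hk m
  have hs := summable_rt hk true m
  have hs1 : Summable fun j : ℤ => if cf true m j then rt a true m j else 0 :=
    Summable.of_nonneg_of_le (fun j => by split_ifs <;> [exact rt_nonneg hk true m j; exact le_rfl])
      (fun j => by split_ifs <;> [exact le_rfl; exact rt_nonneg hk true m j]) hs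
  have h2 : ∑' j : ℤ, (if cf true m j then 0 else rt a true m j) =
      tot a true m - ∑' j : ℤ, (if cf true m j then rt a true m j else 0) := by
    unfold tot
    rw [← hs.tsum_sub hs1]
    refine tsum_congr fun j => ?_
    split_ifs <;> ring
  rw [h2, h1, hc]
  ring

lemma rw_lintegral_step (hk : IsKernel a) (hc : mn a = 0) (m : St) (g : ℤ → ℝ≥0∞) :
    ∫⁻ u, g (cc ((vc a true).Φ m u) - cc m) = 2⁻¹ * g 1 + 2⁻¹ * g (-1) := by
  have ht := tot_true_pos hk m
  have hs := summable_rt hk true m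
  rw [lintegral_Φ hk ht (fun x => g (cc x - cc m))]
  have e : ∀ j : ℤ, ENNReal.ofReal (rt a true m j / tot a true m) * g (cc (fl m j) - cc m) =
      ENNReal.ofReal ((if cf true m j then rt a true m j else 0) / tot a true m) * g 1 +
      ENNReal.ofReal ((if cf true m j then 0 else rt a true m j) / tot a true m) * g (-1) := by
    intro j
    rw [cc_fl]
    split_ifs with h
    · simp
    · simp
  rw [tsum_congr e, ENNReal.tsum_add, ENNReal.tsum_mul_right, ENNReal.tsum_mul_right]
  have hs1 : Summable fun j : ℤ => if cf true m j then rt a true m j else 0 :=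
    Summable.of_nonneg_of_le (fun j => by split_ifs <;> [exact rt_nonneg hk true m j; exact le_rfl])
      (fun j => by split_ifs <;> [exact le_rfl; exact rt_nonneg hk true m j]) hs
  have hs2 : Summable fun j : ℤ => if cf true m j then 0 else rt a true m j :=
    Summable.of_nonneg_of_le (fun j => by split_ifs <;> [exact le_rfl; exact rt_nonneg hk true m j])
      (fun j => by split_ifs <;> [exact rt_nonneg hk true m j; exact le_rfl]) hs
  have half : ENNReal.ofReal (1 / 2) = 2⁻¹ := by
    rw [one_div, ENNReal.ofReal_inv_of_pos (by norm_num)]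
    norm_num
  have e1 : ∑' j : ℤ, ENNReal.ofReal ((if cf true m j then rt a true m j else 0) / tot a true m)
      = 2⁻¹ := by
    rw [← ENNReal.ofReal_tsum_of_nonneg (fun j => by
      refine div_nonneg ?_ ht.le
      split_ifs <;> [exact rt_nonneg hk true m j; exact le_rfl]) (hs1.div_const _),
      tsum_div_const, rate_up hk m, hc, ← half]
    congr 1
    field_simp
    ring
  have e2 : ∑' j : ℤ, ENNReal.ofReal ((if cf true m j then 0 else rt a true m j) / tot a true m)
      = 2⁻¹ := by
    rw [← ENNReal.ofReal_tsum_of_nonneg (fun j => by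
      refine div_nonneg ?_ ht.le
      split_ifs <;> [exact le_rfl; exact rt_nonneg hk true m j]) (hs2.div_const _),
      tsum_div_const, rw_rate_down hk hc m, ← half]
    congr 1
    field_simp
  rw [e1, e2]

lemma rw_lintegral_rad (g : ℤ → ℝ≥0∞) : ∫⁻ k, g k ∂rad = 2⁻¹ * g 1 + 2⁻¹ * g (-1) := by
  unfold rad
  rw [lintegral_add_measure, lintegral_smul_measure, lintegral_smul_measure, lintegral_dirac,
    lintegral_dirac, smul_eq_mul, smul_eq_mul]

lemma rw_step_sq (hk : IsKernel a) (m : St) (u : unitInterval) :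
    ((cc ((vc a true).Φ m u) : ℝ) - cc m) ^ 2 = 1 := by
  obtain ⟨j, hj⟩ := Φ_eq_true hk m u
  rw [hj, cc_fl]
  split_ifs <;> push_cast <;> ring

lemma rw_step_abs (hk : IsKernel a) (m : St) (u : unitInterval) :
    |(cc ((vc a true).Φ m u) : ℝ) - cc m| ≤ 1 := by
  rw [abs_le_one_iff_mul_self_le_one, ← sq, rw_step_sq hk]

lemma rw_measurable_cc (m : St) : Measurable fun u => cc ((vc a true).Φ m u) :=
  (measurable_of_countable cc).comp ((vc a true).meas m)

lemma rw_step_mean (hk : IsKernel a) (hc : mn a = 0) (m : St) :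
    ∫ u, ((cc ((vc a true).Φ m u) : ℝ) - cc m) = 0 := by
  have hmap : volume.map (fun u => cc ((vc a true).Φ m u) - cc m) = rad := by
    refine Measure.ext_of_lintegral _ fun g _ => ?_
    rw [lintegral_map (measurable_of_countable _) ((rw_measurable_cc m).sub_const _),
      rw_lintegral_step hk hc, rw_lintegral_rad]
  have h1 : ∫ u, ((cc ((vc a true).Φ m u) : ℝ) - cc m) = ∫ k : ℤ, (k : ℝ) ∂rad := by
    rw [← hmap, integral_map ((rw_measurable_cc m).sub_const _).aemeasurable
      (measurable_of_countable _).aestronglyMeasurable]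
    refine integral_congr_ae (Eventually.of_forall fun u => ?_)
    push_cast
    rfl
  rw [h1]
  unfold rad
  have hi : ∀ z : ℤ, Integrable (fun k : ℤ => (k : ℝ)) ((2 : ℝ≥0∞)⁻¹ • Measure.dirac z) := by
    intro z
    refine Integrable.smul_measure ?_ (by simp)
    exact integrable_dirac (by simp)
  rw [integral_add_measure (hi 1) (hi (-1)), integral_smul_measure, integral_smul_measure,
    integral_dirac, integral_dirac]
  simp

/-! ### law of all steps -/

lemma rw_prod_law (hk : IsKernel a) (hc : mn a = 0) (n : ℕ) (t : ℕ → Set ℤ) (m : St) :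
    ∫⁻ ω, (∏ k ∈ Finset.range n, (t k).indicator (fun _ => (1 : ℝ≥0∞))
      (cc ((vc a true).Y (k + 1) m ω) - cc ((vc a true).Y k m ω))) ∂Pr =
      ∏ k ∈ Finset.range n, rad (t k) := by
  classical
  induction n generalizing t m with
  | zero => simp
  | succ n ih =>
    have hmeas : ∀ (n : ℕ) (t : ℕ → Set ℤ) (m : St), Measurable fun ω =>
        (∏ k ∈ Finset.range n, (t k).indicator (fun _ => (1 : ℝ≥0∞))
        (cc ((vc a true).Y (k + 1) m ω) - cc ((vc a true).Y k m ω))) := by
      intro n t m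
      refine Finset.measurable_prod _ fun k _ => ?_
      have h1 : Measurable fun ω => cc ((vc a true).Y (k + 1) m ω) - cc ((vc a true).Y k m ω) :=
        ((measurable_of_countable cc).comp ((vc a true).measurable_Yx (k + 1) m)).sub
          ((measurable_of_countable cc).comp ((vc a true).measurable_Yx k m))
      exact (measurable_of_countable (fun z : ℤ => (t k).indicator (fun _ => (1 : ℝ≥0∞)) z)).comp h1
    rw [lintegral_cons' (hmeas (n + 1) t m)]
    have hcons : ∀ (e : ℝ≥0) (u : unitInterval), ∫⁻ ω, (∏ k ∈ Finset.range (n + 1),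
        (t k).indicator (fun _ => (1 : ℝ≥0∞)) (cc ((vc a true).Y (k + 1) m (cons (u, e) ω)) -
          cc ((vc a true).Y k m (cons (u, e) ω)))) ∂Pr =
        (t 0).indicator (fun _ => (1 : ℝ≥0∞)) (cc ((vc a true).Φ m u) - cc m) *
          ∏ k ∈ Finset.range n, rad (t (k + 1)) := by
      intro e u
      rw [← ih (fun k => t (k + 1)) ((vc a true).Φ m u), ← lintegral_const_mul _ (hmeas _ _ _)]
      refine lintegral_congr fun ω => ?_
      rw [Finset.prod_range_succ', mul_comm]
      congr 1
    simp only [hcons]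
    rw [lintegral_const, measure_univ, mul_one, lintegral_mul_const _ (by
      exact (measurable_of_countable (fun z : ℤ => (t 0).indicator (fun _ => (1 : ℝ≥0∞)) z)).comp
        ((rw_measurable_cc m).sub_const _)),
      rw_lintegral_step hk hc m (fun z => (t 0).indicator (fun _ => (1 : ℝ≥0∞)) z),
      ← rw_lintegral_rad, Finset.prod_range_succ', mul_comm]
    congr 1
    exact lintegral_indicator_one (MeasurableSet.of_discrete)

theorem steps_law (hk : IsKernel a) (hc : mn a = 0) (m : St) :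
    Pr.map (fun ω (k : ℕ) => cc ((vc a true).Y (k + 1) m ω) - cc ((vc a true).Y k m ω)) =
      Measure.infinitePi fun _ : ℕ => rad := by
  classical
  have hm : Measurable fun ω (k : ℕ) =>
      cc ((vc a true).Y (k + 1) m ω) - cc ((vc a true).Y k m ω) := by
    refine measurable_pi_iff.2 fun k => ?_
    exact ((measurable_of_countable cc).comp ((vc a true).measurable_Yx (k + 1) m)).sub
          ((measurable_of_countable cc).comp ((vc a true).measurable_Yx k m))
  refine Measure.eq_infinitePi _ fun s t ht => ?_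
  obtain ⟨n, hn⟩ : ∃ n, s ⊆ Finset.range n := ⟨s.sup id + 1, fun i hi => by
    rw [Finset.mem_range, Nat.lt_succ_iff]
    exact Finset.le_sup (f := id) hi⟩
  have h1 := rw_prod_law hk hc n (fun k => if k ∈ s then t k else Set.univ) m
  have h2 : ∏ k ∈ Finset.range n, rad (if k ∈ s then t k else Set.univ) = ∏ i ∈ s, rad (t i) := by
    rw [← Finset.prod_subset hn fun i _ hi => by rw [if_neg hi, measure_univ]]
    exact Finset.prod_congr rfl fun i hi => by rw [if_pos hi]
  rw [← h2, ← h1, Measure.map_apply hm (MeasurableSet.pi s.countable_toSet fun i _ => ht i)]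
  rw [← lintegral_indicator_one (hm (MeasurableSet.pi s.countable_toSet fun i _ => ht i))]
  refine lintegral_congr fun ω => ?_
  by_cases h : ω ∈ (fun ω (k : ℕ) => cc ((vc a true).Y (k + 1) m ω) - cc ((vc a true).Y k m ω)) ⁻¹'
      (Set.pi s t)
  · rw [Set.indicator_of_mem h]
    refine (Finset.prod_eq_one fun k _ => ?_).symm
    rw [Set.indicator_of_mem]
    split_ifs with hks
    · exact h k hks
    · trivial
  · rw [Set.indicator_of_notMem h]
    have h' : ∃ k ∈ s, cc ((vc a true).Y (k + 1) m ω) - cc ((vc a true).Y k m ω) ∉ t k := by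
      by_contra hcon
      push Not at hcon
      exact h fun k hks => hcon k hks
    obtain ⟨k, hks, hk2⟩ := h'
    refine (Finset.prod_eq_zero (hn hks) ?_).symm
    rw [Set.indicator_of_notMem]
    rw [if_pos hks]
    exact hk2

/-! ### stopping after finitely many jumps -/

lemma rw_N_cons (hk : IsKernel a) (m : St) (t : ℝ) (ht : 0 ≤ t) (u : unitInterval) (e : ℝ≥0) :
    ∀ᵐ ω ∂Pr, (vc a true).N t m (cons (u, e) ω) =
      if (e : ℝ) / (vc a true).q m ≤ t then
        (vc a true).N (t - (e : ℝ) / (vc a true).q m) ((vc a true).Φ m u) ω + 1 else 0 := by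
  filter_upwards [(vc a true).ae_finite (ne_true hk) ((vc a true).Φ m u)] with ω hω
  have hex : ∃ k, t < (vc a true).T k m (cons (u, e) ω) := by
    obtain ⟨k, hk'⟩ := hω t
    refine ⟨k + 1, ?_⟩
    rw [Chain.T_cons]
    have : 0 ≤ (e : ℝ) / (vc a true).q m := div_nonneg e.2 ((vc a true).qpos m).le
    linarith
  split_ifs with h
  · rw [(vc a true).N_eq_iff ht hex, Chain.T_cons, Chain.T_cons]
    have h1 := ((vc a true).N_eq_iff (t := t - (e : ℝ) / (vc a true).q m) (sub_nonneg.2 h)
      (hω _)).1 rfl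
    constructor
    · linarith [h1.1]
    · linarith [h1.2]
  · rw [(vc a true).N_eq_iff ht hex, Chain.T_cons, Chain.T_zero, Chain.T_zero]
    push Not at h
    exact ⟨ht, by linarith⟩

/-- the stopped displacement -/
noncomputable def rwW (a : ℤ → ℝ) (n : ℕ) (t : ℝ) (m : St) (ω : Om) : ℝ :=
  (cc ((vc a true).Y (min ((vc a true).N t m ω) n) m ω) : ℝ) - cc m

lemma rw_abs_Y (hk : IsKernel a) (k : ℕ) (m : St) (ω : Om) :
    |(cc ((vc a true).Y k m ω) : ℝ) - cc m| ≤ k := by
  induction k with
  | zero => simp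
  | succ k ih =>
    rw [Chain.Y_succ']
    have h1 := rw_step_abs hk ((vc a true).Y k m ω) (ω k).1
    have h2 : (cc ((vc a true).Φ ((vc a true).Y k m ω) (ω k).1) : ℝ) - cc m =
      ((cc ((vc a true).Φ ((vc a true).Y k m ω) (ω k).1) : ℝ) - cc ((vc a true).Y k m ω)) +
      ((cc ((vc a true).Y k m ω) : ℝ) - cc m) := by ring
    rw [h2]
    refine (abs_add_le _ _).trans ?_
    push_cast
    linarith

lemma rw_abs_W (hk : IsKernel a) (n : ℕ) (t : ℝ) (m : St) (ω : Om) : |rwW a n t m ω| ≤ n := by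
  unfold rwW
  refine (rw_abs_Y hk _ m ω).trans ?_
  exact_mod_cast min_le_right _ _

lemma rw_measurable_W (n : ℕ) (t : ℝ) (m : St) : Measurable (rwW a n t m) := by
  have hN := (vc a true).measurable_Nx t m
  have h1 : Measurable fun ω => (vc a true).Y (min ((vc a true).N t m ω) n) m ω := by
    have h2 : Measurable fun p : ℕ × Om => (vc a true).Y (min p.1 n) m p.2 :=
      measurable_from_prod_countable_right fun k => (vc a true).measurable_Yx (min k n) m
    exact h2.comp (hN.prodMk measurable_id)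
  exact ((measurable_of_countable (fun x : St => (cc x : ℝ))).comp h1).sub_const _

lemma rw_integrable_W (hk : IsKernel a) (n : ℕ) (t : ℝ) (m : St) : Integrable (rwW a n t m) Pr :=
  Integrable.of_bound (rw_measurable_W n t m).aestronglyMeasurable (n : ℝ)
    (Eventually.of_forall fun ω => by rw [Real.norm_eq_abs]; exact rw_abs_W hk n t m ω)

lemma rw_integrable_W_sq (hk : IsKernel a) (n : ℕ) (t : ℝ) (m : St) :
    Integrable (fun ω => rwW a n t m ω ^ 2) Pr :=
  Integrable.of_bound ((rw_measurable_W n t m).pow_const 2).aestronglyMeasurable ((n : ℝ) ^ 2)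
    (Eventually.of_forall fun ω => by
      rw [Real.norm_eq_abs, abs_pow]
      exact pow_le_pow_left₀ (abs_nonneg _) (rw_abs_W hk n t m ω) 2)

lemma rw_W_zero (t : ℝ) (m : St) (ω : Om) : rwW a 0 t m ω = 0 := by
  simp [rwW]

lemma rw_W_cons (hk : IsKernel a) (n : ℕ) (m : St) (t : ℝ) (ht : 0 ≤ t) (u : unitInterval)
    (e : ℝ≥0) :
    ∀ᵐ ω ∂Pr, rwW a (n + 1) t m (cons (u, e) ω) =
      if (e : ℝ) / (vc a true).q m ≤ t then
        ((cc ((vc a true).Φ m u) : ℝ) - cc m) +
          rwW a n (t - (e : ℝ) / (vc a true).q m) ((vc a true).Φ m u) ω else 0 := by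
  filter_upwards [rw_N_cons hk m t ht u e] with ω hω
  unfold rwW
  rw [hω]
  split_ifs with h
  · rw [Nat.add_min_add_right, Chain.Y_cons]
    ring
  · simp

lemma rw_min_cons (hk : IsKernel a) (n : ℕ) (m : St) (t : ℝ) (ht : 0 ≤ t) (u : unitInterval)
    (e : ℝ≥0) :
    ∀ᵐ ω ∂Pr, ((min ((vc a true).N t m (cons (u, e) ω)) (n + 1) : ℕ) : ℝ) =
      if (e : ℝ) / (vc a true).q m ≤ t then
        ((min ((vc a true).N (t - (e : ℝ) / (vc a true).q m) ((vc a true).Φ m u) ω) n : ℕ) : ℝ)
          + 1 else 0 := by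
  filter_upwards [rw_N_cons hk m t ht u e] with ω hω
  rw [hω]
  split_ifs with h
  · rw [Nat.add_min_add_right]
    push_cast
    ring
  · simp

lemma rw_integrable_min (n : ℕ) (t : ℝ) (m : St) :
    Integrable (fun ω => ((min ((vc a true).N t m ω) n : ℕ) : ℝ)) Pr := by
  refine Integrable.of_bound (C := (n : ℝ)) ?_ (Eventually.of_forall fun ω => ?_)
  · exact ((measurable_of_countable (fun k : ℕ => ((min k n : ℕ) : ℝ))).comp
      ((vc a true).measurable_Nx t m)).aestronglyMeasurable
  · rw [Real.norm_eq_abs, abs_of_nonneg (by positivity)]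
    exact_mod_cast min_le_right _ _

lemma rw_mean (hk : IsKernel a) (hc : mn a = 0) (n : ℕ) : ∀ (m : St) {t : ℝ}, 0 ≤ t →
    ∫ ω, rwW a n t m ω ∂Pr = 0 := by
  induction n with
  | zero => intro m t _; simp [rw_W_zero]
  | succ n ih =>
    intro m t ht
    rw [integral_cons (rw_integrable_W hk (n + 1) t m)]
    have h1 : ∀ s : Stp, ∫ ω, rwW a (n + 1) t m (cons s ω) ∂Pr =
        ((cc ((vc a true).Φ m s.1) : ℝ) - cc m) *
          (if (s.2 : ℝ) / (vc a true).q m ≤ t then 1 else 0) := by
      rintro ⟨u, e⟩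
      rw [integral_congr_ae (rw_W_cons hk n m t ht u e)]
      split_ifs with h
      · rw [integral_add (integrable_const _) (rw_integrable_W hk _ _ _),
          ih _ (sub_nonneg.2 h), integral_const]
        simp
      · simp
    simp only [h1]
    unfold stp
    rw [integral_prod_mul (fun u : unitInterval => (cc ((vc a true).Φ m u) : ℝ) - cc m)
      (fun e : ℝ≥0 => if (e : ℝ) / (vc a true).q m ≤ t then (1 : ℝ) else 0),
      rw_step_mean hk hc m, zero_mul]

lemma rw_sq (hk : IsKernel a) (hc : mn a = 0) (n : ℕ) : ∀ (m : St) {t : ℝ}, 0 ≤ t →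
    ∫ ω, rwW a n t m ω ^ 2 ∂Pr = ∫ ω, ((min ((vc a true).N t m ω) n : ℕ) : ℝ) ∂Pr := by
  induction n with
  | zero => intro m t _; simp [rw_W_zero]
  | succ n ih =>
    intro m t ht
    rw [integral_cons (rw_integrable_W_sq hk (n + 1) t m),
      integral_cons (rw_integrable_min (n + 1) t m)]
    refine integral_congr_ae (Eventually.of_forall fun s => ?_)
    obtain ⟨u, e⟩ := s
    have hae := (rw_W_cons hk n m t ht u e).mono fun ω hω => congrArg (fun x : ℝ => x ^ 2) hω
    show ∫ ω, rwW a (n + 1) t m (cons (u, e) ω) ^ 2 ∂Pr =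
      ∫ ω, ((min ((vc a true).N t m (cons (u, e) ω)) (n + 1) : ℕ) : ℝ) ∂Pr
    rw [integral_congr_ae hae, integral_congr_ae (rw_min_cons hk n m t ht u e)]
    split_ifs with h
    · have h2 : ∀ ω, (((cc ((vc a true).Φ m u) : ℝ) - cc m) +
          rwW a n (t - (e : ℝ) / (vc a true).q m) ((vc a true).Φ m u) ω) ^ 2 =
          1 + (2 * ((cc ((vc a true).Φ m u) : ℝ) - cc m) *
            rwW a n (t - (e : ℝ) / (vc a true).q m) ((vc a true).Φ m u) ω +
            rwW a n (t - (e : ℝ) / (vc a true).q m) ((vc a true).Φ m u) ω ^ 2) := by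
        intro ω
        have := rw_step_sq hk m u
        rw [add_sq, this]
        ring
      simp only [h2]
      have i1 : Integrable (fun ω => 2 * ((cc ((vc a true).Φ m u) : ℝ) - cc m) *
            rwW a n (t - (e : ℝ) / (vc a true).q m) ((vc a true).Φ m u) ω) Pr :=
        (rw_integrable_W hk _ _ _).const_mul _
      have i2 := rw_integrable_W_sq hk n (t - (e : ℝ) / (vc a true).q m) ((vc a true).Φ m u)
      have i3 : Integrable (fun ω => 2 * ((cc ((vc a true).Φ m u) : ℝ) - cc m) *
            rwW a n (t - (e : ℝ) / (vc a true).q m) ((vc a true).Φ m u) ω +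
            rwW a n (t - (e : ℝ) / (vc a true).q m) ((vc a true).Φ m u) ω ^ 2) Pr := i1.add i2
      rw [integral_add (integrable_const _) i3, integral_add i1 i2,
        integral_const_mul, rw_mean hk hc n _ (sub_nonneg.2 h), ih _ (sub_nonneg.2 h),
        integral_add (rw_integrable_min _ _ _) (integrable_const _), integral_const]
      simp
      ring
    · simp

theorem centre_mean (hk : IsKernel a) (hc : mn a = 0) (m : St) {t : ℝ} (ht : 0 ≤ t) (n : ℕ) :
    ∫ ω, ((cc ((vc a true).Y (min ((vc a true).N t m ω) n) m ω) : ℝ) - cc m) ∂Pr = 0 :=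
  rw_mean hk hc n m ht

theorem centre_sq (hk : IsKernel a) (hc : mn a = 0) (m : St) {t : ℝ} (ht : 0 ≤ t) (n : ℕ) :
    ∫ ω, ((cc ((vc a true).Y (min ((vc a true).N t m ω) n) m ω) : ℝ) - cc m) ^ 2 ∂Pr =
      ∫ ω, ((min ((vc a true).N t m ω) n : ℕ) : ℝ) ∂Pr :=
  rw_sq hk hc n m ht

lemma rw_measurable_X (t : ℝ) (m : St) :
    Measurable fun ω => (cc ((vc a true).X t m ω) : ℝ) :=
  (measurable_of_countable (fun x : St => (cc x : ℝ))).comp ((vc a true).measurable_Xx t m)

/-- the second moment bound as a lower integral -/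
lemma rw_lint_sq_le (hk : IsKernel a) (hc : mn a = 0) (m : St) {t : ℝ} (ht : 0 ≤ t) :
    ∫⁻ ω, ENNReal.ofReal (((cc ((vc a true).X t m ω) : ℝ) - cc m) ^ 2) ∂Pr ≤
      ∫⁻ ω, ((vc a true).N t m ω : ℝ≥0∞) ∂Pr := by
  have h1 : ∀ n : ℕ, ∫⁻ ω, ENNReal.ofReal (rwW a n t m ω ^ 2) ∂Pr ≤
      ∫⁻ ω, ((vc a true).N t m ω : ℝ≥0∞) ∂Pr := by
    intro n
    rw [← ofReal_integral_eq_lintegral_ofReal (rw_integrable_W_sq hk n t m)
      (Eventually.of_forall fun ω => sq_nonneg _), rw_sq hk hc n m ht,
      ofReal_integral_eq_lintegral_ofReal (rw_integrable_min n t m)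
      (Eventually.of_forall fun ω => by positivity)]
    refine lintegral_mono fun ω => ?_
    rw [ENNReal.ofReal_natCast]
    exact Nat.cast_le.2 (min_le_left _ _)
  have h2 : ∀ ω, Tendsto (fun n : ℕ => ENNReal.ofReal (rwW a n t m ω ^ 2)) atTop
      (𝓝 (ENNReal.ofReal (((cc ((vc a true).X t m ω) : ℝ) - cc m) ^ 2))) := by
    intro ω
    refine tendsto_const_nhds.congr' ?_
    filter_upwards [eventually_ge_atTop ((vc a true).N t m ω)] with n hn
    unfold rwW
    rw [min_eq_left hn]
    rfl
  calc ∫⁻ ω, ENNReal.ofReal (((cc ((vc a true).X t m ω) : ℝ) - cc m) ^ 2) ∂Pr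
      = ∫⁻ ω, liminf (fun n : ℕ => ENNReal.ofReal (rwW a n t m ω ^ 2)) atTop ∂Pr :=
        lintegral_congr fun ω => (h2 ω).liminf_eq.symm
    _ ≤ liminf (fun n : ℕ => ∫⁻ ω, ENNReal.ofReal (rwW a n t m ω ^ 2) ∂Pr) atTop :=
        lintegral_liminf_le fun n => ((rw_measurable_W n t m).pow_const 2).ennreal_ofReal
    _ ≤ liminf (fun _ : ℕ => ∫⁻ ω, ((vc a true).N t m ω : ℝ≥0∞) ∂Pr) atTop :=
        liminf_le_liminf (Eventually.of_forall h1)
    _ = _ := by simp

lemma rw_lint_N (hk : IsKernel a) (m : St) {t : ℝ} (ht : 0 ≤ t) :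
    ∫⁻ ω, ((vc a true).N t m ω : ℝ≥0∞) ∂Pr =
      ENNReal.ofReal (∫ ω, ((vc a true).N t m ω : ℝ) ∂Pr) := by
  rw [ofReal_integral_eq_lintegral_ofReal (integrable_count hk m ht)
    (Eventually.of_forall fun ω => Nat.cast_nonneg _)]
  exact lintegral_congr fun ω => (ENNReal.ofReal_natCast _).symm

theorem integrable_centre_sq (hk : IsKernel a) (hc : mn a = 0) (m : St) {t : ℝ} (ht : 0 ≤ t) :
    Integrable (fun ω => ((cc ((vc a true).X t m ω) : ℝ) - cc m) ^ 2) Pr := by
  refine ⟨(((rw_measurable_X t m).sub_const _).pow_const 2).aestronglyMeasurable, ?_⟩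
  rw [hasFiniteIntegral_iff_ofReal (Eventually.of_forall fun ω => sq_nonneg _)]
  refine (rw_lint_sq_le hk hc m ht).trans_lt ?_
  rw [rw_lint_N hk m ht]
  exact ENNReal.ofReal_lt_top

theorem centre_sq_le (hk : IsKernel a) (hc : mn a = 0) (m : St) {t : ℝ} (ht : 0 ≤ t) :
    ∫ ω, ((cc ((vc a true).X t m ω) : ℝ) - cc m) ^ 2 ∂Pr ≤
      ∫ ω, ((vc a true).N t m ω : ℝ) ∂Pr := by
  have h := rw_lint_sq_le hk hc m ht
  rw [rw_lint_N hk m ht, ← ofReal_integral_eq_lintegral_ofReal (integrable_centre_sq hk hc m ht)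
    (Eventually.of_forall fun ω => sq_nonneg _)] at h
  exact (ENNReal.ofReal_le_ofReal_iff (integral_nonneg fun ω => Nat.cast_nonneg _)).1 h

/-- increments between two times -/
theorem centre_incr_sq_le (hk : IsKernel a) (hc : mn a = 0) (m : St) {s t : ℝ} (hs : 0 ≤ s)
    (hst : s ≤ t) :
    ∫ ω, ((cc ((vc a true).X t m ω) : ℝ) - cc ((vc a true).X s m ω)) ^ 2 ∂Pr ≤
      ∫ ω, ((vc a true).N t m ω : ℝ) ∂Pr - ∫ ω, ((vc a true).N s m ω : ℝ) ∂Pr := by
  have ht : 0 ≤ t := hs.trans hst
  have hNE := ne_true hk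
  have hr : 0 ≤ t - s := sub_nonneg.2 hst
  have hfin := (vc a true).ae_finite hNE m
  -- the squared increment
  have hH1 : Measurable fun p : St × Om =>
      ENNReal.ofReal (((cc ((vc a true).X (t - s) p.1 p.2) : ℝ) - cc p.1) ^ 2) := by
    have h1 : Measurable fun p : St × Om => (vc a true).X (t - s) p.1 p.2 :=
      (vc a true).measurable_X.comp (measurable_const.prodMk measurable_id)
    exact ((((measurable_of_countable (fun x : St => (cc x : ℝ))).comp h1).sub
      ((measurable_of_countable (fun x : St => (cc x : ℝ))).comp measurable_fst)).pow_const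
        2).ennreal_ofReal
  have hH2 : Measurable fun p : St × Om => (((vc a true).N (t - s) p.1 p.2 : ℕ) : ℝ≥0∞) := by
    have h1 : Measurable fun p : St × Om => (vc a true).N (t - s) p.1 p.2 :=
      (vc a true).measurable_N.comp (measurable_const.prodMk measurable_id)
    exact (measurable_of_countable (fun k : ℕ => (k : ℝ≥0∞))).comp h1
  have e1 : ∫⁻ ω, ENNReal.ofReal
      (((cc ((vc a true).X t m ω) : ℝ) - cc ((vc a true).X s m ω)) ^ 2) ∂Pr =
      ∫⁻ ω, ∫⁻ ω', ENNReal.ofReal (((cc ((vc a true).X (t - s) ((vc a true).X s m ω) ω') : ℝ) -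
        cc ((vc a true).X s m ω)) ^ 2) ∂Pr ∂Pr := by
    rw [← (vc a true).lintegral_restart hNE m hs ((vc a true).measurable_Xx s m)
      ((vc a true).past_X s m) hH1]
    refine lintegral_congr_ae ?_
    filter_upwards [hfin] with ω hω
    have := (vc a true).X_restart hs hr m ω hω
    rw [add_sub_cancel] at this
    rw [this]
  have hNs : Measurable fun ω => ((vc a true).N s m ω : ℝ≥0∞) :=
    (measurable_of_countable (fun k : ℕ => (k : ℝ≥0∞))).comp ((vc a true).measurable_Nx s m)
  have e2 : ∫⁻ ω, ((vc a true).N t m ω : ℝ≥0∞) ∂Pr = ∫⁻ ω, ((vc a true).N s m ω : ℝ≥0∞) ∂Pr +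
      ∫⁻ ω, ∫⁻ ω', (((vc a true).N (t - s) ((vc a true).X s m ω) ω' : ℕ) : ℝ≥0∞) ∂Pr ∂Pr := by
    rw [← (vc a true).lintegral_restart hNE m hs ((vc a true).measurable_Xx s m)
      ((vc a true).past_X s m) hH2, ← lintegral_add_left hNs]
    refine lintegral_congr_ae ?_
    filter_upwards [hfin] with ω hω
    have := (vc a true).N_restart hs hr m ω hω
    rw [add_sub_cancel] at this
    rw [this]
    push_cast
    rfl
  have h3 : ∫⁻ ω, ENNReal.ofReal
      (((cc ((vc a true).X t m ω) : ℝ) - cc ((vc a true).X s m ω)) ^ 2) ∂Pr +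
      ∫⁻ ω, ((vc a true).N s m ω : ℝ≥0∞) ∂Pr ≤ ∫⁻ ω, ((vc a true).N t m ω : ℝ≥0∞) ∂Pr := by
    rw [e1, e2, add_comm]
    exact add_le_add le_rfl (lintegral_mono fun ω => rw_lint_sq_le hk hc _ hr)
  rw [rw_lint_N hk m hs, rw_lint_N hk m ht] at h3
  have hfin2 : ∫⁻ ω, ENNReal.ofReal
      (((cc ((vc a true).X t m ω) : ℝ) - cc ((vc a true).X s m ω)) ^ 2) ∂Pr ≠ ∞ :=
    ne_top_of_le_ne_top ENNReal.ofReal_ne_top (le_self_add.trans h3)
  have hint : Integrable (fun ω =>
      ((cc ((vc a true).X t m ω) : ℝ) - cc ((vc a true).X s m ω)) ^ 2) Pr := by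
    refine ⟨(((rw_measurable_X t m).sub (rw_measurable_X s m)).pow_const 2).aestronglyMeasurable,
      ?_⟩
    rw [hasFiniteIntegral_iff_ofReal (Eventually.of_forall fun ω => sq_nonneg _)]
    exact lt_top_iff_ne_top.2 hfin2
  rw [← ofReal_integral_eq_lintegral_ofReal hint (Eventually.of_forall fun ω => sq_nonneg _),
    ← ENNReal.ofReal_add (integral_nonneg fun ω => sq_nonneg _)
      (integral_nonneg fun ω => Nat.cast_nonneg _)] at h3
  have h4 := (ENNReal.ofReal_le_ofReal_iff (integral_nonneg fun ω => Nat.cast_nonneg _)).1 h3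
  linarith

end H40.VM
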