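import Pool.Agent.H40.Voter.Ctmc
import Pool.Agent.H40.VM.CB

/-!
# Module TRa: change of measure between the biased and the unbiased voter model

The state of a configuration is `mis x`. For a state `m` the flip rate of a site `j` under bias `ε`
is `rt a true m j` times `1` if `j` is a zero and times `1 - ε` if `j` is a one
(`flipRate_cf`), and the total rate is `tot - ε (tot + mn)/2` (`rate_up`). So
`jumpProb a ε (cf true m) (cf true (fl m j)) = lr a ε m (fl m j) * (rt a true m j / tot a true m)`.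
`transfer`: both sides define finite measures on `(ℕ → St) × (ℕ → ℝ)`; they agree on the
π-system of boxes `{y | ∀ k ≤ n, y k = s k} × {e | ∀ k < n, r k < e k}` (`r k ≥ 0`; both sides
give full mass to positive clocks): the left side by `IsVoterChain.law` (with `r n = 0`), the right
side by the first step decomposition (`lintegral_cons'`, `lintegral_Φ`) and induction on `n`.
-/

open MeasureTheory ProbabilityTheory Filter Topology
open scoped ENNReal NNReal unitInterval symmDiff

namespace H40.VM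

open H40.Voter (IsKernel IsVoterChain flipRate totalRate jumpProb heaviside flipAt)

variable {a : ℤ → ℝ}

open Classical in
/-- the set of misplaced sites of a configuration -/
noncomputable def mis (x : ℤ → Bool) : St :=
  if h : {i | x i ≠ bs true i}.Finite then h.toFinset else ∅

lemma mis_cf (m : St) : mis (cf true m) = m := by
  have h : {i | cf true m i ≠ bs true i} = (m : Set ℤ) := by
    ext i
    rw [Set.mem_ofPred_eq, Finset.mem_coe]
    unfold cf
    by_cases hi : i ∈ m
    · simp [hi]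
    · simp [hi]
  unfold mis
  have hfin : {i | cf true m i ≠ bs true i}.Finite := by rw [h]; exact m.finite_toSet
  rw [dif_pos hfin]
  apply Finset.coe_injective
  rw [Set.Finite.coe_toFinset, h]

lemma TRa_cf_inj {m m' : St} (h : cf true m = cf true m') : m = m' := by
  rw [← mis_cf m, ← mis_cf m', h]

lemma cf_empty : cf true ∅ = heaviside := by
  funext i
  simp [cf, bs, heaviside]

lemma flipAt_cf (m : St) (j : ℤ) : flipAt (cf true m) j = cf true (fl m j) := by
  funext i
  unfold flipAt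
  rw [cf_fl]
  by_cases h : i = j
  · subst h
    simp
  · simp [h]

lemma flipRate_cf (hk : IsKernel a) (ε : ℝ) (m : St) (j : ℤ) :
    flipRate a ε (cf true m) j = (if cf true m j then 1 - ε else 1) * rt a true m j := by
  have hsub : ∀ f : ℤ → ℝ, ∑' i : ℤ, f i = ∑' k : ℤ, f (j - k) := fun f =>
    ((Equiv.subLeft j).tsum_eq f).symm
  unfold flipRate rt
  rw [hsub (fun i => if cf true m i = true ∧ cf true m j = false then a (j - i) else 0),
    hsub (fun i => if cf true m i = false ∧ cf true m j = true then a (j - i) else 0)]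
  simp only [sub_sub_cancel]
  by_cases h : cf true m j = true
  · simp only [h, Bool.true_eq_false, and_false, if_false, tsum_zero, zero_add, and_true, if_true]
    congr 1
    apply tsum_congr
    intro k
    by_cases h2 : cf true m (j - k) = true
    · simp [h2]
    · simp [h2]
  · have h' : cf true m j = false := by simpa using h
    simp only [h', Bool.false_eq_true, and_false, if_false, tsum_zero, mul_zero, add_zero,
      and_true, one_mul]
    apply tsum_congr
    intro k
    by_cases h2 : cf true m (j - k) = true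
    · simp [h2]
    · simp [h2]

/-- total rate under bias `ε` -/
noncomputable def qe (a : ℤ → ℝ) (ε : ℝ) (m : St) : ℝ :=
  tot a true m - ε * ((tot a true m + mn a) / 2)

lemma TRa_summable_up (hk : IsKernel a) (m : St) :
    Summable fun j : ℤ => if cf true m j then rt a true m j else 0 := by
  refine Summable.of_nonneg_of_le (fun j => ?_) (fun j => ?_) (summable_rt hk true m)
  · split_ifs
    · exact rt_nonneg hk true m j
    · exact le_rfl
  · split_ifs
    · exact le_rfl
    · exact rt_nonneg hk true m j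

lemma TRa_hasSum_rate (hk : IsKernel a) (ε : ℝ) (m : St) :
    HasSum (fun j : ℤ => (if cf true m j then 1 - ε else 1) * rt a true m j) (qe a ε m) := by
  have h1 := (summable_rt hk true m).hasSum
  have h2 := (TRa_summable_up hk m).hasSum
  rw [rate_up hk m] at h2
  have h3 := h1.sub (h2.mul_left ε)
  refine h3.congr_fun fun j => ?_
  split_ifs <;> ring

lemma totalRate_cf (hk : IsKernel a) (ε : ℝ) (m : St) :
    totalRate a ε (cf true m) = qe a ε m := by
  unfold totalRate
  rw [← (TRa_hasSum_rate hk ε m).tsum_eq]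
  exact tsum_congr fun j => flipRate_cf hk ε m j

/-- `(1 - ε) tot ≤ qe ≤ tot` -/
lemma qe_bounds (hk : IsKernel a) {ε : ℝ} (h0 : 0 ≤ ε) (m : St) :
    (1 - ε) * tot a true m ≤ qe a ε m ∧ qe a ε m ≤ tot a true m := by
  have h1 : 0 ≤ (tot a true m + mn a) / 2 := by
    rw [← rate_up hk m]
    refine tsum_nonneg fun j => ?_
    split_ifs
    · exact rt_nonneg hk true m j
    · exact le_rfl
  have h2 : (tot a true m + mn a) / 2 ≤ tot a true m := by
    rw [← rate_up hk m]
    refine (TRa_summable_up hk m).tsum_le_tsum (fun j => ?_) (summable_rt hk true m)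
    split_ifs
    · exact le_rfl
    · exact rt_nonneg hk true m j
  unfold qe
  constructor
  · nlinarith
  · nlinarith [mul_nonneg h0 h1]

/-- likelihood ratio of one jump -/
noncomputable def lr (a : ℤ → ℝ) (ε : ℝ) (m m' : St) : ℝ :=
  (if cc m' < cc m then 1 else 1 - ε) * tot a true m / qe a ε m

/-- likelihood ratio of the first `n` jumps -/
noncomputable def LRn (a : ℤ → ℝ) (ε : ℝ) (n : ℕ) (ω : Om) : ℝ :=
  ∏ k ∈ Finset.range n, lr a ε ((vc a true).Y k ∅ ω) ((vc a true).Y (k + 1) ∅ ω)

/-- states up to index `n` -/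
def trS (n : ℕ) (y : ℕ → St) : ℕ → St := fun k => y (min k n)

/-- clocks of index `< n` -/
noncomputable def trE (n : ℕ) (e : ℕ → ℝ) : ℕ → ℝ := fun k => if k < n then e k else 0

/-- the first `n` jumps of the unbiased chain -/
noncomputable def can (a : ℤ → ℝ) (n : ℕ) (ω : Om) : (ℕ → St) × (ℕ → ℝ) :=
  (trS n fun k => (vc a true).Y k ∅ ω, trE n fun k => ((ω k).2 : ℝ))

variable {Ω : Type*} [MeasurableSpace Ω] {P : Measure Ω} {ε : ℝ} {Z : ℕ → Ω → ℤ → Bool}
  {ξ : ℕ → Ω → ℝ}

/-- the first `n` jumps of an abstract chain -/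
noncomputable def abs' (Z : ℕ → Ω → ℤ → Bool) (ξ : ℕ → Ω → ℝ) (n : ℕ) (ω : Ω) :
    (ℕ → St) × (ℕ → ℝ) :=
  (trS n fun k => mis (Z k ω), trE n fun k => ξ k ω)

/-! ### one jump -/

lemma TRa_qe_pos (hk : IsKernel a) (h0 : 0 ≤ ε) (h1 : ε < 1) (m : St) : 0 < qe a ε m :=
  lt_of_lt_of_le (mul_pos (by linarith) (tot_true_pos hk m)) (qe_bounds hk h0 m).1

lemma TRa_lr_nonneg (hk : IsKernel a) (h0 : 0 ≤ ε) (h1 : ε < 1) (m m' : St) :
    0 ≤ lr a ε m m' := by
  unfold lr
  refine div_nonneg (mul_nonneg ?_ (tot_nonneg hk true m)) (TRa_qe_pos hk h0 h1 m).le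
  split_ifs
  · exact zero_le_one
  · linarith

open Classical in
/-- transition probability of the unbiased jump chain -/
noncomputable def TRa_p (a : ℤ → ℝ) (m m' : St) : ℝ :=
  ∑' j : ℤ, if m' = fl m j then rt a true m j / tot a true m else 0

lemma TRa_p_fl (a : ℤ → ℝ) (m : St) (j : ℤ) :
    TRa_p a m (fl m j) = rt a true m j / tot a true m := by
  classical
  unfold TRa_p
  rw [tsum_eq_single j]
  · rw [if_pos rfl]
  · intro i hi
    rw [if_neg]
    intro h
    exact hi (fl_injective m h).symm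

lemma TRa_p_zero (a : ℤ → ℝ) {m m' : St} (h : ∀ j, m' ≠ fl m j) : TRa_p a m m' = 0 := by
  classical
  unfold TRa_p
  rw [tsum_congr (g := fun _ => (0 : ℝ)) (fun j => if_neg (h j)), tsum_zero]

lemma TRa_p_nonneg (hk : IsKernel a) (m m' : St) : 0 ≤ TRa_p a m m' := by
  classical
  refine tsum_nonneg fun j => ?_
  split_ifs
  · exact div_nonneg (rt_nonneg hk true m j) (tot_nonneg hk true m)
  · exact le_rfl

lemma TRa_lr_fl (a : ℤ → ℝ) (ε : ℝ) (m : St) (j : ℤ) :
    lr a ε m (fl m j) = (if cf true m j then 1 - ε else 1) * tot a true m / qe a ε m := by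
  unfold lr
  rw [cc_fl]
  by_cases h : cf true m j = true
  · simp [h]
  · simp [h]

lemma TRa_jump (hk : IsKernel a) (m m' : St) :
    jumpProb a ε (cf true m) (cf true m') = lr a ε m m' * TRa_p a m m' := by
  classical
  have ht := tot_true_pos hk m
  have e1 : jumpProb a ε (cf true m) (cf true m') = ∑' j : ℤ, if m' = fl m j then
      (if cf true m j then 1 - ε else 1) * rt a true m j / qe a ε m else 0 := by
    unfold jumpProb
    apply tsum_congr
    intro j
    rw [flipAt_cf, flipRate_cf hk, totalRate_cf hk]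
    by_cases h : m' = fl m j
    · rw [if_pos (by rw [h]), if_pos h]
    · rw [if_neg (fun h' => h (TRa_cf_inj h')), if_neg h]
  rw [e1]
  by_cases h : ∃ j, m' = fl m j
  · obtain ⟨j, rfl⟩ := h
    rw [TRa_p_fl, TRa_lr_fl, tsum_eq_single j]
    · rw [if_pos rfl]
      field_simp
    · intro i hi
      rw [if_neg]
      intro h
      exact hi (fl_injective m h).symm
  · push Not at h
    rw [TRa_p_zero a h, mul_zero, tsum_congr (g := fun _ => (0 : ℝ)) (fun j => if_neg (h j)),
      tsum_zero]

lemma TRa_lint_p (hk : IsKernel a) (m m' : St) (c : ℝ≥0∞) :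
    ∫⁻ u, (if m' = (vc a true).Φ m u then c else 0) = ENNReal.ofReal (TRa_p a m m') * c := by
  have h1 := lintegral_Φ hk (tot_true_pos hk m) (fun x => if m' = x then c else 0)
  rw [h1]
  by_cases h : ∃ j, m' = fl m j
  · obtain ⟨j, rfl⟩ := h
    rw [TRa_p_fl, tsum_eq_single j]
    · rw [if_pos rfl]
    · intro i hi
      rw [if_neg, mul_zero]
      intro h
      exact hi (fl_injective m h).symm
  · push Not at h
    rw [TRa_p_zero a h, ENNReal.ofReal_zero, zero_mul, ENNReal.tsum_eq_zero]
    intro j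
    rw [if_neg (h j), mul_zero]

lemma TRa_lint_lr (hk : IsKernel a) (h0 : 0 ≤ ε) (h1 : ε < 1) (m : St) :
    ∫⁻ u, ENNReal.ofReal (lr a ε m ((vc a true).Φ m u)) = 1 := by
  have ht := tot_true_pos hk m
  have hq := TRa_qe_pos hk h0 h1 m
  rw [lintegral_Φ hk ht (fun x => ENNReal.ofReal (lr a ε m x))]
  have h2 : HasSum (fun j : ℤ => (if cf true m j then 1 - ε else 1) * rt a true m j / qe a ε m)
      (qe a ε m / qe a ε m) := (TRa_hasSum_rate hk ε m).div_const _
  rw [div_self hq.ne'] at h2
  have h3 : ∀ j : ℤ, ENNReal.ofReal (rt a true m j / tot a true m) *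
      ENNReal.ofReal (lr a ε m (fl m j)) =
      ENNReal.ofReal ((if cf true m j then 1 - ε else 1) * rt a true m j / qe a ε m) := by
    intro j
    rw [← ENNReal.ofReal_mul (div_nonneg (rt_nonneg hk true m j) ht.le), TRa_lr_fl]
    congr 1
    field_simp
  rw [tsum_congr h3, ← ENNReal.ofReal_tsum_of_nonneg _ h2.summable, h2.tsum_eq,
    ENNReal.ofReal_one]
  intro j
  refine div_nonneg (mul_nonneg ?_ (rt_nonneg hk true m j)) hq.le
  split_ifs
  · linarith
  · exact zero_le_one

/-! ### many jumps of the canonical chain -/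

lemma TRa_Y_cons (a : ℤ → ℝ) (n : ℕ) (x : St) (u : unitInterval) (e : ℝ≥0) (ω : Om) :
    (vc a true).Y (n + 1) x (cons (u, e) ω) = (vc a true).Y n ((vc a true).Φ x u) ω := rfl

/-- likelihood ratio, general start -/
noncomputable def TRa_L (a : ℤ → ℝ) (ε : ℝ) (n : ℕ) (x : St) (ω : Om) : ℝ :=
  ∏ k ∈ Finset.range n, lr a ε ((vc a true).Y k x ω) ((vc a true).Y (k + 1) x ω)

lemma TRa_measurable_two {E : Type} [MeasurableSpace E] [Countable E]
    [DiscreteMeasurableSpace E] (C : Chain E) (g : E → E → ℝ) (k : ℕ) (x : E) :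
    Measurable fun ω => g (C.Y k x ω) (C.Y (k + 1) x ω) := by
  have h : Measurable fun p : E × E => g p.1 p.2 := measurable_of_countable _
  exact h.comp ((C.measurable_Yx k x).prodMk (C.measurable_Yx (k + 1) x))

lemma TRa_measurable_L (a : ℤ → ℝ) (ε : ℝ) (n : ℕ) (x : St) : Measurable (TRa_L a ε n x) :=
  Finset.measurable_prod _ fun k _ => TRa_measurable_two (vc a true) (lr a ε) k x

lemma TRa_L_nonneg (hk : IsKernel a) (h0 : 0 ≤ ε) (h1 : ε < 1) (n : ℕ) (x : St) (ω : Om) :
    0 ≤ TRa_L a ε n x ω := Finset.prod_nonneg fun k _ => TRa_lr_nonneg hk h0 h1 _ _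

lemma TRa_L_cons (a : ℤ → ℝ) (ε : ℝ) (n : ℕ) (x : St) (u : unitInterval) (e : ℝ≥0) (ω : Om) :
    TRa_L a ε (n + 1) x (cons (u, e) ω) =
      lr a ε x ((vc a true).Φ x u) * TRa_L a ε n ((vc a true).Φ x u) ω := by
  unfold TRa_L
  rw [Finset.prod_range_succ', mul_comm]
  rfl

lemma TRa_mass (hk : IsKernel a) (h0 : 0 ≤ ε) (h1 : ε < 1) (n : ℕ) (x : St) :
    ∫⁻ ω, ENNReal.ofReal (TRa_L a ε n x ω) ∂Pr = 1 := by
  induction n generalizing x with
  | zero => simp [TRa_L]
  | succ n ih =>
    rw [lintegral_cons' (TRa_measurable_L a ε (n + 1) x).ennreal_ofReal]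
    have e1 : ∀ (e : ℝ≥0) (u : unitInterval),
        ∫⁻ ω, ENNReal.ofReal (TRa_L a ε (n + 1) x (cons (u, e) ω)) ∂Pr =
        ENNReal.ofReal (lr a ε x ((vc a true).Φ x u)) := by
      intro e u
      have e2 : ∀ ω, ENNReal.ofReal (TRa_L a ε (n + 1) x (cons (u, e) ω)) =
          ENNReal.ofReal (lr a ε x ((vc a true).Φ x u)) *
            ENNReal.ofReal (TRa_L a ε n ((vc a true).Φ x u) ω) := by
        intro ω
        rw [TRa_L_cons, ENNReal.ofReal_mul (TRa_lr_nonneg hk h0 h1 _ _)]
      rw [lintegral_congr e2, lintegral_const_mul _ (TRa_measurable_L a ε n _).ennreal_ofReal, ih,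
        mul_one]
    simp only [e1, TRa_lint_lr hk h0 h1, lintegral_const, measure_univ, mul_one]

/-- the box of histories -/
def TRa_box (a : ℤ → ℝ) (n : ℕ) (x : St) (s : ℕ → St) (r : ℕ → ℝ) : Set Om :=
  {ω | (∀ k ≤ n, (vc a true).Y k x ω = s k) ∧ ∀ k < n, r k < ((ω k).2 : ℝ)}

lemma TRa_measurableSet_box (a : ℤ → ℝ) (n : ℕ) (x : St) (s : ℕ → St) (r : ℕ → ℝ) :
    MeasurableSet (TRa_box a n x s r) := by
  have h1 : TRa_box a n x s r = (⋂ k ∈ Set.Iic n, {ω | (vc a true).Y k x ω = s k}) ∩
      ⋂ k ∈ Set.Iio n, {ω : Om | r k < ((ω k).2 : ℝ)} := by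
    ext ω
    simp [TRa_box]
  rw [h1]
  refine MeasurableSet.inter ?_ ?_
  · refine MeasurableSet.biInter (Set.to_countable _) fun k _ => ?_
    exact (vc a true).measurable_Yx k x (measurableSet_singleton (s k))
  · refine MeasurableSet.biInter (Set.to_countable _) fun k _ => ?_
    exact measurableSet_lt measurable_const
      (measurable_coe_nnreal_real.comp (measurable_snd.comp (measurable_pi_apply k)))

open Classical in
lemma TRa_Pr_box (hk : IsKernel a) (n : ℕ) (x : St) (s : ℕ → St) (r : ℕ → ℝ)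
    (hr : ∀ k, 0 ≤ r k) :
    Pr (TRa_box a n x s r) = if s 0 = x then ∏ k ∈ Finset.range n,
      (ENNReal.ofReal (TRa_p a (s k) (s (k + 1))) * ENNReal.ofReal (Real.exp (-(r k)))) else 0 := by
  induction n generalizing x s r with
  | zero =>
    by_cases h : s 0 = x
    · have : TRa_box a 0 x s r = Set.univ := by
        ext ω
        simp [TRa_box, h]
      rw [this, if_pos h]
      simp
    · have : TRa_box a 0 x s r = ∅ := by
        ext ω
        simp [TRa_box, Ne.symm h]
      rw [this, if_neg h, measure_empty]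
  | succ n ih =>
    by_cases h : s 0 = x
    swap
    · have : TRa_box a (n + 1) x s r = ∅ := by
        ext ω
        simp only [TRa_box, Set.mem_ofPred_eq, Set.mem_empty_iff_false, iff_false, not_and]
        intro h1
        exact absurd (h1 0 (Nat.zero_le _)).symm h
      rw [this, if_neg h, measure_empty]
    rw [if_pos h, ← lintegral_indicator_one (TRa_measurableSet_box a (n + 1) x s r),
      lintegral_cons' (measurable_one.indicator (TRa_measurableSet_box a (n + 1) x s r))]
    have hcons : ∀ (e : ℝ≥0) (u : unitInterval) (ω : Om),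
        cons (u, e) ω ∈ TRa_box a (n + 1) x s r ↔
        (r 0 < (e : ℝ) ∧ ω ∈ TRa_box a n ((vc a true).Φ x u) (fun k => s (k + 1))
          (fun k => r (k + 1))) := by
      intro e u ω
      simp only [TRa_box, Set.mem_ofPred_eq]
      constructor
      · rintro ⟨h1, h2⟩
        refine ⟨h2 0 (Nat.succ_pos _), fun k hk => ?_, fun k hk => ?_⟩
        · exact h1 (k + 1) (by omega)
        · exact h2 (k + 1) (by omega)
      · rintro ⟨h1, h2, h3⟩
        refine ⟨fun k hk => ?_, fun k hk => ?_⟩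
        · cases k with
          | zero => exact h.symm
          | succ k => exact h2 k (by omega)
        · cases k with
          | zero => exact h1
          | succ k => exact h3 k (by omega)
    obtain ⟨c, hc⟩ : ∃ c : ℝ≥0∞, c = ∏ k ∈ Finset.range n,
      (ENNReal.ofReal (TRa_p a (s (k + 1)) (s (k + 1 + 1))) *
        ENNReal.ofReal (Real.exp (-(r (k + 1))))) := ⟨_, rfl⟩
    have e1 : ∀ (e : ℝ≥0) (u : unitInterval),
        ∫⁻ ω, (TRa_box a (n + 1) x s r).indicator 1 (cons (u, e) ω) ∂Pr =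
        if r 0 < (e : ℝ) / 1 then (if s 1 = (vc a true).Φ x u then c else 0) else 0 := by
      intro e u
      rw [div_one]
      by_cases h1 : r 0 < (e : ℝ)
      · rw [if_pos h1]
        have e2 : ∀ ω, (TRa_box a (n + 1) x s r).indicator (1 : Om → ℝ≥0∞) (cons (u, e) ω) =
            (TRa_box a n ((vc a true).Φ x u) (fun k => s (k + 1))
              (fun k => r (k + 1))).indicator 1 ω := by
          intro ω
          by_cases h2 : ω ∈ TRa_box a n ((vc a true).Φ x u) (fun k => s (k + 1))
              (fun k => r (k + 1))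
          · rw [Set.indicator_of_mem h2, Set.indicator_of_mem ((hcons e u ω).2 ⟨h1, h2⟩)]
            rfl
          · rw [Set.indicator_of_notMem h2,
              Set.indicator_of_notMem (fun h3 => h2 ((hcons e u ω).1 h3).2)]
        rw [lintegral_congr e2, lintegral_indicator_one (TRa_measurableSet_box a n _ _ _),
          ih _ _ _ (fun k => hr (k + 1)), hc]
      · rw [if_neg h1]
        have e2 : ∀ ω, (TRa_box a (n + 1) x s r).indicator (1 : Om → ℝ≥0∞) (cons (u, e) ω) = 0 :=
          fun ω => Set.indicator_of_notMem (fun h3 => h1 ((hcons e u ω).1 h3).1) _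
        rw [lintegral_congr e2, lintegral_zero]
    simp only [e1]
    have e3 : ∀ e : ℝ≥0, ∫⁻ u : unitInterval,
        (if r 0 < (e : ℝ) / 1 then (if s 1 = (vc a true).Φ x u then c else 0) else 0) =
        if r 0 < (e : ℝ) / 1 then ENNReal.ofReal (TRa_p a x (s 1)) * c else 0 := by
      intro e
      by_cases h1 : r 0 < (e : ℝ) / 1
      · simp only [if_pos h1]
        exact TRa_lint_p hk x (s 1) c
      · simp only [if_neg h1, lintegral_zero]
    simp only [e3]
    rw [lint_gt one_pos (hr 0), Finset.prod_range_succ', hc, one_mul, h]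
    ring

/-! ### clocks are positive -/

lemma TRa_expL_pos : ∀ᵐ e ∂expL, 0 < e := by
  have h1 := lint_gt (q := 1) (t := 0) one_pos le_rfl 1
  simp only [mul_zero, neg_zero, Real.exp_zero, ENNReal.ofReal_one, mul_one, div_one] at h1
  have hms : MeasurableSet {e : ℝ≥0 | 0 < e} := measurableSet_lt measurable_const measurable_id
  have h2 : expL {e : ℝ≥0 | 0 < e} = 1 := by
    rw [← lintegral_indicator_one hms, ← h1]
    refine lintegral_congr fun e => ?_
    by_cases h : 0 < e
    · have h' : (0 : ℝ) < e := by exact_mod_cast h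
      rw [if_pos h', Set.indicator_of_mem (by exact h)]
      rfl
    · have h' : ¬ (0 : ℝ) < e := by
        intro h''
        exact h (by exact_mod_cast h'')
      rw [if_neg h', Set.indicator_of_notMem (by exact h)]
  exact (prob_compl_eq_zero_iff (μ := expL) hms).2 h2

lemma TRa_clock_pos : ∀ᵐ ω ∂Pr, ∀ k : ℕ, 0 < ((ω k).2 : ℝ) := by
  rw [ae_all_iff]
  intro k
  have h1 : ∀ᵐ e ∂stp, 0 < e.2 := by
    unfold stp
    have := (measurePreserving_snd (μ := (volume : Measure unitInterval)) (ν := expL))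
    exact this.quasiMeasurePreserving.ae TRa_expL_pos
  have h2 : MeasurePreserving (fun ω : Om => ω k) Pr stp :=
    measurePreserving_eval_infinitePi (fun _ => stp) k
  filter_upwards [h2.quasiMeasurePreserving.ae h1] with ω hω
  exact_mod_cast hω

lemma TRa_L_box (a : ℤ → ℝ) (ε : ℝ) (n : ℕ) (s : ℕ → St) (r : ℕ → ℝ) {ω : Om}
    (hω : ω ∈ TRa_box a n ∅ s r) :
    TRa_L a ε n ∅ ω = ∏ k ∈ Finset.range n, lr a ε (s k) (s (k + 1)) := by
  refine Finset.prod_congr rfl fun k hk => ?_
  rw [Finset.mem_range] at hk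
  rw [hω.1 k (by omega), hω.1 (k + 1) (by omega)]

/-- the law of the abstract chain on boxes -/
lemma TRa_law (hk : IsKernel a) (h0 : 0 ≤ ε) (h1 : ε < 1)
    (hZ : IsVoterChain P a ε Z ξ) (n : ℕ) (s : ℕ → St) (r : ℕ → ℝ) (hr : ∀ k, 0 ≤ r k)
    (hrn : r n = 0) :
    P {ω | ∀ k ≤ n, Z k ω = cf true (s k) ∧ r k < ξ k ω} =
      ∫⁻ ω in TRa_box a n ∅ s r, ENNReal.ofReal (TRa_L a ε n ∅ ω) ∂Pr := by
  classical
  have hm := TRa_measurableSet_box a n ∅ s r
  have e1 : ∫⁻ ω in TRa_box a n ∅ s r, ENNReal.ofReal (TRa_L a ε n ∅ ω) ∂Pr =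
      ENNReal.ofReal (∏ k ∈ Finset.range n, lr a ε (s k) (s (k + 1))) *
        Pr (TRa_box a n ∅ s r) := by
    rw [← setLIntegral_const]
    refine setLIntegral_congr_fun hm fun ω hω => ?_
    simp only [TRa_L_box a ε n s r hω]
  rw [e1, TRa_Pr_box hk n ∅ s r hr, hZ.law n (fun k => cf true (s k)) r hr]
  by_cases h : s 0 = ∅
  · rw [if_pos h, if_pos (by rw [h, cf_empty]), one_mul, Finset.prod_range_succ, hrn, neg_zero,
      Real.exp_zero, mul_one]
    have e2 : ∀ k ∈ Finset.range n, jumpProb a ε (cf true (s k)) (cf true (s (k + 1))) =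
        lr a ε (s k) (s (k + 1)) * TRa_p a (s k) (s (k + 1)) := fun k _ => TRa_jump hk _ _
    rw [Finset.prod_congr rfl e2, Finset.prod_mul_distrib, Finset.prod_mul_distrib,
      ← ENNReal.ofReal_prod_of_nonneg (fun k _ => TRa_p_nonneg hk _ _),
      ← ENNReal.ofReal_prod_of_nonneg (fun k _ => (Real.exp_pos _).le),
      ENNReal.ofReal_mul (mul_nonneg (Finset.prod_nonneg fun k _ => TRa_lr_nonneg hk h0 h1 _ _)
        (Finset.prod_nonneg fun k _ => TRa_p_nonneg hk _ _)),
      ENNReal.ofReal_mul (Finset.prod_nonneg fun k _ => TRa_lr_nonneg hk h0 h1 _ _), mul_assoc]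
  · rw [if_neg h, if_neg (by
      rw [← cf_empty]
      exact fun h' => h (TRa_cf_inj h')), zero_mul, zero_mul, ENNReal.ofReal_zero, mul_zero]

/-! ### finite histories -/

/-- extension of a finite history -/
def TRa_ext (n : ℕ) (s : Fin (n + 1) → St) : ℕ → St := fun k => s ⟨min k n, by omega⟩

lemma TRa_ext_apply (n : ℕ) (s : Fin (n + 1) → St) (k : Fin (n + 1)) :
    TRa_ext n s k = s k := by
  unfold TRa_ext
  congr 1
  apply Fin.ext
  have := k.2
  simp only
  omega

lemma TRa_ext_inj {n : ℕ} {s s' : Fin (n + 1) → St} (h : ∀ k ≤ n, TRa_ext n s k = TRa_ext n s' k) :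
    s = s' := by
  funext k
  rw [← TRa_ext_apply n s k, ← TRa_ext_apply n s' k]
  exact h k (by have := k.2; omega)

lemma TRa_measurableSet_A (hZ : IsVoterChain P a ε Z ξ) (n : ℕ) (s : ℕ → St) (r : ℕ → ℝ) :
    MeasurableSet {ω | ∀ k ≤ n, Z k ω = cf true (s k) ∧ r k < ξ k ω} := by
  have h1 : {ω | ∀ k ≤ n, Z k ω = cf true (s k) ∧ r k < ξ k ω} =
      ⋂ k ∈ Set.Iic n, ({ω | Z k ω = cf true (s k)} ∩ {ω | r k < ξ k ω}) := by
    ext ω
    simp
  rw [h1]
  refine MeasurableSet.biInter (Set.to_countable _) fun k _ => MeasurableSet.inter ?_ ?_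
  · exact hZ.measurable_Z k (measurableSet_singleton _)
  · exact measurableSet_lt measurable_const (hZ.measurable_ξ k)

theorem TRa_total (hk : IsKernel a) (h0 : 0 ≤ ε) (h1 : ε < 1)
    (hZ : IsVoterChain P a ε Z ξ) (n : ℕ) :
    P (⋃ s : Fin (n + 1) → St, {ω | ∀ k ≤ n, Z k ω = cf true (TRa_ext n s k) ∧ 0 < ξ k ω}) = 1 := by
  rw [measure_iUnion]
  · have e1 : ∀ s : Fin (n + 1) → St,
        P {ω | ∀ k ≤ n, Z k ω = cf true (TRa_ext n s k) ∧ 0 < ξ k ω} =
        ∫⁻ ω in TRa_box a n ∅ (TRa_ext n s) (fun _ => 0), ENNReal.ofReal (TRa_L a ε n ∅ ω) ∂Pr :=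
      fun s => TRa_law hk h0 h1 hZ n (TRa_ext n s) (fun _ => 0) (fun _ => le_rfl) rfl
    rw [tsum_congr e1, ← lintegral_iUnion, ← TRa_mass hk h0 h1 n ∅]
    · refine Eq.trans ?_ (setLIntegral_univ _)
      refine setLIntegral_congr ?_
      rw [eventuallyEq_set]
      filter_upwards [TRa_clock_pos] with ω hω
      simp only [Set.mem_univ, iff_true, Set.mem_iUnion]
      refine ⟨fun k => (vc a true).Y k ∅ ω, fun k hk => ?_, fun k _ => hω k⟩
      exact (TRa_ext_apply n (fun k : Fin (n + 1) => (vc a true).Y k ∅ ω) ⟨k, by omega⟩).symm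
    · exact fun s => TRa_measurableSet_box _ _ _ _ _
    · intro s s' hs
      rw [Function.onFun, Set.disjoint_left]
      rintro ω ⟨h2, -⟩ ⟨h3, -⟩
      exact hs (TRa_ext_inj fun k hk => by rw [← h2 k hk, ← h3 k hk])
  · intro s s' hs
    rw [Function.onFun, Set.disjoint_left]
    intro ω h2 h3
    exact hs (TRa_ext_inj fun k hk => TRa_cf_inj (by rw [← (h2 k hk).1, ← (h3 k hk).1]))
  · exact fun s => TRa_measurableSet_A hZ n _ _

theorem ae_class (hk : IsKernel a) [IsProbabilityMeasure P] (h0 : 0 ≤ ε) (h1 : ε < 1)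
    (hZ : IsVoterChain P a ε Z ξ) :
    ∀ᵐ ω ∂P, ∀ k, Z k ω = cf true (mis (Z k ω)) ∧ 0 < ξ k ω := by
  rw [ae_all_iff]
  intro n
  have h2 := TRa_total hk h0 h1 hZ n
  have hm : MeasurableSet (⋃ s : Fin (n + 1) → St,
      {ω | ∀ k ≤ n, Z k ω = cf true (TRa_ext n s k) ∧ 0 < ξ k ω}) :=
    MeasurableSet.iUnion fun s => TRa_measurableSet_A hZ n _ _
  have h3 := (prob_compl_eq_zero_iff hm).2 h2
  have h4 : ∀ᵐ ω ∂P, ω ∈ (⋃ s : Fin (n + 1) → St,
      {ω | ∀ k ≤ n, Z k ω = cf true (TRa_ext n s k) ∧ 0 < ξ k ω}) := h3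
  filter_upwards [h4] with ω hω
  rw [Set.mem_iUnion] at hω
  obtain ⟨s, hs⟩ := hω
  have h5 := hs n le_rfl
  refine ⟨?_, h5.2⟩
  rw [h5.1, mis_cf]

theorem ae_zero (hk : IsKernel a) [IsProbabilityMeasure P] (h0 : 0 ≤ ε) (h1 : ε < 1)
    (hZ : IsVoterChain P a ε Z ξ) : ∀ᵐ ω ∂P, mis (Z 0 ω) = ∅ := by
  have h2 := hZ.law 0 (fun _ => heaviside) (fun _ => 0) (fun _ => le_rfl)
  simp only [if_true, Finset.range_zero, Finset.prod_empty, mul_one, zero_add,
    Finset.range_one, Finset.prod_singleton, neg_zero, Real.exp_zero, ENNReal.ofReal_one] at h2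
  have h3 : {ω | ∀ k ≤ 0, Z k ω = heaviside ∧ 0 < ξ k ω} =
      {ω | ∀ k ≤ 0, Z k ω = cf true ((fun _ : ℕ => (∅ : St)) k) ∧ (fun _ : ℕ => (0 : ℝ)) k < ξ k ω} := by
    ext ω
    simp only [Set.mem_ofPred_eq, cf_empty]
  have hm : MeasurableSet {ω | ∀ k ≤ 0, Z k ω = heaviside ∧ 0 < ξ k ω} := by
    rw [h3]
    exact TRa_measurableSet_A hZ 0 (fun _ => ∅) (fun _ => 0)
  have h4 := (prob_compl_eq_zero_iff hm).2 h2
  have h5 : ∀ᵐ ω ∂P, ω ∈ {ω | ∀ k ≤ 0, Z k ω = heaviside ∧ 0 < ξ k ω} := h4
  filter_upwards [h5] with ω hω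
  rw [(hω 0 le_rfl).1, ← cf_empty, mis_cf]

/-! ### measurability -/

lemma measurable_can (n : ℕ) : Measurable (can a n) := by
  refine Measurable.prodMk ?_ ?_
  · exact measurable_pi_iff.2 fun k => (vc a true).measurable_Yx (min k n) ∅
  · refine measurable_pi_iff.2 fun k => ?_
    unfold trE
    by_cases h : k < n
    · simp only [h, if_true]
      exact measurable_coe_nnreal_real.comp (measurable_snd.comp (measurable_pi_apply k))
    · simp only [h, if_false]
      exact measurable_const

lemma TRa_mis_eq {x : ℤ → Bool} {m : St} (h : mis x = m) (hm : m ≠ ∅) : x = cf true m := by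
  unfold mis at h
  by_cases hfin : {i | x i ≠ bs true i}.Finite
  · rw [dif_pos hfin] at h
    funext i
    have h1 : i ∈ m ↔ x i ≠ bs true i := by
      rw [← h, Set.Finite.mem_toFinset]; rfl
    unfold cf
    by_cases hi : i ∈ m
    · have := h1.1 hi
      revert this
      simp only [hi, decide_true]
      cases x i <;> cases bs true i <;> simp
    · have : x i = bs true i := by
        by_contra hc
        exact hi (h1.2 hc)
      simp [hi, this]
  · rw [dif_neg hfin] at h
    exact absurd h.symm hm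

lemma measurable_mis : Measurable mis := by
  have key : ∀ m : St, m ≠ ∅ → mis ⁻¹' {m} = {cf true m} := by
    intro m hm
    ext x
    simp only [Set.mem_preimage, Set.mem_singleton_iff]
    exact ⟨fun h => TRa_mis_eq h hm, fun h => by rw [h, mis_cf]⟩
  refine measurable_to_countable' fun m => ?_
  by_cases hm : m = ∅
  · have e : mis ⁻¹' {m} = (⋃ m' ∈ {m' : St | m' ≠ ∅}, mis ⁻¹' {m'})ᶜ := by
      ext x
      simp only [Set.mem_preimage, Set.mem_singleton_iff, Set.mem_compl_iff, Set.mem_iUnion,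
        Set.mem_ofPred_eq, not_exists]
      constructor
      · rintro h m' hm' h2
        exact hm' (by rw [← h2, h, hm])
      · intro h
        by_contra hc
        exact h (mis x) (by rw [hm] at hc; exact hc) rfl
    rw [e]
    refine MeasurableSet.compl (MeasurableSet.biUnion (Set.to_countable _) fun m' hm' => ?_)
    rw [key m' hm']
    exact measurableSet_singleton _
  · rw [key m hm]
    exact measurableSet_singleton _

lemma measurable_abs' (hZ : IsVoterChain P a ε Z ξ) (n : ℕ) : Measurable (abs' Z ξ n) := by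
  refine Measurable.prodMk ?_ ?_
  · exact measurable_pi_iff.2 fun k => measurable_mis.comp (hZ.measurable_Z (min k n))
  · refine measurable_pi_iff.2 fun k => ?_
    unfold trE
    by_cases h : k < n
    · simp only [h, if_true]
      exact hZ.measurable_ξ k
    · simp only [h, if_false]
      exact measurable_const

/-! ### the transfer -/

/-- the space of finite histories -/
abbrev TRa_X (n : ℕ) : Type := (Fin (n + 1) → St) × (Fin n → ℝ)

/-- the generating system -/
def TRa_C (n : ℕ) : Set (Set (TRa_X n)) :=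
  Set.image2 (· ×ˢ ·) (Set.range fun s : Fin (n + 1) → St => ({s} : Set (Fin (n + 1) → St)))
    (Set.pi Set.univ '' Set.pi Set.univ (fun _ : Fin n => Set.range (Set.Ioi : ℝ → Set ℝ)))

lemma TRa_C_gen (n : ℕ) :
    (inferInstance : MeasurableSpace (TRa_X n)) = MeasurableSpace.generateFrom (TRa_C n) := by
  symm
  apply generateFrom_eq_prod
  · apply le_antisymm
    · refine MeasurableSpace.generateFrom_le ?_
      rintro _ ⟨s, rfl⟩
      exact measurableSet_singleton s
    · intro t _
      rw [← Set.biUnion_of_singleton t]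
      exact MeasurableSet.biUnion t.to_countable fun s _ =>
        MeasurableSpace.measurableSet_generateFrom ⟨s, rfl⟩
  · apply generateFrom_eq_pi
    · intro _
      rw [← borel_eq_generateFrom_Ioi]
      exact (BorelSpace.measurable_eq).symm
    · intro _
      refine ⟨fun k : ℕ => Set.Ioi (-(k : ℝ)), fun k => ⟨_, rfl⟩, ?_⟩
      rw [Set.eq_univ_iff_forall]
      intro x
      obtain ⟨k, hk⟩ := exists_nat_gt (-x)
      exact Set.mem_iUnion.2 ⟨k, by rw [Set.mem_Ioi]; linarith⟩
  · obtain ⟨f, hf⟩ := exists_surjective_nat (Fin (n + 1) → St)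
    refine ⟨fun k => {f k}, fun k => ⟨f k, rfl⟩, ?_⟩
    rw [Set.eq_univ_iff_forall]
    intro x
    obtain ⟨k, hk⟩ := hf x
    exact Set.mem_iUnion.2 ⟨k, by rw [hk]; rfl⟩
  · apply IsCountablySpanning.pi
    intro _
    refine ⟨fun k : ℕ => Set.Ioi (-(k : ℝ)), fun k => ⟨_, rfl⟩, ?_⟩
    rw [Set.eq_univ_iff_forall]
    intro x
    obtain ⟨k, hk⟩ := exists_nat_gt (-x)
    exact Set.mem_iUnion.2 ⟨k, by rw [Set.mem_Ioi]; linarith⟩

lemma TRa_C_pi (n : ℕ) : IsPiSystem (TRa_C n) := by
  apply IsPiSystem.prod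
  · rintro _ ⟨s, rfl⟩ _ ⟨s', rfl⟩ ⟨x, hx1, hx2⟩
    rw [Set.mem_singleton_iff] at hx1 hx2
    refine ⟨s, ?_⟩
    simp only
    rw [← hx1, ← hx2, Set.inter_self]
  · exact IsPiSystem.pi fun _ => isPiSystem_Ioi

/-- the level of the box with nonnegative clocks -/
noncomputable def TRa_rp (n : ℕ) (r : Fin n → ℝ) : ℕ → ℝ := fun k =>
  if h : k < n then max (r ⟨k, h⟩) 0 else 0

lemma TRa_rp_nonneg (n : ℕ) (r : Fin n → ℝ) (k : ℕ) : 0 ≤ TRa_rp n r k := by
  unfold TRa_rp
  split_ifs
  · exact le_max_right _ _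
  · exact le_rfl

theorem TRa_map_eq (hk : IsKernel a) [IsProbabilityMeasure P] (h0 : 0 ≤ ε) (h1 : ε < 1)
    (hZ : IsVoterChain P a ε Z ξ) (n : ℕ) :
    P.map (fun ω => ((fun k => mis (Z k ω), fun k => ξ k ω) : TRa_X n)) =
      (Pr.withDensity fun ω => ENNReal.ofReal (TRa_L a ε n ∅ ω)).map
        (fun ω => ((fun k => (vc a true).Y k ∅ ω, fun k => ((ω k).2 : ℝ)) : TRa_X n)) := by
  have hG1 : Measurable (fun ω => ((fun k => mis (Z k ω), fun k => ξ k ω) : TRa_X n)) :=
    (measurable_pi_iff.2 fun k : Fin (n + 1) =>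
      measurable_mis.comp (hZ.measurable_Z (k : ℕ))).prodMk
      (measurable_pi_iff.2 fun k : Fin n => hZ.measurable_ξ (k : ℕ))
  have hG2 : Measurable (fun ω : Om =>
      ((fun k => (vc a true).Y k ∅ ω, fun k => ((ω k).2 : ℝ)) : TRa_X n)) :=
    (measurable_pi_iff.2 fun k : Fin (n + 1) => (vc a true).measurable_Yx (k : ℕ) ∅).prodMk
      (measurable_pi_iff.2 fun k : Fin n =>
        measurable_coe_nnreal_real.comp (measurable_snd.comp (measurable_pi_apply (k : ℕ))))
  have : IsProbabilityMeasure (P.map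
      (fun ω => ((fun k => mis (Z k ω), fun k => ξ k ω) : TRa_X n))) :=
    Measure.isProbabilityMeasure_map hG1.aemeasurable
  refine ext_of_generate_finite (TRa_C n) (TRa_C_gen n) (TRa_C_pi n) ?_ ?_
  · rintro _ ⟨_, ⟨s, rfl⟩, _, ⟨f, hf, rfl⟩, rfl⟩
    have hf' : ∀ k, ∃ r : ℝ, Set.Ioi r = f k := fun k => hf k (Set.mem_univ k)
    choose r hr using hf'
    have hms : MeasurableSet (({s} : Set (Fin (n + 1) → St)) ×ˢ Set.pi Set.univ f) := by
      refine (measurableSet_singleton s).prod (MeasurableSet.univ_pi fun k => ?_)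
      rw [← hr k]
      exact measurableSet_Ioi
    rw [Measure.map_apply hG1 hms, Measure.map_apply hG2 hms, withDensity_apply _ (hG2 hms)]
    have e1 : P ((fun ω => ((fun k => mis (Z k ω), fun k => ξ k ω) : TRa_X n)) ⁻¹'
        (({s} : Set (Fin (n + 1) → St)) ×ˢ Set.pi Set.univ f)) =
        P {ω | ∀ k ≤ n, Z k ω = cf true (TRa_ext n s k) ∧ TRa_rp n r k < ξ k ω} := by
      refine measure_congr ?_
      rw [eventuallyEq_set]
      filter_upwards [ae_class hk h0 h1 hZ] with ω hω
      simp only [Set.mem_preimage, Set.mem_prod, Set.mem_singleton_iff, Set.mem_pi, Set.mem_univ,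
        true_implies, Set.mem_ofPred_eq]
      constructor
      · rintro ⟨h2, h3⟩ k hk
        constructor
        · rw [(hω k).1]
          congr 1
          rw [← h2]
          exact (TRa_ext_apply n (fun k : Fin (n + 1) => mis (Z k ω)) ⟨k, by omega⟩).symm
        · unfold TRa_rp
          split_ifs with h
          · have := h3 ⟨k, h⟩
            rw [← hr, Set.mem_Ioi] at this
            exact max_lt this (hω k).2
          · exact (hω k).2
      · intro h2
        constructor
        · funext k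
          have := (h2 k (by have := k.2; omega)).1
          rw [this, mis_cf, TRa_ext_apply]
        · intro k
          have h3 := (h2 k (by have := k.2; omega)).2
          unfold TRa_rp at h3
          rw [dif_pos k.2] at h3
          rw [← hr, Set.mem_Ioi]
          exact (le_max_left _ _).trans_lt h3
    have e2 : ∫⁻ ω in ((fun ω : Om =>
        ((fun k => (vc a true).Y k ∅ ω, fun k => ((ω k).2 : ℝ)) : TRa_X n)) ⁻¹'
        (({s} : Set (Fin (n + 1) → St)) ×ˢ Set.pi Set.univ f)),
          ENNReal.ofReal (TRa_L a ε n ∅ ω) ∂Pr =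
        ∫⁻ ω in TRa_box a n ∅ (TRa_ext n s) (TRa_rp n r),
          ENNReal.ofReal (TRa_L a ε n ∅ ω) ∂Pr := by
      refine setLIntegral_congr ?_
      rw [eventuallyEq_set]
      filter_upwards [TRa_clock_pos] with ω hω
      simp only [Set.mem_preimage, Set.mem_prod, Set.mem_singleton_iff, Set.mem_pi, Set.mem_univ,
        true_implies, Set.mem_ofPred_eq, TRa_box]
      constructor
      · rintro ⟨h2, h3⟩
        constructor
        · intro k hk
          rw [← h2]
          exact (TRa_ext_apply n (fun k : Fin (n + 1) => (vc a true).Y k ∅ ω) ⟨k, by omega⟩).symm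
        · intro k h
          unfold TRa_rp
          rw [dif_pos h]
          have := h3 ⟨k, h⟩
          rw [← hr, Set.mem_Ioi] at this
          exact max_lt this (hω k)
      · rintro ⟨h2, h3⟩
        constructor
        · funext k
          rw [h2 k (by have := k.2; omega), TRa_ext_apply]
        · intro k
          have h4 := h3 k k.2
          unfold TRa_rp at h4
          rw [dif_pos k.2] at h4
          rw [← hr, Set.mem_Ioi]
          exact (le_max_left _ _).trans_lt h4
    rw [e1, e2]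
    exact TRa_law hk h0 h1 hZ n _ _ (TRa_rp_nonneg n r) (by simp [TRa_rp])
  · rw [measure_univ, Measure.map_apply hG2 MeasurableSet.univ, Set.preimage_univ,
      withDensity_apply _ MeasurableSet.univ, setLIntegral_univ, TRa_mass hk h0 h1]

/-- from finite histories to infinite ones -/
noncomputable def TRa_sig (n : ℕ) (p : TRa_X n) : (ℕ → St) × (ℕ → ℝ) :=
  (TRa_ext n p.1, fun k => if h : k < n then p.2 ⟨k, h⟩ else 0)

lemma TRa_measurable_sig (n : ℕ) : Measurable (TRa_sig n) := by
  refine Measurable.prodMk ?_ ?_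
  · exact measurable_pi_iff.2 fun k => (measurable_pi_apply _).comp measurable_fst
  · refine measurable_pi_iff.2 fun k => ?_
    by_cases h : k < n
    · simp only [h, dif_pos]
      exact (measurable_pi_apply _).comp measurable_snd
    · simp only [h, dif_neg, not_false_eq_true]
      exact measurable_const

theorem transfer (hk : IsKernel a) [IsProbabilityMeasure P] (h0 : 0 ≤ ε) (h1 : ε < 1)
    (hZ : IsVoterChain P a ε Z ξ) (n : ℕ) {F : (ℕ → St) × (ℕ → ℝ) → ℝ≥0∞} (hF : Measurable F) :
    ∫⁻ ω, F (abs' Z ξ n ω) ∂P =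
      ∫⁻ ω, ENNReal.ofReal (LRn a ε n ω) * F (can a n ω) ∂Pr := by
  have hG1 : Measurable (fun ω => ((fun k => mis (Z k ω), fun k => ξ k ω) : TRa_X n)) :=
    (measurable_pi_iff.2 fun k : Fin (n + 1) =>
      measurable_mis.comp (hZ.measurable_Z (k : ℕ))).prodMk
      (measurable_pi_iff.2 fun k : Fin n => hZ.measurable_ξ (k : ℕ))
  have hG2 : Measurable (fun ω : Om =>
      ((fun k => (vc a true).Y k ∅ ω, fun k => ((ω k).2 : ℝ)) : TRa_X n)) :=
    (measurable_pi_iff.2 fun k : Fin (n + 1) => (vc a true).measurable_Yx (k : ℕ) ∅).prodMk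
      (measurable_pi_iff.2 fun k : Fin n =>
        measurable_coe_nnreal_real.comp (measurable_snd.comp (measurable_pi_apply (k : ℕ))))
  have hFs : Measurable fun p : TRa_X n => F (TRa_sig n p) := hF.comp (TRa_measurable_sig n)
  have e1 : ∀ ω, abs' Z ξ n ω =
      TRa_sig n ((fun k => mis (Z k ω), fun k => ξ k ω) : TRa_X n) := by
    intro ω
    refine Prod.ext rfl ?_
    funext k
    simp only [abs', trE, TRa_sig]
    split_ifs <;> rfl
  have e2 : ∀ ω : Om, can a n ω =
      TRa_sig n ((fun k => (vc a true).Y k ∅ ω, fun k => ((ω k).2 : ℝ)) : TRa_X n) := by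
    intro ω
    refine Prod.ext rfl ?_
    funext k
    simp only [can, trE, TRa_sig]
    split_ifs <;> rfl
  have e3 : ∫⁻ ω, F (abs' Z ξ n ω) ∂P = ∫⁻ p, F (TRa_sig n p)
      ∂(P.map (fun ω => ((fun k => mis (Z k ω), fun k => ξ k ω) : TRa_X n))) := by
    rw [lintegral_map hFs hG1]
    exact lintegral_congr fun ω => by rw [e1]
  rw [e3, TRa_map_eq hk h0 h1 hZ n, lintegral_map hFs hG2]
  refine (lintegral_withDensity_eq_lintegral_mul Pr
    (TRa_measurable_L a ε n ∅).ennreal_ofReal (hFs.comp hG2)).trans ?_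
  refine lintegral_congr fun ω => ?_
  rw [Pi.mul_apply, e2]
  rfl

end H40.VM
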