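import Pool.Agent.H40.VM.VB1b

/-!
# Module VB1: law of a jump

`volume.map (Φ m)`: the measure `jsite` is a probability measure when `0 < tot`, so
`MeasureTheory.Measure.exists_measurable_map_eq` (file Mathlib/Probability/Kernel/Representation)
gives the measurable function chosen in `vc` (it gives a map from `unitInterval`).
-/

open MeasureTheory ProbabilityTheory Filter Topology
open scoped ENNReal NNReal unitInterval symmDiff

namespace H40.VM

open H40.Voter (IsKernel)

variable {a : ℤ → ℝ}

/-! ### law of a jump -/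

lemma vb1_jsite_univ (hk : IsKernel a) {b : Bool} {m : St} (h : 0 < tot a b m) :
    jsite a b m Set.univ = 1 := by
  unfold jsite
  rw [Measure.sum_apply _ MeasurableSet.univ]
  have e : ∀ j : ℤ, (ENNReal.ofReal (rt a b m j / tot a b m) • Measure.dirac j) Set.univ =
      ENNReal.ofReal (rt a b m j / tot a b m) := by
    intro j
    rw [Measure.smul_apply, Measure.dirac_apply_of_mem (Set.mem_univ _), smul_eq_mul, mul_one]
  rw [tsum_congr e, ← ENNReal.ofReal_tsum_of_nonneg
    (fun j => div_nonneg (rt_nonneg hk b m j) h.le) ((summable_rt hk b m).div_const _),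
    tsum_div_const]
  have : (∑' j : ℤ, rt a b m j) / tot a b m = 1 := div_self h.ne'
  rw [this, ENNReal.ofReal_one]

lemma vb1_spec (hk : IsKernel a) {b : Bool} {m : St} (h : 0 < tot a b m) :
    ∃ f : unitInterval → ℤ, Measurable f ∧ volume.map f = jsite a b m ∧
      (vc a b).Φ m = fun u => fl m (f u) := by
  have : IsProbabilityMeasure (jsite a b m) := ⟨vb1_jsite_univ hk h⟩
  have hex : ∃ f : unitInterval → ℤ, Measurable f ∧ volume.map f = jsite a b m :=
    MeasureTheory.Measure.exists_measurable_map_eq (jsite a b m)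
  refine ⟨hex.choose, hex.choose_spec.1, hex.choose_spec.2, ?_⟩
  have h2 : 0 < tot a b m ∧
      ∃ f : unitInterval → ℤ, Measurable f ∧ volume.map f = jsite a b m := ⟨h, hex⟩
  unfold vc
  simp only
  rw [dif_pos h2]

lemma q_true (hk : IsKernel a) (m : St) : (vc a true).q m = tot a true m :=
  if_pos (tot_true_pos hk m)

lemma q_false (hk : IsKernel a) {m : St} (hm : m ≠ ∅) : (vc a false).q m = tot a false m := by
  obtain ⟨c, hc, h⟩ := tot_false_ge hk
  exact if_pos (hc.trans_le (h m hm))

lemma q_empty : (vc a false).q ∅ = 1 :=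
  if_neg (by rw [tot_false_empty]; exact lt_irrefl 0)

lemma Φ_empty (u : unitInterval) : (vc a false).Φ ∅ u = ∅ := by
  unfold vc
  simp only
  rw [dif_neg]
  rintro ⟨h, -⟩
  rw [tot_false_empty] at h
  exact lt_irrefl 0 h

/-- every jump flips one site (or does nothing) -/
lemma Φ_eq (b : Bool) (m : St) (u : unitInterval) :
    (vc a b).Φ m u = m ∨ ∃ j, (vc a b).Φ m u = fl m j := by
  by_cases h : 0 < tot a b m ∧
      ∃ f : unitInterval → ℤ, Measurable f ∧ volume.map f = jsite a b m
  · right
    refine ⟨h.2.choose u, ?_⟩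
    unfold vc
    simp only
    rw [dif_pos h]
  · left
    unfold vc
    simp only
    rw [dif_neg h]

lemma Φ_eq_true (hk : IsKernel a) (m : St) (u : unitInterval) :
    ∃ j, (vc a true).Φ m u = fl m j := by
  obtain ⟨f, -, -, hf⟩ := vb1_spec hk (tot_true_pos hk m)
  exact ⟨f u, congrFun hf u⟩

lemma card_Φ_le (b : Bool) (m : St) (u : unitInterval) :
    ((vc a b).Φ m u).card ≤ m.card + 1 := by
  rcases Φ_eq (a := a) b m u with h | ⟨j, h⟩
  · rw [h]; omega
  · rw [h]; exact card_fl_le m j

lemma lintegral_Φ (hk : IsKernel a) {b : Bool} {m : St} (h : 0 < tot a b m) (f : St → ℝ≥0∞) :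
    ∫⁻ u, f ((vc a b).Φ m u) = ∑' j : ℤ, ENNReal.ofReal (rt a b m j / tot a b m) * f (fl m j) := by
  obtain ⟨g, hg, hg2, hg3⟩ := vb1_spec hk h
  rw [hg3]
  have e : ∫⁻ u, f (fl m (g u)) = ∫⁻ j, f (fl m j) ∂(volume.map g) :=
    (lintegral_map (f := fun j : ℤ => f (fl m j)) (measurable_of_countable _) hg).symm
  rw [e, hg2]
  unfold jsite
  rw [lintegral_sum_measure]
  refine tsum_congr fun j => ?_
  rw [lintegral_smul_measure, lintegral_dirac, smul_eq_mul]

lemma integral_Φ (hk : IsKernel a) {b : Bool} {m : St} (h : 0 < tot a b m) {f : St → ℝ}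
    (hf : Summable fun j : ℤ => rt a b m j * |f (fl m j)|) :
    Integrable (fun u => f ((vc a b).Φ m u)) volume ∧
      ∫ u, f ((vc a b).Φ m u) = (∑' j : ℤ, rt a b m j * f (fl m j)) / tot a b m := by
  obtain ⟨g, hg, hg2, hg3⟩ := vb1_spec hk h
  have hmeas : Measurable fun j : ℤ => f (fl m j) := measurable_of_countable _
  have hint : Integrable (fun j : ℤ => f (fl m j)) (jsite a b m) := by
    refine ⟨hmeas.aestronglyMeasurable, ?_⟩
    rw [hasFiniteIntegral_iff_enorm]
    unfold jsite
    rw [lintegral_sum_measure]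
    have e : ∀ j : ℤ, ∫⁻ i : ℤ, ‖f (fl m i)‖ₑ ∂(ENNReal.ofReal (rt a b m j / tot a b m) •
        Measure.dirac j) = ENNReal.ofReal (rt a b m j * |f (fl m j)| / tot a b m) := by
      intro j
      rw [lintegral_smul_measure, lintegral_dirac, smul_eq_mul, Real.enorm_eq_ofReal_abs,
        ← ENNReal.ofReal_mul (div_nonneg (rt_nonneg hk b m j) h.le)]
      congr 1
      ring
    rw [tsum_congr e, ← ENNReal.ofReal_tsum_of_nonneg
      (fun j => div_nonneg (mul_nonneg (rt_nonneg hk b m j) (abs_nonneg _)) h.le)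
      (hf.div_const _)]
    exact ENNReal.ofReal_lt_top
  have hint2 : Integrable (fun u => f (fl m (g u))) volume := by
    rw [← hg2] at hint
    exact hint.comp_measurable hg
  rw [hg3]
  refine ⟨hint2, ?_⟩
  have e : ∫ u, f (fl m (g u)) = ∫ j, f (fl m j) ∂(volume.map g) :=
    (integral_map hg.aemeasurable hmeas.aestronglyMeasurable).symm
  rw [e, hg2]
  have hint3 := hint
  unfold jsite at hint3 ⊢
  rw [integral_sum_measure hint3, ← tsum_div_const]
  refine tsum_congr fun j => ?_
  rw [integral_smul_measure, integral_dirac,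
    ENNReal.toReal_ofReal (div_nonneg (rt_nonneg hk b m j) h.le), smul_eq_mul]
  ring

lemma tot_mul_integral (hk : IsKernel a) {b : Bool} {m : St} (h : 0 < tot a b m) {f : St → ℝ}
    (hf : Summable fun j : ℤ => rt a b m j * |f (fl m j)|) :
    tot a b m * ((∫ u, f ((vc a b).Φ m u)) - f m) = gn a b f m := by
  rw [(integral_Φ hk h hf).2]
  have hs : Summable fun j : ℤ => rt a b m j * f (fl m j) := by
    refine Summable.of_abs ?_
    refine hf.congr fun j => ?_
    rw [abs_mul, abs_of_nonneg (rt_nonneg hk b m j)]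
  have e : gn a b f m = (∑' j : ℤ, rt a b m j * f (fl m j)) - tot a b m * f m := by
    unfold gn tot
    rw [← tsum_mul_right, ← hs.tsum_sub ((summable_rt hk b m).mul_right _)]
    exact tsum_congr fun j => by ring
  rw [e]
  field_simp

lemma lintegral_ofReal_Φ (hk : IsKernel a) {b : Bool} {m : St} (h : 0 < tot a b m) {f : St → ℝ}
    (hf0 : ∀ x, 0 ≤ f x) (hf : Summable fun j : ℤ => rt a b m j * f (fl m j)) :
    ∫⁻ u, ENNReal.ofReal (f ((vc a b).Φ m u)) =
      ENNReal.ofReal (f m + gn a b f m / tot a b m) := by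
  have hf' : Summable fun j : ℤ => rt a b m j * |f (fl m j)| :=
    hf.congr fun j => by rw [abs_of_nonneg (hf0 _)]
  obtain ⟨h1, h2⟩ := integral_Φ hk h hf'
  rw [← ofReal_integral_eq_lintegral_ofReal h1 (Filter.Eventually.of_forall fun u => hf0 _)]
  congr 1
  have h3 := tot_mul_integral hk h hf'
  rw [← h3]
  field_simp
  ring

/-- functions of linear growth -/
lemma summable_rt_of_growth (hk : IsKernel a) (b : Bool) (m : St) {f : St → ℝ} {K : ℝ}
    (hf : ∀ x : St, |f x| ≤ K * (1 + x.card)) :
    Summable fun j : ℤ => rt a b m j * |f (fl m j)| := by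
  refine Summable.of_nonneg_of_le (fun j => mul_nonneg (rt_nonneg hk b m j) (abs_nonneg _))
    (fun j => ?_) ((summable_rt hk b m).mul_right (|K| * (1 + (m.card + 1))))
  refine mul_le_mul_of_nonneg_left ?_ (rt_nonneg hk b m j)
  have h1 : ((fl m j).card : ℝ) ≤ m.card + 1 := by exact_mod_cast card_fl_le m j
  calc |f (fl m j)| ≤ K * (1 + (fl m j).card) := hf _
    _ ≤ |K| * (1 + (fl m j).card) := by gcongr; exact le_abs_self K
    _ ≤ |K| * (1 + (m.card + 1)) := by gcongr

end H40.VM
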