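import Pool.Agent.H40.VM.VC0

/-!
# Module VB1a: numbers of discrepancies

`cf b m i ≠ cf b m (i + d)` holds for only finitely many `i`. `nI` is subadditive and even in `d`.
For `b = true`, `∑_i (x(i+d) - x(i)) = d`, so `nI ≥ |d|`. Flipping one site changes at most two of
the pairs `(i, i + d)`. For `b = false`: for `d > 0` the pairs starting at `max m` and at
`min m - d` are discrepancies.
-/

open MeasureTheory ProbabilityTheory Filter Topology
open scoped ENNReal NNReal unitInterval symmDiff

namespace H40.VM

/-! ### discrepancies -/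

lemma cf_of_notMem {b : Bool} {m : St} {i : ℤ} (h : i ∉ m) : cf b m i = bs b i := by
  simp [cf, h]

lemma cf_false (m : St) (i : ℤ) : cf false m i = decide (i ∈ m) := by
  simp [cf, bs]

/-- the discrepancies are among the misplaced sites, their shifts, and those of the base -/
lemma disc_subset (b : Bool) (d : ℤ) (m : St) :
    {i : ℤ | cf b m i ≠ cf b m (i + d)} ⊆
      (m : Set ℤ) ∪ (m.image (fun i => i - d) : Finset ℤ) ∪ {i : ℤ | bs b i ≠ bs b (i + d)} := by
  intro i hi
  by_cases h1 : i ∈ m
  · exact Or.inl (Or.inl h1)
  by_cases h2 : i + d ∈ m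
  · refine Or.inl (Or.inr ?_)
    exact Finset.mem_coe.2 (Finset.mem_image.2 ⟨i + d, h2, by ring⟩)
  · refine Or.inr ?_
    simp only [Set.mem_setOf_eq, cf_of_notMem h1, cf_of_notMem h2] at hi
    exact hi

lemma bs_disc_subset (b : Bool) {d : ℤ} (hd : 0 ≤ d) :
    {i : ℤ | bs b i ≠ bs b (i + d)} ⊆ (Finset.Ico (-d) 0 : Finset ℤ) := by
  intro i hi
  simp only [Set.mem_setOf_eq, bs] at hi
  cases b with
  | false => simp at hi
  | true =>
    simp only [Bool.true_and, ne_eq, decide_eq_decide] at hi
    rw [Finset.mem_coe, Finset.mem_Ico]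
    constructor
    · by_contra h
      exact hi ⟨fun h1 => by omega, fun h1 => by omega⟩
    · by_contra h
      exact hi ⟨fun h1 => by omega, fun h1 => by omega⟩

/-- the shift of the discrepancies -/
lemma disc_neg (b : Bool) (d : ℤ) (m : St) :
    {i : ℤ | cf b m i ≠ cf b m (i + -d)} = (fun i => i + d) '' {i : ℤ | cf b m i ≠ cf b m (i + d)} := by
  ext i
  simp only [Set.mem_setOf_eq, Set.mem_image]
  constructor
  · intro h
    refine ⟨i - d, ?_, by ring⟩
    rw [sub_add_cancel]
    intro h'
    apply h
    rw [← sub_eq_add_neg]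
    exact h'.symm
  · rintro ⟨j, h, rfl⟩
    rw [add_neg_cancel_right]
    exact fun h' => h h'.symm

lemma nI_neg (b : Bool) (d : ℤ) (m : St) : nI b (-d) m = nI b d m := by
  unfold nI
  rw [disc_neg]
  exact Set.ncard_image_of_injective _ (add_left_injective d)

lemma nI_finite (b : Bool) (d : ℤ) (m : St) : {i : ℤ | cf b m i ≠ cf b m (i + d)}.Finite := by
  have key : ∀ d : ℤ, 0 ≤ d → {i : ℤ | cf b m i ≠ cf b m (i + d)}.Finite := by
    intro d hd
    refine Set.Finite.subset ?_ (disc_subset b d m)
    refine Set.Finite.union (Set.Finite.union (Finset.finite_toSet _) (Finset.finite_toSet _)) ?_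
    exact Set.Finite.subset (Finset.finite_toSet _) (bs_disc_subset b hd)
  rcases le_total 0 d with hd | hd
  · exact key d hd
  · have h := key (-d) (by omega)
    have e := disc_neg b (-d) m
    rw [neg_neg] at e
    rw [e]
    exact h.image _

@[simp] lemma nI_zero (b : Bool) (m : St) : nI b 0 m = 0 := by
  simp [nI]

lemma nI_add_le (b : Bool) (d e : ℤ) (m : St) : nI b (d + e) m ≤ nI b d m + nI b e m := by
  unfold nI
  have h : {i : ℤ | cf b m i ≠ cf b m (i + (d + e))} ⊆
      {i : ℤ | cf b m i ≠ cf b m (i + d)} ∪
        (fun i => i - d) '' {i : ℤ | cf b m i ≠ cf b m (i + e)} := by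
    intro i hi
    by_cases h1 : cf b m i = cf b m (i + d)
    · refine Or.inr ⟨i + d, ?_, by simp⟩
      simp only [Set.mem_setOf_eq] at hi ⊢
      rw [← h1, add_assoc]
      exact hi
    · exact Or.inl h1
  refine (Set.ncard_le_ncard h ((nI_finite b d m).union ((nI_finite b e m).image _))).trans ?_
  refine (Set.ncard_union_le _ _).trans (Nat.add_le_add_left ?_ _)
  exact Set.ncard_image_le (nI_finite b e m)

lemma nI_le_mul (b : Bool) (d : ℤ) (m : St) : nI b d m ≤ d.natAbs * nI b 1 m := by
  have key : ∀ n : ℕ, nI b (n : ℤ) m ≤ n * nI b 1 m := by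
    intro n
    induction n with
    | zero => simp
    | succ n ih =>
      push_cast
      refine (nI_add_le b n 1 m).trans ?_
      rw [Nat.add_mul, one_mul]
      exact Nat.add_le_add_right ih _
  rcases Int.natAbs_eq d with h | h
  · have := key d.natAbs
    rwa [← h] at this
  · have := key d.natAbs
    rw [← nI_neg, ← h] at this
    exact this

lemma nI_ge (d : ℤ) (m : St) : d.natAbs ≤ nI true d m := by
  have key : ∀ n : ℕ, n ≤ nI true (n : ℤ) m := by
    intro n
    rcases Nat.eq_zero_or_pos n with h0 | hn
    · omega
    -- every residue class contains a discrepancy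
    have hsurj : ∀ r : ℕ, r < n → ∃ i : ℤ, cf true m i ≠ cf true m (i + n) ∧ i % (n : ℤ) = r := by
      intro r hr
      by_contra hcon
      push_neg at hcon
      have hstep : ∀ k : ℤ, cf true m (r + k * n) = cf true m (r + (k + 1) * n) := by
        intro k
        by_contra hne
        have h1 := hcon (r + k * n) (by
          intro h
          apply hne
          rw [h]
          congr 1
          ring)
        apply h1
        rw [Int.add_mul_emod_self_right]
        exact Int.emod_eq_of_lt (by omega) (by omega)
      have hconst : ∀ k : ℤ, cf true m (r + k * n) = cf true m r := by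
        intro k
        induction k using Int.induction_on with
        | zero => simp
        | succ k ih => rw [← ih]; exact (hstep k).symm
        | pred k ih =>
          rw [← ih]
          have := hstep (-(k : ℤ) - 1)
          rw [this]
          congr 2
          ring
      -- a bound for the misplaced sites
      obtain ⟨M, hM⟩ : ∃ M : ℕ, ∀ i ∈ m, i.natAbs < M := by
        refine ⟨m.sup Int.natAbs + 1, fun i hi => ?_⟩
        exact Nat.lt_succ_of_le (Finset.le_sup (f := Int.natAbs) hi)
      have hn' : (1 : ℤ) ≤ n := by exact_mod_cast hn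
      have h1 : cf true m (r + (M : ℤ) * n) = true := by
        have h2 : (M : ℤ) ≤ (M : ℤ) * n := by nlinarith
        have h3 : (r + (M : ℤ) * n) ∉ m := by
          intro h
          have := hM _ h
          omega
        rw [cf_of_notMem h3]
        simp only [bs, Bool.true_and, decide_eq_true_eq]
        omega
      have h2 : cf true m (r + (-(M : ℤ) - 1) * n) = false := by
        have h2 : (M : ℤ) * n ≥ M := by nlinarith
        have hr' : (r : ℤ) < n := by exact_mod_cast hr
        have h4 : r + (-(M : ℤ) - 1) * n < -M := by nlinarith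
        have h3 : (r + (-(M : ℤ) - 1) * n) ∉ m := by
          intro h
          have := hM _ h
          omega
        rw [cf_of_notMem h3]
        simp only [bs, Bool.true_and, decide_eq_false_iff_not]
        omega
      rw [hconst] at h1 h2
      rw [h1] at h2
      exact absurd h2 (by decide)
    choose! g hg1 hg2 using hsurj
    have hinj : Set.InjOn g (Finset.range n : Finset ℕ) := by
      intro a ha b hb hab
      have h1 := hg2 a (Finset.mem_range.1 ha)
      have h2 := hg2 b (Finset.mem_range.1 hb)
      rw [hab, h2] at h1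
      exact_mod_cast h1.symm
    have hcard : ((Finset.range n).image g).card = n := by
      rw [Finset.card_image_of_injOn hinj, Finset.card_range]
    unfold nI
    have hsub : (((Finset.range n).image g : Finset ℤ) : Set ℤ) ⊆
        {i : ℤ | cf true m i ≠ cf true m (i + n)} := by
      intro i hi
      obtain ⟨r, hr, rfl⟩ := Finset.mem_image.1 (Finset.mem_coe.1 hi)
      exact hg1 r (Finset.mem_range.1 hr)
    have h := Set.ncard_le_ncard hsub (nI_finite true n m)
    rw [Set.ncard_coe_finset, hcard] at h
    exact h
  rcases Int.natAbs_eq d with h | h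
  · have := key d.natAbs
    rwa [← h] at this
  · have := key d.natAbs
    rw [← nI_neg, ← h] at this
    exact this

lemma nI_le_aux (b : Bool) (n : ℕ) (m : St) (c : ℕ)
    (hc : {i : ℤ | bs b i ≠ bs b (i + n)}.ncard ≤ c) (hf : {i : ℤ | bs b i ≠ bs b (i + n)}.Finite) :
    nI b n m ≤ c + 2 * m.card := by
  unfold nI
  refine (Set.ncard_le_ncard (disc_subset b n m)
    (((Finset.finite_toSet _).union (Finset.finite_toSet _)).union hf)).trans ?_
  refine (Set.ncard_union_le _ _).trans ?_
  have h1 : ((m : Set ℤ) ∪ (m.image (fun i => i - (n : ℤ)) : Finset ℤ)).ncard ≤ m.card + m.card := by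
    refine (Set.ncard_union_le _ _).trans ?_
    rw [Set.ncard_coe_finset, Set.ncard_coe_finset]
    exact Nat.add_le_add_left Finset.card_image_le _
  omega

lemma nI_le_true (d : ℤ) (m : St) : nI true d m ≤ d.natAbs + 2 * m.card := by
  have key : ∀ n : ℕ, nI true (n : ℤ) m ≤ n + 2 * m.card := by
    intro n
    refine nI_le_aux true n m n ?_ ?_
    · refine (Set.ncard_le_ncard (bs_disc_subset true (by omega : (0 : ℤ) ≤ n))
        (Finset.finite_toSet _)).trans ?_
      rw [Set.ncard_coe_finset, Int.card_Ico]
      omega
    · exact Set.Finite.subset (Finset.finite_toSet _) (bs_disc_subset true (by omega : (0 : ℤ) ≤ n))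
  rcases Int.natAbs_eq d with h | h
  · have := key d.natAbs
    rwa [← h] at this
  · have := key d.natAbs
    rw [← nI_neg, ← h] at this
    exact this

lemma nI_le_false (d : ℤ) (m : St) : nI false d m ≤ 2 * m.card := by
  have key : ∀ n : ℕ, nI false (n : ℤ) m ≤ 0 + 2 * m.card := by
    intro n
    have e : {i : ℤ | bs false i ≠ bs false (i + n)} = ∅ := by
      ext i
      simp [bs]
    refine nI_le_aux false n m 0 ?_ ?_
    · rw [e]; simp
    · rw [e]; exact Set.finite_empty
  rcases Int.natAbs_eq d with h | h
  · have := key d.natAbs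
    rw [← h] at this
    omega
  · have := key d.natAbs
    rw [← nI_neg, ← h] at this
    omega

lemma two_le_nI_false {d : ℤ} (hd : d ≠ 0) {m : St} (hm : m ≠ ∅) : 2 ≤ nI false d m := by
  have key : ∀ d : ℤ, 0 < d → 2 ≤ nI false d m := by
    intro d hd
    have hne := Finset.nonempty_iff_ne_empty.2 hm
    have hmax := m.max'_mem hne
    have hmin := m.min'_mem hne
    have h1 : m.max' hne + d ∉ m := by
      intro h
      have := m.le_max' _ h
      omega
    have h2 : m.min' hne - d ∉ m := by
      intro h
      have := m.min'_le _ h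
      omega
    have h3 := m.le_max' _ hmin
    have hsub : (({m.max' hne, m.min' hne - d} : Finset ℤ) : Set ℤ) ⊆
        {i : ℤ | cf false m i ≠ cf false m (i + d)} := by
      intro i hi
      simp only [Finset.coe_insert, Finset.coe_singleton, Set.mem_insert_iff,
        Set.mem_singleton_iff] at hi
      simp only [Set.mem_setOf_eq, cf_false]
      rcases hi with hi | hi
      · rw [hi]
        simp [h1, hmax]
      · rw [hi, sub_add_cancel]
        simp [h2, hmin]
    have h := Set.ncard_le_ncard hsub (nI_finite false d m)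
    rw [Set.ncard_coe_finset, Finset.card_pair (by omega)] at h
    exact h
  rcases lt_or_gt_of_ne hd with h | h
  · rw [← nI_neg]
    exact key (-d) (by omega)
  · exact key d h

lemma nI_fl_le (b : Bool) (d : ℤ) (m : St) (j : ℤ) : nI b d (fl m j) ≤ nI b d m + 2 := by
  unfold nI
  have hsub : {i : ℤ | cf b (fl m j) i ≠ cf b (fl m j) (i + d)} ⊆
      {i : ℤ | cf b m i ≠ cf b m (i + d)} ∪ (({j, j - d} : Finset ℤ) : Set ℤ) := by
    intro i hi
    by_cases h1 : i = j
    · right; simp [h1]
    by_cases h2 : i + d = j
    · right; simp [← h2]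
    · left
      simp only [Set.mem_setOf_eq, cf_fl, if_neg h1, if_neg h2] at hi
      exact hi
  refine (Set.ncard_le_ncard hsub ((nI_finite b d m).union (Finset.finite_toSet _))).trans ?_
  refine (Set.ncard_union_le _ _).trans (Nat.add_le_add_left ?_ _)
  rw [Set.ncard_coe_finset]
  exact Finset.card_le_two

lemma nI_fl (b : Bool) (d : ℤ) (m : St) (j : ℤ) :
    |(nI b d (fl m j) : ℝ) - nI b d m| ≤ 2 := by
  have h1 := nI_fl_le b d m j
  have h2 := nI_fl_le b d (fl m j) j
  rw [fl_fl] at h2
  have h1' : (nI b d (fl m j) : ℝ) ≤ nI b d m + 2 := by exact_mod_cast h1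
  have h2' : (nI b d m : ℝ) ≤ nI b d (fl m j) + 2 := by exact_mod_cast h2
  rw [abs_le]
  constructor <;> linarith

end H40.VM
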