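import Pool.Agent.H40.VM.VB1a

/-!
# Module VB1b: rates

If the misplaced sites lie in `[-R, R]` then `cf b m (j - k) ≠ cf b m j` implies `|j| ≤ R + |k|`, and
there are `nI b k m ≤ |k| + 2 |m|` such `j`. So all double sums over `(j, k)` converge by
`∑ a(k) (1 + k^2) < ∞`, and `tot = ∑_j ∑_k a(k) 1{..} = ∑_k a(k) nI b k m`.
`nI true 1 m ≤ C tot`: write `1` as a sum of steps `k` with `a k > 0` (irreducibility,
`Relation.ReflTransGen` from `0` to `1`), subadditivity and `a k * nI k ≤ tot`.
-/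

open MeasureTheory ProbabilityTheory Filter Topology
open scoped ENNReal NNReal unitInterval symmDiff

namespace H40.VM

open H40.Voter (IsKernel)

variable {a : ℤ → ℝ}

/-! ### auxiliary facts -/

/-- the sites which are different from the site at distance `k` to the left -/
def Dk (b : Bool) (m : St) (k : ℤ) : Set ℤ := {j : ℤ | cf b m (j - k) ≠ cf b m j}

lemma Dk_eq (b : Bool) (m : St) (k : ℤ) :
    Dk b m k = (fun i => i + k) '' {i : ℤ | cf b m i ≠ cf b m (i + k)} := by
  ext j
  simp only [Dk, Set.mem_ofPred_eq, Set.mem_image]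
  constructor
  · intro h
    exact ⟨j - k, by simpa using h, by ring⟩
  · rintro ⟨i, hi, rfl⟩
    simpa using hi

lemma Dk_finite (b : Bool) (m : St) (k : ℤ) : (Dk b m k).Finite := by
  rw [Dk_eq]; exact (nI_finite b k m).image _

lemma Dk_ncard (b : Bool) (m : St) (k : ℤ) : (Dk b m k).ncard = nI b k m := by
  rw [Dk_eq, Set.ncard_image_of_injective _ (add_left_injective k)]
  rfl

lemma nI_le (b : Bool) (k : ℤ) (m : St) : (nI b k m : ℝ) ≤ |(k : ℝ)| + 2 * m.card := by
  cases b
  · have h := nI_le_false k m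
    have h' : (nI false k m : ℝ) ≤ 2 * m.card := by exact_mod_cast h
    have := abs_nonneg (k : ℝ)
    linarith
  · have h := nI_le_true k m
    have h' : (nI true k m : ℝ) ≤ (k.natAbs : ℝ) + 2 * m.card := by exact_mod_cast h
    rw [Nat.cast_natAbs] at h'
    push_cast at h'
    exact h'

lemma Dk_bound (b : Bool) (m : St) (k : ℤ) {j : ℤ} (hj : j ∈ Dk b m k) :
    |(j : ℝ)| ≤ (∑ i ∈ m, |(i : ℝ)|) + |(k : ℝ)| := by
  have hm : ∀ i ∈ m, |(i : ℝ)| ≤ ∑ i ∈ m, |(i : ℝ)| := fun i hi =>
    Finset.single_le_sum (f := fun i : ℤ => |(i : ℝ)|) (fun _ _ => abs_nonneg _) hi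
  have h0 : 0 ≤ ∑ i ∈ m, |(i : ℝ)| := Finset.sum_nonneg fun _ _ => abs_nonneg _
  by_cases h1 : j ∈ m
  · have := hm j h1
    have := abs_nonneg (k : ℝ)
    linarith
  by_cases h2 : j - k ∈ m
  · have h3 := hm _ h2
    push_cast at h3
    have h4 : |(j : ℝ)| ≤ |(j : ℝ) - k| + |(k : ℝ)| := by
      have := abs_add_le ((j : ℝ) - k) k
      rwa [sub_add_cancel] at this
    linarith
  · have h3 : bs b (j - k) ≠ bs b j := by
      have := hj
      simp only [Dk, Set.mem_ofPred_eq, cf, h1, h2, decide_false, Bool.xor_false] at this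
      exact this
    have h4 : |j| ≤ |k| := by
      unfold bs at h3
      cases b
      · simp at h3
      · simp only [Bool.true_and, ne_eq, decide_eq_decide] at h3
        rcases abs_cases j with ⟨e1, _⟩ | ⟨e1, _⟩ <;> rcases abs_cases k with ⟨e2, _⟩ | ⟨e2, _⟩ <;>
          rw [e1, e2] <;> omega
    have h5 : |(j : ℝ)| ≤ |(k : ℝ)| := by exact_mod_cast h4
    linarith

lemma tsum_ite_le {D : Set ℤ} (hD : D.Finite) [DecidablePred (· ∈ D)] (g : ℤ → ℝ) (M : ℝ)
    (hM : ∀ j ∈ D, g j ≤ M) : ∑' j : ℤ, (if j ∈ D then g j else 0) ≤ D.ncard * M := by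
  rw [tsum_eq_sum (s := hD.toFinset) (fun j hj => by
    rw [if_neg]; simpa using hj)]
  calc ∑ j ∈ hD.toFinset, (if j ∈ D then g j else 0) ≤ ∑ j ∈ hD.toFinset, M := by
        apply Finset.sum_le_sum
        intro j hj
        have : j ∈ D := by simpa using hj
        rw [if_pos this]; exact hM j this
    _ = D.ncard * M := by
        rw [Finset.sum_const, nsmul_eq_mul, Set.ncard_eq_toFinset_card D hD]

lemma tsum_ite_one {D : Set ℤ} (hD : D.Finite) [DecidablePred (· ∈ D)] :
    ∑' j : ℤ, (if j ∈ D then (1 : ℝ) else 0) = D.ncard := by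
  rw [tsum_eq_sum (s := hD.toFinset) (fun j hj => by
    rw [if_neg]; simpa using hj)]
  rw [Finset.sum_congr rfl (g := fun _ => (1 : ℝ)) (fun j hj => by
    rw [if_pos]; simpa using hj)]
  rw [Finset.sum_const, nsmul_eq_mul, Set.ncard_eq_toFinset_card D hD, mul_one]

lemma summable_mul_abs (hk : IsKernel a) : Summable fun k : ℤ => a k * |(k : ℝ)| := by
  refine Summable.of_nonneg_of_le (fun k => mul_nonneg (hk.nonneg k) (abs_nonneg _)) (fun k => ?_)
    (hk.summable.add hk.second_moment)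
  have h1 : |(k : ℝ)| ≤ 1 + (k : ℝ) ^ 2 := by
    rw [← sq_abs]; nlinarith [abs_nonneg (k : ℝ), sq_nonneg (|(k : ℝ)| - 1)]
  have := mul_le_mul_of_nonneg_left h1 (hk.nonneg k)
  linarith

lemma summable_mul_quad (hk : IsKernel a) (A B : ℝ) :
    Summable fun k : ℤ => a k * ((|(k : ℝ)| + A) * (B + |(k : ℝ)|)) := by
  have h1 := hk.second_moment
  have h2 := (summable_mul_abs hk).mul_right (A + B)
  have h3 := hk.summable.mul_right (A * B)
  refine ((h1.add h2).add h3).congr (fun k => ?_)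
  rw [← sq_abs]; ring

/-- the double sum with weight `1 + |j|` -/
lemma prod_summable (hk : IsKernel a) (b : Bool) (m : St) :
    Summable fun p : ℤ × ℤ =>
      if cf b m (p.2 - p.1) ≠ cf b m p.2 then a p.1 * (1 + |(p.2 : ℝ)|) else 0 := by
  classical
  have hnn : 0 ≤ fun p : ℤ × ℤ =>
      if cf b m (p.2 - p.1) ≠ cf b m p.2 then a p.1 * (1 + |(p.2 : ℝ)|) else 0 := by
    intro p
    change 0 ≤ if cf b m (p.2 - p.1) ≠ cf b m p.2 then a p.1 * (1 + |(p.2 : ℝ)|) else 0
    split_ifs
    · exact mul_nonneg (hk.nonneg _) (by positivity)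
    · exact le_rfl
  rw [summable_prod_of_nonneg hnn]
  constructor
  · intro k
    refine summable_of_hasFiniteSupport ((Dk_finite b m k).subset ?_)
    intro j hj
    rw [Function.mem_support] at hj
    by_contra hc
    exact hj (if_neg hc)
  · set R : ℝ := ∑ i ∈ m, |(i : ℝ)| with hR
    refine Summable.of_nonneg_of_le (fun k => tsum_nonneg fun j => hnn (k, j)) (fun k => ?_)
      (summable_mul_quad hk (2 * m.card) (1 + R))
    have h1 : ∑' j : ℤ, (if cf b m ((k, j).2 - (k, j).1) ≠ cf b m (k, j).2 then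
        a (k, j).1 * (1 + |(((k, j).2 : ℤ) : ℝ)|) else 0)
        = ∑' j : ℤ, (if j ∈ Dk b m k then a k * (1 + |(j : ℝ)|) else 0) := by
      apply tsum_congr
      intro j
      by_cases hj : cf b m (j - k) ≠ cf b m j
      · rw [if_pos hj, if_pos (show j ∈ Dk b m k from hj)]
      · rw [if_neg hj, if_neg (show ¬ j ∈ Dk b m k from hj)]
    rw [h1]
    refine (tsum_ite_le (Dk_finite b m k) (fun j => a k * (1 + |(j : ℝ)|))
      (a k * (1 + R + |(k : ℝ)|)) (fun j hj => ?_)).trans ?_
    · apply mul_le_mul_of_nonneg_left _ (hk.nonneg k)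
      have := Dk_bound b m k hj
      linarith
    · rw [Dk_ncard]
      have h2 := nI_le b k m
      have h3 : 0 ≤ a k * (1 + R + |(k : ℝ)|) := by
        apply mul_nonneg (hk.nonneg k)
        have : 0 ≤ R := Finset.sum_nonneg fun _ _ => abs_nonneg _
        positivity
      calc (nI b k m : ℝ) * (a k * (1 + R + |(k : ℝ)|))
          ≤ (|(k : ℝ)| + 2 * m.card) * (a k * (1 + R + |(k : ℝ)|)) :=
            mul_le_mul_of_nonneg_right h2 h3
        _ = _ := by ring

/-! ### rates -/

lemma rt_nonneg (hk : IsKernel a) (b : Bool) (m : St) (j : ℤ) : 0 ≤ rt a b m j := by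
  unfold rt
  apply tsum_nonneg
  intro k
  split_ifs
  · exact hk.nonneg k
  · exact le_rfl

lemma summable_rt_inner (hk : IsKernel a) (b : Bool) (m : St) (j : ℤ) :
    Summable fun k : ℤ => if cf b m (j - k) ≠ cf b m j then a k else 0 := by
  refine Summable.of_nonneg_of_le (fun k => ?_) (fun k => ?_) hk.summable
  · split_ifs
    · exact hk.nonneg k
    · exact le_rfl
  · split_ifs
    · exact le_rfl
    · exact hk.nonneg k

lemma summable_rt_one_abs (hk : IsKernel a) (b : Bool) (m : St) :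
    Summable fun j : ℤ => rt a b m j * (1 + |(j : ℝ)|) := by
  have h := (prod_summable hk b m).prod_symm
  have h2 := h.prod
  refine h2.congr (fun j => ?_)
  unfold rt
  rw [← tsum_mul_right]
  apply tsum_congr
  intro k
  change (if cf b m (j - k) ≠ cf b m j then a k * (1 + |(j : ℝ)|) else 0) =
    (if cf b m (j - k) ≠ cf b m j then a k else 0) * (1 + |(j : ℝ)|)
  split_ifs
  · rfl
  · rw [zero_mul]

lemma summable_rt_abs (hk : IsKernel a) (b : Bool) (m : St) :
    Summable fun j : ℤ => rt a b m j * |(j : ℝ)| := by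
  refine Summable.of_nonneg_of_le (fun j => mul_nonneg (rt_nonneg hk b m j) (abs_nonneg _))
    (fun j => ?_) (summable_rt_one_abs hk b m)
  exact mul_le_mul_of_nonneg_left (by linarith) (rt_nonneg hk b m j)

lemma summable_rt (hk : IsKernel a) (b : Bool) (m : St) : Summable (rt a b m) := by
  refine Summable.of_nonneg_of_le (fun j => rt_nonneg hk b m j)
    (fun j => ?_) (summable_rt_one_abs hk b m)
  have := rt_nonneg hk b m j
  have := mul_nonneg this (abs_nonneg (j : ℝ))
  linarith

/-- exchange of the sums -/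
lemma tsum_rt_mul (hk : IsKernel a) (b : Bool) (m : St) (F : ℤ → ℝ)
    (hF : Summable fun j : ℤ => rt a b m j * |F j|) :
    (Summable fun k : ℤ => a k * ∑' j : ℤ, if cf b m (j - k) ≠ cf b m j then |F j| else 0) ∧
    ∑' j : ℤ, rt a b m j * F j =
      ∑' k : ℤ, a k * ∑' j : ℤ, if cf b m (j - k) ≠ cf b m j then F j else 0 := by
  have key : ∀ G : ℤ → ℝ, ∀ j, rt a b m j * G j =
      ∑' k : ℤ, (if cf b m (j - k) ≠ cf b m j then a k * G j else 0) := by
    intro G j
    unfold rt
    rw [← tsum_mul_right]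
    apply tsum_congr
    intro k
    split_ifs
    · rfl
    · rw [zero_mul]
  have key2 : ∀ G : ℤ → ℝ, ∀ k, a k * ∑' j : ℤ, (if cf b m (j - k) ≠ cf b m j then G j else 0) =
      ∑' j : ℤ, (if cf b m (j - k) ≠ cf b m j then a k * G j else 0) := by
    intro G k
    rw [← tsum_mul_left]
    apply tsum_congr
    intro j
    split_ifs
    · rfl
    · rw [mul_zero]
  have hnn : 0 ≤ fun p : ℤ × ℤ =>
      if cf b m (p.1 - p.2) ≠ cf b m p.1 then a p.2 * |F p.1| else 0 := by
    intro p
    change 0 ≤ if cf b m (p.1 - p.2) ≠ cf b m p.1 then a p.2 * |F p.1| else 0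
    split_ifs
    · exact mul_nonneg (hk.nonneg _) (abs_nonneg _)
    · exact le_rfl
  have hs : Summable fun p : ℤ × ℤ =>
      if cf b m (p.1 - p.2) ≠ cf b m p.1 then a p.2 * |F p.1| else 0 := by
    rw [summable_prod_of_nonneg hnn]
    constructor
    · intro j
      refine ((summable_rt_inner hk b m j).mul_right |F j|).congr (fun k => ?_)
      change (if cf b m (j - k) ≠ cf b m j then a k else 0) * |F j| =
        if cf b m (j - k) ≠ cf b m j then a k * |F j| else 0
      split_ifs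
      · rfl
      · rw [zero_mul]
    · refine hF.congr (fun j => ?_)
      exact key (fun j => |F j|) j
  constructor
  · refine hs.prod_symm.prod.congr (fun k => ?_)
    exact (key2 (fun j => |F j|) k).symm
  · have hs' : Summable fun p : ℤ × ℤ =>
        if cf b m (p.1 - p.2) ≠ cf b m p.1 then a p.2 * F p.1 else 0 := by
      refine Summable.of_norm (hs.congr (fun p => ?_))
      rw [Real.norm_eq_abs]
      split_ifs
      · rw [abs_mul, abs_of_nonneg (hk.nonneg _)]
      · rw [abs_zero]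
    rw [tsum_congr (key F), tsum_congr (key2 F)]
    exact (hs'.prod_symm).tsum_comm

lemma summable_mul_nI (hk : IsKernel a) (b : Bool) (m : St) :
    Summable fun k : ℤ => a k * (nI b k m : ℝ) := by
  classical
  have h := (tsum_rt_mul hk b m (fun _ => 1) (by simpa using summable_rt hk b m)).1
  refine h.congr (fun k => ?_)
  congr 1
  rw [← Dk_ncard, ← tsum_ite_one (Dk_finite b m k)]
  apply tsum_congr
  intro j
  simp only [abs_one]
  by_cases hj : cf b m (j - k) ≠ cf b m j
  · rw [if_pos hj, if_pos (show j ∈ Dk b m k from hj)]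
  · rw [if_neg hj, if_neg (show ¬ j ∈ Dk b m k from hj)]

lemma tot_eq (hk : IsKernel a) (b : Bool) (m : St) :
    tot a b m = ∑' k : ℤ, a k * (nI b k m : ℝ) := by
  classical
  have h := (tsum_rt_mul hk b m (fun _ => 1) (by simpa using summable_rt hk b m)).2
  simp only [mul_one] at h
  unfold tot
  rw [h]
  apply tsum_congr
  intro k
  congr 1
  rw [← Dk_ncard, ← tsum_ite_one (Dk_finite b m k)]
  apply tsum_congr
  intro j
  by_cases hj : cf b m (j - k) ≠ cf b m j
  · rw [if_pos hj, if_pos (show j ∈ Dk b m k from hj)]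
  · rw [if_neg hj, if_neg (show ¬ j ∈ Dk b m k from hj)]

lemma tot_nonneg (hk : IsKernel a) (b : Bool) (m : St) : 0 ≤ tot a b m :=
  tsum_nonneg fun j => rt_nonneg hk b m j

lemma mul_nI_le_tot (hk : IsKernel a) (b : Bool) (m : St) (k : ℤ) :
    a k * (nI b k m : ℝ) ≤ tot a b m := by
  rw [tot_eq hk]
  exact (summable_mul_nI hk b m).le_tsum k
    (fun j _ => mul_nonneg (hk.nonneg j) (Nat.cast_nonneg _))

lemma tot_true_ge (hk : IsKernel a) : ∃ c : ℝ, 0 < c ∧ ∀ m, c ≤ tot a true m := by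
  obtain ⟨k, hk2, hak⟩ := hk.long_jump
  refine ⟨a k, hak, fun m => le_trans ?_ (mul_nI_le_tot hk true m k)⟩
  have h1 := nI_ge k m
  have h2 : 1 ≤ nI true k m := by
    have : 1 ≤ k.natAbs := by
      rcases abs_cases k with ⟨e1, _⟩ | ⟨e1, _⟩ <;> omega
    omega
  have h3 : (1 : ℝ) ≤ nI true k m := by exact_mod_cast h2
  nlinarith

lemma tot_true_pos (hk : IsKernel a) (m : St) : 0 < tot a true m := by
  obtain ⟨c, hc, h⟩ := tot_true_ge hk
  exact hc.trans_le (h m)

lemma Lam_nonneg (hk : IsKernel a) : 0 ≤ Lam a := tsum_nonneg hk.nonneg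

lemma tot_true_le (hk : IsKernel a) : ∃ C : ℝ, 0 < C ∧ ∀ m, tot a true m ≤ C * (1 + m.card) := by
  have hs := summable_mul_abs hk
  have h0 : 0 ≤ ∑' k : ℤ, a k * |(k : ℝ)| :=
    tsum_nonneg fun k => mul_nonneg (hk.nonneg k) (abs_nonneg _)
  have hL := Lam_nonneg hk
  refine ⟨(∑' k : ℤ, a k * |(k : ℝ)|) + 2 * Lam a + 1, by positivity, fun m => ?_⟩
  rw [tot_eq hk]
  have h1 : ∑' k : ℤ, a k * (nI true k m : ℝ) ≤
      ∑' k : ℤ, (a k * |(k : ℝ)| + a k * (2 * m.card)) := by
    apply (summable_mul_nI hk true m).tsum_le_tsum _ (hs.add (hk.summable.mul_right _))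
    intro k
    have := mul_le_mul_of_nonneg_left (nI_le true k m) (hk.nonneg k)
    linarith
  rw [hs.tsum_add (hk.summable.mul_right _), tsum_mul_right] at h1
  have h2 : (0 : ℝ) ≤ m.card := Nat.cast_nonneg _
  have h3 : ∑' k : ℤ, a k = Lam a := rfl
  rw [h3] at h1
  nlinarith [mul_nonneg h0 h2, mul_nonneg hL h2]

lemma tot_false_le (hk : IsKernel a) (m : St) : tot a false m ≤ 2 * Lam a * m.card := by
  rw [tot_eq hk]
  have h1 : ∑' k : ℤ, a k * (nI false k m : ℝ) ≤ ∑' k : ℤ, a k * (2 * m.card) := by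
    apply (summable_mul_nI hk false m).tsum_le_tsum _ (hk.summable.mul_right _)
    intro k
    have h : (nI false k m : ℝ) ≤ 2 * m.card := by exact_mod_cast nI_le_false k m
    exact mul_le_mul_of_nonneg_left h (hk.nonneg k)
  rw [tsum_mul_right] at h1
  have h3 : ∑' k : ℤ, a k = Lam a := rfl
  rw [h3] at h1
  linarith

lemma tot_false_ge (hk : IsKernel a) : ∃ c : ℝ, 0 < c ∧ ∀ m, m ≠ ∅ → c ≤ tot a false m := by
  obtain ⟨k, hk2, hak⟩ := hk.long_jump
  refine ⟨a k, hak, fun m hm => le_trans ?_ (mul_nI_le_tot hk false m k)⟩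
  have hk0 : k ≠ 0 := by rintro rfl; simp at hk2
  have h1 := two_le_nI_false hk0 hm
  have h3 : (2 : ℝ) ≤ nI false k m := by exact_mod_cast h1
  nlinarith

lemma tot_false_empty : tot a false ∅ = 0 := by
  have h : ∀ i, cf false ∅ i = false := by intro i; simp [cf, bs]
  unfold tot rt
  simp [h]

lemma nI_one_le (hk : IsKernel a) :
    ∃ C : ℝ, 0 < C ∧ ∀ m, (nI true 1 m : ℝ) ≤ C * tot a true m := by
  have key : ∀ i : ℤ, Relation.ReflTransGen (fun u v : ℤ => 0 < a (v - u)) 0 i →
      ∃ C : ℝ, 0 ≤ C ∧ ∀ m, (nI true i m : ℝ) ≤ C * tot a true m := by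
    intro i hi
    induction hi with
    | refl =>
      exact ⟨0, le_rfl, fun m => by simp⟩
    | @tail u v _ huv ih =>
      obtain ⟨C, hC, h⟩ := ih
      refine ⟨C + (a (v - u))⁻¹, by positivity, fun m => ?_⟩
      have h1 := nI_add_le true u (v - u) m
      have h2 : u + (v - u) = v := by ring
      rw [h2] at h1
      have h3 : (nI true v m : ℝ) ≤ nI true u m + nI true (v - u) m := by exact_mod_cast h1
      have h4 := mul_nI_le_tot hk true m (v - u)
      have h5 : (nI true (v - u) m : ℝ) ≤ (a (v - u))⁻¹ * tot a true m := by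
        rw [inv_mul_eq_div, le_div_iff₀ huv, mul_comm]
        exact h4
      have := h m
      rw [add_mul]
      linarith
  obtain ⟨C, hC, h⟩ := key 1 (hk.irreducible 0 1)
  refine ⟨C + 1, by positivity, fun m => (h m).trans ?_⟩
  have := tot_nonneg hk true m
  nlinarith

end H40.VM
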