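import Pool.Agent.H40.VM.VB1

/-!
# Module VB2a: linear functionals and the centre

Write `x = cf b m` as a 0/1 valued function `xv b m`. Flipping `j` at rate
`rt j = ∑_k a(k) 1{x(j-k) ≠ x(j)}` changes `lin b ρ` by `(1 - 2 x(j)) ρ(j)`, and
`1{x(j-k) ≠ x(j)} (1 - 2 x(j)) = x(j-k) - x(j)`. Hence (`tsum_rt_mul`)
`gn (lin b ρ) m = ∑_k a(k) ∑_j ρ(j) (x(j-k) - x(j))`, and summation by parts in the misplaced sites
gives `gn_lin`. `cc` is minus the linear functional with `ρ = 1`.
-/

open MeasureTheory ProbabilityTheory Filter Topology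
open scoped ENNReal NNReal unitInterval symmDiff

namespace H40.VM

open H40.Voter (IsKernel)

variable {a : ℤ → ℝ}

/-- the configuration as a real function -/
def xv (b : Bool) (m : St) (i : ℤ) : ℝ := if cf b m i then 1 else 0

/-- the contribution of the base configuration to the drift of `lin b ρ` -/
noncomputable def bd (b : Bool) (ρ : ℤ → ℝ) (k : ℤ) : ℝ :=
  if b then (if 0 ≤ k then -∑ j ∈ Finset.Ico 0 k, ρ j else ∑ j ∈ Finset.Ico k 0, ρ j) else 0

lemma vb2_fl_mem {m : St} {j : ℤ} (h : j ∈ m) : fl m j = m.erase j := by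
  ext i
  simp only [fl, Finset.mem_symmDiff, Finset.mem_singleton, Finset.mem_erase]
  constructor
  · rintro (⟨h1, h2⟩ | ⟨h1, h2⟩)
    · exact ⟨h2, h1⟩
    · exact absurd (h1 ▸ h) h2
  · rintro ⟨h1, h2⟩
    exact Or.inl ⟨h2, h1⟩

lemma vb2_fl_notMem {m : St} {j : ℤ} (h : j ∉ m) : fl m j = insert j m := by
  ext i
  simp only [fl, Finset.mem_symmDiff, Finset.mem_singleton, Finset.mem_insert]
  constructor
  · rintro (⟨h1, h2⟩ | ⟨h1, h2⟩)
    · exact Or.inr h1
    · exact Or.inl h1
  · rintro (h1 | h1)
    · exact Or.inr ⟨h1, h1 ▸ h⟩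
    · exact Or.inl ⟨h1, fun h2 => h (h2 ▸ h1)⟩

lemma vb2_cf_mem {b : Bool} {m : St} {j : ℤ} (h : j ∈ m) : cf b m j = !bs b j := by
  simp [cf, h]

lemma vb2_cf_notMem {b : Bool} {m : St} {j : ℤ} (h : j ∉ m) : cf b m j = bs b j := by
  simp [cf, h]

lemma lin_fl (b : Bool) (ρ : ℤ → ℝ) (m : St) (j : ℤ) :
    lin b ρ (fl m j) = lin b ρ m + (if cf b m j then -ρ j else ρ j) := by
  unfold lin
  by_cases h : j ∈ m
  · rw [vb2_fl_mem h, vb2_cf_mem h, ← Finset.sum_erase_add _ _ h]
    unfold ys
    cases bs b j <;> simp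
  · rw [vb2_fl_notMem h, vb2_cf_notMem h, Finset.sum_insert h]
    unfold ys
    cases bs b j <;> simp [add_comm]

/-- generator of a linear functional, first form (the inner sum has finitely many nonzero terms) -/
theorem gn_lin' (hk : IsKernel a) (b : Bool) (ρ : ℤ → ℝ) (m : St)
    (hρ : Summable fun j : ℤ => rt a b m j * |ρ j|) :
    (Summable fun k : ℤ => a k * ∑' j : ℤ, ρ j * (xv b m (j - k) - xv b m j)) ∧
    gn a b (lin b ρ) m = ∑' k : ℤ, a k * ∑' j : ℤ, ρ j * (xv b m (j - k) - xv b m j) := by
  set F : ℤ → ℝ := fun j => if cf b m j then -ρ j else ρ j with hFdef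
  have habs : ∀ j, |F j| = |ρ j| := by
    intro j
    simp only [hFdef]
    split_ifs
    · exact abs_neg _
    · rfl
  have hF : Summable fun j : ℤ => rt a b m j * |F j| := hρ.congr fun j => by rw [habs]
  obtain ⟨h1, h2⟩ := tsum_rt_mul hk b m F hF
  have hinner : ∀ k j : ℤ, (if cf b m (j - k) ≠ cf b m j then F j else 0) =
      ρ j * (xv b m (j - k) - xv b m j) := by
    intro k j
    simp only [hFdef, xv]
    cases cf b m (j - k) <;> cases cf b m j <;> simp
  have hfin : ∀ k : ℤ, {j : ℤ | cf b m (j - k) ≠ cf b m j}.Finite := by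
    intro k
    refine Set.Finite.subset ((nI_finite b k m).image (fun i => i + k)) ?_
    intro j hj
    refine ⟨j - k, ?_, by simp⟩
    simpa using hj
  have hgn : gn a b (lin b ρ) m = ∑' j : ℤ, rt a b m j * F j := by
    unfold gn
    refine tsum_congr fun j => ?_
    rw [lin_fl]
    simp only [hFdef]
    ring
  have hin : ∀ k : ℤ, (∑' j : ℤ, if cf b m (j - k) ≠ cf b m j then F j else 0) =
      ∑' j : ℤ, ρ j * (xv b m (j - k) - xv b m j) := fun k => tsum_congr (hinner k)
  refine ⟨?_, ?_⟩
  · refine Summable.of_abs (Summable.of_nonneg_of_le (fun _ => abs_nonneg _) (fun k => ?_) h1)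
    rw [abs_mul, abs_of_nonneg (hk.nonneg k), ← hin k]
    refine mul_le_mul_of_nonneg_left ?_ (hk.nonneg k)
    have hs1 : Summable fun j : ℤ => |if cf b m (j - k) ≠ cf b m j then F j else 0| := by
      refine summable_of_finite_support ((hfin k).subset ?_)
      intro j hj
      rw [Function.mem_support] at hj
      by_contra hcon
      have hcon' : ¬ (cf b m (j - k) ≠ cf b m j) := hcon
      apply hj
      rw [if_neg hcon', abs_zero]
    have hs2 := hs1
    have e : ∀ j : ℤ, |if cf b m (j - k) ≠ cf b m j then F j else 0| =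
        if cf b m (j - k) ≠ cf b m j then |F j| else 0 := by
      intro j
      split_ifs <;> simp
    calc |∑' j : ℤ, if cf b m (j - k) ≠ cf b m j then F j else 0|
        ≤ ∑' j : ℤ, |if cf b m (j - k) ≠ cf b m j then F j else 0| := by
          have := norm_tsum_le_tsum_norm (f := fun j : ℤ =>
            if cf b m (j - k) ≠ cf b m j then F j else 0) hs1
          simpa only [Real.norm_eq_abs] using this
      _ = _ := tsum_congr e
  · rw [hgn, h2]
    exact tsum_congr fun k => by rw [hin k]

lemma vb2_hs (s : Finset ℤ) (f : ℤ → ℝ) (hf : ∀ j ∉ s, f j = 0) : HasSum f (∑ j ∈ s, f j) :=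
  hasSum_sum_of_ne_finset_zero hf

lemma tsum_parts (b : Bool) (ρ : ℤ → ℝ) (m : St) (k : ℤ) :
    ∑' j : ℤ, ρ j * (xv b m (j - k) - xv b m j) =
      bd b ρ k + ∑ i ∈ m, ys b i * (ρ (i + k) - ρ i) := by
  have hx : ∀ i, xv b m i = (if bs b i then (1 : ℝ) else 0) + (if i ∈ m then ys b i else 0) := by
    intro i
    unfold xv ys
    by_cases h : i ∈ m
    · rw [vb2_cf_mem h, if_pos h]
      cases bs b i <;> simp
    · rw [vb2_cf_notMem h, if_neg h]
      cases bs b i <;> simp
  have h2 : HasSum (fun j : ℤ => ρ j * (if j - k ∈ m then ys b (j - k) else 0))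
      (∑ i ∈ m, ys b i * ρ (i + k)) := by
    have h := vb2_hs (m.image (fun i => i + k))
      (fun j : ℤ => ρ j * (if j - k ∈ m then ys b (j - k) else 0)) (by
        intro j hj
        rw [if_neg, mul_zero]
        intro hjm
        apply hj
        rw [Finset.mem_image]
        exact ⟨j - k, hjm, by ring⟩)
    rw [Finset.sum_image (fun i _ j _ hij => add_right_cancel hij)] at h
    convert h using 1
    refine Finset.sum_congr rfl fun i hi => ?_
    rw [add_sub_cancel_right, if_pos hi, mul_comm]
  have h3 : HasSum (fun j : ℤ => ρ j * (if j ∈ m then ys b j else 0))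
      (∑ i ∈ m, ys b i * ρ i) := by
    have h := vb2_hs m
      (fun j : ℤ => ρ j * (if j ∈ m then ys b j else 0)) (by
        intro j hj
        rw [if_neg hj, mul_zero])
    convert h using 1
    refine Finset.sum_congr rfl fun i hi => ?_
    rw [if_pos hi, mul_comm]
  have h1 : HasSum (fun j : ℤ => ρ j * ((if bs b (j - k) then (1 : ℝ) else 0) -
      (if bs b j then (1 : ℝ) else 0))) (bd b ρ k) := by
    cases b with
    | false =>
      have e : (fun j : ℤ => ρ j * ((if bs false (j - k) then (1 : ℝ) else 0) -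
          (if bs false j then (1 : ℝ) else 0))) = fun _ => 0 := by
        funext j; simp [bs]
      rw [e]
      have : bd false ρ k = 0 := by simp [bd]
      rw [this]
      simp
    | true =>
      by_cases hk : 0 ≤ k
      · have h := vb2_hs (Finset.Ico 0 k)
          (fun j : ℤ => ρ j * ((if bs true (j - k) then (1 : ℝ) else 0) -
            (if bs true j then (1 : ℝ) else 0))) (by
            intro j hj
            rw [Finset.mem_Ico] at hj
            simp only [bs, Bool.true_and, decide_eq_true_eq]
            by_cases h0 : 0 ≤ j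
            · rw [if_pos (by omega), if_pos h0]; ring
            · rw [if_neg (by omega), if_neg h0]; ring)
        convert h using 1
        simp only [bd, if_true, if_pos hk]
        rw [← Finset.sum_neg_distrib]
        refine Finset.sum_congr rfl fun j hj => ?_
        rw [Finset.mem_Ico] at hj
        simp only [bs, Bool.true_and, decide_eq_true_eq]
        rw [if_neg (by omega), if_pos hj.1]; ring
      · have h := vb2_hs (Finset.Ico k 0)
          (fun j : ℤ => ρ j * ((if bs true (j - k) then (1 : ℝ) else 0) -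
            (if bs true j then (1 : ℝ) else 0))) (by
            intro j hj
            rw [Finset.mem_Ico] at hj
            simp only [bs, Bool.true_and, decide_eq_true_eq]
            by_cases h0 : 0 ≤ j
            · rw [if_pos (by omega), if_pos h0]; ring
            · rw [if_neg (by omega), if_neg h0]; ring)
        convert h using 1
        simp only [bd, if_true, if_neg hk]
        refine Finset.sum_congr rfl fun j hj => ?_
        rw [Finset.mem_Ico] at hj
        simp only [bs, Bool.true_and, decide_eq_true_eq]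
        rw [if_pos (by omega), if_neg (by omega)]; ring
  have h := (h1.add (h2.sub h3)).tsum_eq
  have e : (∑ i ∈ m, ys b i * ρ (i + k)) - ∑ i ∈ m, ys b i * ρ i =
      ∑ i ∈ m, ys b i * (ρ (i + k) - ρ i) := by
    rw [← Finset.sum_sub_distrib]
    exact Finset.sum_congr rfl fun i _ => by ring
  rw [← e, ← h]
  refine tsum_congr fun j => ?_
  rw [hx, hx]
  ring

/-- generator of a linear functional, second form -/
theorem gn_lin (hk : IsKernel a) (b : Bool) (ρ : ℤ → ℝ) (m : St)
    (hρ : Summable fun j : ℤ => rt a b m j * |ρ j|) :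
    gn a b (lin b ρ) m = ∑' k : ℤ, a k * (bd b ρ k + ∑ i ∈ m, ys b i * (ρ (i + k) - ρ i)) := by
  rw [(gn_lin' hk b ρ m hρ).2]
  exact tsum_congr fun k => by rw [tsum_parts]

/-! ### the centre -/

lemma cc_fl (m : St) (j : ℤ) :
    cc (fl m j) = if cf true m j then cc m + 1 else cc m - 1 := by
  unfold cc
  by_cases h : j ∈ m
  · rw [vb2_fl_mem h, vb2_cf_mem h, ← Finset.sum_erase_add _ _ h]
    by_cases h0 : 0 ≤ j
    · simp [bs, h0]
    · simp [bs, h0]
  · rw [vb2_fl_notMem h, vb2_cf_notMem h, Finset.sum_insert h]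
    by_cases h0 : 0 ≤ j
    · simp [bs, h0, add_comm]
    · simp only [bs, h0, decide_false, Bool.and_false, if_false, Bool.false_eq_true]
      ring

lemma abs_cc_le (m : St) : |cc m| ≤ m.card := by
  unfold cc
  refine (Finset.abs_sum_le_sum_abs _ _).trans ?_
  have : ∀ i ∈ m, |(if (0 : ℤ) ≤ i then (1 : ℤ) else -1)| = 1 := by
    intro i _
    split_ifs <;> simp
  rw [Finset.sum_congr rfl this]
  simp

lemma vb2_hone (hk : IsKernel a) (b : Bool) (m : St) :
    Summable fun j : ℤ => rt a b m j * |(fun _ : ℤ => (1 : ℝ)) j| := by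
  simpa using summable_rt hk b m

/-- generator of the linear functional with `ρ = 1` -/
lemma vb2_gn_one (hk : IsKernel a) (b : Bool) (m : St) :
    gn a b (lin b (fun _ => 1)) m = ∑' k : ℤ, a k * bd b (fun _ => 1) k := by
  rw [gn_lin hk b (fun _ => 1) m (vb2_hone hk b m)]
  exact tsum_congr fun k => by simp

lemma vb2_bd_true (k : ℤ) : bd true (fun _ => 1) k = -(k : ℝ) := by
  unfold bd
  simp only [if_true]
  by_cases h : 0 ≤ k
  · rw [if_pos h]
    simp only [Finset.sum_const, Int.card_Ico, sub_zero, nsmul_eq_mul, mul_one]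
    have : ((k.toNat : ℕ) : ℝ) = (k : ℝ) := by
      have := Int.toNat_of_nonneg h
      exact_mod_cast this
    rw [this]
  · rw [if_neg h]
    simp only [Finset.sum_const, Int.card_Ico, zero_sub, nsmul_eq_mul, mul_one]
    have : (((-k).toNat : ℕ) : ℝ) = ((-k : ℤ) : ℝ) := by
      have := Int.toNat_of_nonneg (show 0 ≤ -k by omega)
      exact_mod_cast this
    rw [this]
    push_cast
    rfl

lemma vb2_bd_false (k : ℤ) : bd false (fun _ => 1) k = 0 := by
  simp [bd]

lemma vb2_cc_lin (m : St) : (cc m : ℝ) = -lin true (fun _ => 1) m := by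
  unfold cc lin ys
  push_cast
  rw [← Finset.sum_neg_distrib]
  refine Finset.sum_congr rfl fun i _ => ?_
  by_cases h : 0 ≤ i
  · simp [bs, h]
  · simp [bs, h]

lemma vb2_rate (hk : IsKernel a) (b : Bool) (m : St) :
    ∑' j : ℤ, (if cf b m j then rt a b m j else 0) =
      (tot a b m - gn a b (lin b (fun _ => 1)) m) / 2 := by
  have hs := summable_rt hk b m
  have hU : Summable fun j : ℤ => if cf b m j then rt a b m j else 0 := by
    refine Summable.of_nonneg_of_le (fun j => ?_) (fun j => ?_) hs
    · split_ifs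
      · exact rt_nonneg hk b m j
      · exact le_rfl
    · split_ifs
      · exact le_rfl
      · exact rt_nonneg hk b m j
  have e : gn a b (lin b (fun _ => 1)) m =
      tot a b m - 2 * ∑' j : ℤ, (if cf b m j then rt a b m j else 0) := by
    unfold gn tot
    rw [← tsum_mul_left, ← hs.tsum_sub (hU.mul_left 2)]
    refine tsum_congr fun j => ?_
    rw [lin_fl]
    split_ifs <;> ring
  rw [e]
  ring

theorem gn_cc (hk : IsKernel a) (m : St) : gn a true (fun m => (cc m : ℝ)) m = mn a := by
  have e : gn a true (fun m => (cc m : ℝ)) m = -gn a true (lin true (fun _ => 1)) m := by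
    unfold gn
    rw [← tsum_neg]
    refine tsum_congr fun j => ?_
    change rt a true m j * ((cc (fl m j) : ℝ) - (cc m : ℝ)) = _
    rw [vb2_cc_lin, vb2_cc_lin]
    ring
  rw [e, vb2_gn_one hk]
  unfold mn
  rw [← tsum_neg]
  exact tsum_congr fun k => by rw [vb2_bd_true]; ring

/-- rate of the upward jumps of the centre -/
theorem rate_up (hk : IsKernel a) (m : St) :
    ∑' j : ℤ, (if cf true m j then rt a true m j else 0) = (tot a true m + mn a) / 2 := by
  rw [vb2_rate hk, vb2_gn_one hk]
  have e : ∑' k : ℤ, a k * bd true (fun _ => 1) k = -mn a := by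
    unfold mn
    rw [← tsum_neg]
    exact tsum_congr fun k => by rw [vb2_bd_true]; ring
  rw [e]
  ring

/-- for finite configurations the number of ones goes up and down at the same rate -/
theorem rate_up_false (hk : IsKernel a) (m : St) :
    ∑' j : ℤ, (if cf false m j then rt a false m j else 0) = tot a false m / 2 := by
  rw [vb2_rate hk, vb2_gn_one hk]
  have e : ∑' k : ℤ, a k * bd false (fun _ => 1) k = 0 := by
    simp [vb2_bd_false]
  rw [e]
  ring

end H40.VM
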