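import Pool.Agent.H40.Voter.Defs
import Pool.Agent.H40.VM.CT1

/-!
# The voter model as a countable Markov chain: definitions

States are finite sets `m` of misplaced sites with respect to the base configuration `bs b`:
`b = true` is the Heaviside configuration, `b = false` is the zero configuration.
-/

open MeasureTheory ProbabilityTheory Filter Topology
open scoped ENNReal NNReal unitInterval symmDiff

namespace H40.VM

open H40.Voter (IsKernel)

/-- states: finite sets of misplaced sites -/
abbrev St : Type := Finset ℤ

instance : MeasurableSpace St := ⊤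
instance : DiscreteMeasurableSpace St := ⟨fun _ => trivial⟩

/-- base configuration -/
def bs (b : Bool) (i : ℤ) : Bool := b && decide (0 ≤ i)

/-- the configuration of the state `m` -/
def cf (b : Bool) (m : St) (i : ℤ) : Bool := xor (bs b i) (decide (i ∈ m))

/-- flip the site `j` -/
def fl (m : St) (j : ℤ) : St := m ∆ {j}

lemma cf_fl (b : Bool) (m : St) (i j : ℤ) :
    cf b (fl m j) i = if i = j then !(cf b m i) else cf b m i := by
  unfold cf fl
  by_cases h : i = j
  · subst h
    by_cases h2 : i ∈ m <;> simp [Finset.mem_symmDiff, h2]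
  · simp [Finset.mem_symmDiff, h]

lemma fl_injective (m : St) : Function.Injective (fl m) := by
  intro i j h
  have := congrArg (fun s => m ∆ s) h
  simpa [fl] using this

lemma fl_ne (m : St) (j : ℤ) : fl m j ≠ m := by
  intro h
  have := cf_fl false m j j
  rw [h] at this
  simp at this

@[simp] lemma fl_fl (m : St) (j : ℤ) : fl (fl m j) j = m := by
  simp [fl]

lemma card_fl_le (m : St) (j : ℤ) : (fl m j).card ≤ m.card + 1 := by
  refine (Finset.card_le_card (t := m ∪ {j}) ?_).trans ?_
  · intro i hi
    simp only [fl, Finset.mem_symmDiff, Finset.mem_singleton] at hi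
    simp only [Finset.mem_union, Finset.mem_singleton]
    tauto
  · simpa using Finset.card_union_le m {j}

/-- the rate at which the site `j` flips (unbiased voter model with kernel `a`) -/
noncomputable def rt (a : ℤ → ℝ) (b : Bool) (m : St) (j : ℤ) : ℝ :=
  ∑' k : ℤ, if cf b m (j - k) ≠ cf b m j then a k else 0

/-- the total rate -/
noncomputable def tot (a : ℤ → ℝ) (b : Bool) (m : St) : ℝ := ∑' j : ℤ, rt a b m j

/-- number of pairs of sites at distance `d` with different values -/
noncomputable def nI (b : Bool) (d : ℤ) (m : St) : ℕ :=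
  {i : ℤ | cf b m i ≠ cf b m (i + d)}.ncard

/-- the law of the flipped site in the state `m` -/
noncomputable def jsite (a : ℤ → ℝ) (b : Bool) (m : St) : Measure ℤ :=
  Measure.sum fun j : ℤ => ENNReal.ofReal (rt a b m j / tot a b m) • Measure.dirac j

open Classical in
/-- the voter model with base `b`: when the total rate vanishes the chain stays put (with null
jumps at rate one) -/
noncomputable def vc (a : ℤ → ℝ) (b : Bool) : Chain St where
  Φ m := if h : 0 < tot a b m ∧
      ∃ f : unitInterval → ℤ, Measurable f ∧ volume.map f = jsite a b m then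
      fun u => fl m (h.2.choose u)
    else fun _ => m
  q m := if 0 < tot a b m then tot a b m else 1
  meas m := by
    split_ifs with h
    · exact (measurable_of_countable (fl m)).comp h.2.choose_spec.1
    · exact measurable_const
  qpos m := by
    split_ifs with h
    · exact h
    · exact one_pos

/-- the generator of the voter model (on functions of the state) -/
noncomputable def gn (a : ℤ → ℝ) (b : Bool) (f : St → ℝ) (m : St) : ℝ :=
  ∑' j : ℤ, rt a b m j * (f (fl m j) - f m)

/-- the value `x(i) - β(i)` at a misplaced site `i` -/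
def ys (b : Bool) (i : ℤ) : ℝ := if bs b i then -1 else 1

/-- the linear functional `∑ ρ(i) (x(i) - β(i))` -/
noncomputable def lin (b : Bool) (ρ : ℤ → ℝ) (m : St) : ℝ := ∑ i ∈ m, ys b i * ρ i

/-- the centre of an interface configuration: the number of zeros at nonnegative sites minus the
number of ones at negative sites -/
def cc (m : St) : ℤ := ∑ i ∈ m, if 0 ≤ i then 1 else -1

/-- the number of inversions (pairs of a one to the left of a zero), written as
dipole moment minus its value for the sorted configuration -/
noncomputable def hh (m : St) : ℝ :=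
  lin true (fun i => -(i : ℝ)) m - (cc m : ℝ) * ((cc m : ℝ) - 1) / 2

/-- the number of ones at sites `≤ r` -/
noncomputable def no (b : Bool) (m : St) (r : ℝ) : ℕ :=
  {i : ℤ | (i : ℝ) ≤ r ∧ cf b m i = true}.ncard

/-- the number of zeros at sites `> r` -/
noncomputable def nz (m : St) (r : ℝ) : ℕ :=
  {i : ℤ | r < (i : ℝ) ∧ cf true m i = false}.ncard

/-- there is a one at a site `≤ r` -/
def low (b : Bool) (m : St) (r : ℝ) : Prop := ∃ i : ℤ, (i : ℝ) ≤ r ∧ cf b m i = true

/-- variance -/
noncomputable def sg (a : ℤ → ℝ) : ℝ := ∑' k : ℤ, a k * (k : ℝ) ^ 2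

/-- total rate of the kernel -/
noncomputable def Lam (a : ℤ → ℝ) : ℝ := ∑' k : ℤ, a k

/-- mean -/
noncomputable def mn (a : ℤ → ℝ) : ℝ := ∑' k : ℤ, a k * (k : ℝ)

/-- truncated fourth moment of the left tail -/
noncomputable def c3 (a : ℤ → ℝ) (z : ℝ) : ℝ :=
  ∑' n : ℕ, a (-(n : ℤ)) * n * (min (n : ℝ) z) ^ 3

end H40.VM
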